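import Pool.Agent.Lib.BLP.Rec

/-!
# Chunk AR1: arrays: subwords, explicit formula for the reversal, mirror image

`y g ≤ l g`; block `g` is the word `-^{y g} +^{l g - y g}`, a plus followed by a minus cancels; `PP, QQ` =
unmatched minus / plus letters of the prefix (`BLP/Rec.lean`).  All statements have been tested
numerically.

`revneg`: by induction from the last block, the target `tt` of `BLP/Rec` is `min (PP g) (QQ K)`.
`revpos`: mirror image (order of the blocks reversed, `y ↔ l - y`), for instance from `revneg` for the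
mirror arrays and the uniqueness of the reversal, or directly: for total `X ≥ 0` the excess
`e g = tt g - PP g` is `min X (min over h ≥ g of (QQ h - y h)^+)`.
-/

namespace BLO

open Finset BLP

/-- shifted array -/
def sh (a : ℕ) (y : ℕ → ℕ) : ℕ → ℕ := fun g => y (a + g)

/-- unmatched minus letters of the subword of the blocks `a ≤ g < b` -/
def SP (y l : ℕ → ℕ) (a b : ℕ) : ℕ := PP (sh a y) (sh a l) (b - a)

/-- unmatched plus letters of the subword of the blocks `a ≤ g < b` -/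
def SQ (y l : ℕ → ℕ) (a b : ℕ) : ℕ := QQ (sh a y) (sh a l) (b - a)

/-- value of the subword of the blocks `a ≤ g < b` -/
def SZ (y l : ℕ → ℕ) (a b : ℕ) : ℤ := ∑ g ∈ Ico a b, ((l g : ℤ) - 2 * y g)

theorem sh_zero (y : ℕ → ℕ) : sh 0 y = y := by
  funext g
  simp [sh]

theorem SP_zero (y l : ℕ → ℕ) (b : ℕ) : SP y l 0 b = PP y l b := by
  unfold SP
  rw [sh_zero, sh_zero, Nat.sub_zero]

theorem SQ_zero (y l : ℕ → ℕ) (b : ℕ) : SQ y l 0 b = QQ y l b := by
  unfold SQ
  rw [sh_zero, sh_zero, Nat.sub_zero]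

theorem SQ_sub_SP (y l : ℕ → ℕ) (hyl : ∀ g, y g ≤ l g) {a b : ℕ} (_hab : a ≤ b) :
    (SQ y l a b : ℤ) - SP y l a b = SZ y l a b := by
  unfold SQ SP SZ
  rw [QQ_sub_PP (sh a y) (sh a l) (b - a) (fun g _ => hyl (a + g)), Finset.sum_Ico_eq_sum_range]
  rfl

theorem AR1_self (y l : ℕ → ℕ) (a : ℕ) : SP y l a a = 0 ∧ SQ y l a a = 0 := by
  unfold SP SQ
  rw [Nat.sub_self]
  exact ⟨rfl, rfl⟩

theorem AR1_succ (y l : ℕ → ℕ) {a c : ℕ} (hac : a ≤ c) :
    SP y l a (c + 1) = SP y l a c + (y c - SQ y l a c) ∧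
    SQ y l a (c + 1) = (l c - y c) + (SQ y l a c - y c) := by
  unfold SP SQ
  rw [show c + 1 - a = (c - a) + 1 by omega, PP_succ, QQ_succ]
  have h1 : sh a y (c - a) = y c := by
    unfold sh
    rw [Nat.add_sub_cancel' hac]
  have h2 : sh a l (c - a) = l c := by
    unfold sh
    rw [Nat.add_sub_cancel' hac]
  rw [h1, h2]
  exact ⟨rfl, rfl⟩

theorem AR1_one (y l : ℕ → ℕ) (c : ℕ) :
    SP y l c (c + 1) = y c ∧ SQ y l c (c + 1) = l c - y c := by
  obtain ⟨h1, h2⟩ := AR1_succ y l (le_refl c)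
  obtain ⟨h3, h4⟩ := AR1_self y l c
  rw [h1, h2, h3, h4]
  omega

theorem SP_append (y l : ℕ → ℕ) {a b c : ℕ} (hab : a ≤ b) (hbc : b ≤ c) :
    SP y l a c = SP y l a b + (SP y l b c - SQ y l a b) ∧
    SQ y l a c = SQ y l b c + (SQ y l a b - SP y l b c) := by
  obtain ⟨d, rfl⟩ := Nat.exists_eq_add_of_le hbc
  clear hbc
  induction d with
  | zero =>
    rw [Nat.add_zero, (AR1_self y l b).1, (AR1_self y l b).2]
    omega
  | succ d ih =>
    obtain ⟨i1, i2⟩ := ih
    obtain ⟨a1, a2⟩ := AR1_succ y l (show a ≤ b + d by omega)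
    obtain ⟨b1, b2⟩ := AR1_succ y l (show b ≤ b + d by omega)
    rw [← Nat.add_assoc, a1, a2, b1, b2]
    rw [i1, i2]
    generalize SP y l a b = p
    generalize SQ y l a b = r
    generalize SP y l b (b + d) = p'
    generalize SQ y l b (b + d) = r'
    generalize y (b + d) = yy
    generalize l (b + d) = ll
    constructor <;> omega

/-- mirror arrays -/
def my (K : ℕ) (y l : ℕ → ℕ) : ℕ → ℕ := fun g => l (K - 1 - g) - y (K - 1 - g)
def ml (K : ℕ) (l : ℕ → ℕ) : ℕ → ℕ := fun g => l (K - 1 - g)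

theorem mirror_sub (y l : ℕ → ℕ) (hyl : ∀ g, y g ≤ l g) (K : ℕ) {a b : ℕ} (hab : a ≤ b)
    (hb : b ≤ K) :
    SP (my K y l) (ml K l) a b = SQ y l (K - b) (K - a) ∧
    SQ (my K y l) (ml K l) a b = SP y l (K - b) (K - a) ∧
    SZ (my K y l) (ml K l) a b = - SZ y l (K - b) (K - a) := by
  have hm : ∀ g, my K y l g ≤ ml K l g := fun g => Nat.sub_le _ _
  have key : SP (my K y l) (ml K l) a b = SQ y l (K - b) (K - a) ∧
      SQ (my K y l) (ml K l) a b = SP y l (K - b) (K - a) := by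
    obtain ⟨d, rfl⟩ := Nat.exists_eq_add_of_le hab
    clear hab
    induction d with
    | zero =>
      rw [Nat.add_zero, (AR1_self _ _ a).1, (AR1_self _ _ a).2, (AR1_self _ _ (K - a)).1,
        (AR1_self _ _ (K - a)).2]
      exact ⟨rfl, rfl⟩
    | succ d ih =>
      obtain ⟨i1, i2⟩ := ih (by omega)
      obtain ⟨a1, a2⟩ := AR1_succ (my K y l) (ml K l) (show a ≤ a + d by omega)
      have e : K - (a + d) = (K - (a + (d + 1))) + 1 := by omega
      have e2 : K - 1 - (a + d) = K - (a + (d + 1)) := by omega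
      obtain ⟨b1, b2⟩ := SP_append y l (show K - (a + (d + 1)) ≤ K - (a + (d + 1)) + 1 by omega)
        (show K - (a + (d + 1)) + 1 ≤ K - a by omega)
      obtain ⟨c1, c2⟩ := AR1_one y l (K - (a + (d + 1)))
      rw [← e] at b1 b2 c1 c2
      change SP (my K y l) (ml K l) a (a + d + 1) = SQ y l (K - (a + (d + 1))) (K - a) ∧
        SQ (my K y l) (ml K l) a (a + d + 1) = SP y l (K - (a + (d + 1))) (K - a)
      rw [a1, a2, b1, b2, c1, c2, i1, i2]
      unfold my ml
      rw [e2]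
      have h3 := hyl (K - (a + (d + 1)))
      generalize SP y l (K - (a + d)) (K - a) = p
      generalize SQ y l (K - (a + d)) (K - a) = r
      generalize y (K - (a + (d + 1))) = yy at *
      generalize l (K - (a + (d + 1))) = ll at *
      constructor <;> omega
  refine ⟨key.1, key.2, ?_⟩
  rw [← SQ_sub_SP _ _ hm hab, ← SQ_sub_SP y l hyl (show K - b ≤ K - a by omega), key.1, key.2]
  ring

/-- the position of block `g` after the reversal if the value of the word is `≤ 0` -/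
def GG (y l : ℕ → ℕ) (K g : ℕ) : ℤ :=
  min (y g : ℤ) (SZ y l 0 g + max (PP y l g : ℤ) (QQ y l K))

/-- the targets of the reversal -/
theorem AR1_tt (y l : ℕ → ℕ) (hyl : ∀ g, y g ≤ l g) (K : ℕ) (d : ℕ) (hd : d ≤ K) :
    tt y l K (QQ y l K) (K - d) =
      min (PP y l (K - d) + (QQ y l (K - d) - SP y l (K - d) K)) (QQ y l K) := by
  induction d with
  | zero =>
    rw [Nat.sub_zero, tt_self, (AR1_self y l K).1]
    omega
  | succ d ih =>
    have e : K - (d + 1) + 1 = K - d := by omega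
    have h1 := tt_tt y l K (QQ y l K) (K - (d + 1)) (by omega)
    rw [e, ih (by omega)] at h1
    obtain ⟨b1, -⟩ := SP_append y l (show K - (d + 1) ≤ K - (d + 1) + 1 by omega)
      (show K - (d + 1) + 1 ≤ K by omega)
    obtain ⟨c1, c2⟩ := AR1_one y l (K - (d + 1))
    have p1 := PP_succ y l (K - (d + 1))
    have q1 := QQ_succ y l (K - (d + 1))
    rw [e] at b1 c1 c2 p1 q1
    have h3 := hyl (K - (d + 1))
    rw [h1, b1, c1, c2, p1, q1]
    unfold cc
    generalize PP y l (K - (d + 1)) = p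
    generalize QQ y l (K - (d + 1)) = r
    generalize SP y l (K - d) K = p'
    generalize QQ y l K = T
    generalize y (K - (d + 1)) = yy at *
    generalize l (K - (d + 1)) = ll at *
    omega

theorem AR1_tt' (y l : ℕ → ℕ) (hyl : ∀ g, y g ≤ l g) (K : ℕ) (g : ℕ) (hg : g ≤ K) :
    tt y l K (QQ y l K) g = min (PP y l g + (QQ y l g - SP y l g K)) (QQ y l K) := by
  have := AR1_tt y l hyl K (K - g) (by omega)
  rwa [Nat.sub_sub_self hg] at this

theorem AR1_SZ (y l : ℕ → ℕ) (hyl : ∀ g, y g ≤ l g) (g : ℕ) :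
    SZ y l 0 g = (QQ y l g : ℤ) - PP y l g := by
  rw [← SQ_sub_SP y l hyl (Nat.zero_le g), SP_zero, SQ_zero]

theorem revneg (y l : ℕ → ℕ) (hyl : ∀ g, y g ≤ l g) (K : ℕ) (hX : SZ y l 0 K ≤ 0) (g : ℕ)
    (hg : g < K) : (dcd y l K (QQ y l K) g : ℤ) = GG y l K g := by
  rw [dcd_tt_self y l K _ g hg, AR1_tt' y l hyl K (g + 1) (by omega)]
  unfold GG
  rw [AR1_SZ y l hyl g]
  rw [AR1_SZ y l hyl K] at hX
  obtain ⟨a1, a2⟩ := SP_append y l (show 0 ≤ g + 1 by omega) (show g + 1 ≤ K by omega)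
  rw [SP_zero, SP_zero, SQ_zero] at a1
  rw [SQ_zero, SQ_zero] at a2
  have p1 := PP_succ y l g
  have q1 := QQ_succ y l g
  have h3 := hyl g
  rw [p1, q1] at a1
  rw [q1] at a2
  rw [p1, q1]
  unfold kk cc
  generalize SP y l (g + 1) K = A at *
  generalize SQ y l (g + 1) K = B at *
  generalize PP y l g = p at *
  generalize QQ y l g = r at *
  generalize PP y l K = PK at *
  generalize QQ y l K = QK at *
  generalize y g = yy at *
  generalize l g = ll at *
  omega

theorem revpos (y l : ℕ → ℕ) (hyl : ∀ g, y g ≤ l g) (K : ℕ) (hX : 0 ≤ SZ y l 0 K) (g : ℕ)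
    (hg : g < K) :
    (l g : ℤ) - dcd y l K (QQ y l K) g = GG (my K y l) (ml K l) K (K - 1 - g) := by
  have hm : ∀ g, my K y l g ≤ ml K l g := fun g => Nat.sub_le _ _
  rw [dcd_tt_self y l K _ g hg, AR1_tt' y l hyl K (g + 1) (by omega)]
  unfold GG
  rw [AR1_SZ _ _ hm, ← SP_zero (my K y l) (ml K l) (K - 1 - g), ← SQ_zero (my K y l) (ml K l) (K - 1 - g),
    ← SQ_zero (my K y l) (ml K l) K]
  obtain ⟨m1, m2, -⟩ := mirror_sub y l hyl K (show 0 ≤ K - 1 - g by omega) (by omega)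
  obtain ⟨-, m4, -⟩ := mirror_sub y l hyl K (Nat.zero_le K) le_rfl
  rw [m1, m2, m4]
  have e1 : K - (K - 1 - g) = g + 1 := by omega
  rw [e1, Nat.sub_zero, Nat.sub_self, SP_zero]
  rw [AR1_SZ y l hyl K] at hX
  obtain ⟨a1, a2⟩ := SP_append y l (show 0 ≤ g + 1 by omega) (show g + 1 ≤ K by omega)
  rw [SP_zero, SP_zero, SQ_zero] at a1
  rw [SQ_zero, SQ_zero] at a2
  have p1 := PP_succ y l g
  have q1 := QQ_succ y l g
  have h3 := hyl g
  have e2 : my K y l (K - 1 - g) = l g - y g := by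
    unfold my
    rw [show K - 1 - (K - 1 - g) = g by omega]
  rw [e2]
  rw [p1, q1] at a1
  rw [q1] at a2
  rw [p1, q1]
  unfold kk cc
  generalize SP y l (g + 1) K = A at *
  generalize SQ y l (g + 1) K = B at *
  generalize PP y l g = p at *
  generalize QQ y l g = r at *
  generalize PP y l K = PK at *
  generalize QQ y l K = QK at *
  generalize y g = yy at *
  generalize l g = ll at *
  omega

end BLO
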