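import Pool.Agent.Lib.BLO.Arr

/-!
# Chunk AR2: change of one block

`(y, l)` and `(y', l')` differ only in block `q`, by at most `η`.  Which positions `GG` change?
Let `P = PP`, `Q = QQ`, `X g = SZ 0 g`; `X' g = X g` for `g ≤ q`, `X' g = X g + δ` for `g > q`, `|δ| ≤ 3η`, and
`Q_K = X_K + P_K` changes by at most `5η`.
* `g < q`: only `Q_K` changes; `GG` changes only if `y g > Q g` and `P g - 5η ≤ Q_K ≤ P g + l g + 5η`.
* `g > q`: `P g = max (P (q+1)) (B g)`, `B g` = minus the minimum of the walk between `q+1` and `g`; `B' g = B g - δ`.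
  If `P' g = P g - δ` then `Q_K' = Q_K` or `T2`; otherwise `P (q+1) ≥ B g - 6η`, which gives `T1`.
Count: the record ranges `(P g, P (g+1)]` are disjoint, every changed block meets the window of
length `O(η)` around `Q_K` or around `P (q+1)` (`g > q`), at most two blocks meet a window without being
inside, and a block inside has `|y g - Q g| ≤ O(η)`.
(Tested numerically, even with `5` instead of `20`.)
-/

namespace BLO

open Finset BLP

/-- touch event of type 2 -/
def T2 (y l : ℕ → ℕ) (K g : ℕ) (η : ℤ) : Prop :=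
  (QQ y l g : ℤ) ≤ l g + 20 * η ∧ |(QQ y l K : ℤ) - PP y l g| ≤ l g + 20 * η

/-- touch event of type 1 -/
def T1 (y l : ℕ → ℕ) (q g : ℕ) (η : ℤ) : Prop :=
  q < g ∧ (SQ y l (q + 1) g : ℤ) ≤ l g + 20 * η ∧
    |SZ y l (q + 1) g + QQ y l (q + 1)| ≤ l g + 20 * η

/-- `GG` in terms of the prefix numbers -/
theorem AR2_GG (y l : ℕ → ℕ) (hyl : ∀ g, y g ≤ l g) (K g : ℕ) :
    GG y l K g = min (y g : ℤ) (max (QQ y l g : ℤ) ((QQ y l g : ℤ) - PP y l g + QQ y l K)) := by
  unfold GG
  rw [AR1_SZ y l hyl g]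
  omega

/-- prefix numbers up to the changed block -/
theorem AR2_le {y l y' l' : ℕ → ℕ} {q : ℕ} (hy : ∀ g, g ≠ q → y' g = y g)
    (hl : ∀ g, g ≠ q → l' g = l g) {g : ℕ} (hg : g ≤ q) :
    PP y' l' g = PP y l g ∧ QQ y' l' g = QQ y l g :=
  ⟨PP_congr (fun j hj => hy j (by omega)) (fun j hj => hl j (by omega)),
    QQ_congr (fun j hj => hy j (by omega)) (fun j hj => hl j (by omega))⟩

/-- subwords after the changed block -/
theorem AR2_sub {y l y' l' : ℕ → ℕ} {q : ℕ} (hy : ∀ g, g ≠ q → y' g = y g)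
    (hl : ∀ g, g ≠ q → l' g = l g) (g : ℕ) :
    SP y' l' (q + 1) g = SP y l (q + 1) g ∧ SQ y' l' (q + 1) g = SQ y l (q + 1) g := by
  unfold SP SQ
  constructor
  · apply PP_congr
    · intro j _
      exact hy _ (by omega)
    · intro j _
      exact hl _ (by omega)
  · apply QQ_congr
    · intro j _
      exact hy _ (by omega)
    · intro j _
      exact hl _ (by omega)

/-- the numbers after the changed block -/
theorem AR2_next {y l y' l' : ℕ → ℕ} {q : ℕ} {η : ℕ} (hyl : ∀ g, y g ≤ l g)
    (hyl' : ∀ g, y' g ≤ l' g) (hy : ∀ g, g ≠ q → y' g = y g)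
    (hl : ∀ g, g ≠ q → l' g = l g) (hyq : |(y' q : ℤ) - y q| ≤ η) (hlq : |(l' q : ℤ) - l q| ≤ η) :
    |(PP y' l' (q + 1) : ℤ) - PP y l (q + 1)| ≤ η ∧
    |(QQ y' l' (q + 1) : ℤ) - QQ y l (q + 1)| ≤ 3 * η := by
  obtain ⟨h1, h2⟩ := AR2_le hy hl (le_refl q)
  rw [PP_succ, PP_succ, QQ_succ, QQ_succ, h1, h2]
  have h3 := hyl q
  have h4 := hyl' q
  rw [abs_le] at hyq hlq
  generalize PP y l q = p at *
  generalize QQ y l q = r at *
  rw [abs_le, abs_le]
  push_cast
  omega

/-- prefix numbers after the changed block -/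
theorem AR2_after (y l : ℕ → ℕ) {q g : ℕ} (hg : q < g) :
    PP y l g = PP y l (q + 1) + (SP y l (q + 1) g - QQ y l (q + 1)) ∧
    QQ y l g = SQ y l (q + 1) g + (QQ y l (q + 1) - SP y l (q + 1) g) := by
  obtain ⟨a1, a2⟩ := SP_append y l (show 0 ≤ q + 1 by omega) (show q + 1 ≤ g by omega)
  rw [SP_zero, SP_zero, SQ_zero] at a1
  rw [SQ_zero, SQ_zero] at a2
  exact ⟨a1, a2⟩

theorem AR2_mono {y l : ℕ → ℕ} {a b : ℕ} (h : a ≤ b) : PP y l a ≤ PP y l b := by
  induction b, h using Nat.le_induction with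
  | base => exact le_rfl
  | succ b _ ih =>
    rw [PP_succ]
    omega

theorem AR2_SP_mono {y l : ℕ → ℕ} {c a b : ℕ} (hc : c ≤ a) (h : a ≤ b) :
    SP y l c a ≤ SP y l c b := by
  unfold SP
  exact AR2_mono (by omega)

theorem GG_lip (y l y' l' : ℕ → ℕ) (K q : ℕ) (η : ℕ) (hyl : ∀ g, y g ≤ l g)
    (hyl' : ∀ g, y' g ≤ l' g) (hq : q < K) (hy : ∀ g, g ≠ q → y' g = y g)
    (hl : ∀ g, g ≠ q → l' g = l g) (hyq : |(y' q : ℤ) - y q| ≤ η) (hlq : |(l' q : ℤ) - l q| ≤ η)
    (g : ℕ) (hg : g < K) (hgq : g ≠ q) :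
    |GG y' l' K g - GG y l K g| ≤ 20 * η ∧
    (GG y' l' K g ≠ GG y l K g → T1 y l q g η ∨ T2 y l K g η) := by
  have _ := hg
  obtain ⟨n1, n2⟩ := AR2_next hyl hyl' hy hl hyq hlq
  obtain ⟨s1, s2⟩ := AR2_sub hy hl K
  obtain ⟨-, k2⟩ := AR2_after y l hq
  obtain ⟨-, k2'⟩ := AR2_after y' l' hq
  rw [s1, s2] at k2'
  have hyg := hy g hgq
  have hyl1 := hyl g
  rw [AR2_GG y l hyl, AR2_GG y' l' hyl', hyg]
  unfold T1 T2
  rcases Nat.lt_or_gt_of_ne hgq with h | h
  · -- before
    obtain ⟨b1, b2⟩ := AR2_le hy hl h.le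
    rw [b1, b2]
    rw [abs_le] at n1 n2
    generalize PP y l g = p at *
    generalize QQ y l g = r at *
    generalize QQ y l K = QK at *
    generalize QQ y' l' K = QK' at *
    generalize PP y l (q + 1) = p1 at *
    generalize PP y' l' (q + 1) = p1' at *
    generalize QQ y l (q + 1) = r1 at *
    generalize QQ y' l' (q + 1) = r1' at *
    generalize SP y l (q + 1) K = A at *
    generalize SQ y l (q + 1) K = B at *
    generalize y g = yy at *
    generalize l g = ll at *
    have hQ : |(QK' : ℤ) - QK| ≤ 3 * η := by rw [abs_le]; omega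
    rw [abs_le] at hQ
    constructor
    · rw [abs_le]
      omega
    · intro hne
      right
      rw [abs_le]
      omega
  · -- after
    obtain ⟨t1, t2⟩ := AR2_sub hy hl g
    obtain ⟨c1, c2⟩ := AR2_after y l h
    obtain ⟨c1', c2'⟩ := AR2_after y' l' h
    rw [t1] at c1'
    rw [t1, t2] at c2'
    have hz : SZ y l (q + 1) g = (SQ y l (q + 1) g : ℤ) - SP y l (q + 1) g :=
      (SQ_sub_SP y l hyl (by omega)).symm
    rw [hz]
    rw [abs_le] at n1 n2
    generalize PP y l g = p at *
    generalize QQ y l g = r at *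
    generalize PP y' l' g = p' at *
    generalize QQ y' l' g = r' at *
    generalize QQ y l K = QK at *
    generalize QQ y' l' K = QK' at *
    generalize PP y l (q + 1) = p1 at *
    generalize PP y' l' (q + 1) = p1' at *
    generalize QQ y l (q + 1) = r1 at *
    generalize QQ y' l' (q + 1) = r1' at *
    generalize SP y l (q + 1) K = A at *
    generalize SQ y l (q + 1) K = B at *
    generalize SP y l (q + 1) g = A1 at *
    generalize SQ y l (q + 1) g = B1 at *
    generalize y g = yy at *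
    generalize l g = ll at *
    have hQ : |(QK' : ℤ) - QK| ≤ 3 * η := by rw [abs_le]; omega
    have hP : |(p' : ℤ) - p| ≤ 4 * η := by rw [abs_le]; omega
    have hR : |(r' : ℤ) - r| ≤ 3 * η := by rw [abs_le]; omega
    rw [abs_le] at hQ hP hR
    clear k2 k2'
    constructor
    · rw [abs_le]
      omega
    · intro hne
      rw [abs_le, abs_le]
      by_cases hcase : (QK : ℤ) < p ∧ (QK' : ℤ) < p'
      · left
        omega
      · right
        omega

theorem GG_count (y l y' l' : ℕ → ℕ) (K q : ℕ) (η : ℕ) (hyl : ∀ g, y g ≤ l g)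
    (hyl' : ∀ g, y' g ≤ l' g) (hq : q < K) (hy : ∀ g, g ≠ q → y' g = y g)
    (hl : ∀ g, g ≠ q → l' g = l g) (hyq : |(y' q : ℤ) - y q| ≤ η) (hlq : |(l' q : ℤ) - l q| ≤ η) :
    ((range K).filter fun g => g ≠ q ∧ GG y' l' K g ≠ GG y l K g).card ≤
      8 + ((range K).filter fun g => |(y g : ℤ) - QQ y l g| ≤ 20 * η ∧
        |(QQ y l K : ℤ) - PP y l g| ≤ 20 * η).card +
      ((range K).filter fun g => q < g ∧ |(y g : ℤ) - QQ y l g| ≤ 20 * η).card := by
  classical
  set C1 := (range K).filter fun g => |(y g : ℤ) - QQ y l g| ≤ 20 * η ∧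
        |(QQ y l K : ℤ) - PP y l g| ≤ 20 * η with hC1
  set C2 := (range K).filter fun g => q < g ∧ |(y g : ℤ) - QQ y l g| ≤ 20 * η with hC2
  set D1 := (range K).filter fun g => (PP y l g : ℤ) < QQ y l K - 10 * η ∧
    (QQ y l K : ℤ) - 10 * η ≤ PP y l (g + 1) with hD1
  set D2 := (range K).filter fun g => (PP y l g : ℤ) ≤ QQ y l K + 7 * η ∧
    (QQ y l K : ℤ) + 9 * η < PP y l (g + 1) with hD2
  set D3 := (range K).filter fun g => q < g ∧ QQ y' l' g ≠ QQ y l g ∧
    (QQ y l g : ℤ) + 20 * η < y g with hD3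
  obtain ⟨n1, n2⟩ := AR2_next hyl hyl' hy hl hyq hlq
  rw [abs_le] at n1 n2
  have d1 : D1.card ≤ 1 := by
    rw [Finset.card_le_one]
    have key : ∀ a ∈ D1, ∀ b ∈ D1, ¬ a < b := by
      intro a ha b hb hab
      rw [hD1, Finset.mem_filter] at ha hb
      have := AR2_mono (y := y) (l := l) (show a + 1 ≤ b by omega)
      omega
    intro a ha b hb
    have h1 := key a ha b hb
    have h2 := key b hb a ha
    omega
  have d2 : D2.card ≤ 1 := by
    rw [Finset.card_le_one]
    have key : ∀ a ∈ D2, ∀ b ∈ D2, ¬ a < b := by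
      intro a ha b hb hab
      rw [hD2, Finset.mem_filter] at ha hb
      have := AR2_mono (y := y) (l := l) (show a + 1 ≤ b by omega)
      omega
    intro a ha b hb
    have h1 := key a ha b hb
    have h2 := key b hb a ha
    omega
  have d3 : D3.card ≤ 1 := by
    rw [Finset.card_le_one]
    have key : ∀ a ∈ D3, ∀ b ∈ D3, ¬ a < b := by
      intro a ha b hb hab
      rw [hD3, Finset.mem_filter] at ha hb
      obtain ⟨-, a1, a2, a3⟩ := ha
      obtain ⟨-, b1, b2, b3⟩ := hb
      have m := AR2_SP_mono (y := y) (l := l) (show q + 1 ≤ a + 1 by omega) (show a + 1 ≤ b by omega)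
      obtain ⟨e1, -⟩ := AR1_succ y l (show q + 1 ≤ a by omega)
      obtain ⟨-, c2⟩ := AR2_after y l a1
      obtain ⟨-, f2⟩ := AR2_after y l b1
      obtain ⟨-, f2'⟩ := AR2_after y' l' b1
      obtain ⟨t1, t2⟩ := AR2_sub hy hl b
      rw [t1, t2] at f2'
      apply b2
      rw [f2, f2']
      rw [e1] at m
      generalize SP y l (q + 1) a = A at *
      generalize SQ y l (q + 1) a = B at *
      generalize SP y l (q + 1) b = A' at *
      generalize SQ y l (q + 1) b = B' at *
      omega
    intro a ha b hb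
    have h1 := key a ha b hb
    have h2 := key b hb a ha
    omega
  have hsub : ((range K).filter fun g => g ≠ q ∧ GG y' l' K g ≠ GG y l K g) ⊆
      D1 ∪ (D2 ∪ (D3 ∪ (C1 ∪ C2))) := by
    intro g hg
    rw [Finset.mem_filter] at hg
    obtain ⟨hgK, hgq, hne⟩ := hg
    rw [Finset.mem_union, Finset.mem_union, Finset.mem_union, Finset.mem_union, hD1, hD2, hD3, hC1,
      hC2, Finset.mem_filter, Finset.mem_filter, Finset.mem_filter, Finset.mem_filter,
      Finset.mem_filter]
    simp only [hgK, true_and]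
    obtain ⟨s1, s2⟩ := AR2_sub hy hl K
    obtain ⟨-, k2⟩ := AR2_after y l hq
    obtain ⟨-, k2'⟩ := AR2_after y' l' hq
    rw [s1, s2] at k2'
    have hyg := hy g hgq
    have hyl1 := hyl g
    have ps := PP_succ y l g
    rw [AR2_GG y l hyl, AR2_GG y' l' hyl', hyg] at hne
    rw [abs_le, abs_le]
    rcases Nat.lt_or_gt_of_ne hgq with h | h
    · obtain ⟨b1, b2⟩ := AR2_le hy hl h.le
      rw [b1, b2] at hne
      generalize PP y l g = p at *
      generalize PP y l (g + 1) = pn at *
      generalize QQ y l g = r at *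
      generalize QQ y l K = QK at *
      generalize QQ y' l' K = QK' at *
      generalize PP y l (q + 1) = p1 at *
      generalize PP y' l' (q + 1) = p1' at *
      generalize QQ y l (q + 1) = r1 at *
      generalize QQ y' l' (q + 1) = r1' at *
      generalize SP y l (q + 1) K = A at *
      generalize SQ y l (q + 1) K = B at *
      generalize y g = yy at *
      generalize l g = ll at *
      have hQ : |(QK' : ℤ) - QK| ≤ 3 * η := by rw [abs_le]; omega
      rw [abs_le] at hQ
      clear k2 k2' n1 n2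
      omega
    · obtain ⟨t1, t2⟩ := AR2_sub hy hl g
      obtain ⟨c1, c2⟩ := AR2_after y l h
      obtain ⟨c1', c2'⟩ := AR2_after y' l' h
      rw [t1] at c1'
      rw [t1, t2] at c2'
      generalize PP y l g = p at *
      generalize PP y l (g + 1) = pn at *
      generalize QQ y l g = r at *
      generalize PP y' l' g = p' at *
      generalize QQ y' l' g = r' at *
      generalize QQ y l K = QK at *
      generalize QQ y' l' K = QK' at *
      generalize PP y l (q + 1) = p1 at *
      generalize PP y' l' (q + 1) = p1' at *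
      generalize QQ y l (q + 1) = r1 at *
      generalize QQ y' l' (q + 1) = r1' at *
      generalize SP y l (q + 1) K = A at *
      generalize SQ y l (q + 1) K = B at *
      generalize SP y l (q + 1) g = A1 at *
      generalize SQ y l (q + 1) g = B1 at *
      generalize y g = yy at *
      generalize l g = ll at *
      have hQ : |(QK' : ℤ) - QK| ≤ 3 * η := by rw [abs_le]; omega
      have hP : |(p' : ℤ) - p| ≤ 4 * η := by rw [abs_le]; omega
      have hR : |(r' : ℤ) - r| ≤ 3 * η := by rw [abs_le]; omega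
      rw [abs_le] at hQ hP hR
      clear k2 k2' c1 c2 c1' c2' n1 n2
      by_cases hcase : (QK : ℤ) < p ∧ (QK' : ℤ) < p'
      · by_cases hc2 : (r : ℤ) + 20 * η < yy
        · right; right; left
          omega
        · right; right; right; right
          omega
      · by_cases e1 : (p : ℤ) < QK - 10 * η
        · left
          omega
        · by_cases e2 : (QK : ℤ) + 9 * η < pn
          · right; left
            omega
          · right; right; right; left
            omega
  have h1 := Finset.card_le_card hsub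
  have h2 := Finset.card_union_le D1 (D2 ∪ (D3 ∪ (C1 ∪ C2)))
  have h3 := Finset.card_union_le D2 (D3 ∪ (C1 ∪ C2))
  have h4 := Finset.card_union_le D3 (C1 ∪ C2)
  have h5 := Finset.card_union_le C1 C2
  omega

/-- a block whose position is changed by the reversal is a record block -/
theorem GG_moved (y l : ℕ → ℕ) (K g : ℕ) (hyl : ∀ g, y g ≤ l g) (hg : g < K)
    (h : GG y l K g ≠ y g) : (QQ y l g : ℤ) < l g ∧ 0 ≤ GG y l K g ∧ GG y l K g ≤ l g := by
  have _ := hg
  have h1 := hyl g
  rw [AR2_GG y l hyl] at *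
  omega

end BLO
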