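import Pool.Agent.Lib.BLO.Noise

/-!
# Chunk BK: chain decomposition of a block for an abstract noise system

Port of `BLP/Block.lean` (`b2C`, `exists_block`); the `N`-word `b2NC` and its properties can be reused.
-/

namespace BLO

open Finset BLP

variable {b : ℕ}

/-- properties of the chain decomposition of a block -/
structure BlockSpecN (b m jj : ℕ) (frz : BS b → Prop) (nu : BS b → ℕ) (C : Chain (BS b)) :
    Prop where
  frozen_dec : ∀ x t, frz (C.dec x t) ↔ frz x
  type_dec : ∀ x t k, (C.dec x t k).1 = (x k).1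
  val_frozen : ∀ x, frz x → C.y x = 0 ∧ C.l x = 0
  val : ∀ x, ¬ frz x → (C.l x : ℤ) - 2 * C.y x = m * vsum x + (m - 1 - 2 * (nu x : ℤ))
  pert : ∀ x x' k0, (∀ k ≠ k0, x' k = x k) → ¬ frz x → ¬ frz x' →
    |(C.y x' : ℤ) - C.y x| ≤ 20 * m ∧ |(C.l x' : ℤ) - C.l x| ≤ 20 * m
  lip : ∀ x x' k0 t t', (∀ k ≠ k0, x' k = x k) → ¬ frz x → ¬ frz x' →
    t ≤ C.l x → t' ≤ C.l x' →
    (m : ℤ) * (univ.filter fun k => C.dec x' t' k ≠ C.dec x t k).card ≤
      300 * (m * (jj + 1) + |(t' : ℤ) - t|)

section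

variable {m jj : ℕ} {frz : BS b → Prop} {nu : BS b → ℕ} {st : ℕ → BS b → BS b}

theorem bk_frz (h : NoiseSys b m jj frz nu st) (x : BS b) (T : ℕ) :
    frz ((b2NC b).dec x T) ↔ frz x :=
  (h.congr _ _ (fun k => b2NC_fst x T k)
    (fun k hk => b2NC_false x T k (by rw [← b2NC_fst x T k]; exact hk))).1

theorem bk_nu (h : NoiseSys b m jj frz nu st) (x : BS b) (T : ℕ) :
    nu ((b2NC b).dec x T) = nu x :=
  (h.congr _ _ (fun k => b2NC_fst x T k)
    (fun k hk => b2NC_false x T k (by rw [← b2NC_fst x T k]; exact hk))).2.1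

theorem bk_letters (h : NoiseSys b m jj frz nu st) {a : ℕ} (ha : a < m) {x : BS b}
    (hx : ¬ frz x) : b2y (st a x) = b2y x ∧ b2l (st a x) = b2l x := by
  have h1 := h.spec a ha x hx
  exact b2_congr h1.2.2.2.2.1 fun k hk =>
    h1.2.2.2.2.2.1 k (by rw [← h1.2.2.2.2.1 k]; exact hk)

theorem bk_y_st (h : NoiseSys b m jj frz nu st) {a : ℕ} (ha : a < m) {x : BS b}
    (hx : ¬ frz x) : (b2NC b).y (st a x) = (b2NC b).y x := by
  rw [b2NC_y, b2NC_y, (bk_letters h ha hx).1, (bk_letters h ha hx).2]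

theorem bk_l_st (h : NoiseSys b m jj frz nu st) {a : ℕ} (ha : a < m) {x : BS b}
    (hx : ¬ frz x) : (b2NC b).l (st a x) = (b2NC b).l x := by
  rw [b2NC_l, b2NC_l, (bk_letters h ha hx).1, (bk_letters h ha hx).2]

/-- decoding of the `N`-word commutes with setting the noise -/
theorem bk_comm (h : NoiseSys b m jj frz nu st) {a : ℕ} (ha : a < m) {x : BS b}
    (hx : ¬ frz x) (T : ℕ) :
    (b2NC b).dec (st a x) T = st a ((b2NC b).dec x T) := by
  have h1 := h.spec a ha x hx
  have hx2 : ¬ frz ((b2NC b).dec x T) := by rw [bk_frz h]; exact hx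
  have h2 := h.spec a ha _ hx2
  funext k
  by_cases hk : (x k).1 = true
  · have h3 : ((b2NC b).dec x T k).1 = true := by rw [b2NC_fst]; exact hk
    rw [h2.2.2.2.2.2.1 k h3, b2NC_dec, b2NC_dec, bk_l_st h ha hx,
      (bk_letters h ha hx).1, (bk_letters h ha hx).2, h1.2.2.2.2.2.1 k hk]
  · have hk' : (x k).1 = false := by simpa using hk
    have h3 : (st a x k).1 = false := by rw [h1.2.2.2.2.1]; exact hk'
    rw [b2NC_false _ _ _ h3]
    exact (h.congr x _ (fun k => (b2NC_fst x T k).symm)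
      (fun k hk => (b2NC_false x T k hk).symm)).2.2 a k hk'

open Classical in
/-- the length of the chain of a block -/
noncomputable def bkLen (m : ℕ) (frz : BS b → Prop) (x : BS b) : ℕ :=
  if frz x then 0 else m * ((b2NC b).l x + 1) - 1

theorem bkLen_of {x : BS b} (h : ¬ frz x) :
    bkLen m frz x = m * ((b2NC b).l x + 1) - 1 := by
  unfold bkLen; rw [if_neg h]

theorem bkLen_frz {x : BS b} (h : frz x) : bkLen m frz x = 0 := by
  unfold bkLen; rw [if_pos h]

open Classical in
/-- the chain of a block -/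
noncomputable def bkC (hm : 0 < m) (h : NoiseSys b m jj frz nu st) : Chain (BS b) where
  y x := if frz x then 0 else (b2NC b).y x * m + nu x
  l x := bkLen m frz x
  dec x t := if frz x then x else
    st (min t (bkLen m frz x) % m) ((b2NC b).dec x (min t (bkLen m frz x) / m))
  y_le := by
    intro x
    by_cases hf : frz x
    · simp [hf]
    · rw [if_neg hf, bkLen_of hf]
      have h1 := (b2NC b).y_le x
      have h2 : nu x < m := h.lt x hf
      have h3 : (b2NC b).y x * m ≤ (b2NC b).l x * m := Nat.mul_le_mul_right m h1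
      have h4 : m * ((b2NC b).l x + 1) = (b2NC b).l x * m + m := by ring
      omega
  y_dec := by
    intro x t
    by_cases hf : frz x
    · simp [hf, bkLen_frz hf]
    · have hlen : bkLen m frz x = m * ((b2NC b).l x + 1) - 1 := bkLen_of hf
      have ht : min t (bkLen m frz x) ≤ m * ((b2NC b).l x + 1) - 1 := by
        rw [← hlen]; exact min_le_right _ _
      have h1 : ¬ frz ((b2NC b).dec x (min t (bkLen m frz x) / m)) := by
        rw [bk_frz h]; exact hf
      have h2 := h.spec (min t (bkLen m frz x) % m) (Nat.mod_lt _ hm) _ h1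
      rw [if_neg hf, if_neg h2.1, bk_y_st h (Nat.mod_lt _ hm) h1, h2.2.1, (b2NC b).y_dec,
        min_eq_left (b2_div_le hm ht)]
      exact Nat.div_add_mod' _ _
  l_dec := by
    intro x t
    by_cases hf : frz x
    · simp [hf]
    · have h1 : ¬ frz ((b2NC b).dec x (min t (bkLen m frz x) / m)) := by
        rw [bk_frz h]; exact hf
      have h2 := h.spec (min t (bkLen m frz x) % m) (Nat.mod_lt _ hm) _ h1
      rw [if_neg hf, bkLen_of h2.1, bk_l_st h (Nat.mod_lt _ hm) h1, (b2NC b).l_dec,
        bkLen_of hf]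
  dec_dec := by
    intro x t t'
    by_cases hf : frz x
    · simp [hf]
    · have h1 : ¬ frz ((b2NC b).dec x (min t (bkLen m frz x) / m)) := by
        rw [bk_frz h]; exact hf
      have h2 := h.spec (min t (bkLen m frz x) % m) (Nat.mod_lt _ hm) _ h1
      have hl : bkLen m frz (st (min t (bkLen m frz x) % m)
          ((b2NC b).dec x (min t (bkLen m frz x) / m))) = bkLen m frz x := by
        rw [bkLen_of h2.1, bk_l_st h (Nat.mod_lt _ hm) h1, (b2NC b).l_dec, bkLen_of hf]
      rw [if_neg hf, if_neg h2.1, if_neg hf, hl, bk_comm h (Nat.mod_lt _ hm) h1,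
        (b2NC b).dec_dec]
      have h3 : ¬ frz ((b2NC b).dec x (min t' (bkLen m frz x) / m)) := by
        rw [bk_frz h]; exact hf
      exact (h.spec (min t (bkLen m frz x) % m) (Nat.mod_lt _ hm) _ h3).2.2.1 _
        (Nat.mod_lt _ hm)
  dec_y := by
    intro x
    by_cases hf : frz x
    · simp [hf]
    · have hn : nu x < m := h.lt x hf
      have hle : (b2NC b).y x * m + nu x ≤ bkLen m frz x := by
        rw [bkLen_of hf]
        have h1 := (b2NC b).y_le x
        have h3 : (b2NC b).y x * m ≤ (b2NC b).l x * m := Nat.mul_le_mul_right m h1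
        have h4 : m * ((b2NC b).l x + 1) = (b2NC b).l x * m + m := by ring
        omega
      rw [if_neg hf, if_neg hf, min_eq_left hle]
      have h5 : ((b2NC b).y x * m + nu x) % m = nu x := by
        rw [Nat.add_comm, Nat.add_mul_mod_self_right, Nat.mod_eq_of_lt hn]
      have h6 : ((b2NC b).y x * m + nu x) / m = (b2NC b).y x := by
        rw [Nat.add_comm, Nat.add_mul_div_right _ _ hm, Nat.div_eq_of_lt hn, Nat.zero_add]
      rw [h5, h6, (b2NC b).dec_y]
      exact (h.spec 0 hm x hf).2.2.2.1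

theorem bkC_y (hm : 0 < m) (h : NoiseSys b m jj frz nu st) {x : BS b} (hf : ¬ frz x) :
    (bkC hm h).y x = (b2NC b).y x * m + nu x := if_neg hf

theorem bkC_l (hm : 0 < m) (h : NoiseSys b m jj frz nu st) (x : BS b) :
    (bkC hm h).l x = bkLen m frz x := rfl

theorem bkC_dec_frz (hm : 0 < m) (h : NoiseSys b m jj frz nu st) {x : BS b} (hf : frz x)
    (t : ℕ) : (bkC hm h).dec x t = x := if_pos hf

theorem bkC_dec (hm : 0 < m) (h : NoiseSys b m jj frz nu st) {x : BS b} (hf : ¬ frz x)
    (t : ℕ) : (bkC hm h).dec x t =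
      st (min t (bkLen m frz x) % m) ((b2NC b).dec x (min t (bkLen m frz x) / m)) := if_neg hf

end

theorem exists_blockN (b m jj : ℕ) (hm : 0 < m) (frz : BS b → Prop) (nu : BS b → ℕ)
    (st : ℕ → BS b → BS b) (h : NoiseSys b m jj frz nu st) :
    ∃ C : Chain (BS b), BlockSpecN b m jj frz nu C := by
  refine ⟨bkC hm h, ?_, ?_, ?_, ?_, ?_, ?_⟩
  · intro x t
    by_cases hf : frz x
    · rw [bkC_dec_frz hm h hf]
    · rw [bkC_dec hm h hf]
      have h1 : ¬ frz ((b2NC b).dec x (min t (bkLen m frz x) / m)) := by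
        rw [bk_frz h]; exact hf
      have h2 := h.spec (min t (bkLen m frz x) % m) (Nat.mod_lt _ hm) _ h1
      exact iff_of_false h2.1 hf
  · intro x t k
    by_cases hf : frz x
    · rw [bkC_dec_frz hm h hf]
    · rw [bkC_dec hm h hf]
      have h1 : ¬ frz ((b2NC b).dec x (min t (bkLen m frz x) / m)) := by
        rw [bk_frz h]; exact hf
      have h2 := h.spec (min t (bkLen m frz x) % m) (Nat.mod_lt _ hm) _ h1
      rw [h2.2.2.2.2.1, b2NC_fst]
  · intro x hf
    constructor
    · exact if_pos hf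
    · exact bkLen_frz hf
  · intro x hf
    rw [bkC_y hm h hf, bkC_l, bkLen_of hf, ← b2_vsum]
    have h1 : 1 ≤ m * ((b2NC b).l x + 1) := Nat.mul_pos hm (Nat.succ_pos _)
    rw [Nat.cast_sub h1]
    push_cast
    ring
  · intro x x' k0 hx hf hf'
    obtain ⟨h1, h2, h3, h4⟩ := b2_letters hx
    have hlip := PQ_lip (b2y x) (b2l x) (b2y x') (b2l x') b k0 1
      (fun g _ => b2y_le_l x g) (fun g _ => b2y_le_l x' g) k0.2 h1 h2 h3 h4
    rw [← b2NC_y, ← b2NC_y] at hlip
    have hl : |((b2NC b).l x' : ℤ) - (b2NC b).l x| ≤ 20 := by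
      rw [b2NC_l, b2NC_l]
      push_cast
      have ha := hlip.1
      rw [b2NC_y, b2NC_y] at ha
      have hb := hlip.2
      rw [abs_le] at ha hb ⊢
      push_cast at ha hb
      constructor <;> linarith [ha.1, ha.2, hb.1, hb.2]
    have hy := hlip.1
    have hmz : (0 : ℤ) ≤ m := Int.natCast_nonneg _
    have hn : nu x < m := h.lt x hf
    have hn' : nu x' < m := h.lt x' hf'
    have hnz : (nu x : ℤ) < m := by exact_mod_cast hn
    have hnz' : (nu x' : ℤ) < m := by exact_mod_cast hn'
    have hn0 : (0 : ℤ) ≤ nu x := Int.natCast_nonneg _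
    have hn0' : (0 : ℤ) ≤ nu x' := Int.natCast_nonneg _
    constructor
    · rw [bkC_y hm h hf, bkC_y hm h hf']
      push_cast
      push_cast at hy
      rw [abs_le] at hy ⊢
      have e1 := mul_le_mul_of_nonneg_right hy.2 hmz
      have e2 := mul_le_mul_of_nonneg_right hy.1 hmz
      constructor <;> nlinarith
    · rw [bkC_l, bkC_l, bkLen_of hf, bkLen_of hf']
      have g1 : 1 ≤ m * ((b2NC b).l x + 1) := Nat.mul_pos hm (Nat.succ_pos _)
      have g2 : 1 ≤ m * ((b2NC b).l x' + 1) := Nat.mul_pos hm (Nat.succ_pos _)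
      rw [Nat.cast_sub g1, Nat.cast_sub g2]
      push_cast
      rw [abs_le] at hl ⊢
      have e1 := mul_le_mul_of_nonneg_left hl.2 hmz
      have e2 := mul_le_mul_of_nonneg_left hl.1 hmz
      constructor <;> nlinarith
  · intro x x' k0 t t' hx hf hf' ht ht'
    have ht1 : t ≤ bkLen m frz x := ht
    have ht1' : t' ≤ bkLen m frz x' := ht'
    have hdec : (bkC hm h).dec x t = st (t % m) ((b2NC b).dec x (t / m)) := by
      rw [bkC_dec hm h hf, min_eq_left ht1]
    have hdec' : (bkC hm h).dec x' t' = st (t' % m) ((b2NC b).dec x' (t' / m)) := by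
      rw [bkC_dec hm h hf', min_eq_left ht1']
    rw [hdec, hdec']
    have hT : t / m ≤ (b2NC b).l x := b2_div_le hm (by rw [← bkLen_of hf]; exact ht1)
    have hT' : t' / m ≤ (b2NC b).l x' := b2_div_le hm (by rw [← bkLen_of hf']; exact ht1')
    have hcnt := b2_count hx hT hT'
    have f1 : ¬ frz ((b2NC b).dec x (t / m)) := by rw [bk_frz h]; exact hf
    have f1' : ¬ frz ((b2NC b).dec x' (t' / m)) := by rw [bk_frz h]; exact hf'
    have g1 := (h.spec (t % m) (Nat.mod_lt _ hm) _ f1).2.2.2.2.2.2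
    have g1' := (h.spec (t' % m) (Nat.mod_lt _ hm) _ f1').2.2.2.2.2.2
    have hsub : (univ.filter fun k => st (t' % m) ((b2NC b).dec x' (t' / m)) k ≠
        st (t % m) ((b2NC b).dec x (t / m)) k) ⊆
        (univ.filter fun k => st (t % m) ((b2NC b).dec x (t / m)) k ≠
          (b2NC b).dec x (t / m) k) ∪
        ((univ.filter fun k => st (t' % m) ((b2NC b).dec x' (t' / m)) k ≠
          (b2NC b).dec x' (t' / m) k) ∪
        (univ.filter fun k => (b2NC b).dec x' (t' / m) k ≠ (b2NC b).dec x (t / m) k)) := by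
      intro k hk
      simp only [mem_union, mem_filter, mem_univ, true_and] at hk ⊢
      by_contra hcon
      simp only [not_or, not_not] at hcon
      apply hk
      rw [hcon.1, hcon.2.1, hcon.2.2]
    have hcard := (Finset.card_le_card hsub).trans ((Finset.card_union_le _ _).trans
      (Nat.add_le_add_left (Finset.card_union_le _ _) _))
    have hcard' : ((univ.filter fun k => st (t' % m) ((b2NC b).dec x' (t' / m)) k ≠
        st (t % m) ((b2NC b).dec x (t / m)) k).card : ℤ) ≤
        jj + (jj + (1 + 100 * (1 + |((t' / m : ℕ) : ℤ) - ((t / m : ℕ) : ℤ)|))) := by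
      have i1 : ((univ.filter fun k => st (t % m) ((b2NC b).dec x (t / m)) k ≠
          (b2NC b).dec x (t / m) k).card : ℤ) ≤ jj := by exact_mod_cast g1
      have i2 : ((univ.filter fun k => st (t' % m) ((b2NC b).dec x' (t' / m)) k ≠
          (b2NC b).dec x' (t' / m) k).card : ℤ) ≤ jj := by exact_mod_cast g1'
      have i3 : ((univ.filter fun k => st (t' % m) ((b2NC b).dec x' (t' / m)) k ≠
          st (t % m) ((b2NC b).dec x (t / m)) k).card : ℤ) ≤ _ :=
        Int.ofNat_le.2 hcard
      push_cast at i3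
      linarith
    have hmz : (0 : ℤ) ≤ m := Int.natCast_nonneg _
    have hrz : (0 : ℤ) ≤ jj := Int.natCast_nonneg _
    have h5 := b2_sq_div (t := t) (t' := t') hm
    have h6 := mul_le_mul_of_nonneg_left hcard' hmz
    have h7 : (0 : ℤ) ≤ |(t' : ℤ) - t| := abs_nonneg _
    have h8 : (0 : ℤ) ≤ (m : ℤ) * jj := mul_nonneg hmz hrz
    refine h6.trans ?_
    nlinarith

end BLO
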