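import Pool.Agent.Lib.BLO.Zig

/-!
# Chunk CLS: classes of pairs with equal rounded weight, four parts, zigzag order

Big classes: `q k = v` for at least `4 nmin` pairs `k`; their values in decreasing order are `ms 0 > ms 1 > …`,
`ν r = ⌊n_r / 4⌋`.  Number the pairs of the big class `r` by `0, …, n_r - 1`; the pair with number `i < 4 ν_r` is in part
`i / ν_r`, and `cls k = part * c + (r or c - 1 - r)` (`zig c (cls k) = r`); all other pairs get `cls k = 4 c`.
Blind: small classes `< 4 nmin` each, at most `3` pairs of each big class, at most `qmax` classes.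
-/

namespace BLO

open Finset

/-- CLS: numbering of the pairs within their class -/
theorem cls_idx {P : Type*} [Fintype P] [DecidableEq P] (q : P → ℕ) :
    ∃ idx : P → ℕ, (∀ k, idx k < (univ.filter fun k' => q k' = q k).card) ∧
      ∀ v i, i < (univ.filter fun k' => q k' = v).card → ∃! k, q k = v ∧ idx k = i := by
  classical
  have hmem : ∀ k, k ∈ univ.filter fun k' => q k' = q k := fun k => by simp
  refine ⟨fun k => ((univ.filter fun k' => q k' = q k).equivFin ⟨k, hmem k⟩ : ℕ), ?_, ?_⟩
  · intro k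
    exact Fin.is_lt _
  · intro v i hi
    have key : ∀ k (hk : q k = v),
        ((univ.filter fun k' => q k' = q k).equivFin ⟨k, hmem k⟩ : ℕ) =
        ((univ.filter fun k' => q k' = v).equivFin ⟨k, by simp [hk]⟩ : ℕ) := by
      intro k hk
      subst hk
      rfl
    set e := (univ.filter fun k' => q k' = v).equivFin with he
    refine ⟨(e.symm ⟨i, hi⟩ : P), ?_, ?_⟩
    · have h1 : q (e.symm ⟨i, hi⟩ : P) = v := by
        have := (e.symm ⟨i, hi⟩).2
        rw [mem_filter] at this
        exact this.2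
      refine ⟨h1, ?_⟩
      show ((univ.filter fun k' => q k' = q (e.symm ⟨i, hi⟩ : P)).equivFin
        ⟨(e.symm ⟨i, hi⟩ : P), hmem _⟩ : ℕ) = i
      rw [key _ h1]
      have h2 : (⟨(e.symm ⟨i, hi⟩ : P), by simp [h1]⟩ : {x // x ∈ univ.filter fun k' => q k' = v}) =
        e.symm ⟨i, hi⟩ := Subtype.ext rfl
      rw [h2, e.apply_symm_apply]
    · rintro k ⟨hk, hki⟩
      have h3 : ((univ.filter fun k' => q k' = q k).equivFin ⟨k, hmem k⟩ : ℕ) = i := hki
      rw [key k hk] at h3
      have h4 : e ⟨k, by simp [hk]⟩ = ⟨i, hi⟩ := Fin.ext h3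
      have h5 : (⟨k, by simp [hk]⟩ : {x // x ∈ univ.filter fun k' => q k' = v}) =
          e.symm ⟨i, hi⟩ := by rw [← h4, e.symm_apply_apply]
      exact congrArg Subtype.val h5

/-- CLS: number of pairs of a class with number in an interval -/
theorem cls_count {P : Type*} [Fintype P] [DecidableEq P] (q : P → ℕ) (idx : P → ℕ)
    (h1 : ∀ k, idx k < (univ.filter fun k' => q k' = q k).card)
    (h2 : ∀ v i, i < (univ.filter fun k' => q k' = v).card → ∃! k, q k = v ∧ idx k = i)
    (v a b : ℕ) (hb : b ≤ (univ.filter fun k' => q k' = v).card) :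
    (univ.filter fun k => q k = v ∧ a ≤ idx k ∧ idx k < b).card = b - a := by
  classical
  rw [← Nat.card_Ico]
  apply card_bij (fun k _ => idx k)
  · intro k hk
    rw [mem_filter] at hk
    rw [mem_Ico]
    exact hk.2.2
  · intro k hk k' hk' he
    rw [mem_filter] at hk hk'
    obtain ⟨k0, _, hu⟩ := h2 v (idx k) (lt_of_lt_of_le hk.2.2.2 hb)
    rw [hu k ⟨hk.2.1, rfl⟩, hu k' ⟨hk'.2.1, he.symm⟩]
  · intro i hi
    rw [mem_Ico] at hi
    obtain ⟨k, ⟨hk, hki⟩, _⟩ := h2 v i (by omega)
    refine ⟨k, ?_, hki⟩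
    rw [mem_filter]
    exact ⟨mem_univ _, hk, by omega, by omega⟩

/-- CLS: values in decreasing order -/
theorem cls_sort (B : Finset ℕ) : ∃ ms rk : ℕ → ℕ,
    (∀ r < B.card, ms r ∈ B) ∧ (∀ v ∈ B, rk v < B.card ∧ ms (rk v) = v) ∧
    (∀ r < B.card, rk (ms r) = r) ∧ (∀ r r', r < r' → r' < B.card → ms r' < ms r) := by
  classical
  set c := B.card with hc
  set o := B.orderIsoOfFin hc.symm with ho
  have hms : ∀ r (hr : r < c), c - 1 - r < c := fun r hr => by omega
  refine ⟨fun r => if hr : r < c then (o ⟨c - 1 - r, hms r hr⟩ : ℕ) else 0,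
    fun v => if hv : v ∈ B then c - 1 - (o.symm ⟨v, hv⟩ : ℕ) else 0, ?_, ?_, ?_, ?_⟩
  · intro r hr
    simp only [dif_pos hr]
    exact (o ⟨c - 1 - r, hms r hr⟩).2
  · intro v hv
    have h1 : ((o.symm ⟨v, hv⟩ : Fin c) : ℕ) < c := Fin.is_lt _
    have h2 : c - 1 - ((o.symm ⟨v, hv⟩ : Fin c) : ℕ) < c := by omega
    simp only [dif_pos hv]
    refine ⟨h2, ?_⟩
    rw [dif_pos h2]
    have h3 : (⟨c - 1 - (c - 1 - ((o.symm ⟨v, hv⟩ : Fin c) : ℕ)), hms _ h2⟩ : Fin c) =
        o.symm ⟨v, hv⟩ := by
      apply Fin.ext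
      show c - 1 - (c - 1 - ((o.symm ⟨v, hv⟩ : Fin c) : ℕ)) = _
      omega
    rw [h3, o.apply_symm_apply]
  · intro r hr
    simp only [dif_pos hr]
    have h1 : ((o ⟨c - 1 - r, hms r hr⟩ : B) : ℕ) ∈ B := (o ⟨c - 1 - r, hms r hr⟩).2
    rw [dif_pos h1]
    have h2 : (⟨((o ⟨c - 1 - r, hms r hr⟩ : B) : ℕ), h1⟩ : {x // x ∈ B}) =
        o ⟨c - 1 - r, hms r hr⟩ := Subtype.ext rfl
    rw [h2, o.symm_apply_apply]
    show c - 1 - (c - 1 - r) = r
    omega
  · intro r r' hrr hr'
    have hr : r < c := by omega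
    simp only [dif_pos hr, dif_pos hr']
    have h1 : (⟨c - 1 - r', hms r' hr'⟩ : Fin c) < ⟨c - 1 - r, hms r hr⟩ := by
      show c - 1 - r' < c - 1 - r
      omega
    exact o.strictMono h1

theorem cls_zig {c p s : ℕ} (hs : s < c) : zig c (p * c + s) = if p % 2 = 0 then s else c - 1 - s := by
  unfold zig
  have hc : 0 < c := by omega
  have h1 : (p * c + s) / c = p := by
    rw [Nat.add_comm, Nat.add_mul_div_right _ _ hc, Nat.div_eq_of_lt hs, Nat.zero_add]
  have h2 : (p * c + s) % c = s := by
    rw [Nat.add_comm, Nat.add_mul_mod_self_right, Nat.mod_eq_of_lt hs]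
  rw [h1, h2]

theorem exists_cls {P : Type*} [Fintype P] [DecidableEq P] (q : P → ℕ) (nmin qmax : ℕ)
    (hn : 0 < nmin) (hq : ∀ k, q k < qmax) (hbig : qmax * (4 * nmin + 3) < Fintype.card P) :
    ∃ (c : ℕ) (ms ν : ℕ → ℕ) (cls : P → ℕ), 0 < c ∧ c ≤ qmax ∧ (∀ r < c, nmin ≤ ν r) ∧
      (∀ r r', r < r' → r' < c → ms r' < ms r) ∧ (∀ r < c, ∃ k, q k = ms r) ∧
      (∀ g < 4 * c, (univ.filter fun k => cls k = g).card = ν (zig c g)) ∧
      (∀ k, cls k < 4 * c → q k = ms (zig c (cls k))) ∧
      (univ.filter fun k => 4 * c ≤ cls k).card ≤ qmax * (4 * nmin + 3) := by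
  classical
  obtain ⟨idx, hi1, hi2⟩ := cls_idx q
  have hcnt := cls_count q idx hi1 hi2
  set N : ℕ → ℕ := fun v => (univ.filter fun k' => q k' = v).card with hN
  set B : Finset ℕ := (range qmax).filter fun v => 4 * nmin ≤ N v with hB
  obtain ⟨ms, rk, hs1, hs2, hs3, hs4⟩ := cls_sort B
  set c := B.card with hc
  have hBmem : ∀ v, v ∈ B ↔ v < qmax ∧ 4 * nmin ≤ N v := by
    intro v; rw [hB, mem_filter, mem_range]
  -- the class number
  set cls : P → ℕ := fun k => if q k ∈ B ∧ idx k < 4 * (N (q k) / 4) then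
      (idx k / (N (q k) / 4)) * c + (if (idx k / (N (q k) / 4)) % 2 = 0 then rk (q k)
        else c - 1 - rk (q k)) else 4 * c with hcls
  have hν : ∀ v ∈ B, nmin ≤ N v / 4 := by
    intro v hv
    have := (hBmem v).1 hv
    omega
  -- facts on the class number
  have hin : ∀ k, q k ∈ B → idx k < 4 * (N (q k) / 4) →
      idx k / (N (q k) / 4) < 4 ∧ rk (q k) < c ∧
      cls k = (idx k / (N (q k) / 4)) * c + (if (idx k / (N (q k) / 4)) % 2 = 0 then rk (q k)
        else c - 1 - rk (q k)) := by
    intro k h1 h2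
    refine ⟨?_, (hs2 _ h1).1, ?_⟩
    · exact Nat.div_lt_of_lt_mul (by rw [Nat.mul_comm]; exact h2)
    · rw [hcls]
      exact if_pos ⟨h1, h2⟩
  have hsmall : ∀ k, q k ∈ B → idx k < 4 * (N (q k) / 4) →
      (if (idx k / (N (q k) / 4)) % 2 = 0 then rk (q k) else c - 1 - rk (q k)) < c := by
    intro k h1 h2
    have := (hin k h1 h2).2.1
    split_ifs <;> omega
  have hlt : ∀ k, q k ∈ B → idx k < 4 * (N (q k) / 4) → cls k < 4 * c := by
    intro k h1 h2
    obtain ⟨a1, a2, a3⟩ := hin k h1 h2
    have a4 := hsmall k h1 h2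
    rw [a3]
    have : (idx k / (N (q k) / 4)) * c ≤ 3 * c := Nat.mul_le_mul_right c (by omega)
    omega
  have hnot : ∀ k, ¬ (q k ∈ B ∧ idx k < 4 * (N (q k) / 4)) → cls k = 4 * c := by
    intro k h
    rw [hcls]
    exact if_neg h
  have hlt_iff : ∀ k, cls k < 4 * c ↔ (q k ∈ B ∧ idx k < 4 * (N (q k) / 4)) := by
    intro k
    constructor
    · intro h
      by_contra hcon
      have := hnot k hcon
      omega
    · rintro ⟨h1, h2⟩
      exact hlt k h1 h2
  have hzig : ∀ k, q k ∈ B → idx k < 4 * (N (q k) / 4) → zig c (cls k) = rk (q k) := by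
    intro k h1 h2
    obtain ⟨a1, a2, a3⟩ := hin k h1 h2
    have a4 := hsmall k h1 h2
    rw [a3, cls_zig a4]
    split_ifs <;> omega
  have hblind : (univ.filter fun k => 4 * c ≤ cls k).card ≤ qmax * (4 * nmin + 3) := by
    have h1 : (univ.filter fun k => 4 * c ≤ cls k).card =
        ∑ v ∈ range qmax, ((univ.filter fun k => 4 * c ≤ cls k).filter fun k => q k = v).card := by
      apply card_eq_sum_card_fiberwise
      intro k _
      simpa using hq k
    rw [h1]
    have h2 : ∀ v ∈ range qmax,
        ((univ.filter fun k => 4 * c ≤ cls k).filter fun k => q k = v).card ≤ 4 * nmin + 3 := by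
      intro v hv
      by_cases hvB : v ∈ B
      · have h3 : ((univ.filter fun k => 4 * c ≤ cls k).filter fun k => q k = v) ⊆
            univ.filter fun k => q k = v ∧ 4 * (N v / 4) ≤ idx k ∧ idx k < N v := by
          intro k hk
          rw [mem_filter, mem_filter] at hk
          obtain ⟨⟨_, hk1⟩, hk2⟩ := hk
          rw [mem_filter]
          refine ⟨mem_univ _, hk2, ?_, ?_⟩
          · by_contra hcon
            have h4 := (hlt_iff k).2 ⟨by rw [hk2]; exact hvB, by rw [hk2]; omega⟩
            omega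
          · have := hi1 k
            rw [hk2] at this
            exact this
        refine (card_le_card h3).trans ?_
        rw [hcnt v (4 * (N v / 4)) (N v) le_rfl]
        omega
      · have h3 : ((univ.filter fun k => 4 * c ≤ cls k).filter fun k => q k = v) ⊆
            univ.filter fun k' => q k' = v := by
          intro k hk
          rw [mem_filter] at hk
          rw [mem_filter]
          exact ⟨mem_univ _, hk.2⟩
        refine (card_le_card h3).trans ?_
        have h4 : ¬ (4 * nmin ≤ N v) := fun h => hvB ((hBmem v).2 ⟨mem_range.1 hv, h⟩)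
        have h5 : N v = (univ.filter fun k' => q k' = v).card := rfl
        omega
    refine (sum_le_sum h2).trans ?_
    rw [sum_const, card_range, smul_eq_mul]
  have hcpos : 0 < c := by
    by_contra hcon
    have hc0 : c = 0 := by omega
    have h1 : (univ.filter fun k => 4 * c ≤ cls k) = univ := by
      rw [filter_true_of_mem]
      intro k _
      omega
    rw [h1, card_univ] at hblind
    omega
  refine ⟨c, ms, fun r => N (ms r) / 4, cls, hcpos, ?_, ?_, hs4, ?_, ?_, ?_, hblind⟩
  · have : B ⊆ range qmax := filter_subset _ _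
    have := card_le_card this
    rwa [card_range] at this
  · intro r hr
    exact hν _ (hs1 r hr)
  · intro r hr
    have h1 := (hBmem _).1 (hs1 r hr)
    have h2 : 0 < (univ.filter fun k' => q k' = ms r).card := by
      have : N (ms r) = (univ.filter fun k' => q k' = ms r).card := rfl
      omega
    obtain ⟨k, hk⟩ := card_pos.1 h2
    rw [mem_filter] at hk
    exact ⟨k, hk.2⟩
  · intro g hg
    have hzl : zig c g < c := by
      unfold zig
      have := Nat.mod_lt g hcpos
      split_ifs <;> omega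
    set r := zig c g with hr
    set v := ms r with hv
    have hvB : v ∈ B := hs1 r hzl
    have hnu : 0 < N v / 4 := lt_of_lt_of_le hn (hν v hvB)
    set p := g / c with hp
    have hp4 : p < 4 := Nat.div_lt_of_lt_mul (by rw [Nat.mul_comm]; exact hg)
    have hgd : g = p * c + g % c := by
      rw [hp, Nat.mul_comm]
      exact (Nat.div_add_mod g c).symm
    have h1 : (univ.filter fun k => cls k = g) =
        univ.filter fun k => q k = v ∧ p * (N v / 4) ≤ idx k ∧ idx k < (p + 1) * (N v / 4) := by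
      ext k
      rw [mem_filter, mem_filter]
      simp only [mem_univ, true_and]
      constructor
      · intro hk
        have h2 : cls k < 4 * c := by omega
        obtain ⟨h3, h4⟩ := (hlt_iff k).1 h2
        have h5 := hzig k h3 h4
        obtain ⟨a1, a2, a3⟩ := hin k h3 h4
        have a4 := hsmall k h3 h4
        have h6 : q k = v := by
          rw [hv, hr, ← hk, h5, (hs2 _ h3).2]
        have h7 : idx k / (N (q k) / 4) = p := by
          rw [hp, ← hk, a3, Nat.add_comm, Nat.add_mul_div_right _ _ hcpos, Nat.div_eq_of_lt a4,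
            Nat.zero_add]
        rw [h6] at h7
        refine ⟨h6, ?_, ?_⟩
        · rw [← h7]
          exact Nat.div_mul_le_self _ _
        · rw [← h7, Nat.mul_comm]
          exact Nat.lt_mul_div_succ _ hnu
      · rintro ⟨hk1, hk2, hk3⟩
        have h3 : q k ∈ B := by rw [hk1]; exact hvB
        have h7 : idx k / (N (q k) / 4) = p := by
          rw [hk1]
          exact Nat.div_eq_of_lt_le hk2 hk3
        have h4 : idx k < 4 * (N (q k) / 4) := by
          rw [hk1]
          refine lt_of_lt_of_le hk3 (Nat.mul_le_mul_right _ (by omega))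
        obtain ⟨a1, a2, a3⟩ := hin k h3 h4
        rw [a3, h7, hk1, hv, hs3 r hzl]
        have h8 : g % c < c := Nat.mod_lt g hcpos
        have h9 : r = if p % 2 = 0 then g % c else c - 1 - g % c := rfl
        by_cases hpp : p % 2 = 0
        · rw [if_pos hpp]
          rw [if_pos hpp] at h9
          rw [h9]
          exact hgd.symm
        · rw [if_neg hpp]
          rw [if_neg hpp] at h9
          have h10 : c - 1 - r = g % c := by omega
          rw [h10]
          exact hgd.symm
    rw [h1, hcnt v (p * (N v / 4)) ((p + 1) * (N v / 4))]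
    · show (p + 1) * (N v / 4) - p * (N v / 4) = N v / 4
      rw [Nat.succ_mul]
      omega
    · have h2 : (p + 1) * (N v / 4) ≤ 4 * (N v / 4) := Nat.mul_le_mul_right _ (by omega)
      have h3 : N v = (univ.filter fun k' => q k' = v).card := rfl
      omega
  · intro k hk
    obtain ⟨h3, h4⟩ := (hlt_iff k).1 hk
    rw [hzig k h3 h4, (hs2 _ h3).2]

end BLO
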