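import Pool.Agent.Lib.BLO.CombT

/-!
# Chunk CW4: distortion
-/

namespace BLO

open Finset BLP

/-- CW4: cost of a change of block `q` -/
noncomputable def cw4c (K : ℕ) (m : ℕ → ℝ) (y l : ℕ → ℕ) (q : ℕ) : ℝ :=
  8 + (((range K).filter fun g =>
        |((y g : ℝ)) - QQ y l g| ≤ 400 * m q ∧
        |((QQ y l K : ℝ)) - PP y l g| ≤ 400 * m q).card : ℝ) +
    (((range K).filter fun g => q < g ∧
        |((y g : ℝ)) - QQ y l g| ≤ 400 * m q).card : ℝ) +
    ∑ g ∈ (range K).filter (fun g => m g < m q), m q / m g *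
      ind ((QQ y l g : ℝ) ≤ l g + 400 * m q ∧
        |(QQ y l K : ℝ) - PP y l g| ≤ l g + 400 * m q) +
    ∑ g ∈ (range K).filter (fun g => m g < m q), m q / m g *
      ind (q < g ∧ (SQ y l (q + 1) g : ℝ) ≤ l g + 400 * m q ∧
        |(SZ y l (q + 1) g : ℝ) + QQ y l (q + 1)| ≤ l g + 400 * m q)

/-- CW4: the cost is at least 8 -/
theorem cw4c_ge (K : ℕ) (m : ℕ → ℝ) (hm : ∀ g, 0 ≤ m g) (y l : ℕ → ℕ) (q : ℕ) :
    8 ≤ cw4c K m y l q := by
  unfold cw4c
  have h1 : 0 ≤ ∑ g ∈ (range K).filter (fun g => m g < m q), m q / m g *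
      ind ((QQ y l g : ℝ) ≤ l g + 400 * m q ∧
        |(QQ y l K : ℝ) - PP y l g| ≤ l g + 400 * m q) :=
    Finset.sum_nonneg fun g _ => mul_nonneg (div_nonneg (hm _) (hm _)) (ind_nonneg _)
  have h2 : 0 ≤ ∑ g ∈ (range K).filter (fun g => m g < m q), m q / m g *
      ind (q < g ∧ (SQ y l (q + 1) g : ℝ) ≤ l g + 400 * m q ∧
        |(SZ y l (q + 1) g : ℝ) + QQ y l (q + 1)| ≤ l g + 400 * m q) :=
    Finset.sum_nonneg fun g _ => mul_nonneg (div_nonneg (hm _) (hm _)) (ind_nonneg _)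
  have h3 : (0 : ℝ) ≤ (((range K).filter fun g =>
        |((y g : ℝ)) - QQ y l g| ≤ 400 * m q ∧
        |((QQ y l K : ℝ)) - PP y l g| ≤ 400 * m q).card : ℝ) := Nat.cast_nonneg _
  have h4 : (0 : ℝ) ≤ (((range K).filter fun g => q < g ∧
        |((y g : ℝ)) - QQ y l g| ≤ 400 * m q).card : ℝ) := Nat.cast_nonneg _
  linarith

/-- CW4: sum of the costs of a process -/
theorem cw4_sum (C : ℝ) : ∃ C1 : ℝ, 0 < C1 ∧ ∀ (P : Type) [Fintype P] [DecidableEq P] (K : ℕ)
    (m n : ℕ → ℝ) (cl : P → ℕ) (Y L : PS P → ℕ → ℕ), Num C K m n → Proc K m n cl Y L →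
    ∑ q ∈ range K, n q * ∑ x : PS P, cw4c K m (Y x) (L x) q ≤
      C1 * NN n K * 4 ^ Fintype.card P := by
  obtain ⟨c1, hc1, h1⟩ := su1 C
  obtain ⟨c2, hc2, h2⟩ := su2 C
  obtain ⟨c3, hc3, h3⟩ := su3 C
  obtain ⟨c4, hc4, h4⟩ := su4 C
  refine ⟨8 + c1 + c2 + c3 + c4, by positivity, ?_⟩
  intro P _ _ K m n cl Y L hN hP
  have e1 := h1 P K m n cl Y L hN hP
  have e2 := h2 P K m n cl Y L hN hP
  have e3 := h3 P K m n cl Y L hN hP
  have e4 := h4 P K m n cl Y L hN hP
  have key : ∀ q, ∑ x : PS P, cw4c K m (Y x) (L x) q = 8 * 4 ^ Fintype.card P +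
      ∑ x : PS P, (((range K).filter fun g =>
        |((Y x g : ℝ)) - QQ (Y x) (L x) g| ≤ 400 * m q ∧
        |((QQ (Y x) (L x) K : ℝ)) - PP (Y x) (L x) g| ≤ 400 * m q).card : ℝ) +
      ∑ x : PS P, (((range K).filter fun g => q < g ∧
        |((Y x g : ℝ)) - QQ (Y x) (L x) g| ≤ 400 * m q).card : ℝ) +
      ∑ g ∈ (range K).filter (fun g => m g < m q), m q / m g *
      ∑ x : PS P, ind ((QQ (Y x) (L x) g : ℝ) ≤ L x g + 400 * m q ∧
        |(QQ (Y x) (L x) K : ℝ) - PP (Y x) (L x) g| ≤ L x g + 400 * m q) +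
      ∑ g ∈ (range K).filter (fun g => m g < m q), m q / m g *
      ∑ x : PS P, ind (q < g ∧ (SQ (Y x) (L x) (q + 1) g : ℝ) ≤ L x g + 400 * m q ∧
        |(SZ (Y x) (L x) (q + 1) g : ℝ) + QQ (Y x) (L x) (q + 1)| ≤ L x g + 400 * m q) := by
    intro q
    unfold cw4c
    rw [Finset.sum_add_distrib, Finset.sum_add_distrib, Finset.sum_add_distrib,
      Finset.sum_add_distrib]
    have a1 : ∑ _x : PS P, (8 : ℝ) = 8 * 4 ^ Fintype.card P := by
      rw [← cw1_card P, Finset.mul_sum]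
      simp
    rw [a1]
    congr 1
    · congr 1
      rw [Finset.sum_comm]
      exact Finset.sum_congr rfl fun g _ => by rw [Finset.mul_sum]
    · rw [Finset.sum_comm]
      exact Finset.sum_congr rfl fun g _ => by rw [Finset.mul_sum]
  have e0 : ∑ q ∈ range K, n q * (8 * 4 ^ Fintype.card P : ℝ) =
      8 * NN n K * 4 ^ Fintype.card P := by
    rw [← Finset.sum_mul]
    unfold NN
    ring
  calc ∑ q ∈ range K, n q * ∑ x : PS P, cw4c K m (Y x) (L x) q
      = ∑ q ∈ range K, (n q * (8 * 4 ^ Fintype.card P : ℝ) +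
        n q * ∑ x : PS P, (((range K).filter fun g =>
        |((Y x g : ℝ)) - QQ (Y x) (L x) g| ≤ 400 * m q ∧
        |((QQ (Y x) (L x) K : ℝ)) - PP (Y x) (L x) g| ≤ 400 * m q).card : ℝ) +
        n q * ∑ x : PS P, (((range K).filter fun g => q < g ∧
        |((Y x g : ℝ)) - QQ (Y x) (L x) g| ≤ 400 * m q).card : ℝ) +
        n q * ∑ g ∈ (range K).filter (fun g => m g < m q), m q / m g *
        ∑ x : PS P, ind ((QQ (Y x) (L x) g : ℝ) ≤ L x g + 400 * m q ∧
          |(QQ (Y x) (L x) K : ℝ) - PP (Y x) (L x) g| ≤ L x g + 400 * m q) +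
        n q * ∑ g ∈ (range K).filter (fun g => m g < m q), m q / m g *
        ∑ x : PS P, ind (q < g ∧ (SQ (Y x) (L x) (q + 1) g : ℝ) ≤ L x g + 400 * m q ∧
          |(SZ (Y x) (L x) (q + 1) g : ℝ) + QQ (Y x) (L x) (q + 1)| ≤ L x g + 400 * m q)) := by
        refine Finset.sum_congr rfl fun q _ => ?_
        rw [key q]
        ring
    _ ≤ 8 * NN n K * 4 ^ Fintype.card P + c1 * NN n K * 4 ^ Fintype.card P +
        c2 * NN n K * 4 ^ Fintype.card P + c3 * NN n K * 4 ^ Fintype.card P +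
        c4 * NN n K * 4 ^ Fintype.card P := by
        rw [Finset.sum_add_distrib, Finset.sum_add_distrib, Finset.sum_add_distrib,
          Finset.sum_add_distrib, e0]
        gcongr
    _ = _ := by ring

/-- CW4: the cost of a change of block `q` in terms of arrays -/
theorem cw4_arr (mN : ℕ → ℕ) (y l y' l' : ℕ → ℕ) (K q jj : ℕ) (hm : ∀ g < K, 0 < mN g)
    (hyl : ∀ g, y g ≤ l g) (hyl' : ∀ g, y' g ≤ l' g) (hq : q < K)
    (hy : ∀ g, g ≠ q → y' g = y g) (hl : ∀ g, g ≠ q → l' g = l g)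
    (hyq : |(y' q : ℤ) - y q| ≤ 20 * mN q) (hlq : |(l' q : ℤ) - l q| ≤ 20 * mN q) :
    ∑ g ∈ range K, (if g ≠ q ∧ GG y' l' K g ≠ GG y l K g then
      300 * ((jj : ℝ) + 1 + |(GG y' l' K g : ℝ) - GG y l K g| / mN g) else 0) ≤
    120300 * (jj + 1) * cw4c K (fun g => (mN g : ℝ)) y l q := by
  have hjj : (0 : ℝ) ≤ jj := Nat.cast_nonneg _
  have hyq' : |(y' q : ℤ) - y q| ≤ ((20 * mN q : ℕ) : ℤ) := by push_cast; exact hyq
  have hlq' : |(l' q : ℤ) - l q| ≤ ((20 * mN q : ℕ) : ℤ) := by push_cast; exact hlq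
  have hcnt := GG_count y l y' l' K q (20 * mN q) hyl hyl' hq hy hl hyq' hlq'
  have hA : ((range K).filter fun g => |(y g : ℤ) - QQ y l g| ≤ 20 * ((20 * mN q : ℕ) : ℤ) ∧
        |(QQ y l K : ℤ) - PP y l g| ≤ 20 * ((20 * mN q : ℕ) : ℤ)) =
      (range K).filter fun g => |((y g : ℝ)) - QQ y l g| ≤ 400 * (mN q : ℝ) ∧
        |((QQ y l K : ℝ)) - PP y l g| ≤ 400 * (mN q : ℝ) := by
    refine Finset.filter_congr fun g _ => ?_
    have e1 : (|((y g : ℝ)) - QQ y l g| ≤ 400 * (mN q : ℝ)) ↔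
        |(y g : ℤ) - QQ y l g| ≤ 20 * ((20 * mN q : ℕ) : ℤ) := by
      rw [← @Int.cast_le ℝ]
      push_cast
      rw [show (20 : ℝ) * (20 * (mN q : ℝ)) = 400 * (mN q : ℝ) by ring]
    have e2 : (|((QQ y l K : ℝ)) - PP y l g| ≤ 400 * (mN q : ℝ)) ↔
        |(QQ y l K : ℤ) - PP y l g| ≤ 20 * ((20 * mN q : ℕ) : ℤ) := by
      rw [← @Int.cast_le ℝ]
      push_cast
      rw [show (20 : ℝ) * (20 * (mN q : ℝ)) = 400 * (mN q : ℝ) by ring]
    rw [e1, e2]
  have hB : ((range K).filter fun g => q < g ∧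
        |(y g : ℤ) - QQ y l g| ≤ 20 * ((20 * mN q : ℕ) : ℤ)) =
      (range K).filter fun g => q < g ∧ |((y g : ℝ)) - QQ y l g| ≤ 400 * (mN q : ℝ) := by
    refine Finset.filter_congr fun g _ => ?_
    have e1 : (|((y g : ℝ)) - QQ y l g| ≤ 400 * (mN q : ℝ)) ↔
        |(y g : ℤ) - QQ y l g| ≤ 20 * ((20 * mN q : ℕ) : ℤ) := by
      rw [← @Int.cast_le ℝ]
      push_cast
      rw [show (20 : ℝ) * (20 * (mN q : ℝ)) = 400 * (mN q : ℝ) by ring]
    rw [e1]
  rw [hA, hB] at hcnt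
  have hcnt' : (((range K).filter fun g => g ≠ q ∧ GG y' l' K g ≠ GG y l K g).card : ℝ) ≤
      8 + (((range K).filter fun g => |((y g : ℝ)) - QQ y l g| ≤ 400 * (mN q : ℝ) ∧
        |((QQ y l K : ℝ)) - PP y l g| ≤ 400 * (mN q : ℝ)).card : ℝ) +
      (((range K).filter fun g => q < g ∧
        |((y g : ℝ)) - QQ y l g| ≤ 400 * (mN q : ℝ)).card : ℝ) := by
    exact_mod_cast hcnt
  -- pointwise bound
  set t2 : ℕ → ℝ := fun g => ind ((QQ y l g : ℝ) ≤ l g + 400 * (mN q : ℝ) ∧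
        |(QQ y l K : ℝ) - PP y l g| ≤ l g + 400 * (mN q : ℝ)) with ht2
  set t1 : ℕ → ℝ := fun g => ind (q < g ∧ (SQ y l (q + 1) g : ℝ) ≤ l g + 400 * (mN q : ℝ) ∧
        |(SZ y l (q + 1) g : ℝ) + QQ y l (q + 1)| ≤ l g + 400 * (mN q : ℝ)) with ht1
  have hpt : ∀ g ∈ range K, (if g ≠ q ∧ GG y' l' K g ≠ GG y l K g then
      300 * ((jj : ℝ) + 1 + |(GG y' l' K g : ℝ) - GG y l K g| / mN g) else 0) ≤
      120300 * (jj + 1) * (if g ≠ q ∧ GG y' l' K g ≠ GG y l K g then 1 else 0) +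
      120000 * (if (mN g : ℝ) < mN q then (mN q : ℝ) / mN g * t2 g else 0) +
      120000 * (if (mN g : ℝ) < mN q then (mN q : ℝ) / mN g * t1 g else 0) := by
    intro g hg
    have hg' := Finset.mem_range.mp hg
    have hmg : (0 : ℝ) < mN g := by exact_mod_cast hm g hg'
    have hmq : (0 : ℝ) < mN q := by exact_mod_cast hm q hq
    have hr : 0 ≤ (mN q : ℝ) / mN g := by positivity
    have ht2n : 0 ≤ t2 g := ind_nonneg _
    have ht1n : 0 ≤ t1 g := ind_nonneg _
    have hI2 : 0 ≤ (if (mN g : ℝ) < mN q then (mN q : ℝ) / mN g * t2 g else 0) := by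
      split_ifs
      · exact mul_nonneg hr ht2n
      · exact le_rfl
    have hI1 : 0 ≤ (if (mN g : ℝ) < mN q then (mN q : ℝ) / mN g * t1 g else 0) := by
      split_ifs
      · exact mul_nonneg hr ht1n
      · exact le_rfl
    by_cases hch : g ≠ q ∧ GG y' l' K g ≠ GG y l K g
    · rw [if_pos hch, if_pos hch]
      obtain ⟨l1, l2⟩ := GG_lip y l y' l' K q (20 * mN q) hyl hyl' hq hy hl hyq' hlq' g hg' hch.1
      have l1' : |(GG y' l' K g : ℝ) - GG y l K g| ≤ 400 * mN q := by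
        have : ((|GG y' l' K g - GG y l K g| : ℤ) : ℝ) ≤ ((20 * ((20 * mN q : ℕ) : ℤ) : ℤ) : ℝ) := by
          exact_mod_cast l1
        push_cast at this
        linarith
      have l3 : |(GG y' l' K g : ℝ) - GG y l K g| / mN g ≤ 400 * (mN q / mN g) := by
        rw [← mul_div_assoc]
        exact div_le_div_of_nonneg_right l1' hmg.le
      by_cases hmm : (mN g : ℝ) < mN q
      · rw [if_pos hmm, if_pos hmm]
        have l4 : 1 ≤ t2 g + t1 g := by
          rcases l2 hch.2 with h | h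
          · have h1 : t1 g = 1 := by
              apply ind_true
              obtain ⟨a1, a2, a3⟩ := h
              have a2' : ((SQ y l (q + 1) g : ℤ) : ℝ) ≤
                  ((l g + 20 * ((20 * mN q : ℕ) : ℤ) : ℤ) : ℝ) := by exact_mod_cast a2
              have a3' : ((|SZ y l (q + 1) g + QQ y l (q + 1)| : ℤ) : ℝ) ≤
                  ((l g + 20 * ((20 * mN q : ℕ) : ℤ) : ℤ) : ℝ) := by exact_mod_cast a3
              push_cast at a2' a3'
              exact ⟨a1, by linarith, by linarith⟩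
            rw [h1]
            linarith
          · have h1 : t2 g = 1 := by
              apply ind_true
              obtain ⟨a2, a3⟩ := h
              have a2' : ((QQ y l g : ℤ) : ℝ) ≤
                  ((l g + 20 * ((20 * mN q : ℕ) : ℤ) : ℤ) : ℝ) := by exact_mod_cast a2
              have a3' : ((|(QQ y l K : ℤ) - PP y l g| : ℤ) : ℝ) ≤
                  ((l g + 20 * ((20 * mN q : ℕ) : ℤ) : ℤ) : ℝ) := by exact_mod_cast a3
              push_cast at a2' a3'
              exact ⟨by linarith, by linarith⟩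
            rw [h1]
            linarith
        have l5 : (mN q : ℝ) / mN g ≤ mN q / mN g * t2 g + mN q / mN g * t1 g := by
          nlinarith
        nlinarith
      · rw [if_neg hmm, if_neg hmm]
        have l4 : (mN q : ℝ) / mN g ≤ 1 := by
          rw [div_le_one hmg]
          linarith
        nlinarith
    · rw [if_neg hch, if_neg hch]
      nlinarith
  refine (Finset.sum_le_sum hpt).trans ?_
  rw [Finset.sum_add_distrib, Finset.sum_add_distrib, ← Finset.mul_sum, ← Finset.mul_sum,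
    ← Finset.mul_sum]
  have s1 : ∑ g ∈ range K, (if g ≠ q ∧ GG y' l' K g ≠ GG y l K g then (1 : ℝ) else 0) =
      (((range K).filter fun g => g ≠ q ∧ GG y' l' K g ≠ GG y l K g).card : ℝ) := by
    rw [Finset.card_filter]
    push_cast
    rfl
  rw [s1, ← Finset.sum_filter, ← Finset.sum_filter]
  have hn2 : 0 ≤ ∑ g ∈ (range K).filter (fun g => (mN g : ℝ) < mN q), (mN q : ℝ) / mN g * t2 g :=
    Finset.sum_nonneg fun g _ => mul_nonneg
      (div_nonneg (Nat.cast_nonneg _) (Nat.cast_nonneg _)) (ind_nonneg _)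
  have hn1 : 0 ≤ ∑ g ∈ (range K).filter (fun g => (mN g : ℝ) < mN q), (mN q : ℝ) / mN g * t1 g :=
    Finset.sum_nonneg fun g _ => mul_nonneg
      (div_nonneg (Nat.cast_nonneg _) (Nat.cast_nonneg _)) (ind_nonneg _)
  have hc : cw4c K (fun g => (mN g : ℝ)) y l q =
      8 + (((range K).filter fun g => |((y g : ℝ)) - QQ y l g| ≤ 400 * (mN q : ℝ) ∧
        |((QQ y l K : ℝ)) - PP y l g| ≤ 400 * (mN q : ℝ)).card : ℝ) +
      (((range K).filter fun g => q < g ∧
        |((y g : ℝ)) - QQ y l g| ≤ 400 * (mN q : ℝ)).card : ℝ) +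
      ∑ g ∈ (range K).filter (fun g => (mN g : ℝ) < mN q), (mN q : ℝ) / mN g * t2 g +
      ∑ g ∈ (range K).filter (fun g => (mN g : ℝ) < mN q), (mN q : ℝ) / mN g * t1 g := rfl
  rw [hc]
  have h5 : (0 : ℝ) ≤ 120300 * ((jj : ℝ) + 1) := by positivity
  have h6 := mul_le_mul_of_nonneg_left hcnt' h5
  have h7 := mul_nonneg hjj hn2
  have h8 := mul_nonneg hjj hn1
  nlinarith

/-- CW4: change of the position of the changed block itself -/
theorem cw4_self (mN : ℕ) (y l y' l' : ℕ → ℕ) (K q : ℕ)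
    (hyl : ∀ g, y g ≤ l g) (hyl' : ∀ g, y' g ≤ l' g) (hq : q < K)
    (hy : ∀ g, g ≠ q → y' g = y g) (hl : ∀ g, g ≠ q → l' g = l g)
    (hyq : |(y' q : ℤ) - y q| ≤ 20 * mN) (hlq : |(l' q : ℤ) - l q| ≤ 20 * mN) :
    |GG y' l' K q - GG y l K q| ≤ 200 * mN := by
  have h := (PQ_lip y l y' l' K q (20 * mN) (fun g _ => hyl g) (fun g _ => hyl' g) hq
    (fun g _ hg => hy g hg) (fun g _ hg => hl g hg) (by push_cast; exact hyq)
    (by push_cast; exact hlq)).2
  push_cast at h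
  have hP : PP y' l' q = PP y l q :=
    PP_congr (fun g hg => hy g (by omega)) (fun g hg => hl g (by omega))
  have hZ : SZ y' l' 0 q = SZ y l 0 q := by
    unfold SZ
    refine Finset.sum_congr rfl fun g hg => ?_
    have := (Finset.mem_Ico.mp hg).2
    rw [hy g (by omega), hl g (by omega)]
  unfold GG
  rw [hP, hZ]
  rw [abs_le] at h hyq ⊢
  constructor
  · omega
  · omega

/-- CW4: only the values below `K` matter -/
theorem cw4_GG_congr {y l y' l' : ℕ → ℕ} {K g : ℕ} (hg : g < K) (hy : ∀ g < K, y g = y' g)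
    (hl : ∀ g < K, l g = l' g) : GG y l K g = GG y' l' K g := by
  unfold GG
  rw [hy g hg, PP_congr (fun j hj => hy j (by omega)) (fun j hj => hl j (by omega)),
    QQ_congr hy hl]
  congr 2
  unfold SZ
  refine Finset.sum_congr rfl fun j hj => ?_
  have := (Finset.mem_Ico.mp hj).2
  rw [hy j (by omega), hl j (by omega)]


section word

variable {P : Type*} [Fintype P] [DecidableEq P] {F : Fam P} {jj : ℕ} {ε : ℝ}

/-- CW4: a single pair changes the value of its block by at most 2 -/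
theorem cw4_vs (F : Fam P) (x x' : PS P) (k0 : P) (h : ∀ k ≠ k0, x' k = x k) :
    |F.vs (F.cls k0) x' - F.vs (F.cls k0) x| ≤ 2 := by
  have hk : k0 ∈ F.blk (F.cls k0) := by simp [Fam.blk]
  have hv : ∀ p : Bool × Bool, -1 ≤ val p ∧ val p ≤ 1 := by
    intro p
    unfold val
    split_ifs <;> constructor <;> norm_num
  have e : ∑ k ∈ (F.blk (F.cls k0)).erase k0, val (x' k) =
      ∑ k ∈ (F.blk (F.cls k0)).erase k0, val (x k) :=
    Finset.sum_congr rfl fun k hk => by rw [h k (Finset.ne_of_mem_erase hk)]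
  unfold Fam.vs
  rw [← Finset.add_sum_erase _ (fun k => val (x' k)) hk,
    ← Finset.add_sum_erase _ (fun k => val (x k)) hk, e]
  have h1 := hv (x' k0)
  have h2 := hv (x k0)
  rw [abs_le]
  constructor
  · linarith [h1.1, h2.2]
  · linarith [h1.2, h2.1]

/-- CW4: change of the value of the block -/
theorem cw4_dl (hF : F.OK jj ε) (x x' : PS P) (k0 : P) (hk : F.cls k0 < F.K)
    (h : ∀ k ≠ k0, x' k = x k) (hf : ¬ F.frz (F.cls k0) x) (hf' : ¬ F.frz (F.cls k0) x') :
    |((F.ls x' (F.cls k0) : ℤ) - 2 * F.ys x' (F.cls k0)) -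
      ((F.ls x (F.cls k0) : ℤ) - 2 * F.ys x (F.cls k0))| ≤ 4 * F.m (F.cls k0) := by
  have hB := hF.blk _ hk
  have e1 := hB.val x hf
  have e2 := hB.val x' hf'
  have n1 := hB.nu_lt x hf
  have n2 := hB.nu_lt x' hf'
  have hv := cw4_vs F x x' k0 h
  have y1 : F.ys x (F.cls k0) = (F.C (F.cls k0)).y x := if_pos hk
  have y2 : F.ys x' (F.cls k0) = (F.C (F.cls k0)).y x' := if_pos hk
  have l1 : F.ls x (F.cls k0) = (F.C (F.cls k0)).l x := if_pos hk
  have l2 : F.ls x' (F.cls k0) = (F.C (F.cls k0)).l x' := if_pos hk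
  rw [y1, y2, l1, l2, e1, e2]
  have hm : (0 : ℤ) ≤ F.m (F.cls k0) := Nat.cast_nonneg _
  rw [abs_le] at hv ⊢
  have h3 : (F.m (F.cls k0) : ℤ) * (F.vs (F.cls k0) x' - F.vs (F.cls k0) x) ≤
      2 * F.m (F.cls k0) := by nlinarith [hv.2]
  have h4 : -(2 * (F.m (F.cls k0) : ℤ)) ≤
      (F.m (F.cls k0) : ℤ) * (F.vs (F.cls k0) x' - F.vs (F.cls k0) x) := by nlinarith [hv.1]
  rw [mul_sub] at h3 h4
  constructor
  · omega
  · omega

/-- CW4: only block `cls k0` changes -/
theorem cw4_arrays (hF : F.OK jj ε) (x x' : PS P) (k0 : P) (h : ∀ k ≠ k0, x' k = x k) (g : ℕ)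
    (hg : g ≠ F.cls k0) : F.ys x' g = F.ys x g ∧ F.ls x' g = F.ls x g := by
  refine Fam.arr_loc hF x' x g fun k hk => ?_
  refine h k ?_
  rintro rfl
  exact hg hk.symm

/-- CW4: change of the value of the word -/
theorem cw4_zz (hF : F.OK jj ε) (x x' : PS P) (k0 : P) (hk : F.cls k0 < F.K)
    (h : ∀ k ≠ k0, x' k = x k) (hf : ¬ F.frz (F.cls k0) x) (hf' : ¬ F.frz (F.cls k0) x') :
    |F.zz x' - F.zz x| ≤ 4 * F.m (F.cls k0) := by
  have e : F.zz x' - F.zz x = ((F.ls x' (F.cls k0) : ℤ) - 2 * F.ys x' (F.cls k0)) -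
      ((F.ls x (F.cls k0) : ℤ) - 2 * F.ys x (F.cls k0)) := by
    unfold Fam.zz SZ
    rw [← Finset.sum_sub_distrib]
    rw [Finset.sum_eq_single (F.cls k0)]
    · intro g _ hg
      obtain ⟨h1, h2⟩ := cw4_arrays hF x x' k0 h g hg
      rw [h1, h2]
      ring
    · intro h1
      exact absurd (Finset.mem_Ico.mpr ⟨Nat.zero_le _, hk⟩) h1
  rw [e]
  exact cw4_dl hF x x' k0 hk h hf hf'

/-- CW4: both values `≤ 0` -/
theorem cw4_neg (hF : F.OK jj ε) (x x' : PS P) (k0 : P) (hk : F.cls k0 < F.K)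
    (h : ∀ k ≠ k0, x' k = x k) (hf : ¬ F.frz (F.cls k0) x) (hf' : ¬ F.frz (F.cls k0) x')
    (hz : F.zz x ≤ 0) (hz' : F.zz x' ≤ 0) :
    (Fam.pd (F.rev x) (F.rev x') : ℝ) ≤
      200000 * (jj + 1) * cw4c F.K F.mr (F.ys x) (F.ls x) (F.cls k0) := by
  have hjj : (0 : ℝ) ≤ jj := Nat.cast_nonneg _
  have hyl := F.ys_le x
  have hyl' := F.ys_le x'
  have hB := hF.blk _ hk
  have hmp : (0 : ℝ) < F.m (F.cls k0) := by exact_mod_cast hB.m_pos
  obtain ⟨p1, p2⟩ := hB.pert x x' k0 rfl h hf hf'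
  have y1 : F.ys x (F.cls k0) = (F.C (F.cls k0)).y x := if_pos hk
  have y2 : F.ys x' (F.cls k0) = (F.C (F.cls k0)).y x' := if_pos hk
  have l1 : F.ls x (F.cls k0) = (F.C (F.cls k0)).l x := if_pos hk
  have l2 : F.ls x' (F.cls k0) = (F.C (F.cls k0)).l x' := if_pos hk
  rw [← y1, ← y2] at p1
  rw [← l1, ← l2] at p2
  have hy : ∀ g, g ≠ F.cls k0 → F.ys x' g = F.ys x g := fun g hg =>
    (cw4_arrays hF x x' k0 h g hg).1
  have hl : ∀ g, g ≠ F.cls k0 → F.ls x' g = F.ls x g := fun g hg =>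
    (cw4_arrays hF x x' k0 h g hg).2
  have hmN : ∀ g < F.K, 0 < F.m g := fun g hg => (hF.blk g hg).m_pos
  have ha := cw4_arr F.m (F.ys x) (F.ls x) (F.ys x') (F.ls x') F.K (F.cls k0) jj hmN hyl hyl' hk
    hy hl p1 p2
  have hs := cw4_self (F.m (F.cls k0)) (F.ys x) (F.ls x) (F.ys x') (F.ls x') F.K (F.cls k0)
    hyl hyl' hk hy hl p1 p2
  have hs' : |(GG (F.ys x') (F.ls x') F.K (F.cls k0) : ℝ) - GG (F.ys x) (F.ls x) F.K (F.cls k0)| ≤
      200 * F.m (F.cls k0) := by
    exact_mod_cast hs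
  have hge := cw4c_ge F.K F.mr (fun g => Nat.cast_nonneg _) (F.ys x) (F.ls x) (F.cls k0)
  have hc := Fam.rev_cost hF x x' k0 hk h hf hf'
  have hpt : ∀ g ∈ range F.K,
      (if dcd (F.ys x) (F.ls x) F.K (QQ (F.ys x) (F.ls x) F.K) g ≠
          dcd (F.ys x') (F.ls x') F.K (QQ (F.ys x') (F.ls x') F.K) g ∨ g = F.cls k0 then
        300 * ((jj : ℝ) + 1 +
          |(dcd (F.ys x) (F.ls x) F.K (QQ (F.ys x) (F.ls x) F.K) g : ℝ) -
            dcd (F.ys x') (F.ls x') F.K (QQ (F.ys x') (F.ls x') F.K) g| / F.m g) else 0) ≤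
      (if g = F.cls k0 then 60300 * ((jj : ℝ) + 1) else 0) +
      (if g ≠ F.cls k0 ∧ GG (F.ys x') (F.ls x') F.K g ≠ GG (F.ys x) (F.ls x) F.K g then
      300 * ((jj : ℝ) + 1 + |(GG (F.ys x') (F.ls x') F.K g : ℝ) -
        GG (F.ys x) (F.ls x) F.K g| / F.m g) else 0) := by
    intro g hg
    have hg' := Finset.mem_range.mp hg
    have d1 := revneg (F.ys x) (F.ls x) hyl F.K hz g hg'
    have d2 := revneg (F.ys x') (F.ls x') hyl' F.K hz' g hg'
    have d1' : (dcd (F.ys x) (F.ls x) F.K (QQ (F.ys x) (F.ls x) F.K) g : ℝ) =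
        GG (F.ys x) (F.ls x) F.K g := by exact_mod_cast d1
    have d2' : (dcd (F.ys x') (F.ls x') F.K (QQ (F.ys x') (F.ls x') F.K) g : ℝ) =
        GG (F.ys x') (F.ls x') F.K g := by exact_mod_cast d2
    by_cases hgq : g = F.cls k0
    · rw [if_pos (Or.inr hgq), if_pos hgq, if_neg (fun h1 => h1.1 hgq), add_zero, d1', d2',
        abs_sub_comm, hgq]
      have h1 : |(GG (F.ys x') (F.ls x') F.K (F.cls k0) : ℝ) -
          GG (F.ys x) (F.ls x) F.K (F.cls k0)| / F.m (F.cls k0) ≤ 200 := by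
        rw [div_le_iff₀ hmp]
        exact hs'
      nlinarith
    · rw [if_neg hgq, zero_add]
      by_cases hch : GG (F.ys x') (F.ls x') F.K g ≠ GG (F.ys x) (F.ls x) F.K g
      · have h1 : dcd (F.ys x) (F.ls x) F.K (QQ (F.ys x) (F.ls x) F.K) g ≠
          dcd (F.ys x') (F.ls x') F.K (QQ (F.ys x') (F.ls x') F.K) g := by
          intro h2
          apply hch
          rw [← d1, ← d2, h2]
        rw [if_pos (Or.inl h1), if_pos ⟨hgq, hch⟩, d1', d2', abs_sub_comm]
      · have h1 : ¬ (dcd (F.ys x) (F.ls x) F.K (QQ (F.ys x) (F.ls x) F.K) g ≠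
          dcd (F.ys x') (F.ls x') F.K (QQ (F.ys x') (F.ls x') F.K) g ∨ g = F.cls k0) := by
          rintro (h2 | h2)
          · apply h2
            have : (dcd (F.ys x) (F.ls x) F.K (QQ (F.ys x) (F.ls x) F.K) g : ℤ) =
                dcd (F.ys x') (F.ls x') F.K (QQ (F.ys x') (F.ls x') F.K) g := by
              rw [d1, d2]
              exact (not_not.mp hch).symm
            exact_mod_cast this
          · exact hgq h2
        rw [if_neg h1, if_neg (fun h2 => hch h2.2)]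
  have hsum := Finset.sum_le_sum hpt
  rw [Finset.sum_add_distrib, Finset.sum_ite_eq' (range F.K) (F.cls k0),
    if_pos (Finset.mem_range.mpr hk)] at hsum
  have ha' : ∑ g ∈ range F.K, (if g ≠ F.cls k0 ∧ GG (F.ys x') (F.ls x') F.K g ≠
      GG (F.ys x) (F.ls x) F.K g then 300 * ((jj : ℝ) + 1 + |(GG (F.ys x') (F.ls x') F.K g : ℝ) -
        GG (F.ys x) (F.ls x) F.K g| / F.m g) else 0) ≤
      120300 * (jj + 1) * cw4c F.K F.mr (F.ys x) (F.ls x) (F.cls k0) := ha
  have h9 : 8 * ((jj : ℝ) + 1) ≤ (jj + 1) * cw4c F.K F.mr (F.ys x) (F.ls x) (F.cls k0) := by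
    nlinarith
  nlinarith

/-- CW4: both values `≥ 0` -/
theorem cw4_pos (hF : F.OK jj ε) (x x' : PS P) (k0 : P) (hk : F.cls k0 < F.K)
    (h : ∀ k ≠ k0, x' k = x k) (hf : ¬ F.frz (F.cls k0) x) (hf' : ¬ F.frz (F.cls k0) x')
    (hz : 0 ≤ F.zz x) (hz' : 0 ≤ F.zz x') :
    (Fam.pd (F.rev x) (F.rev x') : ℝ) ≤
      200000 * (jj + 1) * cw4c F.K (fun g => F.mr (F.K - 1 - g)) (my F.K (F.ys x) (F.ls x))
        (ml F.K (F.ls x)) (F.K - 1 - F.cls k0) := by
  have hjj : (0 : ℝ) ≤ jj := Nat.cast_nonneg _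
  have hyl := F.ys_le x
  have hyl' := F.ys_le x'
  have hB := hF.blk _ hk
  have hmp : (0 : ℝ) < F.m (F.cls k0) := by exact_mod_cast hB.m_pos
  obtain ⟨p1, p2⟩ := hB.pert x x' k0 rfl h hf hf'
  have p3 := cw4_dl hF x x' k0 hk h hf hf'
  have y1 : F.ys x (F.cls k0) = (F.C (F.cls k0)).y x := if_pos hk
  have y2 : F.ys x' (F.cls k0) = (F.C (F.cls k0)).y x' := if_pos hk
  have l1 : F.ls x (F.cls k0) = (F.C (F.cls k0)).l x := if_pos hk
  have l2 : F.ls x' (F.cls k0) = (F.C (F.cls k0)).l x' := if_pos hk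
  rw [← y1, ← y2] at p1
  rw [← l1, ← l2] at p2
  have hy : ∀ g, g ≠ F.cls k0 → F.ys x' g = F.ys x g := fun g hg =>
    (cw4_arrays hF x x' k0 h g hg).1
  have hl : ∀ g, g ≠ F.cls k0 → F.ls x' g = F.ls x g := fun g hg =>
    (cw4_arrays hF x x' k0 h g hg).2
  set q := F.cls k0 with hqd
  have hqq : F.K - 1 - (F.K - 1 - q) = q := by omega
  set Y := my F.K (F.ys x) (F.ls x) with hY
  set L := ml F.K (F.ls x) with hL
  set Y' : ℕ → ℕ := fun g => if g < F.K then my F.K (F.ys x') (F.ls x') g else Y g with hY'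
  set L' : ℕ → ℕ := fun g => if g < F.K then ml F.K (F.ls x') g else L g with hL'
  have hYL : ∀ g, Y g ≤ L g := fun g => Nat.sub_le _ _
  have hYL' : ∀ g, Y' g ≤ L' g := by
    intro g
    rw [hY', hL']
    dsimp only
    split_ifs
    · exact Nat.sub_le _ _
    · exact hYL g
  have hYe : ∀ g, g ≠ F.K - 1 - q → Y' g = Y g := by
    intro g hg
    rw [hY']
    dsimp only
    split_ifs with h1
    · rw [hY]
      unfold my
      rw [hy _ (by omega), hl _ (by omega)]
    · rfl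
  have hLe : ∀ g, g ≠ F.K - 1 - q → L' g = L g := by
    intro g hg
    rw [hL']
    dsimp only
    split_ifs with h1
    · rw [hL]
      unfold ml
      rw [hl _ (by omega)]
    · rfl
  have hY'q : Y' (F.K - 1 - q) = F.ls x' q - F.ys x' q := by
    rw [hY']
    dsimp only
    rw [if_pos (by omega)]
    unfold my
    rw [hqq]
  have hL'q : L' (F.K - 1 - q) = F.ls x' q := by
    rw [hL']
    dsimp only
    rw [if_pos (by omega)]
    unfold ml
    rw [hqq]
  have hYq : Y (F.K - 1 - q) = F.ls x q - F.ys x q := by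
    rw [hY]
    unfold my
    rw [hqq]
  have hLq : L (F.K - 1 - q) = F.ls x q := by
    rw [hL]
    unfold ml
    rw [hqq]
  have hmN : ∀ g < F.K, 0 < F.m (F.K - 1 - g) := fun g hg =>
    (hF.blk _ (by omega)).m_pos
  have q1 : |(Y' (F.K - 1 - q) : ℤ) - Y (F.K - 1 - q)| ≤ 20 * (F.m (F.K - 1 - (F.K - 1 - q)) : ℤ) := by
    rw [hY'q, hYq, hqq, Nat.cast_sub (hyl' q), Nat.cast_sub (hyl q)]
    rw [abs_le] at p1 p2 p3 ⊢
    constructor
    · omega
    · omega
  have q2 : |(L' (F.K - 1 - q) : ℤ) - L (F.K - 1 - q)| ≤ 20 * (F.m (F.K - 1 - (F.K - 1 - q)) : ℤ) := by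
    rw [hL'q, hLq, hqq]
    exact p2
  have ha := cw4_arr (fun g => F.m (F.K - 1 - g)) Y L Y' L' F.K (F.K - 1 - q) jj hmN hYL hYL'
    (by omega) hYe hLe q1 q2
  have hs := cw4_self (F.m (F.K - 1 - (F.K - 1 - q))) Y L Y' L' F.K (F.K - 1 - q)
    hYL hYL' (by omega) hYe hLe q1 q2
  rw [hqq] at hs
  have hs' : |(GG Y' L' F.K (F.K - 1 - q) : ℝ) - GG Y L F.K (F.K - 1 - q)| ≤ 200 * F.m q := by
    exact_mod_cast hs
  have p2' : |(F.ls x' q : ℝ) - F.ls x q| ≤ 20 * F.m q := by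
    exact_mod_cast p2
  have hge := cw4c_ge F.K (fun g => F.mr (F.K - 1 - g)) (fun g => Nat.cast_nonneg _) Y L
    (F.K - 1 - q)
  have hc := Fam.rev_cost hF x x' k0 hk h hf hf'
  set S : ℕ → ℝ := fun g => (if g ≠ F.K - 1 - q ∧ GG Y' L' F.K g ≠ GG Y L F.K g then
      300 * ((jj : ℝ) + 1 + |(GG Y' L' F.K g : ℝ) - GG Y L F.K g| / F.m (F.K - 1 - g)) else 0)
    with hS
  have hpt : ∀ g ∈ range F.K,
      (if dcd (F.ys x) (F.ls x) F.K (QQ (F.ys x) (F.ls x) F.K) g ≠
          dcd (F.ys x') (F.ls x') F.K (QQ (F.ys x') (F.ls x') F.K) g ∨ g = q then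
        300 * ((jj : ℝ) + 1 +
          |(dcd (F.ys x) (F.ls x) F.K (QQ (F.ys x) (F.ls x) F.K) g : ℝ) -
            dcd (F.ys x') (F.ls x') F.K (QQ (F.ys x') (F.ls x') F.K) g| / F.m g) else 0) ≤
      (if g = q then 66300 * ((jj : ℝ) + 1) else 0) + S (F.K - 1 - g) := by
    intro g hg
    have hg' := Finset.mem_range.mp hg
    have hgg : F.K - 1 - (F.K - 1 - g) = g := by omega
    have d1 := revpos (F.ys x) (F.ls x) hyl F.K hz g hg'
    have d2 := revpos (F.ys x') (F.ls x') hyl' F.K hz' g hg'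
    have c2 : GG (my F.K (F.ys x') (F.ls x')) (ml F.K (F.ls x')) F.K (F.K - 1 - g) =
        GG Y' L' F.K (F.K - 1 - g) := by
      refine cw4_GG_congr (by omega) (fun j hj => ?_) fun j hj => ?_
      · rw [hY']
        dsimp only
        rw [if_pos hj]
      · rw [hL']
        dsimp only
        rw [if_pos hj]
    rw [c2] at d2
    have d1' : (dcd (F.ys x) (F.ls x) F.K (QQ (F.ys x) (F.ls x) F.K) g : ℝ) =
        F.ls x g - GG Y L F.K (F.K - 1 - g) := by
      have : (dcd (F.ys x) (F.ls x) F.K (QQ (F.ys x) (F.ls x) F.K) g : ℤ) =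
        F.ls x g - GG Y L F.K (F.K - 1 - g) := by linarith
      exact_mod_cast this
    have d2' : (dcd (F.ys x') (F.ls x') F.K (QQ (F.ys x') (F.ls x') F.K) g : ℝ) =
        F.ls x' g - GG Y' L' F.K (F.K - 1 - g) := by
      have : (dcd (F.ys x') (F.ls x') F.K (QQ (F.ys x') (F.ls x') F.K) g : ℤ) =
        F.ls x' g - GG Y' L' F.K (F.K - 1 - g) := by linarith
      exact_mod_cast this
    rw [hS]
    dsimp only
    rw [hgg]
    by_cases hgq : g = q
    · rw [if_pos (Or.inr hgq), if_pos hgq, if_neg (fun h1 => h1.1 (by rw [hgq])), add_zero, d1',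
        d2', hgq]
      have h1 : |((F.ls x q : ℝ) - GG Y L F.K (F.K - 1 - q)) -
          (F.ls x' q - GG Y' L' F.K (F.K - 1 - q))| ≤ 220 * F.m q := by
        have e : ((F.ls x q : ℝ) - GG Y L F.K (F.K - 1 - q)) -
          (F.ls x' q - GG Y' L' F.K (F.K - 1 - q)) =
          (GG Y' L' F.K (F.K - 1 - q) - GG Y L F.K (F.K - 1 - q)) -
            ((F.ls x' q : ℝ) - F.ls x q) := by ring
        rw [e]
        refine (abs_sub _ _).trans ?_
        linarith
      have h2 : |((F.ls x q : ℝ) - GG Y L F.K (F.K - 1 - q)) -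
          (F.ls x' q - GG Y' L' F.K (F.K - 1 - q))| / F.m q ≤ 220 := by
        rw [div_le_iff₀ hmp]
        exact h1
      nlinarith
    · have hne : F.K - 1 - g ≠ F.K - 1 - q := by omega
      rw [if_neg hgq, zero_add]
      have hll := hl g hgq
      by_cases hch : GG Y' L' F.K (F.K - 1 - g) ≠ GG Y L F.K (F.K - 1 - g)
      · have h1 : dcd (F.ys x) (F.ls x) F.K (QQ (F.ys x) (F.ls x) F.K) g ≠
          dcd (F.ys x') (F.ls x') F.K (QQ (F.ys x') (F.ls x') F.K) g := by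
          intro h2
          apply hch
          rw [← d1, ← d2, h2, hll]
        rw [if_pos (Or.inl h1), if_pos ⟨hne, hch⟩, d1', d2', hll]
        have e : |((F.ls x g : ℝ) - GG Y L F.K (F.K - 1 - g)) -
            (F.ls x g - GG Y' L' F.K (F.K - 1 - g))| =
            |(GG Y' L' F.K (F.K - 1 - g) : ℝ) - GG Y L F.K (F.K - 1 - g)| := by
          congr 1
          ring
        rw [e]
      · have h1 : ¬ (dcd (F.ys x) (F.ls x) F.K (QQ (F.ys x) (F.ls x) F.K) g ≠
          dcd (F.ys x') (F.ls x') F.K (QQ (F.ys x') (F.ls x') F.K) g ∨ g = q) := by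
          rintro (h2 | h2)
          · apply h2
            have h3 := not_not.mp hch
            have : (dcd (F.ys x) (F.ls x) F.K (QQ (F.ys x) (F.ls x) F.K) g : ℤ) =
                dcd (F.ys x') (F.ls x') F.K (QQ (F.ys x') (F.ls x') F.K) g := by
              rw [h3] at d2
              rw [hll] at d2
              linarith
            exact_mod_cast this
          · exact hgq h2
        rw [if_neg h1, if_neg (fun h2 => hch h2.2)]
  have hsum := Finset.sum_le_sum hpt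
  rw [Finset.sum_add_distrib, Finset.sum_ite_eq' (range F.K) q,
    if_pos (Finset.mem_range.mpr hk), Finset.sum_range_reflect S F.K] at hsum
  have ha' : ∑ g ∈ range F.K, S g ≤
      120300 * (jj + 1) * cw4c F.K (fun g => F.mr (F.K - 1 - g)) Y L (F.K - 1 - q) := ha
  have h9 : 8 * ((jj : ℝ) + 1) ≤ (jj + 1) *
      cw4c F.K (fun g => F.mr (F.K - 1 - g)) Y L (F.K - 1 - q) := by
    nlinarith
  nlinarith

/-- CW4: frozen states -/
theorem cw4_frz (hF : F.OK jj ε) (q : ℕ) (hq : q < F.K) :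
    ∑ x : PS P, ind (F.frz q x) ≤ ε * 4 ^ Fintype.card P := by
  have hB := hF.blk q hq
  have hcard : (Fintype.card (Bool × Bool) : ℝ) = 4 := by
    rw [Fintype.card_prod, Fintype.card_bool]
    norm_num
  have h : ∀ x, ccnt (F.blk q) (F.frz q) x ≤
      ε * (Fintype.card (Bool × Bool) : ℝ) ^ (F.blk q).card := by
    intro x
    rw [hcard]
    exact hB.froz x
  have h2 := ccnt_mono (Finset.subset_univ (F.blk q)) (F.frz q) ε h (fun _ => (true, true))
  rw [ccnt_univ, hcard, Finset.card_univ] at h2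
  exact h2

/-- CW4: the change of one pair is a bijection -/
theorem cw4_bij (f : Bool × Bool → Bool × Bool) (hf : ∀ p, f (f p) = p) (k : P) (G : PS P → ℝ) :
    ∑ x : PS P, G (Function.update x k (f (x k))) = ∑ x, G x := by
  have hinv : Function.Involutive (fun x : PS P => Function.update x k (f (x k))) := by
    intro x
    simp [hf]
  exact Equiv.sum_comp hinv.toPerm G

omit [DecidableEq P] in
/-- CW4: the distance of pair words -/
theorem cw4_pd (x x' : PS P) : Fam.pd x x' = hammingDist x x' := by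
  unfold Fam.pd hammingDist
  congr

/-- CW4: pointwise bound of the cost of the change of one pair -/
theorem cw4_pt (hF : F.OK jj ε) (x x' : PS P) (k0 : P) (hk : F.cls k0 < F.K)
    (h : ∀ k ≠ k0, x' k = x k) :
    (Fam.pd (F.rev x) (F.rev x') : ℝ) ≤
      (Fintype.card P * ind (F.frz (F.cls k0) x) + Fintype.card P * ind (F.frz (F.cls k0) x')) +
      200000 * (jj + 1) * cw4c F.K F.mr (F.ys x) (F.ls x) (F.cls k0) +
      200000 * (jj + 1) * cw4c F.K (fun g => F.mr (F.K - 1 - g)) (my F.K (F.ys x) (F.ls x))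
        (ml F.K (F.ls x)) (F.K - 1 - F.cls k0) +
      ind (|(F.zz x : ℝ) - 0| ≤ 60 * F.m (F.cls k0)) * (Fam.pd x (F.rev x) : ℝ) +
      ind (|(F.zz x' : ℝ) - 0| ≤ 60 * F.m (F.cls k0)) * (Fam.pd x' (F.rev x') : ℝ) + 1 := by
  have hjj : (0 : ℝ) ≤ jj := Nat.cast_nonneg _
  have hc1 := cw4c_ge F.K F.mr (fun g => Nat.cast_nonneg _) (F.ys x) (F.ls x) (F.cls k0)
  have hc2 := cw4c_ge F.K (fun g => F.mr (F.K - 1 - g)) (fun g => Nat.cast_nonneg _)
    (my F.K (F.ys x) (F.ls x)) (ml F.K (F.ls x)) (F.K - 1 - F.cls k0)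
  have p1 : 0 ≤ 200000 * ((jj : ℝ) + 1) * cw4c F.K F.mr (F.ys x) (F.ls x) (F.cls k0) := by
    have : 0 ≤ cw4c F.K F.mr (F.ys x) (F.ls x) (F.cls k0) := by linarith
    positivity
  have p2 : 0 ≤ 200000 * ((jj : ℝ) + 1) * cw4c F.K (fun g => F.mr (F.K - 1 - g))
      (my F.K (F.ys x) (F.ls x)) (ml F.K (F.ls x)) (F.K - 1 - F.cls k0) := by
    have : 0 ≤ cw4c F.K (fun g => F.mr (F.K - 1 - g))
      (my F.K (F.ys x) (F.ls x)) (ml F.K (F.ls x)) (F.K - 1 - F.cls k0) := by linarith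
    positivity
  have p3 : 0 ≤ ind (|(F.zz x : ℝ) - 0| ≤ 60 * F.m (F.cls k0)) * (Fam.pd x (F.rev x) : ℝ) :=
    mul_nonneg (ind_nonneg _) (Nat.cast_nonneg _)
  have p4 : 0 ≤ ind (|(F.zz x' : ℝ) - 0| ≤ 60 * F.m (F.cls k0)) * (Fam.pd x' (F.rev x') : ℝ) :=
    mul_nonneg (ind_nonneg _) (Nat.cast_nonneg _)
  have p5 : 0 ≤ (Fintype.card P : ℝ) * ind (F.frz (F.cls k0) x) :=
    mul_nonneg (Nat.cast_nonneg _) (ind_nonneg _)
  have p6 : 0 ≤ (Fintype.card P : ℝ) * ind (F.frz (F.cls k0) x') :=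
    mul_nonneg (Nat.cast_nonneg _) (ind_nonneg _)
  have hle : (Fam.pd (F.rev x) (F.rev x') : ℝ) ≤ Fintype.card P := by
    have : Fam.pd (F.rev x) (F.rev x') ≤ Fintype.card P := Finset.card_le_univ _
    exact_mod_cast this
  by_cases hf : F.frz (F.cls k0) x
  · rw [ind_true hf]
    linarith
  by_cases hf' : F.frz (F.cls k0) x'
  · rw [ind_true hf']
    linarith
  rcases le_total (F.zz x) 0 with hz | hz
  · rcases le_total (F.zz x') 0 with hz' | hz'
    · have := cw4_neg hF x x' k0 hk h hf hf' hz hz'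
      linarith
    · have hd := cw4_zz hF x x' k0 hk h hf hf'
      rw [abs_le] at hd
      have hm : (0 : ℤ) ≤ F.m (F.cls k0) := Nat.cast_nonneg _
      have i1 : |F.zz x| ≤ 60 * (F.m (F.cls k0) : ℤ) := by
        rw [abs_le]
        constructor <;> omega
      have i2 : |F.zz x'| ≤ 60 * (F.m (F.cls k0) : ℤ) := by
        rw [abs_le]
        constructor <;> omega
      have i1' : |(F.zz x : ℝ) - 0| ≤ 60 * F.m (F.cls k0) := by
        rw [sub_zero]
        exact_mod_cast i1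
      have i2' : |(F.zz x' : ℝ) - 0| ≤ 60 * F.m (F.cls k0) := by
        rw [sub_zero]
        exact_mod_cast i2
      rw [ind_true i1', ind_true i2']
      have t1 : Fam.pd (F.rev x) (F.rev x') ≤ Fam.pd x (F.rev x) + Fam.pd x' (F.rev x') + 1 := by
        have t2 := hammingDist_triangle (F.rev x) x (F.rev x')
        have t3 := hammingDist_triangle x x' (F.rev x')
        have t4 : hammingDist x x' ≤ 1 := by
          rw [← cw4_pd]
          unfold Fam.pd
          refine Finset.card_le_one.mpr ?_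
          intro a ha b hb
          simp only [Finset.mem_filter, Finset.mem_univ, true_and] at ha hb
          have ha' : a = k0 := by
            by_contra h1
            exact ha (h a h1).symm
          have hb' : b = k0 := by
            by_contra h1
            exact hb (h b h1).symm
          rw [ha', hb']
        rw [cw4_pd, cw4_pd, cw4_pd]
        have t5 := hammingDist_comm (F.rev x) x
        omega
      have t1' : (Fam.pd (F.rev x) (F.rev x') : ℝ) ≤
          Fam.pd x (F.rev x) + Fam.pd x' (F.rev x') + 1 := by exact_mod_cast t1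
      linarith
  · rcases le_total (F.zz x') 0 with hz' | hz'
    · have hd := cw4_zz hF x x' k0 hk h hf hf'
      rw [abs_le] at hd
      have hm : (0 : ℤ) ≤ F.m (F.cls k0) := Nat.cast_nonneg _
      have i1 : |F.zz x| ≤ 60 * (F.m (F.cls k0) : ℤ) := by
        rw [abs_le]
        constructor <;> omega
      have i2 : |F.zz x'| ≤ 60 * (F.m (F.cls k0) : ℤ) := by
        rw [abs_le]
        constructor <;> omega
      have i1' : |(F.zz x : ℝ) - 0| ≤ 60 * F.m (F.cls k0) := by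
        rw [sub_zero]
        exact_mod_cast i1
      have i2' : |(F.zz x' : ℝ) - 0| ≤ 60 * F.m (F.cls k0) := by
        rw [sub_zero]
        exact_mod_cast i2
      rw [ind_true i1', ind_true i2']
      have t1 : Fam.pd (F.rev x) (F.rev x') ≤ Fam.pd x (F.rev x) + Fam.pd x' (F.rev x') + 1 := by
        have t2 := hammingDist_triangle (F.rev x) x (F.rev x')
        have t3 := hammingDist_triangle x x' (F.rev x')
        have t4 : hammingDist x x' ≤ 1 := by
          rw [← cw4_pd]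
          unfold Fam.pd
          refine Finset.card_le_one.mpr ?_
          intro a ha b hb
          simp only [Finset.mem_filter, Finset.mem_univ, true_and] at ha hb
          have ha' : a = k0 := by
            by_contra h1
            exact ha (h a h1).symm
          have hb' : b = k0 := by
            by_contra h1
            exact hb (h b h1).symm
          rw [ha', hb']
        rw [cw4_pd, cw4_pd, cw4_pd]
        have t5 := hammingDist_comm (F.rev x) x
        omega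
      have t1' : (Fam.pd (F.rev x) (F.rev x') : ℝ) ≤
          Fam.pd x (F.rev x) + Fam.pd x' (F.rev x') + 1 := by exact_mod_cast t1
      linarith
    · have := cw4_pos hF x x' k0 hk h hf hf' hz hz'
      linarith

end word

/-- CW4: distortion.  `f` = the change of the state of a pair by the flip of one coordinate.
Frozen states of block `cls k` (before or after): cost `≤ card P`, probability `≤ 2 ε`, `card P * ε ≤ 1`.
Otherwise (`pert`, `η = 20 m_q`): if `zz x ≤ 0` and `zz x' ≤ 0`: `rev_cost`, `revneg`, `GG_lip`, `GG_count`; blocks with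
`m_g ≥ m_q` cost `≤ C (jj+1)` each if they change, lighter ones `C (jj + 1) + C m_q/m_g`; `su1`-`su4` for the word.  If both are
`≥ 0`: mirror image.  If the sign of `zz` changes then `|zz x| ≤ 60 m_q` and
`pd (rev x) (rev x') ≤ pd x (rev x) + pd x' (rev x') + 1`: `combT` with `θ = 0` (`x ↦ x'` is a bijection). -/
theorem combA (C : ℝ) : ∃ C1 : ℝ, 0 < C1 ∧ ∀ (P : Type) [Fintype P] [DecidableEq P] (F : Fam P)
    (jj : ℕ) (ε : ℝ), F.OK jj ε → Num C F.K F.mr F.nr → Eps F ε →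
    ∀ f : Bool × Bool → Bool × Bool, (∀ p, f (f p) = p) →
    ∑ x : PS P, ∑ k ∈ F.seg 0 F.K,
        (Fam.pd (F.rev x) (F.rev (Function.update x k (f (x k)))) : ℝ) ≤
      C1 * (jj + 1) * NN F.nr F.K * 4 ^ Fintype.card P := by
  obtain ⟨c4, hc4, h4⟩ := cw4_sum C
  obtain ⟨cT, hcT, hT⟩ := combT C
  refine ⟨3 + 400000 * c4 + 2 * cT, by positivity, ?_⟩
  intro P _ _ F jj ε hF hN hE f hff
  have hjj : (0 : ℝ) ≤ jj := Nat.cast_nonneg _
  have hp := Fam.proc hF hN hE.h1 hE.h2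
  have hpm := Fam.procm hF hN hE.h1 hE.h2
  have s1 := h4 P F.K F.mr F.nr F.cls F.ys F.ls hN hp
  have s2 := h4 P F.K _ _ _ _ _ hN.mirror hpm
  rw [cw3_NN] at s2
  have s3 := hT P F jj ε hF hN hE 0
  have hW : (0 : ℝ) < 4 ^ Fintype.card P := by positivity
  have hNN : 0 ≤ NN F.nr F.K := Finset.sum_nonneg fun g _ => Nat.cast_nonneg _
  have hseg : ((F.seg 0 F.K).card : ℝ) = NN F.nr F.K := by
    have := cw1_sum_seg F (fun _ => 1)
    simp only [Finset.sum_const, nsmul_eq_mul, mul_one] at this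
    exact this
  have hcls : ∀ k ∈ F.seg 0 F.K, F.cls k < F.K := by
    intro k hk
    simp only [Fam.seg, Finset.mem_filter] at hk
    exact hk.2.2
  set up : PS P → P → PS P := fun x k => Function.update x k (f (x k)) with hup
  -- the parts
  have hpt : ∀ x : PS P, ∀ k ∈ F.seg 0 F.K,
      (Fam.pd (F.rev x) (F.rev (up x k)) : ℝ) ≤
      (Fintype.card P * ind (F.frz (F.cls k) x) + Fintype.card P * ind (F.frz (F.cls k) (up x k))) +
      200000 * (jj + 1) * cw4c F.K F.mr (F.ys x) (F.ls x) (F.cls k) +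
      200000 * (jj + 1) * cw4c F.K (fun g => F.mr (F.K - 1 - g)) (my F.K (F.ys x) (F.ls x))
        (ml F.K (F.ls x)) (F.K - 1 - F.cls k) +
      ind (|(F.zz x : ℝ) - 0| ≤ 60 * F.m (F.cls k)) * (Fam.pd x (F.rev x) : ℝ) +
      ind (|(F.zz (up x k) : ℝ) - 0| ≤ 60 * F.m (F.cls k)) *
        (Fam.pd (up x k) (F.rev (up x k)) : ℝ) + 1 := by
    intro x k hk
    refine cw4_pt hF x (up x k) k (hcls k hk) fun j hj => ?_
    rw [hup]
    dsimp only
    rw [Function.update_of_ne hj]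
  refine (Finset.sum_le_sum fun x _ => Finset.sum_le_sum fun k hk => hpt x k hk).trans ?_
  have a1 : ∑ x : PS P, ∑ k ∈ F.seg 0 F.K, (Fintype.card P : ℝ) * ind (F.frz (F.cls k) x) ≤
      NN F.nr F.K * 4 ^ Fintype.card P := by
    rw [Finset.sum_comm]
    have : ∀ k ∈ F.seg 0 F.K, ∑ x : PS P, (Fintype.card P : ℝ) * ind (F.frz (F.cls k) x) ≤
        4 ^ Fintype.card P := by
      intro k hk
      rw [← Finset.mul_sum]
      have h1 := cw4_frz hF (F.cls k) (hcls k hk)
      have h2 := mul_le_mul_of_nonneg_left h1 (Nat.cast_nonneg (α := ℝ) (Fintype.card P))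
      have h3 := mul_le_mul_of_nonneg_right hE.h3 hW.le
      linarith
    refine (Finset.sum_le_sum this).trans (le_of_eq ?_)
    rw [Finset.sum_const, nsmul_eq_mul, hseg]
  have a2 : ∑ x : PS P, ∑ k ∈ F.seg 0 F.K, (Fintype.card P : ℝ) * ind (F.frz (F.cls k) (up x k)) ≤
      NN F.nr F.K * 4 ^ Fintype.card P := by
    refine le_trans (le_of_eq ?_) a1
    rw [Finset.sum_comm]
    refine Eq.trans ?_ Finset.sum_comm
    refine Finset.sum_congr rfl fun k _ => ?_
    exact cw4_bij f hff k (fun x => (Fintype.card P : ℝ) * ind (F.frz (F.cls k) x))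
  have a3 : ∑ x : PS P, ∑ k ∈ F.seg 0 F.K,
      200000 * ((jj : ℝ) + 1) * cw4c F.K F.mr (F.ys x) (F.ls x) (F.cls k) ≤
      200000 * (jj + 1) * (c4 * NN F.nr F.K * 4 ^ Fintype.card P) := by
    have e : ∑ x : PS P, ∑ k ∈ F.seg 0 F.K,
        200000 * ((jj : ℝ) + 1) * cw4c F.K F.mr (F.ys x) (F.ls x) (F.cls k) =
        200000 * (jj + 1) * ∑ q ∈ range F.K, F.nr q *
          ∑ x : PS P, cw4c F.K F.mr (F.ys x) (F.ls x) q := by
      rw [Finset.mul_sum]
      have e2 : ∀ q ∈ range F.K, 200000 * ((jj : ℝ) + 1) * (F.nr q *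
          ∑ x : PS P, cw4c F.K F.mr (F.ys x) (F.ls x) q) =
          ∑ x : PS P, F.nr q * (200000 * ((jj : ℝ) + 1) * cw4c F.K F.mr (F.ys x) (F.ls x) q) := by
        intro q _
        rw [Finset.mul_sum, Finset.mul_sum]
        exact Finset.sum_congr rfl fun x _ => by ring
      rw [Finset.sum_congr rfl e2]
      refine Eq.trans ?_ Finset.sum_comm
      refine Finset.sum_congr rfl fun x _ => ?_
      exact cw1_sum_seg F
        (fun q => 200000 * ((jj : ℝ) + 1) * cw4c F.K F.mr (F.ys x) (F.ls x) q)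
    rw [e]
    exact mul_le_mul_of_nonneg_left s1 (by positivity)
  have a4 : ∑ x : PS P, ∑ k ∈ F.seg 0 F.K,
      200000 * ((jj : ℝ) + 1) * cw4c F.K (fun g => F.mr (F.K - 1 - g))
        (my F.K (F.ys x) (F.ls x)) (ml F.K (F.ls x)) (F.K - 1 - F.cls k) ≤
      200000 * (jj + 1) * (c4 * NN F.nr F.K * 4 ^ Fintype.card P) := by
    have e : ∑ x : PS P, ∑ k ∈ F.seg 0 F.K,
        200000 * ((jj : ℝ) + 1) * cw4c F.K (fun g => F.mr (F.K - 1 - g))
        (my F.K (F.ys x) (F.ls x)) (ml F.K (F.ls x)) (F.K - 1 - F.cls k) =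
        200000 * (jj + 1) * ∑ q ∈ range F.K, F.nr (F.K - 1 - q) *
          ∑ x : PS P, cw4c F.K (fun g => F.mr (F.K - 1 - g))
        (my F.K (F.ys x) (F.ls x)) (ml F.K (F.ls x)) q := by
      rw [← Finset.sum_range_reflect (fun q => F.nr (F.K - 1 - q) *
          ∑ x : PS P, cw4c F.K (fun g => F.mr (F.K - 1 - g))
        (my F.K (F.ys x) (F.ls x)) (ml F.K (F.ls x)) q), Finset.mul_sum]
      have e2 : ∀ q ∈ range F.K, 200000 * ((jj : ℝ) + 1) * (F.nr (F.K - 1 - (F.K - 1 - q)) *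
          ∑ x : PS P, cw4c F.K (fun g => F.mr (F.K - 1 - g))
        (my F.K (F.ys x) (F.ls x)) (ml F.K (F.ls x)) (F.K - 1 - q)) =
          ∑ x : PS P, F.nr q * (200000 * ((jj : ℝ) + 1) * cw4c F.K (fun g => F.mr (F.K - 1 - g))
        (my F.K (F.ys x) (F.ls x)) (ml F.K (F.ls x)) (F.K - 1 - q)) := by
        intro q hq
        have hq' := Finset.mem_range.mp hq
        rw [show F.K - 1 - (F.K - 1 - q) = q by omega, Finset.mul_sum, Finset.mul_sum]
        exact Finset.sum_congr rfl fun x _ => by ring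
      rw [Finset.sum_congr rfl e2]
      refine Eq.trans ?_ Finset.sum_comm
      refine Finset.sum_congr rfl fun x _ => ?_
      exact cw1_sum_seg F
        (fun q => 200000 * ((jj : ℝ) + 1) * cw4c F.K (fun g => F.mr (F.K - 1 - g))
        (my F.K (F.ys x) (F.ls x)) (ml F.K (F.ls x)) (F.K - 1 - q))
    rw [e]
    exact mul_le_mul_of_nonneg_left s2 (by positivity)
  have a5 : ∑ x : PS P, ∑ k ∈ F.seg 0 F.K,
      ind (|(F.zz (up x k) : ℝ) - 0| ≤ 60 * F.m (F.cls k)) *
        (Fam.pd (up x k) (F.rev (up x k)) : ℝ) ≤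
      cT * (jj + 1) * NN F.nr F.K * 4 ^ Fintype.card P := by
    refine le_trans (le_of_eq ?_) s3
    rw [Finset.sum_comm]
    refine Eq.trans ?_ Finset.sum_comm
    refine Finset.sum_congr rfl fun k _ => ?_
    exact cw4_bij f hff k (fun x => ind (|(F.zz x : ℝ) - 0| ≤ 60 * F.m (F.cls k)) *
        (Fam.pd x (F.rev x) : ℝ))
  have a6 : ∑ x : PS P, ∑ k ∈ F.seg 0 F.K, (1 : ℝ) = NN F.nr F.K * 4 ^ Fintype.card P := by
    have e1 : ∑ k ∈ F.seg 0 F.K, (1 : ℝ) = NN F.nr F.K := by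
      rw [Finset.sum_const, nsmul_eq_mul, mul_one, hseg]
    rw [e1, ← cw1_card P, Finset.mul_sum, mul_one]
  simp only [Finset.sum_add_distrib]
  rw [a6]
  have hprod : 0 ≤ (jj : ℝ) * (NN F.nr F.K * 4 ^ Fintype.card P) := by positivity
  nlinarith

end BLO
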