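import Pool.Agent.Lib.BLO.CombDefs

/-!
# Chunk CW2: displacement
-/

namespace BLO

open Finset BLP

theorem cw2_split {jj : ℝ} (hjj : 0 ≤ jj) {r : ℝ} (hr : 0 ≤ r) {p : Prop} (hp : p) :
    300 * (jj + 1 + r) ≤ 300 * (jj + 1) * (ind p * (1 + r)) := by
  rw [ind_true hp, one_mul]
  nlinarith

/-- displacement of one point -/
theorem cw2_point {C : ℝ} {P : Type} [Fintype P] [DecidableEq P] {F : Fam P} {jj : ℕ} {ε : ℝ}
    (hF : F.OK jj ε) (hN : Num C F.K F.mr F.nr) (x : PS P) :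
    (Fam.pd x (F.rev x) : ℝ) ≤ 300 * ((jj : ℝ) + 1) *
      (∑ g ∈ range F.K, ind ((QQ (F.ys x) (F.ls x) g : ℝ) ≤ F.ls x g) * (1 + F.ls x g / F.mr g) +
      ∑ g ∈ range F.K, ind ((QQ (my F.K (F.ys x) (F.ls x)) (ml F.K (F.ls x)) g : ℝ) ≤
        ml F.K (F.ls x) g) * (1 + ml F.K (F.ls x) g / F.mr (F.K - 1 - g))) := by
  have hjj : (0 : ℝ) ≤ jj := Nat.cast_nonneg _
  have hm : ∀ g < F.K, (0 : ℝ) < F.mr g := fun g hg => lt_of_lt_of_le one_pos (hN.m1 g hg)
  have hyl := F.ys_le x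
  have hyl' : ∀ g, my F.K (F.ys x) (F.ls x) g ≤ ml F.K (F.ls x) g := fun g => Nat.sub_le _ _
  have hA : 0 ≤ ∑ g ∈ range F.K, ind ((QQ (F.ys x) (F.ls x) g : ℝ) ≤ F.ls x g) *
      (1 + F.ls x g / F.mr g) := by
    refine Finset.sum_nonneg fun g hg => mul_nonneg (ind_nonneg _) ?_
    have := hm g (Finset.mem_range.mp hg)
    positivity
  have hB : 0 ≤ ∑ g ∈ range F.K, ind ((QQ (my F.K (F.ys x) (F.ls x)) (ml F.K (F.ls x)) g : ℝ) ≤
        ml F.K (F.ls x) g) * (1 + ml F.K (F.ls x) g / F.mr (F.K - 1 - g)) := by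
    refine Finset.sum_nonneg fun g hg => mul_nonneg (ind_nonneg _) ?_
    have := hm (F.K - 1 - g) (by have := Finset.mem_range.mp hg; omega)
    positivity
  refine (Fam.rev_disp hF x).trans ?_
  rcases le_total (SZ (F.ys x) (F.ls x) 0 F.K) 0 with hX | hX
  · have h1 : ∑ g ∈ range F.K,
        (if dcd (F.ys x) (F.ls x) F.K (QQ (F.ys x) (F.ls x) F.K) g ≠ F.ys x g then
          300 * ((jj : ℝ) + 1 + (F.ls x g : ℝ) / F.m g) else 0) ≤
        300 * ((jj : ℝ) + 1) * ∑ g ∈ range F.K, ind ((QQ (F.ys x) (F.ls x) g : ℝ) ≤ F.ls x g) *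
          (1 + F.ls x g / F.mr g) := by
      rw [Finset.mul_sum]
      refine Finset.sum_le_sum fun g hg => ?_
      have hgK := Finset.mem_range.mp hg
      have hmg := hm g hgK
      have hr : 0 ≤ (F.ls x g : ℝ) / F.mr g := by positivity
      split_ifs with h
      · have h2 := revneg (F.ys x) (F.ls x) hyl F.K hX g hgK
        have h3 : GG (F.ys x) (F.ls x) F.K g ≠ F.ys x g := by
          rw [← h2]
          exact_mod_cast h
        have h4 := (GG_moved _ _ _ _ hyl hgK h3).1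
        have h5 : (QQ (F.ys x) (F.ls x) g : ℝ) ≤ F.ls x g := by exact_mod_cast h4.le
        exact cw2_split hjj hr h5
      · exact mul_nonneg (by positivity) (mul_nonneg (ind_nonneg _) (by linarith))
    refine h1.trans (mul_le_mul_of_nonneg_left ?_ (by positivity))
    linarith
  · have h1 : ∑ g ∈ range F.K,
        (if dcd (F.ys x) (F.ls x) F.K (QQ (F.ys x) (F.ls x) F.K) g ≠ F.ys x g then
          300 * ((jj : ℝ) + 1 + (F.ls x g : ℝ) / F.m g) else 0) ≤
        300 * ((jj : ℝ) + 1) * ∑ g ∈ range F.K,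
          ind ((QQ (my F.K (F.ys x) (F.ls x)) (ml F.K (F.ls x)) g : ℝ) ≤
        ml F.K (F.ls x) g) * (1 + ml F.K (F.ls x) g / F.mr (F.K - 1 - g)) := by
      rw [← Finset.sum_range_reflect (fun g => ind ((QQ (my F.K (F.ys x) (F.ls x))
        (ml F.K (F.ls x)) g : ℝ) ≤ ml F.K (F.ls x) g) *
        (1 + ml F.K (F.ls x) g / F.mr (F.K - 1 - g))), Finset.mul_sum]
      refine Finset.sum_le_sum fun g hg => ?_
      have hgK := Finset.mem_range.mp hg
      have hmg := hm g hgK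
      have e1 : F.K - 1 - (F.K - 1 - g) = g := by omega
      have e2 : ml F.K (F.ls x) (F.K - 1 - g) = F.ls x g := by
        unfold ml
        rw [e1]
      rw [e1, e2]
      have hr : 0 ≤ (F.ls x g : ℝ) / F.mr g := by positivity
      split_ifs with h
      · have h2 := revpos (F.ys x) (F.ls x) hyl F.K hX g hgK
        have h3 : GG (my F.K (F.ys x) (F.ls x)) (ml F.K (F.ls x)) F.K (F.K - 1 - g) ≠
            my F.K (F.ys x) (F.ls x) (F.K - 1 - g) := by
          rw [← h2]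
          unfold my
          rw [e1]
          have := hyl g
          push_cast [this]
          intro h4
          apply h
          omega
        have h4 := (GG_moved _ _ _ _ hyl' (by omega) h3).1
        rw [e2] at h4
        have h5 : (QQ (my F.K (F.ys x) (F.ls x)) (ml F.K (F.ls x)) (F.K - 1 - g) : ℝ) ≤
            F.ls x g := by exact_mod_cast h4.le
        exact cw2_split hjj hr h5
      · exact mul_nonneg (by positivity) (mul_nonneg (ind_nonneg _) (by linarith))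
    refine h1.trans (mul_le_mul_of_nonneg_left ?_ (by positivity))
    linarith

/-- CW2: displacement.  `rev_disp`; if `zz ≤ 0` use `revneg`, `GG_moved`, `su5` for the word, otherwise
`revpos`, `GG_moved` and `su5` for the mirror image. -/
theorem combD (C : ℝ) : ∃ C1 : ℝ, 0 < C1 ∧ ∀ (P : Type) [Fintype P] [DecidableEq P] (F : Fam P)
    (jj : ℕ) (ε : ℝ), F.OK jj ε → Num C F.K F.mr F.nr → Eps F ε →
    ∑ x : PS P, (Fam.pd x (F.rev x) : ℝ) ≤
      C1 * (jj + 1) * Real.sqrt (NN F.nr F.K) * 4 ^ Fintype.card P := by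
  obtain ⟨C1, hC1, h5⟩ := su5 C
  refine ⟨600 * C1, by positivity, ?_⟩
  intro P _ _ F jj ε hF hN hE
  have h1 := h5 P F.K F.mr F.nr F.cls F.ys F.ls hN (Fam.proc hF hN hE.h1 hE.h2)
  have h2 := h5 P F.K (fun g => F.mr (F.K - 1 - g)) (fun g => F.nr (F.K - 1 - g))
    (fun k => if F.cls k < F.K then F.K - 1 - F.cls k else F.cls k)
    (fun x => my F.K (F.ys x) (F.ls x)) (fun x => ml F.K (F.ls x)) hN.mirror
    (Fam.procm hF hN hE.h1 hE.h2)
  rw [pi0_NN_reflect] at h2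
  have hjj : (0 : ℝ) ≤ jj := Nat.cast_nonneg _
  calc ∑ x : PS P, (Fam.pd x (F.rev x) : ℝ) ≤ ∑ x : PS P, 300 * ((jj : ℝ) + 1) *
      (∑ g ∈ range F.K, ind ((QQ (F.ys x) (F.ls x) g : ℝ) ≤ F.ls x g) * (1 + F.ls x g / F.mr g) +
      ∑ g ∈ range F.K, ind ((QQ (my F.K (F.ys x) (F.ls x)) (ml F.K (F.ls x)) g : ℝ) ≤
        ml F.K (F.ls x) g) * (1 + ml F.K (F.ls x) g / F.mr (F.K - 1 - g))) :=
        Finset.sum_le_sum fun x _ => cw2_point hF hN x
    _ = 300 * ((jj : ℝ) + 1) *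
      (∑ x : PS P, ∑ g ∈ range F.K, ind ((QQ (F.ys x) (F.ls x) g : ℝ) ≤ F.ls x g) *
        (1 + F.ls x g / F.mr g) +
      ∑ x : PS P, ∑ g ∈ range F.K, ind ((QQ (my F.K (F.ys x) (F.ls x)) (ml F.K (F.ls x)) g : ℝ) ≤
        ml F.K (F.ls x) g) * (1 + ml F.K (F.ls x) g / F.mr (F.K - 1 - g))) := by
        rw [← Finset.mul_sum, Finset.sum_add_distrib]
    _ ≤ 300 * ((jj : ℝ) + 1) * (C1 * Real.sqrt (NN F.nr F.K) * 4 ^ Fintype.card P +
        C1 * Real.sqrt (NN F.nr F.K) * 4 ^ Fintype.card P) :=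
        mul_le_mul_of_nonneg_left (add_le_add h1 h2) (by positivity)
    _ = _ := by ring

end BLO
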