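import Pool.Agent.Lib.BLO.ProcSum

/-!
# The four estimates for the word: hypotheses

`Fam.mr, Fam.nr` real weights and sizes, `NN = ∑ n` number of pairs in the word.
-/

namespace BLO

open Finset BLP

/-- numerical hypotheses on `ε` -/
structure Eps {P : Type*} [Fintype P] [DecidableEq P] (F : Fam P) (ε : ℝ) : Prop where
  h1 : F.K * ε * Real.sqrt (VV F.mr F.nr 0 F.K) ≤ 1
  h2 : F.K * ε * Real.sqrt (NN F.nr F.K) ≤ 1
  h3 : (Fintype.card P : ℝ) * ε ≤ 1

end BLO
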