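import Pool.Agent.Lib.BLO.CombDefs

/-!
# Chunk CW1: influence
-/

namespace BLO

open Finset BLP

/-- CW1: a sum over the pairs of the word of a function of the block -/
theorem cw1_sum_seg {P : Type*} [Fintype P] [DecidableEq P] (F : Fam P) (φ : ℕ → ℝ) :
    ∑ k ∈ F.seg 0 F.K, φ (F.cls k) = ∑ h ∈ range F.K, F.nr h * φ h := by
  have hmap : ∀ k ∈ F.seg 0 F.K, F.cls k ∈ range F.K := by
    intro k hk
    simp only [Fam.seg, Finset.mem_filter] at hk
    exact Finset.mem_range.mpr hk.2.2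
  rw [← Finset.sum_fiberwise_of_maps_to hmap]
  refine Finset.sum_congr rfl fun h hh => ?_
  have h1 : (F.seg 0 F.K).filter (fun k => F.cls k = h) = F.blk h := by
    ext k
    simp only [Fam.seg, Fam.blk, Finset.mem_filter, Finset.mem_univ, true_and]
    have := Finset.mem_range.mp hh
    constructor
    · rintro ⟨_, h2⟩
      exact h2
    · intro h2
      exact ⟨⟨by omega, by omega⟩, h2⟩
  rw [h1]
  have h2 : ∀ k ∈ F.blk h, φ (F.cls k) = φ h := by
    intro k hk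
    simp only [Fam.blk, Finset.mem_filter] at hk
    rw [hk.2]
  rw [Finset.sum_congr rfl h2, Finset.sum_const, nsmul_eq_mul]
  rfl

/-- CW1: number of points -/
theorem cw1_card (P : Type*) [Fintype P] [DecidableEq P] :
    ∑ _x : PS P, (1 : ℝ) = 4 ^ Fintype.card P := by
  rw [Finset.sum_const, nsmul_eq_mul, mul_one, Finset.card_univ, Fintype.card_fun,
    Fintype.card_prod, Fintype.card_bool]
  norm_num

/-- CW1: influence.  `su6` (any free segment) with `f = 1`; letters of block `h` have `m (cls k) = m h`. -/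
theorem combI (C : ℝ) : ∃ C1 : ℝ, 0 < C1 ∧ ∀ (P : Type) [Fintype P] [DecidableEq P] (F : Fam P)
    (jj : ℕ) (ε : ℝ), F.OK jj ε → Num C F.K F.mr F.nr → Eps F ε → ∀ θ : ℝ,
    ∑ x : PS P, ∑ k ∈ F.seg 0 F.K, ind (|(F.zz x : ℝ) - θ| ≤ 60 * F.m (F.cls k)) ≤
      C1 * Real.sqrt (NN F.nr F.K) * 4 ^ Fintype.card P := by
  obtain ⟨C1, hC1, h6⟩ := su6 C
  refine ⟨C1, hC1, ?_⟩
  intro P _ _ F jj ε hF hN hE θ
  have hp := Fam.proc hF hN hE.h1 hE.h2
  obtain ⟨b, f, f', hb, _, hs⟩ := hN.good.h5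
  have hK := hN.good.hK
  obtain ⟨_, hb2, hb3, _⟩ := hb 0 hK
  have h := h6 P F.K F.mr F.nr F.cls F.ys F.ls hN hp (f 0) (f' 0) hb2 hb3 (hs 0 hK).1 (hs 0 hK).2
    θ (fun _ => 1) (fun _ => zero_le_one) (fun _ _ _ => rfl)
  rw [cw1_card] at h
  refine le_trans (le_of_eq ?_) h
  refine Finset.sum_congr rfl fun x _ => ?_
  rw [one_mul, cw1_sum_seg F (fun h => ind (|(F.zz x : ℝ) - θ| ≤ 60 * F.m h))]
  rfl

end BLO
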