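import Pool.Agent.Lib.BLO.CombI

/-!
# Chunk CW3: displacement near a threshold
-/

namespace BLO

open Finset BLP

/-- CW3: the value of the mirror word -/
theorem cw3_mirror_zz {P : Type*} [Fintype P] [DecidableEq P] (F : Fam P) (x : PS P) :
    SZ (my F.K (F.ys x) (F.ls x)) (ml F.K (F.ls x)) 0 F.K = - F.zz x := by
  have h := (mirror_sub (F.ys x) (F.ls x) (F.ys_le x) F.K (Nat.zero_le F.K) le_rfl).2.2
  rw [h, Nat.sub_self, Nat.sub_zero]
  rfl

/-- CW3: pointwise bound of the displacement -/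
theorem cw3_disp {P : Type*} [Fintype P] [DecidableEq P] {F : Fam P} {jj : ℕ} {ε : ℝ}
    (hF : F.OK jj ε) (x : PS P) :
    (Fam.pd x (F.rev x) : ℝ) ≤ 300 * (jj + 1) *
      (∑ g ∈ range F.K, ind ((QQ (F.ys x) (F.ls x) g : ℝ) ≤ F.ls x g) * (1 + F.ls x g / F.mr g) +
       ∑ g ∈ range F.K, ind ((QQ (my F.K (F.ys x) (F.ls x)) (ml F.K (F.ls x)) g : ℝ) ≤
          ml F.K (F.ls x) g) * (1 + ml F.K (F.ls x) g / F.mr (F.K - 1 - g))) := by
  have hjj : (0 : ℝ) ≤ jj := Nat.cast_nonneg _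
  have hm : ∀ g, (0 : ℝ) ≤ F.mr g := fun g => Nat.cast_nonneg _
  have hyl := F.ys_le x
  have hD1 : 0 ≤ ∑ g ∈ range F.K,
      ind ((QQ (F.ys x) (F.ls x) g : ℝ) ≤ F.ls x g) * (1 + F.ls x g / F.mr g) :=
    Finset.sum_nonneg fun g _ => mul_nonneg (ind_nonneg _)
      (add_nonneg zero_le_one (div_nonneg (Nat.cast_nonneg _) (hm _)))
  have hD2 : 0 ≤ ∑ g ∈ range F.K, ind ((QQ (my F.K (F.ys x) (F.ls x)) (ml F.K (F.ls x)) g : ℝ) ≤
      ml F.K (F.ls x) g) * (1 + ml F.K (F.ls x) g / F.mr (F.K - 1 - g)) :=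
    Finset.sum_nonneg fun g _ => mul_nonneg (ind_nonneg _)
      (add_nonneg zero_le_one (div_nonneg (Nat.cast_nonneg _) (hm _)))
  have hterm : ∀ g, 300 * ((jj : ℝ) + 1 + (F.ls x g : ℝ) / F.m g) ≤
      300 * (jj + 1) * (1 + F.ls x g / F.mr g) := by
    intro g
    have h1 : (0 : ℝ) ≤ (F.ls x g : ℝ) / F.mr g := div_nonneg (Nat.cast_nonneg _) (hm _)
    have h2 : (F.ls x g : ℝ) / F.m g = (F.ls x g : ℝ) / F.mr g := rfl
    rw [h2]
    nlinarith [mul_nonneg hjj h1]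
  refine (F.rev_disp hF x).trans ?_
  rcases le_total (F.zz x) 0 with hz | hz
  · have h1 : ∑ g ∈ range F.K,
        (if dcd (F.ys x) (F.ls x) F.K (QQ (F.ys x) (F.ls x) F.K) g ≠ F.ys x g then
          300 * ((jj : ℝ) + 1 + (F.ls x g : ℝ) / F.m g) else 0) ≤ 300 * (jj + 1) *
        ∑ g ∈ range F.K,
          ind ((QQ (F.ys x) (F.ls x) g : ℝ) ≤ F.ls x g) * (1 + F.ls x g / F.mr g) := by
      rw [Finset.mul_sum]
      refine Finset.sum_le_sum fun g hg => ?_
      have hg' := Finset.mem_range.mp hg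
      have h0 : 0 ≤ 300 * ((jj : ℝ) + 1) *
          (ind ((QQ (F.ys x) (F.ls x) g : ℝ) ≤ F.ls x g) * (1 + F.ls x g / F.mr g)) := by
        have := mul_nonneg (ind_nonneg ((QQ (F.ys x) (F.ls x) g : ℝ) ≤ F.ls x g))
          (add_nonneg zero_le_one (div_nonneg (Nat.cast_nonneg (F.ls x g)) (hm g)))
        positivity
      split_ifs with h
      · have h2 := revneg (F.ys x) (F.ls x) hyl F.K hz g hg'
        have h3 : GG (F.ys x) (F.ls x) F.K g ≠ F.ys x g := by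
          rw [← h2]
          exact_mod_cast h
        have h4 := (GG_moved (F.ys x) (F.ls x) F.K g hyl hg' h3).1
        have h5 : (QQ (F.ys x) (F.ls x) g : ℝ) ≤ F.ls x g := by
          exact_mod_cast h4.le
        rw [ind_true h5, one_mul]
        exact hterm g
      · exact h0
    nlinarith [mul_nonneg (by positivity : (0 : ℝ) ≤ 300 * (jj + 1)) hD2]
  · have h1 : ∑ g ∈ range F.K,
        (if dcd (F.ys x) (F.ls x) F.K (QQ (F.ys x) (F.ls x) F.K) g ≠ F.ys x g then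
          300 * ((jj : ℝ) + 1 + (F.ls x g : ℝ) / F.m g) else 0) ≤ 300 * (jj + 1) *
        ∑ g ∈ range F.K, ind ((QQ (my F.K (F.ys x) (F.ls x)) (ml F.K (F.ls x)) g : ℝ) ≤
          ml F.K (F.ls x) g) * (1 + ml F.K (F.ls x) g / F.mr (F.K - 1 - g)) := by
      rw [← Finset.sum_range_reflect (fun g => ind ((QQ (my F.K (F.ys x) (F.ls x))
          (ml F.K (F.ls x)) g : ℝ) ≤ ml F.K (F.ls x) g) *
            (1 + ml F.K (F.ls x) g / F.mr (F.K - 1 - g))), Finset.mul_sum]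
      refine Finset.sum_le_sum fun g hg => ?_
      have hg' := Finset.mem_range.mp hg
      have hgg : F.K - 1 - (F.K - 1 - g) = g := by omega
      have hml : ml F.K (F.ls x) (F.K - 1 - g) = F.ls x g := by
        unfold ml
        rw [hgg]
      have hmy : my F.K (F.ys x) (F.ls x) (F.K - 1 - g) = F.ls x g - F.ys x g := by
        unfold my
        rw [hgg]
      rw [hml, hgg]
      have h0 : 0 ≤ 300 * ((jj : ℝ) + 1) * (ind ((QQ (my F.K (F.ys x) (F.ls x))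
          (ml F.K (F.ls x)) (F.K - 1 - g) : ℝ) ≤ F.ls x g) * (1 + F.ls x g / F.mr g)) := by
        have := mul_nonneg (ind_nonneg ((QQ (my F.K (F.ys x) (F.ls x))
          (ml F.K (F.ls x)) (F.K - 1 - g) : ℝ) ≤ F.ls x g))
          (add_nonneg zero_le_one (div_nonneg (Nat.cast_nonneg (F.ls x g)) (hm g)))
        positivity
      split_ifs with h
      · have h2 := revpos (F.ys x) (F.ls x) hyl F.K hz g hg'
        have hylm : ∀ g, my F.K (F.ys x) (F.ls x) g ≤ ml F.K (F.ls x) g :=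
          fun g => Nat.sub_le _ _
        have h3 : GG (my F.K (F.ys x) (F.ls x)) (ml F.K (F.ls x)) F.K (F.K - 1 - g) ≠
            my F.K (F.ys x) (F.ls x) (F.K - 1 - g) := by
          rw [← h2, hmy, Nat.cast_sub (hyl g)]
          intro h4
          apply h
          have : (dcd (F.ys x) (F.ls x) F.K (QQ (F.ys x) (F.ls x) F.K) g : ℤ) = F.ys x g := by
            linarith
          exact_mod_cast this
        have h4 := (GG_moved _ _ F.K (F.K - 1 - g) hylm (by omega) h3).1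
        rw [hml] at h4
        have h5 : (QQ (my F.K (F.ys x) (F.ls x)) (ml F.K (F.ls x)) (F.K - 1 - g) : ℝ) ≤
            F.ls x g := by
          exact_mod_cast h4.le
        rw [ind_true h5, one_mul]
        exact hterm g
      · exact h0
    nlinarith [mul_nonneg (by positivity : (0 : ℝ) ≤ 300 * (jj + 1)) hD1]

/-- CW3: the size does not change under the mirror image -/
theorem cw3_NN (n : ℕ → ℝ) (K : ℕ) : NN (fun g => n (K - 1 - g)) K = NN n K := by
  unfold NN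
  exact Finset.sum_range_reflect n K

/-- CW3: displacement near a threshold (as `combD` with `su7`) -/
theorem combT (C : ℝ) : ∃ C1 : ℝ, 0 < C1 ∧ ∀ (P : Type) [Fintype P] [DecidableEq P] (F : Fam P)
    (jj : ℕ) (ε : ℝ), F.OK jj ε → Num C F.K F.mr F.nr → Eps F ε → ∀ θ : ℝ,
    ∑ x : PS P, ∑ k ∈ F.seg 0 F.K, ind (|(F.zz x : ℝ) - θ| ≤ 60 * F.m (F.cls k)) *
        (Fam.pd x (F.rev x) : ℝ) ≤
      C1 * (jj + 1) * NN F.nr F.K * 4 ^ Fintype.card P := by
  obtain ⟨C1, hC1, h7⟩ := su7 C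
  refine ⟨600 * C1, by positivity, ?_⟩
  intro P _ _ F jj ε hF hN hE θ
  have hp := Fam.proc hF hN hE.h1 hE.h2
  have hpm := Fam.procm hF hN hE.h1 hE.h2
  have e1 := h7 P F.K F.mr F.nr F.cls F.ys F.ls hN hp θ
  have e2 := h7 P F.K _ _ _ _ _ hN.mirror hpm (-θ)
  rw [cw3_NN] at e2
  have hn : ∀ h, (0 : ℝ) ≤ F.nr h := fun h => Nat.cast_nonneg _
  have key : ∀ x : PS P, ∑ k ∈ F.seg 0 F.K, ind (|(F.zz x : ℝ) - θ| ≤ 60 * F.m (F.cls k)) *
        (Fam.pd x (F.rev x) : ℝ) ≤ 300 * (jj + 1) *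
      ((∑ g ∈ range F.K, ind ((QQ (F.ys x) (F.ls x) g : ℝ) ≤ F.ls x g) *
        (1 + F.ls x g / F.mr g)) * ∑ h ∈ range F.K, F.nr h *
          ind (|(SZ (F.ys x) (F.ls x) 0 F.K : ℝ) - θ| ≤ 60 * F.mr h) +
      (∑ g ∈ range F.K, ind ((QQ (my F.K (F.ys x) (F.ls x)) (ml F.K (F.ls x)) g : ℝ) ≤
          ml F.K (F.ls x) g) * (1 + ml F.K (F.ls x) g / F.mr (F.K - 1 - g))) *
        ∑ h ∈ range F.K, F.nr (F.K - 1 - h) *
          ind (|(SZ (my F.K (F.ys x) (F.ls x)) (ml F.K (F.ls x)) 0 F.K : ℝ) - -θ| ≤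
            60 * F.mr (F.K - 1 - h))) := by
    intro x
    have h1 : ∑ h ∈ range F.K, F.nr (F.K - 1 - h) *
          ind (|(SZ (my F.K (F.ys x) (F.ls x)) (ml F.K (F.ls x)) 0 F.K : ℝ) - -θ| ≤
            60 * F.mr (F.K - 1 - h)) = ∑ h ∈ range F.K, F.nr h *
          ind (|(SZ (F.ys x) (F.ls x) 0 F.K : ℝ) - θ| ≤ 60 * F.mr h) := by
      rw [cw3_mirror_zz]
      rw [← Finset.sum_range_reflect (fun h => F.nr h *
          ind (|(SZ (F.ys x) (F.ls x) 0 F.K : ℝ) - θ| ≤ 60 * F.mr h))]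
      refine Finset.sum_congr rfl fun h _ => ?_
      congr 1
      apply ind_congr
      have : |((-F.zz x : ℤ) : ℝ) - -θ| = |(SZ (F.ys x) (F.ls x) 0 F.K : ℝ) - θ| := by
        push_cast
        rw [show -(F.zz x : ℝ) - -θ = -((F.zz x : ℝ) - θ) by ring, abs_neg]
        rfl
      rw [this]
    rw [h1, ← Finset.sum_mul]
    rw [cw1_sum_seg F (fun h => ind (|(F.zz x : ℝ) - θ| ≤ 60 * F.m h))]
    have h2 := cw3_disp hF x
    have h3 : (0 : ℝ) ≤ ∑ h ∈ range F.K, F.nr h *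
          ind (|(SZ (F.ys x) (F.ls x) 0 F.K : ℝ) - θ| ≤ 60 * F.mr h) :=
      Finset.sum_nonneg fun h _ => mul_nonneg (hn h) (ind_nonneg _)
    have h4 := mul_le_mul_of_nonneg_left h2 h3
    refine le_trans (le_of_eq ?_) (h4.trans (le_of_eq ?_))
    · rfl
    · ring
  refine (Finset.sum_le_sum fun x _ => key x).trans ?_
  rw [← Finset.mul_sum, Finset.sum_add_distrib]
  have h5 : (0 : ℝ) ≤ 300 * ((jj : ℝ) + 1) := by positivity
  have h6 := mul_le_mul_of_nonneg_left (add_le_add e1 e2) h5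
  refine h6.trans (le_of_eq ?_)
  ring

end BLO
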