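import Pool.Agent.Lib.BLP.Ops

/-!
# Chunk CND: conditional counts
-/

namespace BLO

open Finset BLP

variable {ι : Type*} [Fintype ι] [DecidableEq ι] {α : Type*} [Fintype α] [DecidableEq α]

/-- number of points `z` with `E z` that agree with `x` outside `S` -/
noncomputable def ccnt (S : Finset ι) (E : (ι → α) → Prop) (x : ι → α) : ℝ :=
  ∑ z : ι → α, ind ((∀ i, i ∉ S → z i = x i) ∧ E z)

/-- number of points agreeing with `x` outside `S` -/
theorem ccnt_true (S : Finset ι) (x : ι → α) :
    ccnt S (fun _ => True) x = (Fintype.card α : ℝ) ^ S.card := by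
  unfold ccnt
  rw [sum_ind]
  have h1 : (univ.filter fun z : ι → α => (∀ i, i ∉ S → z i = x i) ∧ True) =
      Fintype.piFinset (fun i => if i ∈ S then (univ : Finset α) else {x i}) := by
    ext z
    simp only [Finset.mem_filter, Finset.mem_univ, true_and, and_true, Fintype.mem_piFinset]
    constructor
    · intro h i
      by_cases hi : i ∈ S
      · simp [hi]
      · simp [hi, h i hi]
    · intro h i hi
      have := h i
      simpa [hi] using this
  rw [h1, Fintype.card_piFinset]
  have h2 : ∀ i, (if i ∈ S then (univ : Finset α) else {x i}).card =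
      if i ∈ S then Fintype.card α else 1 := by
    intro i
    by_cases hi : i ∈ S
    · simp [hi]
    · simp [hi]
  rw [Finset.prod_congr rfl fun i _ => h2 i, Finset.prod_ite_mem, Finset.univ_inter,
    Finset.prod_const]
  push_cast
  rfl

/-- the general conditional expectation: if `f` does not depend on the coordinates in `S` -/
theorem cond_sum_fun (S : Finset ι) (f F q : (ι → α) → ℝ)
    (hf0 : ∀ x, 0 ≤ f x)
    (hf : ∀ x x' : ι → α, (∀ i, i ∉ S → x i = x' i) → f x = f x')
    (hE : ∀ x, ∑ z : ι → α, ind (∀ i, i ∉ S → z i = x i) * F z ≤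
      q x * (Fintype.card α : ℝ) ^ S.card) :
    ∑ x, f x * F x ≤ ∑ x, f x * q x := by
  by_cases hne : Nonempty (ι → α)
  · obtain ⟨x0⟩ := hne
    have hpos : 0 < (Fintype.card α : ℝ) ^ S.card := by
      rcases S.eq_empty_or_nonempty with hS | ⟨i, _⟩
      · rw [hS]; simp
      · have : 0 < Fintype.card α := Fintype.card_pos_iff.mpr ⟨x0 i⟩
        positivity
    refine le_of_mul_le_mul_right ?_ hpos
    calc (∑ x, f x * F x) * (Fintype.card α : ℝ) ^ S.card
        = ∑ z, f z * F z * ccnt S (fun _ => True) z := by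
          rw [Finset.sum_mul]
          exact Finset.sum_congr rfl fun z _ => by rw [ccnt_true]
      _ = ∑ z, ∑ x : ι → α, ind (∀ i, i ∉ S → x i = z i) * (f z * F z) := by
          refine Finset.sum_congr rfl fun z _ => ?_
          rw [ccnt, Finset.mul_sum]
          refine Finset.sum_congr rfl fun x _ => ?_
          rw [mul_comm, ind_congr (iff_of_eq (and_true _))]
      _ = ∑ z, ∑ x, ind (∀ i, i ∉ S → z i = x i) * (f x * F z) := by
          refine Finset.sum_congr rfl fun z _ => Finset.sum_congr rfl fun x _ => ?_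
          by_cases h : ∀ i, i ∉ S → x i = z i
          · rw [ind_true h, ind_true (fun i hi => (h i hi).symm), hf x z h]
          · rw [ind_false h, ind_false (fun h' => h fun i hi => (h' i hi).symm)]
            simp
      _ = ∑ x, f x * ∑ z, ind (∀ i, i ∉ S → z i = x i) * F z := by
          rw [Finset.sum_comm]
          refine Finset.sum_congr rfl fun x _ => ?_
          rw [Finset.mul_sum]
          exact Finset.sum_congr rfl fun z _ => by ring
      _ ≤ ∑ x, f x * (q x * (Fintype.card α : ℝ) ^ S.card) :=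
          Finset.sum_le_sum fun x _ => mul_le_mul_of_nonneg_left (hE x) (hf0 x)
      _ = (∑ x, f x * q x) * (Fintype.card α : ℝ) ^ S.card := by
          rw [Finset.sum_mul]
          exact Finset.sum_congr rfl fun z _ => by ring
  · rw [not_nonempty_iff] at hne
    simp

/-- converting conditional bounds to sums with weights that do not depend on the coordinates in
`S`: `∑_x f x 1_E x = |α|^{-|S|} ∑_x ∑_{z = x off S} f z 1_E z = |α|^{-|S|} ∑_x f x ccnt S E x`. -/
theorem cond_sum (S : Finset ι) (E : (ι → α) → Prop) (f q : (ι → α) → ℝ)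
    (hf0 : ∀ x, 0 ≤ f x)
    (hf : ∀ x x' : ι → α, (∀ i, i ∉ S → x i = x' i) → f x = f x')
    (hE : ∀ x, ccnt S E x ≤ q x * (Fintype.card α : ℝ) ^ S.card) :
    ∑ x, f x * ind (E x) ≤ ∑ x, f x * q x := by
  refine cond_sum_fun S f (fun x => ind (E x)) q hf0 hf fun x => ?_
  refine le_trans (le_of_eq ?_) (hE x)
  unfold ccnt
  refine Finset.sum_congr rfl fun z _ => ?_
  by_cases h1 : ∀ i, i ∉ S → z i = x i
  · rw [ind_true h1, one_mul]
    exact ind_congr ⟨fun h => ⟨h1, h⟩, fun h => h.2⟩
  · rw [ind_false h1, zero_mul, ind_false fun h => h1 h.1]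

/-- monotonicity in `S`: averaging a uniform bound -/
theorem ccnt_mono {S T : Finset ι} (hST : S ⊆ T) (E : (ι → α) → Prop) (q : ℝ)
    (hE : ∀ x, ccnt S E x ≤ q * (Fintype.card α : ℝ) ^ S.card) (x : ι → α) :
    ccnt T E x ≤ q * (Fintype.card α : ℝ) ^ T.card := by
  have h := cond_sum S E (fun w => ind (∀ i, i ∉ T → w i = x i)) (fun _ => q)
    (fun _ => ind_nonneg _) (fun w w' hw => ind_congr ?_) hE
  · have e1 : ∑ w : ι → α, ind (∀ i, i ∉ T → w i = x i) * ind (E w) = ccnt T E x := by
      unfold ccnt
      refine Finset.sum_congr rfl fun z _ => ?_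
      by_cases h1 : ∀ i, i ∉ T → z i = x i
      · rw [ind_true h1, one_mul]
        exact ind_congr ⟨fun h => ⟨h1, h⟩, fun h => h.2⟩
      · rw [ind_false h1, zero_mul, ind_false fun h => h1 h.1]
    have e2 : ∑ w : ι → α, ind (∀ i, i ∉ T → w i = x i) * q =
        q * (Fintype.card α : ℝ) ^ T.card := by
      rw [← ccnt_true T x, ccnt, Finset.mul_sum]
      refine Finset.sum_congr rfl fun z _ => ?_
      rw [mul_comm, ind_congr (iff_of_eq (and_true _))]
    rw [e1, e2] at h
    exact h
  · constructor
    · intro h i hi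
      rw [← hw i fun hS => hi (hST hS)]
      exact h i hi
    · intro h i hi
      rw [hw i fun hS => hi (hST hS)]
      exact h i hi

/-- counting all points -/
theorem ccnt_univ (E : (ι → α) → Prop) (x : ι → α) : ccnt univ E x = ∑ z, ind (E z) := by
  unfold ccnt
  exact Finset.sum_congr rfl fun z _ => ind_congr (by simp)

end BLO
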