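import Pool.Agent.Lib.BLP.Ops

/-!
# BLO: average stretch O(1) for all balanced halfspaces (MP_058dd4_co, Q2): components

See `PROOF.md` in this folder for the whole proof.
-/

namespace BLO

open Finset BLP

variable {ι : Type*} [Fintype ι] [DecidableEq ι]

/-- `Comp2 a A B I D T`: the linear form with weights `a` can be replaced by an odd function `S'`
for an involution `ρ`.  `A` average distortion of `ρ`, `B` transport cost (all thresholds), `I` total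
influence of the threshold functions of `S'`, `D` mean displacement, `T` mean displacement summed
over the edges that cross a threshold. -/
def Comp2 (a : ι → ℝ) (A B I D T : ℝ) : Prop :=
  ∃ (S' : (ι → Bool) → ℝ) (ρ : (ι → Bool) → (ι → Bool)),
    (∀ x, ρ (ρ x) = x) ∧ (∀ x, S' (ρ x) = -S' x) ∧
    (∑ x, ∑ i, (hammingDist (ρ x) (ρ (flp x i)) : ℝ)) ≤ A * 2 ^ Fintype.card ι ∧
    (∀ h : (ι → Bool) → ℝ, Lip 1 h → ∀ c : ℝ,
       |∑ x, h x * (ind (c < lin a x) - ind (c < S' x))| ≤ B * 2 ^ Fintype.card ι) ∧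
    (∀ θ : ℝ, (∑ x, ∑ i, |ind (θ < S' x) - ind (θ < S' (flp x i))|) ≤ I * 2 ^ Fintype.card ι) ∧
    (∑ x, (hammingDist x (ρ x) : ℝ)) ≤ D * 2 ^ Fintype.card ι ∧
    (∀ θ : ℝ, (∑ x, ∑ i, |ind (θ < S' x) - ind (θ < S' (flp x i))| * (hammingDist x (ρ x) : ℝ)) ≤
      T * 2 ^ Fintype.card ι)

/-- The statement of the main step: windows of comparable weights. -/
def WindowStmt : Prop :=
  ∃ (C : ℝ) (N0 : ℕ), 0 < C ∧ ∀ (N : ℕ) (a : Fin N → ℝ) (R : ℝ), N0 ≤ N → 1 ≤ R →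
    R ^ 256 ≤ N → (∀ i, R⁻¹ ≤ a i ∧ a i ≤ R) →
    (N : ℝ) / 2 ≤ ((univ.filter fun i => 1 ≤ a i).card : ℝ) →
    (N : ℝ) ^ (31 / 32 : ℝ) ≤ ((univ.filter fun i => 1 ≤ a i ∧ a i ≤ 2).card : ℝ) →
    Comp2 a (C * N) C (C * Real.sqrt N) (C * Real.sqrt N) (C * N)

end BLO
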