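import Mathlib

/-!
# Chunk RD: the dither

`t u = (number of u) / 2^d`; `∑_{i < U} ⌊y + i / U⌋ = ⌊U y⌋` (Hermite), so the sum differs from `U y` by at most `1`.
(Direct proof: with `f` the fractional part of `y`, `⌊y + i/U⌋ = ⌊y⌋ + 1{i ≥ U (1 - f)}`.)
-/

namespace BLO

open Finset

theorem rd_floor (y : ℝ) (hy : 0 ≤ y) (s : ℝ) (hs0 : 0 ≤ s) (hs1 : s < 1) :
    (⌊y + s⌋₊ : ℝ) = ⌊y⌋₊ + if 1 - (y - ⌊y⌋₊) ≤ s then 1 else 0 := by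
  have h1 : (⌊y⌋₊ : ℝ) ≤ y := Nat.floor_le hy
  have h2 : y < ⌊y⌋₊ + 1 := Nat.lt_floor_add_one y
  by_cases h : 1 - (y - ⌊y⌋₊) ≤ s
  · rw [if_pos h]
    have : ⌊y + s⌋₊ = ⌊y⌋₊ + 1 := by
      rw [Nat.floor_eq_iff (by positivity)]
      push_cast
      constructor <;> linarith
    rw [this]
    push_cast
    ring
  · rw [if_neg h]
    have : ⌊y + s⌋₊ = ⌊y⌋₊ := by
      rw [Nat.floor_eq_iff (by positivity)]
      constructor <;> linarith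
    rw [this]
    ring

theorem rd_sum (U : ℕ) (hU : 0 < U) (y : ℝ) (hy : 0 ≤ y) :
    |∑ i ∈ range U, ((⌊y + (i : ℝ) / U⌋₊ : ℝ) - y)| ≤ 1 := by
  have hUR : (0 : ℝ) < U := by exact_mod_cast hU
  have h1 : (⌊y⌋₊ : ℝ) ≤ y := Nat.floor_le hy
  have h2 : y < ⌊y⌋₊ + 1 := Nat.lt_floor_add_one y
  set f : ℝ := y - ⌊y⌋₊ with hf
  have hf0 : 0 ≤ f := by linarith
  have hf1 : f < 1 := by linarith
  have e1 : ∀ i ∈ range U, ((⌊y + (i : ℝ) / U⌋₊ : ℝ) - y) =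
      (if (U : ℝ) * (1 - f) ≤ i then 1 else 0) - f := by
    intro i hi
    have hi' : (i : ℝ) < U := by exact_mod_cast mem_range.1 hi
    rw [rd_floor y hy _ (by positivity) (by rw [div_lt_one hUR]; exact hi')]
    have h3 : (1 - (y - ⌊y⌋₊) ≤ (i : ℝ) / U) ↔ (U : ℝ) * (1 - f) ≤ i := by
      rw [le_div_iff₀ hUR, mul_comm]
    simp only [h3]
    rw [hf]
    ring
  rw [sum_congr rfl e1, sum_sub_distrib, sum_const, card_range, nsmul_eq_mul, sum_boole]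
  have hx0 : 0 ≤ (U : ℝ) * (1 - f) := by apply mul_nonneg hUR.le; linarith
  have e2 : (range U).filter (fun i : ℕ => (U : ℝ) * (1 - f) ≤ i) = Ico ⌈(U : ℝ) * (1 - f)⌉₊ U := by
    ext i
    rw [mem_filter, mem_range, mem_Ico, Nat.ceil_le]
    tauto
  rw [e2, Nat.card_Ico]
  have h4 : ⌈(U : ℝ) * (1 - f)⌉₊ ≤ U := by
    rw [Nat.ceil_le]
    nlinarith
  rw [Nat.cast_sub h4]
  have h5 : (U : ℝ) * (1 - f) ≤ ⌈(U : ℝ) * (1 - f)⌉₊ := Nat.le_ceil _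
  have h6 : (⌈(U : ℝ) * (1 - f)⌉₊ : ℝ) < (U : ℝ) * (1 - f) + 1 := Nat.ceil_lt_add_one hx0
  rw [abs_le]
  constructor <;> nlinarith

theorem exists_dither (d : ℕ) : ∃ t : (Fin d → Bool) → ℝ, (∀ u, 0 ≤ t u ∧ t u < 1) ∧
    ∀ y : ℝ, 0 ≤ y → |∑ u, ((⌊y + t u⌋₊ : ℝ) - y)| ≤ 1 := by
  have hcard : Fintype.card (Fin d → Bool) = 2 ^ d := by simp
  set e := Fintype.equivFinOfCardEq hcard with he
  have hU : 0 < 2 ^ d := by positivity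
  have hUR : (0 : ℝ) < ((2 ^ d : ℕ) : ℝ) := by exact_mod_cast hU
  refine ⟨fun u => ((e u : ℕ) : ℝ) / ((2 ^ d : ℕ) : ℝ), ?_, ?_⟩
  · intro u
    refine ⟨by positivity, ?_⟩
    rw [div_lt_one hUR]
    exact_mod_cast (e u).2
  · intro y hy
    have h1 := rd_sum (2 ^ d) hU y hy
    rw [← Fin.sum_univ_eq_sum_range (fun i : ℕ => ((⌊y + (i : ℝ) / ((2 ^ d : ℕ) : ℝ)⌋₊ : ℝ) - y)),
      ← Equiv.sum_comp e] at h1
    exact h1

end BLO
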