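import Pool.Agent.Lib.BLO.FamWord
import Pool.Agent.Lib.BLO.BlockN

/-!
# Chunk EF: existence of the family of block chains

For `g < K` choose an equivalence `e : Fin b ≃ {k // cls k = g}`, `b = #{cls = g}`, take the block chain of
`exists_blockN` for `exists_noise b (m g) s j` and transport: `y x = C.y (x ∘ e)`,
`dec x t` = `C.dec (x ∘ e) t` on block `g` and `x` elsewhere.
-/

namespace BLO

open Finset BLP

section transport

variable {P : Type} [Fintype P] [DecidableEq P] {b : ℕ} {T : Finset P}

/-- EF: restriction to the block `T` -/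
def efRes (e : Fin b ≃ {k // k ∈ T}) (x : PS P) : BS b := fun i => x (e i)

/-- EF: replacing the states of the block `T` -/
def efPut (e : Fin b ≃ {k // k ∈ T}) (x : PS P) (z : BS b) : PS P :=
  fun k => if h : k ∈ T then z (e.symm ⟨k, h⟩) else x k

omit [Fintype P] in
theorem efPut_mem (e : Fin b ≃ {k // k ∈ T}) (x : PS P) (z : BS b) {k : P} (h : k ∈ T) :
    efPut e x z k = z (e.symm ⟨k, h⟩) := by
  unfold efPut; rw [dif_pos h]

omit [Fintype P] in
theorem efPut_not_mem (e : Fin b ≃ {k // k ∈ T}) (x : PS P) (z : BS b) {k : P} (h : k ∉ T) :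
    efPut e x z k = x k := by
  unfold efPut; rw [dif_neg h]

omit [Fintype P] in
theorem efPut_e (e : Fin b ≃ {k // k ∈ T}) (x : PS P) (z : BS b) (i : Fin b) :
    efPut e x z (e i) = z i := by
  rw [efPut_mem e x z (e i).2]
  congr 1
  exact e.symm_apply_apply i

omit [Fintype P] in
theorem efRes_put (e : Fin b ≃ {k // k ∈ T}) (x : PS P) (z : BS b) :
    efRes e (efPut e x z) = z := by
  funext i
  exact efPut_e e x z i

omit [Fintype P] in
theorem efPut_put (e : Fin b ≃ {k // k ∈ T}) (x : PS P) (z w : BS b) :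
    efPut e (efPut e x z) w = efPut e x w := by
  funext k
  by_cases h : k ∈ T
  · rw [efPut_mem e _ _ h, efPut_mem e _ _ h]
  · rw [efPut_not_mem e _ _ h, efPut_not_mem e _ _ h, efPut_not_mem e _ _ h]

omit [Fintype P] in
theorem efPut_res (e : Fin b ≃ {k // k ∈ T}) (x : PS P) : efPut e x (efRes e x) = x := by
  funext k
  by_cases h : k ∈ T
  · rw [efPut_mem e _ _ h]
    unfold efRes
    rw [e.apply_symm_apply]
  · rw [efPut_not_mem e _ _ h]

omit [Fintype P] [DecidableEq P] in
theorem efRes_symm (e : Fin b ≃ {k // k ∈ T}) (x : PS P) {k : P} (h : k ∈ T) :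
    efRes e x (e.symm ⟨k, h⟩) = x k := by
  unfold efRes
  rw [e.apply_symm_apply]

/-- EF: transported chain -/
def efC (e : Fin b ≃ {k // k ∈ T}) (C : Chain (BS b)) : Chain (PS P) where
  y x := C.y (efRes e x)
  l x := C.l (efRes e x)
  dec x t := efPut e x (C.dec (efRes e x) t)
  y_le x := C.y_le _
  y_dec x t := by rw [efRes_put, C.y_dec]
  l_dec x t := by rw [efRes_put, C.l_dec]
  dec_dec x t t' := by rw [efRes_put, efPut_put, C.dec_dec]
  dec_y x := by rw [C.dec_y, efPut_res]

/-- EF: trivial chain -/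
def efTriv : Chain (BS b) where
  y _ := 0
  l _ := 0
  dec x _ := x
  y_le _ := le_rfl
  y_dec x t := by simp
  l_dec x t := rfl
  dec_dec x t t' := rfl
  dec_y x := rfl

/-- EF: number of changed letters -/
theorem ef_card (e : Fin b ≃ {k // k ∈ T}) (p : P → Prop) (q : Fin b → Prop)
    [DecidablePred p] [DecidablePred q] (h : ∀ k, p k → ∃ hk : k ∈ T, q (e.symm ⟨k, hk⟩)) :
    (univ.filter p).card ≤ (univ.filter q).card := by
  classical
  have h1 : (univ.filter p) ⊆ (univ.filter q).image (fun i => (e i : P)) := by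
    intro k hk
    rw [mem_filter] at hk
    obtain ⟨hkT, hq⟩ := h k hk.2
    rw [mem_image]
    refine ⟨e.symm ⟨k, hkT⟩, ?_, ?_⟩
    · rw [mem_filter]
      exact ⟨mem_univ _, hq⟩
    · rw [e.apply_symm_apply]
  exact (card_le_card h1).trans card_image_le

omit [Fintype P] [DecidableEq P] in
theorem ef_vsum (e : Fin b ≃ {k // k ∈ T}) (x : PS P) :
    vsum (efRes e x) = ∑ k ∈ T, val (x k) := by
  rw [← Finset.sum_coe_sort, ← Equiv.sum_comp e]
  rfl

theorem ef_ccnt (e : Fin b ≃ {k // k ∈ T}) (frz : BS b → Prop) (x : PS P) :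
    ccnt T (fun z => frz (efRes e z)) x = ∑ z : BS b, ind (frz z) := by
  rw [lof_ccnt, ← Equiv.sum_comp (Equiv.arrowCongr e.symm (Equiv.refl (Bool × Bool)))]
  refine Finset.sum_congr rfl fun y _ => ?_
  congr 1
  apply propext
  have : efRes e (lofExt T x y) = (Equiv.arrowCongr e.symm (Equiv.refl (Bool × Bool))) y := by
    funext i
    unfold efRes
    rw [lofExt_mem]
    simp
  rw [this]

end transport

/-- EF: data of one block -/
structure EfData (b : ℕ) where
  frz : BS b → Prop
  nu : BS b → ℕ
  st : ℕ → BS b → BS b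
  C : Chain (BS b)

/-- EF: the family of block chains of given data -/
noncomputable def efFam {P : Type} [Fintype P] [DecidableEq P] (K : ℕ) (cls : P → ℕ) (m : ℕ → ℕ)
    (D : (g : ℕ) → EfData (univ.filter fun k => cls k = g).card) : Fam P where
  K := K
  cls := cls
  m := m
  C g := efC (univ.filter fun k => cls k = g).equivFin.symm (D g).C
  frz g x := (D g).frz (efRes (univ.filter fun k => cls k = g).equivFin.symm x)
  nu g x := (D g).nu (efRes (univ.filter fun k => cls k = g).equivFin.symm x)
  setn g t x := efPut (univ.filter fun k => cls k = g).equivFin.symm x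
    ((D g).st t (efRes (univ.filter fun k => cls k = g).equivFin.symm x))

theorem ef_blk {P : Type} [Fintype P] [DecidableEq P] (K : ℕ) (cls : P → ℕ) (m : ℕ → ℕ)
    (D : (g : ℕ) → EfData (univ.filter fun k => cls k = g).card) (jj : ℕ) (ε : ℝ) (g : ℕ)
    (hm : 0 < m g)
    (hN : NoiseSys (univ.filter fun k => cls k = g).card (m g) jj (D g).frz (D g).nu (D g).st)
    (hB : BlockSpecN (univ.filter fun k => cls k = g).card (m g) jj (D g).frz (D g).nu (D g).C)
    (hf : ∑ x, ind ((D g).frz x) ≤ ε * 4 ^ (univ.filter fun k => cls k = g).card) :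
    Fam.BlkOK (efFam K cls m D) jj ε g := by
  have hT : ∀ k, k ∈ (univ.filter fun k => cls k = g) ↔ cls k = g := by
    intro k; rw [mem_filter]; exact ⟨fun h => h.2, fun h => ⟨mem_univ _, h⟩⟩
  set T : Finset P := univ.filter fun k => cls k = g with hTdef
  set e := T.equivFin.symm with he
  have hres : ∀ x x' : PS P, (∀ k, cls k = g → x k = x' k) → efRes e x = efRes e x' := by
    intro x x' h
    funext i
    exact h _ ((hT _).1 (e i).2)
  have hres0 : ∀ (x x' : PS P) (k0 : P) (hk0 : k0 ∈ T), (∀ k ≠ k0, x' k = x k) →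
      ∀ i ≠ e.symm ⟨k0, hk0⟩, efRes e x' i = efRes e x i := by
    intro x x' k0 hk0 h i hi
    apply h
    intro h'
    apply hi
    rw [Equiv.eq_symm_apply]
    exact Subtype.ext h'
  exact {
    m_pos := hm
    dec_off := by
      intro x t k hk
      exact efPut_not_mem e x _ (fun h => hk ((hT k).1 h))
    loc := by
      intro x x' h
      have h1 := hres x x' h
      refine ⟨congrArg (D g).C.y h1, congrArg (D g).C.l h1, iff_of_eq (congrArg (D g).frz h1),
        congrArg (D g).nu h1, ?_⟩
      intro t k hk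
      have hk' : k ∈ T := (hT k).2 hk
      show efPut e x ((D g).C.dec (efRes e x) t) k = efPut e x' ((D g).C.dec (efRes e x') t) k
      rw [efPut_mem e _ _ hk', efPut_mem e _ _ hk', h1]
    frz_dec := by
      intro x t
      show (D g).frz (efRes e (efPut e x ((D g).C.dec (efRes e x) t))) ↔ (D g).frz (efRes e x)
      rw [efRes_put]
      exact hB.frozen_dec _ _
    type_dec := by
      intro x t k
      show (efPut e x ((D g).C.dec (efRes e x) t) k).1 = (x k).1
      by_cases hk : k ∈ T
      · rw [efPut_mem e _ _ hk, hB.type_dec, efRes_symm]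
      · rw [efPut_not_mem e _ _ hk]
    val_frz := by
      intro x hx
      exact hB.val_frozen _ hx
    val := by
      intro x hx
      have := hB.val _ hx
      rw [ef_vsum] at this
      exact this
    nu_lt := by
      intro x hx
      exact hN.lt _ hx
    pert := by
      intro x x' k0 hk0 h hx hx'
      have hk0' : k0 ∈ T := (hT k0).2 hk0
      exact hB.pert (efRes e x) (efRes e x') (e.symm ⟨k0, hk0'⟩) (hres0 x x' k0 hk0' h) hx hx'
    lip := by
      intro x x' k0 t t' hk0 h hx hx' ht ht'
      have hk0' : k0 ∈ T := (hT k0).2 hk0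
      have h1 := hB.lip (efRes e x) (efRes e x') (e.symm ⟨k0, hk0'⟩) t t'
        (hres0 x x' k0 hk0' h) hx hx' ht ht'
      refine le_trans ?_ h1
      apply mul_le_mul_of_nonneg_left _ (by positivity)
      have h2 : (univ.filter fun k => cls k = g ∧
          efPut e x' ((D g).C.dec (efRes e x') t') k ≠
            efPut e x ((D g).C.dec (efRes e x) t) k).card ≤
          (univ.filter fun k => (D g).C.dec (efRes e x') t' k ≠
            (D g).C.dec (efRes e x) t k).card := by
        apply ef_card e
        intro k hk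
        have hk' : k ∈ T := (hT k).2 hk.1
        refine ⟨hk', ?_⟩
        have := hk.2
        rw [efPut_mem e _ _ hk', efPut_mem e _ _ hk'] at this
        exact this
      exact_mod_cast h2
    neutral := by
      intro x x' h1 h2
      have := hN.congr (efRes e x) (efRes e x') (fun i => h1 _ ((hT _).1 (e i).2))
        (fun i hi => h2 _ ((hT _).1 (e i).2) hi)
      exact ⟨this.1, this.2.1⟩
    setn_spec := by
      intro t ht x hx
      obtain ⟨h1, h2, h3, h4, h5, h6, h7⟩ := hN.spec t ht (efRes e x) hx
      refine ⟨?_, ?_, ?_, ?_, ?_, ?_, ?_, ?_⟩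
      · show ¬ (D g).frz (efRes e (efPut e x _))
        rw [efRes_put]; exact h1
      · show (D g).nu (efRes e (efPut e x _)) = t
        rw [efRes_put]; exact h2
      · intro k hk
        exact efPut_not_mem e x _ (fun h => hk ((hT k).1 h))
      · intro k
        show (efPut e x _ k).1 = _
        by_cases hk : k ∈ T
        · rw [efPut_mem e _ _ hk, h5, efRes_symm]
        · rw [efPut_not_mem e _ _ hk]
      · intro k hk1
        show efPut e x _ k = _
        by_cases hk : k ∈ T
        · rw [efPut_mem e _ _ hk, h6 _ (by rw [efRes_symm]; exact hk1), efRes_symm]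
        · rw [efPut_not_mem e _ _ hk]
      · refine le_trans ?_ h7
        unfold Fam.pd
        apply ef_card e
        intro k hk
        have hk' : k ∈ T := by
          by_contra hc
          exact hk (efPut_not_mem e x _ hc)
        refine ⟨hk', ?_⟩
        have hk2 : efPut e x ((D g).st t (efRes e x)) k ≠ x k := hk
        rw [efPut_mem e _ _ hk'] at hk2
        rw [efRes_symm]
        exact hk2
      · intro t' ht'
        show efPut e (efPut e x _) ((D g).st t' (efRes e (efPut e x _))) =
          efPut e x ((D g).st t' (efRes e x))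
        rw [efRes_put, efPut_put, h3 t' ht']
      · show efPut e x ((D g).st ((D g).nu (efRes e x)) (efRes e x)) = x
        rw [h4, efPut_res]
    froz := by
      intro x
      show ccnt T (fun z => (D g).frz (efRes e z)) x ≤ ε * 4 ^ T.card
      rw [ef_ccnt]
      exact hf }

theorem exists_fam {P : Type} [Fintype P] [DecidableEq P] (K : ℕ) (cls : P → ℕ) (m : ℕ → ℕ)
    (s j : ℕ) (ε : ℝ) (hε : 0 ≤ ε) (hm : ∀ g < K, 0 < m g)
    (hr : ∀ g < K, 8 * (j * (2 ^ s - 1)) ≤ (univ.filter fun k => cls k = g).card)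
    (hεg : ∀ g < K, Real.exp (-((univ.filter fun k => cls k = g).card / 16 : ℝ)) +
      m g / 2 ^ (s * j) ≤ ε) :
    ∃ F : Fam P, F.K = K ∧ F.cls = cls ∧ F.m = m ∧ F.OK (2 * j) ε := by
  have key : ∀ g, ∃ D : EfData (univ.filter fun k => cls k = g).card, g < K →
      NoiseSys (univ.filter fun k => cls k = g).card (m g) (2 * j) D.frz D.nu D.st ∧
      BlockSpecN (univ.filter fun k => cls k = g).card (m g) (2 * j) D.frz D.nu D.C ∧
      ∑ x, ind (D.frz x) ≤ ε * 4 ^ (univ.filter fun k => cls k = g).card := by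
    intro g
    by_cases hg : g < K
    · obtain ⟨frz, nu, st, h1, h2⟩ := exists_noise (univ.filter fun k => cls k = g).card (m g) s j
        (hm g hg) (hr g hg)
      obtain ⟨C, hC⟩ := exists_blockN _ (m g) (2 * j) (hm g hg) frz nu st h1
      refine ⟨⟨frz, nu, st, C⟩, fun _ => ⟨h1, hC, ?_⟩⟩
      refine h2.trans ?_
      rw [mul_comm]
      exact mul_le_mul_of_nonneg_right (hεg g hg) (by positivity)
    · exact ⟨⟨fun _ => True, fun _ => 0, fun _ x => x, efTriv⟩, fun h => absurd h hg⟩
  choose D hD using key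
  refine ⟨efFam K cls m D, rfl, rfl, rfl, ⟨hε, ?_⟩⟩
  intro g hg
  obtain ⟨h1, h2, h3⟩ := hD g hg
  exact ef_blk K cls m D (2 * j) ε g (hm g hg) h1 h2 h3

end BLO
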