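import Pool.Agent.Lib.BLO.Zig

/-!
# Chunk ZG2: the zigzag order
-/

set_option linter.unusedSectionVars false

namespace BLO

open Finset

theorem zg_zig_lt {c : ℕ} (hc : 0 < c) (g : ℕ) : zig c g < c := by
  have h := Nat.mod_lt g hc
  unfold zig
  split_ifs <;> omega

theorem zg_zig_part {c : ℕ} (hc : 0 < c) (p i : ℕ) (hi : i < c) :
    zig c (c * p + i) = if p % 2 = 0 then i else c - 1 - i := by
  unfold zig
  rw [Nat.mul_add_div hc, Nat.mul_add_mod, Nat.div_eq_of_lt hi, Nat.mod_eq_of_lt hi, Nat.add_zero]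

theorem zg_part_even {c : ℕ} (hc : 0 < c) (p : ℕ) (hp : p % 2 = 0) (F : ℕ → ℝ) (a b : ℕ)
    (hb : b ≤ c) :
    ∑ j ∈ Ico (c * p + a) (c * p + b), F (zig c j) = ∑ r ∈ Ico a b, F r := by
  rw [add_comm (c * p) a, add_comm (c * p) b, ← Finset.sum_Ico_add]
  refine Finset.sum_congr rfl fun r hr => ?_
  have := Finset.mem_Ico.1 hr
  rw [zg_zig_part hc p r (by omega), if_pos hp]

theorem zg_part_odd {c : ℕ} (hc : 0 < c) (p : ℕ) (hp : p % 2 = 1) (F : ℕ → ℝ) (a b : ℕ)
    (hb : b ≤ c) :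
    ∑ j ∈ Ico (c * p + a) (c * p + b), F (zig c j) = ∑ r ∈ Ico (c - b) (c - a), F r := by
  rw [add_comm (c * p) a, add_comm (c * p) b, ← Finset.sum_Ico_add]
  have h := Finset.sum_Ico_reflect F a (n := c - 1) (m := b) (by omega)
  rw [show c - 1 + 1 = c by omega] at h
  rw [← h]
  refine Finset.sum_congr rfl fun r hr => ?_
  have := Finset.mem_Ico.1 hr
  rw [zg_zig_part hc p r (by omega), if_neg (by omega)]

theorem zg_part {c : ℕ} (hc : 0 < c) (p : ℕ) (F : ℕ → ℝ) :
    ∑ j ∈ Ico (c * p) (c * p + c), F (zig c j) = ∑ r ∈ range c, F r := by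
  rw [Finset.range_eq_Ico]
  rcases Nat.mod_two_eq_zero_or_one p with h | h
  · have := zg_part_even hc p h F 0 c le_rfl
    rwa [add_zero] at this
  · have := zg_part_odd hc p h F 0 c le_rfl
    rwa [add_zero, Nat.sub_self, Nat.sub_zero] at this

theorem zg_total {c : ℕ} (hc : 0 < c) (F : ℕ → ℝ) :
    ∑ g ∈ range (4 * c), F (zig c g) = 4 * ∑ r ∈ range c, F r := by
  have h0 := zg_part hc 0 F
  have h1 := zg_part hc 1 F
  have h2 := zg_part hc 2 F
  have h3 := zg_part hc 3 F
  rw [show c * 0 = 0 by ring, show 0 + c = c by ring] at h0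
  rw [show c * 1 = c by ring, show c + c = 2 * c by ring] at h1
  rw [show c * 2 = 2 * c by ring, show 2 * c + c = 3 * c by ring] at h2
  rw [show c * 3 = 3 * c by ring, show 3 * c + c = 4 * c by ring] at h3
  rw [Finset.range_eq_Ico, ← Finset.sum_Ico_consecutive _ (show 0 ≤ 3 * c by omega)
    (show 3 * c ≤ 4 * c by omega), ← Finset.sum_Ico_consecutive _ (show 0 ≤ 2 * c by omega)
    (show 2 * c ≤ 3 * c by omega), ← Finset.sum_Ico_consecutive _ (show 0 ≤ c by omega)
    (show c ≤ 2 * c by omega), h0, h1, h2, h3]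
  ring

section

variable {c : ℕ} (hc : 0 < c) {μ : ℕ → ℝ} {ν : ℕ → ℕ} (hμ : ∀ r < c, 0 < μ r)
  (hν : ∀ r < c, 0 < ν r) (hd : ∀ r r', r < r' → r' < c → μ r' < μ r)

include hc hμ hν

theorem zg_m_pos (g : ℕ) : 0 < μ (zig c g) := hμ _ (zg_zig_lt hc g)

theorem zg_n_pos (g : ℕ) : (0 : ℝ) < (ν (zig c g) : ℝ) := by
  exact_mod_cast hν _ (zg_zig_lt hc g)

theorem zg_VV_mono {a b a' b' : ℕ} (ha : a' ≤ a) (hb : b ≤ b') :
    VV (fun g => μ (zig c g)) (fun g => (ν (zig c g) : ℝ)) a b ≤
      VV (fun g => μ (zig c g)) (fun g => (ν (zig c g) : ℝ)) a' b' := by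
  unfold VV
  refine Finset.sum_le_sum_of_subset_of_nonneg (Finset.Ico_subset_Ico ha hb) fun g _ _ => ?_
  exact mul_nonneg (sq_nonneg _) (Nat.cast_nonneg _)

theorem zg_VV_mono' {a b a' b' : ℕ} (ha : a' ≤ a) (hb : b ≤ b') :
    VV μ (fun r => (ν r : ℝ)) a b ≤ VV μ (fun r => (ν r : ℝ)) a' b' := by
  unfold VV
  refine Finset.sum_le_sum_of_subset_of_nonneg (Finset.Ico_subset_Ico ha hb) fun g _ _ => ?_
  exact mul_nonneg (sq_nonneg _) (Nat.cast_nonneg _)

theorem zg_VV_even (p : ℕ) (hp : p % 2 = 0) (a b : ℕ) (hb : b ≤ c) :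
    VV (fun g => μ (zig c g)) (fun g => (ν (zig c g) : ℝ)) (c * p + a) (c * p + b) =
      VV μ (fun r => (ν r : ℝ)) a b :=
  zg_part_even hc p hp (fun r => μ r ^ 2 * (ν r : ℝ)) a b hb

theorem zg_VV_odd (p : ℕ) (hp : p % 2 = 1) (a b : ℕ) (hb : b ≤ c) :
    VV (fun g => μ (zig c g)) (fun g => (ν (zig c g) : ℝ)) (c * p + a) (c * p + b) =
      VV μ (fun r => (ν r : ℝ)) (c - b) (c - a) :=
  zg_part_odd hc p hp (fun r => μ r ^ 2 * (ν r : ℝ)) a b hb

theorem zg_VV_full (p : ℕ) :
    VV (fun g => μ (zig c g)) (fun g => (ν (zig c g) : ℝ)) (c * p) (c * p + c) =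
      VV μ (fun r => (ν r : ℝ)) 0 c := by
  have := zg_part hc p (fun r => μ r ^ 2 * (ν r : ℝ))
  rw [Finset.range_eq_Ico] at this
  exact this

/-- local past -/
theorem zg_past (g b0 : ℕ) (hb0 : b0 ≤ c * (2 * (g / c / 2))) :
    VV μ (fun r => (ν r : ℝ)) 0 (zig c g + 1) ≤
      VV (fun g => μ (zig c g)) (fun g => (ν (zig c g) : ℝ)) b0 (g + 1) := by
  obtain ⟨p, j, hj, rfl⟩ : ∃ p j, j < c ∧ g = c * p + j :=
    ⟨g / c, g % c, Nat.mod_lt _ hc, (Nat.div_add_mod g c).symm⟩
  have hdiv : (c * p + j) / c = p := by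
    rw [Nat.mul_add_div hc, Nat.div_eq_of_lt hj, Nat.add_zero]
  rw [hdiv] at hb0
  rcases Nat.mod_two_eq_zero_or_one p with h | h
  · rw [zg_zig_part hc p j hj, if_pos h]
    have e := zg_VV_even hc hμ hν p h 0 (j + 1) (by omega)
    rw [← e]
    refine zg_VV_mono hc hμ hν ?_ (by omega)
    rw [show 2 * (p / 2) = p by omega] at hb0
    omega
  · obtain ⟨q, rfl⟩ : ∃ q, p = q + 1 := ⟨p - 1, by omega⟩
    refine le_trans (zg_VV_mono' hc hμ hν le_rfl (zg_zig_lt hc _)) ?_
    have e := zg_VV_full hc hμ hν q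
    rw [← e]
    rw [show 2 * ((q + 1) / 2) = q by omega] at hb0
    refine zg_VV_mono hc hμ hν hb0 ?_
    rw [Nat.mul_add]
    omega

/-- local future -/
theorem zg_future (g b0 : ℕ) (hb0 : c * (2 * (g / c / 2) + 2) ≤ b0) :
    VV μ (fun r => (ν r : ℝ)) 0 (zig c g + 1) ≤
      VV (fun g => μ (zig c g)) (fun g => (ν (zig c g) : ℝ)) g b0 := by
  obtain ⟨p, j, hj, rfl⟩ : ∃ p j, j < c ∧ g = c * p + j :=
    ⟨g / c, g % c, Nat.mod_lt _ hc, (Nat.div_add_mod g c).symm⟩
  have hdiv : (c * p + j) / c = p := by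
    rw [Nat.mul_add_div hc, Nat.div_eq_of_lt hj, Nat.add_zero]
  rw [hdiv] at hb0
  rcases Nat.mod_two_eq_zero_or_one p with h | h
  · rw [show 2 * (p / 2) + 2 = (p + 1) + 1 by omega, Nat.mul_add, Nat.mul_one] at hb0
    refine le_trans (zg_VV_mono' hc hμ hν le_rfl (zg_zig_lt hc _)) ?_
    have e := zg_VV_full hc hμ hν (p + 1)
    rw [← e]
    refine zg_VV_mono hc hμ hν ?_ hb0
    rw [Nat.mul_add]
    omega
  · rw [show 2 * (p / 2) + 2 = p + 1 by omega, Nat.mul_add, Nat.mul_one] at hb0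
    rw [zg_zig_part hc p j hj, if_neg (by omega)]
    have e := zg_VV_odd hc hμ hν p h j c le_rfl
    rw [show c - 1 - j + 1 = c - j by omega]
    rw [Nat.sub_self] at e
    rw [← e]
    exact zg_VV_mono hc hμ hν le_rfl hb0

/-- between `q` and a later lighter block -/
theorem zg_between (q g : ℕ) (hqg : q < g) (hs : zig c q < zig c g) :
    VV μ (fun r => (ν r : ℝ)) (zig c q + 1) (zig c g + 1) ≤
      VV (fun g => μ (zig c g)) (fun g => (ν (zig c g) : ℝ)) (q + 1) (g + 1) := by
  obtain ⟨p, i, hi, rfl⟩ : ∃ p j, j < c ∧ q = c * p + j :=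
    ⟨q / c, q % c, Nat.mod_lt _ hc, (Nat.div_add_mod q c).symm⟩
  obtain ⟨p', j, hj, rfl⟩ : ∃ p j, j < c ∧ g = c * p + j :=
    ⟨g / c, g % c, Nat.mod_lt _ hc, (Nat.div_add_mod g c).symm⟩
  have hlt := zg_zig_lt hc (c * p' + j)
  have hpp : p ≤ p' := by
    by_contra hh
    have : p' + 1 ≤ p := by omega
    have := Nat.mul_le_mul_left c this
    rw [Nat.mul_add, Nat.mul_one] at this
    omega
  rcases Nat.mod_two_eq_zero_or_one p with h | h
  · have ei : zig c (c * p + i) = i := by rw [zg_zig_part hc p i hi, if_pos h]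
    rcases Nat.eq_or_lt_of_le hpp with e | hlt'
    · subst e
      have ej : zig c (c * p + j) = j := by rw [zg_zig_part hc p j hj, if_pos h]
      rw [ei, ej]
      have e := zg_VV_even hc hμ hν p h (i + 1) (j + 1) (by omega)
      rw [← e]
      exact zg_VV_mono hc hμ hν (by omega) (by omega)
    · rw [ei]
      have e := zg_VV_even hc hμ hν p h (i + 1) c le_rfl
      refine le_trans (zg_VV_mono' hc hμ hν le_rfl hlt) ?_
      rw [← e]
      refine zg_VV_mono hc hμ hν (by omega) ?_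
      have := Nat.mul_le_mul_left c (show p + 1 ≤ p' by omega)
      rw [Nat.mul_add, Nat.mul_one] at this
      omega
  · have ei : zig c (c * p + i) = c - 1 - i := by rw [zg_zig_part hc p i hi, if_neg (by omega)]
    have hlt' : p < p' := by
      rcases Nat.eq_or_lt_of_le hpp with e | hlt'
      · exfalso
        subst e
        have ej : zig c (c * p + j) = c - 1 - j := by
          rw [zg_zig_part hc p j hj, if_neg (by omega)]
        rw [ei, ej] at hs
        omega
      · exact hlt'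
    have hm1 := Nat.mul_le_mul_left c (show p + 1 ≤ p' by omega)
    rw [Nat.mul_add, Nat.mul_one] at hm1
    refine le_trans (zg_VV_mono' hc hμ hν (Nat.zero_le _) le_rfl) ?_
    rcases Nat.mod_two_eq_zero_or_one p' with h' | h'
    · have ej : zig c (c * p' + j) = j := by rw [zg_zig_part hc p' j hj, if_pos h']
      rw [ej]
      have e := zg_VV_even hc hμ hν p' h' 0 (j + 1) (by omega)
      rw [← e]
      exact zg_VV_mono hc hμ hν (by omega) (by omega)
    · refine le_trans (zg_VV_mono' hc hμ hν le_rfl hlt) ?_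
      have e := zg_VV_full hc hμ hν (p + 1)
      rw [← e]
      have hm2 := Nat.mul_le_mul_left c (show p + 1 + 1 ≤ p' by omega)
      rw [Nat.mul_add, Nat.mul_one] at hm2
      refine zg_VV_mono hc hμ hν ?_ (by omega)
      rw [Nat.mul_add, Nat.mul_one]
      omega

/-- between an earlier lighter block and `q` -/
theorem zg_between' (q g : ℕ) (hqg : g < q) (hs : zig c q < zig c g) :
    VV μ (fun r => (ν r : ℝ)) (zig c q + 1) (zig c g + 1) ≤
      VV (fun g => μ (zig c g)) (fun g => (ν (zig c g) : ℝ)) g q := by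
  obtain ⟨p', i, hi, rfl⟩ : ∃ p j, j < c ∧ q = c * p + j :=
    ⟨q / c, q % c, Nat.mod_lt _ hc, (Nat.div_add_mod q c).symm⟩
  obtain ⟨p, j, hj, rfl⟩ : ∃ p j, j < c ∧ g = c * p + j :=
    ⟨g / c, g % c, Nat.mod_lt _ hc, (Nat.div_add_mod g c).symm⟩
  have hlt := zg_zig_lt hc (c * p + j)
  have hpp : p ≤ p' := by
    by_contra hh
    have : p' + 1 ≤ p := by omega
    have := Nat.mul_le_mul_left c this
    rw [Nat.mul_add, Nat.mul_one] at this
    omega
  rcases Nat.mod_two_eq_zero_or_one p' with h | h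
  · have ei : zig c (c * p' + i) = i := by rw [zg_zig_part hc p' i hi, if_pos h]
    have hlt' : p < p' := by
      rcases Nat.eq_or_lt_of_le hpp with e | hlt'
      · exfalso
        subst e
        have ej : zig c (c * p + j) = j := by
          rw [zg_zig_part hc p j hj, if_pos h]
        rw [ei, ej] at hs
        omega
      · exact hlt'
    have hm1 := Nat.mul_le_mul_left c (show p + 1 ≤ p' by omega)
    rw [Nat.mul_add, Nat.mul_one] at hm1
    refine le_trans (zg_VV_mono' hc hμ hν (Nat.zero_le _) le_rfl) ?_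
    rcases Nat.mod_two_eq_zero_or_one p with h' | h'
    · refine le_trans (zg_VV_mono' hc hμ hν le_rfl hlt) ?_
      have e := zg_VV_full hc hμ hν (p + 1)
      rw [← e]
      have hm2 := Nat.mul_le_mul_left c (show p + 1 + 1 ≤ p' by omega)
      rw [Nat.mul_add, Nat.mul_one] at hm2
      refine zg_VV_mono hc hμ hν ?_ (by omega)
      rw [Nat.mul_add, Nat.mul_one]
      omega
    · have ej : zig c (c * p + j) = c - 1 - j := by
        rw [zg_zig_part hc p j hj, if_neg (by omega)]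
      rw [ej]
      have e := zg_VV_odd hc hμ hν p h' j c le_rfl
      rw [Nat.sub_self] at e
      rw [show c - 1 - j + 1 = c - j by omega, ← e]
      exact zg_VV_mono hc hμ hν le_rfl (by omega)
  · have ei : zig c (c * p' + i) = c - 1 - i := by
      rw [zg_zig_part hc p' i hi, if_neg (by omega)]
    rcases Nat.eq_or_lt_of_le hpp with e | hlt'
    · subst e
      have ej : zig c (c * p + j) = c - 1 - j := by
        rw [zg_zig_part hc p j hj, if_neg (by omega)]
      rw [ei, ej]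
      have e := zg_VV_odd hc hμ hν p h j i (by omega)
      rw [show c - 1 - i + 1 = c - i by omega, show c - 1 - j + 1 = c - j by omega, ← e]
    · rw [ei]
      have e := zg_VV_odd hc hμ hν p' h 0 i (by omega)
      rw [Nat.sub_zero] at e
      refine le_trans (zg_VV_mono' hc hμ hν le_rfl hlt) ?_
      rw [show c - 1 - i + 1 = c - i by omega, ← e]
      refine zg_VV_mono hc hμ hν ?_ (by omega)
      have := Nat.mul_le_mul_left c (show p + 1 ≤ p' by omega)
      rw [Nat.mul_add, Nat.mul_one] at this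
      omega

theorem zg_VV_pos' (a b : ℕ) (hab : a < b) (hb : b ≤ c) :
    0 < VV μ (fun r => (ν r : ℝ)) a b := by
  unfold VV
  refine Finset.sum_pos (fun g hg => ?_) ⟨a, Finset.mem_Ico.2 ⟨le_rfl, hab⟩⟩
  have := Finset.mem_Ico.1 hg
  have h1 := hμ g (by omega)
  have h2 : (0 : ℝ) < (ν g : ℝ) := by exact_mod_cast hν g (by omega)
  positivity

theorem zg_NN : NN (fun g => (ν (zig c g) : ℝ)) (4 * c) = 4 * ∑ r ∈ range c, (ν r : ℝ) :=
  zg_total hc (fun r => (ν r : ℝ))

theorem zg_sqrt_NN : Real.sqrt (NN (fun g => (ν (zig c g) : ℝ)) (4 * c)) =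
    2 * Real.sqrt (∑ r ∈ range c, (ν r : ℝ)) := by
  rw [zg_NN hc hμ hν, Real.sqrt_mul (by norm_num), show (4 : ℝ) = 2 ^ 2 by norm_num,
    Real.sqrt_sq (by norm_num)]

include hd in
/-- the general sum -/
theorem zg_sum (s : ℕ) (S : Finset ℕ) (hS : S ⊆ range (4 * c)) (hS' : ∀ g ∈ S, s ≤ zig c g)
    (D : ℕ → ℝ) (hD : ∀ g ∈ S, VV μ (fun r => (ν r : ℝ)) s (zig c g + 1) ≤ D g) :
    ∑ g ∈ S, (ν (zig c g) : ℝ) * μ (zig c g) / Real.sqrt (D g) ≤
      4 * Real.sqrt (NN (fun g => (ν (zig c g) : ℝ)) (4 * c)) := by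
  have hl := hl_sum μ (fun r => (ν r : ℝ)) s c (fun g _ h2 => hμ g h2)
    (fun g _ h2 => ⟨ν g, hν g h2, rfl⟩) (fun g g' _ h2 h3 => by
      rcases Nat.eq_or_lt_of_le h2 with e | h
      · rw [e]
      · exact (hd g g' h h3).le)
  set F : ℕ → ℝ := fun r => if s ≤ r then (ν r : ℝ) * μ r /
    Real.sqrt (VV μ (fun r => (ν r : ℝ)) s (r + 1)) else 0 with hF
  have hF0 : ∀ r < c, 0 ≤ F r := by
    intro r hr
    simp only [hF]
    split_ifs
    · have := hμ r hr
      positivity
    · exact le_rfl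
  have hSs : ∑ g ∈ S, (ν (zig c g) : ℝ) * μ (zig c g) / Real.sqrt (D g) ≤
      ∑ g ∈ S, F (zig c g) := by
    refine Finset.sum_le_sum fun g hg => ?_
    have h1 := hS' g hg
    simp only [hF, if_pos h1]
    have h2 := zg_VV_pos' hc hμ hν s (zig c g + 1) (by omega) (zg_zig_lt hc g)
    have h3 := zg_m_pos hc hμ hν g
    refine div_le_div_of_nonneg_left (by positivity) (Real.sqrt_pos.2 h2)
      (Real.sqrt_le_sqrt (hD g hg))
  have hFs : ∑ r ∈ range c, F r ≤ 2 * Real.sqrt (∑ r ∈ range c, (ν r : ℝ)) := by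
    have e1 : ∑ r ∈ range c, F r = ∑ r ∈ Ico s c, (ν r : ℝ) * μ r /
        Real.sqrt (VV μ (fun r => (ν r : ℝ)) s (r + 1)) := by
      simp only [hF]
      rw [← Finset.sum_filter]
      refine Finset.sum_congr ?_ fun _ _ => rfl
      ext r
      simp only [Finset.mem_filter, Finset.mem_range, Finset.mem_Ico]
      omega
    rw [e1]
    refine le_trans hl (mul_le_mul_of_nonneg_left (Real.sqrt_le_sqrt ?_) (by norm_num))
    refine Finset.sum_le_sum_of_subset_of_nonneg ?_ fun _ _ _ => Nat.cast_nonneg _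
    intro r hr
    have := Finset.mem_Ico.1 hr
    exact Finset.mem_range.2 this.2
  calc ∑ g ∈ S, (ν (zig c g) : ℝ) * μ (zig c g) / Real.sqrt (D g)
      ≤ ∑ g ∈ S, F (zig c g) := hSs
    _ ≤ ∑ g ∈ range (4 * c), F (zig c g) :=
        Finset.sum_le_sum_of_subset_of_nonneg hS fun g _ _ => hF0 _ (zg_zig_lt hc g)
    _ = 4 * ∑ r ∈ range c, F r := zg_total hc F
    _ ≤ 4 * (2 * Real.sqrt (∑ r ∈ range c, (ν r : ℝ))) := by linarith
    _ = 4 * Real.sqrt (NN (fun g => (ν (zig c g) : ℝ)) (4 * c)) := by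
        rw [zg_sqrt_NN hc hμ hν]

include hd in
/-- free parts -/
theorem zg_free (P h : ℕ) : ∑ r ∈ range (zig c h + 1), (ν r : ℝ) ≤
    ∑ j ∈ (Ico (c * P) (c * P + c)).filter (fun j => μ (zig c h) ≤ μ (zig c j)),
      (ν (zig c j) : ℝ) := by
  rw [Finset.sum_filter]
  rw [zg_part hc P (fun r => if μ (zig c h) ≤ μ r then (ν r : ℝ) else 0)]
  rw [← Finset.sum_filter]
  refine Finset.sum_le_sum_of_subset_of_nonneg ?_ fun _ _ _ => Nat.cast_nonneg _
  intro r hr
  have hr' := Finset.mem_range.1 hr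
  have hz := zg_zig_lt hc h
  refine Finset.mem_filter.2 ⟨Finset.mem_range.2 (by omega), ?_⟩
  rcases Nat.eq_or_lt_of_le (show r ≤ zig c h by omega) with e | hh
  · rw [e]
  · exact (hd r (zig c h) hh hz).le

include hd in
theorem zg_free_pos (P h : ℕ) : 0 <
    ∑ j ∈ (Ico (c * P) (c * P + c)).filter (fun j => μ (zig c h) ≤ μ (zig c j)),
      (ν (zig c j) : ℝ) := by
  refine lt_of_lt_of_le ?_ (zg_free hc hμ hν hd P h)
  refine Finset.sum_pos (fun r hr => ?_) ⟨0, Finset.mem_range.2 (by omega)⟩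
  have hr' := Finset.mem_range.1 hr
  have hz := zg_zig_lt hc h
  exact_mod_cast hν r (by omega)

include hd in
theorem zg_free_sum (P : ℕ) : ∑ h ∈ range (4 * c), (ν (zig c h) : ℝ) /
    Real.sqrt (∑ j ∈ (Ico (c * P) (c * P + c)).filter (fun j => μ (zig c h) ≤ μ (zig c j)),
      (ν (zig c j) : ℝ)) ≤ 4 * Real.sqrt (NN (fun g => (ν (zig c g) : ℝ)) (4 * c)) := by
  have hl := hl_sum (fun _ => (1 : ℝ)) (fun r => (ν r : ℝ)) 0 c (fun g _ h2 => one_pos)
    (fun g _ h2 => ⟨ν g, hν g h2, rfl⟩) (fun g g' _ h2 h3 => le_rfl)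
  have hV : ∀ r, VV (fun _ => (1 : ℝ)) (fun r => (ν r : ℝ)) 0 (r + 1) =
      ∑ r ∈ range (r + 1), (ν r : ℝ) := by
    intro r
    unfold VV
    rw [Finset.range_eq_Ico]
    simp
  calc _ ≤ ∑ h ∈ range (4 * c), (fun r => (ν r : ℝ) /
          Real.sqrt (∑ r ∈ range (r + 1), (ν r : ℝ))) (zig c h) := by
        refine Finset.sum_le_sum fun h _ => ?_
        refine div_le_div_of_nonneg_left (Nat.cast_nonneg _) ?_
          (Real.sqrt_le_sqrt (zg_free hc hμ hν hd P h))
        refine Real.sqrt_pos.2 (Finset.sum_pos (fun r hr => ?_) ⟨0, Finset.mem_range.2 (by omega)⟩)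
        have hr' := Finset.mem_range.1 hr
        have hz := zg_zig_lt hc h
        exact_mod_cast hν r (by omega)
    _ = 4 * ∑ r ∈ range c, (ν r : ℝ) / Real.sqrt (∑ r ∈ range (r + 1), (ν r : ℝ)) :=
        zg_total hc (fun r => (ν r : ℝ) / Real.sqrt (∑ r ∈ range (r + 1), (ν r : ℝ)))
    _ ≤ 4 * (2 * Real.sqrt (∑ r ∈ range c, (ν r : ℝ))) := by
        rw [Finset.range_eq_Ico]
        simp only [hV, mul_one] at hl
        linarith
    _ = 4 * Real.sqrt (NN (fun g => (ν (zig c g) : ℝ)) (4 * c)) := by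
        rw [zg_sqrt_NN hc hμ hν]

end

/-- ZG2: the zigzag order of classes with decreasing weights `μ 0 > μ 1 > … > μ (c-1)` and sizes
`ν r` (natural numbers) is good.  Cases for `h3` (`q` in part `p`, `g > q` lighter, in part `p'`): `p = p' = 0` or `2`:
`hl_sum` after `q`; `(0,1), (2,3)`: the rest of part `p` after `q` contains the classes lighter than
`q`, in particular those between `q` and `g` and the class of `g`; `(1,2)`: part 2 up to `g` contains all classes
at least as heavy as `g`; `(0,2), (0,3), (1,3)`: a complete part lies between;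
`(1,1), (3,3)`: none is lighter.  `h5`: local past from the start of part 0 (parts 0, 1), of part 1
(part 2), of part 2 (part 3), free parts 2, 3, 0, 0 for `g` in part 0, 1, 2, 3. -/
theorem zig_good : ∃ C : ℝ, 0 < C ∧ ∀ (c : ℕ) (μ : ℕ → ℝ) (ν : ℕ → ℕ), 0 < c →
    (∀ r < c, 0 < μ r) → (∀ r < c, 0 < ν r) → (∀ r r', r < r' → r' < c → μ r' < μ r) →
    Good C (4 * c) (fun g => μ (zig c g)) (fun g => (ν (zig c g) : ℝ)) := by
  refine ⟨4, by norm_num, fun c μ ν hc hμ hν hd => ?_⟩
  have hlight : ∀ q g, μ (zig c g) < μ (zig c q) → zig c q < zig c g := by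
    intro q g h
    by_contra hh
    rw [not_lt] at hh
    rcases Nat.eq_or_lt_of_le hh with e | hh
    · rw [e] at h; exact lt_irrefl _ h
    · have := hd _ _ hh (zg_zig_lt hc q)
      linarith
  have hdivc : ∀ g, g < 4 * c → g / c < 4 := by
    intro g hg
    exact Nat.div_lt_of_lt_mul (by rw [mul_comm]; exact hg)
  have hdm : ∀ g, c * (g / c) ≤ g := fun g => Nat.mul_div_le g c
  have hdm' : ∀ g, g < c * (g / c) + c := by
    intro g
    have := Nat.div_add_mod g c
    have := Nat.mod_lt g hc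
    omega
  refine ⟨by omega, fun g _ => zg_m_pos hc hμ hν g, fun g _ => zg_n_pos hc hμ hν g,
    ?_, ?_, ?_, ?_, ?_, ?_, ?_⟩
  · exact zg_sum hc hμ hν hd 0 _ (Finset.Subset.refl _) (fun g _ => Nat.zero_le _) _
      (fun g _ => zg_past hc hμ hν g 0 (Nat.zero_le _))
  · refine zg_sum hc hμ hν hd 0 _ (Finset.Subset.refl _) (fun g _ => Nat.zero_le _) _
      (fun g hg => zg_future hc hμ hν g (4 * c) ?_)
    have := hdivc g (Finset.mem_range.1 hg)
    rw [mul_comm 4 c]
    exact Nat.mul_le_mul_left c (by omega)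
  · intro q hq
    refine zg_sum hc hμ hν hd (zig c q + 1) _ ?_ ?_ _ ?_
    · intro g hg
      have h1 := Finset.mem_Ico.1 (Finset.mem_filter.1 hg).1
      exact Finset.mem_range.2 h1.2
    · intro g hg
      exact hlight q g (Finset.mem_filter.1 hg).2
    · intro g hg
      have h1 := Finset.mem_Ico.1 (Finset.mem_filter.1 hg).1
      exact zg_between hc hμ hν q g (by omega) (hlight q g (Finset.mem_filter.1 hg).2)
  · intro q hq
    refine zg_sum hc hμ hν hd (zig c q + 1) _ ?_ ?_ _ ?_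
    · intro g hg
      have h1 := Finset.mem_range.1 (Finset.mem_filter.1 hg).1
      exact Finset.mem_range.2 (by omega)
    · intro g hg
      exact hlight q g (Finset.mem_filter.1 hg).2
    · intro g hg
      have h1 := Finset.mem_range.1 (Finset.mem_filter.1 hg).1
      exact zg_between' hc hμ hν q g (by omega) (hlight q g (Finset.mem_filter.1 hg).2)
  · intro g hg
    have h0 := zg_VV_full hc hμ hν 0
    have h1 := zg_VV_full hc hμ hν 1
    have h2 := zg_VV_full hc hμ hν 2
    have h3 := zg_VV_full hc hμ hν 3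
    rw [show c * 0 = 0 by ring, show 0 + c = c by ring] at h0
    rw [show c * 1 = c by ring, show c + c = 2 * c by ring] at h1
    rw [show c * 2 = 2 * c by ring, show 2 * c + c = 3 * c by ring] at h2
    rw [show c * 3 = 3 * c by ring, show 3 * c + c = 4 * c by ring] at h3
    set W := VV μ (fun r => (ν r : ℝ)) 0 c with hW
    have hW0 : 0 ≤ W := by
      have := zg_VV_pos' hc hμ hν 0 c hc le_rfl
      exact this.le
    have htot : VV (fun g => μ (zig c g)) (fun g => (ν (zig c g) : ℝ)) 0 (4 * c) = 4 * W := by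
      have e : ∀ a b d, a ≤ b → b ≤ d →
          VV (fun g => μ (zig c g)) (fun g => (ν (zig c g) : ℝ)) a d =
          VV (fun g => μ (zig c g)) (fun g => (ν (zig c g) : ℝ)) a b +
          VV (fun g => μ (zig c g)) (fun g => (ν (zig c g) : ℝ)) b d := by
        intro a b d h1 h2
        unfold VV
        rw [Finset.sum_Ico_consecutive _ h1 h2]
      rw [e 0 (3 * c) (4 * c) (by omega) (by omega), e 0 (2 * c) (3 * c) (by omega) (by omega),
        e 0 c (2 * c) (by omega) (by omega), h0, h1, h2, h3]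
      ring
    rw [htot]
    have hmax : W ≤ max (VV (fun g => μ (zig c g)) (fun g => (ν (zig c g) : ℝ)) 0 g)
        (VV (fun g => μ (zig c g)) (fun g => (ν (zig c g) : ℝ)) (g + 1) (4 * c)) := by
      by_cases hgc : g < c
      · refine le_trans (le_of_eq h3.symm) (le_trans ?_ (le_max_right _ _))
        exact zg_VV_mono hc hμ hν (by omega) le_rfl
      · refine le_trans (le_of_eq h0.symm) (le_trans ?_ (le_max_left _ _))
        exact zg_VV_mono hc hμ hν le_rfl (by omega)
    nlinarith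
  · refine ⟨fun g => c * (if g / c < 2 then 0 else g / c - 1),
      fun g => c * (if g / c = 0 then 2 else if g / c = 1 then 3 else 0),
      fun g => c * (if g / c = 0 then 2 else if g / c = 1 then 3 else 0) + c, ?_, ?_, ?_⟩
    · intro g hg
      have a1 := hdm g
      have a2 := hdm' g
      have a3 := hdivc g hg
      beta_reduce
      generalize g / c = p at a1 a2 a3
      interval_cases p <;> simp <;> omega
    · refine zg_sum hc hμ hν hd 0 _ (Finset.Subset.refl _) (fun g _ => Nat.zero_le _) _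
        (fun g hg => zg_past hc hμ hν g _ (Nat.mul_le_mul_left c ?_))
      have := hdivc g (Finset.mem_range.1 hg)
      split_ifs <;> omega
    · intro g hg
      exact ⟨fun h _ => zg_free_pos hc hμ hν hd _ h, zg_free_sum hc hμ hν hd _⟩
  · refine ⟨fun g => c * (if g / c < 2 then g / c + 2 else 4),
      fun g => c * (if g / c < 2 then 3 else if g / c = 2 then 0 else 1),
      fun g => c * (if g / c < 2 then 3 else if g / c = 2 then 0 else 1) + c, ?_, ?_, ?_⟩
    · intro g hg
      have a1 := hdm g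
      have a2 := hdm' g
      have a3 := hdivc g hg
      beta_reduce
      generalize g / c = p at a1 a2 a3
      interval_cases p <;> simp <;> omega
    · refine zg_sum hc hμ hν hd 0 _ (Finset.Subset.refl _) (fun g _ => Nat.zero_le _) _
        (fun g hg => zg_future hc hμ hν g _ (Nat.mul_le_mul_left c ?_))
      have := hdivc g (Finset.mem_range.1 hg)
      split_ifs <;> omega
    · intro g hg
      exact ⟨fun h _ => zg_free_pos hc hμ hν hd _ h, zg_free_sum hc hμ hν hd _⟩

end BLO
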