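import Pool.Agent.Lib.BLO.Proc
import Pool.Agent.Lib.BLO.Zig2

/-!
# Chunk EW1: numerical hypotheses of a family with zigzag classes

`ew_num`: `Num` for a family with zigzag classes: `zig_good` with `μ r = 2 ms r`, and `Good` only depends on the values at
`g < K` (`VV m n a b` with `b ≤ K`).  `ratio`: `m_q ≤ 2 qmax`, `n_g m_g^2 ≥ nmin ρ^2`.
`ew_lam`: `lam = √(1 - tim / vB)`.
-/

namespace BLO

open Finset BLP

theorem ew1_VV {K : ℕ} {m n m' n' : ℕ → ℝ} (hm : ∀ g < K, m' g = m g) (hn : ∀ g < K, n' g = n g)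
    (a b : ℕ) (hb : b ≤ K) : VV m' n' a b = VV m n a b := by
  unfold VV
  apply sum_congr rfl
  intro g hg
  rw [mem_Ico] at hg
  rw [hm g (by omega), hn g (by omega)]

theorem ew1_NN {K : ℕ} {n n' : ℕ → ℝ} (hn : ∀ g < K, n' g = n g) : NN n' K = NN n K := by
  unfold NN
  apply sum_congr rfl
  intro g hg
  exact hn g (mem_range.1 hg)

theorem ew1_filter {K : ℕ} {m n m' n' : ℕ → ℝ} (hm : ∀ g < K, m' g = m g)
    (hn : ∀ g < K, n' g = n g) (a b h : ℕ) (hb : b ≤ K) (hh : h < K) :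
    ∑ j ∈ (Ico a b).filter (fun j => m' h ≤ m' j), n' j =
      ∑ j ∈ (Ico a b).filter (fun j => m h ≤ m j), n j := by
  rw [sum_filter, sum_filter]
  apply sum_congr rfl
  intro j hj
  rw [mem_Ico] at hj
  rw [hm h hh, hm j (by omega), hn j (by omega)]

theorem Good.congr {C : ℝ} {K : ℕ} {m n m' n' : ℕ → ℝ} (h : Good C K m n)
    (hm : ∀ g < K, m' g = m g) (hn : ∀ g < K, n' g = n g) : Good C K m' n' := by
  have hV := ew1_VV hm hn
  have hN := ew1_NN hn
  have hF := ew1_filter hm hn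
  constructor
  · exact h.hK
  · intro g hg
    rw [hm g hg]
    exact h.m_pos g hg
  · intro g hg
    rw [hn g hg]
    exact h.n_pos g hg
  · rw [hN]
    refine le_trans (le_of_eq ?_) h.h2
    apply sum_congr rfl
    intro g hg
    rw [mem_range] at hg
    rw [hn g hg, hm g hg, hV 0 (g + 1) (by omega)]
  · rw [hN]
    refine le_trans (le_of_eq ?_) h.h2'
    apply sum_congr rfl
    intro g hg
    rw [mem_range] at hg
    rw [hn g hg, hm g hg, hV g K le_rfl]
  · intro q hq
    rw [hN]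
    refine le_trans (le_of_eq ?_) (h.h3 q hq)
    rw [sum_filter, sum_filter]
    apply sum_congr rfl
    intro g hg
    rw [mem_Ico] at hg
    rw [hn g (by omega), hm g (by omega), hm q hq, hV (q + 1) (g + 1) (by omega)]
  · intro q hq
    rw [hN]
    refine le_trans (le_of_eq ?_) (h.h3' q hq)
    rw [sum_filter, sum_filter]
    apply sum_congr rfl
    intro g hg
    rw [mem_range] at hg
    rw [hn g (by omega), hm g (by omega), hm q hq, hV g q (by omega)]
  · intro g hg
    rw [hV 0 K le_rfl, hV 0 g (by omega), hV (g + 1) K le_rfl]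
    exact h.h4 g hg
  · obtain ⟨b, f, f', h1, h2, h3⟩ := h.h5
    refine ⟨b, f, f', h1, ?_, ?_⟩
    · rw [hN]
      refine le_trans (le_of_eq ?_) h2
      apply sum_congr rfl
      intro g hg
      rw [mem_range] at hg
      rw [hn g hg, hm g hg, hV (b g) (g + 1) (by omega)]
    · intro g hg
      have h4 := h3 g hg
      have h5 := (h1 g hg).2.2.1
      refine ⟨fun j hj => ?_, ?_⟩
      · rw [hF (f g) (f' g) j h5 hj]
        exact h4.1 j hj
      · rw [hN]
        refine le_trans (le_of_eq ?_) h4.2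
        apply sum_congr rfl
        intro j hj
        rw [mem_range] at hj
        rw [hn j hj, hF (f g) (f' g) j h5 hj]
  · obtain ⟨b, f, f', h1, h2, h3⟩ := h.h5'
    refine ⟨b, f, f', h1, ?_, ?_⟩
    · rw [hN]
      refine le_trans (le_of_eq ?_) h2
      apply sum_congr rfl
      intro g hg
      rw [mem_range] at hg
      rw [hn g hg, hm g hg, hV g (b g) (h1 g hg).2.1]
    · intro g hg
      have h4 := h3 g hg
      have h5 := (h1 g hg).2.2.2.1
      refine ⟨fun j hj => ?_, ?_⟩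
      · rw [hF (f g) (f' g) j h5 hj]
        exact h4.1 j hj
      · rw [hN]
        refine le_trans (le_of_eq ?_) h4.2
        apply sum_congr rfl
        intro j hj
        rw [mem_range] at hj
        rw [hn j hj, hF (f g) (f' g) j h5 hj]

theorem ew1_zig_lt {c : ℕ} (hc : 0 < c) (g : ℕ) : zig c g < c := by
  unfold zig
  have := Nat.mod_lt g hc
  split_ifs <;> omega

theorem ew_num : ∃ C : ℝ, 0 < C ∧ ∀ (P : Type) [Fintype P] [DecidableEq P] (F : Fam P)
    (c nmin qmax : ℕ) (ms ν : ℕ → ℕ) (ρ : ℝ), 0 < c → c ≤ qmax → 0 < nmin → (∀ r < c, nmin ≤ ν r) →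
    (∀ r r', r < r' → r' < c → ms r' < ms r) → (∀ r < c, ms r ≤ qmax) → 0 ≤ ρ →
    (∀ r < c, ρ ≤ 2 * (ms r : ℝ)) → (∀ r < c, 0 < ms r) → 4 * (qmax : ℝ) ^ 2 ≤ nmin * ρ ^ 2 →
    F.K = 4 * c → (∀ g < 4 * c, F.m g = 2 * ms (zig c g)) →
    (∀ g < 4 * c, F.siz g = ν (zig c g)) →
    (univ.filter fun k => 4 * c ≤ F.cls k).card + (4 * qmax) ^ 2 ≤ Fintype.card P →
    Num C F.K F.mr F.nr := by
  obtain ⟨C, hC, hz⟩ := zig_good
  refine ⟨C, hC, ?_⟩
  intro P _ _ F c nmin qmax ms ν ρ hc hcq hnm hν hdec hmsq hρ hρm hms h4 hK hm hs hcard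
  rw [hK]
  have hzl := ew1_zig_lt hc
  constructor
  · have h1 := hz c (fun r => 2 * (ms r : ℝ)) ν hc
      (fun r hr => by have := hms r hr; positivity)
      (fun r hr => lt_of_lt_of_le hnm (hν r hr))
      (fun r r' hr hr' => by
        have := hdec r r' hr hr'
        have h2 : (ms r' : ℝ) < ms r := by exact_mod_cast this
        show 2 * (ms r' : ℝ) < 2 * (ms r : ℝ)
        linarith)
    refine h1.congr ?_ ?_
    · intro g hg
      show (F.m g : ℝ) = 2 * (ms (zig c g) : ℝ)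
      rw [hm g hg]
      push_cast
      ring
    · intro g hg
      show (F.siz g : ℝ) = (ν (zig c g) : ℝ)
      rw [hs g hg]
  · intro g hg
    show (1 : ℝ) ≤ (F.m g : ℝ)
    rw [hm g hg]
    have := hms _ (hzl g)
    have h2 : 1 ≤ 2 * ms (zig c g) := by omega
    exact_mod_cast h2
  · intro g hg
    show (1 : ℝ) ≤ (F.siz g : ℝ)
    rw [hs g hg]
    have := hν _ (hzl g)
    have h2 : 1 ≤ ν (zig c g) := by omega
    exact_mod_cast h2
  · intro q hq g hg
    show (F.m q : ℝ) ^ 2 ≤ (F.siz g : ℝ) * (F.m g : ℝ) ^ 2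
    rw [hm q hq, hs g hg, hm g hg]
    push_cast
    have a1 : (ms (zig c q) : ℝ) ≤ qmax := by exact_mod_cast hmsq _ (hzl q)
    have a2 : (2 * (ms (zig c q) : ℝ)) ^ 2 ≤ 4 * (qmax : ℝ) ^ 2 := by
      have : (0 : ℝ) ≤ ms (zig c q) := Nat.cast_nonneg _
      nlinarith
    have a3 : (nmin : ℝ) ≤ ν (zig c g) := by exact_mod_cast hν _ (hzl g)
    have a4 : ρ ^ 2 ≤ (2 * (ms (zig c g) : ℝ)) ^ 2 := pow_le_pow_left₀ hρ (hρm _ (hzl g)) 2
    calc (2 * (ms (zig c q) : ℝ)) ^ 2 ≤ 4 * (qmax : ℝ) ^ 2 := a2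
      _ ≤ nmin * ρ ^ 2 := h4
      _ ≤ ν (zig c g) * (2 * (ms (zig c g) : ℝ)) ^ 2 :=
          mul_le_mul a3 a4 (by positivity) (by positivity)
  · have h1 : NN F.nr (4 * c) = ((univ.filter fun k => F.cls k < 4 * c).card : ℝ) := by
      unfold NN Fam.nr Fam.siz Fam.blk
      rw [← Nat.cast_sum]
      congr 1
      rw [card_eq_sum_card_fiberwise (f := F.cls) (t := range (4 * c))]
      · apply sum_congr rfl
        intro g hg
        rw [mem_range] at hg
        congr 1
        ext k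
        simp only [mem_filter, mem_univ, true_and]
        constructor
        · intro h
          exact ⟨by omega, h⟩
        · intro h
          exact h.2
      · intro k hk
        simpa using hk
    rw [h1]
    have h2 : (univ.filter fun k => F.cls k < 4 * c).card +
        (univ.filter fun k => 4 * c ≤ F.cls k).card = Fintype.card P := by
      rw [← card_univ, ← card_filter_add_card_filter_not (s := univ) (fun k => F.cls k < 4 * c)]
      simp only [not_lt]
    have h3 : (4 * c) ^ 2 ≤ (4 * qmax) ^ 2 := Nat.pow_le_pow_left (by omega) 2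
    have h5 : (4 * c) ^ 2 ≤ (univ.filter fun k => F.cls k < 4 * c).card := by omega
    exact_mod_cast h5

theorem ew_lam (tim vB : ℝ) (h0 : 0 ≤ tim) (h1 : 0 < vB) (h2 : tim ≤ 3 / 4 * vB) :
    ∃ lam : ℝ, 1 / 2 ≤ lam ∧ lam ≤ 1 ∧ lam ^ 2 * vB + tim = vB := by
  have h3 : tim / vB ≤ 3 / 4 := by rw [div_le_iff₀ h1]; exact h2
  have h4 : 0 ≤ tim / vB := by positivity
  refine ⟨Real.sqrt (1 - tim / vB), ?_, ?_, ?_⟩
  · apply Real.le_sqrt_of_sq_le
    norm_num
    linarith
  · rw [Real.sqrt_le_left (by norm_num)]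
    linarith
  · rw [Real.sq_sqrt (by linarith)]
    field_simp
    ring

end BLO
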