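import Pool.Agent.Lib.BLO.WWEst
import Pool.Agent.Lib.BLO.Classes
import Pool.Agent.Lib.BLO.Dither
import Pool.Agent.Lib.BLO.ExFam
import Pool.Agent.Lib.BLO.ExNum

/-!
# Chunk EW2: existence of the window with words

`v k` = mean weight of a pair, `t` from `exists_dither`, `q u k = ⌊v k * M + t u⌋₊ < qmax`, `w u k = q u k / M`,
`exists_cls` for every `u`, `m u g = 2 * ms u (zig (c u) g)`, `exists_fam (4 * c u) (cls u) (m u) s j ε`;
`M / R ≤ 2 q u k` (this is `ρ` in `ew_num`) and `2 q u k / M ≤ 2 (R + 1/M) ≤ 3 R`; `tim K u ≤ 4 qmax * (4 R)^2 / 3 ≤ 24 qmax R^2`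
(the dummy blocks have `m = 1`), `b ≤ vB`, `lam` from `ew_lam`.
-/

namespace BLO

open Finset BLP

theorem EW2_zig {c : ℕ} (hc : 0 < c) (g : ℕ) : zig c g < c := by
  unfold zig
  split_ifs
  · exact Nat.mod_lt _ hc
  · omega

/-- the blocks contain at most all pairs -/
theorem EW2_NN {P : Type*} [Fintype P] [DecidableEq P] (F : Fam P) :
    NN F.nr F.K ≤ Fintype.card P := by
  have h1 : (univ.filter fun k => F.cls k < F.K).card =
      ∑ g ∈ range F.K, (univ.filter fun k => F.cls k = g).card := by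
    rw [Finset.card_eq_sum_card_fiberwise (f := F.cls) (t := range F.K)]
    · refine Finset.sum_congr rfl fun g hg => ?_
      rw [mem_range] at hg
      congr 1
      ext k
      simp only [mem_filter, mem_univ, true_and]
      constructor
      · exact fun h => h.2
      · intro h
        exact ⟨by omega, h⟩
    · intro k hk
      simpa using hk
  have h2 : (univ.filter fun k => F.cls k < F.K).card ≤ Fintype.card P :=
    (card_filter_le _ _).trans (le_of_eq card_univ)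
  rw [h1] at h2
  have h3 : NN F.nr F.K = ((∑ g ∈ range F.K, (univ.filter fun k => F.cls k = g).card : ℕ) : ℝ) := by
    unfold NN Fam.nr Fam.siz Fam.blk
    push_cast
    rfl
  rw [h3]
  exact_mod_cast h2

theorem EW2_VV {P : Type*} [Fintype P] [DecidableEq P] (F : Fam P) (D : ℝ) (hD : 0 ≤ D)
    (h : ∀ g < F.K, (F.m g : ℝ) ≤ D) : VV F.mr F.nr 0 F.K ≤ D ^ 2 * Fintype.card P := by
  have h1 : VV F.mr F.nr 0 F.K ≤ D ^ 2 * NN F.nr F.K := by
    unfold VV NN
    rw [Finset.mul_sum, Nat.Ico_zero_eq_range]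
    refine Finset.sum_le_sum fun g hg => ?_
    rw [mem_range] at hg
    have h2 : (0 : ℝ) ≤ F.nr g := Nat.cast_nonneg _
    have h3 : (0 : ℝ) ≤ F.mr g := Nat.cast_nonneg _
    exact mul_le_mul_of_nonneg_right (pow_le_pow_left₀ h3 (h g hg) 2) h2
  exact h1.trans (mul_le_mul_of_nonneg_left (EW2_NN F) (by positivity))

/-- the family for one state of the dither -/
theorem EW2_fam : ∃ C : ℝ, 0 < C ∧ ∀ (p : ℕ) (v : Fin p → ℝ) (R t : ℝ)
    (M nmin qmax s j : ℕ) (ε : ℝ), 1 ≤ R → 0 ≤ t → t < 1 → (∀ k, R⁻¹ ≤ v k ∧ v k ≤ R) →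
    2 * R ≤ M → 0 < nmin → R * M + 2 ≤ qmax → (4 * qmax) ^ 2 + qmax * (4 * nmin + 3) < p →
    8 * (j * (2 ^ s - 1)) ≤ nmin → 0 ≤ ε →
    Real.exp (-(nmin / 16 : ℝ)) + 2 * qmax / 2 ^ (s * j) ≤ ε →
    4 * (qmax : ℝ) ^ 2 * R ^ 2 ≤ nmin * (M : ℝ) ^ 2 →
    4 * qmax * ε * Real.sqrt ((2 * qmax) ^ 2 * p) ≤ 1 → 4 * qmax * ε * Real.sqrt p ≤ 1 →
    p * ε ≤ 1 →
    ∃ F : Fam (Fin p), F.OK (2 * j) ε ∧ F.K ≤ 4 * qmax ∧
      (∀ k, F.cls k < F.K → 2 * ((⌊v k * M + t⌋₊ : ℝ) / M) = 1 / M * F.m (F.cls k)) ∧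
      (∀ g < F.K, 0 < F.m g ∧ 1 / M * (F.m g : ℝ) ≤ 4 * R) ∧
      Num C F.K F.mr F.nr ∧ Eps F ε ∧
      (univ.filter fun k => F.K ≤ F.cls k).card ≤ qmax * (4 * nmin + 3) := by
  obtain ⟨C, hC, hnum⟩ := ew_num
  refine ⟨C, hC, ?_⟩
  intro p v R t M nmin qmax s j ε hR ht0 ht1 hv hM hnmin hqmax hp hjs hε hεe hq2 he1 he2 he3
  have hR0 : 0 < R := by linarith
  have hM0 : (0 : ℝ) < M := by linarith
  have hRi : R⁻¹ * R = 1 := inv_mul_cancel₀ hR0.ne'
  set q : Fin p → ℕ := fun k => ⌊v k * M + t⌋₊ with hq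
  have hy0 : ∀ k, 0 ≤ v k * M + t := by
    intro k
    have h1 : 0 ≤ v k := le_trans (inv_nonneg.mpr hR0.le) (hv k).1
    have := mul_nonneg h1 hM0.le
    linarith
  have hqle : ∀ k, (q k : ℝ) ≤ v k * M + t := fun k => Nat.floor_le (hy0 k)
  have hqge : ∀ k, v k * M + t < q k + 1 := fun k => Nat.lt_floor_add_one _
  have hvM : ∀ k, v k * M ≤ R * M := fun k => mul_le_mul_of_nonneg_right (hv k).2 hM0.le
  have hqR : ∀ k, (q k : ℝ) < R * M + 1 := by
    intro k
    have := hqle k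
    have := hvM k
    linarith
  have hqlt : ∀ k, q k < qmax := by
    intro k
    have : (q k : ℝ) < qmax := by
      have := hqR k
      linarith
    exact_mod_cast this
  -- lower bound `M / R ≤ 2 q`
  have hρ : ∀ k, (M : ℝ) / R ≤ 2 * q k := by
    intro k
    have h1 : R⁻¹ * M ≤ v k * M := mul_le_mul_of_nonneg_right (hv k).1 hM0.le
    have h2 : (2 : ℝ) ≤ M / R := by
      rw [le_div_iff₀ hR0]
      exact hM
    have h3 : (M : ℝ) / R = R⁻¹ * M := by
      rw [div_eq_inv_mul]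
    have h4 := hqge k
    linarith
  have hρ2 : (2 : ℝ) ≤ M / R := by
    rw [le_div_iff₀ hR0]
    exact hM
  obtain ⟨c, ms, ν, cls, hc0, hcq, hν, hms, hmsq, hsiz, hcls, hbl⟩ :=
    exists_cls q nmin qmax hnmin hqlt (by
      rw [Fintype.card_fin]
      have : 0 ≤ (4 * qmax) ^ 2 := Nat.zero_le _
      omega)
  have hmsle : ∀ r < c, ms r < qmax := by
    intro r hr
    obtain ⟨k, hk⟩ := hmsq r hr
    rw [← hk]
    exact hqlt k
  have hmsR : ∀ r < c, (ms r : ℝ) < R * M + 1 := by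
    intro r hr
    obtain ⟨k, hk⟩ := hmsq r hr
    rw [← hk]
    exact hqR k
  have hmsρ : ∀ r < c, (M : ℝ) / R ≤ 2 * ms r := by
    intro r hr
    obtain ⟨k, hk⟩ := hmsq r hr
    rw [← hk]
    exact hρ k
  have hms0 : ∀ r < c, 0 < ms r := by
    intro r hr
    have h1 := hmsρ r hr
    have : (0 : ℝ) < ms r := by linarith
    exact_mod_cast this
  obtain ⟨F, hFK, hFcls, hFm, hFOK⟩ := exists_fam (4 * c) cls (fun g => 2 * ms (zig c g)) s j ε hε
    (by
      intro g _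
      have := hms0 (zig c g) (EW2_zig hc0 g)
      show 0 < 2 * ms (zig c g)
      omega)
    (by
      intro g hg
      rw [hsiz g hg]
      exact hjs.trans (hν _ (EW2_zig hc0 g)))
    (by
      intro g hg
      rw [hsiz g hg]
      have h1 : (nmin : ℝ) ≤ ν (zig c g) := by exact_mod_cast hν _ (EW2_zig hc0 g)
      have h2 : Real.exp (-((ν (zig c g) : ℝ) / 16)) ≤ Real.exp (-((nmin : ℝ) / 16)) := by
        apply Real.exp_le_exp.mpr
        linarith
      have h3 : ((2 * ms (zig c g) : ℕ) : ℝ) / 2 ^ (s * j) ≤ 2 * qmax / 2 ^ (s * j) := by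
        apply div_le_div_of_nonneg_right _ (by positivity)
        have : (ms (zig c g) : ℝ) ≤ qmax := by exact_mod_cast (hmsle _ (EW2_zig hc0 g)).le
        push_cast
        linarith
      exact (add_le_add h2 h3).trans hεe)
  have hKq : F.K ≤ 4 * qmax := by rw [hFK]; omega
  have hKq' : (F.K : ℝ) ≤ 4 * qmax := by exact_mod_cast hKq
  have hmle : ∀ g < F.K, (F.m g : ℝ) ≤ 2 * qmax := by
    intro g _
    rw [hFm]
    have : (ms (zig c g) : ℝ) ≤ qmax := by exact_mod_cast (hmsle _ (EW2_zig hc0 g)).le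
    push_cast
    linarith
  refine ⟨F, hFOK, hKq, ?_, ?_, ?_, ?_, ?_⟩
  · intro k hk
    rw [hFm, hFcls]
    rw [hFcls, hFK] at hk
    have h1 := hcls k hk
    show 2 * ((q k : ℝ) / M) = 1 / M * ((2 * ms (zig c (cls k)) : ℕ) : ℝ)
    rw [h1]
    push_cast
    ring
  · intro g _
    rw [hFm]
    refine ⟨?_, ?_⟩
    · have := hms0 (zig c g) (EW2_zig hc0 g)
      show 0 < 2 * ms (zig c g)
      omega
    · have h1 := hmsR (zig c g) (EW2_zig hc0 g)
      rw [one_div, inv_mul_le_iff₀ hM0]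
      push_cast
      have h2 : (1 : ℝ) ≤ R * M := by
        have : (1 : ℝ) ≤ M := by linarith
        calc (1 : ℝ) = 1 * 1 := by ring
          _ ≤ R * M := mul_le_mul hR this zero_le_one hR0.le
      linarith
  · refine hnum (Fin p) F c nmin qmax ms ν (M / R) hc0 hcq hnmin hν hms
      (fun r hr => (hmsle r hr).le) (by positivity) hmsρ hms0 ?_ hFK ?_ ?_ ?_
    · rw [div_pow, ← mul_div_assoc, le_div_iff₀ (by positivity)]
      exact hq2
    · intro g _
      rw [hFm]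
    · intro g hg
      unfold Fam.siz Fam.blk
      rw [hFcls]
      exact hsiz g hg
    · rw [hFcls, Fintype.card_fin]
      omega
  · refine ⟨?_, ?_, ?_⟩
    · have h1 := EW2_VV F (2 * qmax) (by positivity) hmle
      rw [Fintype.card_fin] at h1
      have h2 : F.K * ε * Real.sqrt (VV F.mr F.nr 0 F.K) ≤
          4 * qmax * ε * Real.sqrt ((2 * qmax) ^ 2 * p) := by
        refine mul_le_mul ?_ (Real.sqrt_le_sqrt h1) (Real.sqrt_nonneg _) (by positivity)
        exact mul_le_mul_of_nonneg_right hKq' hε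
      exact h2.trans he1
    · have h1 := EW2_NN F
      rw [Fintype.card_fin] at h1
      have h2 : F.K * ε * Real.sqrt (NN F.nr F.K) ≤ 4 * qmax * ε * Real.sqrt p := by
        refine mul_le_mul ?_ (Real.sqrt_le_sqrt h1) (Real.sqrt_nonneg _) (by positivity)
        exact mul_le_mul_of_nonneg_right hKq' hε
      exact h2.trans he2
    · rw [Fintype.card_fin]
      exact he3
  · rw [hFK, hFcls]
    exact hbl

theorem exists_ww : ∃ C : ℝ, 0 < C ∧ ∀ (b d p : ℕ) (A : WC (Fin b) (Fin d) (Fin p) → ℝ) (R : ℝ)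
    (M nmin qmax s j : ℕ) (ε : ℝ), 1 ≤ R → 0 < b →
    (∀ i, 1 ≤ A (Sum.inl i) ∧ A (Sum.inl i) ≤ 2) →
    (∀ i, R⁻¹ ≤ A (Sum.inr i) ∧ A (Sum.inr i) ≤ R) →
    (∑ k : Fin p, |A (Sum.inr (k, false)) - A (Sum.inr (k, true))| ≤ R) →
    2 * R ≤ M → 0 < nmin → R * M + 2 ≤ qmax → (4 * qmax) ^ 2 + qmax * (4 * nmin + 3) < p →
    8 * (j * (2 ^ s - 1)) ≤ nmin → 0 ≤ ε →
    Real.exp (-(nmin / 16 : ℝ)) + 2 * qmax / 2 ^ (s * j) ≤ ε →
    4 * (qmax : ℝ) ^ 2 * R ^ 2 ≤ nmin * (M : ℝ) ^ 2 →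
    4 * qmax * ε * Real.sqrt ((2 * qmax) ^ 2 * p) ≤ 1 → 4 * qmax * ε * Real.sqrt p ≤ 1 → p * ε ≤ 1 →
    24 * qmax * R ^ 2 ≤ 3 / 4 * b →
    ∃ W : WW (Fin b) (Fin d) (Fin p), W.a = A ∧ W.μ = 1 / M ∧ W.K = 4 * qmax ∧
      W.OK R (2 * j) ε (1 / M / 2 ^ d) ∧ W.Est C ε (b + d + 2 * (qmax * (4 * nmin + 3))) := by
  obtain ⟨C, hC, hfam⟩ := EW2_fam
  refine ⟨C, hC, ?_⟩
  intro b d p A R M nmin qmax s j ε hR hb hAl hAr hAd hM hnmin hqmax hp hjs hε hεe hq2 he1 he2 he3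
    hqb
  have hR0 : 0 < R := by linarith
  have hM2 : (2 : ℝ) ≤ M := by linarith
  have hM0 : (0 : ℝ) < M := by linarith
  obtain ⟨t, ht, htd⟩ := exists_dither d
  set v : Fin p → ℝ := fun k => (A (Sum.inr (k, false)) + A (Sum.inr (k, true))) / 2 with hvdef
  have hv : ∀ k, R⁻¹ ≤ v k ∧ v k ≤ R := by
    intro k
    have h1 := hAr (k, false)
    have h2 := hAr (k, true)
    constructor
    · show R⁻¹ ≤ (A (Sum.inr (k, false)) + A (Sum.inr (k, true))) / 2
      linarith [h1.1, h2.1]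
    · show (A (Sum.inr (k, false)) + A (Sum.inr (k, true))) / 2 ≤ R
      linarith [h1.2, h2.2]
  have hv0 : ∀ k, 0 ≤ v k := fun k => le_trans (inv_nonneg.mpr hR0.le) (hv k).1
  have hy0 : ∀ k u, 0 ≤ v k * M + t u := by
    intro k u
    have := mul_nonneg (hv0 k) hM0.le
    have := (ht u).1
    linarith
  choose F hFOK hFK hFq hFm hFnum hFeps hFbl using fun u : Fin d → Bool =>
    hfam p v R (t u) M nmin qmax s j ε hR (ht u).1 (ht u).2 hv hM hnmin hqmax hp hjs hε hεe hq2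
      he1 he2 he3
  -- the factor `lam`
  set tim : (Fin d → Bool) → ℝ := fun u => ∑ g ∈ range (4 * qmax),
    (1 / M : ℝ) ^ 2 * (((if g < (F u).K then (F u).m g else 1 : ℕ) : ℝ) ^ 2 - 1) / 3 with htim
  set vB : ℝ := ∑ i : Fin b, A (Sum.inl (Sum.inl i)) ^ 2 with hvB
  have hvBb : (b : ℝ) ≤ vB := by
    have h1 : ∀ i : Fin b, (1 : ℝ) ≤ A (Sum.inl (Sum.inl i)) ^ 2 := by
      intro i
      have := (hAl (Sum.inl i)).1
      exact one_le_pow₀ this
    have h2 := Finset.sum_le_sum fun i (_ : i ∈ (univ : Finset (Fin b))) => h1 i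
    rw [Finset.sum_const, card_univ, Fintype.card_fin, nsmul_eq_mul, mul_one] at h2
    exact h2
  have hb0 : (0 : ℝ) < b := by exact_mod_cast hb
  have hterm : ∀ u g, 0 ≤ (1 / M : ℝ) ^ 2 *
      (((if g < (F u).K then (F u).m g else 1 : ℕ) : ℝ) ^ 2 - 1) / 3 ∧
      (1 / M : ℝ) ^ 2 * (((if g < (F u).K then (F u).m g else 1 : ℕ) : ℝ) ^ 2 - 1) / 3 ≤
        (4 * R) ^ 2 / 3 := by
    intro u g
    by_cases hg : g < (F u).K
    · rw [if_pos hg]
      obtain ⟨h1, h2⟩ := hFm u g hg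
      have h3 : (1 : ℝ) ≤ (F u).m g := by exact_mod_cast h1
      have h4 : (1 : ℝ) ≤ ((F u).m g : ℝ) ^ 2 := one_le_pow₀ h3
      have h5 : 0 ≤ 1 / (M : ℝ) * (F u).m g := by positivity
      have h6 := pow_le_pow_left₀ h5 h2 2
      rw [mul_pow] at h6
      have h7 : 0 ≤ (1 / (M : ℝ)) ^ 2 := by positivity
      constructor
      · exact div_nonneg (mul_nonneg h7 (by linarith)) (by norm_num)
      · apply div_le_div_of_nonneg_right _ (by norm_num)
        have : (1 / (M : ℝ)) ^ 2 * (((F u).m g : ℝ) ^ 2 - 1) =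
          (1 / (M : ℝ)) ^ 2 * ((F u).m g : ℝ) ^ 2 - (1 / (M : ℝ)) ^ 2 := by ring
        rw [this]
        linarith
    · rw [if_neg hg]
      constructor
      · simp
      · have : 0 ≤ (4 * R) ^ 2 / 3 := by positivity
        simpa using this
  have htim0 : ∀ u, 0 ≤ tim u := fun u => Finset.sum_nonneg fun g _ => (hterm u g).1
  have htim1 : ∀ u, tim u ≤ 3 / 4 * vB := by
    intro u
    have h1 := Finset.sum_le_sum fun g (_ : g ∈ range (4 * qmax)) => (hterm u g).2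
    rw [Finset.sum_const, card_range, nsmul_eq_mul] at h1
    have h5 : tim u ≤ ((4 * qmax : ℕ) : ℝ) * ((4 * R) ^ 2 / 3) := h1
    rw [Nat.cast_mul, Nat.cast_ofNat] at h5
    have h2 : 4 * (qmax : ℝ) * ((4 * R) ^ 2 / 3) ≤ 24 * qmax * R ^ 2 := by
      have h3 : 0 ≤ (qmax : ℝ) * R ^ 2 := by positivity
      have h4 : 4 * (qmax : ℝ) * ((4 * R) ^ 2 / 3) = 64 / 3 * (qmax * R ^ 2) := by ring
      rw [h4]
      linarith
    linarith
  choose lam hlam1 hlam2 hlam3 using fun u => ew_lam (tim u) vB (htim0 u) (by linarith) (htim1 u)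
  refine ⟨{ a := A
            w := fun u k => (⌊v k * M + t u⌋₊ : ℝ) / M
            lam := lam
            μ := 1 / M
            K := 4 * qmax
            F := F }, rfl, rfl, rfl, ?_, ?_⟩
  · refine ⟨hR, hAl, ?_, hAd, ?_, ?_, ?_, ?_, ?_, hFOK, hFK, ?_, ?_⟩
    · intro i
      exact ⟨le_trans (inv_nonneg.mpr hR0.le) (hAr i).1, (hAr i).2⟩
    · refine ⟨by positivity, ?_⟩
      show (1 : ℝ) / M ≤ 1 / 2
      exact one_div_le_one_div_of_le (by norm_num) hM2
    · intro u k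
      show |(⌊v k * M + t u⌋₊ : ℝ) / M - v k| ≤ 1 / M
      have h1 := Nat.floor_le (hy0 k u)
      have h2 := Nat.lt_floor_add_one (v k * M + t u)
      have h3 := ht u
      have h4 : (⌊v k * M + t u⌋₊ : ℝ) / M - v k = ((⌊v k * M + t u⌋₊ : ℝ) - v k * M) / M := by
        field_simp
      rw [h4, abs_div, abs_of_pos hM0]
      apply div_le_div_of_nonneg_right _ hM0.le
      rw [abs_le]
      constructor <;> linarith [h3.1, h3.2]
    · intro k
      show |∑ u : Fin d → Bool, ((⌊v k * M + t u⌋₊ : ℝ) / M - v k)| ≤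
        1 / M / 2 ^ d * 2 ^ Fintype.card (Fin d)
      have h1 : ∑ u : Fin d → Bool, ((⌊v k * M + t u⌋₊ : ℝ) / M - v k) =
          (∑ u : Fin d → Bool, ((⌊v k * M + t u⌋₊ : ℝ) - v k * M)) / M := by
        rw [Finset.sum_div]
        refine Finset.sum_congr rfl fun u _ => ?_
        field_simp
      rw [h1, abs_div, abs_of_pos hM0, Fintype.card_fin]
      have h2 := htd (v k * M) (mul_nonneg (hv0 k) hM0.le)
      have h3 : 1 / (M : ℝ) / 2 ^ d * 2 ^ d = 1 / M := by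
        field_simp
      rw [h3]
      exact div_le_div_of_nonneg_right h2 hM0.le
    · intro u
      exact ⟨hlam1 u, hlam2 u⟩
    · intro u
      exact hlam3 u
    · intro u k hk
      exact hFq u k hk
    · intro u g hg
      exact (hFm u g hg).2
  · refine ⟨hFnum, hFeps, ?_⟩
    intro u
    rw [Fintype.card_fin, Fintype.card_fin]
    have h1 : (((univ.filter fun k => (F u).K ≤ (F u).cls k).card : ℕ) : ℝ) ≤
        qmax * (4 * nmin + 3) := by exact_mod_cast hFbl u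
    show (b : ℝ) + d + 2 * ((univ.filter fun k => (F u).K ≤ (F u).cls k).card : ℝ) ≤ _
    linarith

end BLO
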