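import Pool.Agent.Lib.BLO.LOF
import Pool.Agent.Lib.BLO.Arr2
import Pool.Agent.Lib.BLP.Word

/-!
# The word of the blocks on the space `PS P` of the states of all pairs: definitions

`cls k = g < K`: the pair `k` belongs to block `g`; `K ≤ cls k`: the pair is not in the word.  `C g` is a
chain decomposition of the whole space `PS P` which only looks at and only changes the pairs of
block `g`.
-/

namespace BLO

open Finset BLP

variable {P : Type*} [Fintype P] [DecidableEq P]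

structure Fam (P : Type*) where
  K : ℕ
  cls : P → ℕ
  m : ℕ → ℕ
  C : ℕ → Chain (PS P)
  /-- frozen states of block `g` -/
  frz : ℕ → PS P → Prop
  /-- noise of block `g` -/
  nu : ℕ → PS P → ℕ
  /-- `setn g t x`: the noise of block `g` is set to `t` -/
  setn : ℕ → ℕ → PS P → PS P

namespace Fam

/-- pairs of block `g` -/
def blk (F : Fam P) (g : ℕ) : Finset P := univ.filter fun k => F.cls k = g

/-- pairs of the blocks `a ≤ g < b` -/
def seg (F : Fam P) (a b : ℕ) : Finset P := univ.filter fun k => a ≤ F.cls k ∧ F.cls k < b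

/-- number of pairs of block `g` -/
def siz (F : Fam P) (g : ℕ) : ℕ := (F.blk g).card

/-- value of the `N`-letters of block `g` -/
def vs (F : Fam P) (g : ℕ) (x : PS P) : ℤ := ∑ k ∈ F.blk g, val (x k)

/-- variance of the blocks `a ≤ g < b` -/
def vr (F : Fam P) (a b : ℕ) : ℝ := ∑ g ∈ Ico a b, (F.m g : ℝ) ^ 2 * F.siz g

def ys (F : Fam P) (x : PS P) (g : ℕ) : ℕ := if g < F.K then (F.C g).y x else 0
def ls (F : Fam P) (x : PS P) (g : ℕ) : ℕ := if g < F.K then (F.C g).l x else 0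

/-- the pairs `k` of the blocks `a ≤ g < b` are decoded with target `T g` -/
def sdec (F : Fam P) (a b : ℕ) (x : PS P) (T : ℕ → ℕ) : PS P := fun k =>
  if a ≤ F.cls k ∧ F.cls k < b then (F.C (F.cls k)).dec x (T (F.cls k)) k else x k

/-- the reversal of the word -/
def rev (F : Fam P) (x : PS P) : PS P :=
  F.sdec 0 F.K x fun g => dcd (F.ys x) (F.ls x) F.K (QQ (F.ys x) (F.ls x) F.K) g

/-- the value of the word -/
def zz (F : Fam P) (x : PS P) : ℤ := SZ (F.ys x) (F.ls x) 0 F.K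

/-- number of pairs with different states -/
def pd (x x' : PS P) : ℕ := (univ.filter fun k => x k ≠ x' k).card

/-- properties of one block -/
structure BlkOK (F : Fam P) (jj : ℕ) (ε : ℝ) (g : ℕ) : Prop where
  m_pos : 0 < F.m g
  dec_off : ∀ x t k, F.cls k ≠ g → (F.C g).dec x t k = x k
  loc : ∀ x x' : PS P, (∀ k, F.cls k = g → x k = x' k) →
    (F.C g).y x = (F.C g).y x' ∧ (F.C g).l x = (F.C g).l x' ∧ (F.frz g x ↔ F.frz g x') ∧
    F.nu g x = F.nu g x' ∧
    (∀ t k, F.cls k = g → (F.C g).dec x t k = (F.C g).dec x' t k)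
  frz_dec : ∀ x t, F.frz g ((F.C g).dec x t) ↔ F.frz g x
  type_dec : ∀ x t k, ((F.C g).dec x t k).1 = (x k).1
  val_frz : ∀ x, F.frz g x → (F.C g).y x = 0 ∧ (F.C g).l x = 0
  val : ∀ x, ¬ F.frz g x →
    ((F.C g).l x : ℤ) - 2 * (F.C g).y x = F.m g * F.vs g x + (F.m g - 1 - 2 * (F.nu g x : ℤ))
  nu_lt : ∀ x, ¬ F.frz g x → F.nu g x < F.m g
  pert : ∀ x x' k0, F.cls k0 = g → (∀ k ≠ k0, x' k = x k) → ¬ F.frz g x → ¬ F.frz g x' →
    |((F.C g).y x' : ℤ) - (F.C g).y x| ≤ 20 * F.m g ∧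
    |((F.C g).l x' : ℤ) - (F.C g).l x| ≤ 20 * F.m g
  lip : ∀ x x' k0 t t', F.cls k0 = g → (∀ k ≠ k0, x' k = x k) → ¬ F.frz g x → ¬ F.frz g x' →
    t ≤ (F.C g).l x → t' ≤ (F.C g).l x' →
    (F.m g : ℤ) * (univ.filter fun k => F.cls k = g ∧ (F.C g).dec x' t' k ≠ (F.C g).dec x t k).card ≤
      300 * (F.m g * (jj + 1) + |(t' : ℤ) - t|)
  neutral : ∀ x x' : PS P, (∀ k, F.cls k = g → (x k).1 = (x' k).1) →
    (∀ k, F.cls k = g → (x k).1 = false → x k = x' k) →
    (F.frz g x ↔ F.frz g x') ∧ F.nu g x = F.nu g x'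
  setn_spec : ∀ t < F.m g, ∀ x, ¬ F.frz g x →
    ¬ F.frz g (F.setn g t x) ∧ F.nu g (F.setn g t x) = t ∧
    (∀ k, F.cls k ≠ g → F.setn g t x k = x k) ∧
    (∀ k, (F.setn g t x k).1 = (x k).1) ∧ (∀ k, (x k).1 = true → F.setn g t x k = x k) ∧
    pd (F.setn g t x) x ≤ jj ∧
    (∀ t' < F.m g, F.setn g t' (F.setn g t x) = F.setn g t' x) ∧
    F.setn g (F.nu g x) x = x
  froz : ∀ x, ccnt (F.blk g) (F.frz g) x ≤ ε * 4 ^ F.siz g

/-- standing hypotheses on the word -/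
structure OK (F : Fam P) (jj : ℕ) (ε : ℝ) : Prop where
  hε : 0 ≤ ε
  blk : ∀ g < F.K, BlkOK F jj ε g

end Fam

end BLO
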