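import Pool.Agent.Lib.BLO.Fam

/-!
# Chunk FW: the reversal of the word (port of `BLP/Word.lean` to families of local chains)

Everything is pointwise: on the pairs of block `g`, `sdec a b x T` is `(C g).dec x (T g)`; by
locality (`BlkOK.loc`) `(C g).y (sdec a b x T) = min (T g) ((C g).l x)`, `(C g).l` is unchanged, and decoding twice is
decoding once.  The array facts are in `BLP/Rec.lean` (`dcd_inv`, `dcd_dcd`, `dcd_self`, `dcd_le`).
-/

namespace BLO

open Finset BLP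

variable {P : Type*} [Fintype P] [DecidableEq P]

namespace Fam

theorem ys_le (F : Fam P) (x : PS P) (g : ℕ) : F.ys x g ≤ F.ls x g := by
  unfold ys ls
  split_ifs
  · exact (F.C g).y_le x
  · exact le_rfl

variable {F : Fam P} {jj : ℕ} {ε : ℝ}

omit [Fintype P] [DecidableEq P] in
theorem ys_lt (F : Fam P) (x : PS P) {g : ℕ} (hg : g < F.K) : F.ys x g = (F.C g).y x := by
  unfold ys
  rw [if_pos hg]

omit [Fintype P] [DecidableEq P] in
theorem ls_lt (F : Fam P) (x : PS P) {g : ℕ} (hg : g < F.K) : F.ls x g = (F.C g).l x := by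
  unfold ls
  rw [if_pos hg]

omit [Fintype P] [DecidableEq P] in
theorem sdec_in (F : Fam P) (a b : ℕ) (x : PS P) (T : ℕ → ℕ) {g : ℕ} (h1 : a ≤ g) (h2 : g < b)
    (k : P) (hk : F.cls k = g) : F.sdec a b x T k = (F.C g).dec x (T g) k := by
  subst hk
  unfold sdec
  rw [if_pos ⟨h1, h2⟩]

omit [Fintype P] [DecidableEq P] in
theorem sdec_out (F : Fam P) (a b : ℕ) (x : PS P) (T : ℕ → ℕ) {g : ℕ} (h : ¬ (a ≤ g ∧ g < b))
    (k : P) (hk : F.cls k = g) : F.sdec a b x T k = x k := by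
  subst hk
  unfold sdec
  rw [if_neg h]

theorem ys_sdec (hF : F.OK jj ε) (a b : ℕ) (hb : b ≤ F.K) (x : PS P) (T : ℕ → ℕ) (g : ℕ) :
    F.ys (F.sdec a b x T) g = (if a ≤ g ∧ g < b then min (T g) (F.ls x g) else F.ys x g) ∧
    F.ls (F.sdec a b x T) g = F.ls x g ∧ (g < F.K → (F.frz g (F.sdec a b x T) ↔ F.frz g x)) := by
  by_cases hgb : a ≤ g ∧ g < b
  · have hg : g < F.K := by omega
    obtain ⟨l1, l2, l3, -, -⟩ := (hF.blk g hg).loc (F.sdec a b x T) ((F.C g).dec x (T g))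
      (fun k hk => F.sdec_in a b x T hgb.1 hgb.2 k hk)
    rw [if_pos hgb, F.ys_lt _ hg, F.ls_lt _ hg, F.ls_lt _ hg, l1, l2, (F.C g).y_dec,
      (F.C g).l_dec]
    exact ⟨rfl, rfl, fun _ => l3.trans ((hF.blk g hg).frz_dec x (T g))⟩
  · rw [if_neg hgb]
    by_cases hg : g < F.K
    · obtain ⟨l1, l2, l3, -, -⟩ := (hF.blk g hg).loc (F.sdec a b x T) x
        (fun k hk => F.sdec_out a b x T hgb k hk)
      rw [F.ys_lt _ hg, F.ls_lt _ hg, F.ls_lt _ hg, F.ys_lt _ hg]
      exact ⟨l1, l2, fun _ => l3⟩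
    · unfold ys ls
      simp [hg]

theorem sdec_sdec (hF : F.OK jj ε) (a b : ℕ) (hb : b ≤ F.K) (x : PS P) (T T' : ℕ → ℕ) :
    F.sdec a b (F.sdec a b x T) T' = F.sdec a b x T' := by
  funext k
  by_cases hk : a ≤ F.cls k ∧ F.cls k < b
  · obtain ⟨-, -, -, -, l5⟩ := (hF.blk (F.cls k) (by omega)).loc (F.sdec a b x T)
      ((F.C (F.cls k)).dec x (T (F.cls k)))
      (fun j hj => F.sdec_in a b x T hk.1 hk.2 j hj)
    rw [F.sdec_in a b _ T' hk.1 hk.2 k rfl, F.sdec_in a b _ T' hk.1 hk.2 k rfl, l5 _ k rfl,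
      (F.C (F.cls k)).dec_dec]
  · rw [F.sdec_out a b _ T' hk k rfl, F.sdec_out a b _ T' hk k rfl, F.sdec_out a b _ T hk k rfl]

theorem sdec_self (a b : ℕ) (hb : b ≤ F.K) (x : PS P) : F.sdec a b x (F.ys x) = x := by
  funext k
  by_cases hk : a ≤ F.cls k ∧ F.cls k < b
  · rw [F.sdec_in a b _ _ hk.1 hk.2 k rfl, F.ys_lt x (by omega), (F.C (F.cls k)).dec_y]
  · rw [F.sdec_out a b _ _ hk k rfl]

/-- only the targets `min (T g) (l g)` matter -/
theorem sdec_congr (a b : ℕ) (hb : b ≤ F.K) (x : PS P) (T T' : ℕ → ℕ)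
    (h : ∀ g, a ≤ g → g < b → min (T g) (F.ls x g) = min (T' g) (F.ls x g)) :
    F.sdec a b x T = F.sdec a b x T' := by
  funext k
  by_cases hk : a ≤ F.cls k ∧ F.cls k < b
  · have h1 := h (F.cls k) hk.1 hk.2
    rw [F.ls_lt x (by omega)] at h1
    rw [F.sdec_in a b _ _ hk.1 hk.2 k rfl, F.sdec_in a b _ _ hk.1 hk.2 k rfl, dec_min, h1,
      ← dec_min]
  · rw [F.sdec_out a b _ _ hk k rfl, F.sdec_out a b _ _ hk k rfl]

/-! ### the subword chain -/

/-- the targets of the decoding of a subword -/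
def stg (F : Fam P) (a b : ℕ) (x : PS P) (T : ℕ) (g : ℕ) : ℕ :=
  dcd (sh a (F.ys x)) (sh a (F.ls x)) (b - a)
    (min T (SP (F.ys x) (F.ls x) a b + SQ (F.ys x) (F.ls x) a b)) (g - a)

omit [Fintype P] [DecidableEq P] in
theorem sh_ys_le (F : Fam P) (x : PS P) (a j : ℕ) : sh a (F.ys x) j ≤ sh a (F.ls x) j := by
  unfold sh ys ls
  split_ifs
  · exact (F.C _).y_le x
  · exact le_rfl

omit [Fintype P] [DecidableEq P] in
theorem stg_le (F : Fam P) (a b : ℕ) (x : PS P) (T : ℕ) (g : ℕ) (h1 : a ≤ g) (h2 : g < b) :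
    F.stg a b x T g ≤ F.ls x g := by
  unfold stg
  have h := dcd_le (sh a (F.ys x)) (sh a (F.ls x)) (b - a)
    (min T (SP (F.ys x) (F.ls x) a b + SQ (F.ys x) (F.ls x) a b))
    (fun j _ => F.sh_ys_le x a j) (min_le_right _ _) (g - a) (by omega)
  have e : sh a (F.ls x) (g - a) = F.ls x g := by
    unfold sh
    rw [Nat.add_sub_cancel' h1]
  rwa [e] at h

theorem sh_sdec (hF : F.OK jj ε) (a b : ℕ) (hb : b ≤ F.K) (x : PS P) (T : ℕ) (j : ℕ)
    (hj : j < b - a) :
    sh a (F.ys (F.sdec a b x (F.stg a b x T))) j =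
      dcd (sh a (F.ys x)) (sh a (F.ls x)) (b - a)
        (min T (SP (F.ys x) (F.ls x) a b + SQ (F.ys x) (F.ls x) a b)) j ∧
    sh a (F.ls (F.sdec a b x (F.stg a b x T))) j = sh a (F.ls x) j := by
  obtain ⟨h1, h2, -⟩ := ys_sdec hF a b hb x (F.stg a b x T) (a + j)
  have h3 := F.stg_le a b x T (a + j) (by omega) (by omega)
  rw [if_pos ⟨by omega, by omega⟩, min_eq_left h3] at h1
  refine ⟨?_, h2⟩
  change F.ys (F.sdec a b x (F.stg a b x T)) (a + j) = _
  rw [h1]
  unfold stg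
  rw [Nat.add_sub_cancel_left]

theorem SP_sdec (hF : F.OK jj ε) (a b : ℕ) (hb : b ≤ F.K) (x : PS P) (T : ℕ) :
    SP (F.ys (F.sdec a b x (F.stg a b x T))) (F.ls (F.sdec a b x (F.stg a b x T))) a b =
      min T (SP (F.ys x) (F.ls x) a b + SQ (F.ys x) (F.ls x) a b) := by
  unfold SP
  rw [PP_congr (fun g hg => (sh_sdec hF a b hb x T g hg).1)
    (fun g hg => (sh_sdec hF a b hb x T g hg).2)]
  exact (dcd_inv (sh a (F.ys x)) (sh a (F.ls x)) (b - a) _ (fun j _ => F.sh_ys_le x a j)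
    (min_le_right _ _)).2.2.2

theorem SPQ_sdec (hF : F.OK jj ε) (a b : ℕ) (hb : b ≤ F.K) (x : PS P) (T : ℕ) :
    SP (F.ys (F.sdec a b x (F.stg a b x T))) (F.ls (F.sdec a b x (F.stg a b x T))) a b +
      SQ (F.ys (F.sdec a b x (F.stg a b x T))) (F.ls (F.sdec a b x (F.stg a b x T))) a b =
      SP (F.ys x) (F.ls x) a b + SQ (F.ys x) (F.ls x) a b := by
  unfold SP SQ
  rw [PP_congr (fun g hg => (sh_sdec hF a b hb x T g hg).1)
      (fun g hg => (sh_sdec hF a b hb x T g hg).2),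
    QQ_congr (fun g hg => (sh_sdec hF a b hb x T g hg).1)
      (fun g hg => (sh_sdec hF a b hb x T g hg).2)]
  exact (dcd_inv (sh a (F.ys x)) (sh a (F.ls x)) (b - a) _ (fun j _ => F.sh_ys_le x a j)
    (min_le_right _ _)).1 (b - a) le_rfl

theorem stg_stg (hF : F.OK jj ε) (a b : ℕ) (hb : b ≤ F.K) (x : PS P) (T T' : ℕ) :
    F.sdec a b (F.sdec a b x (F.stg a b x T)) (F.stg a b (F.sdec a b x (F.stg a b x T)) T') =
      F.sdec a b x (F.stg a b x T') := by
  rw [sdec_sdec hF a b hb]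
  refine sdec_congr a b hb x _ _ fun g h1 h2 => ?_
  have e := SPQ_sdec hF a b hb x T
  have h3 : F.stg a b (F.sdec a b x (F.stg a b x T)) T' g = F.stg a b x T' g := by
    have h4 := dcd_congr (fun g hg => (sh_sdec hF a b hb x T g hg).1)
      (fun g hg => (sh_sdec hF a b hb x T g hg).2)
      (min T' (SP (F.ys x) (F.ls x) a b + SQ (F.ys x) (F.ls x) a b)) (g - a)
      (show g - a < b - a by omega)
    have h5 := dcd_dcd (sh a (F.ys x)) (sh a (F.ls x)) (b - a)
      (min T (SP (F.ys x) (F.ls x) a b + SQ (F.ys x) (F.ls x) a b))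
      (min T' (SP (F.ys x) (F.ls x) a b + SQ (F.ys x) (F.ls x) a b))
      (fun j _ => F.sh_ys_le x a j)
      (min_le_right _ _) (min_le_right _ _) (g - a) (by omega)
    have h6 := h4.trans h5
    change dcd (sh a (F.ys (F.sdec a b x (F.stg a b x T))))
      (sh a (F.ls (F.sdec a b x (F.stg a b x T)))) (b - a)
      (min T' (SP (F.ys (F.sdec a b x (F.stg a b x T))) (F.ls (F.sdec a b x (F.stg a b x T))) a b +
        SQ (F.ys (F.sdec a b x (F.stg a b x T))) (F.ls (F.sdec a b x (F.stg a b x T))) a b))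
      (g - a) = dcd (sh a (F.ys x)) (sh a (F.ls x)) (b - a)
      (min T' (SP (F.ys x) (F.ls x) a b + SQ (F.ys x) (F.ls x) a b)) (g - a)
    rw [e]
    exact h6
  rw [h3]

theorem stg_self (a b : ℕ) (hb : b ≤ F.K) (x : PS P) :
    F.sdec a b x (F.stg a b x (SP (F.ys x) (F.ls x) a b)) = x := by
  have h : F.sdec a b x (F.stg a b x (SP (F.ys x) (F.ls x) a b)) = F.sdec a b x (F.ys x) := by
    refine sdec_congr a b hb x _ _ fun g h1 h2 => ?_
    have h3 : F.stg a b x (SP (F.ys x) (F.ls x) a b) g = F.ys x g := by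
      unfold stg
      rw [min_eq_left (Nat.le_add_right _ _)]
      unfold SP
      rw [dcd_self (sh a (F.ys x)) (sh a (F.ls x)) (b - a) (fun j _ => F.sh_ys_le x a j) (g - a)
        (by omega)]
      unfold sh
      rw [Nat.add_sub_cancel' h1]
    rw [h3]
  rw [h, sdec_self a b hb]

/-- the chain of the blocks `a ≤ g < b` -/
def segChain (hF : F.OK jj ε) (a b : ℕ) (hb : b ≤ F.K) : Chain (PS P) where
  y x := SP (F.ys x) (F.ls x) a b
  l x := SP (F.ys x) (F.ls x) a b + SQ (F.ys x) (F.ls x) a b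
  dec x T := F.sdec a b x (F.stg a b x T)
  y_le x := Nat.le_add_right _ _
  y_dec := fun x T => SP_sdec hF a b hb x T
  l_dec := fun x T => SPQ_sdec hF a b hb x T
  dec_dec := fun x T T' => stg_stg hF a b hb x T T'
  dec_y := fun x => stg_self a b hb x

/-! ### the reversal -/

omit [Fintype P] [DecidableEq P] in
/-- the targets of the reversal -/
theorem rev_tgt (F : Fam P) (x : PS P) : (fun g => dcd (F.ys x) (F.ls x) F.K
    (QQ (F.ys x) (F.ls x) F.K) g) = F.stg 0 F.K x (QQ (F.ys x) (F.ls x) F.K) := by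
  funext g
  unfold stg
  rw [SP_zero, SQ_zero, min_eq_left (Nat.le_add_left _ _), sh_zero, sh_zero, Nat.sub_zero,
    Nat.sub_zero]

theorem rev_eq (hF : F.OK jj ε) (x : PS P) :
    F.rev x = (segChain hF 0 F.K le_rfl).dec x (QQ (F.ys x) (F.ls x) F.K) := by
  unfold rev
  rw [rev_tgt F x]
  rfl

theorem PP_rev (hF : F.OK jj ε) (x : PS P) :
    PP (F.ys (F.rev x)) (F.ls (F.rev x)) F.K = QQ (F.ys x) (F.ls x) F.K := by
  have h := (segChain hF 0 F.K le_rfl).y_dec x (QQ (F.ys x) (F.ls x) F.K)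
  rw [← rev_eq hF x] at h
  change SP (F.ys (F.rev x)) (F.ls (F.rev x)) 0 F.K =
    min _ (SP (F.ys x) (F.ls x) 0 F.K + SQ (F.ys x) (F.ls x) 0 F.K) at h
  rw [SP_zero, SP_zero, SQ_zero, min_eq_left (Nat.le_add_left _ _)] at h
  exact h

theorem QQ_rev (hF : F.OK jj ε) (x : PS P) :
    QQ (F.ys (F.rev x)) (F.ls (F.rev x)) F.K = PP (F.ys x) (F.ls x) F.K := by
  have h := (segChain hF 0 F.K le_rfl).l_dec x (QQ (F.ys x) (F.ls x) F.K)
  rw [← rev_eq hF x] at h
  change SP (F.ys (F.rev x)) (F.ls (F.rev x)) 0 F.K + SQ (F.ys (F.rev x)) (F.ls (F.rev x)) 0 F.K =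
    SP (F.ys x) (F.ls x) 0 F.K + SQ (F.ys x) (F.ls x) 0 F.K at h
  rw [SP_zero, SP_zero, SQ_zero, SQ_zero, PP_rev hF x] at h
  omega

theorem rev_rev (hF : F.OK jj ε) (x : PS P) : F.rev (F.rev x) = x := by
  rw [rev_eq hF (F.rev x), QQ_rev hF x, rev_eq hF x, (segChain hF 0 F.K le_rfl).dec_dec]
  have h := (segChain hF 0 F.K le_rfl).dec_y x
  change (segChain hF 0 F.K le_rfl).dec x (SP (F.ys x) (F.ls x) 0 F.K) = x at h
  rwa [SP_zero] at h

theorem zz_rev (hF : F.OK jj ε) (x : PS P) : F.zz (F.rev x) = - F.zz x := by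
  unfold zz
  rw [← SQ_sub_SP _ _ (fun g => F.ys_le (F.rev x) g) (Nat.zero_le _),
    ← SQ_sub_SP _ _ (fun g => F.ys_le x g) (Nat.zero_le _), SP_zero, SQ_zero, SP_zero, SQ_zero,
    PP_rev hF, QQ_rev hF]
  ring

theorem rev_off (x : PS P) (k : P) (hk : F.K ≤ F.cls k) : F.rev x k = x k := by
  unfold rev sdec
  rw [if_neg (by omega)]

/-- value of the word if no block is frozen -/
theorem zz_val (hF : F.OK jj ε) (a b : ℕ) (hab : a ≤ b) (hb : b ≤ F.K) (x : PS P)
    (hx : ∀ g, a ≤ g → g < b → ¬ F.frz g x) :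
    SZ (F.ys x) (F.ls x) a b =
      ∑ g ∈ Ico a b, ((F.m g : ℤ) * F.vs g x + (F.m g - 1 - 2 * (F.nu g x : ℤ))) := by
  unfold SZ
  refine Finset.sum_congr rfl fun g hg => ?_
  rw [Finset.mem_Ico] at hg
  rw [F.ys_lt x (by omega), F.ls_lt x (by omega)]
  exact (hF.blk g (by omega)).val x (hx g hg.1 hg.2)

/-- the subword of the blocks `a ≤ g < b` is a chain decomposition of `PS P`: position = unmatched
minus letters, length = all unmatched letters (`dec x T` = `sdec a b x (the dcd of the shifted arrays)`) -/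
theorem subChain (hF : F.OK jj ε) (a b : ℕ) (hab : a ≤ b) (hb : b ≤ F.K) :
    ∃ C : Chain (PS P), (∀ x, C.y x = SP (F.ys x) (F.ls x) a b) ∧
      (∀ x, C.l x = SP (F.ys x) (F.ls x) a b + SQ (F.ys x) (F.ls x) a b) ∧
      ∀ x t k, ¬ (a ≤ F.cls k ∧ F.cls k < b) → C.dec x t k = x k := by
  refine ⟨segChain hF a b hb, fun x => rfl, fun x => rfl, fun x t k hk => ?_⟩
  exact F.sdec_out a b x _ hk k rfl

/-- arrays of a point and locality -/
theorem arr_loc (hF : F.OK jj ε) (x x' : PS P) (g : ℕ) (h : ∀ k, F.cls k = g → x k = x' k) :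
    F.ys x g = F.ys x' g ∧ F.ls x g = F.ls x' g := by
  by_cases hg : g < F.K
  · obtain ⟨l1, l2, -⟩ := (hF.blk g hg).loc x x' h
    rw [F.ys_lt x hg, F.ys_lt x' hg, F.ls_lt x hg, F.ls_lt x' hg]
    exact ⟨l1, l2⟩
  · unfold ys ls
    simp [hg]

omit [DecidableEq P] in
/-- counting by blocks -/
theorem card_blocks (F : Fam P) (Q : P → Prop) [DecidablePred Q]
    (hQ : ∀ k, Q k → F.cls k < F.K) :
    ((univ.filter Q).card : ℝ) =
      ∑ g ∈ range F.K, ((univ.filter fun k => F.cls k = g ∧ Q k).card : ℝ) := by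
  rw [Finset.card_eq_sum_card_fiberwise (f := F.cls) (t := range F.K)]
  · push_cast
    refine Finset.sum_congr rfl fun g _ => ?_
    congr 2
    ext k
    simp only [Finset.mem_filter, Finset.mem_univ, true_and]
    exact and_comm
  · intro k hk
    simp only [Finset.coe_filter, Finset.mem_univ, true_and, Set.mem_ofPred_eq] at hk
    simp only [Finset.coe_range, Set.mem_Iio]
    exact hQ k hk

/-- real form of `lip` -/
theorem lipR (hF : F.OK jj ε) {g : ℕ} (hg : g < F.K) (x x' : PS P) (k0 : P) (t t' : ℕ)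
    (hk0 : F.cls k0 = g) (hx : ∀ k ≠ k0, x' k = x k) (hf : ¬ F.frz g x) (hf' : ¬ F.frz g x')
    (ht : t ≤ (F.C g).l x) (ht' : t' ≤ (F.C g).l x') :
    ((univ.filter fun k => F.cls k = g ∧ (F.C g).dec x' t' k ≠ (F.C g).dec x t k).card : ℝ) ≤
      300 * ((jj : ℝ) + 1 + |(t' : ℝ) - t| / F.m g) := by
  have h := (hF.blk g hg).lip x x' k0 t t' hk0 hx hf hf' ht ht'
  have hm : (0 : ℝ) < F.m g := by exact_mod_cast (hF.blk g hg).m_pos
  have h' : (F.m g : ℝ) *
      ((univ.filter fun k => F.cls k = g ∧ (F.C g).dec x' t' k ≠ (F.C g).dec x t k).card : ℝ) ≤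
      300 * (F.m g * (jj + 1) + |(t' : ℝ) - t|) := by
    exact_mod_cast h
  have h2 : 300 * ((jj : ℝ) + 1 + |(t' : ℝ) - t| / F.m g) =
      (300 * (F.m g * (jj + 1) + |(t' : ℝ) - t|)) / F.m g := by
    field_simp
  rw [h2, le_div_iff₀ hm]
  linarith

/-- change of one pair: cost of the reversal in terms of the arrays; `GG`, `GG` of the mirror
image are the positions after the reversal -/
theorem rev_cost (hF : F.OK jj ε) (x x' : PS P) (k0 : P) (hk : F.cls k0 < F.K)
    (h : ∀ k ≠ k0, x' k = x k) (hf : ¬ F.frz (F.cls k0) x) (hf' : ¬ F.frz (F.cls k0) x') :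
    (pd (F.rev x) (F.rev x') : ℝ) ≤ 1 + ∑ g ∈ range F.K,
      (if dcd (F.ys x) (F.ls x) F.K (QQ (F.ys x) (F.ls x) F.K) g ≠
          dcd (F.ys x') (F.ls x') F.K (QQ (F.ys x') (F.ls x') F.K) g ∨ g = F.cls k0 then
        300 * ((jj : ℝ) + 1 +
          |(dcd (F.ys x) (F.ls x) F.K (QQ (F.ys x) (F.ls x) F.K) g : ℝ) -
            dcd (F.ys x') (F.ls x') F.K (QQ (F.ys x') (F.ls x') F.K) g| / F.m g) else 0) := by
  have hle : ∀ (z : PS P) (g : ℕ), g < F.K →
      dcd (F.ys z) (F.ls z) F.K (QQ (F.ys z) (F.ls z) F.K) g ≤ (F.C g).l z := by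
    intro z g hg
    have := dcd_le (F.ys z) (F.ls z) F.K (QQ (F.ys z) (F.ls z) F.K) (fun j _ => F.ys_le z j)
      (Nat.le_add_left _ _) g hg
    rwa [F.ls_lt z hg] at this
  have hoff : ∀ k, F.rev x k ≠ F.rev x' k → F.cls k < F.K := by
    intro k hne
    by_contra hK
    apply hne
    rw [rev_off x k (by omega), rev_off x' k (by omega), h k (fun e => hK (e ▸ hk))]
  unfold pd
  rw [card_blocks F (fun k => F.rev x k ≠ F.rev x' k) hoff]
  have key : ∀ g ∈ range F.K,
      ((univ.filter fun k => F.cls k = g ∧ F.rev x k ≠ F.rev x' k).card : ℝ) ≤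
      (if dcd (F.ys x) (F.ls x) F.K (QQ (F.ys x) (F.ls x) F.K) g ≠
          dcd (F.ys x') (F.ls x') F.K (QQ (F.ys x') (F.ls x') F.K) g ∨ g = F.cls k0 then
        300 * ((jj : ℝ) + 1 +
          |(dcd (F.ys x) (F.ls x) F.K (QQ (F.ys x) (F.ls x) F.K) g : ℝ) -
            dcd (F.ys x') (F.ls x') F.K (QQ (F.ys x') (F.ls x') F.K) g| / F.m g) else 0) := by
    intro g hg
    rw [Finset.mem_range] at hg
    have hset : (univ.filter fun k => F.cls k = g ∧ F.rev x k ≠ F.rev x' k) =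
        univ.filter fun k => F.cls k = g ∧
          (F.C g).dec x (dcd (F.ys x) (F.ls x) F.K (QQ (F.ys x) (F.ls x) F.K) g) k ≠
          (F.C g).dec x' (dcd (F.ys x') (F.ls x') F.K (QQ (F.ys x') (F.ls x') F.K) g) k := by
      refine Finset.filter_congr fun k _ => and_congr_right fun hkg => ?_
      have e1 : F.rev x k = _ := F.sdec_in 0 F.K x _ (Nat.zero_le g) hg k hkg
      have e2 : F.rev x' k = _ := F.sdec_in 0 F.K x' _ (Nat.zero_le g) hg k hkg
      rw [e1, e2]
    rw [hset]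
    have hl1 := hle x g hg
    have hl2 := hle x' g hg
    generalize dcd (F.ys x) (F.ls x) F.K (QQ (F.ys x) (F.ls x) F.K) g = t at hl1 ⊢
    generalize dcd (F.ys x') (F.ls x') F.K (QQ (F.ys x') (F.ls x') F.K) g = t' at hl2 ⊢
    by_cases hgk : g = F.cls k0
    · rw [if_pos (Or.inr hgk)]
      have := lipR hF hg x' x k0 t' t hgk.symm (fun k hkk => (h k hkk).symm)
        (hgk ▸ hf') (hgk ▸ hf) hl2 hl1
      exact this
    · have hagree : ∀ k, F.cls k = g → x k = x' k := fun k hkg =>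
        (h k (fun e => hgk (e ▸ hkg.symm))).symm
      obtain ⟨l1, l2, l3, -, l5⟩ := (hF.blk g hg).loc x x' hagree
      have hset2 : (univ.filter fun k => F.cls k = g ∧ (F.C g).dec x t k ≠ (F.C g).dec x' t' k) =
          univ.filter fun k => F.cls k = g ∧ (F.C g).dec x t k ≠ (F.C g).dec x t' k := by
        refine Finset.filter_congr fun k _ => and_congr_right fun hkg => ?_
        rw [l5 t' k hkg]
      rw [hset2]
      by_cases htt : t = t'
      · have hem : (univ.filter fun k => F.cls k = g ∧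
            (F.C g).dec x t k ≠ (F.C g).dec x t' k) = ∅ := by
          refine Finset.filter_eq_empty_iff.mpr fun k _ hc => hc.2 ?_
          rw [htt]
        rw [hem]
        simp [htt, hgk]
      · rw [if_pos (Or.inl htt)]
        have hfz : ¬ F.frz g x := by
          intro hfr
          have h1 := ((hF.blk g hg).val_frz x hfr).2
          have h2 := ((hF.blk g hg).val_frz x' (l3.mp hfr)).2
          omega
        by_cases hne : ∃ k1, F.cls k1 = g
        · obtain ⟨k1, hk1⟩ := hne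
          exact lipR hF hg x x k1 t' t hk1 (fun _ _ => rfl) hfz hfz (by rw [l2]; exact hl2) hl1
        · have hem : (univ.filter fun k => F.cls k = g ∧
              (F.C g).dec x t k ≠ (F.C g).dec x t' k) = ∅ := by
            refine Finset.filter_eq_empty_iff.mpr fun k _ hc => hne ⟨k, hc.1⟩
          rw [hem, Finset.card_empty, Nat.cast_zero]
          positivity
  have := Finset.sum_le_sum key
  linarith

/-- displacement of the reversal in terms of the arrays (frozen blocks do not move) -/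
theorem rev_disp (hF : F.OK jj ε) (x : PS P) :
    (pd x (F.rev x) : ℝ) ≤ ∑ g ∈ range F.K,
      (if dcd (F.ys x) (F.ls x) F.K (QQ (F.ys x) (F.ls x) F.K) g ≠ F.ys x g then
        300 * ((jj : ℝ) + 1 + (F.ls x g : ℝ) / F.m g) else 0) := by
  have hoff : ∀ k, x k ≠ F.rev x k → F.cls k < F.K := by
    intro k hne
    by_contra hK
    apply hne
    rw [rev_off x k (by omega)]
  unfold pd
  rw [card_blocks F (fun k => x k ≠ F.rev x k) hoff]
  refine Finset.sum_le_sum fun g hg => ?_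
  rw [Finset.mem_range] at hg
  have hset : (univ.filter fun k => F.cls k = g ∧ x k ≠ F.rev x k) =
      univ.filter fun k => F.cls k = g ∧
        (F.C g).dec x (F.ys x g) k ≠
        (F.C g).dec x (dcd (F.ys x) (F.ls x) F.K (QQ (F.ys x) (F.ls x) F.K) g) k := by
    refine Finset.filter_congr fun k _ => and_congr_right fun hkg => ?_
    have e1 : F.rev x k = _ := F.sdec_in 0 F.K x _ (Nat.zero_le g) hg k hkg
    rw [e1, F.ys_lt x hg, (F.C g).dec_y]
  rw [hset]
  have hl1 := dcd_le (F.ys x) (F.ls x) F.K (QQ (F.ys x) (F.ls x) F.K) (fun j _ => F.ys_le x j)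
    (Nat.le_add_left _ _) g hg
  have hl2 := F.ys_le x g
  generalize dcd (F.ys x) (F.ls x) F.K (QQ (F.ys x) (F.ls x) F.K) g = t at hl1 ⊢
  generalize F.ys x g = t' at hl2 ⊢
  by_cases htt : t = t'
  · have hem : (univ.filter fun k => F.cls k = g ∧
        (F.C g).dec x t' k ≠ (F.C g).dec x t k) = ∅ := by
      refine Finset.filter_eq_empty_iff.mpr fun k _ hc => hc.2 ?_
      rw [htt]
    rw [hem]
    simp [htt]
  · rw [if_pos htt]
    rw [F.ls_lt x hg] at hl1 hl2 ⊢
    have hfz : ¬ F.frz g x := by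
      intro hfr
      have h1 := ((hF.blk g hg).val_frz x hfr).2
      omega
    by_cases hne : ∃ k1, F.cls k1 = g
    · obtain ⟨k1, hk1⟩ := hne
      have h1 := lipR hF hg x x k1 t t' hk1 (fun _ _ => rfl) hfz hfz hl1 hl2
      have hm : (0 : ℝ) < F.m g := by exact_mod_cast (hF.blk g hg).m_pos
      have h2 : |(t' : ℝ) - t| ≤ ((F.C g).l x : ℝ) := by
        have a1 : (t : ℝ) ≤ ((F.C g).l x : ℝ) := by exact_mod_cast hl1
        have a2 : (t' : ℝ) ≤ ((F.C g).l x : ℝ) := by exact_mod_cast hl2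
        have a3 : (0 : ℝ) ≤ t := Nat.cast_nonneg t
        have a4 : (0 : ℝ) ≤ t' := Nat.cast_nonneg t'
        rw [abs_le]
        constructor <;> linarith
      have h3 : |(t' : ℝ) - t| / F.m g ≤ ((F.C g).l x : ℝ) / F.m g :=
        div_le_div_of_nonneg_right h2 hm.le
      linarith
    · have hem : (univ.filter fun k => F.cls k = g ∧
          (F.C g).dec x t' k ≠ (F.C g).dec x t k) = ∅ := by
        refine Finset.filter_eq_empty_iff.mpr fun k _ hc => hne ⟨k, hc.1⟩
      rw [hem, Finset.card_empty, Nat.cast_zero]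
      positivity

end Fam

end BLO
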