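import Pool.Agent.Lib.BLO.Loz

/-!
# Chunk PR2: the position in the chain of a subword is uniform

`Chain.fiber` (BLP/Word) for the chain of `subChain` (restricted to the points that agree with `x` outside
`seg a b`: all points of a chain of `subChain` agree there), `SQ = l - y`; and `loz` for the values `0, 1`
(window `|Z - 1/2| ≤ 1/2`).  For `SP = y` use the mirror chain (`y ↔ l - y`, `dec x t ↔ dec x (l - t)`).
The number of integers in a window of radius `u` is at most `2u + 1`.
-/

namespace BLO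

open Finset BLP

variable {P : Type*} [Fintype P] [DecidableEq P]

/-- mirror chain -/
def fbMir {X : Type*} (C : Chain X) : Chain X where
  y x := C.l x - C.y x
  l x := C.l x
  dec x t := C.dec x (C.l x - t)
  y_le x := Nat.sub_le _ _
  y_dec x t := by
    rw [C.l_dec, C.y_dec]
    omega
  l_dec x t := C.l_dec _ _
  dec_dec x t t' := by
    rw [C.dec_dec, C.l_dec]
  dec_y x := by
    rw [Nat.sub_sub_self (C.y_le x), C.dec_y]

/-- restriction of a chain to a closed set -/
def fbSub {X : Type*} (C : Chain X) (p : X → Prop) (hp : ∀ x t, p x → p (C.dec x t)) :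
    Chain {x // p x} where
  y x := C.y x
  l x := C.l x
  dec x t := ⟨C.dec x t, hp x t x.2⟩
  y_le _ := C.y_le _
  y_dec _ _ := C.y_dec _ _
  l_dec _ _ := C.l_dec _ _
  dec_dec _ _ _ := Subtype.ext (C.dec_dec _ _ _)
  dec_y _ := Subtype.ext (C.dec_y _)

/-- counting on a closed set -/
theorem fb_card {X : Type*} [Fintype X] [DecidableEq X] (p q : X → Prop) [DecidablePred p]
    [DecidablePred q] :
    (univ.filter fun x : {x // p x} => q x).card = (univ.filter fun x => p x ∧ q x).card := by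
  rw [← Finset.card_map (Function.Embedding.subtype p)]
  congr 1
  ext x
  simp only [Finset.mem_map, Finset.mem_filter, Finset.mem_univ, true_and,
    Function.Embedding.coe_subtype, Subtype.exists, exists_and_right, exists_eq_right]
  constructor
  · rintro ⟨h1, h2⟩
    exact ⟨h1, h2⟩
  · rintro ⟨h1, h2⟩
    exact ⟨h1, h2⟩

/-- the conditional count of one value of `l - y` -/
theorem fb_one (C : Chain (PS P)) (S : Finset P) (hS : ∀ x t k, k ∉ S → C.dec x t k = x k)
    (w : ℤ) (x : PS P) :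
    ccnt S (fun z => (C.l z : ℤ) - C.y z = w) x ≤
      ccnt S (fun z => (C.l z : ℤ) - 2 * C.y z = 0 ∨ (C.l z : ℤ) - 2 * C.y z = 1) x := by
  classical
  have h1 := Chain.fiber (fbSub C (fun z => ∀ i, i ∉ S → z i = x i) (by
    intro z t hz i hi
    rw [hS z t i hi]
    exact hz i hi)) (fun _ => w) (fun _ _ => rfl) 0
  rw [lz_card, lz_card]
  have e1 := fb_card (fun z : PS P => ∀ i, i ∉ S → z i = x i) (fun z => (C.l z : ℤ) - C.y z = w)
  have e2 := fb_card (fun z : PS P => ∀ i, i ∉ S → z i = x i)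
    (fun z => (C.l z : ℤ) - 2 * C.y z = 0 ∨ (C.l z : ℤ) - 2 * C.y z = 1)
  have h2 : (univ.filter fun z : {z : PS P // ∀ i, i ∉ S → z i = x i} =>
      (C.l z : ℤ) - C.y z = w).card ≤
      (univ.filter fun z : {z : PS P // ∀ i, i ∉ S → z i = x i} =>
      (C.l z : ℤ) - 2 * C.y z = 0 ∨ (C.l z : ℤ) - 2 * C.y z = 1).card := by
    have h3 : (2 * 0 + 1) * (univ.filter fun z : {z : PS P // ∀ i, i ∉ S → z i = x i} =>
      (C.l z : ℤ) - 2 * C.y z = 0 ∨ (C.l z : ℤ) - 2 * C.y z = 1).card =
      (univ.filter fun z : {z : PS P // ∀ i, i ∉ S → z i = x i} =>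
      (C.l z : ℤ) - 2 * C.y z = 0 ∨ (C.l z : ℤ) - 2 * C.y z = 1).card := by ring
    rw [← h3]
    refine le_trans (Finset.card_le_card ?_) h1
    intro z hz
    rw [Finset.mem_filter] at hz ⊢
    refine ⟨hz.1, ?_⟩
    show |((C.l z : ℤ) - C.y z) - w| ≤ ((0 : ℕ) : ℤ)
    rw [hz.2]
    simp
  rw [e1, e2] at h2
  exact_mod_cast h2

namespace Fam

variable {F : Fam P} {jj : ℕ} {ε : ℝ}

theorem fib (hF : F.OK jj ε) {a b : ℕ} (hab : a < b) (hb : b ≤ F.K) (hv : 0 < F.vr a b) (e u : ℝ)
    (hu : 0 ≤ u) (x : PS P) :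
    ccnt (F.seg a b) (fun z => |(SQ (F.ys z) (F.ls z) a b : ℝ) - e| ≤ u) x ≤
      10000 * (u + 1) * F.rt ε a b * 4 ^ (F.seg a b).card ∧
    ccnt (F.seg a b) (fun z => |(SP (F.ys z) (F.ls z) a b : ℝ) - e| ≤ u) x ≤
      10000 * (u + 1) * F.rt ε a b * 4 ^ (F.seg a b).card := by
  have h0 := lz_rt_nonneg hF a b
  set R := F.rt ε a b * 4 ^ (F.seg a b).card with hR
  have hR0 : 0 ≤ R := by positivity
  obtain ⟨C, hy, hl, hoff⟩ := subChain hF a b hab.le hb
  have hS : ∀ x t k, k ∉ F.seg a b → C.dec x t k = x k := by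
    intro x t k hk
    rw [lz_mem_seg] at hk
    exact hoff x t k hk
  have hsz : ∀ z, (C.l z : ℤ) - 2 * C.y z = SZ (F.ys z) (F.ls z) a b := by
    intro z
    rw [← SQ_sub_SP _ _ (F.ys_le z) hab.le, hy, hl]
    push_cast
    ring
  have hq : ∀ w : ℤ, ccnt (F.seg a b) (fun z => (SQ (F.ys z) (F.ls z) a b : ℤ) = w) x ≤
      1500 * R := by
    intro w
    refine le_trans (lz_le _ (E' := fun z => (C.l z : ℤ) - C.y z = w) ?_ x) ?_
    · intro z hz
      rw [← hz, hy, hl]
      push_cast
      ring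
    · refine (fb_one C _ hS w x).trans ?_
      have h1 := loz hF hab hb hv (1 / 2) (1 / 2) (by norm_num) x
      refine le_trans (lz_le _ ?_ x) (h1.trans (le_of_eq (by rw [hR]; ring)))
      intro z hz
      rw [hsz] at hz
      rcases hz with hz | hz
      · rw [hz, abs_le]
        norm_num
      · rw [hz, abs_le]
        norm_num
  have hp : ∀ w : ℤ, ccnt (F.seg a b) (fun z => (SP (F.ys z) (F.ls z) a b : ℤ) = w) x ≤
      1500 * R := by
    intro w
    refine le_trans (lz_le _ (E' := fun z => ((fbMir C).l z : ℤ) - (fbMir C).y z = w) ?_ x) ?_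
    · intro z hz
      show (C.l z : ℤ) - ((C.l z - C.y z : ℕ) : ℤ) = w
      rw [← hz, ← hy z]
      have := C.y_le z
      omega
    · refine (fb_one (fbMir C) _ (fun z t k hk => hS z _ k hk) w x).trans ?_
      have h1 := loz hF hab hb hv (-(1 / 2)) (1 / 2) (by norm_num) x
      refine le_trans (lz_le _ ?_ x) (h1.trans (le_of_eq (by rw [hR]; ring)))
      intro z hz
      have e1 : ((fbMir C).l z : ℤ) - 2 * (fbMir C).y z = - SZ (F.ys z) (F.ls z) a b := by
        show (C.l z : ℤ) - 2 * ((C.l z - C.y z : ℕ) : ℤ) = _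
        rw [← hsz z]
        have := C.y_le z
        omega
      rw [e1] at hz
      rcases hz with hz | hz
      · have hz' : SZ (F.ys z) (F.ls z) a b = 0 := by omega
        rw [hz', abs_le]
        norm_num
      · have hz' : SZ (F.ys z) (F.ls z) a b = -1 := by omega
        rw [hz', abs_le]
        norm_num
  have h5 : (2 * u + 1) * (1500 * R) ≤ 10000 * (u + 1) * F.rt ε a b * 4 ^ (F.seg a b).card := by
    have : 10000 * (u + 1) * F.rt ε a b * 4 ^ (F.seg a b).card = 10000 * (u + 1) * R := by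
      rw [hR]
      ring
    rw [this]
    nlinarith
  constructor
  · have h1 := lz_window (F.seg a b) (fun z => (SQ (F.ys z) (F.ls z) a b : ℤ)) e u (1500 * R) hu
      (by positivity) x hq
    refine le_trans (le_of_eq ?_) (h1.trans h5)
    simp
  · have h1 := lz_window (F.seg a b) (fun z => (SP (F.ys z) (F.ls z) a b : ℤ)) e u (1500 * R) hu
      (by positivity) x hp
    refine le_trans (le_of_eq ?_) (h1.trans h5)
    simp

end Fam

end BLO
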