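import Pool.Agent.Lib.BLO.Defs
import Pool.Agent.Lib.BLP.Final1

/-!
# Chunk FIN: from a component to the bijection (port of `BLP/Final1.lean`)

`f_c x = (x, +)` if `0 ≤ S' x`, `(ρ x, -)` otherwise: the edges cost at most
`2 ^ n * (n + A + 2 * I + 2 * T)` (a crossing edge costs at most `2 + d(x, ρ x) + d(x^i, ρ x^i)`).
Transport to `H` (`ot_cube`): subtract the mean of `u (·, +)` from `u` (both sets have `2 ^ n`
elements); `{0 ≤ S'}` vs `{0 ≤ lin a'}`: `B` (threshold just below `0`, `f1_threshold`);
`{0 ≤ lin a'}` vs `{0 ≤ lin a}`: at most `(n + 1) * κ`; `{0 ≤ lin a}` vs `{0 ≤ lin a + a0}`: `CN`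
(hypothesis `hN`), same for the other half.
-/

namespace BLO

open Finset BLP

/-- stretch of the map `x ↦ (x, +)` if `0 ≤ S x`, `(ρ x, -)` otherwise -/
private theorem fin2_stretch {n : ℕ} (S : (Fin n → Bool) → ℝ)
    (ρ : (Fin n → Bool) → (Fin n → Bool)) {A I T : ℝ}
    (h3 : (∑ x, ∑ i, (hammingDist (ρ x) (ρ (flp x i)) : ℝ)) ≤ A * 2 ^ n)
    (h5 : ∀ θ : ℝ, (∑ x, ∑ i, |ind (θ < S x) - ind (θ < S (flp x i))|) ≤ I * 2 ^ n)
    (h7 : ∀ θ : ℝ, (∑ x, ∑ i, |ind (θ < S x) - ind (θ < S (flp x i))| *
      (hammingDist x (ρ x) : ℝ)) ≤ T * 2 ^ n) :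
    ∑ x, ∑ i, (hammingDist (if 0 ≤ S x then f1_sn x true else f1_sn (ρ x) false)
      (if 0 ≤ S (flp x i) then f1_sn (flp x i) true else f1_sn (ρ (flp x i)) false) : ℝ) ≤
      2 ^ n * (n + A + 2 * I + 2 * T) := by
  obtain ⟨θ, hθ, hθS, -⟩ := f1_threshold S S
  have hpt : ∀ x i, (hammingDist (if 0 ≤ S x then f1_sn x true else f1_sn (ρ x) false)
      (if 0 ≤ S (flp x i) then f1_sn (flp x i) true else f1_sn (ρ (flp x i)) false) : ℝ) ≤
      1 + hammingDist (ρ x) (ρ (flp x i)) +
        (2 * |ind (θ < S x) - ind (θ < S (flp x i))| +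
        (|ind (θ < S x) - ind (θ < S (flp x i))| * (hammingDist x (ρ x) : ℝ) +
        |ind (θ < S (flp x i)) - ind (θ < S (flp (flp x i) i))| *
          (hammingDist (flp x i) (ρ (flp x i)) : ℝ))) := by
    intro x i
    have hρρ : (0 : ℝ) ≤ hammingDist (ρ x) (ρ (flp x i)) := Nat.cast_nonneg _
    have hd1 : (0 : ℝ) ≤ hammingDist x (ρ x) := Nat.cast_nonneg _
    have hd2 : (0 : ℝ) ≤ hammingDist (flp x i) (ρ (flp x i)) := Nat.cast_nonneg _
    have hff : hammingDist x (flp x i) = 1 := f1_hd_flp x i
    rw [flp_flp]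
    by_cases hx : 0 ≤ S x <;> by_cases hy : 0 ≤ S (flp x i)
    · rw [if_pos hx, if_pos hy, f1_hd, hff, ind_true ((hθS x).mpr hx),
        ind_true ((hθS _).mpr hy)]
      simp only [if_true, add_zero, sub_self, abs_zero, mul_zero, zero_mul, Nat.cast_one]
      linarith
    · rw [if_pos hx, if_neg hy, f1_hd, ind_true ((hθS x).mpr hx),
        ind_false (fun h => hy ((hθS _).mp h))]
      have ht : (hammingDist x (ρ (flp x i)) : ℝ) ≤
          1 + hammingDist (flp x i) (ρ (flp x i)) := by
        have := hammingDist_triangle x (flp x i) (ρ (flp x i))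
        rw [hff] at this
        exact_mod_cast this
      simp only [if_neg (show ¬ (true = false) by decide), sub_zero, zero_sub, abs_neg, abs_one,
        mul_one, one_mul, Nat.cast_add, Nat.cast_one]
      linarith
    · rw [if_neg hx, if_pos hy, f1_hd, ind_false (fun h => hx ((hθS _).mp h)),
        ind_true ((hθS _).mpr hy)]
      have ht : (hammingDist (ρ x) (flp x i) : ℝ) ≤ 1 + hammingDist x (ρ x) := by
        have := hammingDist_triangle (ρ x) x (flp x i)
        rw [hff, hammingDist_comm (ρ x) x] at this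
        have h2 : ((hammingDist (ρ x) (flp x i) : ℕ) : ℝ) ≤ ((hammingDist x (ρ x) + 1 : ℕ) : ℝ) := by
          exact_mod_cast this
        push_cast at h2
        linarith
      simp only [if_neg (show ¬ (false = true) by decide), sub_zero, zero_sub, abs_neg, abs_one,
        mul_one, one_mul, Nat.cast_add, Nat.cast_one]
      linarith
    · rw [if_neg hx, if_neg hy, f1_hd, ind_false (fun h => hx ((hθS _).mp h)),
        ind_false (fun h => hy ((hθS _).mp h))]
      simp only [if_true, add_zero, sub_self, abs_zero, mul_zero, zero_mul]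
      linarith
  refine (Finset.sum_le_sum fun x _ => Finset.sum_le_sum fun i _ => hpt x i).trans ?_
  have hc : Fintype.card (Fin n → Bool) = 2 ^ n := by simp
  have e1 : ∑ _x : Fin n → Bool, ∑ _i : Fin n, (1 : ℝ) = 2 ^ n * n := by
    simp only [Finset.sum_const, Finset.card_univ, hc, nsmul_eq_mul, mul_one, Fintype.card_fin]
    push_cast
    ring
  have e3 : ∑ x : Fin n → Bool, ∑ i : Fin n,
      |ind (θ < S (flp x i)) - ind (θ < S (flp (flp x i) i))| *
          (hammingDist (flp x i) (ρ (flp x i)) : ℝ) =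
      ∑ x : Fin n → Bool, ∑ i : Fin n, |ind (θ < S x) - ind (θ < S (flp x i))| *
          (hammingDist x (ρ x) : ℝ) := by
    rw [Finset.sum_comm, Finset.sum_comm (s := (Finset.univ : Finset (Fin n → Bool)))
      (f := fun (x : Fin n → Bool) (i : Fin n) => |ind (θ < S x) - ind (θ < S (flp x i))| *
          (hammingDist x (ρ x) : ℝ))]
    refine Finset.sum_congr rfl fun i _ => ?_
    let E : (Fin n → Bool) ≃ (Fin n → Bool) :=
      ⟨fun x => flp x i, fun x => flp x i, fun x => flp_flp x i, fun x => flp_flp x i⟩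
    exact E.sum_comp fun x => |ind (θ < S x) - ind (θ < S (flp x i))| *
      (hammingDist x (ρ x) : ℝ)
  simp only [Finset.sum_add_distrib, ← Finset.mul_sum, e1]
  have e3' : ∑ x : Fin n → Bool, ∑ i : Fin n,
      |ind (θ < S (flp x i)) - ind (θ < S (flp (flp x i) i))| *
          (hammingDist (flp x i) (ρ (flp x i)) : ℝ) ≤ T * 2 ^ n := by
    rw [e3]
    exact h7 θ
  have h5' := h5 θ
  have h7' := h7 θ
  simp only [flp_flp] at e3' ⊢
  linarith

private theorem fin2_transport {n : ℕ} (hn : 0 < n) (a a' : Fin n → ℝ) (a0 v κ CN : ℝ)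
    (ha0 : 0 ≤ a0) (hv : ∀ x, |lin a x - lin a' x| ≤ v)
    (hκ : (∑ x : Fin n → Bool, ind (lin a x ≠ lin a' x ∧ |lin a' x| ≤ v)) ≤ 2 ^ n * κ)
    (hN : ∀ h : (Fin n → Bool) → ℝ, Lip 1 h → ∑ x, h x = 0 →
      ∑ x, |h x| * ind (|lin a x| ≤ a0) ≤ CN * 2 ^ n) {B : ℝ}
    (S : (Fin n → Bool) → ℝ)
    (h4 : ∀ h : (Fin n → Bool) → ℝ, Lip 1 h → ∀ c : ℝ,
       |∑ x, h x * (ind (c < lin a' x) - ind (c < S x))| ≤ B * 2 ^ n)
    (hcard : ∑ x : Fin n → Bool, (ind (0 ≤ lin a x + a0) + ind (0 ≤ lin a x - a0)) = 2 ^ n)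
    (u : (Fin (n + 1) → Bool) → ℝ) (hu : Lip 1 u) :
    ∑ x : Fin n → Bool, (u (f1_sn x true) * ind (0 ≤ S x) + u (f1_sn x false) * ind (0 < S x)) -
      ∑ x : Fin n → Bool, (u (f1_sn x true) * ind (0 ≤ lin a x + a0) +
        u (f1_sn x false) * ind (0 ≤ lin a x - a0)) ≤
      2 ^ n * (2 * B + 2 * CN + 2 * (n + 1) * κ + 4) := by
  have hup : ∀ b : Bool, Lip 1 fun x : Fin n → Bool => u (f1_sn x b) := by
    intro b x i
    beta_reduce
    rw [← f1_flp]
    exact hu _ _
  have hpm : ∀ x : Fin n → Bool, |u (f1_sn x false) - u (f1_sn x true)| ≤ 1 := by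
    intro x
    have := hu (f1_sn x true) (Fin.last n)
    rw [f1_flp_last] at this
    exact this
  have hc2 : (Fintype.card (Fin n → Bool) : ℝ) = 2 ^ n := by simp
  have h2n : (0 : ℝ) < 2 ^ n := by positivity
  -- the first step: from `S` to `T = lin a'`
  obtain ⟨θ, hθ, hθS, hθT⟩ := f1_threshold S (lin a')
  have b1 := h4 _ (hup true) θ
  have b2 := h4 _ (hup false) 0
  have c1 : ∀ x, ind (θ < S x) = ind (0 ≤ S x) := fun x => ind_congr (hθS x)
  have c2 : ∀ x, ind (θ < lin a' x) = ind (0 ≤ lin a' x) := fun x => ind_congr (hθT x)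
  simp only [c1, c2] at b1
  have b1' := (abs_le.mp b1).1
  have b2' := (abs_le.mp b2).1
  -- the mean
  set w0 : ℝ := (∑ x : Fin n → Bool, u (f1_sn x true)) / 2 ^ n with hw0
  set h : (Fin n → Bool) → ℝ := fun x => u (f1_sn x true) - w0 with hh
  have hhL : Lip 1 h := by
    intro x i
    have := hup true x i
    simp only [hh]
    have e : u (f1_sn (flp x i) true) - w0 - (u (f1_sn x true) - w0) =
      u (f1_sn (flp x i) true) - u (f1_sn x true) := by ring
    rw [e]
    exact this
  have hh0 : ∑ x, h x = 0 := by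
    simp only [hh]
    rw [Finset.sum_sub_distrib, Finset.sum_const, Finset.card_univ, nsmul_eq_mul, hc2, hw0]
    field_simp
    ring
  have hhn : ∀ x, |h x| ≤ n := by
    intro x
    have e1 : (2 : ℝ) ^ n * h x = ∑ y : Fin n → Bool, (u (f1_sn x true) - u (f1_sn y true)) := by
      rw [Finset.sum_sub_distrib, Finset.sum_const, Finset.card_univ, nsmul_eq_mul, hc2]
      simp only [hh, hw0]
      field_simp
    have e2 : ∀ y : Fin n → Bool, |u (f1_sn x true) - u (f1_sn y true)| ≤ n := by
      intro y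
      have h1 := c1_lip_dist (fun x : Fin n → Bool => u (f1_sn x true)) (hup true) _ x y rfl
      have h2 : hammingDist x y ≤ n := by
        have := hammingDist_le_card_fintype (x := x) (y := y)
        rwa [Fintype.card_fin] at this
      exact h1.trans (by exact_mod_cast h2)
    have e3 : |(2 : ℝ) ^ n * h x| ≤ 2 ^ n * n := by
      rw [e1]
      refine (Finset.abs_sum_le_sum_abs _ _).trans ?_
      refine (Finset.sum_le_sum fun y _ => e2 y).trans (le_of_eq ?_)
      rw [Finset.sum_const, Finset.card_univ, nsmul_eq_mul, hc2]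
    rw [abs_mul, abs_of_pos h2n] at e3
    exact le_of_mul_le_mul_left e3 h2n
  have hNh := hN h hhL hh0
  -- the differences of indicators
  set dp : (Fin n → Bool) → ℝ := fun x => ind (0 ≤ lin a' x) - ind (0 ≤ lin a x + a0) with hdp
  set dm : (Fin n → Bool) → ℝ := fun x => ind (0 < lin a' x) - ind (0 ≤ lin a x - a0) with hdm
  set p : (Fin n → Bool) → ℝ := fun x => ind (lin a x ≠ lin a' x ∧ |lin a' x| ≤ v) + ind (|lin a x| ≤ a0) with hp
  have hp0 : ∀ x, 0 ≤ p x := fun x => add_nonneg (ind_nonneg _) (ind_nonneg _)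
  have hdp_le : ∀ x, |dp x| ≤ p x := by
    intro x
    have h1 := abs_le.mp (hv x)
    have i1 := ind_nonneg (lin a x ≠ lin a' x ∧ |lin a' x| ≤ v)
    have i2 := ind_nonneg (|lin a x| ≤ a0)
    by_cases hb : lin a x ≠ lin a' x ∧ |lin a' x| ≤ v
    · have : |dp x| ≤ 1 := by
        simp only [hdp]
        rw [abs_le]
        constructor
        · linarith [ind_nonneg (0 ≤ lin a' x), ind_le_one (0 ≤ lin a x + a0)]
        · linarith [ind_nonneg (0 ≤ lin a x + a0), ind_le_one (0 ≤ lin a' x)]
      simp only [hp]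
      rw [ind_true hb]
      linarith
    by_cases hb2 : |lin a x| ≤ a0
    · have : |dp x| ≤ 1 := by
        simp only [hdp]
        rw [abs_le]
        constructor
        · linarith [ind_nonneg (0 ≤ lin a' x), ind_le_one (0 ≤ lin a x + a0)]
        · linarith [ind_nonneg (0 ≤ lin a x + a0), ind_le_one (0 ≤ lin a' x)]
      simp only [hp]
      rw [ind_true hb2]
      linarith
    · have : (0 ≤ lin a' x) ↔ (0 ≤ lin a x + a0) := by
        by_cases heq : lin a x = lin a' x
        · rw [← heq]
          constructor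
          · intro hc
            linarith
          · intro hc
            by_contra hd
            rw [not_le] at hd
            apply hb2
            rw [abs_le]
            constructor <;> linarith
        constructor
        · intro hc
          by_contra hd
          rw [not_le] at hd
          apply hb
          refine ⟨heq, ?_⟩
          rw [abs_le]
          constructor <;> linarith
        · intro hc
          by_contra hd
          rw [not_le] at hd
          rcases le_or_gt 0 (lin a x) with h0 | h0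
          · apply hb
            refine ⟨heq, ?_⟩
            rw [abs_le]
            constructor <;> linarith
          · apply hb2
            rw [abs_le]
            constructor <;> linarith
      simp only [hdp]
      rw [ind_congr this, sub_self, abs_zero]
      exact hp0 x
  have hdm_le : ∀ x, |dm x| ≤ p x := by
    intro x
    have h1 := abs_le.mp (hv x)
    have i1 := ind_nonneg (lin a x ≠ lin a' x ∧ |lin a' x| ≤ v)
    have i2 := ind_nonneg (|lin a x| ≤ a0)
    by_cases hb : lin a x ≠ lin a' x ∧ |lin a' x| ≤ v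
    · have : |dm x| ≤ 1 := by
        simp only [hdm]
        rw [abs_le]
        constructor
        · linarith [ind_nonneg (0 < lin a' x), ind_le_one (0 ≤ lin a x - a0)]
        · linarith [ind_nonneg (0 ≤ lin a x - a0), ind_le_one (0 < lin a' x)]
      simp only [hp]
      rw [ind_true hb]
      linarith
    by_cases hb2 : |lin a x| ≤ a0
    · have : |dm x| ≤ 1 := by
        simp only [hdm]
        rw [abs_le]
        constructor
        · linarith [ind_nonneg (0 < lin a' x), ind_le_one (0 ≤ lin a x - a0)]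
        · linarith [ind_nonneg (0 ≤ lin a x - a0), ind_le_one (0 < lin a' x)]
      simp only [hp]
      rw [ind_true hb2]
      linarith
    · have : (0 < lin a' x) ↔ (0 ≤ lin a x - a0) := by
        by_cases heq : lin a x = lin a' x
        · rw [← heq]
          constructor
          · intro hc
            by_contra hd
            rw [not_le] at hd
            apply hb2
            rw [abs_le]
            constructor <;> linarith
          · intro hc
            by_contra hd
            rw [not_lt] at hd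
            apply hb2
            rw [abs_le]
            constructor <;> linarith
        constructor
        · intro hc
          by_contra hd
          rw [not_le] at hd
          rcases le_or_gt 0 (lin a x) with h0 | h0
          · apply hb2
            rw [abs_le]
            constructor <;> linarith
          · apply hb
            refine ⟨heq, ?_⟩
            rw [abs_le]
            constructor <;> linarith
        · intro hc
          by_contra hd
          rw [not_lt] at hd
          apply hb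
          refine ⟨heq, ?_⟩
          rw [abs_le]
          constructor <;> linarith
      simp only [hdm]
      rw [ind_congr this, sub_self, abs_zero]
      exact hp0 x
  -- total mass zero
  have hodd : ∑ x : Fin n → Bool, (ind (0 ≤ lin a' x) + ind (0 < lin a' x)) = 2 ^ n := by
    let N : (Fin n → Bool) ≃ (Fin n → Bool) :=
      ⟨fun x i => !(x i), fun x i => !(x i), fun x => by funext i; simp,
        fun x => by funext i; simp⟩
    have hN : ∀ x, lin a' (N x) = - lin a' x := by
      intro x
      simp only [lin, ← Finset.sum_neg_distrib]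
      refine Finset.sum_congr rfl fun i _ => ?_
      show a' i * sg (!(x i)) = _
      cases x i <;> simp [sg]
    rw [Finset.sum_add_distrib, ← N.sum_comp fun x => ind (0 < lin a' x),
      ← Finset.sum_add_distrib]
    have : ∀ x, ind (0 ≤ lin a' x) + ind (0 < lin a' (N x)) = 1 := by
      intro x
      rw [hN]
      by_cases h : 0 ≤ lin a' x
      · rw [ind_true h, ind_false (by linarith)]
        ring
      · rw [ind_false h, ind_true (by linarith)]
        ring
    rw [Finset.sum_congr rfl fun x _ => this x]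
    simp
  have hmass : ∑ x : Fin n → Bool, (dp x + dm x) = 0 := by
    have : ∀ x, dp x + dm x = (ind (0 ≤ lin a' x) + ind (0 < lin a' x)) -
        (ind (0 ≤ lin a x + a0) + ind (0 ≤ lin a x - a0)) := by
      intro x
      simp only [hdp, hdm]
      ring
    rw [Finset.sum_congr rfl fun x _ => this x, Finset.sum_sub_distrib, hodd, hcard, sub_self]
  have hκ0 : 0 ≤ κ := by
    have h1 : 0 ≤ ∑ x : Fin n → Bool, ind (lin a x ≠ lin a' x ∧ |lin a' x| ≤ v) :=
      Finset.sum_nonneg fun x _ => ind_nonneg _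
    by_contra hc
    rw [not_le] at hc
    nlinarith
  have hsum : ∑ x : Fin n → Bool, (u (f1_sn x true) * dp x + u (f1_sn x false) * dm x) ≤
      2 ^ n * (2 * CN + 2 * (n + 1) * κ + 4) := by
    have e1 : ∑ x : Fin n → Bool, (u (f1_sn x true) * dp x + u (f1_sn x false) * dm x) =
        ∑ x : Fin n → Bool, ((u (f1_sn x true) - w0) * dp x + (u (f1_sn x false) - w0) * dm x) := by
      have e2 : ∀ x : Fin n → Bool, (u (f1_sn x true) - w0) * dp x +
          (u (f1_sn x false) - w0) * dm x =
          (u (f1_sn x true) * dp x + u (f1_sn x false) * dm x) - w0 * (dp x + dm x) := by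
        intro x
        ring
      rw [Finset.sum_congr rfl fun x _ => e2 x, Finset.sum_sub_distrib, ← Finset.mul_sum, hmass]
      ring
    rw [e1]
    have e3 : ∀ x : Fin n → Bool, (u (f1_sn x true) - w0) * dp x +
        (u (f1_sn x false) - w0) * dm x ≤
        (2 * n + 1) * ind (lin a x ≠ lin a' x ∧ |lin a' x| ≤ v) + (2 * (|h x| * ind (|lin a x| ≤ a0)) + 1) := by
      intro x
      have g1 : (u (f1_sn x true) - w0) * dp x ≤ |h x| * p x := by
        refine (le_abs_self _).trans ?_
        rw [abs_mul]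
        exact mul_le_mul_of_nonneg_left (hdp_le x) (abs_nonneg _)
      have g2 : (u (f1_sn x false) - w0) * dm x ≤ (1 + |h x|) * p x := by
        refine (le_abs_self _).trans ?_
        rw [abs_mul]
        have g3 : |u (f1_sn x false) - w0| ≤ 1 + |h x| := by
          have : u (f1_sn x false) - w0 = (u (f1_sn x false) - u (f1_sn x true)) + h x := by
            simp only [hh]
            ring
          rw [this]
          refine (abs_add_le _ _).trans ?_
          linarith [hpm x]
        exact mul_le_mul g3 (hdm_le x) (abs_nonneg _) (by positivity)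
      have g4 := hhn x
      have g5 := ind_nonneg (lin a x ≠ lin a' x ∧ |lin a' x| ≤ v)
      have g6 := ind_le_one (|lin a x| ≤ a0)
      have g7 : |h x| * ind (lin a x ≠ lin a' x ∧ |lin a' x| ≤ v) ≤ n * ind (lin a x ≠ lin a' x ∧ |lin a' x| ≤ v) :=
        mul_le_mul_of_nonneg_right g4 g5
      have g8 : |h x| * p x + (1 + |h x|) * p x = 2 * (|h x| * ind (lin a x ≠ lin a' x ∧ |lin a' x| ≤ v)) +
        2 * (|h x| * ind (|lin a x| ≤ a0)) + ind (lin a x ≠ lin a' x ∧ |lin a' x| ≤ v) + ind (|lin a x| ≤ a0) := by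
        simp only [hp]
        ring
      nlinarith
    refine (Finset.sum_le_sum fun x _ => e3 x).trans ?_
    rw [Finset.sum_add_distrib, Finset.sum_add_distrib, ← Finset.mul_sum, ← Finset.mul_sum,
      Finset.sum_const, Finset.card_univ, nsmul_eq_mul, hc2]
    have h3 : (2 * (n : ℝ) + 1) * ∑ x : Fin n → Bool, ind (lin a x ≠ lin a' x ∧ |lin a' x| ≤ v) ≤
        (2 * (n : ℝ) + 1) * (2 ^ n * κ) := mul_le_mul_of_nonneg_left hκ (by positivity)
    have h5 : 0 ≤ 2 ^ n * κ := by positivity
    nlinarith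
  -- put together
  have hfin : ∑ x : Fin n → Bool, (u (f1_sn x true) * ind (0 ≤ S x) +
      u (f1_sn x false) * ind (0 < S x)) -
      ∑ x : Fin n → Bool, (u (f1_sn x true) * ind (0 ≤ lin a x + a0) +
        u (f1_sn x false) * ind (0 ≤ lin a x - a0)) =
      -(∑ x : Fin n → Bool, u (f1_sn x true) * (ind (0 ≤ lin a' x) - ind (0 ≤ S x))) -
      (∑ x : Fin n → Bool, u (f1_sn x false) * (ind (0 < lin a' x) - ind (0 < S x))) +
      ∑ x : Fin n → Bool, (u (f1_sn x true) * dp x + u (f1_sn x false) * dm x) := by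
    rw [← Finset.sum_sub_distrib, ← Finset.sum_neg_distrib, ← Finset.sum_sub_distrib,
      ← Finset.sum_add_distrib]
    refine Finset.sum_congr rfl fun x _ => ?_
    simp only [hdp, hdm]
    ring
  rw [hfin]
  calc _ ≤ B * 2 ^ n + B * 2 ^ n + 2 ^ n * (2 * CN + 2 * (n + 1) * κ + 4) := by linarith
    _ = _ := by ring

theorem final_of_comp2 {n : ℕ} (hn : 0 < n) (a a' : Fin n → ℝ) (a0 v κ CN : ℝ) (ha0 : 0 ≤ a0)
    (hv : ∀ x, |lin a x - lin a' x| ≤ v)
    (hκ : (∑ x : Fin n → Bool, ind (lin a x ≠ lin a' x ∧ |lin a' x| ≤ v)) ≤ 2 ^ n * κ)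
    (hN : ∀ h : (Fin n → Bool) → ℝ, Lip 1 h → ∑ x, h x = 0 →
      ∑ x, |h x| * ind (|lin a x| ≤ a0) ≤ CN * 2 ^ n)
    {A B I D T : ℝ} (hC : Comp2 a' A B I D T)
    (H : Finset (Fin (n + 1) → Bool))
    (hH : ∀ z, z ∈ H ↔ 0 ≤ lin a (fun i => z i.castSucc) + a0 * sg (z (Fin.last n)))
    (hcard : H.card = 2 ^ n) :
    ∃ f : (Fin n → Bool) → (Fin (n + 1) → Bool), Function.Injective f ∧
      (∀ z, z ∈ Set.range f ↔ z ∈ H) ∧
      ∑ x, ∑ i, (hammingDist (f x) (f (flp x i)) : ℝ) ≤
        2 ^ n * (n + A + 2 * I + 2 * T +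
          2 * n * (2 * B + 2 * CN + 2 * (n + 1) * κ + 4)) := by
  classical
  obtain ⟨S, ρ, h1, h2, h3, h4, h5, -, h7⟩ := hC
  rw [Fintype.card_fin] at h3 h4 h5 h7
  -- the sum over `H`
  have hHt : ∀ x : Fin n → Bool, f1_sn x true ∈ H ↔ 0 ≤ lin a x + a0 := by
    intro x
    rw [hH, f1_sn_init, f1_sn_last]
    simp [sg]
  have hHf : ∀ x : Fin n → Bool, f1_sn x false ∈ H ↔ 0 ≤ lin a x - a0 := by
    intro x
    rw [hH, f1_sn_init, f1_sn_last]
    simp [sg, sub_eq_add_neg]
  have hsumH : ∀ u : (Fin (n + 1) → Bool) → ℝ, ∑ z ∈ H, u z =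
      ∑ x : Fin n → Bool, (u (f1_sn x true) * ind (0 ≤ lin a x + a0) +
        u (f1_sn x false) * ind (0 ≤ lin a x - a0)) := by
    intro u
    have e1 : ∑ z ∈ H, u z = ∑ z, u z * ind (z ∈ H) := by
      rw [← Finset.sum_filter_add_sum_filter_not Finset.univ (fun z => z ∈ H)
        (fun z => u z * ind (z ∈ H))]
      rw [Finset.sum_eq_zero (s := Finset.univ.filter fun z => ¬ z ∈ H), add_zero]
      · rw [Finset.filter_mem_eq_inter, Finset.univ_inter]
        refine Finset.sum_congr rfl fun z hz => ?_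
        rw [ind_true hz, mul_one]
      · intro z hz
        rw [ind_false (Finset.mem_filter.mp hz).2, mul_zero]
    rw [e1, f1_sum]
    refine Finset.sum_congr rfl fun x _ => ?_
    rw [ind_congr (hHt x), ind_congr (hHf x)]
  have hcard' : ∑ x : Fin n → Bool, (ind (0 ≤ lin a x + a0) + ind (0 ≤ lin a x - a0)) = 2 ^ n := by
    have := hsumH fun _ => 1
    simp only [Finset.sum_const, nsmul_eq_mul, mul_one, one_mul, hcard] at this
    rw [← this]
    push_cast
    rfl
  -- the first map
  let fc : (Fin n → Bool) → (Fin (n + 1) → Bool) := fun x =>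
    if 0 ≤ S x then f1_sn x true else f1_sn (ρ x) false
  have hfc : Function.Injective fc := by
    intro x y h
    simp only [fc] at h
    split_ifs at h with hx hy hy
    · exact (f1_sn_inj h).1
    · exact absurd (f1_sn_inj h).2 (by decide)
    · exact absurd (f1_sn_inj h).2 (by decide)
    · rw [← h1 x, (f1_sn_inj h).1, h1]
  let Hc : Finset (Fin (n + 1) → Bool) := Finset.univ.image fc
  have hHc : Hc.card = H.card := by
    rw [Finset.card_image_of_injective _ hfc, hcard]
    simp
  have hsumHc : ∀ u : (Fin (n + 1) → Bool) → ℝ, ∑ z ∈ Hc, u z =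
      ∑ x : Fin n → Bool, (u (f1_sn x true) * ind (0 ≤ S x) + u (f1_sn x false) * ind (0 < S x)) := by
    intro u
    rw [Finset.sum_image fun x _ y _ h => hfc h, Finset.sum_add_distrib]
    let R : (Fin n → Bool) ≃ (Fin n → Bool) := ⟨ρ, ρ, h1, h1⟩
    rw [← R.sum_comp fun x => u (f1_sn x false) * ind (0 < S x), ← Finset.sum_add_distrib]
    refine Finset.sum_congr rfl fun x _ => ?_
    show u (fc x) = _ + u (f1_sn (ρ x) false) * ind (0 < S (ρ x))
    rw [h2]
    simp only [fc]
    by_cases hx : 0 ≤ S x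
    · rw [if_pos hx, ind_true hx, ind_false (by linarith)]
      ring
    · rw [if_neg hx, ind_false hx, ind_true (by linarith)]
      ring
  obtain ⟨σ, hσ⟩ := ot_cube Hc H hHc
    (2 ^ n * (2 * B + 2 * CN + 2 * (n + 1) * κ + 4)) (by
      intro u hu
      rw [hsumHc, hsumH]
      exact fin2_transport hn a a' a0 v κ CN ha0 hv hκ hN S h4 hcard' u hu)
  have hmem : ∀ x, fc x ∈ Hc := fun x => Finset.mem_image_of_mem _ (Finset.mem_univ x)
  let e : (Fin n → Bool) ≃ {z // z ∈ Hc} := Equiv.ofBijective (fun x => ⟨fc x, hmem x⟩) ⟨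
    fun x y h => hfc (congrArg Subtype.val h), by
      rintro ⟨z, hz⟩
      obtain ⟨x, -, rfl⟩ := Finset.mem_image.mp hz
      exact ⟨x, rfl⟩⟩
  have he : ∀ x, (e x).1 = fc x := fun x => rfl
  refine ⟨fun x => (σ (e x)).1, ?_, ?_, ?_⟩
  · intro x y h
    exact e.injective (σ.injective (Subtype.ext h))
  · intro z
    constructor
    · rintro ⟨x, rfl⟩
      exact (σ (e x)).2
    · intro hz
      refine ⟨e.symm (σ.symm ⟨z, hz⟩), ?_⟩
      simp
  · have hdisp : ∑ x, (hammingDist (fc x) (σ (e x)).1 : ℝ) ≤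
        2 ^ n * (2 * B + 2 * CN + 2 * (n + 1) * κ + 4) := by
      refine le_trans (le_of_eq ?_) hσ
      rw [← e.sum_comp]
      rfl
    have htri : ∀ x i, (hammingDist (σ (e x)).1 (σ (e (flp x i))).1 : ℝ) ≤
        hammingDist (fc x) (fc (flp x i)) + (hammingDist (fc x) (σ (e x)).1 +
          hammingDist (fc (flp x i)) (σ (e (flp x i))).1) := by
      intro x i
      have t1 := hammingDist_triangle (σ (e x)).1 (fc x) (σ (e (flp x i))).1
      have t2 := hammingDist_triangle (fc x) (fc (flp x i)) (σ (e (flp x i))).1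
      rw [hammingDist_comm (σ (e x)).1 (fc x)] at t1
      have : hammingDist (σ (e x)).1 (σ (e (flp x i))).1 ≤
        hammingDist (fc x) (fc (flp x i)) + (hammingDist (fc x) (σ (e x)).1 +
          hammingDist (fc (flp x i)) (σ (e (flp x i))).1) := by omega
      exact_mod_cast this
    refine (Finset.sum_le_sum fun x _ => Finset.sum_le_sum fun i _ => htri x i).trans ?_
    simp only [Finset.sum_add_distrib]
    have s1 : ∑ x : Fin n → Bool, ∑ _i : Fin n, (hammingDist (fc x) (σ (e x)).1 : ℝ) =
        n * ∑ x, (hammingDist (fc x) (σ (e x)).1 : ℝ) := by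
      rw [Finset.mul_sum]
      refine Finset.sum_congr rfl fun x _ => ?_
      rw [Finset.sum_const, Finset.card_univ, Fintype.card_fin, nsmul_eq_mul]
    have s2 : ∑ x : Fin n → Bool, ∑ i : Fin n,
        (hammingDist (fc (flp x i)) (σ (e (flp x i))).1 : ℝ) =
        n * ∑ x, (hammingDist (fc x) (σ (e x)).1 : ℝ) := by
      rw [Finset.sum_comm]
      have : ∀ i : Fin n, ∑ x : Fin n → Bool,
          (hammingDist (fc (flp x i)) (σ (e (flp x i))).1 : ℝ) =
          ∑ x, (hammingDist (fc x) (σ (e x)).1 : ℝ) := by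
        intro i
        let E : (Fin n → Bool) ≃ (Fin n → Bool) :=
          ⟨fun x => flp x i, fun x => flp x i, fun x => flp_flp x i, fun x => flp_flp x i⟩
        exact E.sum_comp fun x => (hammingDist (fc x) (σ (e x)).1 : ℝ)
      rw [Finset.sum_congr rfl fun i _ => this i, Finset.sum_const, Finset.card_univ,
        Fintype.card_fin, nsmul_eq_mul]
    rw [s1, s2]
    have hst := fin2_stretch S ρ h3 h5 h7
    have hn' : (0 : ℝ) ≤ n := Nat.cast_nonneg n
    have hdisp' := mul_le_mul_of_nonneg_left hdisp (show (0 : ℝ) ≤ 2 * n by positivity)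
    have hst' : ∑ x : Fin n → Bool, ∑ i : Fin n, (hammingDist (fc x) (fc (flp x i)) : ℝ) ≤
        2 ^ n * (n + A + 2 * I + 2 * T) := hst
    calc _ ≤ 2 ^ n * (n + A + 2 * I + 2 * T) +
          2 * n * (2 ^ n * (2 * B + 2 * CN + 2 * (n + 1) * κ + 4)) := by
            linarith
      _ = _ := by ring

end BLO
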