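import Pool.Agent.Lib.BLO.Defs

/-!
# Chunk HAM: Hamming balls

`n = 2^s - 1` bits indexed by the nonzero numbers `1, …, 2^s - 1`; syndrome = XOR of the indices of the bits
that are `true`; the nearest codeword of `x` is `x` with the bit of index `syn x` flipped (nothing if `syn x = 0`);
`st t x` = nearest codeword with the bit of index `t` flipped.  The balls of radius 1 around the
codewords partition the cube and each contains every syndrome exactly once.
`multi_hash`: `j` blocks, digits in base `2^s`.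
-/

namespace BLO

open Finset BLP

/-- flip the bit of index `t` (nothing for `t = 0`) -/
def hamFl {n : ℕ} (t : ℕ) (x : Fin n → Bool) : Fin n → Bool := fun k =>
  if (k : ℕ) + 1 = t then !(x k) else x k

theorem hamFl_hamFl {n : ℕ} (t : ℕ) (x : Fin n → Bool) : hamFl t (hamFl t x) = x := by
  funext k
  unfold hamFl
  split_ifs <;> simp

theorem hamFl_dist {n : ℕ} (t : ℕ) (x : Fin n → Bool) : hammingDist (hamFl t x) x ≤ 1 := by
  unfold hammingDist
  rw [Finset.card_le_one]
  intro a ha b hb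
  simp only [mem_filter, mem_univ, true_and, hamFl] at ha hb
  by_cases h1 : (a : ℕ) + 1 = t
  · by_cases h2 : (b : ℕ) + 1 = t
    · apply Fin.ext
      omega
    · rw [if_neg h2] at hb
      exact absurd rfl hb
  · rw [if_neg h1] at ha
    exact absurd rfl ha

theorem ham_char2 {s : ℕ} (a : Fin s → ZMod 2) : a + a = 0 := by
  funext i
  exact CharTwo.add_self_eq_zero (a i)

theorem hamming_chain (s : ℕ) : ∃ (syn : (Fin (2 ^ s - 1) → Bool) → ℕ)
    (st : ℕ → (Fin (2 ^ s - 1) → Bool) → (Fin (2 ^ s - 1) → Bool)),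
    (∀ x, syn x < 2 ^ s) ∧ (∀ t < 2 ^ s, ∀ x, syn (st t x) = t) ∧
    (∀ t < 2 ^ s, ∀ t' < 2 ^ s, ∀ x, st t' (st t x) = st t' x) ∧ (∀ x, st (syn x) x = x) ∧
    (∀ t < 2 ^ s, ∀ x, hammingDist (st t x) x ≤ 2) := by
  have hpos : 0 < 2 ^ s := by positivity
  obtain ⟨e, he0⟩ : ∃ e : Fin (2 ^ s) ≃ (Fin s → ZMod 2), e ⟨0, hpos⟩ = 0 := by
    have hc : Fintype.card (Fin s → ZMod 2) = 2 ^ s := by simp [ZMod.card]
    let e0 : (Fin s → ZMod 2) ≃ Fin (2 ^ s) := Fintype.equivFinOfCardEq hc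
    refine ⟨e0.symm.trans (Equiv.addRight (-(e0.symm ⟨0, hpos⟩))), ?_⟩
    simp
  -- the group element of the index `k + 1`
  have hlt : ∀ k : Fin (2 ^ s - 1), (k : ℕ) + 1 < 2 ^ s := fun k => by omega
  let E : Fin (2 ^ s - 1) → (Fin s → ZMod 2) := fun k => e ⟨k + 1, hlt k⟩
  let Y : (Fin (2 ^ s - 1) → Bool) → (Fin s → ZMod 2) := fun x => ∑ k, if x k then E k else 0
  have hY : ∀ (x : Fin (2 ^ s - 1) → Bool) (t : Fin (2 ^ s)), Y (hamFl t x) = Y x + e t := by
    intro x t
    by_cases ht : (t : ℕ) = 0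
    · have h1 : hamFl (t : ℕ) x = x := by
        funext k
        unfold hamFl
        rw [if_neg (by omega)]
      have h2 : t = ⟨0, hpos⟩ := Fin.ext ht
      rw [h1, h2, he0, add_zero]
    · have hk : (t : ℕ) - 1 < 2 ^ s - 1 := by omega
      set k0 : Fin (2 ^ s - 1) := ⟨(t : ℕ) - 1, hk⟩ with hk0
      have hE : E k0 = e t := by
        show e ⟨(t : ℕ) - 1 + 1, _⟩ = e t
        congr 1
        apply Fin.ext
        show (t : ℕ) - 1 + 1 = t
        omega
      show (∑ k, if hamFl (t : ℕ) x k then E k else 0) = (∑ k, if x k then E k else 0) + e t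
      rw [← Finset.add_sum_erase _ _ (mem_univ k0), ← Finset.add_sum_erase univ (fun k =>
        if x k then E k else 0) (mem_univ k0)]
      have h1 : ∑ k ∈ univ.erase k0, (if hamFl (t : ℕ) x k then E k else 0) =
          ∑ k ∈ univ.erase k0, if x k then E k else 0 := by
        refine sum_congr rfl fun k hk => ?_
        have hne : k ≠ k0 := (mem_erase.1 hk).1
        have : ¬ ((k : ℕ) + 1 = t) := by
          intro h
          apply hne
          apply Fin.ext
          show (k : ℕ) = (t : ℕ) - 1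
          omega
        unfold hamFl
        rw [if_neg this]
      have h2 : hamFl (t : ℕ) x k0 = !(x k0) := by
        unfold hamFl
        rw [if_pos]
        show (t : ℕ) - 1 + 1 = t
        omega
      rw [h1, h2, ← hE]
      have h3 := ham_char2 (E k0)
      cases x k0
      · simp [add_comm]
      · simp only [Bool.not_true, Bool.false_eq_true, if_false, if_true]
        rw [add_right_comm, h3]
  let syn : (Fin (2 ^ s - 1) → Bool) → ℕ := fun x => (e.symm (Y x) : ℕ)
  let st : ℕ → (Fin (2 ^ s - 1) → Bool) → (Fin (2 ^ s - 1) → Bool) :=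
    fun t x => hamFl t (hamFl (syn x) x)
  have hsyn : ∀ t < 2 ^ s, ∀ x, syn (st t x) = t := by
    intro t ht x
    have h1 : Y (st t x) = e ⟨t, ht⟩ := by
      have h2 := hY (hamFl (syn x) x) ⟨t, ht⟩
      have h3 := hY x (e.symm (Y x))
      rw [Equiv.apply_symm_apply, ham_char2] at h3
      show Y (hamFl t (hamFl (syn x) x)) = _
      rw [show hamFl t (hamFl (syn x) x) = hamFl ((⟨t, ht⟩ : Fin (2 ^ s)) : ℕ)
        (hamFl (syn x) x) from rfl, h2]
      rw [show Y (hamFl (syn x) x) = 0 from h3, zero_add]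
    show ((e.symm (Y (st t x)) : Fin (2 ^ s)) : ℕ) = t
    rw [h1, Equiv.symm_apply_apply]
  refine ⟨syn, st, fun x => (e.symm (Y x)).2, hsyn, ?_, ?_, ?_⟩
  · intro t ht t' ht' x
    show hamFl t' (hamFl (syn (st t x)) (st t x)) = _
    rw [hsyn t ht x]
    show hamFl t' (hamFl t (hamFl t (hamFl (syn x) x))) = hamFl t' (hamFl (syn x) x)
    rw [hamFl_hamFl]
  · intro x
    exact hamFl_hamFl _ _
  · intro t _ x
    refine (hammingDist_triangle _ (hamFl (syn x) x) _).trans ?_
    have h1 := hamFl_dist t (hamFl (syn x) x)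
    have h2 := hamFl_dist (syn x) x
    show hammingDist (hamFl t (hamFl (syn x) x)) (hamFl (syn x) x) + _ ≤ 2
    omega

theorem multi_hash (s j : ℕ) : ∃ (syn : (Fin (j * (2 ^ s - 1)) → Bool) → ℕ)
    (st : ℕ → (Fin (j * (2 ^ s - 1)) → Bool) → (Fin (j * (2 ^ s - 1)) → Bool)),
    (∀ x, syn x < 2 ^ (s * j)) ∧ (∀ t < 2 ^ (s * j), ∀ x, syn (st t x) = t) ∧
    (∀ t < 2 ^ (s * j), ∀ t' < 2 ^ (s * j), ∀ x, st t' (st t x) = st t' x) ∧
    (∀ x, st (syn x) x = x) ∧ (∀ t < 2 ^ (s * j), ∀ x, hammingDist (st t x) x ≤ 2 * j) := by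
  obtain ⟨syn0, st0, h1, h2, h3, h4, h5⟩ := hamming_chain s
  rw [pow_mul]
  have hpos : 0 < (2 ^ s) ^ j := by positivity
  -- blocks
  let bk : Fin j → (Fin (j * (2 ^ s - 1)) → Bool) → (Fin (2 ^ s - 1) → Bool) :=
    fun i x k => x (finProdFinEquiv (i, k))
  -- digits
  let dg : ℕ → Fin j → Fin (2 ^ s) := fun t =>
    finFunctionFinEquiv.symm ⟨t % (2 ^ s) ^ j, Nat.mod_lt _ hpos⟩
  let syn : (Fin (j * (2 ^ s - 1)) → Bool) → ℕ := fun x =>
    (finFunctionFinEquiv (fun i => (⟨syn0 (bk i x), h1 _⟩ : Fin (2 ^ s))) : Fin ((2 ^ s) ^ j))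
  let st : ℕ → (Fin (j * (2 ^ s - 1)) → Bool) → (Fin (j * (2 ^ s - 1)) → Bool) := fun t x q =>
    st0 (dg t (finProdFinEquiv.symm q).1) (bk (finProdFinEquiv.symm q).1 x)
      (finProdFinEquiv.symm q).2
  have hbk : ∀ t x i, bk i (st t x) = st0 (dg t i) (bk i x) := by
    intro t x i
    funext k
    show st0 (dg t (finProdFinEquiv.symm (finProdFinEquiv (i, k))).1) _ _ = _
    rw [Equiv.symm_apply_apply]
  have hext : ∀ x y : Fin (j * (2 ^ s - 1)) → Bool, (∀ i, bk i x = bk i y) → x = y := by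
    intro x y h
    funext q
    have h2 : x (finProdFinEquiv (finProdFinEquiv.symm q)) =
        y (finProdFinEquiv (finProdFinEquiv.symm q)) :=
      congrFun (h (finProdFinEquiv.symm q).1) (finProdFinEquiv.symm q).2
    rwa [Equiv.apply_symm_apply] at h2
  have hdg : ∀ x i, (dg (syn x) i : ℕ) = syn0 (bk i x) := by
    intro x i
    have e1 : (⟨syn x % (2 ^ s) ^ j, Nat.mod_lt _ hpos⟩ : Fin ((2 ^ s) ^ j)) =
        finFunctionFinEquiv (fun i => (⟨syn0 (bk i x), h1 _⟩ : Fin (2 ^ s))) := by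
      apply Fin.ext
      show syn x % (2 ^ s) ^ j = syn x
      exact Nat.mod_eq_of_lt (Fin.is_lt _)
    show ((finFunctionFinEquiv.symm (⟨syn x % (2 ^ s) ^ j, Nat.mod_lt _ hpos⟩ :
      Fin ((2 ^ s) ^ j))) i : ℕ) = _
    rw [e1, Equiv.symm_apply_apply]
  refine ⟨syn, st, fun x => Fin.is_lt _, ?_, ?_, ?_, ?_⟩
  · intro t ht x
    have e1 : (fun i => (⟨syn0 (bk i (st t x)), h1 _⟩ : Fin (2 ^ s))) = dg t := by
      funext i
      apply Fin.ext
      show syn0 (bk i (st t x)) = dg t i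
      rw [hbk, h2 _ (Fin.is_lt _)]
    show ((finFunctionFinEquiv (fun i => (⟨syn0 (bk i (st t x)), h1 _⟩ : Fin (2 ^ s))) :
      Fin ((2 ^ s) ^ j)) : ℕ) = t
    rw [e1]
    show ((finFunctionFinEquiv (finFunctionFinEquiv.symm _) : Fin ((2 ^ s) ^ j)) : ℕ) = t
    rw [Equiv.apply_symm_apply]
    exact Nat.mod_eq_of_lt ht
  · intro t _ t' _ x
    apply hext
    intro i
    rw [hbk, hbk, hbk, h3 _ (Fin.is_lt _) _ (Fin.is_lt _)]
  · intro x
    apply hext
    intro i
    rw [hbk, hdg, h4]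
  · intro t _ x
    have e1 : hammingDist (st t x) x = ∑ i, hammingDist (bk i (st t x)) (bk i x) := by
      unfold hammingDist
      rw [Finset.card_filter]
      rw [← Equiv.sum_comp finProdFinEquiv, Fintype.sum_prod_type]
      refine sum_congr rfl fun i _ => ?_
      rw [Finset.card_filter]
    rw [e1]
    calc ∑ i, hammingDist (bk i (st t x)) (bk i x) ≤ ∑ _i : Fin j, 2 := by
          refine sum_le_sum fun i _ => ?_
          rw [hbk]
          exact h5 _ (Fin.is_lt _) _
      _ = 2 * j := by simp [mul_comm]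

end BLO
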