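import Pool.Agent.Lib.BLO.Cond
import Pool.Agent.Lib.BLP.Conc2

/-!
# Chunk LOF: Littlewood-Offord bounds for states of pairs

A state of a pair is `(type, value)`; type `true` (letter `N`) is worth `± 1`, type `false`
(letter `PM`) is worth `0`.  `F` depends on the states in `T` only through the types and the values
of the `PM` letters.

`lof` (all weights `≤ u`): Fourier.  `1{|v| ≤ u} ≤ 4 (sin (v/2u) / (v/2u))^2 / 3 …` and
`(sin (y/2) / (y/2))^2 = ∫_{-1}^{1} (1 - |t|) cos (t y) dt`, so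
`P(|Z - c| ≤ u) ≤ 2 ∫_{-1}^1 |E exp(i t Z / u)| dt`; given the types and the values of the `PM` letters in `T` (and
everything outside) `|E exp(i t Z/u)| ≤ ∏_{N letters} |cos (t α_k / u)|`, averaging over the types gives
`∏_{k ∈ T} (1 + |cos (t α_k/u)|)/2 ≤ exp (- t^2 ∑ α_k^2 / (8 u^2))` for `|t| ≤ 1`.

`loe` (all weights `≥ α0`): `BLP.ac_window` for the letters in `T` (cover the window).
-/

namespace BLO

open Finset BLP

variable {P : Type*} [Fintype P] [DecidableEq P]

/-- states of the pairs -/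
abbrev PS (P : Type*) := P → Bool × Bool

/-- value of a letter -/
def val (p : Bool × Bool) : ℤ := if p.1 = true then (if p.2 = true then 1 else -1) else 0

/-- `F` depends on the states in `T` only through the types and the values of the `PM` letters -/
def Neutral (T : Finset P) (F : PS P → ℝ) : Prop :=
  ∀ z z' : PS P, (∀ k, k ∉ T → z k = z' k) → (∀ k, (z k).1 = (z' k).1) →
    (∀ k, (z k).1 = false → z k = z' k) → F z = F z'

/-- extending a state on `T` by `x` -/
def lofExt (T : Finset P) (x : PS P) (y : {k // k ∈ T} → Bool × Bool) : PS P :=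
  fun k => if h : k ∈ T then y ⟨k, h⟩ else x k

omit [Fintype P] in
theorem lofExt_mem (T : Finset P) (x : PS P) (y : {k // k ∈ T} → Bool × Bool)
    (k : {k // k ∈ T}) : lofExt T x y k = y k := by
  unfold lofExt
  rw [dif_pos k.2]

omit [Fintype P] in
theorem lofExt_not_mem (T : Finset P) (x : PS P) (y : {k // k ∈ T} → Bool × Bool)
    {k : P} (hk : k ∉ T) : lofExt T x y k = x k := by
  unfold lofExt
  rw [dif_neg hk]

/-- a conditional count is a sum over the states on `T` -/
theorem lof_ccnt (T : Finset P) (E : PS P → Prop) (x : PS P) :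
    ccnt T E x = ∑ y : {k // k ∈ T} → Bool × Bool, ind (E (lofExt T x y)) := by
  classical
  unfold ccnt
  symm
  have h1 : ∀ z : PS P, ind ((∀ i, i ∉ T → z i = x i) ∧ E z) =
      if ∀ i, i ∉ T → z i = x i then ind (E z) else 0 := by
    intro z
    by_cases h : ∀ i, i ∉ T → z i = x i
    · rw [if_pos h]
      exact ind_congr ⟨fun h' => h'.2, fun h' => ⟨h, h'⟩⟩
    · rw [if_neg h]
      exact ind_false fun h' => h h'.1
  rw [Finset.sum_congr rfl fun z _ => h1 z, ← Finset.sum_filter]
  refine Finset.sum_bij' (fun y _ => lofExt T x y) (fun z _ => fun k => z k) ?_ ?_ ?_ ?_ ?_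
  · intro y _
    rw [Finset.mem_filter]
    exact ⟨Finset.mem_univ _, fun i hi => lofExt_not_mem T x y hi⟩
  · intro z _
    exact Finset.mem_univ _
  · intro y _
    funext k
    exact lofExt_mem T x y k
  · intro z hz
    rw [Finset.mem_filter] at hz
    funext k
    by_cases hk : k ∈ T
    · exact lofExt_mem T x _ ⟨k, hk⟩
    · rw [lofExt_not_mem T x _ hk, hz.2 k hk]
  · intro y _
    rfl

omit [Fintype P] in
/-- `F` restricted to `T` -/
theorem lof_neutral (T : Finset P) (F : PS P → ℝ) (hF : Neutral T F) (x : PS P)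
    (y y' : {k // k ∈ T} → Bool × Bool) (h1 : ∀ k, (y k).1 = (y' k).1)
    (h2 : ∀ k, (y k).1 = false → y k = y' k) : F (lofExt T x y) = F (lofExt T x y') := by
  apply hF
  · intro k hk
    rw [lofExt_not_mem T x y hk, lofExt_not_mem T x y' hk]
  · intro k
    by_cases hk : k ∈ T
    · rw [lofExt_mem T x y ⟨k, hk⟩, lofExt_mem T x y' ⟨k, hk⟩]
      exact h1 _
    · rw [lofExt_not_mem T x y hk, lofExt_not_mem T x y' hk]
  · intro k
    by_cases hk : k ∈ T
    · rw [lofExt_mem T x y ⟨k, hk⟩, lofExt_mem T x y' ⟨k, hk⟩]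
      exact h2 _
    · rw [lofExt_not_mem T x y hk, lofExt_not_mem T x y' hk]
      exact fun _ => rfl

omit [Fintype P] in
theorem lof_sum (T : Finset P) (α : P → ℝ) (x : PS P) (y : {k // k ∈ T} → Bool × Bool) :
    ∑ k ∈ T, α k * (val (lofExt T x y k) : ℝ) = ∑ k : {k // k ∈ T}, α k * (val (y k) : ℝ) := by
  rw [← Finset.sum_coe_sort]
  refine Finset.sum_congr rfl fun k _ => ?_
  rw [lofExt_mem]

section fourier

variable {κ : Type*} [Fintype κ] [DecidableEq κ]

/-- Fejer kernel -/
theorem lof_kernel {y : ℝ} (hy : y ≠ 0) :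
    ∫ t in (0 : ℝ)..1, (1 - t) * Real.cos (t * y) = (1 - Real.cos y) / y ^ 2 := by
  have h1 : ∀ t ∈ Set.uIcc (0 : ℝ) 1, HasDerivAt
      (fun t => (1 - t) * (Real.sin (t * y) / y) - Real.cos (t * y) / y ^ 2)
      ((1 - t) * Real.cos (t * y)) t := by
    intro t _
    have e1 : HasDerivAt (fun t : ℝ => t * y) y t := by
      simpa using (hasDerivAt_id t).mul_const y
    have e2 := (Real.hasDerivAt_sin (t * y)).comp t e1
    have e3 := (Real.hasDerivAt_cos (t * y)).comp t e1
    have e4 : HasDerivAt (fun t : ℝ => 1 - t) (-1) t := by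
      simpa using (hasDerivAt_id t).const_sub 1
    have e5 := (e4.mul (e2.div_const y)).sub (e3.div_const (y ^ 2))
    refine e5.congr_deriv ?_
    simp only [Function.comp]
    field_simp
    ring
  rw [intervalIntegral.integral_eq_sub_of_hasDerivAt h1
    ((Continuous.intervalIntegrable (by fun_prop) _ _))]
  simp
  ring

theorem lof_kernel_nonneg (y : ℝ) : 0 ≤ ∫ t in (0 : ℝ)..1, (1 - t) * Real.cos (t * y) := by
  by_cases hy : y = 0
  · subst hy
    apply intervalIntegral.integral_nonneg zero_le_one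
    intro t ht
    simp
    linarith [ht.2]
  · rw [lof_kernel hy]
    exact div_nonneg (by linarith [Real.cos_le_one y]) (sq_nonneg y)

theorem lof_kernel_ge {y : ℝ} (hy : |y| ≤ 1) :
    1 / 4 ≤ ∫ t in (0 : ℝ)..1, (1 - t) * Real.cos (t * y) := by
  have h1 : ∫ t in (0 : ℝ)..1, (1 - t) * (1 / 2 : ℝ) = 1 / 4 := by
    rw [intervalIntegral.integral_mul_const, intervalIntegral.integral_sub (by simp) (by simp)]
    simp
    norm_num
  rw [← h1]
  apply intervalIntegral.integral_mono_on zero_le_one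
  · exact Continuous.intervalIntegrable (by fun_prop) _ _
  · exact Continuous.intervalIntegrable (by fun_prop) _ _
  · intro t ht
    apply mul_le_mul_of_nonneg_left _ (by linarith [ht.2])
    have h2 := Real.one_sub_sq_div_two_le_cos (x := t * y)
    have h3 : (t * y) ^ 2 ≤ 1 := by
      rw [sq_le_one_iff_abs_le_one, abs_mul, abs_of_nonneg ht.1]
      exact mul_le_one₀ ht.2 (abs_nonneg _) hy
    linarith

theorem lof_ind {u v : ℝ} (hu : 0 < u) :
    ind (|v| ≤ u) ≤ 4 * ∫ t in (0 : ℝ)..1, (1 - t) * Real.cos (t * (v / u)) := by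
  by_cases h : |v| ≤ u
  · rw [ind_true h]
    have := lof_kernel_ge (y := v / u) (by rw [abs_div, abs_of_pos hu, div_le_one hu]; exact h)
    linarith
  · rw [ind_false h]
    have := lof_kernel_nonneg (v / u)
    linarith

/-- the value part of the letters of type `true` is flipped by `δ` -/
def lofFl (δ : κ → Bool) (y : κ → Bool × Bool) : κ → Bool × Bool :=
  fun k => ((y k).1, if (y k).1 = true then xor (y k).2 (δ k) else (y k).2)

omit [Fintype κ] [DecidableEq κ] in
theorem lofFl_invol (δ : κ → Bool) (y : κ → Bool × Bool) : lofFl δ (lofFl δ y) = y := by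
  funext k
  unfold lofFl
  rcases hy : y k with ⟨a, b⟩
  cases a <;> cases b <;> cases δ k <;> simp

theorem lof_sum_fl (δ : κ → Bool) (φ : (κ → Bool × Bool) → ℂ) :
    ∑ y, φ (lofFl δ y) = ∑ y, φ y :=
  Equiv.sum_comp ⟨lofFl δ, lofFl δ, lofFl_invol δ, lofFl_invol δ⟩ φ

theorem lof_char (α : κ → ℝ) (N : (κ → Bool × Bool) → ℝ)
    (hN : ∀ x x' : κ → Bool × Bool, (∀ k, (x k).1 = (x' k).1) →
      (∀ k, (x k).1 = false → x k = x' k) → N x = N x') (s : ℝ) :
    |∑ y : κ → Bool × Bool, Real.cos (s * (∑ k, α k * (val (y k) : ℝ) + N y))| ≤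
      ∏ k, (2 + 2 * |Real.cos (s * α k)|) := by
  classical
  set φ : (κ → Bool × Bool) → ℂ := fun y =>
    Complex.exp ((s * (∑ k, α k * (val (y k) : ℝ) + N y) : ℝ) * Complex.I) with hφ
  have h1 : (∑ y : κ → Bool × Bool, Real.cos (s * (∑ k, α k * (val (y k) : ℝ) + N y))) =
      (∑ y, φ y).re := by
    rw [Complex.re_sum]
    refine Finset.sum_congr rfl fun y _ => ?_
    rw [hφ]
    exact (Complex.exp_ofReal_mul_I_re _).symm
  set G : κ → Bool → Bool × Bool → ℂ := fun k b p =>
    Complex.exp ((s * (α k * (val (p.1, if p.1 = true then xor p.2 b else p.2) : ℝ)) : ℝ) *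
      Complex.I) with hG
  have h2 : ∀ δ y, φ (lofFl δ y) = Complex.exp ((s * N y : ℝ) * Complex.I) *
      ∏ k, G k (δ k) (y k) := by
    intro δ y
    have h3 : N (lofFl δ y) = N y := by
      apply hN
      · intro k
        rfl
      · intro k hk
        have hk' : (y k).1 = false := hk
        apply Prod.ext
        · rfl
        · unfold lofFl
          simp [hk']
    rw [hφ, hG]
    simp only
    rw [h3, ← Complex.exp_sum, ← Complex.exp_add]
    congr 1
    rw [← Finset.sum_mul, ← add_mul]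
    congr 1
    rw [← Complex.ofReal_sum, ← Complex.ofReal_add]
    congr 1
    rw [← Finset.mul_sum, ← mul_add, add_comm]
    rfl
  have h4 : ∀ y, ∑ δ : κ → Bool, φ (lofFl δ y) = Complex.exp ((s * N y : ℝ) * Complex.I) *
      ∏ k, ∑ b, G k b (y k) := by
    intro y
    rw [Finset.sum_congr rfl fun δ _ => h2 δ y, ← Finset.mul_sum, Finset.prod_univ_sum,
      Fintype.piFinset_univ]
  have h5 : ∀ k p, ∑ b, G k b p = if p.1 = true then ((2 * Real.cos (s * α k) : ℝ) : ℂ) else 2 := by
    intro k p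
    rcases p with ⟨a, b⟩
    have h6 : Complex.exp ((s * α k : ℝ) * Complex.I) + Complex.exp (-((s * α k : ℝ) * Complex.I)) =
        ((2 * Real.cos (s * α k) : ℝ) : ℂ) := by
      push_cast
      rw [Complex.cos]
      ring_nf
    rw [Fintype.sum_bool]
    cases a
    · simp [hG, val]
      norm_num
    · rw [if_pos rfl, ← h6]
      cases b
      · simp [hG, val]
      · simp [hG, val, add_comm]
  have h6 : ∀ y, ‖∑ δ : κ → Bool, φ (lofFl δ y)‖ ≤
      ∏ k, (if (y k).1 = true then 2 * |Real.cos (s * α k)| else 2) := by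
    intro y
    rw [h4, norm_mul, Complex.norm_exp_ofReal_mul_I, one_mul, norm_prod]
    apply le_of_eq
    refine Finset.prod_congr rfl fun k _ => ?_
    rw [h5]
    split_ifs
    · rw [Complex.norm_real, Real.norm_eq_abs, abs_mul]
      norm_num
    · norm_num
  have h7 : ∑ δ : κ → Bool, ∑ y, φ (lofFl δ y) = 2 ^ Fintype.card κ * ∑ y, φ y := by
    rw [Finset.sum_congr rfl fun δ _ => lof_sum_fl δ φ, Finset.sum_const, Finset.card_univ,
      nsmul_eq_mul, Fintype.card_fun, Fintype.card_bool]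
    push_cast
    rfl
  have h8 : (2 : ℝ) ^ Fintype.card κ * ‖∑ y, φ y‖ ≤
      2 ^ Fintype.card κ * ∏ k, (2 + 2 * |Real.cos (s * α k)|) := by
    calc (2 : ℝ) ^ Fintype.card κ * ‖∑ y, φ y‖ = ‖∑ y, ∑ δ : κ → Bool, φ (lofFl δ y)‖ := by
          rw [Finset.sum_comm, h7, norm_mul, norm_pow]
          norm_num
      _ ≤ ∑ y, ‖∑ δ : κ → Bool, φ (lofFl δ y)‖ := norm_sum_le _ _
      _ ≤ ∑ y : κ → Bool × Bool,
          ∏ k, (if (y k).1 = true then 2 * |Real.cos (s * α k)| else 2) :=
          Finset.sum_le_sum fun y _ => h6 y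
      _ = ∏ k, ∑ p : Bool × Bool, (if p.1 = true then 2 * |Real.cos (s * α k)| else 2) := by
          rw [Finset.prod_univ_sum, Fintype.piFinset_univ]
      _ = ∏ k, (2 * (2 + 2 * |Real.cos (s * α k)|)) := by
          refine Finset.prod_congr rfl fun k _ => ?_
          rw [Fintype.sum_prod_type, Fintype.sum_bool]
          simp only [Fintype.sum_bool]
          simp
          ring
      _ = _ := by
          rw [Finset.prod_mul_distrib, Finset.prod_const, Finset.card_univ]
  have h9 : ‖∑ y, φ y‖ ≤ ∏ k, (2 + 2 * |Real.cos (s * α k)|) :=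
    le_of_mul_le_mul_left h8 (by positivity)
  rw [h1]
  exact (Complex.abs_re_le_norm _).trans h9

theorem lof_cos {x : ℝ} (hx : |x| ≤ 1) : 2 + 2 * |Real.cos x| ≤ 4 * Real.exp (-(x ^ 2 / 16)) := by
  have h1 : 0 ≤ Real.cos x := by
    apply Real.cos_nonneg_of_mem_Icc
    have := abs_le.1 hx
    have h2 := Real.pi_gt_three
    constructor <;> linarith
  rw [abs_of_nonneg h1]
  have h3 : Real.cos x ≤ 1 - 2 / Real.pi ^ 2 * x ^ 2 :=
    Real.cos_le_one_sub_mul_cos_sq (hx.trans (by linarith [Real.pi_gt_three]))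
  have h4 : (1 : ℝ) / 8 ≤ 2 / Real.pi ^ 2 := by
    rw [div_le_div_iff₀ (by norm_num) (by positivity)]
    nlinarith [Real.pi_gt_three, Real.pi_lt_four]
  have h5 := Real.add_one_le_exp (-(x ^ 2 / 16))
  have h6 : 1 / 8 * x ^ 2 ≤ 2 / Real.pi ^ 2 * x ^ 2 := by gcongr
  linarith

theorem lof_gauss {b : ℝ} (hb : 0 < b) :
    ∫ t in (0 : ℝ)..1, Real.exp (-(b * t ^ 2)) ≤ Real.sqrt (Real.pi / b) / 2 := by
  have h1 := integral_gaussian_Ioi b
  rw [← h1, intervalIntegral.integral_of_le zero_le_one]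
  have h2 : MeasureTheory.IntegrableOn (fun t : ℝ => Real.exp (-b * t ^ 2)) (Set.Ioi 0) :=
    (integrable_exp_neg_mul_sq hb).integrableOn
  simp only [← neg_mul]
  exact MeasureTheory.setIntegral_mono_set h2
    (Filter.Eventually.of_forall fun t => (Real.exp_pos _).le)
    (Filter.Eventually.of_forall fun t ht => ht.1)

theorem lof_core (α : κ → ℝ) (u : ℝ) (hu : 0 < u) (hα : ∀ k, |α k| ≤ u)
    (hpos : 0 < ∑ k, α k ^ 2) (N : (κ → Bool × Bool) → ℝ)
    (hN : ∀ x x' : κ → Bool × Bool, (∀ k, (x k).1 = (x' k).1) →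
      (∀ k, (x k).1 = false → x k = x' k) → N x = N x') :
    ∑ y : κ → Bool × Bool, ind (|∑ k, α k * (val (y k) : ℝ) + N y| ≤ u) ≤
      100 * u / Real.sqrt (∑ k, α k ^ 2) * 4 ^ Fintype.card κ := by
  set V := ∑ k, α k ^ 2 with hV
  set Z : (κ → Bool × Bool) → ℝ := fun y => ∑ k, α k * (val (y k) : ℝ) + N y with hZ
  have h1 : ∑ y, ind (|Z y| ≤ u) ≤
      4 * ∫ t in (0 : ℝ)..1, (1 - t) * ∑ y, Real.cos (t * (Z y / u)) := by
    have h2 : ∫ t in (0 : ℝ)..1, (1 - t) * ∑ y, Real.cos (t * (Z y / u)) =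
        ∑ y, ∫ t in (0 : ℝ)..1, (1 - t) * Real.cos (t * (Z y / u)) := by
      rw [← intervalIntegral.integral_finsetSum]
      · simp only [Finset.mul_sum]
      · intro y _
        exact Continuous.intervalIntegrable (by fun_prop) _ _
    rw [h2, Finset.mul_sum]
    exact Finset.sum_le_sum fun y _ => lof_ind hu
  have h2 : ∫ t in (0 : ℝ)..1, (1 - t) * ∑ y, Real.cos (t * (Z y / u)) ≤
      ∫ t in (0 : ℝ)..1, 4 ^ Fintype.card κ * Real.exp (-(V / (16 * u ^ 2) * t ^ 2)) := by
    apply intervalIntegral.integral_mono_on zero_le_one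
    · exact Continuous.intervalIntegrable (by fun_prop) _ _
    · exact Continuous.intervalIntegrable (by fun_prop) _ _
    · intro t ht
      have h3 := lof_char α N hN (t / u)
      have h4 : ∏ k, (2 + 2 * |Real.cos (t / u * α k)|) ≤
          ∏ k, (4 * Real.exp (-((t / u * α k) ^ 2 / 16))) := by
        apply Finset.prod_le_prod
        · intro k _
          positivity
        · intro k _
          apply lof_cos
          rw [abs_mul, abs_div, abs_of_pos hu, abs_of_nonneg ht.1]
          calc t / u * |α k| ≤ 1 / u * u := by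
                gcongr
                · exact ht.2
                · exact hα k
            _ = 1 := by field_simp
      have h5 : ∏ k, (4 * Real.exp (-((t / u * α k) ^ 2 / 16))) =
          4 ^ Fintype.card κ * Real.exp (-(V / (16 * u ^ 2) * t ^ 2)) := by
        rw [Finset.prod_mul_distrib, Finset.prod_const, Finset.card_univ, ← Real.exp_sum]
        congr 2
        rw [Finset.sum_neg_distrib, hV, Finset.sum_div, Finset.sum_mul]
        congr 1
        refine Finset.sum_congr rfl fun k _ => ?_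
        field_simp
      have h6 : ∀ y, t * (Z y / u) = t / u * (∑ k, α k * (val (y k) : ℝ) + N y) := by
        intro y
        rw [hZ]
        ring
      simp only [h6]
      have h7 := abs_le.1 (h3.trans (h4.trans (le_of_eq h5)))
      calc (1 - t) * ∑ y, Real.cos (t / u * (∑ k, α k * (val (y k) : ℝ) + N y))
          ≤ (1 - t) * (4 ^ Fintype.card κ * Real.exp (-(V / (16 * u ^ 2) * t ^ 2))) :=
            mul_le_mul_of_nonneg_left h7.2 (by linarith [ht.2])
        _ ≤ 1 * (4 ^ Fintype.card κ * Real.exp (-(V / (16 * u ^ 2) * t ^ 2))) := by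
            apply mul_le_mul_of_nonneg_right (by linarith [ht.1]) (by positivity)
        _ = _ := one_mul _
  have h3 : ∫ t in (0 : ℝ)..1, 4 ^ Fintype.card κ * Real.exp (-(V / (16 * u ^ 2) * t ^ 2)) ≤
      4 ^ Fintype.card κ * (Real.sqrt (Real.pi / (V / (16 * u ^ 2))) / 2) := by
    rw [intervalIntegral.integral_const_mul]
    exact mul_le_mul_of_nonneg_left (lof_gauss (by positivity)) (by positivity)
  have h4 : Real.sqrt (Real.pi / (V / (16 * u ^ 2))) ≤ 8 * u / Real.sqrt V := by
    rw [Real.sqrt_le_left (by positivity)]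
    rw [div_pow, Real.sq_sqrt hpos.le, div_div_eq_mul_div]
    gcongr
    nlinarith [Real.pi_lt_four, sq_nonneg u]
  calc ∑ y, ind (|Z y| ≤ u) ≤ 4 * (4 ^ Fintype.card κ * (8 * u / Real.sqrt V / 2)) := by
        refine h1.trans (mul_le_mul_of_nonneg_left (h2.trans (h3.trans ?_)) (by norm_num))
        gcongr
    _ = 16 * u / Real.sqrt V * 4 ^ Fintype.card κ := by ring
    _ ≤ _ := by
        gcongr
        norm_num

end fourier

theorem lof (T : Finset P) (α : P → ℝ) (u : ℝ) (hu : 0 < u) (hα : ∀ k ∈ T, |α k| ≤ u)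
    (hpos : 0 < ∑ k ∈ T, α k ^ 2) (F : PS P → ℝ) (hF : Neutral T F) (x : PS P) :
    ccnt T (fun z => |∑ k ∈ T, α k * (val (z k) : ℝ) + F z| ≤ u) x ≤
      100 * u / Real.sqrt (∑ k ∈ T, α k ^ 2) * 4 ^ T.card := by
  have h1 : ∑ k ∈ T, α k ^ 2 = ∑ k : {k // k ∈ T}, α k ^ 2 :=
    (Finset.sum_coe_sort T fun k => α k ^ 2).symm
  rw [lof_ccnt, h1, ← Fintype.card_coe T]
  have h2 := lof_core (fun k : {k // k ∈ T} => α k) u hu (fun k => hα k k.2) (by rw [← h1]; exact hpos)
    (fun y => F (lofExt T x y)) (fun y y' e1 e2 => lof_neutral T F hF x y y' e1 e2)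
  refine le_trans (le_of_eq ?_) h2
  refine Finset.sum_congr rfl fun y _ => ?_
  rw [lof_sum]

theorem loe (T : Finset P) (hT : T.Nonempty) (α : P → ℝ) (α0 : ℝ) (h0 : 0 < α0)
    (hα : ∀ k ∈ T, α0 ≤ |α k|) (F : PS P → ℝ) (hF : Neutral T F) (u : ℝ) (hu : 0 ≤ u) (x : PS P) :
    ccnt T (fun z => |∑ k ∈ T, α k * (val (z k) : ℝ) + F z| ≤ u) x ≤
      (u / α0 + 1) * (2 / Real.sqrt T.card) * 4 ^ T.card := by
  have : Nonempty {k // k ∈ T} := hT.to_subtype
  rw [lof_ccnt, ← Fintype.card_coe T]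
  have h2 := ac_window (fun k : {k // k ∈ T} => α k) h0 (fun k => hα k k.2)
    (fun y => F (lofExt T x y)) (fun y y' e1 e2 => lof_neutral T F hF x y y' e1 e2) 0 u hu
  refine le_trans (le_of_eq ?_) (h2.trans (le_of_eq (by ring)))
  refine Finset.sum_congr rfl fun y _ => ?_
  rw [lof_sum]
  have h3 : ∑ k : {k // k ∈ T}, α k * (val (y k) : ℝ) =
      ∑ k : {k // k ∈ T}, (if (y k).1 = true then α k * sg (y k).2 else 0) := by
    refine Finset.sum_congr rfl fun k _ => ?_
    unfold val sg
    rcases y k with ⟨a, b⟩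
    cases a <;> cases b <;> simp
  rw [h3, sub_zero]

end BLO
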