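import Pool.Agent.Lib.BLO.Defs
import Pool.Agent.Lib.BLP.Rank

/-!
# Chunk LM: law matching (last paragraph of section 7)

`S'` = the function of `BLP.law_matching` for `F = Z` (odd under `ρ`), `G = S` (odd under negation), so `S'` has the
law of `S` and is a monotone function of `Z` up to ties.  Fix `c` and a 1-Lipschitz `h`; subtract the mean
(`S`, `S'` have the same law), so `∑ h = 0` and `|h| ≤ card ι`.  If `{c < S'}` is empty or everything, so is
`{c < S}`.  Otherwise take `c'` from the last clause: `{c < S'}` and `{c' < Z}` differ only on `{Z = c'}`.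
`∑ h (1{c<S} - 1{c<S'}) = ∑ h (1{c<S} - 1{c'<S}) + ∑ h (1{c'<S} - 1{c'<Z}) + ∑ h (1{c'<Z} - 1{c<S'})`;
the second term is `≤ B` by `H1`, the third `≤ B` by `H4`.
First term: `p = ∑ |1{c<S} - 1{c'<S}| = |#{c<S'} - #{c'<S}| ≤ #{Z=c'} + |#{c'<Z} - #{c'<S}| ≤ 2 B Q(c') + 2 ε 2^n`.
Let `k` disjoint windows of radius 16 be contained in the part of the interval `J` between `c` and `c'` at
distance `≤ D` from `c'` (`k = ⌊min(|J|, D)/33⌋`, centres `c' ± (16.5 + 33 i)`): `p ≥ k (Q(c') - ε 2^n)/B` by `H3`.
If `k ≥ 4 B^2 + 2 B + 1` then `Q(c') ≤ 3 ε 2^n`, `p ≤ (6 B + 2) ε 2^n`, and the first term is at most `card ι * p`.  Otherwise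
`|J| ≤ 33 (4 B^2 + 2 B + 2)` and `J` is covered by `|J|/2 + 1` windows of radius 1: `H4`.
-/

namespace BLO

open Finset BLP

variable {ι : Type*} [Fintype ι] [DecidableEq ι]

/-- the Hamming distance bounds the variation of a Lipschitz function -/
private theorem lm_lip_dist (h : (ι → Bool) → ℝ) (hh : Lip 1 h) :
    ∀ (n : ℕ) (x y : ι → Bool), hammingDist x y = n → |h x - h y| ≤ n := by
  intro n
  induction n with
  | zero =>
    intro x y hxy
    rw [hammingDist_eq_zero] at hxy
    subst hxy
    simp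
  | succ n ih =>
    intro x y hxy
    have hne : x ≠ y := by
      intro h0
      rw [h0, hammingDist_self] at hxy
      omega
    obtain ⟨i, hi⟩ := Function.ne_iff.mp hne
    have h1 : hammingDist (flp x i) y = n := by
      have h2 : (univ.filter fun j => x j ≠ y j) =
          insert i (univ.filter fun j => flp x i j ≠ y j) := by
        ext j
        simp only [Finset.mem_filter, Finset.mem_univ, true_and, Finset.mem_insert]
        by_cases hj : j = i
        · subst hj
          simp [hi]
        · simp [flp_ne x hj, hj]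
      have h3 : i ∉ (univ.filter fun j => flp x i j ≠ y j) := by
        simp only [Finset.mem_filter, Finset.mem_univ, true_and, not_not, flp_same]
        revert hi
        cases x i <;> cases y i <;> simp
      have h4 : (univ.filter fun j => x j ≠ y j).card = n + 1 := hxy
      rw [h2, Finset.card_insert_of_notMem h3] at h4
      have : (univ.filter fun j => flp x i j ≠ y j).card = n := by omega
      exact this
    have h5 := ih _ _ h1
    have h6 := hh x i
    push_cast
    calc |h x - h y| = |(h (flp x i) - h y) - (h (flp x i) - h x)| := by congr 1; ring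
      _ ≤ |h (flp x i) - h y| + |h (flp x i) - h x| := abs_sub _ _
      _ ≤ n + 1 := by linarith

private theorem lm_abs_le (h : (ι → Bool) → ℝ) (hh : Lip 1 h) (h0 : ∑ x, h x = 0) (x : ι → Bool) :
    |h x| ≤ Fintype.card ι := by
  have hd : ∀ y, |h x - h y| ≤ Fintype.card ι := fun y =>
    (lm_lip_dist h hh _ x y rfl).trans (by exact_mod_cast hammingDist_le_card_fintype)
  obtain ⟨y, -, hy⟩ : ∃ y ∈ (univ : Finset (ι → Bool)), h y ≤ 0 := by
    by_contra hc
    push Not at hc
    have : 0 < ∑ x, h x := Finset.sum_pos (fun i hi => hc i hi) ⟨x, mem_univ x⟩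
    linarith
  obtain ⟨y', -, hy'⟩ : ∃ y ∈ (univ : Finset (ι → Bool)), 0 ≤ h y := by
    by_contra hc
    push Not at hc
    have : ∑ x, h x < 0 := Finset.sum_neg (fun i hi => hc i hi) ⟨x, mem_univ x⟩
    linarith
  have e1 := hd y
  have e2 := hd y'
  rw [abs_le] at e1 e2 ⊢
  constructor <;> linarith [e1.1, e1.2, e2.1, e2.2]

private theorem lm_T3 (c c' s z : ℝ) (h1 : c < s → c' ≤ z) (h2 : ¬ c < s → z ≤ c') :
    |ind (c' < z) - ind (c < s)| ≤ ind (|z - c'| ≤ 1) := by
  by_cases hs : c < s
  · have := h1 hs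
    by_cases hz : c' < z
    · rw [ind_true hs, ind_true hz]
      simp only [sub_self, abs_zero]
      exact ind_nonneg _
    · have hzc : z = c' := le_antisymm (not_lt.mp hz) this
      rw [ind_true hs, ind_false hz, ind_true (by rw [hzc]; simp)]
      norm_num
  · have := h2 hs
    rw [ind_false hs, ind_false (not_lt.mpr this)]
    simp only [sub_self, abs_zero]
    exact ind_nonneg _

/-- windows inside the interval between `c'` and `c` -/
private theorem lm_inside (c c' s : ℝ) (k : ℕ) (hk : 33 * (k : ℝ) ≤ |c - c'|) :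
    ∑ i ∈ range k, ind (|s - (c' + (if c' ≤ c then 1 else -1) * (33 / 2 + 33 * (i : ℝ)))| ≤ 16) ≤
      |ind (c < s) - ind (c' < s)| := by
  classical
  set σ : ℝ := if c' ≤ c then 1 else -1 with hσ
  rw [sum_ind]
  set F : Finset ℕ := (range k).filter fun i : ℕ => |s - (c' + σ * (33 / 2 + 33 * (i : ℝ)))| ≤ 16 with hF
  have hcard : F.card ≤ 1 := by
    rw [Finset.card_le_one]
    intro i hi j hj
    rw [hF, Finset.mem_filter] at hi hj
    have h1 := abs_le.mp hi.2
    have h2 := abs_le.mp hj.2
    by_contra hne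
    rcases lt_or_gt_of_ne hne with hlt | hlt
    · have : (i : ℝ) + 1 ≤ j := by exact_mod_cast hlt
      by_cases hc : c' ≤ c
      · rw [hσ, if_pos hc] at h1 h2
        linarith [h1.1, h1.2, h2.1, h2.2]
      · rw [hσ, if_neg hc] at h1 h2
        linarith [h1.1, h1.2, h2.1, h2.2]
    · have : (j : ℝ) + 1 ≤ i := by exact_mod_cast hlt
      by_cases hc : c' ≤ c
      · rw [hσ, if_pos hc] at h1 h2
        linarith [h1.1, h1.2, h2.1, h2.2]
      · rw [hσ, if_neg hc] at h1 h2
        linarith [h1.1, h1.2, h2.1, h2.2]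
  rcases Finset.eq_empty_or_nonempty F with hE | ⟨i, hi⟩
  · rw [hE]
    simp
  · have h1 : (F.card : ℝ) ≤ 1 := by exact_mod_cast hcard
    refine h1.trans ?_
    rw [hF, Finset.mem_filter, Finset.mem_range] at hi
    have h2 := abs_le.mp hi.2
    have hik : (i : ℝ) + 1 ≤ k := by exact_mod_cast hi.1
    by_cases hc : c' ≤ c
    · rw [hσ, if_pos hc] at h2
      rw [abs_of_nonneg (by linarith)] at hk
      have hi0 : (0 : ℝ) ≤ i := Nat.cast_nonneg i
      rw [ind_false (by linarith [h2.1, h2.2] : ¬ c < s), ind_true (by linarith [h2.1, h2.2] : c' < s)]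
      norm_num
    · rw [hσ, if_neg hc] at h2
      push Not at hc
      rw [abs_of_neg (by linarith)] at hk
      have hi0 : (0 : ℝ) ≤ i := Nat.cast_nonneg i
      rw [ind_true (by linarith [h2.1, h2.2] : c < s), ind_false (by linarith [h2.1, h2.2] : ¬ c' < s)]
      norm_num

/-- the interval between `c` and `c'` is covered by windows of radius `1` -/
private theorem lm_cover (c c' s : ℝ) (k : ℕ) (hk : |c - c'| < 2 * (k : ℝ)) :
    |ind (c < s) - ind (c' < s)| ≤
      ∑ i ∈ range k, ind (|s - (min c c' + 1 + 2 * (i : ℝ))| ≤ 1) := by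
  set m := min c c' with hm
  have hnn : 0 ≤ ∑ i ∈ range k, ind (|s - (m + 1 + 2 * (i : ℝ))| ≤ 1) :=
    Finset.sum_nonneg fun _ _ => ind_nonneg _
  by_cases hs : m < s ∧ s < m + 2 * k
  · obtain ⟨hs1, hs2⟩ := hs
    set i := ⌊(s - m) / 2⌋₊ with hi
    have h1 : (i : ℝ) ≤ (s - m) / 2 := Nat.floor_le (by linarith)
    have h2 : (s - m) / 2 < i + 1 := Nat.lt_floor_add_one _
    have hik : i < k := by
      have : (i : ℝ) < k := by linarith
      exact_mod_cast this
    have h3 : |ind (c < s) - ind (c' < s)| ≤ 1 := by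
      rw [abs_le]
      constructor <;> linarith [ind_nonneg (c < s), ind_nonneg (c' < s), ind_le_one (c < s),
        ind_le_one (c' < s)]
    refine h3.trans ?_
    have h4 : ind (|s - (m + 1 + 2 * (i : ℝ))| ≤ 1) = 1 := by
      refine ind_true ?_
      rw [abs_le]
      constructor <;> linarith
    exact h4.symm.le.trans (Finset.single_le_sum
      (f := fun i : ℕ => ind (|s - (m + 1 + 2 * (i : ℝ))| ≤ 1))
      (fun _ _ => ind_nonneg _) (Finset.mem_range.mpr hik))
  · have hz : ind (c < s) = ind (c' < s) := by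
      refine ind_congr ?_
      rcases le_total c c' with hcc | hcc
      · have hmc : m = c := min_eq_left hcc
        rw [abs_sub_comm, abs_of_nonneg (by linarith)] at hk
        rw [hmc] at hs
        constructor
        · intro h
          by_contra h'
          exact hs ⟨h, by linarith [not_lt.mp h']⟩
        · intro h
          linarith
      · have hmc : m = c' := min_eq_right hcc
        rw [abs_of_nonneg (by linarith)] at hk
        rw [hmc] at hs
        constructor
        · intro h
          linarith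
        · intro h
          by_contra h'
          exact hs ⟨h, by linarith [not_lt.mp h']⟩
    rw [hz]
    simpa using hnn

/-- nested events -/
private theorem lm_nested {X : Type*} [Fintype X] (S : X → ℝ) (c c' : ℝ) :
    ∑ x, |ind (c < S x) - ind (c' < S x)| ≤ |∑ x, ind (c < S x) - ∑ x, ind (c' < S x)| := by
  rw [← Finset.sum_sub_distrib]
  rcases le_total c c' with hcc | hcc
  · have : ∀ x, |ind (c < S x) - ind (c' < S x)| = ind (c < S x) - ind (c' < S x) := fun x =>
      abs_of_nonneg (by
        have := ind_mono (p := c' < S x) (q := c < S x) (fun h => by linarith)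
        linarith)
    rw [Finset.sum_congr rfl fun x _ => this x]
    exact le_abs_self _
  · have : ∀ x, |ind (c < S x) - ind (c' < S x)| = -(ind (c < S x) - ind (c' < S x)) := fun x =>
      abs_of_nonpos (by
        have := ind_mono (p := c < S x) (q := c' < S x) (fun h => by linarith)
        linarith)
    rw [Finset.sum_congr rfl fun x _ => this x, Finset.sum_neg_distrib]
    exact neg_le_abs _

variable [Nonempty ι]

theorem law_match (S Z : (ι → Bool) → ℝ) (ρ : (ι → Bool) → (ι → Bool)) (hρ : ∀ x, ρ (ρ x) = x)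
    (hρ' : ∀ x, ρ x ≠ x) (hZ : ∀ x, Z (ρ x) = - Z x) (hS : ∀ x, S (fun i => !(x i)) = - S x)
    (B ε D : ℝ) (hB : 1 ≤ B) (hε : 0 ≤ ε) (hεn : ε * Fintype.card ι ≤ 1)
    (hD : 33 * (4 * B ^ 2 + 2 * B + 3) ≤ D)
    (H1 : ∀ h : (ι → Bool) → ℝ, Lip 1 h → ∑ x, h x = 0 → ∀ c,
      |∑ x, h x * (ind (c < S x) - ind (c < Z x))| ≤ B * 2 ^ Fintype.card ι)
    (H2 : ∀ c, |∑ x, (ind (c < S x) - ind (c < Z x))| ≤
      B * ∑ x, ind (|S x - c| ≤ 16) + ε * 2 ^ Fintype.card ι)
    (H2' : ∀ c, ∑ x, ind (|Z x - c| ≤ 1) ≤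
      B * ∑ x, ind (|S x - c| ≤ 16) + ε * 2 ^ Fintype.card ι)
    (H3 : ∀ c e, |e - c| ≤ D → ∑ x, ind (|S x - c| ≤ 16) ≤
      B * ∑ x, ind (|S x - e| ≤ 16) + ε * 2 ^ Fintype.card ι)
    (H4 : ∀ h : (ι → Bool) → ℝ, Lip 1 h → ∑ x, h x = 0 → ∀ c,
      ∑ x, |h x| * ind (|S x - c| ≤ 1) ≤ B * 2 ^ Fintype.card ι ∧
      ∑ x, |h x| * ind (|Z x - c| ≤ 1) ≤ B * 2 ^ Fintype.card ι) :
    ∃ S' : (ι → Bool) → ℝ, (∀ x, S' (ρ x) = - S' x) ∧
      (∀ θ, ∃ c', ∀ x y, θ < S' x → ¬ θ < S' y → Z y ≤ c' ∧ c' ≤ Z x) ∧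
      ∀ h : (ι → Bool) → ℝ, Lip 1 h → ∀ c,
        |∑ x, h x * (ind (c < S x) - ind (c < S' x))| ≤ 1000 * B ^ 3 * 2 ^ Fintype.card ι := by
  classical
  obtain ⟨S', h1, h2, -, h4⟩ := law_matching Z S ρ (fun x i => !(x i)) hρ hρ' hZ
    (fun x => by funext i; simp) (fun x hx => by
      obtain ⟨i⟩ := ‹Nonempty ι›
      have := congrFun hx i
      simp at this) hS
  refine ⟨S', h1, h4, ?_⟩
  set M : ℝ := 2 ^ Fintype.card ι with hM
  have hMpos : 0 < M := by positivity
  have hcardX : ((Fintype.card (ι → Bool) : ℕ) : ℝ) = M := by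
    rw [Fintype.card_fun, Fintype.card_bool]
    push_cast
    rfl
  have hB0 : 0 ≤ B := by linarith
  have hBM : 0 ≤ B * M := by positivity
  have hB3 : B ≤ B ^ 3 := by nlinarith [mul_nonneg (mul_nonneg hB0 (by linarith : 0 ≤ B - 1)) (by linarith : 0 ≤ B + 1)]
  have hB3' : 1 ≤ B ^ 3 := hB.trans hB3
  have hB23 : B ^ 2 ≤ B ^ 3 := by nlinarith [mul_nonneg (sq_nonneg B) (by linarith : 0 ≤ B - 1)]
  -- functions with mean zero
  have key : ∀ h : (ι → Bool) → ℝ, Lip 1 h → ∑ x, h x = 0 → ∀ c,
      |∑ x, h x * (ind (c < S x) - ind (c < S' x))| ≤ 1000 * B ^ 3 * M := by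
    intro h hh h0 c
    have htriv : 0 ≤ 1000 * B ^ 3 * M := by positivity
    by_cases hemp : ∀ x, ¬ c < S' x
    · have e1 : ∑ x, ind (c < S x) = 0 := by
        rw [← h2 c]
        exact Finset.sum_eq_zero fun x _ => ind_false (hemp x)
      have e2 : ∀ x, ind (c < S x) = 0 := by
        have := (Finset.sum_eq_zero_iff_of_nonneg (fun x _ => ind_nonneg (c < S x))).mp e1
        exact fun x => this x (Finset.mem_univ x)
      have e3 : ∑ x, h x * (ind (c < S x) - ind (c < S' x)) = 0 :=
        Finset.sum_eq_zero fun x _ => by rw [e2 x, ind_false (hemp x)]; ring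
      rw [e3, abs_zero]
      exact htriv
    by_cases hfull : ∀ x, c < S' x
    · have e1 : ∑ x, (1 - ind (c < S x)) = 0 := by
        rw [Finset.sum_sub_distrib, ← h2 c, ← Finset.sum_sub_distrib]
        exact Finset.sum_eq_zero fun x _ => by rw [ind_true (hfull x)]; ring
      have e2 : ∀ x, 1 - ind (c < S x) = 0 := by
        have := (Finset.sum_eq_zero_iff_of_nonneg
          (fun x _ => sub_nonneg.mpr (ind_le_one (c < S x)))).mp e1
        exact fun x => this x (Finset.mem_univ x)
      have e3 : ∑ x, h x * (ind (c < S x) - ind (c < S' x)) = 0 :=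
        Finset.sum_eq_zero fun x _ => by
          rw [ind_true (hfull x)]
          have := e2 x
          have e4 : ind (c < S x) = 1 := by linarith
          rw [e4]; ring
      rw [e3, abs_zero]
      exact htriv
    push Not at hemp hfull
    obtain ⟨x1, hx1⟩ := hemp
    obtain ⟨y1, hy1⟩ := hfull
    obtain ⟨c', hc'⟩ := h4 c
    have hz1 : ∀ x, c < S' x → c' ≤ Z x := fun x hx => (hc' x y1 hx (not_lt.mpr hy1)).2
    have hz2 : ∀ y, ¬ c < S' y → Z y ≤ c' := fun y hy => (hc' x1 y hx1 hy).1
    set Q : ℝ := ∑ x, ind (|S x - c'| ≤ 16) with hQ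
    set p : ℝ := ∑ x, |ind (c < S x) - ind (c' < S x)| with hp
    -- the three terms
    have hsplit : ∑ x, h x * (ind (c < S x) - ind (c < S' x)) =
        ∑ x, h x * (ind (c < S x) - ind (c' < S x)) + ∑ x, h x * (ind (c' < S x) - ind (c' < Z x)) +
          ∑ x, h x * (ind (c' < Z x) - ind (c < S' x)) := by
      rw [← Finset.sum_add_distrib, ← Finset.sum_add_distrib]
      exact Finset.sum_congr rfl fun x _ => by ring
    have hT2 : |∑ x, h x * (ind (c' < S x) - ind (c' < Z x))| ≤ B * M := H1 h hh h0 c'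
    have hT3 : |∑ x, h x * (ind (c' < Z x) - ind (c < S' x))| ≤ B * M := by
      refine (Finset.abs_sum_le_sum_abs _ _).trans (le_trans ?_ (H4 h hh h0 c').2)
      refine Finset.sum_le_sum fun x _ => ?_
      rw [abs_mul]
      exact mul_le_mul_of_nonneg_left (lm_T3 c c' (S' x) (Z x) (hz1 x) (hz2 x)) (abs_nonneg _)
    -- bound of `p`
    have hpQ : p ≤ 2 * (B * Q + ε * M) := by
      have e1 : p ≤ |∑ x, ind (c < S x) - ∑ x, ind (c' < S x)| := lm_nested S c c'
      have e2 : |∑ x, ind (c < S' x) - ∑ x, ind (c' < Z x)| ≤ B * Q + ε * M := by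
        refine le_trans ?_ (H2' c')
        rw [← Finset.sum_sub_distrib]
        refine (Finset.abs_sum_le_sum_abs _ _).trans (Finset.sum_le_sum fun x _ => ?_)
        rw [abs_sub_comm]
        exact lm_T3 c c' (S' x) (Z x) (hz1 x) (hz2 x)
      have e3 : |∑ x, ind (c' < S x) - ∑ x, ind (c' < Z x)| ≤ B * Q + ε * M := by
        rw [← Finset.sum_sub_distrib]
        exact H2 c'
      rw [← h2 c] at e1
      have e4 : |∑ x, ind (c < S' x) - ∑ x, ind (c' < S x)| ≤
          |∑ x, ind (c < S' x) - ∑ x, ind (c' < Z x)| +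
            |∑ x, ind (c' < S x) - ∑ x, ind (c' < Z x)| := by
        have := abs_sub (∑ x, ind (c < S' x) - ∑ x, ind (c' < Z x))
          (∑ x, ind (c' < S x) - ∑ x, ind (c' < Z x))
        refine le_trans (le_of_eq ?_) this
        congr 1
        ring
      linarith
    have hT1 : |∑ x, h x * (ind (c < S x) - ind (c' < S x))| ≤ 200 * B ^ 3 * M := by
      set k0 : ℕ := ⌈4 * B ^ 2 + 2 * B + 1⌉₊ with hk0
      have hk1 : 4 * B ^ 2 + 2 * B + 1 ≤ k0 := Nat.le_ceil _
      have hk2 : (k0 : ℝ) < 4 * B ^ 2 + 2 * B + 1 + 1 := Nat.ceil_lt_add_one (by positivity)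
      have hk3 : (1 : ℝ) ≤ k0 := by nlinarith [sq_nonneg B]
      by_cases hJ : 33 * (k0 : ℝ) ≤ |c - c'|
      · -- long interval
        have hwin : k0 * (Q - ε * M) ≤ B * p := by
          set σ : ℝ := if c' ≤ c then 1 else -1 with hσ
          have hσ1 : |σ| = 1 := by
            rw [hσ]; split_ifs <;> norm_num
          have e1 : ∑ i ∈ range k0, ∑ x, ind (|S x - (c' + σ * (33 / 2 + 33 * (i : ℝ)))| ≤ 16) ≤ p := by
            rw [Finset.sum_comm]
            exact Finset.sum_le_sum fun x _ => lm_inside c c' (S x) k0 hJ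
          have e2 : ∀ i ∈ range k0, Q - ε * M ≤
              B * ∑ x, ind (|S x - (c' + σ * (33 / 2 + 33 * (i : ℝ)))| ≤ 16) := by
            intro i hi
            have hik : (i : ℝ) + 1 ≤ k0 := by exact_mod_cast Finset.mem_range.mp hi
            have hi0 : (0 : ℝ) ≤ i := Nat.cast_nonneg i
            have := H3 c' (c' + σ * (33 / 2 + 33 * (i : ℝ))) (by
              rw [add_sub_cancel_left, abs_mul, hσ1, one_mul, abs_of_nonneg (by positivity)]
              linarith)
            linarith
          calc k0 * (Q - ε * M) = ∑ i ∈ range k0, (Q - ε * M) := by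
                rw [Finset.sum_const, Finset.card_range, nsmul_eq_mul]
            _ ≤ ∑ i ∈ range k0, B * ∑ x, ind (|S x - (c' + σ * (33 / 2 + 33 * (i : ℝ)))| ≤ 16) :=
                Finset.sum_le_sum e2
            _ = B * ∑ i ∈ range k0, ∑ x, ind (|S x - (c' + σ * (33 / 2 + 33 * (i : ℝ)))| ≤ 16) := by
                rw [Finset.mul_sum]
            _ ≤ B * p := mul_le_mul_of_nonneg_left e1 hB0
        have hεM : 0 ≤ ε * M := by positivity
        have hQ2 : Q ≤ 2 * (ε * M) := by
          by_contra hc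
          push Not at hc
          have e1 : (4 * B ^ 2 + 2 * B + 1) * (Q - ε * M) ≤ k0 * (Q - ε * M) :=
            mul_le_mul_of_nonneg_right hk1 (by linarith)
          have e2 : B * p ≤ B * (2 * (B * Q + ε * M)) := mul_le_mul_of_nonneg_left hpQ hB0
          have e3 : (2 * B ^ 2 + 2 * B + 1) * Q ≤ (4 * B ^ 2 + 4 * B + 1) * (ε * M) := by nlinarith
          have e4 : (2 * B ^ 2 + 2 * B + 1) * (2 * (ε * M)) < (2 * B ^ 2 + 2 * B + 1) * Q :=
            mul_lt_mul_of_pos_left hc (by positivity)
          nlinarith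
        have hp2 : p ≤ (4 * B + 2) * (ε * M) := by
          have : B * Q ≤ B * (2 * (ε * M)) := mul_le_mul_of_nonneg_left hQ2 hB0
          linarith
        have hp0 : 0 ≤ p := Finset.sum_nonneg fun _ _ => abs_nonneg _
        calc |∑ x, h x * (ind (c < S x) - ind (c' < S x))|
            ≤ ∑ x, |h x * (ind (c < S x) - ind (c' < S x))| := Finset.abs_sum_le_sum_abs _ _
          _ ≤ ∑ x, (Fintype.card ι : ℝ) * |ind (c < S x) - ind (c' < S x)| := by
              refine Finset.sum_le_sum fun x _ => ?_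
              rw [abs_mul]
              exact mul_le_mul_of_nonneg_right (lm_abs_le h hh h0 x) (abs_nonneg _)
          _ = Fintype.card ι * p := by rw [← Finset.mul_sum]
          _ ≤ Fintype.card ι * ((4 * B + 2) * (ε * M)) :=
              mul_le_mul_of_nonneg_left hp2 (Nat.cast_nonneg _)
          _ = (ε * Fintype.card ι) * ((4 * B + 2) * M) := by ring
          _ ≤ 1 * ((4 * B + 2) * M) := mul_le_mul_of_nonneg_right hεn (by positivity)
          _ ≤ 200 * B ^ 3 * M := by
              rw [one_mul]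
              refine mul_le_mul_of_nonneg_right ?_ hMpos.le
              linarith
      · -- short interval
        push Not at hJ
        have hJ' : |c - c'| < 2 * ((17 * k0 : ℕ) : ℝ) := by
          push_cast
          linarith
        calc |∑ x, h x * (ind (c < S x) - ind (c' < S x))|
            ≤ ∑ x, |h x * (ind (c < S x) - ind (c' < S x))| := Finset.abs_sum_le_sum_abs _ _
          _ ≤ ∑ x, ∑ i ∈ range (17 * k0),
              |h x| * ind (|S x - (min c c' + 1 + 2 * (i : ℝ))| ≤ 1) := by
              refine Finset.sum_le_sum fun x _ => ?_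
              rw [abs_mul, ← Finset.mul_sum]
              exact mul_le_mul_of_nonneg_left (lm_cover c c' (S x) (17 * k0) hJ') (abs_nonneg _)
          _ = ∑ i ∈ range (17 * k0), ∑ x,
              |h x| * ind (|S x - (min c c' + 1 + 2 * (i : ℝ))| ≤ 1) := Finset.sum_comm
          _ ≤ ∑ i ∈ range (17 * k0), B * M :=
              Finset.sum_le_sum fun i _ => (H4 h hh h0 _).1
          _ = (17 * k0 : ℝ) * (B * M) := by
              rw [Finset.sum_const, Finset.card_range, nsmul_eq_mul]
              push_cast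
              ring
          _ ≤ (17 * (4 * B ^ 2 + 2 * B + 1 + 1)) * (B * M) :=
              mul_le_mul_of_nonneg_right (by linarith) hBM
          _ = (68 * B ^ 3 + 34 * B ^ 2 + 34 * B) * M := by ring
          _ ≤ 200 * B ^ 3 * M := by
              refine mul_le_mul_of_nonneg_right ?_ hMpos.le
              linarith
    rw [hsplit]
    have := abs_add_three (∑ x, h x * (ind (c < S x) - ind (c' < S x)))
      (∑ x, h x * (ind (c' < S x) - ind (c' < Z x))) (∑ x, h x * (ind (c' < Z x) - ind (c < S' x)))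
    have hBM3 : B * M ≤ B ^ 3 * M := mul_le_mul_of_nonneg_right hB3 hMpos.le
    linarith
  -- reduction to mean zero
  intro h hh c
  set m : ℝ := (∑ x, h x) / M with hm
  have e0 : ∑ x, (h x - m) = 0 := by
    rw [Finset.sum_sub_distrib, Finset.sum_const, nsmul_eq_mul, Finset.card_univ, hcardX, hm]
    field_simp
    ring
  have e1 := key (fun x => h x - m) (fun x i => by
    have := hh x i
    simpa using this) e0 c
  have e2 : ∑ x, h x * (ind (c < S x) - ind (c < S' x)) =
      ∑ x, (h x - m) * (ind (c < S x) - ind (c < S' x)) +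
        m * ∑ x, (ind (c < S x) - ind (c < S' x)) := by
    rw [Finset.mul_sum, ← Finset.sum_add_distrib]
    exact Finset.sum_congr rfl fun x _ => by ring
  have e3 : ∑ x, (ind (c < S x) - ind (c < S' x)) = 0 := by
    rw [Finset.sum_sub_distrib, h2 c, sub_self]
  rw [e2, e3, mul_zero, add_zero]
  exact e1

end BLO
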