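import Pool.Agent.Lib.BLO.Rate

/-!
# Chunk PR1: small balls for subwords

Given everything outside the blocks `a ≤ g < b`, `P(|Z[a,b) - e| ≤ u) ≤ 1000 (u + 1) rt`.
For one integer value `e` (at most `2u + 1` integers in the window): frozen blocks cost `K ε`; otherwise
(`zz_val`) let `g*` be the block of `[a, b)` with the largest `m` among the blocks with `siz > 0`.
`(x, t) ↦ setn g* t x` is injective on `{Z = e} × [0, m_{g*})` (see `prefix_window` in `BLP/CombB.lean`) into the
states with `|Z without the noise of g* - e| ≤ m_{g*}`, and `lof` with `T = seg a b`, `u = m_{g*}` bounds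
the number of these by `100 m_{g*} / √(vr a b)` (`F` = the noise of the other blocks, `Neutral` by
`BlkOK.neutral`).
-/

namespace BLO

open Finset BLP

variable {P : Type*} [Fintype P] [DecidableEq P]

/-- conditional counts as cardinalities -/
theorem lz_card {ι α : Type*} [Fintype ι] [DecidableEq ι] [Fintype α] [DecidableEq α]
    (S : Finset ι) (E : (ι → α) → Prop) [DecidablePred E] (x : ι → α) :
    ccnt S E x = ((univ.filter fun z : ι → α => (∀ i, i ∉ S → z i = x i) ∧ E z).card : ℝ) := by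
  unfold ccnt
  exact sum_ind _ _

theorem lz_le {ι α : Type*} [Fintype ι] [DecidableEq ι] [Fintype α] [DecidableEq α]
    (S : Finset ι) {E E' : (ι → α) → Prop} (h : ∀ z, E z → E' z) (x : ι → α) :
    ccnt S E x ≤ ccnt S E' x := by
  unfold ccnt
  exact Finset.sum_le_sum fun z _ => ind_mono fun h' => ⟨h'.1, h z h'.2⟩

theorem lz_or {ι α : Type*} [Fintype ι] [DecidableEq ι] [Fintype α] [DecidableEq α]
    (S : Finset ι) (E E' : (ι → α) → Prop) (x : ι → α) :
    ccnt S (fun z => E z ∨ E' z) x ≤ ccnt S E x + ccnt S E' x := by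
  unfold ccnt
  rw [← Finset.sum_add_distrib]
  refine Finset.sum_le_sum fun z _ => ?_
  refine le_trans (ind_mono ?_) (ind_or_le _ _)
  rintro ⟨h1, h2 | h2⟩
  · exact Or.inl ⟨h1, h2⟩
  · exact Or.inr ⟨h1, h2⟩

theorem lz_ex {ι α : Type*} [Fintype ι] [DecidableEq ι] [Fintype α] [DecidableEq α]
    (S : Finset ι) {β : Type*} (s : Finset β) (E : β → (ι → α) → Prop) (x : ι → α) :
    ccnt S (fun z => ∃ g ∈ s, E g z) x ≤ ∑ g ∈ s, ccnt S (E g) x := by
  unfold ccnt
  rw [Finset.sum_comm]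
  refine Finset.sum_le_sum fun z _ => ?_
  by_cases h : (∀ i, i ∉ S → z i = x i) ∧ ∃ g ∈ s, E g z
  · rw [ind_true h]
    obtain ⟨h1, g, hg, h2⟩ := h
    refine le_trans (le_of_eq (ind_true ⟨h1, h2⟩).symm)
      (Finset.single_le_sum (f := fun g => ind ((∀ i, i ∉ S → z i = x i) ∧ E g z))
        (fun g _ => ind_nonneg _) hg)
  · rw [ind_false h]
    exact Finset.sum_nonneg fun g _ => ind_nonneg _

/-- integer valued windows -/
theorem lz_window {ι α : Type*} [Fintype ι] [DecidableEq ι] [Fintype α] [DecidableEq α]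
    (S : Finset ι) (f : (ι → α) → ℤ) (e u q : ℝ) (hu : 0 ≤ u) (hq : 0 ≤ q) (x : ι → α)
    (h : ∀ w : ℤ, ccnt S (fun z => f z = w) x ≤ q) :
    ccnt S (fun z => |(f z : ℝ) - e| ≤ u) x ≤ (2 * u + 1) * q := by
  have h1 : ccnt S (fun z => |(f z : ℝ) - e| ≤ u) x ≤
      ccnt S (fun z => ∃ w ∈ Finset.Icc ⌈e - u⌉ ⌊e + u⌋, f z = w) x := by
    apply lz_le
    intro z hz
    rw [abs_le] at hz
    refine ⟨f z, ?_, rfl⟩
    rw [Finset.mem_Icc, Int.ceil_le, Int.le_floor]
    constructor <;> linarith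
  refine h1.trans ((lz_ex _ _ _ _).trans ?_)
  refine (Finset.sum_le_sum fun w _ => h w).trans ?_
  rw [Finset.sum_const, nsmul_eq_mul]
  apply mul_le_mul_of_nonneg_right _ hq
  rw [Int.card_Icc]
  have h2 : ((⌊e + u⌋ + 1 - ⌈e - u⌉ : ℤ) : ℝ) ≤ 2 * u + 1 := by
    push_cast
    have := Int.floor_le (e + u)
    have := Int.le_ceil (e - u)
    linarith
  have h3 : (((⌊e + u⌋ + 1 - ⌈e - u⌉).toNat : ℤ) : ℝ) ≤ 2 * u + 1 := by
    rw [Int.toNat_eq_max]
    push_cast
    rw [max_le_iff]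
    constructor
    · push_cast at h2
      exact h2
    · linarith
  exact_mod_cast h3

namespace Fam

variable {F : Fam P} {jj : ℕ} {ε : ℝ}

omit [DecidableEq P] in
theorem lz_mem_seg {a b : ℕ} {k : P} : k ∈ F.seg a b ↔ a ≤ F.cls k ∧ F.cls k < b := by
  unfold seg
  simp

omit [DecidableEq P] in
theorem lz_mem_blk {g : ℕ} {k : P} : k ∈ F.blk g ↔ F.cls k = g := by
  unfold blk
  simp

omit [DecidableEq P] in
/-- sums over a segment -/
theorem lz_sum_seg {M : Type*} [AddCommMonoid M] (a b : ℕ) (f : P → M) :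
    ∑ k ∈ F.seg a b, f k = ∑ g ∈ Ico a b, ∑ k ∈ F.blk g, f k := by
  rw [← Finset.sum_fiberwise_of_maps_to (s := F.seg a b) (t := Ico a b) (g := F.cls)]
  · refine Finset.sum_congr rfl fun g hg => ?_
    refine Finset.sum_congr ?_ fun _ _ => rfl
    ext k
    rw [Finset.mem_filter, lz_mem_seg, lz_mem_blk]
    rw [Finset.mem_Ico] at hg
    constructor
    · exact fun h => h.2
    · intro h
      rw [h]
      exact ⟨hg, rfl⟩
  · intro k hk
    rw [lz_mem_seg] at hk
    exact Finset.mem_Ico.2 hk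

theorem lz_vr (a b : ℕ) : ∑ k ∈ F.seg a b, (F.m (F.cls k) : ℝ) ^ 2 = F.vr a b := by
  rw [lz_sum_seg]
  unfold vr
  refine Finset.sum_congr rfl fun g _ => ?_
  rw [Finset.sum_congr rfl (g := fun _ => (F.m g : ℝ) ^ 2), Finset.sum_const, nsmul_eq_mul,
    mul_comm]
  · rfl
  · intro k hk
    rw [lz_mem_blk] at hk
    rw [hk]

theorem lz_vs (a b : ℕ) (z : PS P) :
    ∑ k ∈ F.seg a b, (F.m (F.cls k) : ℝ) * (val (z k) : ℝ) =
      ∑ g ∈ Ico a b, (F.m g : ℝ) * (F.vs g z : ℝ) := by
  rw [lz_sum_seg]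
  refine Finset.sum_congr rfl fun g _ => ?_
  unfold vs
  push_cast
  rw [Finset.mul_sum]
  refine Finset.sum_congr rfl fun k hk => ?_
  rw [lz_mem_blk] at hk
  rw [hk]

/-- frozen blocks -/
theorem lz_frz (hF : F.OK jj ε) {a b : ℕ} (hb : b ≤ F.K) (x : PS P) :
    ccnt (F.seg a b) (fun z => ∃ g ∈ Ico a b, F.frz g z) x ≤ F.K * ε * 4 ^ (F.seg a b).card := by
  refine (lz_ex _ _ _ _).trans ?_
  have h1 : ∀ g ∈ Ico a b, ccnt (F.seg a b) (F.frz g) x ≤ ε * 4 ^ (F.seg a b).card := by
    intro g hg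
    rw [Finset.mem_Ico] at hg
    have h2 := ccnt_mono (S := F.blk g) (T := F.seg a b) (by
      intro k hk
      rw [lz_mem_blk] at hk
      rw [lz_mem_seg, hk]
      exact hg) (F.frz g) ε (by
        intro y
        have := (hF.blk g (by omega)).froz y
        simpa [siz] using this) x
    simpa using h2
  refine (Finset.sum_le_sum h1).trans ?_
  rw [Finset.sum_const, nsmul_eq_mul, Nat.card_Ico, ← mul_assoc]
  have h3 : ((b - a : ℕ) : ℝ) ≤ F.K := by
    exact_mod_cast (Nat.sub_le b a).trans hb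
  have := hF.hε
  gcongr

theorem loz_one (hF : F.OK jj ε) {a b : ℕ} (hab : a < b) (hb : b ≤ F.K) (hv : 0 < F.vr a b)
    (w : ℤ) (x : PS P) :
    ccnt (F.seg a b) (fun z => SZ (F.ys z) (F.ls z) a b = w) x ≤
      100 * F.rt ε a b * 4 ^ (F.seg a b).card := by
  classical
  -- the block with the largest weight
  obtain ⟨gs, hgs, hmax⟩ : ∃ gs ∈ (Ico a b).filter fun g => 0 < F.siz g,
      ∀ g ∈ (Ico a b).filter fun g => 0 < F.siz g, F.m g ≤ F.m gs := by
    apply Finset.exists_max_image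
    rw [Finset.filter_nonempty_iff]
    by_contra hcon
    push Not at hcon
    have : F.vr a b = 0 := by
      unfold vr
      refine Finset.sum_eq_zero fun g hg => ?_
      have := hcon g hg
      have h0 : F.siz g = 0 := by omega
      rw [h0]
      simp
    linarith
  rw [Finset.mem_filter, Finset.mem_Ico] at hgs
  have hgK : gs < F.K := by omega
  have hB := hF.blk gs hgK
  have hmpos : 0 < F.m gs := hB.m_pos
  set A : PS P → ℤ := fun z => ∑ g ∈ Ico a b, (F.m g : ℤ) * F.vs g z +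
    ∑ g ∈ (Ico a b).erase gs, ((F.m g : ℤ) - 1 - 2 * (F.nu g z : ℤ)) with hA
  set X := univ.filter fun z : PS P => (∀ i, i ∉ F.seg a b → z i = x i) ∧
    ((∀ g ∈ Ico a b, ¬ F.frz g z) ∧ SZ (F.ys z) (F.ls z) a b = w) with hX
  set Y := univ.filter fun z : PS P => (∀ i, i ∉ F.seg a b → z i = x i) ∧
    |(A z : ℝ) - w| ≤ F.m gs with hY
  have hval : ∀ z ∈ X, A z + ((F.m gs : ℤ) - 1 - 2 * (F.nu gs z : ℤ)) = w := by
    intro z hz
    rw [hX, Finset.mem_filter] at hz
    have h1 := zz_val hF a b hab.le hb z (fun g h1 h2 => hz.2.2.1 g (Finset.mem_Ico.2 ⟨h1, h2⟩))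
    rw [hz.2.2.2, Finset.sum_add_distrib] at h1
    have h2 := Finset.sum_erase_add (Ico a b)
      (fun g => (F.m g : ℤ) - 1 - 2 * (F.nu g z : ℤ)) (Finset.mem_Ico.2 hgs.1)
    rw [h1, ← h2, hA]
    ring
  have hAs : ∀ z, ¬ F.frz gs z → ∀ t < F.m gs, A (F.setn gs t z) = A z := by
    intro z hz t ht
    obtain ⟨s1, s2, s3, s4, s5, s6, s7, s8⟩ := hB.setn_spec t ht z hz
    have h1 : ∀ k, val (F.setn gs t z k) = val (z k) := by
      intro k
      by_cases hk : (z k).1 = true
      · rw [s5 k hk]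
      · unfold val
        rw [s4 k, if_neg hk, if_neg hk]
    have h2 : ∀ g, F.vs g (F.setn gs t z) = F.vs g z := by
      intro g
      unfold vs
      exact Finset.sum_congr rfl fun k _ => h1 k
    have h3 : ∀ g ∈ (Ico a b).erase gs, F.nu g (F.setn gs t z) = F.nu g z := by
      intro g hg
      rw [Finset.mem_erase, Finset.mem_Ico] at hg
      exact ((hF.blk g (by omega)).loc _ _ (fun k hk => s3 k (by rw [hk]; exact hg.1))).2.2.2.1
    rw [hA]
    simp only [h2]
    congr 1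
    refine Finset.sum_congr rfl fun g hg => ?_
    rw [h3 g hg]
  have hcard : F.m gs * X.card ≤ Y.card := by
    have h0 : (X ×ˢ range (F.m gs)).card = F.m gs * X.card := by
      rw [card_product, card_range, mul_comm]
    rw [← h0]
    refine Finset.card_le_card_of_injOn (fun p => F.setn gs p.2 p.1) ?_ ?_
    · rintro ⟨z, t⟩ hzt
      obtain ⟨hz, ht⟩ := Finset.mem_product.1 (Finset.mem_coe.1 hzt)
      rw [Finset.mem_range] at ht
      simp only at hz ht
      have hv := hval z hz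
      rw [hX, Finset.mem_filter] at hz
      have hfz := hz.2.2.1 gs (Finset.mem_Ico.2 hgs.1)
      have hnu := hB.nu_lt z hfz
      obtain ⟨s1, s2, s3, s4, s5, s6, s7, s8⟩ := hB.setn_spec t ht z hfz
      rw [Finset.mem_coe, hY, Finset.mem_filter]
      refine ⟨Finset.mem_univ _, ?_, ?_⟩
      · intro i hi
        show F.setn gs t z i = x i
        rw [lz_mem_seg] at hi
        rw [s3 i (by intro h; rw [h] at hi; exact hi hgs.1)]
        exact hz.2.1 i (by rw [lz_mem_seg]; exact hi)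
      · show |(A (F.setn gs t z) : ℝ) - w| ≤ F.m gs
        rw [hAs z hfz t ht]
        have h1 : |A z - w| ≤ (F.m gs : ℤ) := by
          rw [abs_le]
          constructor <;> omega
        exact_mod_cast h1
    · rintro ⟨z, t⟩ hzt ⟨z', t'⟩ hzt' heq
      obtain ⟨hz, ht⟩ := Finset.mem_product.1 (Finset.mem_coe.1 hzt)
      obtain ⟨hz', ht'⟩ := Finset.mem_product.1 (Finset.mem_coe.1 hzt')
      rw [Finset.mem_range] at ht ht'
      simp only at hz ht hz' ht' heq
      have hv := hval z hz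
      have hv' := hval z' hz'
      rw [hX, Finset.mem_filter] at hz hz'
      have hfz := hz.2.2.1 gs (Finset.mem_Ico.2 hgs.1)
      have hfz' := hz'.2.2.1 gs (Finset.mem_Ico.2 hgs.1)
      obtain ⟨s1, s2, s3, s4, s5, s6, s7, s8⟩ := hB.setn_spec t ht z hfz
      obtain ⟨r1, r2, r3, r4, r5, r6, r7, r8⟩ := hB.setn_spec t' ht' z' hfz'
      have htt : t = t' := by rw [← s2, ← r2, heq]
      have hAA : A z = A z' := by
        rw [← hAs z hfz t ht, ← hAs z' hfz' t' ht', heq]
      have hnn : F.nu gs z = F.nu gs z' := by omega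
      have hzz : z = z' := by
        rw [← s8, ← r8, ← s7 _ (hB.nu_lt z hfz), ← r7 _ (hB.nu_lt z' hfz'), heq, hnn]
      rw [hzz, htt]
  have hYb : (Y.card : ℝ) ≤ 100 * F.m gs / Real.sqrt (F.vr a b) * 4 ^ (F.seg a b).card := by
    have h1 := lof (F.seg a b) (fun k => (F.m (F.cls k) : ℝ)) (F.m gs) (by exact_mod_cast hmpos)
      (by
        intro k hk
        rw [abs_of_nonneg (Nat.cast_nonneg _)]
        rw [lz_mem_seg] at hk
        have h2 := hmax (F.cls k) (by
          rw [Finset.mem_filter, Finset.mem_Ico]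
          refine ⟨hk, ?_⟩
          unfold siz
          rw [Finset.card_pos]
          exact ⟨k, lz_mem_blk.2 rfl⟩)
        exact_mod_cast h2)
      (by rw [lz_vr]; exact hv)
      (fun z => (∑ g ∈ (Ico a b).erase gs, ((F.m g : ℤ) - 1 - 2 * (F.nu g z : ℤ)) : ℤ) - (w : ℝ))
      (by
        intro z z' e1 e2 e3
        simp only
        congr 2
        refine Finset.sum_congr rfl fun g hg => ?_
        rw [Finset.mem_erase, Finset.mem_Ico] at hg
        rw [((hF.blk g (by omega)).neutral z z' (fun k _ => e2 k) (fun k _ h => e3 k h)).2]) x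
    rw [lz_vr] at h1
    rw [lz_card] at h1
    refine le_trans (le_of_eq ?_) h1
    rw [hY]
    congr 2
    ext z
    simp only [Finset.mem_filter, Finset.mem_univ, true_and]
    rw [lz_vs, hA]
    push_cast
    rw [add_sub_assoc]
  have hXb : (X.card : ℝ) ≤ 100 / Real.sqrt (F.vr a b) * 4 ^ (F.seg a b).card := by
    have h1 : (F.m gs : ℝ) * X.card ≤ F.m gs * (100 / Real.sqrt (F.vr a b) *
        4 ^ (F.seg a b).card) := by
      have h2 : (F.m gs : ℝ) * X.card ≤ Y.card := by exact_mod_cast hcard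
      refine h2.trans (hYb.trans (le_of_eq ?_))
      ring
    exact le_of_mul_le_mul_left h1 (by exact_mod_cast hmpos)
  have hsplit : ccnt (F.seg a b) (fun z => SZ (F.ys z) (F.ls z) a b = w) x ≤
      (X.card : ℝ) + F.K * ε * 4 ^ (F.seg a b).card := by
    refine le_trans (lz_le _ (E' := fun z => ((∀ g ∈ Ico a b, ¬ F.frz g z) ∧
      SZ (F.ys z) (F.ls z) a b = w) ∨ ∃ g ∈ Ico a b, F.frz g z) ?_ x) ?_
    · intro z hz
      by_cases h : ∃ g ∈ Ico a b, F.frz g z
      · exact Or.inr h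
      · push Not at h
        exact Or.inl ⟨h, hz⟩
    · refine (lz_or _ _ _ _).trans (add_le_add (le_of_eq ?_) (lz_frz hF hb x))
      rw [lz_card]
  refine hsplit.trans ?_
  unfold rt
  have h4 : 0 ≤ F.K * ε := mul_nonneg (Nat.cast_nonneg _) hF.hε
  have h5 : (0 : ℝ) ≤ 4 ^ (F.seg a b).card := by positivity
  have h6 := mul_nonneg h4 h5
  calc (X.card : ℝ) + F.K * ε * 4 ^ (F.seg a b).card
      ≤ 100 / Real.sqrt (F.vr a b) * 4 ^ (F.seg a b).card +
        100 * (F.K * ε * 4 ^ (F.seg a b).card) := by linarith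
    _ = _ := by ring

theorem lz_rt_nonneg (hF : F.OK jj ε) (a b : ℕ) : 0 ≤ F.rt ε a b := by
  unfold rt
  have := hF.hε
  positivity

theorem loz (hF : F.OK jj ε) {a b : ℕ} (hab : a < b) (hb : b ≤ F.K) (hv : 0 < F.vr a b) (e u : ℝ)
    (hu : 0 ≤ u) (x : PS P) :
    ccnt (F.seg a b) (fun z => |(SZ (F.ys z) (F.ls z) a b : ℝ) - e| ≤ u) x ≤
      1000 * (u + 1) * F.rt ε a b * 4 ^ (F.seg a b).card := by
  have h0 := lz_rt_nonneg hF a b
  have h1 := lz_window (F.seg a b) (fun z => SZ (F.ys z) (F.ls z) a b) e u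
    (100 * F.rt ε a b * 4 ^ (F.seg a b).card) hu (by positivity) x
    (fun w => loz_one hF hab hb hv w x)
  refine h1.trans ?_
  have h2 : 0 ≤ F.rt ε a b * 4 ^ (F.seg a b).card := by positivity
  nlinarith

end Fam

end BLO
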