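import Pool.Agent.Lib.BLP.Ops
import Mathlib.Combinatorics.KatonaCircle

/-!
# Chunk MT: mass transport along random maximal chains (LYM)

Proof.  Average over the numberings `f` of `τ` (random maximal chains `∅ ⊂ … ⊂ τ` of sets of
`true` letters; `Numbering.IsPrefix`, `card_prefixed` in `Mathlib/Combinatorics/KatonaCircle`): for `A` a
family of points of the cube, `∑_f ∑_{x ∈ A prefix of f} C(m, |x|) = m! |A|`, `|x|` = number of `true`s.
`A = {|Z1 - c| ≤ 1, |Z2 - c'| ≤ D, central}`, `B = {|Z2 - c'| ≤ 16}`.  Along a chain `Z1` increases by at least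
`1` per step, so the chain meets `A` in at most `3` points; if it meets `A` in `x`, going up or down at most
`D` steps along the chain (`Z2` increases by an amount in `[1,16]` per step) one meets a `y ∈ B`; the ratio
`C(m,|x|) / C(m,|y|)` is at most `exp (8 Λ' D' / m) ≤ 3` in the central range.
-/

namespace BLO

open Finset BLP

variable {τ : Type*} [Fintype τ] [DecidableEq τ]

/-- number of `true` letters -/
def mt_ct (x : τ → Bool) : ℕ := (univ.filter fun i => x i = true).card

/-- the `k`-th point of the chain of the numbering `f` -/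
def mt_ch (f : Numbering τ) (k : ℕ) : τ → Bool := fun i => decide ((f i : ℕ) < k)

theorem mt_ct_ch (f : Numbering τ) {k : ℕ} (hk : k ≤ Fintype.card τ) : mt_ct (mt_ch f k) = k := by
  unfold mt_ct mt_ch
  simp only [decide_eq_true_eq]
  have h1 : (univ.filter fun i : τ => (f i : ℕ) < k).card =
      (univ.filter fun j : Fin (Fintype.card τ) => (j : ℕ) < k).card := by
    refine Finset.card_equiv f fun i => ?_
    simp
  rw [h1, Fin.card_filter_val_lt]
  omega

theorem mt_ch_succ (f : Numbering τ) {k : ℕ} (hk : k < Fintype.card τ) :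
    mt_ch f (k + 1) = flp (mt_ch f k) (f.symm ⟨k, hk⟩) := by
  funext i
  by_cases h : i = f.symm ⟨k, hk⟩
  · subst h
    rw [flp_same]
    simp [mt_ch]
  · rw [flp_ne _ h]
    have h2 : (f i : ℕ) ≠ k := by
      intro h3
      apply h
      rw [Equiv.eq_symm_apply]
      exact Fin.ext h3
    unfold mt_ch
    rw [decide_eq_decide]
    omega

theorem mt_ch_false (f : Numbering τ) {k : ℕ} (hk : k < Fintype.card τ) :
    mt_ch f k (f.symm ⟨k, hk⟩) = false := by
  simp [mt_ch]

theorem mt_card (x : τ → Bool) :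
    (univ.filter fun f : Numbering τ => x = mt_ch f (mt_ct x)).card =
      (mt_ct x).factorial * (Fintype.card τ - mt_ct x).factorial := by
  have h := Numbering.card_prefixed (univ.filter fun i => x i = true)
  unfold mt_ct
  rw [← h]
  congr 1
  ext f
  simp only [Finset.mem_filter, Finset.mem_univ, true_and, Numbering.mem_prefixed,
    Numbering.IsPrefix]
  constructor
  · intro h i
    have := congrFun h i
    rw [this]
    simp [mt_ch]
  · intro h
    funext i
    have := h i
    unfold mt_ch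
    rcases hx : x i with _ | _
    · rw [hx] at this
      simp only [Bool.false_eq_true, false_iff] at this
      simp [this]
    · rw [hx] at this
      simp only [true_iff] at this
      simp [this]

theorem mt_ct_le (x : τ → Bool) : mt_ct x ≤ Fintype.card τ := Finset.card_le_univ _

/-- LYM double counting -/
theorem mt_lym (g : (τ → Bool) → ℝ) :
    ∑ f : Numbering τ, ∑ k ∈ range (Fintype.card τ + 1),
      ((Fintype.card τ).choose k : ℝ) * g (mt_ch f k) =
      ((Fintype.card τ).factorial : ℝ) * ∑ x, g x := by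
  have h1 : ∀ f : Numbering τ, ∑ k ∈ range (Fintype.card τ + 1),
      ((Fintype.card τ).choose k : ℝ) * g (mt_ch f k) =
      ∑ x ∈ univ.filter (fun x : τ → Bool => x = mt_ch f (mt_ct x)),
        ((Fintype.card τ).choose (mt_ct x) : ℝ) * g x := by
    intro f
    refine Finset.sum_bij' (fun k _ => mt_ch f k) (fun x _ => mt_ct x) ?_ ?_ ?_ ?_ ?_
    · intro k hk
      rw [Finset.mem_range] at hk
      simp only [Finset.mem_filter, Finset.mem_univ, true_and]
      rw [mt_ct_ch f (by omega)]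
    · intro x _
      rw [Finset.mem_range]
      have := mt_ct_le x
      omega
    · intro k hk
      rw [Finset.mem_range] at hk
      exact mt_ct_ch f (by omega)
    · intro x hx
      simp only [Finset.mem_filter, Finset.mem_univ, true_and] at hx
      exact hx.symm
    · intro k hk
      rw [Finset.mem_range] at hk
      rw [mt_ct_ch f (by omega)]
  rw [Finset.sum_congr rfl fun f _ => h1 f]
  have h2 : ∀ f : Numbering τ, ∑ x ∈ univ.filter (fun x : τ → Bool => x = mt_ch f (mt_ct x)),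
        ((Fintype.card τ).choose (mt_ct x) : ℝ) * g x =
      ∑ x : τ → Bool, ind (x = mt_ch f (mt_ct x)) *
        (((Fintype.card τ).choose (mt_ct x) : ℝ) * g x) := by
    intro f
    rw [Finset.sum_filter]
    refine Finset.sum_congr rfl fun x _ => ?_
    by_cases h : x = mt_ch f (mt_ct x)
    · rw [if_pos h, ind_true h, one_mul]
    · rw [if_neg h, ind_false h, zero_mul]
  rw [Finset.sum_congr rfl fun f _ => h2 f, Finset.sum_comm, Finset.mul_sum]
  refine Finset.sum_congr rfl fun x _ => ?_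
  rw [← Finset.sum_mul, sum_ind, mt_card]
  have h3 := Nat.choose_mul_factorial_mul_factorial (mt_ct_le x)
  rw [← h3]
  push_cast
  ring

/-- slowly varying sequences -/
theorem mt_slow (w : ℕ → ℝ) (ε : ℝ) (hε : 0 ≤ ε) (hε1 : ε ≤ 1) (lo hi : ℕ)
    (hup : ∀ k, lo ≤ k → k < hi → (1 - ε) * w k ≤ w (k + 1)) (hw : ∀ k, 0 ≤ w k)
    (hdn : ∀ k, lo ≤ k → k < hi → (1 - ε) * w (k + 1) ≤ w k) :
    (∀ j k, lo ≤ k → k + j ≤ hi → (1 - ε * j) * w k ≤ w (k + j)) ∧
    (∀ j k, lo ≤ k → k + j ≤ hi → (1 - ε * j) * w (k + j) ≤ w k) := by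
  constructor
  · intro j
    induction j with
    | zero => intro k _ _; simp
    | succ j ih =>
      intro k hk hj
      have h1 := ih k hk (by omega)
      have h2 := hup (k + j) (by omega) (by omega)
      have h3 : (1 - ε) * ((1 - ε * j) * w k) ≤ (1 - ε) * w (k + j) :=
        mul_le_mul_of_nonneg_left h1 (by linarith)
      have h4 : 0 ≤ ε * (ε * j) * w k := by
        have := hw k
        positivity
      push_cast
      rw [← add_assoc]
      nlinarith
  · intro j
    induction j with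
    | zero => intro k _ _; simp
    | succ j ih =>
      intro k hk hj
      have h1 := ih (k + 1) (by omega) (by omega)
      have h2 := hdn k (by omega) (by omega)
      have h3 : (1 - ε) * ((1 - ε * j) * w (k + 1 + j)) ≤ (1 - ε) * w (k + 1) :=
        mul_le_mul_of_nonneg_left h1 (by linarith)
      have h4 : 0 ≤ ε * (ε * j) * w (k + 1 + j) := by
        have := hw (k + 1 + j)
        positivity
      have h5 : k + (j + 1) = k + 1 + j := by ring
      push_cast
      rw [h5]
      nlinarith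

/-- binomial coefficients in the central range -/
theorem mt_binom (m Q P : ℕ) (hQ : 20 ≤ Q) (hQP : Q ≤ P) (hm : 16 * Q * P ≤ m) (k : ℕ)
    (hk1 : m ≤ 2 * k + 2 * P) (hk2 : 2 * k + 2 ≤ m + 2 * P) :
    (1 - 2 / (7 * (Q : ℝ))) * (m.choose k : ℝ) ≤ (m.choose (k + 1) : ℝ) ∧
    (1 - 2 / (7 * (Q : ℝ))) * (m.choose (k + 1) : ℝ) ≤ (m.choose k : ℝ) := by
  have hP : 20 ≤ P := le_trans hQ hQP
  have hkm : k < m := by nlinarith
  have h := Nat.choose_succ_right_eq m k
  have h' : (m.choose (k + 1) : ℝ) * ((k : ℝ) + 1) = (m.choose k : ℝ) * ((m : ℝ) - k) := by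
    have := congrArg (fun n : ℕ => (n : ℝ)) h
    push_cast [Nat.cast_sub hkm.le] at this
    exact this
  have hk1' : (m : ℝ) ≤ 2 * k + 2 * P := by exact_mod_cast hk1
  have hk2' : 2 * (k : ℝ) + 2 ≤ m + 2 * P := by exact_mod_cast hk2
  have hm' : 16 * (Q : ℝ) * P ≤ m := by exact_mod_cast hm
  have hQ' : (20 : ℝ) ≤ Q := by exact_mod_cast hQ
  have hP' : (20 : ℝ) ≤ P := by exact_mod_cast hP
  have hQP1 : (20 : ℝ) * P ≤ Q * P := by nlinarith
  have hkQ : 7 * (Q : ℝ) * P ≤ k := by nlinarith
  have hkQ' : 7 * (Q : ℝ) * P ≤ m - k - 1 := by nlinarith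
  have hc0 : (0 : ℝ) ≤ (m.choose k : ℝ) := Nat.cast_nonneg _
  have hc1 : (0 : ℝ) ≤ (m.choose (k + 1) : ℝ) := Nat.cast_nonneg _
  have hq0 : (0 : ℝ) < 7 * (Q : ℝ) := by linarith
  constructor
  · -- (1 - ε) C ≤ C'
    have hpos : (0 : ℝ) < (k : ℝ) + 1 := by positivity
    refine le_of_mul_le_mul_right ?_ hpos
    rw [h']
    have h6 : (1 - 2 / (7 * (Q : ℝ))) * ((k : ℝ) + 1) ≤ (m : ℝ) - k := by
      have h7 : (2 : ℝ) * P ≤ 2 / (7 * (Q : ℝ)) * ((k : ℝ) + 1) := by
        rw [div_mul_eq_mul_div, le_div_iff₀ hq0]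
        nlinarith
      nlinarith
    nlinarith
  · have hpos : (0 : ℝ) < (m : ℝ) - k := by nlinarith
    refine le_of_mul_le_mul_right ?_ hpos
    rw [← h']
    have h6 : (1 - 2 / (7 * (Q : ℝ))) * ((m : ℝ) - k) ≤ (k : ℝ) + 1 := by
      have h7 : (2 : ℝ) * P ≤ 2 / (7 * (Q : ℝ)) * ((m : ℝ) - k) := by
        rw [div_mul_eq_mul_div, le_div_iff₀ hq0]
        nlinarith
      nlinarith
    nlinarith

/-- growth along the chain -/
theorem mt_grow (Z : ℕ → ℝ) (m : ℕ) (h : ∀ k, k < m → 1 ≤ Z (k + 1) - Z k) :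
    ∀ j k, k + j ≤ m → Z k + j ≤ Z (k + j) := by
  intro j
  induction j with
  | zero => intro k _; simp
  | succ j ih =>
    intro k hk
    have h1 := ih k (by omega)
    have h2 := h (k + j) (by omega)
    have h3 : k + (j + 1) = k + j + 1 := by ring
    rw [h3]
    push_cast
    linarith

/-- finding a point near `c'` -/
theorem mt_find (Z : ℕ → ℝ) (m D : ℕ) (c' : ℝ)
    (h : ∀ k, k < m → 1 ≤ Z (k + 1) - Z k ∧ Z (k + 1) - Z k ≤ 16) (k : ℕ) (hk : D ≤ k)
    (hkm : k + D ≤ m) (hZ : |Z k - c'| ≤ D) :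
    (∃ j, j ≤ D ∧ |Z (k + j) - c'| ≤ 16) ∨ (∃ j, j ≤ D ∧ |Z (k - j) - c'| ≤ 16) := by
  have hg := mt_grow Z m fun k hk => (h k hk).1
  rw [abs_le] at hZ
  by_cases hc : Z k ≤ c'
  · left
    have hex : ∃ j, c' ≤ Z (k + j) := ⟨D, by have := hg D k hkm; linarith [hZ.1]⟩
    classical
    let j := Nat.find hex
    have hj : c' ≤ Z (k + j) := Nat.find_spec hex
    have hjD : j ≤ D := Nat.find_min' hex (by
      have := hg D k hkm
      linarith [hZ.1])
    refine ⟨j, hjD, ?_⟩
    rw [abs_le]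
    rcases Nat.eq_zero_or_pos j with h0 | hpos
    · rw [h0] at hj ⊢
      simp only [add_zero] at hj ⊢
      constructor <;> linarith
    · have hm := Nat.find_min hex (show j - 1 < j by omega)
      push Not at hm
      have h2 := (h (k + (j - 1)) (by omega)).2
      have h3 : k + (j - 1) + 1 = k + j := by omega
      rw [h3] at h2
      constructor <;> linarith
  · right
    push Not at hc
    have hD0 : Z (k - D) ≤ c' := by
      have := hg D (k - D) (by omega)
      rw [Nat.sub_add_cancel hk] at this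
      linarith [hZ.2]
    have hex : ∃ j, Z (k - j) ≤ c' := ⟨D, hD0⟩
    classical
    let j := Nat.find hex
    have hj : Z (k - j) ≤ c' := Nat.find_spec hex
    have hjD : j ≤ D := Nat.find_min' hex hD0
    refine ⟨j, hjD, ?_⟩
    rw [abs_le]
    rcases Nat.eq_zero_or_pos j with h0 | hpos
    · rw [h0] at hj
      simp only [Nat.sub_zero] at hj
      linarith
    · have hm := Nat.find_min hex (show j - 1 < j by omega)
      push Not at hm
      have h2 := (h (k - j) (by omega)).2
      have h3 : k - j + 1 = k - (j - 1) := by omega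
      rw [h3] at h2
      constructor <;> linarith

theorem mt (Z1 Z2 : (τ → Bool) → ℝ)
    (h1 : ∀ x i, x i = false → 1 ≤ Z1 (flp x i) - Z1 x ∧ Z1 (flp x i) - Z1 x ≤ 16)
    (h2 : ∀ x i, x i = false → 1 ≤ Z2 (flp x i) - Z2 x ∧ Z2 (flp x i) - Z2 x ≤ 16)
    (c c' : ℝ) (D Λ : ℕ) (hD : 16 * (D + 20) * (Λ + D + 20) ≤ Fintype.card τ) :
    ∑ x : τ → Bool, ind (|Z1 x - c| ≤ 1 ∧ |Z2 x - c'| ≤ D ∧
        |2 * ((univ.filter fun i => x i = true).card : ℝ) - Fintype.card τ| ≤ 2 * Λ) ≤
      100 * ∑ x : τ → Bool, ind (|Z2 x - c'| ≤ 16) := by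
  set m := Fintype.card τ with hm
  have hfac : (0 : ℝ) < (m.factorial : ℝ) := by exact_mod_cast Nat.factorial_pos m
  refine le_of_mul_le_mul_left ?_ hfac
  rw [mul_left_comm, ← mt_lym, ← mt_lym, Finset.mul_sum]
  refine Finset.sum_le_sum fun f _ => ?_
  rw [← hm]
  set W : ℕ → ℝ := fun k => (m.choose k : ℝ) with hW
  set B : ℝ := ∑ k ∈ range (m + 1), (m.choose k : ℝ) * ind (|Z2 (mt_ch f k) - c'| ≤ 16) with hB
  have hB0 : 0 ≤ B := Finset.sum_nonneg fun k _ => mul_nonneg (Nat.cast_nonneg _) (ind_nonneg _)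
  have hstep1 : ∀ k, k < m → 1 ≤ Z1 (mt_ch f (k + 1)) - Z1 (mt_ch f k) := by
    intro k hk
    have := h1 (mt_ch f k) (f.symm ⟨k, hk⟩) (mt_ch_false f hk)
    rw [← mt_ch_succ f hk] at this
    exact this.1
  have hstep2 : ∀ k, k < m → 1 ≤ Z2 (mt_ch f (k + 1)) - Z2 (mt_ch f k) ∧
      Z2 (mt_ch f (k + 1)) - Z2 (mt_ch f k) ≤ 16 := by
    intro k hk
    have := h2 (mt_ch f k) (f.symm ⟨k, hk⟩) (mt_ch_false f hk)
    rw [← mt_ch_succ f hk] at this
    exact this
  have hg1 := mt_grow (fun k => Z1 (mt_ch f k)) m hstep1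
  -- the set of indices in `A`
  set A : Finset ℕ := (range (m + 1)).filter fun k => |Z1 (mt_ch f k) - c| ≤ 1 ∧
    |Z2 (mt_ch f k) - c'| ≤ D ∧ |2 * (k : ℝ) - m| ≤ 2 * Λ with hA
  have hlhs : ∑ k ∈ range (m + 1), (m.choose k : ℝ) * ind (|Z1 (mt_ch f k) - c| ≤ 1 ∧
      |Z2 (mt_ch f k) - c'| ≤ D ∧
        |2 * ((univ.filter fun i => mt_ch f k i = true).card : ℝ) - m| ≤ 2 * Λ) =
      ∑ k ∈ A, (m.choose k : ℝ) := by
    rw [hA, Finset.sum_filter]
    refine Finset.sum_congr rfl fun k hk => ?_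
    rw [Finset.mem_range] at hk
    have e1 : (univ.filter fun i => mt_ch f k i = true).card = k := mt_ct_ch f (by omega)
    rw [e1]
    split_ifs with h
    · rw [ind_true h, mul_one]
    · rw [ind_false h, mul_zero]
  rw [hlhs]
  -- at most three elements
  have hcard : A.card ≤ 3 := by
    rcases A.eq_empty_or_nonempty with he | hne
    · rw [he]; simp
    · set k0 := A.min' hne with hk0
      have hsub : A ⊆ Finset.Icc k0 (k0 + 2) := by
        intro k hk
        have hle := A.min'_le k hk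
        rw [Finset.mem_Icc]
        refine ⟨hle, ?_⟩
        have hk0m := A.min'_mem hne
        rw [← hk0] at hk0m hle
        rw [hA, Finset.mem_filter, Finset.mem_range] at hk hk0m
        have := hg1 (k - k0) k0 (by omega)
        rw [Nat.add_sub_cancel' hle] at this
        have a1 := abs_le.mp hk.2.1
        have a2 := abs_le.mp hk0m.2.1
        have h3 : ((k - k0 : ℕ) : ℝ) ≤ 2 := by
          linarith [a1.2, a2.1]
        have h4 : k - k0 ≤ 2 := by exact_mod_cast h3
        omega
      calc A.card ≤ (Finset.Icc k0 (k0 + 2)).card := Finset.card_le_card hsub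
        _ = 3 := by rw [Nat.card_Icc]; omega
  have hterm : ∀ k ∈ A, (m.choose k : ℝ) ≤ 3 * B := by
    intro k hk
    rw [hA, Finset.mem_filter, Finset.mem_range] at hk
    obtain ⟨hkm, -, hZ2, hcen⟩ := hk
    rw [abs_le] at hcen
    have c1 : 2 * k ≤ m + 2 * Λ := by
      have : 2 * (k : ℝ) ≤ m + 2 * Λ := by linarith [hcen.2]
      exact_mod_cast this
    have c2 : m ≤ 2 * k + 2 * Λ := by
      have : (m : ℝ) ≤ 2 * k + 2 * Λ := by linarith [hcen.1]
      exact_mod_cast this
    set Q := D + 20 with hQdef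
    set P := Λ + D + 20 with hPdef
    have hQP : Q ≤ P := by omega
    have hbin := mt_binom m Q P (by omega) hQP hD
    have hPm : 320 * P ≤ m := by nlinarith
    have hQ' : (20 : ℝ) ≤ (Q : ℝ) := by exact_mod_cast (by omega : 20 ≤ Q)
    have hε0 : (0 : ℝ) ≤ 2 / (7 * (Q : ℝ)) := by positivity
    have hε1 : 2 / (7 * (Q : ℝ)) ≤ 1 := by
      rw [div_le_one (by linarith)]; linarith
    have hslow := mt_slow W (2 / (7 * (Q : ℝ))) hε0 hε1 (k - D) (k + D)
      (fun l hl1 hl2 => (hbin l (by omega) (by omega)).1) (fun l => Nat.cast_nonneg _)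
      (fun l hl1 hl2 => (hbin l (by omega) (by omega)).2)
    have hDk : D ≤ k := by omega
    have hkD : k + D ≤ m := by omega
    have hεj : ∀ j : ℕ, j ≤ D → (5 : ℝ) / 7 ≤ 1 - 2 / (7 * (Q : ℝ)) * j := by
      intro j hj
      have hjQ : (j : ℝ) ≤ Q := by exact_mod_cast (by omega : j ≤ Q)
      have : 2 / (7 * (Q : ℝ)) * j ≤ 2 / 7 := by
        rw [div_mul_eq_mul_div, div_le_div_iff₀ (by linarith) (by norm_num)]
        nlinarith
      linarith
    have hBk : ∀ l, l ≤ m → |Z2 (mt_ch f l) - c'| ≤ 16 → (m.choose l : ℝ) ≤ B := by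
      intro l hl h16
      have : (m.choose l : ℝ) * ind (|Z2 (mt_ch f l) - c'| ≤ 16) ≤ B := by
        rw [hB]
        exact Finset.single_le_sum
          (f := fun k => (m.choose k : ℝ) * ind (|Z2 (mt_ch f k) - c'| ≤ 16))
          (fun k _ => mul_nonneg (Nat.cast_nonneg _) (ind_nonneg _))
          (Finset.mem_range.mpr (by omega))
      rwa [ind_true h16, mul_one] at this
    rcases mt_find (fun k => Z2 (mt_ch f k)) m D c' hstep2 k hDk hkD hZ2 with
      ⟨j, hj, hj16⟩ | ⟨j, hj, hj16⟩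
    · have a1 := hslow.1 j k (by omega) (by omega)
      have a2 := hBk (k + j) (by omega) hj16
      have a3 := hεj j hj
      have a4 : (0 : ℝ) ≤ W k := Nat.cast_nonneg _
      have a5 : (5 : ℝ) / 7 * W k ≤ B := by
        refine le_trans (mul_le_mul_of_nonneg_right a3 a4) (le_trans a1 a2)
      have : W k ≤ 3 * B := by linarith
      exact this
    · have a1 := hslow.2 j (k - j) (by omega) (by omega)
      rw [Nat.sub_add_cancel (by omega : j ≤ k)] at a1
      have a2 := hBk (k - j) (by omega) hj16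
      have a3 := hεj j hj
      have a4 : (0 : ℝ) ≤ W k := Nat.cast_nonneg _
      have a5 : (5 : ℝ) / 7 * W k ≤ B := by
        refine le_trans (mul_le_mul_of_nonneg_right a3 a4) (le_trans a1 a2)
      have : W k ≤ 3 * B := by linarith
      exact this
  calc ∑ k ∈ A, (m.choose k : ℝ) ≤ ∑ k ∈ A, 3 * B := Finset.sum_le_sum hterm
    _ = A.card * (3 * B) := by rw [Finset.sum_const, nsmul_eq_mul]
    _ ≤ 3 * (3 * B) := by
        refine mul_le_mul_of_nonneg_right ?_ (by linarith)
        exact_mod_cast hcard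
    _ ≤ 100 * B := by linarith

end BLO
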