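import Pool.Agent.Lib.BLO.Rate
import Pool.Agent.Lib.BLO.Loz

/-!
# Chunk PR3: moments of the length, small balls at the scale of the letters

* `mom`: for every chain decomposition `∑_x l (l + 2) = 3 ∑_x (l - 2 y)^2` (the position is uniform; double
  counting with `(x, t) ↦ (dec x t, y x)`), `l - 2 y = m vs + (m - 1 - 2 nu)` if not frozen and
  `∑_x vs^2 = siz / 2 * 4^|P|`.
* `lox`: `loe` with the letters of weight `≥ m0` in `seg a b`, then `ccnt_mono`; frozen blocks cost `K ε`.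
-/

namespace BLO

open Finset BLP

variable {P : Type*} [Fintype P] [DecidableEq P]

/-- double counting in a chain -/
theorem mo_swap {X : Type*} [Fintype X] [DecidableEq X] (C : Chain X) (f : ℕ → ℕ → ℝ) :
    ∑ x, ∑ t ∈ range (C.l x + 1), f (C.l x) t =
      ∑ x, ∑ _t ∈ range (C.l x + 1), f (C.l x) (C.y x) := by
  rw [Finset.sum_sigma', Finset.sum_sigma']
  refine Finset.sum_bij' (fun p _ => ⟨C.dec p.1 p.2, C.y p.1⟩) (fun p _ => ⟨C.dec p.1 p.2, C.y p.1⟩)
    ?_ ?_ ?_ ?_ ?_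
  · rintro ⟨x, t⟩ h
    simp only [Finset.mem_sigma, Finset.mem_univ, Finset.mem_range, true_and] at h ⊢
    rw [C.l_dec]
    have := C.y_le x
    omega
  · rintro ⟨x, t⟩ h
    simp only [Finset.mem_sigma, Finset.mem_univ, Finset.mem_range, true_and] at h ⊢
    rw [C.l_dec]
    have := C.y_le x
    omega
  · rintro ⟨x, t⟩ h
    simp only [Finset.mem_sigma, Finset.mem_univ, Finset.mem_range, true_and] at h
    simp only
    rw [C.dec_dec, C.dec_y, C.y_dec, min_eq_left (by omega)]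
  · rintro ⟨x, t⟩ h
    simp only [Finset.mem_sigma, Finset.mem_univ, Finset.mem_range, true_and] at h
    simp only
    rw [C.dec_dec, C.dec_y, C.y_dec, min_eq_left (by omega)]
  · rintro ⟨x, t⟩ h
    simp only [Finset.mem_sigma, Finset.mem_univ, Finset.mem_range, true_and] at h
    simp only
    rw [C.l_dec, C.y_dec, min_eq_left (by omega)]

theorem mo_sum (l : ℕ) : ∑ t ∈ range (l + 1), ((l : ℝ) - 2 * t) ^ 2 = (l : ℝ) * (l + 1) * (l + 2) / 3 := by
  have h : ∀ n : ℕ, ∑ t ∈ range n, ((l : ℝ) - 2 * t) ^ 2 =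
      n * (l : ℝ) ^ 2 - 2 * l * (n * (n - 1)) + 2 * (n * (n - 1) * (2 * n - 1)) / 3 := by
    intro n
    induction n with
    | zero => simp
    | succ n ih =>
      rw [Finset.sum_range_succ, ih]
      push_cast
      ring
  rw [h]
  push_cast
  ring

/-- the position in a chain is uniform: second moment -/
theorem mo_chain {X : Type*} [Fintype X] [DecidableEq X] (C : Chain X) :
    ∑ x, (C.l x : ℝ) ^ 2 ≤ 3 * ∑ x, (((C.l x : ℤ) - 2 * C.y x : ℤ) : ℝ) ^ 2 := by
  have h1 := mo_swap C (fun l t => ((l : ℝ) - 2 * t) ^ 2 / (l + 1))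
  have h2 : ∀ x, ∑ t ∈ range (C.l x + 1), ((C.l x : ℝ) - 2 * t) ^ 2 / (C.l x + 1) =
      (C.l x : ℝ) * (C.l x + 2) / 3 := by
    intro x
    rw [← Finset.sum_div, mo_sum]
    have : (C.l x : ℝ) + 1 ≠ 0 := by positivity
    field_simp
  have h3 : ∀ x, ∑ _t ∈ range (C.l x + 1), ((C.l x : ℝ) - 2 * C.y x) ^ 2 / (C.l x + 1) =
      ((C.l x : ℝ) - 2 * C.y x) ^ 2 := by
    intro x
    rw [Finset.sum_const, Finset.card_range, nsmul_eq_mul]
    have : (C.l x : ℝ) + 1 ≠ 0 := by positivity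
    push_cast
    field_simp
  rw [Finset.sum_congr rfl fun x _ => h2 x, Finset.sum_congr rfl fun x _ => h3 x] at h1
  push_cast
  rw [← h1, Finset.mul_sum]
  refine Finset.sum_le_sum fun x _ => ?_
  have : (0 : ℝ) ≤ C.l x := Nat.cast_nonneg _
  nlinarith

/-- flip the value of one letter -/
def moFl (k : P) (z : PS P) : PS P := Function.update z k ((z k).1, !(z k).2)

omit [Fintype P] in
theorem moFl_moFl (k : P) (z : PS P) : moFl k (moFl k z) = z := by
  unfold moFl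
  funext j
  by_cases h : j = k
  · subst h
    simp
  · simp [Function.update_of_ne h]

theorem val_not (p : Bool × Bool) : val (p.1, !p.2) = - val p := by
  rcases p with ⟨a, b⟩
  cases a <;> cases b <;> simp [val]

theorem val_sq_le (p : Bool × Bool) : (val p : ℝ) ^ 2 ≤ 1 := by
  rcases p with ⟨a, b⟩
  cases a <;> cases b <;> simp [val]

theorem mo_orth (k k' : P) (hk : k ≠ k') : ∑ z : PS P, (val (z k) : ℝ) * val (z k') = 0 := by
  have h1 : ∑ z : PS P, (val (z k) : ℝ) * val (z k') =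
      ∑ z : PS P, (val (moFl k z k) : ℝ) * val (moFl k z k') :=
    (Equiv.sum_comp ⟨moFl k, moFl k, moFl_moFl k, moFl_moFl k⟩
      (fun z : PS P => (val (z k) : ℝ) * val (z k'))).symm
  have h2 : ∀ z : PS P, (val (moFl k z k) : ℝ) * val (moFl k z k') =
      - ((val (z k) : ℝ) * val (z k')) := by
    intro z
    unfold moFl
    rw [Function.update_self, Function.update_of_ne hk.symm, val_not]
    push_cast
    ring
  rw [Finset.sum_congr rfl fun z _ => h2 z, Finset.sum_neg_distrib] at h1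
  linarith

theorem mo_vs (S : Finset P) :
    ∑ z : PS P, (∑ k ∈ S, (val (z k) : ℝ)) ^ 2 ≤ S.card * 4 ^ Fintype.card P := by
  have h1 : ∀ z : PS P, (∑ k ∈ S, (val (z k) : ℝ)) ^ 2 =
      ∑ k ∈ S, ∑ k' ∈ S, (val (z k) : ℝ) * val (z k') := by
    intro z
    rw [sq, Finset.sum_mul_sum]
  rw [Finset.sum_congr rfl fun z _ => h1 z, Finset.sum_comm]
  have h2 : ∀ k ∈ S, ∑ z : PS P, ∑ k' ∈ S, (val (z k) : ℝ) * val (z k') ≤
      4 ^ Fintype.card P := by
    intro k hk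
    rw [Finset.sum_comm, Finset.sum_eq_single_of_mem k hk (fun k' _ hk' => mo_orth k k' hk'.symm)]
    have h3 : ∀ z : PS P, (val (z k) : ℝ) * val (z k) ≤ 1 := by
      intro z
      have := val_sq_le (z k)
      rwa [sq] at this
    refine (Finset.sum_le_sum fun z _ => h3 z).trans (le_of_eq ?_)
    rw [Finset.sum_const, Finset.card_univ, nsmul_eq_mul, mul_one, Fintype.card_fun,
      Fintype.card_prod, Fintype.card_bool]
    push_cast
    norm_num
  refine (Finset.sum_le_sum h2).trans (le_of_eq ?_)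
  rw [Finset.sum_const, nsmul_eq_mul]

namespace Fam

variable {F : Fam P} {jj : ℕ} {ε : ℝ}

theorem mom (hF : F.OK jj ε) {g : ℕ} (hg : g < F.K) (h1 : 1 ≤ F.siz g) :
    ∑ x : PS P, (F.ls x g : ℝ) ^ 2 ≤ 12 * (F.m g : ℝ) ^ 2 * F.siz g * 4 ^ Fintype.card P := by
  have hB := hF.blk g hg
  have hm : (1 : ℝ) ≤ F.m g := by exact_mod_cast hB.m_pos
  have h2 : ∀ x, (F.ls x g : ℝ) = (F.C g).l x := by
    intro x
    unfold ls
    rw [if_pos hg]
  simp only [h2]
  have h3 : ∀ x, (((F.C g).l x : ℤ) - 2 * (F.C g).y x : ℤ) ^ 2 ≤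
      (2 * (F.m g : ℤ) ^ 2 * (F.vs g x) ^ 2 + 2 * (F.m g : ℤ) ^ 2) := by
    intro x
    by_cases hx : F.frz g x
    · obtain ⟨e1, e2⟩ := hB.val_frz x hx
      rw [e1, e2]
      positivity
    · rw [hB.val x hx]
      have h4 := hB.nu_lt x hx
      have h5 : ((F.m g : ℤ) - 1 - 2 * (F.nu g x : ℤ)) ^ 2 ≤ (F.m g : ℤ) ^ 2 := by
        apply sq_le_sq'
        · omega
        · omega
      nlinarith [sq_nonneg ((F.m g : ℤ) * F.vs g x - ((F.m g : ℤ) - 1 - 2 * (F.nu g x : ℤ)))]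
  have h4 := mo_chain (F.C g)
  refine h4.trans ?_
  have h5 : ∀ x, ((((F.C g).l x : ℤ) - 2 * (F.C g).y x : ℤ) : ℝ) ^ 2 ≤
      2 * (F.m g : ℝ) ^ 2 * (F.vs g x : ℝ) ^ 2 + 2 * (F.m g : ℝ) ^ 2 := by
    intro x
    exact_mod_cast h3 x
  have h6 : ∑ x, ((((F.C g).l x : ℤ) - 2 * (F.C g).y x : ℤ) : ℝ) ^ 2 ≤
      2 * (F.m g : ℝ) ^ 2 * (F.siz g * 4 ^ Fintype.card P) +
        2 * (F.m g : ℝ) ^ 2 * 4 ^ Fintype.card P := by
    refine (Finset.sum_le_sum fun x _ => h5 x).trans ?_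
    rw [Finset.sum_add_distrib, ← Finset.mul_sum, Finset.sum_const, Finset.card_univ,
      nsmul_eq_mul, Fintype.card_fun, Fintype.card_prod, Fintype.card_bool]
    have h7 : ∑ x : PS P, (F.vs g x : ℝ) ^ 2 ≤ F.siz g * 4 ^ Fintype.card P := by
      have := mo_vs (F.blk g)
      unfold vs siz
      push_cast
      exact this
    have h8 : (((2 * 2) ^ Fintype.card P : ℕ) : ℝ) = 4 ^ Fintype.card P := by
      push_cast
      norm_num
    rw [h8]
    have h9 := mul_le_mul_of_nonneg_left h7 (show 0 ≤ 2 * (F.m g : ℝ) ^ 2 by positivity)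
    linarith
  have h7 : (1 : ℝ) ≤ F.siz g := by exact_mod_cast h1
  have h8 : 0 ≤ (F.m g : ℝ) ^ 2 * 4 ^ Fintype.card P := by positivity
  calc 3 * ∑ x, ((((F.C g).l x : ℤ) - 2 * (F.C g).y x : ℤ) : ℝ) ^ 2
      ≤ 3 * (2 * (F.m g : ℝ) ^ 2 * (F.siz g * 4 ^ Fintype.card P) +
        2 * (F.m g : ℝ) ^ 2 * 4 ^ Fintype.card P) := mul_le_mul_of_nonneg_left h6 (by norm_num)
    _ = 6 * ((F.m g : ℝ) ^ 2 * 4 ^ Fintype.card P) * (F.siz g + 1) := by ring
    _ ≤ 6 * ((F.m g : ℝ) ^ 2 * 4 ^ Fintype.card P) * (2 * F.siz g) := by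
        gcongr
        linarith
    _ = _ := by ring

theorem lox (hF : F.OK jj ε) {a b : ℕ} (hb : b ≤ F.K) (m0 : ℝ) (hm0 : 0 < m0)
    (hT : ((F.seg a b).filter fun k => m0 ≤ F.m (F.cls k)).Nonempty) (e u : ℝ) (hu : 0 ≤ u)
    (x : PS P) :
    ccnt (F.seg a b) (fun z => |(SZ (F.ys z) (F.ls z) a b : ℝ) - e| ≤ u) x ≤
      ((u / m0 + 1) * (2 / Real.sqrt ((F.seg a b).filter fun k => m0 ≤ F.m (F.cls k)).card) +
        F.K * ε) * 4 ^ (F.seg a b).card := by
  classical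
  have hab : a ≤ b := by
    obtain ⟨k, hk⟩ := hT
    rw [Finset.mem_filter, lz_mem_seg] at hk
    omega
  set T := (F.seg a b).filter fun k => m0 ≤ F.m (F.cls k) with hTd
  have hTs : T ⊆ F.seg a b := Finset.filter_subset _ _
  set G : PS P → ℝ := fun z => ∑ k ∈ (F.seg a b) \ T, (F.m (F.cls k) : ℝ) * (val (z k) : ℝ) +
    (∑ g ∈ Ico a b, ((F.m g : ℤ) - 1 - 2 * (F.nu g z : ℤ)) : ℤ) - e with hG
  have hGN : Neutral T G := by
    intro z z' e1 e2 e3
    rw [hG]
    simp only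
    congr 2
    · refine Finset.sum_congr rfl fun k hk => ?_
      rw [Finset.mem_sdiff] at hk
      rw [e1 k hk.2]
    · congr 1
      refine Finset.sum_congr rfl fun g hg => ?_
      rw [Finset.mem_Ico] at hg
      rw [((hF.blk g (by omega)).neutral z z' (fun k _ => e2 k) (fun k _ h => e3 k h)).2]
  have hval : ∀ z, (∀ g ∈ Ico a b, ¬ F.frz g z) →
      (SZ (F.ys z) (F.ls z) a b : ℝ) - e =
        ∑ k ∈ T, (F.m (F.cls k) : ℝ) * (val (z k) : ℝ) + G z := by
    intro z hz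
    rw [zz_val hF a b hab hb z (fun g h1 h2 => hz g (Finset.mem_Ico.2 ⟨h1, h2⟩)), hG]
    simp only
    have h1 := Finset.sum_sdiff (f := fun k => (F.m (F.cls k) : ℝ) * (val (z k) : ℝ)) hTs
    rw [lz_vs] at h1
    rw [Finset.sum_add_distrib]
    push_cast at h1 ⊢
    linarith
  have h1 := loe T hT (fun k => (F.m (F.cls k) : ℝ)) m0 hm0 (by
    intro k hk
    rw [hTd, Finset.mem_filter] at hk
    rw [abs_of_nonneg (Nat.cast_nonneg _)]
    exact hk.2) G hGN u hu
  have h2 : ccnt (F.seg a b) (fun z => |∑ k ∈ T, (F.m (F.cls k) : ℝ) * (val (z k) : ℝ) + G z| ≤ u) x ≤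
      ((u / m0 + 1) * (2 / Real.sqrt T.card)) * 4 ^ (F.seg a b).card := by
    have h3 := ccnt_mono hTs
      (fun z => |∑ k ∈ T, (F.m (F.cls k) : ℝ) * (val (z k) : ℝ) + G z| ≤ u)
      ((u / m0 + 1) * (2 / Real.sqrt T.card)) (by
        intro y
        have := h1 y
        simpa using this) x
    simpa using h3
  refine le_trans (lz_le _ (E' := fun z =>
    |∑ k ∈ T, (F.m (F.cls k) : ℝ) * (val (z k) : ℝ) + G z| ≤ u ∨ ∃ g ∈ Ico a b, F.frz g z) ?_ x) ?_
  · intro z hz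
    by_cases h : ∃ g ∈ Ico a b, F.frz g z
    · exact Or.inr h
    · left
      push Not at h
      rw [← hval z h]
      exact hz
  · refine (lz_or _ _ _ _).trans ?_
    have h4 := lz_frz hF (a := a) hb x
    rw [add_mul]
    exact add_le_add h2 h4

end Fam

end BLO
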