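import Pool.Agent.Lib.BLO.Cond

/-!
# Chunk NL: the no-log small ball lemma

Groups `grp : ι → Option τ` (at most two coordinates each), `T0` a set of groups, `E` an event whose
conditional probability given all coordinates outside the groups of `V` is at most `q / √|V|` for
all nonempty `V ⊆ T0`.  Then `E|h| 1_E ≤ 100 q √(card ι / |T0|)` for 1-Lipschitz `h` with mean `0`.

Proof.  Nested sets `T0 = V_0 ⊇ V_1 ⊇ …`, `|V_{k+1}| = ⌈|V_k| / 2⌉`, down to size 1.  For a set `V` of groups
let `h_V x` be the mean of `h` over the coordinates in the groups of `V` (the others fixed).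
`h = h_{V_0} + ∑_k (h_{V_{k+1}} - h_{V_k}) + (h - h_{V_m})`.
* `∑ h_V^2 ≤ ∑ h^2 ≤ (card ι / 4) 2^n` (Poincaré inequality for the cube, `h` is 1-Lipschitz, mean `0`),
  so the first term costs `√(card ι)/2 * q / √|T0|` (Cauchy-Schwarz, `E|h_{V_0}| P(E | outside V_0)`).
* `g_k = h_{V_{k+1}} - h_{V_k}` has mean `0` over the coordinates of `V_k \ V_{k+1}` (at most `2(|V_k| - |V_{k+1}|) ≤ |V_k|`
  of them), does not depend on the coordinates of `V_{k+1}` and is 1-Lipschitz in each other
  coordinate up to the averaging, so `E g_k^2 ≤ |V_k| / 4`; then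
  `E|g_k| 1_E = E|g_k| P(E | outside V_{k+1}) ≤ ‖g_k‖_2 (sup P(E | ·) * P(E))^{1/2}
   ≤ (√|V_k|/2) (q/√|V_{k+1}| * q/√|T0|)^{1/2} ≤ q (|V_k|/|T0|)^{1/4}`, a geometric sum.
* `|h - h_{V_m}| ≤ 2`.
-/

namespace BLO

open Finset BLP

variable {ι : Type*} [Fintype ι] [DecidableEq ι] {τ : Type*} [Fintype τ] [DecidableEq τ]

/-- coordinates in the groups of `V` -/
def coo (grp : ι → Option τ) (V : Finset τ) : Finset ι := univ.filter fun i => ∃ t ∈ V, grp i = some t

/-! ### Averages over a set of coordinates -/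

/-- `mixf S y x`: the coordinates in `S` from `y`, the others from `x` -/
def mixf (S : Finset ι) (y x : ι → Bool) : ι → Bool := fun i => if i ∈ S then y i else x i

/-- average over the coordinates in `S` -/
noncomputable def av (S : Finset ι) (f : (ι → Bool) → ℝ) (x : ι → Bool) : ℝ :=
  (∑ y : ι → Bool, f (mixf S y x)) / 2 ^ Fintype.card ι

theorem nl_card : (Fintype.card (ι → Bool) : ℝ) = 2 ^ Fintype.card ι := by simp

theorem av_empty (f : (ι → Bool) → ℝ) (x : ι → Bool) : av ∅ f x = f x := by
  unfold av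
  have h : ∀ y : ι → Bool, mixf ∅ y x = x := fun y => by funext i; simp [mixf]
  simp only [h, Finset.sum_const, Finset.card_univ, nsmul_eq_mul, nl_card]
  field_simp

theorem av_univ (f : (ι → Bool) → ℝ) (x : ι → Bool) :
    av univ f x = (∑ y, f y) / 2 ^ Fintype.card ι := by
  unfold av
  have h : ∀ y : ι → Bool, mixf univ y x = y := fun y => by funext i; simp [mixf]
  simp only [h]

theorem av_indep (S : Finset ι) (f : (ι → Bool) → ℝ) (x x' : ι → Bool)
    (h : ∀ i, i ∉ S → x i = x' i) : av S f x = av S f x' := by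
  unfold av
  have e : ∀ y : ι → Bool, mixf S y x = mixf S y x' := fun y => by
    funext i
    by_cases hi : i ∈ S
    · simp [mixf, hi]
    · simp [mixf, hi, h i hi]
  simp only [e]

theorem nl_sum_flp (F : (ι → Bool) → ℝ) (i : ι) : ∑ x, F (flp x i) = ∑ x, F x := by
  refine Finset.sum_nbij' (fun x => flp x i) (fun x => flp x i) ?_ ?_ ?_ ?_ ?_
  · intro x _; exact Finset.mem_univ _
  · intro x _; exact Finset.mem_univ _
  · intro x _; exact flp_flp x i
  · intro x _; exact flp_flp x i
  · intro x _; rfl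

theorem av_insert (S : Finset ι) (i : ι) (hi : i ∉ S) (f : (ι → Bool) → ℝ) (x : ι → Bool) :
    av (insert i S) f x = (av S f x + av S f (flp x i)) / 2 := by
  unfold av
  have key : ∀ y : ι → Bool, f (mixf (insert i S) y x) + f (mixf (insert i S) (flp y i) x) =
      f (mixf S y x) + f (mixf S y (flp x i)) := by
    intro y
    by_cases h : y i = x i
    · have e1 : mixf (insert i S) y x = mixf S y x := by
        funext j
        by_cases hj : j = i
        · subst hj; simp [mixf, hi, h]
        · simp [mixf, hj]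
      have e2 : mixf (insert i S) (flp y i) x = mixf S y (flp x i) := by
        funext j
        by_cases hj : j = i
        · subst hj; simp [mixf, hi, h, flp_same]
        · simp [mixf, hj, flp_ne _ hj]
      rw [e1, e2]
    · have h' : (!(y i)) = x i := by
        cases hy : y i <;> cases hx : x i <;> simp_all
      have h'' : y i = !(x i) := by
        cases hy : y i <;> cases hx : x i <;> simp_all
      have e1 : mixf (insert i S) y x = mixf S y (flp x i) := by
        funext j
        by_cases hj : j = i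
        · subst hj; simp [mixf, hi, h'', flp_same]
        · simp [mixf, hj, flp_ne _ hj]
      have e2 : mixf (insert i S) (flp y i) x = mixf S y x := by
        funext j
        by_cases hj : j = i
        · subst hj; simp [mixf, hi, h', flp_same]
        · simp [mixf, hj, flp_ne _ hj]
      rw [e1, e2, add_comm]
  have h1 : ∑ y : ι → Bool, (f (mixf (insert i S) y x) + f (mixf (insert i S) (flp y i) x)) =
      ∑ y : ι → Bool, (f (mixf S y x) + f (mixf S y (flp x i))) :=
    Finset.sum_congr rfl fun y _ => key y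
  rw [Finset.sum_add_distrib, Finset.sum_add_distrib,
    nl_sum_flp (fun y => f (mixf (insert i S) y x)) i] at h1
  rw [← add_div, ← h1]
  ring

theorem av_lip (S : Finset ι) (f : (ι → Bool) → ℝ) (hf : Lip 1 f) : Lip 1 (av S f) := by
  intro x i
  unfold av
  rw [← sub_div, ← Finset.sum_sub_distrib, abs_div, abs_of_pos (by positivity : (0:ℝ) < 2 ^ _),
    div_le_one (by positivity)]
  calc |∑ y : ι → Bool, (f (mixf S y (flp x i)) - f (mixf S y x))|
      ≤ ∑ y : ι → Bool, |f (mixf S y (flp x i)) - f (mixf S y x)| := Finset.abs_sum_le_sum_abs _ _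
    _ ≤ ∑ _y : ι → Bool, (1:ℝ) := by
        refine Finset.sum_le_sum fun y _ => ?_
        by_cases hi : i ∈ S
        · have e : mixf S y (flp x i) = mixf S y x := by
            funext j
            by_cases hj : j = i
            · subst hj; simp [mixf, hi]
            · simp [mixf, flp_ne _ hj]
          rw [e]; simp
        · have e : mixf S y (flp x i) = flp (mixf S y x) i := by
            funext j
            by_cases hj : j = i
            · subst hj; simp [mixf, hi, flp_same]
            · simp [mixf, flp_ne _ hj]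
          rw [e]; exact hf _ _
    _ = 2 ^ Fintype.card ι := by simp

theorem av_self_adj (S : Finset ι) (f v : (ι → Bool) → ℝ)
    (hv : ∀ x x', (∀ i, i ∉ S → x i = x' i) → v x = v x') :
    ∑ x, av S f x * v x = ∑ x, f x * v x := by
  induction S using Finset.induction_on with
  | empty => simp only [av_empty]
  | insert i S hi ih =>
    have hv' : ∀ x x', (∀ j, j ∉ S → x j = x' j) → v x = v x' := fun x x' h =>
      hv x x' fun j hj => h j fun hj' => hj (Finset.mem_insert_of_mem hj')
    have hflp : ∀ x, v (flp x i) = v x := fun x =>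
      hv _ _ fun j hj => flp_ne _ fun h => hj (h ▸ Finset.mem_insert_self _ _)
    rw [← ih hv']
    simp only [av_insert S i hi]
    have h1 : ∑ x, av S f (flp x i) * v x = ∑ x, av S f x * v x := by
      rw [← nl_sum_flp (fun x => av S f x * v x) i]
      exact Finset.sum_congr rfl fun x _ => by rw [hflp]
    calc ∑ x, (av S f x + av S f (flp x i)) / 2 * v x
        = (∑ x, av S f x * v x) / 2 + (∑ x, av S f (flp x i) * v x) / 2 := by
          rw [Finset.sum_div, Finset.sum_div, ← Finset.sum_add_distrib]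
          exact Finset.sum_congr rfl fun x _ => by ring
      _ = ∑ x, av S f x * v x := by rw [h1]; ring

/-- square norm of the average -/
noncomputable def nrm (S : Finset ι) (f : (ι → Bool) → ℝ) : ℝ := ∑ x, av S f x ^ 2

theorem nrm_insert (S : Finset ι) (i : ι) (hi : i ∉ S) (f : (ι → Bool) → ℝ) (hf : Lip 1 f) :
    nrm S f ≤ nrm (insert i S) f + 2 ^ Fintype.card ι / 4 := by
  unfold nrm
  simp only [av_insert S i hi]
  have h1 : ∑ x, av S f (flp x i) ^ 2 = ∑ x, av S f x ^ 2 :=
    nl_sum_flp (fun x => av S f x ^ 2) i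
  have h2 : ∑ x, (av S f x - av S f (flp x i)) ^ 2 ≤ 2 ^ Fintype.card ι := by
    calc ∑ x, (av S f x - av S f (flp x i)) ^ 2 ≤ ∑ _x : ι → Bool, (1:ℝ) := by
          refine Finset.sum_le_sum fun x _ => ?_
          have := av_lip S f hf x i
          rw [abs_le] at this
          nlinarith
      _ = 2 ^ Fintype.card ι := by simp
  have h3 : ∑ x, ((av S f x + av S f (flp x i)) / 2) ^ 2 =
      (∑ x, av S f x ^ 2) / 2 + (∑ x, av S f (flp x i) ^ 2) / 2 -
        (∑ x, (av S f x - av S f (flp x i)) ^ 2) / 4 := by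
    rw [Finset.sum_div, Finset.sum_div, Finset.sum_div, ← Finset.sum_add_distrib,
      ← Finset.sum_sub_distrib]
    exact Finset.sum_congr rfl fun x _ => by ring
  rw [h3, h1]
  linarith

theorem nrm_union (S U : Finset ι) (hU : Disjoint S U) (f : (ι → Bool) → ℝ) (hf : Lip 1 f) :
    nrm S f ≤ nrm (S ∪ U) f + U.card * (2 ^ Fintype.card ι / 4) := by
  induction U using Finset.induction_on with
  | empty => simp
  | insert i U hi ih =>
    have hd : Disjoint S U := hU.mono_right (Finset.subset_insert _ _)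
    have hiS : i ∉ S := fun h => (Finset.disjoint_left.1 hU h) (Finset.mem_insert_self _ _)
    have h1 := ih hd
    have h2 := nrm_insert (S ∪ U) i (by simp [hi, hiS]) f hf
    rw [Finset.union_insert, Finset.card_insert_of_notMem hi]
    push_cast
    linarith

theorem nrm_mono {S T : Finset ι} (hST : S ⊆ T) (f : (ι → Bool) → ℝ) (hf : Lip 1 f) :
    nrm S f ≤ nrm T f + (T \ S).card * (2 ^ Fintype.card ι / 4) := by
  have := nrm_union S (T \ S) Finset.disjoint_sdiff f hf
  rwa [Finset.union_sdiff_of_subset hST] at this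

theorem av_diff {S T : Finset ι} (hST : S ⊆ T) (f : (ι → Bool) → ℝ) (hf : Lip 1 f) :
    ∑ x, (av S f x - av T f x) ^ 2 ≤ (T \ S).card * (2 ^ Fintype.card ι / 4) := by
  have hi : ∀ x x', (∀ i, i ∉ T → x i = x' i) → av T f x = av T f x' := av_indep T f
  have hi' : ∀ x x', (∀ i, i ∉ S → x i = x' i) → av T f x = av T f x' := fun x x' h =>
    hi x x' fun i h' => h i fun h'' => h' (hST h'')
  have h1 : ∑ x, av S f x * av T f x = ∑ x, av T f x * av T f x := by
    rw [av_self_adj S f (av T f) hi', av_self_adj T f (av T f) hi]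
  have h2 : ∑ x, (av S f x - av T f x) ^ 2 = nrm S f - nrm T f := by
    unfold nrm
    have : ∑ x, (av S f x - av T f x) ^ 2 = ∑ x, av S f x ^ 2 - 2 * ∑ x, av S f x * av T f x +
        ∑ x, av T f x ^ 2 := by
      rw [Finset.mul_sum, ← Finset.sum_sub_distrib, ← Finset.sum_add_distrib]
      exact Finset.sum_congr rfl fun x _ => by ring
    rw [this, h1]
    have e : ∑ x, av T f x * av T f x = ∑ x, av T f x ^ 2 :=
      Finset.sum_congr rfl fun x _ => by ring
    rw [e]; ring
  rw [h2]
  linarith [nrm_mono hST f hf]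

/-- Poincare inequality -/
theorem nrm_le (S : Finset ι) (f : (ι → Bool) → ℝ) (hf : Lip 1 f) (h0 : ∑ x, f x = 0) :
    nrm S f ≤ Fintype.card ι * (2 ^ Fintype.card ι / 4) := by
  have h1 := nrm_mono (Finset.subset_univ S) f hf
  have h2 : nrm univ f = 0 := by
    unfold nrm
    simp [av_univ, h0]
  rw [h2, zero_add] at h1
  refine h1.trans ?_
  gcongr
  exact Finset.card_le_univ _

/-- distance of `f` from its average -/
theorem av_near (S : Finset ι) (f : (ι → Bool) → ℝ) (hf : Lip 1 f) (x : ι → Bool) :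
    |f x - av S f x| ≤ S.card := by
  induction S using Finset.induction_on with
  | empty => simp [av_empty]
  | insert i S hi ih =>
    rw [av_insert S i hi, Finset.card_insert_of_notMem hi]
    have h := av_lip S f hf x i
    push_cast
    have e : f x - (av S f x + av S f (flp x i)) / 2 =
        (f x - av S f x) + (av S f x - av S f (flp x i)) / 2 := by ring
    rw [e]
    have h' : |(av S f x - av S f (flp x i)) / 2| ≤ 1 / 2 := by
      rw [abs_div, abs_sub_comm, abs_of_pos (by norm_num : (0:ℝ) < 2)]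
      linarith
    refine (abs_add_le _ _).trans ?_
    linarith

/-- conditional probability -/
noncomputable def cpr (S : Finset ι) (E : (ι → Bool) → Prop) (x : ι → Bool) : ℝ :=
  ccnt S E x / 2 ^ S.card

theorem nl_card_bool : ((Fintype.card Bool : ℕ) : ℝ) = 2 := by simp

theorem cpr_nonneg (S : Finset ι) (E : (ι → Bool) → Prop) (x : ι → Bool) : 0 ≤ cpr S E x := by
  unfold cpr ccnt
  exact div_nonneg (Finset.sum_nonneg fun z _ => ind_nonneg _) (by positivity)

theorem cpr_sum (S : Finset ι) (E : (ι → Bool) → Prop) (f : (ι → Bool) → ℝ) (hf0 : ∀ x, 0 ≤ f x)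
    (hf : ∀ x x' : ι → Bool, (∀ i, i ∉ S → x i = x' i) → f x = f x') :
    ∑ x, f x * ind (E x) ≤ ∑ x, f x * cpr S E x := by
  refine cond_sum S E f (cpr S E) hf0 hf fun x => ?_
  rw [nl_card_bool]
  unfold cpr
  rw [div_mul_cancel₀ _ (by positivity)]

theorem cpr_total (S : Finset ι) (E : (ι → Bool) → Prop) :
    ∑ x, cpr S E x = ∑ x, ind (E x) := by
  unfold cpr
  rw [← Finset.sum_div, div_eq_iff (by positivity)]
  unfold ccnt
  rw [Finset.sum_comm, Finset.sum_mul]
  refine Finset.sum_congr rfl fun z _ => ?_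
  have h1 := ccnt_true (α := Bool) S z
  rw [nl_card_bool] at h1
  unfold ccnt at h1
  rw [← h1, Finset.mul_sum]
  refine Finset.sum_congr rfl fun x _ => ?_
  by_cases hE : E z
  · rw [ind_true hE, one_mul]
    refine ind_congr ⟨fun h => ⟨fun i hi => (h.1 i hi).symm, trivial⟩,
      fun h => ⟨fun i hi => (h.1 i hi).symm, hE⟩⟩
  · rw [ind_false hE, zero_mul]
    exact ind_false fun h => hE h.2

theorem nl_cs (S : Finset ι) (E : (ι → Bool) → Prop) (g : (ι → Bool) → ℝ)
    (hg : ∀ x x' : ι → Bool, (∀ i, i ∉ S → x i = x' i) → g x = g x')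
    (A B P K : ℝ) (hB : 0 ≤ B) (hP : ∀ x, cpr S E x ≤ B)
    (hA : ∑ x, g x ^ 2 ≤ A) (hT : ∑ x, ind (E x) ≤ P) (hK : 0 ≤ K)
    (hAB : A * (B * P) ≤ K ^ 2) : ∑ x, |g x| * ind (E x) ≤ K := by
  have h1 : ∑ x, |g x| * ind (E x) ≤ ∑ x, |g x| * cpr S E x :=
    cpr_sum S E (fun x => |g x|) (fun x => abs_nonneg _) fun x x' h => by rw [hg x x' h]
  have h2 : (∑ x, |g x| * cpr S E x) ^ 2 ≤ (∑ x, |g x| ^ 2) * ∑ x, cpr S E x ^ 2 :=
    Finset.sum_mul_sq_le_sq_mul_sq _ _ _
  have h3 : ∑ x, |g x| ^ 2 ≤ A := by simpa only [sq_abs] using hA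
  have h4 : ∑ x, cpr S E x ^ 2 ≤ B * P := by
    calc ∑ x, cpr S E x ^ 2 ≤ ∑ x, B * cpr S E x := by
          refine Finset.sum_le_sum fun x _ => ?_
          rw [sq]
          exact mul_le_mul_of_nonneg_right (hP x) (cpr_nonneg S E x)
      _ = B * ∑ x, ind (E x) := by rw [← Finset.mul_sum, cpr_total]
      _ ≤ B * P := by gcongr
  have h5 : (∑ x, |g x| * cpr S E x) ^ 2 ≤ K ^ 2 := by
    refine h2.trans (le_trans ?_ hAB)
    have : (0:ℝ) ≤ ∑ x, cpr S E x ^ 2 := Finset.sum_nonneg fun x _ => sq_nonneg _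
    have hA0 : 0 ≤ A := le_trans (Finset.sum_nonneg fun x _ => sq_nonneg _) hA
    exact mul_le_mul h3 h4 this hA0
  exact h1.trans (abs_le_of_sq_le_sq' h5 hK).2

theorem coo_card (grp : ι → Option τ) (hgrp : ∀ t, (univ.filter fun i => grp i = some t).card ≤ 2)
    (V : Finset τ) : (coo grp V).card ≤ 2 * V.card := by
  have h : coo grp V ⊆ V.biUnion fun t => univ.filter fun i => grp i = some t := by
    intro i hi
    simp only [coo, Finset.mem_filter, Finset.mem_univ, true_and] at hi
    obtain ⟨t, ht, hit⟩ := hi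
    exact Finset.mem_biUnion.2 ⟨t, ht, by simp [hit]⟩
  calc (coo grp V).card ≤ _ := Finset.card_le_card h
    _ ≤ ∑ t ∈ V, (univ.filter fun i => grp i = some t).card := Finset.card_biUnion_le
    _ ≤ ∑ _t ∈ V, 2 := Finset.sum_le_sum fun t _ => hgrp t
    _ = 2 * V.card := by simp [mul_comm]

theorem coo_mono (grp : ι → Option τ) {V V' : Finset τ} (h : V' ⊆ V) :
    coo grp V' ⊆ coo grp V := by
  intro i hi
  simp only [coo, Finset.mem_filter, Finset.mem_univ, true_and] at hi ⊢
  obtain ⟨t, ht, hit⟩ := hi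
  exact ⟨t, h ht, hit⟩

theorem coo_sdiff (grp : ι → Option τ) (V V' : Finset τ) :
    coo grp V \ coo grp V' ⊆ coo grp (V \ V') := by
  intro i hi
  simp only [coo, Finset.mem_sdiff, Finset.mem_filter, Finset.mem_univ, true_and] at hi ⊢
  obtain ⟨⟨t, ht, hit⟩, h2⟩ := hi
  exact ⟨t, ⟨ht, fun h => h2 ⟨t, h, hit⟩⟩, hit⟩

theorem nl_sqrt_step {v v' t : ℝ} (hv' : 0 ≤ v') (hv : 0 ≤ v) (ht : 0 < t)
    (h : v' ^ 2 ≤ 3 / 4 * v ^ 2) :
    Real.sqrt (v' / t) ≤ 94 / 100 * Real.sqrt (v / t) := by
  have h1 : v' ≤ (94 / 100) ^ 2 * v := by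
    refine abs_le_of_sq_le_sq' ?_ (by positivity) |>.2
    nlinarith [sq_nonneg v]
  have h2 : v' / t ≤ (94 / 100) ^ 2 * (v / t) := by
    rw [mul_div_assoc', div_le_div_iff_of_pos_right ht]
    exact h1
  calc Real.sqrt (v' / t) ≤ Real.sqrt ((94 / 100) ^ 2 * (v / t)) := Real.sqrt_le_sqrt h2
    _ = 94 / 100 * Real.sqrt (v / t) := by
      rw [Real.sqrt_mul (by positivity), Real.sqrt_sq (by norm_num)]

theorem nl_main (grp : ι → Option τ) (hgrp : ∀ t, (univ.filter fun i => grp i = some t).card ≤ 2)
    (T0 : Finset τ) (q : ℝ) (hq : 1 ≤ q) (E : (ι → Bool) → Prop)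
    (hE : ∀ V ⊆ T0, V.Nonempty → ∀ x,
      ccnt (coo grp V) E x ≤ q / Real.sqrt V.card * 2 ^ (coo grp V).card)
    (hT : ∑ x, ind (E x) ≤ q / Real.sqrt T0.card * 2 ^ Fintype.card ι)
    (h : (ι → Bool) → ℝ) (hh : Lip 1 h) (m : ℕ) :
    ∀ V ⊆ T0, V.card = m → V.Nonempty → ∑ x, |h x - av (coo grp V) h x| * ind (E x) ≤
      (10 * q * Real.sqrt (Real.sqrt V.card / Real.sqrt T0.card) + 2) * 2 ^ Fintype.card ι := by
  induction m using Nat.strong_induction_on with
  | _ m ih =>
  intro V hV hm hne
  set W : ℝ := 2 ^ Fintype.card ι with hW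
  have hW0 : 0 < W := by positivity
  have hq0 : 0 < q := by linarith
  have hT0 : 0 < T0.card := Finset.card_pos.2 (hne.mono hV)
  have ht : 0 < Real.sqrt (T0.card : ℝ) := Real.sqrt_pos.2 (by exact_mod_cast hT0)
  rcases Nat.lt_or_ge m 2 with hm2 | hm2
  · -- one group
    have hc : V.card ≤ 1 := by omega
    have hS : ((coo grp V).card : ℝ) ≤ 2 := by
      have := coo_card grp hgrp V
      have h3 : (coo grp V).card ≤ 2 := by omega
      exact_mod_cast h3
    calc ∑ x, |h x - av (coo grp V) h x| * ind (E x) ≤ ∑ _x : ι → Bool, (2:ℝ) := by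
          refine Finset.sum_le_sum fun x _ => ?_
          have h1 := (av_near (coo grp V) h hh x).trans hS
          calc |h x - av (coo grp V) h x| * ind (E x) ≤ 2 * 1 :=
                mul_le_mul h1 (ind_le_one _) (ind_nonneg _) (by norm_num)
            _ = 2 := by norm_num
      _ = 2 * W := by simp [hW, mul_comm]
      _ ≤ _ := by
          have : 0 ≤ 10 * q * Real.sqrt (Real.sqrt V.card / Real.sqrt T0.card) := by positivity
          nlinarith
  · -- halving
    obtain ⟨V', hV', hc'⟩ := Finset.exists_subset_card_eq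
      (show (m + 1) / 2 ≤ V.card by omega)
    have hne' : V'.Nonempty := by
      rw [← Finset.card_pos]; omega
    have hlt : (m + 1) / 2 < m := by omega
    have i1 := ih _ hlt V' (hV'.trans hV) hc' hne'
    set v := Real.sqrt (V.card : ℝ) with hvdef
    set v' := Real.sqrt (V'.card : ℝ) with hv'def
    set t := Real.sqrt (T0.card : ℝ) with htdef
    have hv0 : 0 < v := Real.sqrt_pos.2 (by exact_mod_cast Finset.card_pos.2 hne)
    have hv'0 : 0 < v' := Real.sqrt_pos.2 (by exact_mod_cast Finset.card_pos.2 hne')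
    have hv2 : v ^ 2 = V.card := Real.sq_sqrt (by positivity)
    have hv'2 : v' ^ 2 = V'.card := Real.sq_sqrt (by positivity)
    have hcR : (V.card : ℝ) = m := by exact_mod_cast hm
    have hc'R : (V'.card : ℝ) = ((m + 1) / 2 : ℕ) := by exact_mod_cast hc'
    have k1 : 2 * ((m + 1) / 2 : ℕ) ≤ m + 1 := by omega
    have k2 : m ≤ 2 * ((m + 1) / 2 : ℕ) := by omega
    have k1R : 2 * (((m + 1) / 2 : ℕ) : ℝ) ≤ m + 1 := by exact_mod_cast k1
    have k2R : (m : ℝ) ≤ 2 * (((m + 1) / 2 : ℕ) : ℝ) := by exact_mod_cast k2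
    have hm2R : (2:ℝ) ≤ m := by exact_mod_cast hm2
    have hvv1 : v' ^ 2 ≤ 3 / 4 * v ^ 2 := by
      rw [hv2, hv'2, hcR, hc'R]; linarith
    have hvv2 : v ^ 2 ≤ 2 * v' ^ 2 := by
      rw [hv2, hv'2, hcR, hc'R]; linarith
    have hvv3 : v ≤ 144 / 100 * v' := by
      refine abs_le_of_sq_le_sq' ?_ (by positivity) |>.2
      nlinarith [sq_nonneg v']
    have hr := nl_sqrt_step hv'0.le hv0.le ht hvv1
    -- the increment
    have hsub : coo grp V' ⊆ coo grp V := coo_mono grp hV'
    have hinc : ∑ x, |av (coo grp V') h x - av (coo grp V) h x| * ind (E x) ≤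
        6 / 10 * q * Real.sqrt (v / t) * W := by
      refine nl_cs (coo grp V') E _ ?_ (V.card * (W / 4)) (q / v') (q / t * W) _ (by positivity)
        ?_ ?_ hT (by positivity) ?_
      · intro x x' hx
        rw [av_indep (coo grp V') h x x' hx, av_indep (coo grp V) h x x' fun i hi =>
          hx i fun hi' => hi (hsub hi')]
      · intro x
        unfold cpr
        rw [div_le_iff₀ (by positivity)]
        exact hE V' (hV'.trans hV) hne' x
      · refine (av_diff hsub h hh).trans ?_
        gcongr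
        have e1 : (coo grp V \ coo grp V').card ≤ 2 * (V \ V').card :=
          (Finset.card_le_card (coo_sdiff grp V V')).trans (coo_card grp hgrp _)
        rw [Finset.card_sdiff_of_subset hV', hm, hc'] at e1
        have e2 : (coo grp V \ coo grp V').card ≤ V.card := by omega
        exact e2
      · rw [← hv2]
        have hs : Real.sqrt (v / t) ^ 2 = v / t := Real.sq_sqrt (by positivity)
        have e : (6 / 10 * q * Real.sqrt (v / t) * W) ^ 2 = 36 / 100 * q ^ 2 * W ^ 2 * (v / t) := by
          rw [mul_pow, mul_pow, hs]; ring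
        rw [e]
        have e2 : v ^ 2 * (W / 4) * (q / v' * (q / t * W)) =
            q ^ 2 * W ^ 2 * (v / t) * (v / (4 * v')) := by
          field_simp
        rw [e2]
        have e3 : v / (4 * v') ≤ 36 / 100 := by
          rw [div_le_iff₀ (by positivity)]; linarith
        calc q ^ 2 * W ^ 2 * (v / t) * (v / (4 * v')) ≤ q ^ 2 * W ^ 2 * (v / t) * (36 / 100) := by
              gcongr
          _ = _ := by ring
    calc ∑ x, |h x - av (coo grp V) h x| * ind (E x)
        ≤ ∑ x, (|h x - av (coo grp V') h x| * ind (E x) +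
            |av (coo grp V') h x - av (coo grp V) h x| * ind (E x)) := by
          refine Finset.sum_le_sum fun x _ => ?_
          rw [← add_mul]
          refine mul_le_mul_of_nonneg_right ?_ (ind_nonneg _)
          exact abs_sub_le _ _ _
      _ ≤ (10 * q * Real.sqrt (v' / t) + 2) * W + 6 / 10 * q * Real.sqrt (v / t) * W := by
          rw [Finset.sum_add_distrib]
          exact add_le_add i1 hinc
      _ ≤ (10 * q * (94 / 100 * Real.sqrt (v / t)) + 2) * W + 6 / 10 * q * Real.sqrt (v / t) * W := by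
          gcongr
      _ = (10 * q * Real.sqrt (v / t) + 2) * W := by ring

theorem nl (grp : ι → Option τ) (hgrp : ∀ t, (univ.filter fun i => grp i = some t).card ≤ 2)
    (T0 : Finset τ) (hT0 : T0.Nonempty) (q : ℝ) (hq : 1 ≤ q) (E : (ι → Bool) → Prop)
    (hE : ∀ V ⊆ T0, V.Nonempty → ∀ x,
      ccnt (coo grp V) E x ≤ q / Real.sqrt V.card * 2 ^ (coo grp V).card)
    (h : (ι → Bool) → ℝ) (hh : Lip 1 h) (h0 : ∑ x, h x = 0) :
    ∑ x, |h x| * ind (E x) ≤
      100 * q * (Real.sqrt (Fintype.card ι / T0.card) + 1) * 2 ^ Fintype.card ι := by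
  set W : ℝ := 2 ^ Fintype.card ι with hW
  have hW0 : 0 < W := by positivity
  have hq0 : 0 < q := by linarith
  have hTc : 0 < T0.card := Finset.card_pos.2 hT0
  have ht : 0 < Real.sqrt (T0.card : ℝ) := Real.sqrt_pos.2 (by exact_mod_cast hTc)
  have hT : ∑ x, ind (E x) ≤ q / Real.sqrt T0.card * W := by
    have h1 := ccnt_mono (Finset.subset_univ (coo grp T0)) E (q / Real.sqrt T0.card)
      (fun x => by rw [nl_card_bool]; exact hE T0 (Finset.Subset.refl _) hT0 x) (fun _ => true)
    rw [ccnt_univ, nl_card_bool, Finset.card_univ] at h1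
    exact h1
  have hmain := nl_main grp hgrp T0 q hq E hE hT h hh T0.card T0 (Finset.Subset.refl _) rfl hT0
  rw [div_self ht.ne', Real.sqrt_one] at hmain
  -- the first term
  have hfirst : ∑ x, |av (coo grp T0) h x| * ind (E x) ≤
      q * Real.sqrt (Fintype.card ι / T0.card) * W := by
    refine nl_cs (coo grp T0) E _ (av_indep (coo grp T0) h) (Fintype.card ι * (W / 4))
      (q / Real.sqrt T0.card) (q / Real.sqrt T0.card * W) _ (by positivity) ?_
      (nrm_le (coo grp T0) h hh h0) hT (by positivity) ?_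
    · intro x
      unfold cpr
      rw [div_le_iff₀ (by positivity)]
      exact hE T0 (Finset.Subset.refl _) hT0 x
    · have hs : Real.sqrt (Fintype.card ι / T0.card : ℝ) ^ 2 = Fintype.card ι / T0.card :=
        Real.sq_sqrt (by positivity)
      have hs2 : Real.sqrt (T0.card : ℝ) * Real.sqrt (T0.card : ℝ) = T0.card :=
        Real.mul_self_sqrt (by positivity)
      have e : (q * Real.sqrt (Fintype.card ι / T0.card) * W) ^ 2 =
          q ^ 2 * W ^ 2 * (Fintype.card ι / T0.card) := by
        rw [mul_pow, mul_pow, hs]; ring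
      rw [e]
      have e2 : (Fintype.card ι : ℝ) * (W / 4) * (q / Real.sqrt T0.card *
          (q / Real.sqrt T0.card * W)) = q ^ 2 * W ^ 2 * (Fintype.card ι / T0.card) / 4 := by
        have : q / Real.sqrt (T0.card : ℝ) * (q / Real.sqrt T0.card * W) = q ^ 2 * W / T0.card := by
          have h3 : q / Real.sqrt (T0.card : ℝ) * (q / Real.sqrt T0.card * W) =
              q ^ 2 * W / (Real.sqrt (T0.card : ℝ) * Real.sqrt (T0.card : ℝ)) := by
            generalize Real.sqrt (T0.card : ℝ) = s at ht ⊢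
            field_simp
          rw [h3, hs2]
        rw [this]; ring
      rw [e2]
      have : 0 ≤ q ^ 2 * W ^ 2 * ((Fintype.card ι : ℝ) / T0.card) := by positivity
      linarith
  calc ∑ x, |h x| * ind (E x)
      ≤ ∑ x, (|av (coo grp T0) h x| * ind (E x) +
          |h x - av (coo grp T0) h x| * ind (E x)) := by
        refine Finset.sum_le_sum fun x _ => ?_
        rw [← add_mul]
        refine mul_le_mul_of_nonneg_right ?_ (ind_nonneg _)
        calc |h x| = |av (coo grp T0) h x + (h x - av (coo grp T0) h x)| := by ring_nf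
          _ ≤ _ := abs_add_le _ _
    _ ≤ q * Real.sqrt (Fintype.card ι / T0.card) * W + (10 * q * 1 + 2) * W := by
        rw [Finset.sum_add_distrib]
        exact add_le_add hfirst hmain
    _ ≤ 100 * q * (Real.sqrt (Fintype.card ι / T0.card) + 1) * W := by
        have h1 : 0 ≤ q * Real.sqrt (Fintype.card ι / T0.card) * W := by positivity
        have h2 : 1 * W ≤ q * W := by gcongr
        nlinarith

end BLO
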