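import Pool.Agent.Lib.BLO.Hamming
import Pool.Agent.Lib.BLP.Block

/-!
# Chunk NS: noise of a block with bounded cost

Port of `BLP/Hash.lean`: the values of the first `r = j (2^s - 1)` `PM`-letters are the
argument of `multi_hash`, `hash = syn`, `noise = hash % m`, `set t`: hash := hash / m * m + t; frozen if there are
less than `r` `PM`-letters or `hash ≥ m * (2^(s j) / m)`.
-/

namespace BLO

open Finset BLP

variable {b : ℕ}

/-- noise system of a block: frozen states, noise, setting the noise (at most `jj` changed letters) -/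
structure NoiseSys (b m jj : ℕ) (frz : BS b → Prop) (nu : BS b → ℕ) (st : ℕ → BS b → BS b) :
    Prop where
  lt : ∀ x, ¬ frz x → nu x < m
  spec : ∀ t < m, ∀ x, ¬ frz x → ¬ frz (st t x) ∧ nu (st t x) = t ∧
    (∀ t' < m, st t' (st t x) = st t' x) ∧ st (nu x) x = x ∧
    (∀ k, (st t x k).1 = (x k).1) ∧ (∀ k, (x k).1 = true → st t x k = x k) ∧
    (univ.filter fun k => st t x k ≠ x k).card ≤ jj
  congr : ∀ x x' : BS b, (∀ k, (x k).1 = (x' k).1) → (∀ k, (x k).1 = false → x k = x' k) →
    (frz x ↔ frz x') ∧ nu x = nu x' ∧ ∀ t k, (x k).1 = false → st t x k = st t x' k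

/-- values of the first `r` `PM` letters -/
def nsVal (r : ℕ) (x : BS b) : Fin r → Bool := fun i => decide (b1bit x i)

/-- set the values of the first `r` `PM` letters -/
def nsSet (r : ℕ) (v : Fin r → Bool) (x : BS b) : BS b := fun k =>
  if h : (x k).1 = false ∧ pmRank x k < r then (false, v ⟨pmRank x k, h.2⟩) else x k

theorem ns_fst (r : ℕ) (v : Fin r → Bool) (x : BS b) (k : Fin b) : (nsSet r v x k).1 = (x k).1 := by
  unfold nsSet
  split_ifs with h
  · exact h.1.symm
  · rfl

theorem ns_set_true (r : ℕ) (v : Fin r → Bool) (x : BS b) (k : Fin b) (hk : (x k).1 = true) :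
    nsSet r v x k = x k := by
  unfold nsSet
  rw [dif_neg]
  rintro ⟨h, _⟩
  rw [hk] at h
  exact absurd h (by simp)

theorem ns_rank (r : ℕ) (v : Fin r → Bool) (x : BS b) (k : Fin b) :
    pmRank (nsSet r v x) k = pmRank x k := b1_pmRank_congr (ns_fst r v x) k

theorem ns_npm (r : ℕ) (v : Fin r → Bool) (x : BS b) : npm (nsSet r v x) = npm x :=
  b1_npm_congr (ns_fst r v x)

theorem ns_set_of (r : ℕ) (v : Fin r → Bool) (x : BS b) (k : Fin b) (h1 : (x k).1 = false)
    (h2 : pmRank x k < r) : nsSet r v x k = (false, v ⟨pmRank x k, h2⟩) := by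
  unfold nsSet
  rw [dif_pos ⟨h1, h2⟩]

theorem ns_set_not (r : ℕ) (v : Fin r → Bool) (x : BS b) (k : Fin b)
    (h : ¬ ((x k).1 = false ∧ pmRank x k < r)) : nsSet r v x k = x k := by
  unfold nsSet
  rw [dif_neg h]

theorem ns_bit_iff {x : BS b} {k : Fin b} (hk : (x k).1 = false) :
    b1bit x (pmRank x k) ↔ (x k).2 = true := by
  constructor
  · rintro ⟨k', h2, h3, h4⟩
    rw [← b1_pmRank_inj h2 hk h3]
    exact h4
  · intro h2
    exact ⟨k, hk, rfl, h2⟩

theorem ns_val_set {r : ℕ} {x : BS b} (hr : r ≤ npm x) (v : Fin r → Bool) :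
    nsVal r (nsSet r v x) = v := by
  funext i
  obtain ⟨k, hk1, hk2⟩ := b1_exists_rank (x := x) (i := i) (by omega)
  have h1 : (nsSet r v x k).1 = false := by rw [ns_fst]; exact hk1
  have h2 : pmRank (nsSet r v x) k = i := by rw [ns_rank]; exact hk2
  show decide (b1bit (nsSet r v x) i) = v i
  rw [Bool.eq_iff_iff, decide_eq_true_iff, ← h2, ns_bit_iff h1,
    ns_set_of r v x k hk1 (by rw [hk2]; exact i.2)]
  have : (⟨pmRank x k, by rw [hk2]; exact i.2⟩ : Fin r) = i := Fin.ext hk2
  simp only [this]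

theorem ns_set_val (r : ℕ) (x : BS b) : nsSet r (nsVal r x) x = x := by
  funext k
  by_cases h : (x k).1 = false ∧ pmRank x k < r
  · rw [ns_set_of _ _ _ _ h.1 h.2]
    have h1 : nsVal r x ⟨pmRank x k, h.2⟩ = (x k).2 := by
      show decide (b1bit x (pmRank x k)) = _
      rw [Bool.eq_iff_iff, decide_eq_true_iff]
      exact ns_bit_iff h.1
    rw [h1]
    exact Prod.ext h.1.symm rfl
  · exact ns_set_not _ _ _ _ h

theorem ns_set_set (r : ℕ) (v v' : Fin r → Bool) (x : BS b) :
    nsSet r v' (nsSet r v x) = nsSet r v' x := by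
  funext k
  by_cases h : (x k).1 = false ∧ pmRank x k < r
  · have h1 : (nsSet r v x k).1 = false := by rw [ns_fst]; exact h.1
    have h2 : pmRank (nsSet r v x) k < r := by rw [ns_rank]; exact h.2
    rw [ns_set_of _ _ _ _ h1 h2, ns_set_of _ _ _ _ h.1 h.2]
    have : (⟨pmRank (nsSet r v x) k, h2⟩ : Fin r) = ⟨pmRank x k, h.2⟩ := Fin.ext (ns_rank r v x k)
    rw [this]
  · have h1 : ¬ ((nsSet r v x k).1 = false ∧ pmRank (nsSet r v x) k < r) := by
      rw [ns_fst, ns_rank]; exact h
    rw [ns_set_not _ _ _ _ h1, ns_set_not _ _ _ _ h, ns_set_not _ _ _ _ h]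

theorem ns_card (r : ℕ) (v : Fin r → Bool) (x : BS b) :
    (univ.filter fun k => nsSet r v x k ≠ x k).card ≤ hammingDist v (nsVal r x) := by
  unfold hammingDist
  have hmem : ∀ k, nsSet r v x k ≠ x k → (x k).1 = false ∧ pmRank x k < r := by
    intro k hk
    by_contra h
    exact hk (ns_set_not _ _ _ _ h)
  rcases Nat.eq_zero_or_pos r with h0 | h0
  · subst h0
    rw [Finset.card_eq_zero.2]
    · exact Nat.zero_le _
    · rw [Finset.filter_eq_empty_iff]
      intro k _ hk
      exact absurd (hmem k hk).2 (by omega)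
  · refine card_le_card_of_injOn
      (fun k => if h : pmRank x k < r then (⟨pmRank x k, h⟩ : Fin r) else ⟨0, h0⟩) ?_ ?_
    · intro k hk
      simp only [coe_filter, mem_univ, true_and, Set.mem_ofPred_eq] at hk ⊢
      have h := hmem k hk
      rw [dif_pos h.2]
      intro he
      apply hk
      rw [ns_set_of _ _ _ _ h.1 h.2, he]
      have h1 : nsVal r x ⟨pmRank x k, h.2⟩ = (x k).2 := by
        show decide (b1bit x (pmRank x k)) = _
        rw [Bool.eq_iff_iff, decide_eq_true_iff]
        exact ns_bit_iff h.1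
      rw [h1]
      exact Prod.ext h.1.symm rfl
    · intro k hk k' hk' he
      simp only [coe_filter, mem_univ, true_and, Set.mem_ofPred_eq] at hk hk'
      have h := hmem k hk
      have h' := hmem k' hk'
      simp only [dif_pos h.2, dif_pos h'.2, Fin.mk.injEq] at he
      exact b1_pmRank_inj h.1 h'.1 he

theorem ns_val_congr (r : ℕ) {x x' : BS b} (h1 : ∀ k, (x k).1 = (x' k).1)
    (h2 : ∀ k, (x k).1 = false → x k = x' k) : nsVal r x = nsVal r x' := by
  have hr := b1_pmRank_congr h1
  funext i
  show decide (b1bit x i) = decide (b1bit x' i)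
  rw [decide_eq_decide]
  constructor
  · rintro ⟨k, a1, a2, a3⟩
    exact ⟨k, by rw [← h1]; exact a1, by rw [← hr]; exact a2, by rw [← h2 k a1]; exact a3⟩
  · rintro ⟨k, a1, a2, a3⟩
    have a1' : (x k).1 = false := by rw [h1]; exact a1
    exact ⟨k, a1', by rw [hr]; exact a2, by rw [h2 k a1']; exact a3⟩

theorem ns_core (b m r W jj : ℕ) (hm : 0 < m) (hr : 8 * r ≤ b) (hWpos : 0 < W)
    (syn : (Fin r → Bool) → ℕ) (sth : ℕ → (Fin r → Bool) → (Fin r → Bool))
    (hlt : ∀ x, syn x < W) (hsyn : ∀ t < W, ∀ x, syn (sth t x) = t)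
    (hss : ∀ t < W, ∀ t' < W, ∀ x, sth t' (sth t x) = sth t' x)
    (hid : ∀ x, sth (syn x) x = x) (hdist : ∀ t < W, ∀ x, hammingDist (sth t x) x ≤ jj) :
    ∃ (frz : BS b → Prop) (nu : BS b → ℕ) (st : ℕ → BS b → BS b),
      NoiseSys b m jj frz nu st ∧
      ∑ x : BS b, ind (frz x) ≤ 4 ^ b * (Real.exp (-(b / 16 : ℝ)) + m / W) := by
  classical
  let H : BS b → ℕ := fun x => syn (nsVal r x)
  let stH : ℕ → BS b → BS b := fun U x => nsSet r (sth U (nsVal r x)) x
  have hHlt : ∀ x, H x < W := fun x => hlt _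
  have hH : ∀ U < W, ∀ x, r ≤ npm x → H (stH U x) = U := by
    intro U hU x hx
    show syn (nsVal r (nsSet r _ x)) = U
    rw [ns_val_set hx, hsyn U hU]
  have hnpm : ∀ U x, npm (stH U x) = npm x := fun U x => ns_npm _ _ _
  have hHH : ∀ U < W, ∀ U' < W, ∀ x, r ≤ npm x → stH U' (stH U x) = stH U' x := by
    intro U hU U' hU' x hx
    show nsSet r (sth U' (nsVal r (nsSet r _ x))) (nsSet r _ x) = _
    rw [ns_val_set hx, hss U hU U' hU', ns_set_set]
  have hHid : ∀ x, stH (H x) x = x := by
    intro x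
    show nsSet r (sth (syn (nsVal r x)) (nsVal r x)) x = x
    rw [hid, ns_set_val]
  let frz : BS b → Prop := fun x => npm x < r ∨ m * (W / m) ≤ H x
  let nu : BS b → ℕ := fun x => H x % m
  let st : ℕ → BS b → BS b := fun t x => stH (H x / m * m + t) x
  have hU : ∀ t < m, ∀ x, ¬ frz x → H x / m * m + t < m * (W / m) := by
    intro t ht x hx
    have h1 : H x < m * (W / m) := by
      by_contra h
      exact hx (Or.inr (by omega))
    have h2 : H x / m < W / m := (Nat.div_lt_iff_lt_mul hm).2 (by rw [mul_comm]; exact h1)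
    calc H x / m * m + t < H x / m * m + m := by omega
      _ = m * (H x / m + 1) := by ring
      _ ≤ m * (W / m) := Nat.mul_le_mul_left _ h2
  have hnr : ∀ x, ¬ frz x → r ≤ npm x := by
    intro x hx
    by_contra h
    exact hx (Or.inl (by omega))
  refine ⟨frz, nu, st, ⟨?_, ?_, ?_⟩, ?_⟩
  · intro x _
    exact Nat.mod_lt _ hm
  · intro t ht x hx
    have hx1 := hnr x hx
    have hU1 := hU t ht x hx
    have hU2 : H x / m * m + t < W := hU1.trans_le (Nat.mul_div_le _ _)
    have hh : H (st t x) = H x / m * m + t := hH _ hU2 x hx1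
    have hdiv : (H x / m * m + t) / m = H x / m := by
      rw [Nat.add_comm, Nat.add_mul_div_right _ _ hm, Nat.div_eq_of_lt ht, Nat.zero_add]
    have hmod : (H x / m * m + t) % m = t := by
      rw [Nat.add_comm, Nat.add_mul_mod_self_right, Nat.mod_eq_of_lt ht]
    refine ⟨?_, ?_, ?_, ?_, ?_, ?_, ?_⟩
    · rintro (h | h)
      · rw [show npm (st t x) = npm x from hnpm _ _] at h
        omega
      · rw [hh] at h
        omega
    · show H (st t x) % m = t
      rw [hh, hmod]
    · intro t' ht'
      show stH (H (st t x) / m * m + t') (st t x) = _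
      rw [hh, hdiv]
      have hU3 := (hU t' ht' x hx).trans_le (Nat.mul_div_le W m)
      exact hHH _ hU2 _ hU3 x hx1
    · show stH (H x / m * m + H x % m) x = x
      rw [mul_comm, Nat.div_add_mod]
      exact hHid x
    · intro k
      exact ns_fst _ _ _ _
    · intro k hk
      exact ns_set_true _ _ _ _ hk
    · refine (ns_card r _ x).trans ?_
      exact hdist _ hU2 _
  · intro x x' h1 h2
    have hv := ns_val_congr r h1 h2
    have hn := b1_npm_congr h1
    have hHe : H x = H x' := by
      show syn (nsVal r x) = syn (nsVal r x')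
      rw [hv]
    refine ⟨?_, ?_, ?_⟩
    · show (npm x < r ∨ m * (W / m) ≤ H x) ↔ (npm x' < r ∨ m * (W / m) ≤ H x')
      rw [hn, hHe]
    · show H x % m = H x' % m
      rw [hHe]
    · intro t k hk
      show nsSet r (sth (H x / m * m + t) (nsVal r x)) x k =
        nsSet r (sth (H x' / m * m + t) (nsVal r x')) x' k
      rw [← hHe, ← hv]
      have hk' : (x' k).1 = false := by rw [← h1]; exact hk
      have hrk := b1_pmRank_congr h1 k
      by_cases h : pmRank x k < r
      · have h' : pmRank x' k < r := by rw [← hrk]; exact h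
        rw [ns_set_of _ _ _ _ hk h, ns_set_of _ _ _ _ hk' h']
        have : (⟨pmRank x k, h⟩ : Fin r) = ⟨pmRank x' k, h'⟩ := Fin.ext hrk
        rw [this]
      · have h' : ¬ pmRank x' k < r := by rw [← hrk]; exact h
        rw [ns_set_not _ _ _ _ (by tauto), ns_set_not _ _ _ _ (by tauto)]
        exact h2 k hk
  · have hbig : ((univ.filter fun x : BS b => r ≤ npm x ∧ m * (W / m) ≤ H x).card : ℝ) ≤
        4 ^ b * (m / W) := by
      have h1 : ((univ.filter fun x : BS b => r ≤ npm x ∧ m * (W / m) ≤ H x) ×ˢ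
          range W).card ≤ ((univ : Finset (BS b)) ×ˢ range m).card := by
        refine card_le_card_of_injOn
          (fun z => (stH z.2 z.1, H z.1 - m * (W / m))) ?_ ?_
        · rintro ⟨x, U⟩ hz
          simp only [coe_product, Set.mem_prod, coe_filter, mem_univ, true_and,
            Set.mem_ofPred_eq, mem_coe, mem_range] at hz
          simp only [coe_product, Set.mem_prod, mem_coe, mem_univ, true_and, mem_range]
          have h2 := hHlt x
          have h3 := Nat.div_add_mod W m
          have h4 := Nat.mod_lt W hm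
          omega
        · rintro ⟨x, U⟩ hz ⟨x', U'⟩ hz' h
          simp only [coe_product, Set.mem_prod, coe_filter, mem_univ, true_and,
            Set.mem_ofPred_eq, mem_coe, mem_range] at hz hz'
          simp only [Prod.mk.injEq] at h
          have h2 : U = U' := by
            have h3 := hH U hz.2 x hz.1.1
            have h4 := hH U' hz'.2 x' hz'.1.1
            rw [← h3, ← h4, h.1]
          have h5 : H x = H x' := by omega
          have h6 : x = x' := by
            have e1 := hHH U hz.2 (H x) (hHlt x) x hz.1.1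
            have e2 := hHH U' hz'.2 (H x') (hHlt x') x' hz'.1.1
            rw [hHid] at e1 e2
            rw [← e1, ← e2, h.1, h5]
          rw [h2, h6]
      rw [card_product, card_product, card_range, card_range, card_univ] at h1
      have h2 : Fintype.card (BS b) = 4 ^ b := by simp [BS]
      rw [h2] at h1
      have hW' : (0 : ℝ) < W := by exact_mod_cast hWpos
      rw [← mul_div_assoc, le_div_iff₀ hW']
      exact_mod_cast h1
    have h1 : (univ.filter fun x : BS b => frz x) ⊆
        (univ.filter fun x : BS b => npm x < r) ∪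
          (univ.filter fun x : BS b => r ≤ npm x ∧ m * (W / m) ≤ H x) := by
      intro x hx
      have hx' : npm x < r ∨ m * (W / m) ≤ H x := (mem_filter.1 hx).2
      simp only [mem_filter, mem_univ, true_and, mem_union]
      omega
    have h2 := (card_le_card h1).trans (card_union_le _ _)
    have h3 : ((univ.filter fun x : BS b => frz x).card : ℝ) ≤
        ((univ.filter fun x : BS b => npm x < r).card : ℝ) +
          ((univ.filter fun x : BS b => r ≤ npm x ∧ m * (W / m) ≤ H x).card : ℝ) := by
      exact_mod_cast h2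
    rw [sum_ind, mul_add]
    refine h3.trans (add_le_add (b1_card_few b r hr) ?_)
    exact hbig

theorem exists_noise (b m s j : ℕ) (hm : 0 < m) (hr : 8 * (j * (2 ^ s - 1)) ≤ b) :
    ∃ (frz : BS b → Prop) (nu : BS b → ℕ) (st : ℕ → BS b → BS b),
      NoiseSys b m (2 * j) frz nu st ∧
      ∑ x : BS b, ind (frz x) ≤ 4 ^ b * (Real.exp (-(b / 16 : ℝ)) + m / 2 ^ (s * j)) := by
  obtain ⟨syn, sth, hlt, hsyn, hss, hid, hdist⟩ := multi_hash s j
  have h := ns_core b m (j * (2 ^ s - 1)) (2 ^ (s * j)) (2 * j) hm hr (by positivity) syn sth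
    hlt hsyn hss hid hdist
  push_cast at h
  exact h

end BLO
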