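import Pool.Agent.Lib.BLO.Defs

/-!
# Chunk OPS: operations on components (port of `BLP/Ops.lean`)
-/

namespace BLO

open Finset BLP

variable {ι κ : Type*} [Fintype ι] [DecidableEq ι] [Fintype κ] [DecidableEq κ]

theorem Comp2.mono {a : ι → ℝ} {A B I D T A' B' I' D' T' : ℝ} (h : Comp2 a A B I D T) (hA : A ≤ A')
    (hB : B ≤ B') (hI : I ≤ I') (hD : D ≤ D') (hT : T ≤ T') : Comp2 a A' B' I' D' T' := by
  obtain ⟨S', ρ, h1, h2, h3, h4, h5, h6, h7⟩ := h
  have hp : (0 : ℝ) ≤ 2 ^ Fintype.card ι := by positivity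
  exact ⟨S', ρ, h1, h2, h3.trans (mul_le_mul_of_nonneg_right hA hp), fun h hh c =>
    (h4 h hh c).trans (mul_le_mul_of_nonneg_right hB hp), fun θ =>
    (h5 θ).trans (mul_le_mul_of_nonneg_right hI hp), h6.trans (mul_le_mul_of_nonneg_right hD hp),
    fun θ => (h7 θ).trans (mul_le_mul_of_nonneg_right hT hp)⟩

/-- disjoint union.  For `T`: for fixed `x'` the sum over the edges of the first cube is at most
`I * 2 ^ card ι` (threshold `θ - S' x'`), and it does not see the displacement of `x'`. -/
theorem Comp2.sum {a : ι → ℝ} {a' : κ → ℝ} {A B I D T A' B' I' D' T' : ℝ}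
    (h : Comp2 a A B I D T) (h' : Comp2 a' A' B' I' D' T') :
    Comp2 (Sum.elim a a') (A + A') (B + B') (I + I') (D + D') (T + T' + I * D' + I' * D) := by
  obtain ⟨S, ρ, h1, h2, h3, h4, h5, h6, h7⟩ := h
  obtain ⟨R, σ, g1, g2, g3, g4, g5, g6, g7⟩ := h'
  have hc : Fintype.card (ι ⊕ κ) = Fintype.card ι + Fintype.card κ := Fintype.card_sum
  have hci : Fintype.card (ι → Bool) = 2 ^ Fintype.card ι := by simp
  have hck : Fintype.card (κ → Bool) = 2 ^ Fintype.card κ := by simp
  have hpi : (0 : ℝ) ≤ 2 ^ Fintype.card ι := by positivity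
  have hpk : (0 : ℝ) ≤ 2 ^ Fintype.card κ := by positivity
  -- `F x y = F' x` summed
  have cst1 : ∀ (f : (ι → Bool) → ℝ), ∑ x : ι → Bool, ∑ _y : κ → Bool, f x =
      2 ^ Fintype.card κ * ∑ x, f x := by
    intro f
    rw [Finset.mul_sum]
    refine Finset.sum_congr rfl fun x _ => ?_
    rw [Finset.sum_const, Finset.card_univ, hck, nsmul_eq_mul]
    push_cast
    rfl
  have cst2 : ∀ (f : (κ → Bool) → ℝ), ∑ _x : ι → Bool, ∑ y : κ → Bool, f y =
      2 ^ Fintype.card ι * ∑ y, f y := by
    intro f
    rw [Finset.sum_const, Finset.card_univ, hci, nsmul_eq_mul]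
    push_cast
    rfl
  -- bounds which are uniform in the other variable
  have bd1 : ∀ (f : (ι → Bool) → (κ → Bool) → ℝ) (C : ℝ), (∀ y, ∑ x, f x y ≤ C) →
      ∑ x, ∑ y, f x y ≤ 2 ^ Fintype.card κ * C := by
    intro f C hf
    rw [Finset.sum_comm]
    refine (Finset.sum_le_sum fun y _ => hf y).trans (le_of_eq ?_)
    rw [Finset.sum_const, Finset.card_univ, hck, nsmul_eq_mul]
    push_cast
    rfl
  have bd2 : ∀ (f : (ι → Bool) → (κ → Bool) → ℝ) (C : ℝ), (∀ x, ∑ y, f x y ≤ C) →
      ∑ x, ∑ y, f x y ≤ 2 ^ Fintype.card ι * C := by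
    intro f C hf
    refine (Finset.sum_le_sum fun y _ => hf y).trans (le_of_eq ?_)
    rw [Finset.sum_const, Finset.card_univ, hci, nsmul_eq_mul]
    push_cast
    rfl
  refine ⟨fun x => S (fun i => x (Sum.inl i)) + R (fun k => x (Sum.inr k)),
    fun x => Sum.elim (ρ fun i => x (Sum.inl i)) (σ fun k => x (Sum.inr k)),
    ?_, ?_, ?_, ?_, ?_, ?_, ?_⟩
  · intro x
    simp only [Sum.elim_inl, Sum.elim_inr, h1, g1]
    funext j
    rcases j with j | j <;> rfl
  · intro x
    simp only [Sum.elim_inl, Sum.elim_inr, h2, g2]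
    ring
  · rw [ops_sum_elim]
    have e : ∀ (x : ι → Bool) (y : κ → Bool), (∑ i : ι ⊕ κ,
        (hammingDist (Sum.elim (ρ fun i => (Sum.elim x y : ι ⊕ κ → Bool) (Sum.inl i))
          (σ fun k => (Sum.elim x y : ι ⊕ κ → Bool) (Sum.inr k)))
          (Sum.elim (ρ fun j => flp (Sum.elim x y) i (Sum.inl j))
          (σ fun k => flp (Sum.elim x y) i (Sum.inr k))) : ℝ)) =
        (∑ i, (hammingDist (ρ x) (ρ (flp x i)) : ℝ)) +
          ∑ k, (hammingDist (σ y) (σ (flp y k)) : ℝ) := by
      intro x y
      rw [Fintype.sum_sum_type]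
      simp only [Sum.elim_inl, Sum.elim_inr, ops_flp_inl, ops_flp_inr, ops_hd_elim,
        hammingDist_self, add_zero, zero_add]
    rw [Finset.sum_congr rfl fun x _ => Finset.sum_congr rfl fun y _ => e x y]
    simp only [Finset.sum_add_distrib]
    rw [cst1, cst2, hc, pow_add]
    have := mul_le_mul_of_nonneg_left h3 hpk
    have := mul_le_mul_of_nonneg_left g3 hpi
    linarith
  · intro u hu c
    have hu1 : ∀ y : κ → Bool, Lip 1 fun x : ι → Bool => u (Sum.elim x y) := by
      intro y x i
      have := hu (Sum.elim x y) (Sum.inl i)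
      rwa [ops_flp_inl] at this
    have hu2 : ∀ x : ι → Bool, Lip 1 fun y : κ → Bool => u (Sum.elim x y) := by
      intro x y k
      have := hu (Sum.elim x y) (Sum.inr k)
      rwa [ops_flp_inr] at this
    rw [ops_sum_elim]
    simp only [ops_lin_elim, Sum.elim_inl, Sum.elim_inr]
    have e : ∑ x : ι → Bool, ∑ y : κ → Bool, u (Sum.elim x y) *
        (ind (c < lin a x + lin a' y) - ind (c < S x + R y)) =
        (∑ y : κ → Bool, ∑ x : ι → Bool, u (Sum.elim x y) *
          (ind (c - lin a' y < lin a x) - ind (c - lin a' y < S x))) +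
        ∑ x : ι → Bool, ∑ y : κ → Bool, u (Sum.elim x y) *
          (ind (c - S x < lin a' y) - ind (c - S x < R y)) := by
      rw [Finset.sum_comm (s := (Finset.univ : Finset (κ → Bool))), ← Finset.sum_add_distrib]
      refine Finset.sum_congr rfl fun x _ => ?_
      rw [← Finset.sum_add_distrib]
      refine Finset.sum_congr rfl fun y _ => ?_
      rw [ind_congr (show c - lin a' y < lin a x ↔ c < lin a x + lin a' y by
          rw [sub_lt_iff_lt_add]),
        ind_congr (show c - lin a' y < S x ↔ c < S x + lin a' y by rw [sub_lt_iff_lt_add]),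
        ind_congr (show c - S x < lin a' y ↔ c < S x + lin a' y by rw [sub_lt_iff_lt_add']),
        ind_congr (show c - S x < R y ↔ c < S x + R y by rw [sub_lt_iff_lt_add'])]
      ring
    rw [e, hc, pow_add]
    refine (abs_add_le _ _).trans ?_
    have b1 : |∑ y : κ → Bool, ∑ x : ι → Bool, u (Sum.elim x y) *
          (ind (c - lin a' y < lin a x) - ind (c - lin a' y < S x))| ≤
        2 ^ Fintype.card κ * (B * 2 ^ Fintype.card ι) := by
      refine (Finset.abs_sum_le_sum_abs _ _).trans ?_
      refine (Finset.sum_le_sum fun y _ => h4 _ (hu1 y) (c - lin a' y)).trans (le_of_eq ?_)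
      rw [Finset.sum_const, Finset.card_univ, hck, nsmul_eq_mul]
      push_cast
      rfl
    have b2 : |∑ x : ι → Bool, ∑ y : κ → Bool, u (Sum.elim x y) *
          (ind (c - S x < lin a' y) - ind (c - S x < R y))| ≤
        2 ^ Fintype.card ι * (B' * 2 ^ Fintype.card κ) := by
      refine (Finset.abs_sum_le_sum_abs _ _).trans ?_
      refine (Finset.sum_le_sum fun x _ => g4 _ (hu2 x) (c - S x)).trans (le_of_eq ?_)
      rw [Finset.sum_const, Finset.card_univ, hci, nsmul_eq_mul]
      push_cast
      rfl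
    nlinarith [b1, b2]
  · intro θ
    rw [ops_sum_elim]
    have e : ∀ (x : ι → Bool) (y : κ → Bool), (∑ i : ι ⊕ κ,
        |ind (θ < S (fun i => (Sum.elim x y : ι ⊕ κ → Bool) (Sum.inl i)) +
            R (fun k => (Sum.elim x y : ι ⊕ κ → Bool) (Sum.inr k))) -
          ind (θ < S (fun j => flp (Sum.elim x y) i (Sum.inl j)) +
            R (fun k => flp (Sum.elim x y) i (Sum.inr k)))|) =
        (∑ i, |ind (θ - R y < S x) - ind (θ - R y < S (flp x i))|) +
          ∑ k, |ind (θ - S x < R y) - ind (θ - S x < R (flp y k))| := by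
      intro x y
      rw [Fintype.sum_sum_type]
      congr 1
      · refine Finset.sum_congr rfl fun i _ => ?_
        rw [ops_flp_inl]
        show |ind (θ < S x + R y) - ind (θ < S (flp x i) + R y)| = _
        rw [ind_congr (show θ - R y < S x ↔ θ < S x + R y by rw [sub_lt_iff_lt_add]),
          ind_congr (show θ - R y < S (flp x i) ↔ θ < S (flp x i) + R y by rw [sub_lt_iff_lt_add])]
      · refine Finset.sum_congr rfl fun k _ => ?_
        rw [ops_flp_inr]
        show |ind (θ < S x + R y) - ind (θ < S x + R (flp y k))| = _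
        rw [ind_congr (show θ - S x < R y ↔ θ < S x + R y by rw [sub_lt_iff_lt_add']),
          ind_congr (show θ - S x < R (flp y k) ↔ θ < S x + R (flp y k) by
            rw [sub_lt_iff_lt_add'])]
    rw [Finset.sum_congr rfl fun x _ => Finset.sum_congr rfl fun y _ => e x y]
    simp only [Finset.sum_add_distrib]
    rw [hc, pow_add]
    have b1 := bd1 (fun x y => ∑ i, |ind (θ - R y < S x) - ind (θ - R y < S (flp x i))|)
      (I * 2 ^ Fintype.card ι) fun y => h5 (θ - R y)
    have b2 := bd2 (fun x y => ∑ k, |ind (θ - S x < R y) - ind (θ - S x < R (flp y k))|)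
      (I' * 2 ^ Fintype.card κ) fun x => g5 (θ - S x)
    linarith
  · rw [ops_sum_elim]
    have e : ∀ (x : ι → Bool) (y : κ → Bool),
        (hammingDist (Sum.elim x y : ι ⊕ κ → Bool)
          (Sum.elim (ρ fun i => (Sum.elim x y : ι ⊕ κ → Bool) (Sum.inl i))
            (σ fun k => (Sum.elim x y : ι ⊕ κ → Bool) (Sum.inr k))) : ℝ) =
        (hammingDist x (ρ x) : ℝ) + hammingDist y (σ y) := by
      intro x y
      simp only [Sum.elim_inl, Sum.elim_inr, ops_hd_elim]
      push_cast
      rfl
    rw [Finset.sum_congr rfl fun x _ => Finset.sum_congr rfl fun y _ => e x y]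
    simp only [Finset.sum_add_distrib]
    rw [cst1, cst2, hc, pow_add]
    have := mul_le_mul_of_nonneg_left h6 hpk
    have := mul_le_mul_of_nonneg_left g6 hpi
    linarith
  · intro θ
    rw [ops_sum_elim]
    have e : ∀ (x : ι → Bool) (y : κ → Bool), (∑ i : ι ⊕ κ,
        |ind (θ < S (fun i => (Sum.elim x y : ι ⊕ κ → Bool) (Sum.inl i)) +
            R (fun k => (Sum.elim x y : ι ⊕ κ → Bool) (Sum.inr k))) -
          ind (θ < S (fun j => flp (Sum.elim x y) i (Sum.inl j)) +
            R (fun k => flp (Sum.elim x y) i (Sum.inr k)))| *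
        (hammingDist (Sum.elim x y : ι ⊕ κ → Bool)
          (Sum.elim (ρ fun i => (Sum.elim x y : ι ⊕ κ → Bool) (Sum.inl i))
            (σ fun k => (Sum.elim x y : ι ⊕ κ → Bool) (Sum.inr k))) : ℝ)) =
        (∑ i, |ind (θ - R y < S x) - ind (θ - R y < S (flp x i))| * (hammingDist x (ρ x) : ℝ)) +
        (hammingDist y (σ y) : ℝ) * (∑ i, |ind (θ - R y < S x) - ind (θ - R y < S (flp x i))|) +
        ((∑ k, |ind (θ - S x < R y) - ind (θ - S x < R (flp y k))| * (hammingDist y (σ y) : ℝ)) +
        (hammingDist x (ρ x) : ℝ) *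
          ∑ k, |ind (θ - S x < R y) - ind (θ - S x < R (flp y k))|) := by
      intro x y
      have e0 : (hammingDist (Sum.elim x y : ι ⊕ κ → Bool)
          (Sum.elim (ρ fun i => (Sum.elim x y : ι ⊕ κ → Bool) (Sum.inl i))
            (σ fun k => (Sum.elim x y : ι ⊕ κ → Bool) (Sum.inr k))) : ℝ) =
        (hammingDist x (ρ x) : ℝ) + hammingDist y (σ y) := by
        simp only [Sum.elim_inl, Sum.elim_inr, ops_hd_elim]
        push_cast
        rfl
      rw [Fintype.sum_sum_type, e0]
      congr 1
      · rw [Finset.mul_sum, ← Finset.sum_add_distrib]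
        refine Finset.sum_congr rfl fun i _ => ?_
        rw [ops_flp_inl]
        have e1 : |ind (θ < S (fun i => (Sum.elim x y : ι ⊕ κ → Bool) (Sum.inl i)) +
            R (fun k => (Sum.elim x y : ι ⊕ κ → Bool) (Sum.inr k))) -
          ind (θ < S (fun j => (Sum.elim (flp x i) y : ι ⊕ κ → Bool) (Sum.inl j)) +
            R (fun k => (Sum.elim (flp x i) y : ι ⊕ κ → Bool) (Sum.inr k)))| =
            |ind (θ - R y < S x) - ind (θ - R y < S (flp x i))| := by
          show |ind (θ < S x + R y) - ind (θ < S (flp x i) + R y)| = _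
          rw [ind_congr (show θ - R y < S x ↔ θ < S x + R y by rw [sub_lt_iff_lt_add]),
            ind_congr (show θ - R y < S (flp x i) ↔ θ < S (flp x i) + R y by
              rw [sub_lt_iff_lt_add])]
        rw [e1]
        ring
      · rw [Finset.mul_sum, ← Finset.sum_add_distrib]
        refine Finset.sum_congr rfl fun k _ => ?_
        rw [ops_flp_inr]
        have e1 : |ind (θ < S (fun i => (Sum.elim x y : ι ⊕ κ → Bool) (Sum.inl i)) +
            R (fun k => (Sum.elim x y : ι ⊕ κ → Bool) (Sum.inr k))) -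
          ind (θ < S (fun j => (Sum.elim x (flp y k) : ι ⊕ κ → Bool) (Sum.inl j)) +
            R (fun k' => (Sum.elim x (flp y k) : ι ⊕ κ → Bool) (Sum.inr k')))| =
            |ind (θ - S x < R y) - ind (θ - S x < R (flp y k))| := by
          show |ind (θ < S x + R y) - ind (θ < S x + R (flp y k))| = _
          rw [ind_congr (show θ - S x < R y ↔ θ < S x + R y by rw [sub_lt_iff_lt_add']),
            ind_congr (show θ - S x < R (flp y k) ↔ θ < S x + R (flp y k) by
              rw [sub_lt_iff_lt_add'])]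
        rw [e1]
        ring
    rw [Finset.sum_congr rfl fun x _ => Finset.sum_congr rfl fun y _ => e x y]
    simp only [Finset.sum_add_distrib]
    rw [hc, pow_add]
    have b1 := bd1 (fun x y => ∑ i, |ind (θ - R y < S x) - ind (θ - R y < S (flp x i))| *
      (hammingDist x (ρ x) : ℝ)) (T * 2 ^ Fintype.card ι) fun y => h7 (θ - R y)
    have b2 := bd2 (fun x y => ∑ k, |ind (θ - S x < R y) - ind (θ - S x < R (flp y k))| *
      (hammingDist y (σ y) : ℝ)) (T' * 2 ^ Fintype.card κ) fun x => g7 (θ - S x)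
    have b3 : ∑ x : ι → Bool, ∑ y : κ → Bool, (hammingDist y (σ y) : ℝ) *
        (∑ i, |ind (θ - R y < S x) - ind (θ - R y < S (flp x i))|) ≤
        (D' * 2 ^ Fintype.card κ) * (I * 2 ^ Fintype.card ι) := by
      rw [Finset.sum_comm]
      have hI0 : 0 ≤ I * 2 ^ Fintype.card ι := le_trans (Finset.sum_nonneg fun x _ =>
        Finset.sum_nonneg fun i _ => abs_nonneg _) (h5 0)
      refine le_trans ?_ (mul_le_mul_of_nonneg_right g6 hI0)
      rw [Finset.sum_mul]
      refine Finset.sum_le_sum fun y _ => ?_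
      rw [← Finset.mul_sum]
      exact mul_le_mul_of_nonneg_left (h5 _) (Nat.cast_nonneg _)
    have b4 : ∑ x : ι → Bool, ∑ y : κ → Bool, (hammingDist x (ρ x) : ℝ) *
        (∑ k, |ind (θ - S x < R y) - ind (θ - S x < R (flp y k))|) ≤
        (D * 2 ^ Fintype.card ι) * (I' * 2 ^ Fintype.card κ) := by
      have hI0 : 0 ≤ I' * 2 ^ Fintype.card κ := le_trans (Finset.sum_nonneg fun x _ =>
        Finset.sum_nonneg fun i _ => abs_nonneg _) (g5 0)
      refine le_trans ?_ (mul_le_mul_of_nonneg_right h6 hI0)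
      rw [Finset.sum_mul]
      refine Finset.sum_le_sum fun x _ => ?_
      rw [← Finset.mul_sum]
      exact mul_le_mul_of_nonneg_left (g5 _) (Nat.cast_nonneg _)
    linarith

theorem Comp2.equiv (e : κ ≃ ι) {a : ι → ℝ} {A B I D T : ℝ} (h : Comp2 a A B I D T) :
    Comp2 (fun k => a (e k)) A B I D T := by
  obtain ⟨S, ρ, h1, h2, h3, h4, h5, h6, h7⟩ := h
  -- the equivalence of cubes
  let E : (κ → Bool) ≃ (ι → Bool) := Equiv.arrowCongr e (Equiv.refl Bool)
  have hE : ∀ (x : κ → Bool) (i : ι), E x i = x (e.symm i) := fun x i => rfl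
  have hEs : ∀ (x : ι → Bool) (k : κ), E.symm x k = x (e k) := fun x k => rfl
  have hcard : Fintype.card κ = Fintype.card ι := Fintype.card_congr e
  have hflp : ∀ (x : κ → Bool) (i : ι), E (flp x (e.symm i)) = flp (E x) i := by
    intro x i
    funext j
    by_cases hj : j = i
    · subst hj
      rw [hE, flp_same, flp_same, hE]
    · rw [hE, flp_ne _ hj, hE, flp_ne]
      intro hc
      exact hj (e.symm.injective hc)
  have hflp' : ∀ (x : κ → Bool) (k : κ), E (flp x k) = flp (E x) (e k) := by
    intro x k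
    rw [← hflp, e.symm_apply_apply]
  have hflps : ∀ (y : ι → Bool) (i : ι), E.symm (flp y i) = flp (E.symm y) (e.symm i) := by
    intro y i
    apply E.injective
    rw [E.apply_symm_apply, hflp, E.apply_symm_apply]
  have hhd : ∀ x y : ι → Bool, hammingDist (E.symm x) (E.symm y) = hammingDist x y := by
    intro x y
    simp only [hammingDist, Finset.card_filter, hEs]
    exact Equiv.sum_comp e fun i => if x i ≠ y i then 1 else 0
  have hhd' : ∀ x y : κ → Bool, hammingDist (E x) (E y) = hammingDist x y := by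
    intro x y
    rw [← hhd, E.symm_apply_apply, E.symm_apply_apply]
  have hlin : ∀ x : κ → Bool, lin (fun k => a (e k)) x = lin a (E x) := by
    intro x
    simp only [lin]
    rw [← Equiv.sum_comp e fun i => a i * sg (E x i)]
    refine Finset.sum_congr rfl fun k _ => ?_
    rw [hE, e.symm_apply_apply]
  refine ⟨fun x => S (E x), fun x => E.symm (ρ (E x)), ?_, ?_, ?_, ?_, ?_, ?_, ?_⟩
  · intro x
    beta_reduce
    rw [E.apply_symm_apply, h1, E.symm_apply_apply]
  · intro x
    beta_reduce
    rw [E.apply_symm_apply, h2]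
  · rw [hcard]
    refine le_trans (le_of_eq ?_) h3
    rw [← Equiv.sum_comp E]
    refine Finset.sum_congr rfl fun x _ => ?_
    rw [← Equiv.sum_comp e]
    refine Finset.sum_congr rfl fun k _ => ?_
    rw [hhd, hflp']
  · intro u hu c
    rw [hcard]
    have hL : Lip 1 fun y : ι → Bool => u (E.symm y) := by
      intro y i
      beta_reduce
      rw [hflps]
      exact hu _ _
    refine le_trans (le_of_eq ?_) (h4 _ hL c)
    rw [← Equiv.sum_comp E]
    congr 1
    refine Finset.sum_congr rfl fun x _ => ?_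
    rw [hlin, E.symm_apply_apply]
  · intro θ
    rw [hcard]
    refine le_trans (le_of_eq ?_) (h5 θ)
    rw [← Equiv.sum_comp E]
    refine Finset.sum_congr rfl fun x _ => ?_
    rw [← Equiv.sum_comp e]
    refine Finset.sum_congr rfl fun k _ => ?_
    beta_reduce
    rw [hflp']
  · rw [hcard]
    refine le_trans (le_of_eq ?_) h6
    rw [← Equiv.sum_comp E]
    refine Finset.sum_congr rfl fun x _ => ?_
    beta_reduce
    rw [← hhd' x, E.apply_symm_apply]
  · intro θ
    rw [hcard]
    refine le_trans (le_of_eq ?_) (h7 θ)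
    rw [← Equiv.sum_comp E]
    refine Finset.sum_congr rfl fun x _ => ?_
    rw [← Equiv.sum_comp e]
    refine Finset.sum_congr rfl fun k _ => ?_
    beta_reduce
    rw [hflp', ← hhd' x, E.apply_symm_apply]

theorem Comp2.scale {a : ι → ℝ} {A B I D T : ℝ} (h : Comp2 a A B I D T) {c : ℝ} (hc : 0 < c) :
    Comp2 (fun i => c * a i) A B I D T := by
  obtain ⟨S, ρ, h1, h2, h3, h4, h5, h6, h7⟩ := h
  have hlin : ∀ x, lin (fun i => c * a i) x = c * lin a x := by
    intro x
    simp only [lin, Finset.mul_sum]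
    exact Finset.sum_congr rfl fun i _ => by ring
  have hind : ∀ t s : ℝ, ind (t < c * s) = ind (t / c < s) := fun t s =>
    ind_congr (by rw [div_lt_iff₀ hc, mul_comm])
  refine ⟨fun x => c * S x, ρ, h1, fun x => by beta_reduce; rw [h2]; ring, h3, fun u hu t => ?_, fun θ => ?_,
    h6, fun θ => ?_⟩
  · simp only [hlin, hind]
    exact h4 u hu (t / c)
  · simp only [hind]
    exact h5 (θ / c)
  · simp only [hind]
    exact h7 (θ / c)

theorem Comp2.sign {a a' : ι → ℝ} {A B I D T : ℝ} (h : Comp2 a A B I D T)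
    (ha : ∀ i, |a i| = |a' i|) :
    Comp2 a' A B I D T := by
  classical
  obtain ⟨S, ρ, h1, h2, h3, h4, h5, h6, h7⟩ := h
  let φ : (ι → Bool) → (ι → Bool) := fun x i => if a' i = a i then x i else !(x i)
  have hφφ : ∀ x, φ (φ x) = x := by
    intro x
    funext i
    simp only [φ]
    split_ifs with h <;> simp
  let E : (ι → Bool) ≃ (ι → Bool) := ⟨φ, φ, hφφ, hφφ⟩
  have hE : ∀ x, E x = φ x := fun x => rfl
  have hflp : ∀ (x : ι → Bool) (i : ι), φ (flp x i) = flp (φ x) i := by
    intro x i
    funext j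
    by_cases hj : j = i
    · subst hj
      rw [flp_same]
      simp only [φ, flp_same]
      split_ifs <;> simp
    · rw [flp_ne _ hj]
      simp only [φ, flp_ne _ hj]
  have hhd : ∀ x y : ι → Bool, hammingDist (φ x) (φ y) = hammingDist x y := by
    intro x y
    simp only [hammingDist]
    congr 1
    ext i
    simp only [Finset.mem_filter, Finset.mem_univ, true_and, φ]
    split_ifs <;> simp
  have hlin : ∀ x : ι → Bool, lin a' x = lin a (φ x) := by
    intro x
    simp only [lin]
    refine Finset.sum_congr rfl fun i _ => ?_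
    simp only [φ]
    split_ifs with h
    · rw [h]
    · have h' : a' i = - a i := by
        rcases abs_eq_abs.mp (ha i) with g | g
        · exact absurd g.symm h
        · rw [g, neg_neg]
      rw [h']
      cases x i <;> simp [sg]
  refine ⟨fun x => S (φ x), fun x => φ (ρ (φ x)), ?_, ?_, ?_, ?_, ?_, ?_, ?_⟩
  · intro x
    beta_reduce
    rw [hφφ, h1, hφφ]
  · intro x
    beta_reduce
    rw [hφφ, h2]
  · refine le_trans (le_of_eq ?_) h3
    rw [← Equiv.sum_comp E]
    refine Finset.sum_congr rfl fun x _ => Finset.sum_congr rfl fun i _ => ?_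
    rw [hhd, hflp, hE, hφφ]
  · intro u hu c
    have hL : Lip 1 fun y : ι → Bool => u (φ y) := by
      intro y i
      beta_reduce
      rw [hflp]
      exact hu _ _
    refine le_trans (le_of_eq ?_) (h4 _ hL c)
    rw [← Equiv.sum_comp E]
    congr 1
    refine Finset.sum_congr rfl fun x _ => ?_
    beta_reduce
    rw [hlin, hE, hφφ]
  · intro θ
    refine le_trans (le_of_eq ?_) (h5 θ)
    rw [← Equiv.sum_comp E]
    refine Finset.sum_congr rfl fun x _ => Finset.sum_congr rfl fun i _ => ?_
    beta_reduce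
    rw [hflp, hE, hφφ]
  · refine le_trans (le_of_eq ?_) h6
    rw [← Equiv.sum_comp E]
    refine Finset.sum_congr rfl fun x _ => ?_
    beta_reduce
    rw [hE, hφφ, hhd]
  · intro θ
    refine le_trans (le_of_eq ?_) (h7 θ)
    rw [← Equiv.sum_comp E]
    refine Finset.sum_congr rfl fun x _ => Finset.sum_congr rfl fun i _ => ?_
    beta_reduce
    rw [hflp, hE, hφφ, hhd]

/-- `S' = lin a`, `ρ = -` -/
theorem Comp2.blind (a : ι → ℝ) :
    Comp2 a (Fintype.card ι) 0 (Fintype.card ι) (Fintype.card ι) ((Fintype.card ι : ℝ) ^ 2) := by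
  have hci : Fintype.card (ι → Bool) = 2 ^ Fintype.card ι := by simp
  have hone : ∀ (f : (ι → Bool) → ι → ℝ), (∀ x i, f x i ≤ 1) →
      ∑ x, ∑ i, f x i ≤ Fintype.card ι * 2 ^ Fintype.card ι := by
    intro f hf
    refine (Finset.sum_le_sum fun x _ => Finset.sum_le_sum fun i _ => hf x i).trans (le_of_eq ?_)
    simp only [Finset.sum_const, Finset.card_univ, nsmul_eq_mul, mul_one, hci]
    push_cast
    ring
  refine ⟨lin a, fun x i => !(x i), fun x => by funext i; simp, ?_, ?_, ?_, ?_, ?_, ?_⟩
  · intro x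
    simp only [lin, ← Finset.sum_neg_distrib]
    refine Finset.sum_congr rfl fun i _ => ?_
    cases x i <;> simp [sg]
  · apply hone
    intro x i
    have : hammingDist (fun j => !(x j)) (fun j => !(flp x i j)) = hammingDist x (flp x i) := by
      simp only [hammingDist]
      congr 1
      ext j
      simp
    rw [this, ops_hd_flp']
    norm_num
  · intro u _ c
    simp
  · intro θ
    apply hone
    intro x i
    rw [abs_le]
    constructor
    · linarith [ind_nonneg (θ < lin a x), ind_le_one (θ < lin a (flp x i))]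
    · linarith [ind_le_one (θ < lin a x), ind_nonneg (θ < lin a (flp x i))]
  · have e : ∀ x : ι → Bool, (hammingDist x (fun i => !(x i)) : ℝ) ≤ Fintype.card ι := fun x => by
      exact_mod_cast hammingDist_le_card_fintype
    refine (Finset.sum_le_sum fun x _ => e x).trans (le_of_eq ?_)
    rw [Finset.sum_const, Finset.card_univ, hci, nsmul_eq_mul]
    push_cast
    ring
  · intro θ
    have e : ∀ (x : ι → Bool) (i : ι), |ind (θ < lin a x) - ind (θ < lin a (flp x i))| *
        (hammingDist x (fun i => !(x i)) : ℝ) ≤ Fintype.card ι := by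
      intro x i
      have e1 : |ind (θ < lin a x) - ind (θ < lin a (flp x i))| ≤ 1 := by
        rw [abs_le]
        constructor
        · linarith [ind_nonneg (θ < lin a x), ind_le_one (θ < lin a (flp x i))]
        · linarith [ind_le_one (θ < lin a x), ind_nonneg (θ < lin a (flp x i))]
      have e2 : (hammingDist x (fun i => !(x i)) : ℝ) ≤ Fintype.card ι := by
        exact_mod_cast hammingDist_le_card_fintype
      calc _ ≤ 1 * (Fintype.card ι : ℝ) := mul_le_mul e1 e2 (Nat.cast_nonneg _) zero_le_one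
        _ = _ := one_mul _
    refine (Finset.sum_le_sum fun x _ => Finset.sum_le_sum fun i _ => e x i).trans (le_of_eq ?_)
    simp only [Finset.sum_const, Finset.card_univ, nsmul_eq_mul, hci]
    push_cast
    ring

/-- `S' = 0`, `ρ = id` -/
theorem Comp2.zero : Comp2 (fun _ : ι => (0 : ℝ)) (Fintype.card ι) 0 0 0 0 := by
  have hci : Fintype.card (ι → Bool) = 2 ^ Fintype.card ι := by simp
  refine ⟨fun _ => 0, fun x => x, fun x => rfl, fun x => by simp, ?_, ?_, ?_, ?_, ?_⟩
  · simp only [ops_hd_flp', Finset.sum_const, Finset.card_univ, nsmul_eq_mul, hci]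
    push_cast
    rw [mul_one, mul_comm]
  · intro u _ c
    simp [lin]
  · intro θ
    simp
  · simp
  · intro θ
    simp

/-- a partition of the coordinates into classes -/
theorem Comp2.fibers (f : ι → κ) (a : ι → ℝ) (A B I D T : κ → ℝ) (hI : ∀ k, 0 ≤ I k)
    (hD : ∀ k, 0 ≤ D k)
    (h : ∀ k, Comp2 (fun i : {i // f i = k} => a i) (A k) (B k) (I k) (D k) (T k)) :
    Comp2 a (∑ k, A k) (∑ k, B k) (∑ k, I k) (∑ k, D k)
      (∑ k, T k + (∑ k, I k) * (∑ k, D k)) := by
  classical
  have key : ∀ s : Finset κ, Comp2 (fun i : {i // f i ∈ s} => a i) (∑ k ∈ s, A k) (∑ k ∈ s, B k)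
      (∑ k ∈ s, I k) (∑ k ∈ s, D k) (∑ k ∈ s, T k + (∑ k ∈ s, I k) * (∑ k ∈ s, D k)) := by
    intro s
    induction s using Finset.induction_on with
    | empty =>
      have hE : IsEmpty {i // f i ∈ (∅ : Finset κ)} := ⟨fun i => by simpa using i.2⟩
      have := Comp2.blind (ι := {i // f i ∈ (∅ : Finset κ)}) fun i => a i
      rw [Fintype.card_eq_zero] at this
      simpa using this
    | insert k s hk ih =>
      rw [Finset.sum_insert hk, Finset.sum_insert hk, Finset.sum_insert hk, Finset.sum_insert hk,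
        Finset.sum_insert hk]
      let e : {i // f i ∈ insert k s} ≃ {i // f i = k} ⊕ {i // f i ∈ s} :=
        { toFun := fun i => if h : f i.1 = k then Sum.inl ⟨i.1, h⟩ else
            Sum.inr ⟨i.1, (Finset.mem_insert.mp i.2).resolve_left h⟩
          invFun := fun j => Sum.elim (fun i => ⟨i.1, by rw [i.2]; exact Finset.mem_insert_self _ _⟩)
            (fun i => ⟨i.1, Finset.mem_insert_of_mem i.2⟩) j
          left_inv := by
            rintro ⟨i, hi⟩
            by_cases h : f i = k
            · simp [h]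
            · simp [h]
          right_inv := by
            rintro (⟨i, hi⟩ | ⟨i, hi⟩)
            · simp [hi]
            · have : f i ≠ k := by
                rintro rfl
                exact hk hi
              simp [this] }
      have := Comp2.mono (Comp2.equiv e (Comp2.sum (h k) ih)) le_rfl le_rfl le_rfl le_rfl
        (show _ ≤ T k + ∑ x ∈ s, T x + (I k + ∑ x ∈ s, I x) * (D k + ∑ x ∈ s, D x) by
          nlinarith [mul_nonneg (hI k) (hD k)])
      refine (congrArg (fun b => Comp2 b _ _ _ _ _) ?_).mp this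
      funext i
      show Sum.elim _ _ (e i) = a i
      by_cases hi : f i.1 = k
      · have : e i = Sum.inl ⟨i.1, hi⟩ := by simp [e, hi]
        rw [this]
        rfl
      · have : e i = Sum.inr ⟨i.1, (Finset.mem_insert.mp i.2).resolve_left hi⟩ := by simp [e, hi]
        rw [this]
        rfl
  have := Comp2.equiv (Equiv.subtypeUnivEquiv (p := fun i : ι => f i ∈ (Finset.univ : Finset κ))
    fun i => Finset.mem_univ _).symm (key Finset.univ)
  exact this

end BLO
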