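import Mathlib

/-!
# Chunk ZG1: orders of the blocks

`m g > 0` weights, `n g > 0` sizes (`g < K`), `V a b = ∑_{a ≤ g < b} m g ^ 2 n g`, `N = ∑ n g`.
Basic inequality (HL): for a non-increasing sequence `a_1 ≥ a_2 ≥ …` one has `a_k / √(a_1^2 + … + a_k^2) ≤ 1/√k`,
hence for blocks in heavy -> light order `∑ n_g m_g / √V(0, g+1) ≤ 2 √N`.
-/

namespace BLO

open Finset

/-- variance -/
noncomputable def VV (m n : ℕ → ℝ) (a b : ℕ) : ℝ := ∑ g ∈ Ico a b, m g ^ 2 * n g

/-- total size -/
noncomputable def NN (n : ℕ → ℝ) (K : ℕ) : ℝ := ∑ g ∈ range K, n g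

/-- properties of the order of the blocks that are used (constant `C`) -/
structure Good (C : ℝ) (K : ℕ) (m n : ℕ → ℝ) : Prop where
  hK : 0 < K
  m_pos : ∀ g < K, 0 < m g
  n_pos : ∀ g < K, 0 < n g
  h2 : ∑ g ∈ range K, n g * m g / Real.sqrt (VV m n 0 (g + 1)) ≤ C * Real.sqrt (NN n K)
  h2' : ∑ g ∈ range K, n g * m g / Real.sqrt (VV m n g K) ≤ C * Real.sqrt (NN n K)
  h3 : ∀ q < K, ∑ g ∈ (Ico (q + 1) K).filter (fun g => m g < m q),
    n g * m g / Real.sqrt (VV m n (q + 1) (g + 1)) ≤ C * Real.sqrt (NN n K)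
  h3' : ∀ q < K, ∑ g ∈ (range q).filter (fun g => m g < m q),
    n g * m g / Real.sqrt (VV m n g q) ≤ C * Real.sqrt (NN n K)
  h4 : ∀ g < K, VV m n 0 K ≤ C ^ 2 * max (VV m n 0 g) (VV m n (g + 1) K)
  /-- `b g` start of the local past, `[f g, f' g)` free segment (records from the left) -/
  h5 : ∃ b f f' : ℕ → ℕ, (∀ g < K, b g ≤ g ∧ f g < f' g ∧ f' g ≤ K ∧ (f' g ≤ b g ∨ g < f g)) ∧
    ∑ g ∈ range K, n g * m g / Real.sqrt (VV m n (b g) (g + 1)) ≤ C * Real.sqrt (NN n K) ∧
    ∀ g < K, (∀ h < K, 0 < ∑ j ∈ (Ico (f g) (f' g)).filter (fun j => m h ≤ m j), n j) ∧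
      ∑ h ∈ range K, n h / Real.sqrt (∑ j ∈ (Ico (f g) (f' g)).filter (fun j => m h ≤ m j), n j) ≤
        C * Real.sqrt (NN n K)
  /-- mirror image: `b g` end of the local future -/
  h5' : ∃ b f f' : ℕ → ℕ, (∀ g < K, g < b g ∧ b g ≤ K ∧ f g < f' g ∧ f' g ≤ K ∧
      (f' g ≤ g ∨ b g ≤ f g)) ∧
    ∑ g ∈ range K, n g * m g / Real.sqrt (VV m n g (b g)) ≤ C * Real.sqrt (NN n K) ∧
    ∀ g < K, (∀ h < K, 0 < ∑ j ∈ (Ico (f g) (f' g)).filter (fun j => m h ≤ m j), n j) ∧
      ∑ h ∈ range K, n h / Real.sqrt (∑ j ∈ (Ico (f g) (f' g)).filter (fun j => m h ≤ m j), n j) ≤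
        C * Real.sqrt (NN n K)

theorem VV_reflect {K a b : ℕ} (hK : 0 < K) (hb : b ≤ K) (m n : ℕ → ℝ) :
    VV (fun g => m (K - 1 - g)) (fun g => n (K - 1 - g)) a b = VV m n (K - b) (K - a) := by
  unfold VV
  have h := Finset.sum_Ico_reflect (fun g => m g ^ 2 * n g) a (n := K - 1) (m := b) (by omega)
  rw [show K - 1 + 1 = K by omega] at h
  exact h

theorem zg_range_reflect {K : ℕ} (F : ℕ → ℝ) :
    ∑ g ∈ range K, F (K - 1 - g) = ∑ g ∈ range K, F g := Finset.sum_range_reflect F K

theorem zg_filter_reflect {K a b : ℕ} (hK : 0 < K) (hb : b ≤ K) (p : ℕ → Prop) [DecidablePred p]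
    (F : ℕ → ℝ) :
    ∑ g ∈ (Ico a b).filter (fun g => p (K - 1 - g)), F (K - 1 - g) =
      ∑ g ∈ (Ico (K - b) (K - a)).filter p, F g := by
  rw [Finset.sum_filter, Finset.sum_filter]
  have h := Finset.sum_Ico_reflect (fun g => if p g then F g else 0) a (n := K - 1) (m := b)
    (by omega)
  rw [show K - 1 + 1 = K by omega] at h
  exact h

theorem NN_reflect (n : ℕ → ℝ) (K : ℕ) : NN (fun g => n (K - 1 - g)) K = NN n K :=
  Finset.sum_range_reflect n K

/-- ZG1: mirror image -/
theorem Good.mirror {C : ℝ} {K : ℕ} {m n : ℕ → ℝ} (h : Good C K m n) :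
    Good C K (fun g => m (K - 1 - g)) (fun g => n (K - 1 - g)) := by
  obtain ⟨hK, mp, np, h2, h2', h3, h3', h4, h5, h5'⟩ := h
  refine ⟨hK, fun g hg => mp _ (by omega), fun g hg => np _ (by omega), ?_, ?_, ?_, ?_, ?_, ?_, ?_⟩
  · rw [NN_reflect]
    refine le_trans (le_of_eq ?_) h2'
    rw [← zg_range_reflect (K := K) (fun g => n g * m g / Real.sqrt (VV m n g K))]
    refine Finset.sum_congr rfl fun g hg => ?_
    have hg' : g < K := Finset.mem_range.1 hg
    rw [VV_reflect hK (by omega)]
    rw [show K - (g + 1) = K - 1 - g by omega, show K - 0 = K by omega]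
  · rw [NN_reflect]
    refine le_trans (le_of_eq ?_) h2
    rw [← zg_range_reflect (K := K) (fun g => n g * m g / Real.sqrt (VV m n 0 (g + 1)))]
    refine Finset.sum_congr rfl fun g hg => ?_
    have hg' : g < K := Finset.mem_range.1 hg
    rw [VV_reflect hK (by omega)]
    rw [show K - K = 0 by omega, show K - 1 - g + 1 = K - g by omega]
  · intro q hq
    rw [NN_reflect]
    refine le_trans (le_of_eq ?_) (h3' (K - 1 - q) (by omega))
    have e := zg_filter_reflect (K := K) (a := q + 1) (b := K) hK le_rfl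
      (fun g => m g < m (K - 1 - q)) (fun g => n g * m g / Real.sqrt (VV m n g (K - 1 - q)))
    rw [show K - K = 0 by omega, show K - (q + 1) = K - 1 - q by omega] at e
    rw [Finset.range_eq_Ico, ← e]
    refine Finset.sum_congr rfl fun g hg => ?_
    have hg' := Finset.mem_Ico.1 (Finset.mem_filter.1 hg).1
    rw [VV_reflect hK (by omega)]
    rw [show K - (g + 1) = K - 1 - g by omega, show K - (q + 1) = K - 1 - q by omega]
  · intro q hq
    rw [NN_reflect]
    refine le_trans (le_of_eq ?_) (h3 (K - 1 - q) (by omega))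
    have e := zg_filter_reflect (K := K) (a := 0) (b := q) hK (by omega)
      (fun g => m g < m (K - 1 - q))
      (fun g => n g * m g / Real.sqrt (VV m n (K - 1 - q + 1) (g + 1)))
    rw [show K - q = K - 1 - q + 1 by omega, show K - 0 = K by omega] at e
    rw [← e, Finset.range_eq_Ico]
    refine Finset.sum_congr rfl fun g hg => ?_
    have hg' := Finset.mem_Ico.1 (Finset.mem_filter.1 hg).1
    rw [VV_reflect hK (by omega)]
    rw [show K - q = K - 1 - q + 1 by omega, show K - g = K - 1 - g + 1 by omega]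
  · intro g hg
    rw [VV_reflect hK le_rfl, VV_reflect hK (by omega), VV_reflect hK le_rfl, max_comm]
    have := h4 (K - 1 - g) (by omega)
    rw [show K - K = 0 by omega, show K - 0 = K by omega, show K - (g + 1) = K - 1 - g by omega,
      show K - g = K - 1 - g + 1 by omega]
    exact this
  · obtain ⟨b, f, f', hb, hs, hf⟩ := h5'
    refine ⟨fun g => K - b (K - 1 - g), fun g => K - f' (K - 1 - g), fun g => K - f (K - 1 - g),
      ?_, ?_, ?_⟩
    · intro g hg
      obtain ⟨q1, q2, q3, q4, q5⟩ := hb (K - 1 - g) (by omega)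
      refine ⟨by dsimp only; omega, by dsimp only; omega, by dsimp only; omega, ?_⟩
      rcases q5 with q5 | q5
      · right; dsimp only; omega
      · left; dsimp only; omega
    · rw [NN_reflect]
      refine le_trans (le_of_eq ?_) hs
      rw [← zg_range_reflect (K := K) (fun g => n g * m g / Real.sqrt (VV m n g (b g)))]
      refine Finset.sum_congr rfl fun g hg => ?_
      have hg' : g < K := Finset.mem_range.1 hg
      obtain ⟨q1, q2, q3, q4, q5⟩ := hb (K - 1 - g) (by omega)
      rw [VV_reflect hK (by omega)]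
      rw [show K - (g + 1) = K - 1 - g by omega,
        show K - (K - b (K - 1 - g)) = b (K - 1 - g) by omega]
    · intro g hg
      obtain ⟨q1, q2, q3, q4, q5⟩ := hb (K - 1 - g) (by omega)
      obtain ⟨w1, w2⟩ := hf (K - 1 - g) (by omega)
      have key : ∀ h, ∑ j ∈ (Ico (K - f' (K - 1 - g)) (K - f (K - 1 - g))).filter
          (fun j => m (K - 1 - h) ≤ m (K - 1 - j)), n (K - 1 - j) =
          ∑ j ∈ (Ico (f (K - 1 - g)) (f' (K - 1 - g))).filter (fun j => m (K - 1 - h) ≤ m j), n j := by
        intro h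
        have e := zg_filter_reflect (K := K) (a := K - f' (K - 1 - g)) (b := K - f (K - 1 - g)) hK
          (by omega) (fun j => m (K - 1 - h) ≤ m j) n
        rw [show K - (K - f (K - 1 - g)) = f (K - 1 - g) by omega,
          show K - (K - f' (K - 1 - g)) = f' (K - 1 - g) by omega] at e
        exact e
      constructor
      · intro h hh
        have := w1 (K - 1 - h) (by omega)
        rw [← key] at this
        exact this
      · rw [NN_reflect]
        refine le_trans (le_of_eq ?_) w2
        rw [← zg_range_reflect (K := K) (fun h => n h / Real.sqrt (∑ j ∈ (Ico (f (K - 1 - g))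
          (f' (K - 1 - g))).filter (fun j => m h ≤ m j), n j))]
        refine Finset.sum_congr rfl fun h _ => ?_
        rw [← key]
  · obtain ⟨b, f, f', hb, hs, hf⟩ := h5
    refine ⟨fun g => K - b (K - 1 - g), fun g => K - f' (K - 1 - g), fun g => K - f (K - 1 - g),
      ?_, ?_, ?_⟩
    · intro g hg
      obtain ⟨q1, q2, q3, q4⟩ := hb (K - 1 - g) (by omega)
      refine ⟨by dsimp only; omega, by dsimp only; omega, by dsimp only; omega,
        by dsimp only; omega, ?_⟩
      rcases q4 with q5 | q5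
      · right; dsimp only; omega
      · left; dsimp only; omega
    · rw [NN_reflect]
      refine le_trans (le_of_eq ?_) hs
      rw [← zg_range_reflect (K := K) (fun g => n g * m g / Real.sqrt (VV m n (b g) (g + 1)))]
      refine Finset.sum_congr rfl fun g hg => ?_
      have hg' : g < K := Finset.mem_range.1 hg
      obtain ⟨q1, q2, q3, q4⟩ := hb (K - 1 - g) (by omega)
      beta_reduce
      rw [VV_reflect hK (by omega)]
      rw [show K - g = K - 1 - g + 1 by omega,
        show K - (K - b (K - 1 - g)) = b (K - 1 - g) by omega]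
    · intro g hg
      obtain ⟨q1, q2, q3, q4⟩ := hb (K - 1 - g) (by omega)
      obtain ⟨w1, w2⟩ := hf (K - 1 - g) (by omega)
      have key : ∀ h, ∑ j ∈ (Ico (K - f' (K - 1 - g)) (K - f (K - 1 - g))).filter
          (fun j => m (K - 1 - h) ≤ m (K - 1 - j)), n (K - 1 - j) =
          ∑ j ∈ (Ico (f (K - 1 - g)) (f' (K - 1 - g))).filter (fun j => m (K - 1 - h) ≤ m j), n j := by
        intro h
        have e := zg_filter_reflect (K := K) (a := K - f' (K - 1 - g)) (b := K - f (K - 1 - g)) hK
          (by omega) (fun j => m (K - 1 - h) ≤ m j) n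
        rw [show K - (K - f (K - 1 - g)) = f (K - 1 - g) by omega,
          show K - (K - f' (K - 1 - g)) = f' (K - 1 - g) by omega] at e
        exact e
      constructor
      · intro h hh
        have := w1 (K - 1 - h) (by omega)
        rw [← key] at this
        exact this
      · rw [NN_reflect]
        refine le_trans (le_of_eq ?_) w2
        rw [← zg_range_reflect (K := K) (fun h => n h / Real.sqrt (∑ j ∈ (Ico (f (K - 1 - g))
          (f' (K - 1 - g))).filter (fun j => m h ≤ m j), n j))]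
        refine Finset.sum_congr rfl fun h _ => ?_
        rw [← key]

/-- the class of block `g` in the zigzag order: four parts of `c` blocks, parts `0, 2` heavy -> light,
parts `1, 3` light -> heavy -/
def zig (c g : ℕ) : ℕ := if (g / c) % 2 = 0 then g % c else c - 1 - g % c

/-- ZG1: heavy -> light order, starting anywhere (blocks `a ≤ g < b`) -/
theorem hl_sum (m n : ℕ → ℝ) (a b : ℕ) (hm : ∀ g, a ≤ g → g < b → 0 < m g)
    (hn : ∀ g, a ≤ g → g < b → ∃ k : ℕ, 0 < k ∧ n g = k)
    (hmon : ∀ g g', a ≤ g → g ≤ g' → g' < b → m g' ≤ m g) :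
    ∑ g ∈ Ico a b, n g * m g / Real.sqrt (VV m n a (g + 1)) ≤
      2 * Real.sqrt (∑ g ∈ Ico a b, n g) := by
  have hn0 : ∀ g, a ≤ g → g < b → 0 < n g := by
    intro g h1 h2
    obtain ⟨k, hk, e⟩ := hn g h1 h2
    rw [e]; exact_mod_cast hk
  clear hn
  by_cases hab : b < a
  · rw [Finset.Ico_eq_empty (by omega)]; simp
  rw [not_lt] at hab
  induction b, hab using Nat.le_induction with
  | base => simp
  | succ b hab ih =>
    have ih' := ih (fun g h1 h2 => hm g h1 (by omega))
      (fun g g' h1 h2 h3 => hmon g g' h1 h2 (by omega)) (fun g h1 h2 => hn0 g h1 (by omega))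
    rw [Finset.sum_Ico_succ_top hab, Finset.sum_Ico_succ_top hab]
    set S := ∑ g ∈ Ico a b, n g with hS
    have hS0 : 0 ≤ S := Finset.sum_nonneg fun g hg => by
      have := Finset.mem_Ico.1 hg
      exact (hn0 g this.1 (by omega)).le
    have hnb := hn0 b hab (by omega)
    have hmb := hm b hab (by omega)
    have hV : m b ^ 2 * (S + n b) ≤ VV m n a (b + 1) := by
      unfold VV
      rw [Finset.sum_Ico_succ_top hab, mul_add, hS, Finset.mul_sum]
      refine add_le_add (Finset.sum_le_sum fun g hg => ?_) le_rfl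
      have hg' := Finset.mem_Ico.1 hg
      have h1 := hmon g b hg'.1 (by omega) (by omega)
      have h2 := hn0 g hg'.1 (by omega)
      exact mul_le_mul_of_nonneg_right (pow_le_pow_left₀ hmb.le h1 2) h2.le
    have hsq : m b * Real.sqrt (S + n b) ≤ Real.sqrt (VV m n a (b + 1)) := by
      rw [← Real.sqrt_sq hmb.le, ← Real.sqrt_mul (sq_nonneg _)]
      exact Real.sqrt_le_sqrt hV
    have hpos : 0 < Real.sqrt (S + n b) := Real.sqrt_pos.2 (by linarith)
    have hterm : n b * m b / Real.sqrt (VV m n a (b + 1)) ≤ n b / Real.sqrt (S + n b) := by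
      rw [div_le_div_iff₀ (lt_of_lt_of_le (mul_pos hmb hpos) hsq) hpos]
      calc n b * m b * Real.sqrt (S + n b) = n b * (m b * Real.sqrt (S + n b)) := by ring
        _ ≤ n b * Real.sqrt (VV m n a (b + 1)) := mul_le_mul_of_nonneg_left hsq hnb.le
    have h3 : n b / Real.sqrt (S + n b) ≤ 2 * (Real.sqrt (S + n b) - Real.sqrt S) := by
      rw [div_le_iff₀ hpos]
      have e1 : Real.sqrt (S + n b) * Real.sqrt (S + n b) = S + n b :=
        Real.mul_self_sqrt (by linarith)
      have e2 : Real.sqrt S * Real.sqrt S = S := Real.mul_self_sqrt hS0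
      have e3 : Real.sqrt S ≤ Real.sqrt (S + n b) := Real.sqrt_le_sqrt (by linarith)
      nlinarith [sq_nonneg (Real.sqrt (S + n b) - Real.sqrt S)]
    linarith

end BLO
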