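import Pool.Agent.Lib.BLO.Prob
import Pool.Agent.Lib.BLO.Zig

/-!
# Array processes

Common frame for the word and its mirror image: arrays `Y x, L x` of the point `x : PS P`, blocks given by
`cl : P → ℕ`, weights `m g`, sizes `n g`.  Chunk PI0 (`Fam.proc`, `Fam.procm`): the word and its mirror image are
such processes (from `Prob.lean`, `mirror_sub`).
-/

namespace BLO

open Finset BLP

variable {P : Type*} [Fintype P] [DecidableEq P]

/-- pairs of the blocks `a ≤ g < b` -/
def sg2 (cl : P → ℕ) (a b : ℕ) : Finset P := univ.filter fun k => a ≤ cl k ∧ cl k < b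

/-- an array process -/
structure Proc (K : ℕ) (m n : ℕ → ℝ) (cl : P → ℕ) (Y L : PS P → ℕ → ℕ) : Prop where
  yl : ∀ x g, Y x g ≤ L x g
  loc : ∀ g < K, ∀ x x' : PS P, (∀ k, cl k = g → x k = x' k) → Y x g = Y x' g ∧ L x g = L x' g
  /-- `n g` is the number of pairs of block `g` -/
  size : ∀ g < K, n g = ((univ.filter fun k => cl k = g).card : ℝ)
  loz : ∀ a b, a < b → b ≤ K → ∀ e u : ℝ, 0 ≤ u → ∀ x,
    ccnt (sg2 cl a b) (fun z => |(SZ (Y z) (L z) a b : ℝ) - e| ≤ u) x ≤
      20000 * (u + 1) / Real.sqrt (VV m n a b) * 4 ^ (sg2 cl a b).card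
  fibQ : ∀ a b, a < b → b ≤ K → ∀ e u : ℝ, 0 ≤ u → ∀ x,
    ccnt (sg2 cl a b) (fun z => |(SQ (Y z) (L z) a b : ℝ) - e| ≤ u) x ≤
      20000 * (u + 1) / Real.sqrt (VV m n a b) * 4 ^ (sg2 cl a b).card
  fibP : ∀ a b, a < b → b ≤ K → ∀ e u : ℝ, 0 ≤ u → ∀ x,
    ccnt (sg2 cl a b) (fun z => |(SP (Y z) (L z) a b : ℝ) - e| ≤ u) x ≤
      20000 * (u + 1) / Real.sqrt (VV m n a b) * 4 ^ (sg2 cl a b).card
  mom : ∀ g < K, ∑ x : PS P, (L x g : ℝ) ^ 2 ≤ 12 * m g ^ 2 * n g * 4 ^ Fintype.card P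
  lox : ∀ a b, b ≤ K → ∀ m0 : ℝ, 0 < m0 →
    0 < ∑ j ∈ (Ico a b).filter (fun j => m0 ≤ m j), n j → ∀ e u : ℝ, 0 ≤ u → ∀ x,
    ccnt (sg2 cl a b) (fun z => |(SZ (Y z) (L z) a b : ℝ) - e| ≤ u) x ≤
      (3 * (u / m0 + 1) / Real.sqrt (∑ j ∈ (Ico a b).filter (fun j => m0 ≤ m j), n j) +
        1 / Real.sqrt (NN n K)) * 4 ^ (sg2 cl a b).card

/-- numerical hypotheses on the word -/
structure Num (C : ℝ) (K : ℕ) (m n : ℕ → ℝ) : Prop where
  good : Good C K m n
  m1 : ∀ g < K, 1 ≤ m g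
  n1 : ∀ g < K, 1 ≤ n g
  ratio : ∀ q < K, ∀ g < K, m q ^ 2 ≤ n g * m g ^ 2
  K2 : (K : ℝ) ^ 2 ≤ NN n K

/-- real weights and sizes of a word -/
def Fam.mr (F : Fam P) : ℕ → ℝ := fun g => F.m g
def Fam.nr (F : Fam P) : ℕ → ℝ := fun g => F.siz g

/-! ### Auxiliary lemmas for PI0 -/

theorem pi0_VV_mono {m n : ℕ → ℝ} {K a b : ℕ} (hb : b ≤ K) (hn : ∀ g < K, 0 < n g) :
    VV m n a b ≤ VV m n 0 K := by
  unfold VV
  refine Finset.sum_le_sum_of_subset_of_nonneg ?_ ?_
  · intro g hg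
    rw [Finset.mem_Ico] at hg ⊢
    omega
  · intro g hg _
    rw [Finset.mem_Ico] at hg
    have := hn g hg.2
    positivity

theorem pi0_VV_pos {m n : ℕ → ℝ} {K a b : ℕ} (hab : a < b) (hb : b ≤ K) (hm : ∀ g < K, 0 < m g)
    (hn : ∀ g < K, 0 < n g) : 0 < VV m n a b := by
  unfold VV
  refine Finset.sum_pos ?_ ⟨a, Finset.mem_Ico.mpr ⟨le_rfl, hab⟩⟩
  intro g hg
  rw [Finset.mem_Ico] at hg
  have := hn g (by omega)
  have := hm g (by omega)
  positivity

theorem pi0_NN_pos {n : ℕ → ℝ} {K : ℕ} (hK : 0 < K) (hn : ∀ g < K, 0 < n g) : 0 < NN n K := by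
  unfold NN
  exact Finset.sum_pos (fun g hg => hn g (Finset.mem_range.mp hg)) ⟨0, Finset.mem_range.mpr hK⟩

/-- `x √v ≤ 1` gives `x ≤ 1 / √w` for `w ≤ v` -/
theorem pi0_inv {x v w : ℝ} (hw : 0 < w) (hwv : w ≤ v) (hx0 : 0 ≤ x) (h : x * Real.sqrt v ≤ 1) :
    x ≤ 1 / Real.sqrt w := by
  rw [le_div_iff₀ (Real.sqrt_pos.mpr hw)]
  exact (mul_le_mul_of_nonneg_left (Real.sqrt_le_sqrt hwv) hx0).trans h

/-- reflection of sums over the blocks -/
theorem pi0_reflect (f : ℕ → ℝ) (p : ℕ → Prop) [DecidablePred p] {K a b : ℕ} (hb : b ≤ K) :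
    ∑ j ∈ (Ico a b).filter (fun j => p (K - 1 - j)), f (K - 1 - j) =
      ∑ j ∈ (Ico (K - b) (K - a)).filter p, f j := by
  refine Finset.sum_bij' (fun j _ => K - 1 - j) (fun j _ => K - 1 - j) ?_ ?_ ?_ ?_ ?_
  · intro j hj
    rw [Finset.mem_filter, Finset.mem_Ico] at hj ⊢
    exact ⟨by omega, hj.2⟩
  · intro j hj
    rw [Finset.mem_filter, Finset.mem_Ico] at hj ⊢
    refine ⟨by omega, ?_⟩
    rw [show K - 1 - (K - 1 - j) = j by omega]
    exact hj.2
  · intro j hj
    rw [Finset.mem_filter, Finset.mem_Ico] at hj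
    omega
  · intro j hj
    rw [Finset.mem_filter, Finset.mem_Ico] at hj
    omega
  · intro j hj
    rfl

theorem pi0_VV_reflect (m n : ℕ → ℝ) {K a b : ℕ} (hb : b ≤ K) :
    VV (fun g => m (K - 1 - g)) (fun g => n (K - 1 - g)) a b = VV m n (K - b) (K - a) := by
  have h := pi0_reflect (fun g => m g ^ 2 * n g) (fun _ => True) (a := a) hb
  rw [Finset.filter_true_of_mem (fun _ _ => trivial),
    Finset.filter_true_of_mem (fun _ _ => trivial)] at h
  exact h

theorem pi0_NN_reflect (n : ℕ → ℝ) (K : ℕ) : NN (fun g => n (K - 1 - g)) K = NN n K := by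
  unfold NN
  rw [Finset.sum_range_reflect]

theorem pi0_sg2_reflect (cl : P → ℕ) {K a b : ℕ} (hb : b ≤ K) :
    sg2 (fun k => if cl k < K then K - 1 - cl k else cl k) a b = sg2 cl (K - b) (K - a) := by
  unfold sg2
  ext k
  simp only [Finset.mem_filter, Finset.mem_univ, true_and]
  split_ifs with h
  · omega
  · omega

/-- mirror image of a process -/
theorem Proc.mirror {K : ℕ} {m n : ℕ → ℝ} {cl : P → ℕ} {Y L : PS P → ℕ → ℕ}
    (h : Proc K m n cl Y L) :
    Proc K (fun g => m (K - 1 - g)) (fun g => n (K - 1 - g))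
      (fun k => if cl k < K then K - 1 - cl k else cl k)
      (fun x => my K (Y x) (L x)) (fun x => ml K (L x)) where
  yl := fun x g => Nat.sub_le _ _
  loc := by
    intro g hg x x' hx
    have h1 := h.loc (K - 1 - g) (by omega) x x' (fun k hk => hx k (by
      rw [if_pos (by omega)]; omega))
    constructor
    · simp only [my]
      rw [h1.1, h1.2]
    · simp only [ml]
      rw [h1.2]
  size := by
    intro g hg
    show n (K - 1 - g) = _
    rw [h.size (K - 1 - g) (by omega)]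
    congr 2
    ext k
    simp only [Finset.mem_filter, Finset.mem_univ, true_and]
    split_ifs with h2
    · omega
    · omega
  loz := by
    intro a b hab hb e u hu x
    have h1 := h.loz (K - b) (K - a) (by omega) (by omega) (-e) u hu x
    rw [pi0_VV_reflect m n hb, pi0_sg2_reflect cl hb]
    refine le_trans (le_of_eq ?_) h1
    unfold ccnt
    refine Finset.sum_congr rfl fun z _ => ind_congr ?_
    beta_reduce
    rw [(mirror_sub (Y z) (L z) (h.yl z) K hab.le hb).2.2]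
    push_cast
    rw [show -(SZ (Y z) (L z) (K - b) (K - a) : ℝ) - e =
      -((SZ (Y z) (L z) (K - b) (K - a) : ℝ) - -e) by ring, abs_neg]
  fibQ := by
    intro a b hab hb e u hu x
    have h1 := h.fibP (K - b) (K - a) (by omega) (by omega) e u hu x
    rw [pi0_VV_reflect m n hb, pi0_sg2_reflect cl hb]
    refine le_trans (le_of_eq ?_) h1
    unfold ccnt
    refine Finset.sum_congr rfl fun z _ => ind_congr ?_
    beta_reduce
    rw [(mirror_sub (Y z) (L z) (h.yl z) K hab.le hb).2.1]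
  fibP := by
    intro a b hab hb e u hu x
    have h1 := h.fibQ (K - b) (K - a) (by omega) (by omega) e u hu x
    rw [pi0_VV_reflect m n hb, pi0_sg2_reflect cl hb]
    refine le_trans (le_of_eq ?_) h1
    unfold ccnt
    refine Finset.sum_congr rfl fun z _ => ind_congr ?_
    beta_reduce
    rw [(mirror_sub (Y z) (L z) (h.yl z) K hab.le hb).1]
  mom := by
    intro g hg
    exact h.mom (K - 1 - g) (by omega)
  lox := by
    intro a b hb m0 hm0 hS e u hu x
    have hr := pi0_reflect n (fun j => m0 ≤ m j) (a := a) hb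
    rw [hr] at hS ⊢
    have h1 := h.lox (K - b) (K - a) (by omega) m0 hm0 hS (-e) u hu x
    have hab : a ≤ b := by
      by_contra hcon
      push Not at hcon
      rw [Finset.Ico_eq_empty (by omega)] at hS
      simp at hS
    rw [pi0_NN_reflect, pi0_sg2_reflect cl hb]
    refine le_trans (le_of_eq ?_) h1
    unfold ccnt
    refine Finset.sum_congr rfl fun z _ => ind_congr ?_
    beta_reduce
    rw [(mirror_sub (Y z) (L z) (h.yl z) K hab hb).2.2]
    push_cast
    rw [show -(SZ (Y z) (L z) (K - b) (K - a) : ℝ) - e =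
      -((SZ (Y z) (L z) (K - b) (K - a) : ℝ) - -e) by ring, abs_neg]

/-- PI0: the word is a process, if `ε` is small (`K ε √V ≤ 1`, `K ε √N ≤ 1`) -/
theorem Fam.proc {F : Fam P} {jj : ℕ} {ε : ℝ} (hF : F.OK jj ε) {C : ℝ} (hN : Num C F.K F.mr F.nr)
    (h1 : F.K * ε * Real.sqrt (VV F.mr F.nr 0 F.K) ≤ 1)
    (h2 : F.K * ε * Real.sqrt (NN F.nr F.K) ≤ 1) :
    Proc F.K F.mr F.nr F.cls F.ys F.ls := by
  have hε : 0 ≤ ε := hF.hε
  have hKε : 0 ≤ F.K * ε := by positivity
  have hm := hN.good.m_pos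
  have hn := hN.good.n_pos
  have hrt : ∀ a b, a < b → b ≤ F.K → F.rt ε a b ≤ 2 / Real.sqrt (VV F.mr F.nr a b) ∧
      0 < VV F.mr F.nr a b := by
    intro a b hab hb
    have hpos := pi0_VV_pos hab hb hm hn
    have h3 := pi0_inv hpos (pi0_VV_mono (a := a) hb hn) hKε h1
    refine ⟨?_, hpos⟩
    have e1 : F.vr a b = VV F.mr F.nr a b := rfl
    unfold Fam.rt
    rw [e1]
    have e2 : 2 / Real.sqrt (VV F.mr F.nr a b) = 1 / Real.sqrt (VV F.mr F.nr a b) +
      1 / Real.sqrt (VV F.mr F.nr a b) := by ring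
    rw [e2]
    linarith
  have key : ∀ a b, a < b → b ≤ F.K → ∀ u : ℝ, 0 ≤ u → ∀ (c X : ℝ), c ≤ 10000 → 0 ≤ c →
      X ≤ c * (u + 1) * F.rt ε a b * 4 ^ (F.seg a b).card →
      X ≤ 20000 * (u + 1) / Real.sqrt (VV F.mr F.nr a b) * 4 ^ (sg2 F.cls a b).card := by
    intro a b hab hb u hu c X hc hc0 hX
    obtain ⟨h3, h4⟩ := hrt a b hab hb
    refine hX.trans ?_
    have e1 : F.seg a b = sg2 F.cls a b := rfl
    rw [e1]
    refine mul_le_mul_of_nonneg_right ?_ (by positivity)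
    calc c * (u + 1) * F.rt ε a b ≤ c * (u + 1) * (2 / Real.sqrt (VV F.mr F.nr a b)) :=
          mul_le_mul_of_nonneg_left h3 (by positivity)
      _ ≤ 10000 * (u + 1) * (2 / Real.sqrt (VV F.mr F.nr a b)) := by
          refine mul_le_mul_of_nonneg_right ?_ (by positivity)
          exact mul_le_mul_of_nonneg_right hc (by positivity)
      _ = 20000 * (u + 1) / Real.sqrt (VV F.mr F.nr a b) := by ring
  refine
    { yl := fun x g => F.ys_le x g
      loc := fun g _ x x' hx => Fam.arr_loc hF x x' g hx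
      size := fun g _ => rfl
      loz := ?_
      fibQ := ?_
      fibP := ?_
      mom := ?_
      lox := ?_ }
  · intro a b hab hb e u hu x
    exact key a b hab hb u hu 1000 _ (by norm_num) (by norm_num)
      (Fam.loz hF hab hb (hrt a b hab hb).2 e u hu x)
  · intro a b hab hb e u hu x
    exact key a b hab hb u hu 10000 _ (by norm_num) (by norm_num)
      (Fam.fib hF hab hb (hrt a b hab hb).2 e u hu x).1
  · intro a b hab hb e u hu x
    exact key a b hab hb u hu 10000 _ (by norm_num) (by norm_num)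
      (Fam.fib hF hab hb (hrt a b hab hb).2 e u hu x).2
  · intro g hg
    have h3 : (0 : ℝ) < F.siz g := hn g hg
    exact Fam.mom hF hg (by exact_mod_cast h3)
  · intro a b hb m0 hm0 hS e u hu x
    have hcard : (((F.seg a b).filter fun k => m0 ≤ F.m (F.cls k)).card : ℝ) =
        ∑ j ∈ (Ico a b).filter (fun j => m0 ≤ F.mr j), F.nr j := by
      have h5 : ((F.seg a b).filter fun k => m0 ≤ F.m (F.cls k)).card =
          ∑ j ∈ (Ico a b).filter (fun j => m0 ≤ F.mr j), F.siz j := by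
        rw [Finset.card_eq_sum_card_fiberwise (f := F.cls)
          (t := (Ico a b).filter (fun j => m0 ≤ F.mr j))]
        · refine Finset.sum_congr rfl fun j hj => ?_
          rw [Finset.mem_filter, Finset.mem_Ico] at hj
          unfold Fam.siz Fam.blk Fam.seg
          congr 1
          ext k
          simp only [Finset.mem_filter, Finset.mem_univ, true_and]
          constructor
          · intro h; exact h.2
          · intro h
            rw [h]
            exact ⟨⟨hj.1, hj.2⟩, rfl⟩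
        · intro k hk
          simp only [Fam.seg, Finset.coe_filter, Set.mem_ofPred_eq, Finset.mem_filter,
            Finset.mem_univ, true_and] at hk
          simp only [Finset.coe_filter, Set.mem_ofPred_eq, Finset.mem_Ico]
          exact ⟨hk.1, hk.2⟩
      rw [h5]
      push_cast
      rfl
    have hne : ((F.seg a b).filter fun k => m0 ≤ F.m (F.cls k)).Nonempty := by
      rw [← Finset.card_pos]
      rw [← hcard] at hS
      exact_mod_cast hS
    have h6 := Fam.lox hF hb m0 hm0 hne e u hu x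
    rw [hcard] at h6
    have hNpos := pi0_NN_pos hN.good.hK hn
    have h7 := pi0_inv hNpos le_rfl hKε h2
    refine h6.trans ?_
    refine mul_le_mul_of_nonneg_right ?_ (by positivity)
    have h8 : (u / m0 + 1) * (2 / Real.sqrt (∑ j ∈ (Ico a b).filter (fun j => m0 ≤ F.mr j),
        F.nr j)) ≤ 3 * (u / m0 + 1) / Real.sqrt (∑ j ∈ (Ico a b).filter (fun j => m0 ≤ F.mr j),
        F.nr j) := by
      have h9 : 0 ≤ (u / m0 + 1) / Real.sqrt (∑ j ∈ (Ico a b).filter (fun j => m0 ≤ F.mr j),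
        F.nr j) := by positivity
      have e1 : (u / m0 + 1) * (2 / Real.sqrt (∑ j ∈ (Ico a b).filter (fun j => m0 ≤ F.mr j),
        F.nr j)) = 2 * ((u / m0 + 1) / Real.sqrt (∑ j ∈ (Ico a b).filter (fun j => m0 ≤ F.mr j),
        F.nr j)) := by ring
      have e2 : 3 * (u / m0 + 1) / Real.sqrt (∑ j ∈ (Ico a b).filter (fun j => m0 ≤ F.mr j),
        F.nr j) = 3 * ((u / m0 + 1) / Real.sqrt (∑ j ∈ (Ico a b).filter (fun j => m0 ≤ F.mr j),
        F.nr j)) := by ring
      rw [e1, e2]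
      linarith
    linarith

/-- PI0: the mirror image -/
theorem Fam.procm {F : Fam P} {jj : ℕ} {ε : ℝ} (hF : F.OK jj ε) {C : ℝ} (hN : Num C F.K F.mr F.nr)
    (h1 : F.K * ε * Real.sqrt (VV F.mr F.nr 0 F.K) ≤ 1)
    (h2 : F.K * ε * Real.sqrt (NN F.nr F.K) ≤ 1) :
    Proc F.K (fun g => F.mr (F.K - 1 - g)) (fun g => F.nr (F.K - 1 - g))
      (fun k => if F.cls k < F.K then F.K - 1 - F.cls k else F.cls k)
      (fun x => my F.K (F.ys x) (F.ls x)) (fun x => ml F.K (F.ls x)) :=
  (Fam.proc hF hN h1 h2).mirror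

theorem Num.mirror {C : ℝ} {K : ℕ} {m n : ℕ → ℝ} (h : Num C K m n) :
    Num C K (fun g => m (K - 1 - g)) (fun g => n (K - 1 - g)) where
  good := h.good.mirror
  m1 := fun g hg => h.m1 (K - 1 - g) (by omega)
  n1 := fun g hg => h.n1 (K - 1 - g) (by omega)
  ratio := fun q hq g hg => h.ratio (K - 1 - q) (by omega) (K - 1 - g) (by omega)
  K2 := by
    rw [pi0_NN_reflect]
    exact h.K2

end BLO
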