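import Pool.Agent.Lib.BLO.SUT

/-!
# Chunk SU2

`η = 20 m_q`.  Tools: `cond_sum` (weights not depending on the conditioned blocks), the fields of `Proc`,
`ratio` (`m_q ≤ √n_g m_g`), `SP_append`.  `1/(a b) ≤ (C/σ)(1/a + 1/b)` if `max(a, b) ≥ σ/C`.
-/

namespace BLO

open Finset BLP

/-- one contact of type 1 -/
theorem su2_term {C : ℝ} {P : Type*} [Fintype P] [DecidableEq P] {K : ℕ}
    {m n : ℕ → ℝ} {cl : P → ℕ} {Y L : PS P → ℕ → ℕ} (hN : Num C K m n)
    (hp : Proc K m n cl Y L) {q g : ℕ} (hqg : q < g) (hg : g < K) :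
    ∑ x : PS P, ind (|((Y x g : ℝ)) - QQ (Y x) (L x) g| ≤ 400 * m q) ≤
      32000000 * m q * (1 / Real.sqrt (VV m n 0 g)) * 4 ^ Fintype.card P := by
  have hm1 := hN.m1 q (by omega)
  have hc : (Fintype.card (PS P) : ℝ) = 4 ^ Fintype.card P := by
    rw [Fintype.card_fun, Fintype.card_prod, Fintype.card_bool]
    push_cast
    norm_num
  have hV := hN.VV_pos (a := 0) (b := g) (by omega) hg.le
  have h1 := Proc.touchL hp hN hg.le 0 le_rfl (by simpa using hV) (fun _ => 1)
    (fun x => (Y x g : ℝ)) (fun _ => 400 * m q) (fun _ => zero_le_one) (fun _ _ _ => rfl)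
    (fun x x' h => by
      show (Y x g : ℝ) = Y x' g
      rw [(hp.loc g hg x x' (fun k hk => h k (by omega))).1])
    (fun _ _ _ => rfl) (fun _ => by linarith)
  calc ∑ x : PS P, ind (|((Y x g : ℝ)) - QQ (Y x) (L x) g| ≤ 400 * m q)
      = ∑ x : PS P, (1 : ℝ) * ind (|(QQ (Y x) (L x) g : ℝ) - Y x g| ≤ 400 * m q) := by
        refine Finset.sum_congr rfl fun x _ => ?_
        rw [one_mul, abs_sub_comm]
    _ ≤ _ := h1
    _ = 32000000 * m q * (1 / Real.sqrt (VV m n 0 g)) * 4 ^ Fintype.card P := by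
        rw [Finset.sum_const, Finset.card_univ, nsmul_eq_mul, hc]
        rw [show VV m n 0 g + (0 : ℝ) ^ 2 = VV m n 0 g by ring]
        ring

/-- SU2: contacts of type 1: `P(|Y g - QQ g| ≤ 400 m_q) ≤ C m_q/√V(0,g)` and
`∑_{q < g} n_q m_q ≤ √N √V(0,g)`. -/
theorem su2 (C : ℝ) : ∃ C1 : ℝ, 0 < C1 ∧ ∀ (P : Type) [Fintype P] [DecidableEq P] (K : ℕ)
    (m n : ℕ → ℝ) (cl : P → ℕ) (Y L : PS P → ℕ → ℕ), Num C K m n → Proc K m n cl Y L →
    ∑ q ∈ range K, n q * ∑ x : PS P, (((range K).filter fun g => q < g ∧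
        |((Y x g : ℝ)) - QQ (Y x) (L x) g| ≤ 400 * m q).card : ℝ) ≤
      C1 * NN n K * 4 ^ Fintype.card P := by
  refine ⟨32000000, by norm_num, ?_⟩
  intro P _ _ K m n cl Y L hN hp
  have h4 : (0 : ℝ) < 4 ^ Fintype.card P := by positivity
  have hq1 : ∀ q ∈ range K, n q * ∑ x : PS P, (((range K).filter fun g => q < g ∧
        |((Y x g : ℝ)) - QQ (Y x) (L x) g| ≤ 400 * m q).card : ℝ) ≤
      ∑ g ∈ range K, if q < g then n q * m q *
        (32000000 * (1 / Real.sqrt (VV m n 0 g)) * 4 ^ Fintype.card P) else 0 := by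
    intro q hq
    rw [Finset.mem_range] at hq
    calc n q * ∑ x : PS P, (((range K).filter fun g => q < g ∧
          |((Y x g : ℝ)) - QQ (Y x) (L x) g| ≤ 400 * m q).card : ℝ)
        = n q * ∑ x : PS P, ∑ g ∈ range K, ind (q < g ∧
          |((Y x g : ℝ)) - QQ (Y x) (L x) g| ≤ 400 * m q) := by
          congr 1
          exact Finset.sum_congr rfl fun x _ => (sum_ind _ _).symm
      _ = ∑ g ∈ range K, n q * ∑ x : PS P, ind (q < g ∧
          |((Y x g : ℝ)) - QQ (Y x) (L x) g| ≤ 400 * m q) := by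
          rw [Finset.sum_comm, Finset.mul_sum]
      _ ≤ _ := by
          refine Finset.sum_le_sum fun g hg => ?_
          rw [Finset.mem_range] at hg
          split_ifs with h
          · have h1 := su2_term hN hp h hg
            calc n q * ∑ x : PS P, ind (q < g ∧ |((Y x g : ℝ)) - QQ (Y x) (L x) g| ≤ 400 * m q)
                ≤ n q * ∑ x : PS P, ind (|((Y x g : ℝ)) - QQ (Y x) (L x) g| ≤ 400 * m q) := by
                  refine mul_le_mul_of_nonneg_left ?_ (hN.n_nonneg hq)
                  exact Finset.sum_le_sum fun x _ => ind_mono fun h => h.2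
              _ ≤ n q * (32000000 * m q * (1 / Real.sqrt (VV m n 0 g)) *
                  4 ^ Fintype.card P) := mul_le_mul_of_nonneg_left h1 (hN.n_nonneg hq)
              _ = _ := by ring
          · rw [Finset.sum_eq_zero fun x _ => ind_false fun h' => h h'.1, mul_zero]
  refine (Finset.sum_le_sum hq1).trans ?_
  rw [Finset.sum_comm]
  have hNN := hN.NN_nonneg (j := K) le_rfl
  have hg1 : ∀ g ∈ range K, (∑ q ∈ range K, if q < g then n q * m q *
        (32000000 * (1 / Real.sqrt (VV m n 0 g)) * 4 ^ Fintype.card P) else 0) ≤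
      32000000 * Real.sqrt (NN n K) * 4 ^ Fintype.card P := by
    intro g hg
    rw [Finset.mem_range] at hg
    rw [← Finset.sum_filter]
    have e : (range K).filter (fun q => q < g) = range g := by
      ext q
      simp only [Finset.mem_filter, Finset.mem_range]
      omega
    rw [e, ← Finset.sum_mul]
    rcases Nat.eq_zero_or_pos g with h0 | h0
    · subst h0
      rw [Finset.range_zero, Finset.sum_empty, zero_mul]
      positivity
    · have hV := hN.VV_pos (a := 0) (b := g) h0 hg.le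
      have hsV : 0 < Real.sqrt (VV m n 0 g) := Real.sqrt_pos.mpr hV
      calc (∑ q ∈ range g, n q * m q) *
          (32000000 * (1 / Real.sqrt (VV m n 0 g)) * 4 ^ Fintype.card P)
          ≤ (Real.sqrt (NN n K) * Real.sqrt (VV m n 0 g)) *
          (32000000 * (1 / Real.sqrt (VV m n 0 g)) * 4 ^ Fintype.card P) :=
            mul_le_mul_of_nonneg_right (hN.cs hg.le) (by positivity)
        _ = 32000000 * Real.sqrt (NN n K) * 4 ^ Fintype.card P := by
            field_simp
  refine (Finset.sum_le_sum hg1).trans ?_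
  rw [Finset.sum_const, Finset.card_range, nsmul_eq_mul]
  have hK := hN.K_mul
  nlinarith [mul_le_mul_of_nonneg_right hK h4.le]

end BLO
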