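import Pool.Agent.Lib.BLO.SUT

/-!
# Chunk SU3

`η = 20 m_q`.  Tools: `cond_sum` (weights not depending on the conditioned blocks), the fields of `Proc`,
`ratio` (`m_q ≤ √n_g m_g`), `SP_append`.  `1/(a b) ≤ (C/σ)(1/a + 1/b)` if `max(a, b) ≥ σ/C`.
-/

namespace BLO

open Finset BLP

/-- one touch of type 2 -/
theorem su3_term {C : ℝ} {P : Type*} [Fintype P] [DecidableEq P] {K : ℕ}
    {m n : ℕ → ℝ} {cl : P → ℕ} {Y L : PS P → ℕ → ℕ} (hN : Num C K m n)
    (hp : Proc K m n cl Y L) {q g : ℕ} (hq : q < K) (hg : g < K) :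
    ∑ x : PS P, ind ((QQ (Y x) (L x) g : ℝ) ≤ L x g + 400 * m q ∧
        |(QQ (Y x) (L x) K : ℝ) - PP (Y x) (L x) g| ≤ L x g + 400 * m q) ≤
      6400000000000000 * (m g ^ 2 * n g) *
        (1 / (Real.sqrt (VV m n 0 (g + 1)) * Real.sqrt (VV m n g K))) * 4 ^ Fintype.card P := by
  have hm1 := hN.m1 q hq
  have hVg : VV m n 0 g + (m g * Real.sqrt (n g)) ^ 2 = VV m n 0 (g + 1) := by
    rw [hN.sq_vv hg, VV_succ_right m n (Nat.zero_le g)]
  have hVK : VV m n (g + 1) K + (m g * Real.sqrt (n g)) ^ 2 = VV m n g K := by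
    rw [hN.sq_vv hg, VV_succ_left m n hg]
  have hv : 0 ≤ m g * Real.sqrt (n g) := mul_nonneg (hN.m_nonneg hg) (Real.sqrt_nonneg _)
  have hp1 : 0 < VV m n 0 (g + 1) := hN.VV_pos (by omega) (by omega)
  have hp2 : 0 < VV m n g K := hN.VV_pos hg le_rfl
  have hs1 : 0 < Real.sqrt (VV m n 0 (g + 1)) := Real.sqrt_pos.mpr hp1
  have hs2 : 0 < Real.sqrt (VV m n g K) := Real.sqrt_pos.mpr hp2
  have hL : ∀ x x' : PS P, (∀ i, cl i = g → x i = x' i) → (L x g : ℝ) = L x' g := by
    intro x x' h
    rw [(hp.loc g hg x x' h).2]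
  have hu0 : ∀ x : PS P, 1 ≤ (L x g : ℝ) + 400 * m q := by
    intro x
    have : (0 : ℝ) ≤ L x g := Nat.cast_nonneg _
    linarith
  -- the blocks after `g`
  have h1 := Proc.touchR hp hN hg (m g * Real.sqrt (n g)) hv (by rw [hVK]; exact hp2)
    (fun x => ind ((QQ (Y x) (L x) g : ℝ) ≤ L x g + 400 * m q))
    (fun x => (L x g : ℝ) + 400 * m q) (fun x => ind_nonneg _)
    (fun x x' h => by
      show ind _ = ind _
      have e1 := (hp.sub_congr (a := 0) (b := g) hg.le (x := x) (x' := x')
        (fun k _ hk => h k (by omega))).2.1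
      rw [SQ_zero, SQ_zero] at e1
      rw [e1, hL x x' (fun k hk => h k (by omega))])
    (fun x x' h => by
      show (L x g : ℝ) + 400 * m q = L x' g + 400 * m q
      rw [hL x x' (fun k hk => h k (by omega))])
    hu0
  -- the blocks before `g`
  have h2 := Proc.touchL hp hN hg.le (m g * Real.sqrt (n g)) hv (by rw [hVg]; exact hp1)
    (fun x => 80000 * ((L x g : ℝ) + 400 * m q + m g * Real.sqrt (n g)) /
      Real.sqrt (VV m n g K)) (fun _ => 0)
    (fun x => (L x g : ℝ) + 400 * m q)
    (fun x => div_nonneg (mul_nonneg (by norm_num) (add_nonneg (by linarith [hu0 x]) hv))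
      hs2.le)
    (fun x x' h => by
      show 80000 * ((L x g : ℝ) + 400 * m q + m g * Real.sqrt (n g)) /
        Real.sqrt (VV m n g K) = 80000 * ((L x' g : ℝ) + 400 * m q + m g * Real.sqrt (n g)) /
        Real.sqrt (VV m n g K)
      rw [hL x x' (fun k hk => h k (by omega))])
    (fun _ _ _ => rfl)
    (fun x x' h => by
      show (L x g : ℝ) + 400 * m q = L x' g + 400 * m q
      rw [hL x x' (fun k hk => h k (by omega))])
    hu0
  rw [hVK] at h1
  rw [hVg] at h2
  have h3 := hp.mom2 hN hq hg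
  calc ∑ x : PS P, ind ((QQ (Y x) (L x) g : ℝ) ≤ L x g + 400 * m q ∧
        |(QQ (Y x) (L x) K : ℝ) - PP (Y x) (L x) g| ≤ L x g + 400 * m q)
      ≤ ∑ x : PS P, ind ((QQ (Y x) (L x) g : ℝ) ≤ L x g + 400 * m q) *
        ind (|(QQ (Y x) (L x) K : ℝ) - PP (Y x) (L x) g| ≤ L x g + 400 * m q) := by
        refine Finset.sum_le_sum fun x _ => ?_
        by_cases hc : (QQ (Y x) (L x) g : ℝ) ≤ L x g + 400 * m q ∧
          |(QQ (Y x) (L x) K : ℝ) - PP (Y x) (L x) g| ≤ L x g + 400 * m q
        · rw [ind_true hc, ind_true hc.1, ind_true hc.2, mul_one]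
        · rw [ind_false hc]
          exact mul_nonneg (ind_nonneg _) (ind_nonneg _)
    _ ≤ _ := h1
    _ = 2 * ∑ x : PS P, (80000 * ((L x g : ℝ) + 400 * m q + m g * Real.sqrt (n g)) /
          Real.sqrt (VV m n g K)) *
          ind (|(QQ (Y x) (L x) g : ℝ) - 0| ≤ L x g + 400 * m q) := by
        congr 1
        refine Finset.sum_congr rfl fun x _ => ?_
        rw [sub_zero, abs_of_nonneg (Nat.cast_nonneg _), mul_comm]
    _ ≤ 2 * ∑ x : PS P, (80000 * ((L x g : ℝ) + 400 * m q + m g * Real.sqrt (n g)) /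
          Real.sqrt (VV m n g K)) *
          (80000 * ((L x g : ℝ) + 400 * m q + m g * Real.sqrt (n g)) /
          Real.sqrt (VV m n 0 (g + 1))) := by linarith
    _ = 12800000000 * (1 / (Real.sqrt (VV m n 0 (g + 1)) * Real.sqrt (VV m n g K))) *
          ∑ x : PS P, ((L x g : ℝ) + 400 * m q + m g * Real.sqrt (n g)) ^ 2 := by
        rw [Finset.mul_sum, Finset.mul_sum]
        refine Finset.sum_congr rfl fun x _ => ?_
        field_simp
        ring
    _ ≤ 12800000000 * (1 / (Real.sqrt (VV m n 0 (g + 1)) * Real.sqrt (VV m n g K))) *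
          (500000 * (m g ^ 2 * n g) * 4 ^ Fintype.card P) :=
        mul_le_mul_of_nonneg_left h3 (by positivity)
    _ = _ := by ring

/-- SU3: touch of type 2 of lighter blocks.  `u = L g + 400 m_q`, `E u^2 ≤ C m_g^2 n_g` (`mom`, `ratio`).
`P(T2 | block g) ≤ min(1, C (u+1)/√V(0,g)) min(1, C (u+1)/√V(g+1,K)) ≤ C u'^2 / (√V(0,g+1) √V(g,K))`,
`u' = u + √n_g m_g`.  Then `∑_q n_q (m_q/m_g) E(..) ≤ C (∑ n_q m_q) n_g m_g/(√V(0,g+1) √V(g,K))`, `Good.h2, h2'`. -/
theorem su3 (C : ℝ) : ∃ C1 : ℝ, 0 < C1 ∧ ∀ (P : Type) [Fintype P] [DecidableEq P] (K : ℕ)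
    (m n : ℕ → ℝ) (cl : P → ℕ) (Y L : PS P → ℕ → ℕ), Num C K m n → Proc K m n cl Y L →
    ∑ q ∈ range K, n q * ∑ g ∈ (range K).filter (fun g => m g < m q), m q / m g *
      ∑ x : PS P, ind ((QQ (Y x) (L x) g : ℝ) ≤ L x g + 400 * m q ∧
        |(QQ (Y x) (L x) K : ℝ) - PP (Y x) (L x) g| ≤ L x g + 400 * m q) ≤
      C1 * NN n K * 4 ^ Fintype.card P := by
  refine ⟨12800000000000000 * |C| * |C| + 1, by positivity, ?_⟩
  intro P _ _ K m n cl Y L hN hp
  have h4 : (0 : ℝ) < 4 ^ Fintype.card P := by positivity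
  have hVK := hN.VV_pos (a := 0) (b := K) hN.good.hK le_rfl
  have hsV : 0 < Real.sqrt (VV m n 0 K) := Real.sqrt_pos.mpr hVK
  have hNN := hN.NN_nonneg (j := K) le_rfl
  have hCs : C * Real.sqrt (NN n K) ≤ |C| * Real.sqrt (NN n K) :=
    mul_le_mul_of_nonneg_right (le_abs_self C) (Real.sqrt_nonneg _)
  -- the sum over `g`
  have hsum : ∑ g ∈ range K, n g * m g *
      (1 / (Real.sqrt (VV m n 0 (g + 1)) * Real.sqrt (VV m n g K))) ≤
      2 * (|C| / Real.sqrt (VV m n 0 K)) * (|C| * Real.sqrt (NN n K)) := by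
    have hg1 : ∀ g ∈ range K, n g * m g *
        (1 / (Real.sqrt (VV m n 0 (g + 1)) * Real.sqrt (VV m n g K))) ≤
        (|C| / Real.sqrt (VV m n 0 K)) * (n g * m g / Real.sqrt (VV m n 0 (g + 1)) +
          n g * m g / Real.sqrt (VV m n g K)) := by
      intro g hg
      rw [Finset.mem_range] at hg
      have hnm : 0 ≤ n g * m g := mul_nonneg (hN.n_nonneg hg) (hN.m_nonneg hg)
      have hp1 : 0 < VV m n 0 (g + 1) := hN.VV_pos (by omega) (by omega)
      have hp2 : 0 < VV m n g K := hN.VV_pos hg le_rfl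
      have hs1 : 0 < Real.sqrt (VV m n 0 (g + 1)) := Real.sqrt_pos.mpr hp1
      have hs2 : 0 < Real.sqrt (VV m n g K) := Real.sqrt_pos.mpr hp2
      have hn2 : 0 ≤ m g ^ 2 * n g := mul_nonneg (sq_nonneg _) (hN.n_nonneg hg)
      rcases hN.h4' hg with ⟨hV, hr⟩ | ⟨hV, hr⟩
      · have h5 : 1 / Real.sqrt (VV m n 0 (g + 1)) ≤ |C| / Real.sqrt (VV m n 0 K) := by
          refine le_trans ?_ hr
          refine one_div_le_one_div_of_le (Real.sqrt_pos.mpr hV) (Real.sqrt_le_sqrt ?_)
          rw [VV_succ_right m n (Nat.zero_le g)]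
          linarith
        calc n g * m g * (1 / (Real.sqrt (VV m n 0 (g + 1)) * Real.sqrt (VV m n g K)))
            = (1 / Real.sqrt (VV m n 0 (g + 1))) * (n g * m g / Real.sqrt (VV m n g K)) := by
              field_simp
          _ ≤ (|C| / Real.sqrt (VV m n 0 K)) * (n g * m g / Real.sqrt (VV m n g K)) :=
              mul_le_mul_of_nonneg_right h5 (by positivity)
          _ ≤ _ := by
              refine mul_le_mul_of_nonneg_left ?_ (by positivity)
              have : 0 ≤ n g * m g / Real.sqrt (VV m n 0 (g + 1)) := by positivity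
              linarith
      · have h5 : 1 / Real.sqrt (VV m n g K) ≤ |C| / Real.sqrt (VV m n 0 K) := by
          refine le_trans ?_ hr
          refine one_div_le_one_div_of_le (Real.sqrt_pos.mpr hV) (Real.sqrt_le_sqrt ?_)
          rw [VV_succ_left m n hg]
          linarith
        calc n g * m g * (1 / (Real.sqrt (VV m n 0 (g + 1)) * Real.sqrt (VV m n g K)))
            = (1 / Real.sqrt (VV m n g K)) * (n g * m g / Real.sqrt (VV m n 0 (g + 1))) := by
              field_simp
          _ ≤ (|C| / Real.sqrt (VV m n 0 K)) * (n g * m g / Real.sqrt (VV m n 0 (g + 1))) :=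
              mul_le_mul_of_nonneg_right h5 (by positivity)
          _ ≤ _ := by
              refine mul_le_mul_of_nonneg_left ?_ (by positivity)
              have : 0 ≤ n g * m g / Real.sqrt (VV m n g K) := by positivity
              linarith
    refine (Finset.sum_le_sum hg1).trans ?_
    rw [← Finset.mul_sum, Finset.sum_add_distrib]
    have h6 := hN.good.h2
    have h7 := hN.good.h2'
    calc (|C| / Real.sqrt (VV m n 0 K)) *
        (∑ g ∈ range K, n g * m g / Real.sqrt (VV m n 0 (g + 1)) +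
          ∑ g ∈ range K, n g * m g / Real.sqrt (VV m n g K))
        ≤ (|C| / Real.sqrt (VV m n 0 K)) * (2 * (|C| * Real.sqrt (NN n K))) :=
          mul_le_mul_of_nonneg_left (by linarith) (by positivity)
      _ = _ := by ring
  -- each `q`
  have hq1 : ∀ q ∈ range K, n q * ∑ g ∈ (range K).filter (fun g => m g < m q), m q / m g *
      ∑ x : PS P, ind ((QQ (Y x) (L x) g : ℝ) ≤ L x g + 400 * m q ∧
        |(QQ (Y x) (L x) K : ℝ) - PP (Y x) (L x) g| ≤ L x g + 400 * m q) ≤
      (n q * m q) * (6400000000000000 * (2 * (|C| / Real.sqrt (VV m n 0 K)) *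
        (|C| * Real.sqrt (NN n K))) * 4 ^ Fintype.card P) := by
    intro q hq
    rw [Finset.mem_range] at hq
    have hmq := hN.m_nonneg hq
    have h1 : ∑ g ∈ (range K).filter (fun g => m g < m q), m q / m g *
      ∑ x : PS P, ind ((QQ (Y x) (L x) g : ℝ) ≤ L x g + 400 * m q ∧
        |(QQ (Y x) (L x) K : ℝ) - PP (Y x) (L x) g| ≤ L x g + 400 * m q) ≤
        m q * (6400000000000000 * (2 * (|C| / Real.sqrt (VV m n 0 K)) *
        (|C| * Real.sqrt (NN n K))) * 4 ^ Fintype.card P) := by
      calc ∑ g ∈ (range K).filter (fun g => m g < m q), m q / m g *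
          ∑ x : PS P, ind ((QQ (Y x) (L x) g : ℝ) ≤ L x g + 400 * m q ∧
          |(QQ (Y x) (L x) K : ℝ) - PP (Y x) (L x) g| ≤ L x g + 400 * m q)
          ≤ ∑ g ∈ (range K).filter (fun g => m g < m q), m q *
            (6400000000000000 * (n g * m g *
            (1 / (Real.sqrt (VV m n 0 (g + 1)) * Real.sqrt (VV m n g K)))) *
            4 ^ Fintype.card P) := by
            refine Finset.sum_le_sum fun g hg => ?_
            rw [Finset.mem_filter, Finset.mem_range] at hg
            have hmg := hN.good.m_pos g hg.1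
            calc m q / m g * _ ≤ m q / m g * (6400000000000000 * (m g ^ 2 * n g) *
                (1 / (Real.sqrt (VV m n 0 (g + 1)) * Real.sqrt (VV m n g K))) *
                4 ^ Fintype.card P) :=
                  mul_le_mul_of_nonneg_left (su3_term hN hp hq hg.1) (by positivity)
              _ = _ := by
                  field_simp
        _ ≤ ∑ g ∈ range K, m q *
            (6400000000000000 * (n g * m g *
            (1 / (Real.sqrt (VV m n 0 (g + 1)) * Real.sqrt (VV m n g K)))) *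
            4 ^ Fintype.card P) := by
            refine Finset.sum_le_sum_of_subset_of_nonneg (Finset.filter_subset _ _)
              fun g hg _ => ?_
            rw [Finset.mem_range] at hg
            have hnm : 0 ≤ n g * m g := mul_nonneg (hN.n_nonneg hg) (hN.m_nonneg hg)
            positivity
        _ = m q * (6400000000000000 * (∑ g ∈ range K, n g * m g *
            (1 / (Real.sqrt (VV m n 0 (g + 1)) * Real.sqrt (VV m n g K)))) *
            4 ^ Fintype.card P) := by
            rw [← Finset.mul_sum, ← Finset.sum_mul, ← Finset.mul_sum]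
        _ ≤ _ := by
            refine mul_le_mul_of_nonneg_left ?_ hmq
            refine mul_le_mul_of_nonneg_right ?_ h4.le
            exact mul_le_mul_of_nonneg_left hsum (by norm_num)
    calc _ ≤ n q * (m q * (6400000000000000 * (2 * (|C| / Real.sqrt (VV m n 0 K)) *
        (|C| * Real.sqrt (NN n K))) * 4 ^ Fintype.card P)) :=
          mul_le_mul_of_nonneg_left h1 (hN.n_nonneg hq)
      _ = _ := by ring
  refine (Finset.sum_le_sum hq1).trans ?_
  rw [← Finset.sum_mul]
  calc (∑ q ∈ range K, n q * m q) * (6400000000000000 * (2 * (|C| / Real.sqrt (VV m n 0 K)) *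
        (|C| * Real.sqrt (NN n K))) * 4 ^ Fintype.card P)
      ≤ (Real.sqrt (NN n K) * Real.sqrt (VV m n 0 K)) *
        (6400000000000000 * (2 * (|C| / Real.sqrt (VV m n 0 K)) *
        (|C| * Real.sqrt (NN n K))) * 4 ^ Fintype.card P) := by
        refine mul_le_mul_of_nonneg_right (hN.cs le_rfl) ?_
        have := div_nonneg (abs_nonneg C) hsV.le
        positivity
    _ = 12800000000000000 * |C| * |C| * (Real.sqrt (NN n K) * Real.sqrt (NN n K)) *
        4 ^ Fintype.card P := by
        field_simp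
        ring
    _ = 12800000000000000 * |C| * |C| * NN n K * 4 ^ Fintype.card P := by
        rw [Real.mul_self_sqrt hNN]
    _ ≤ (12800000000000000 * |C| * |C| + 1) * NN n K * 4 ^ Fintype.card P := by
        refine mul_le_mul_of_nonneg_right ?_ h4.le
        linarith

end BLO
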