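import Pool.Agent.Lib.BLO.SUT

/-!
# Chunk SU4

`η = 20 m_q`.  Tools: `cond_sum` (weights not depending on the conditioned blocks), the fields of `Proc`,
`ratio` (`m_q ≤ √n_g m_g`), `SP_append`.  `1/(a b) ≤ (C/σ)(1/a + 1/b)` if `max(a, b) ≥ σ/C`.
-/

namespace BLO

open Finset BLP

/-- one touch of type 1 -/
theorem su4_term {C : ℝ} {P : Type*} [Fintype P] [DecidableEq P] {K : ℕ}
    {m n : ℕ → ℝ} {cl : P → ℕ} {Y L : PS P → ℕ → ℕ} (hN : Num C K m n)
    (hp : Proc K m n cl Y L) {q g : ℕ} (hqg : q < g) (hg : g < K) :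
    ∑ x : PS P, ind (q < g ∧ (SQ (Y x) (L x) (q + 1) g : ℝ) ≤ L x g + 400 * m q ∧
        |(SZ (Y x) (L x) (q + 1) g : ℝ) + QQ (Y x) (L x) (q + 1)| ≤ L x g + 400 * m q) ≤
      6400000000000000 * (m g ^ 2 * n g) *
        (1 / (Real.sqrt (VV m n 0 (q + 1)) * Real.sqrt (VV m n (q + 1) (g + 1)))) *
        4 ^ Fintype.card P := by
  have hq : q < K := by omega
  have hm1 := hN.m1 q hq
  have hVg : VV m n (q + 1) g + (m g * Real.sqrt (n g)) ^ 2 = VV m n (q + 1) (g + 1) := by
    rw [hN.sq_vv hg, VV_succ_right m n (by omega)]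
  have hv : 0 ≤ m g * Real.sqrt (n g) := mul_nonneg (hN.m_nonneg hg) (Real.sqrt_nonneg _)
  have hp1 : 0 < VV m n 0 (q + 1) := hN.VV_pos (by omega) (by omega)
  have hp2 : 0 < VV m n (q + 1) (g + 1) := hN.VV_pos (by omega) (by omega)
  have hs1 : 0 < Real.sqrt (VV m n 0 (q + 1)) := Real.sqrt_pos.mpr hp1
  have hs2 : 0 < Real.sqrt (VV m n (q + 1) (g + 1)) := Real.sqrt_pos.mpr hp2
  have hL : ∀ x x' : PS P, (∀ i, cl i = g → x i = x' i) → (L x g : ℝ) = L x' g := by
    intro x x' h
    rw [(hp.loc g hg x x' h).2]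
  have hu0 : ∀ x : PS P, 1 ≤ (L x g : ℝ) + 400 * m q := by
    intro x
    have : (0 : ℝ) ≤ L x g := Nat.cast_nonneg _
    linarith
  -- the blocks up to `q`
  have h1 := Proc.touchL hp hN (b := q + 1) (by omega) 0 le_rfl (by simpa using hp1)
    (fun x => ind ((SQ (Y x) (L x) (q + 1) g : ℝ) ≤ L x g + 400 * m q))
    (fun x => - (SZ (Y x) (L x) (q + 1) g : ℝ))
    (fun x => (L x g : ℝ) + 400 * m q) (fun x => ind_nonneg _)
    (fun x x' h => by
      show ind _ = ind _
      have e1 := (hp.sub_congr (a := q + 1) (b := g) hg.le (x := x) (x' := x')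
        (fun k hk _ => h k (by omega))).2.1
      rw [e1, hL x x' (fun k hk => h k (by omega))])
    (fun x x' h => by
      show - (SZ (Y x) (L x) (q + 1) g : ℝ) = - (SZ (Y x') (L x') (q + 1) g : ℝ)
      have e1 := (hp.sub_congr (a := q + 1) (b := g) hg.le (x := x) (x' := x')
        (fun k hk _ => h k (by omega))).2.2
      rw [e1])
    (fun x x' h => by
      show (L x g : ℝ) + 400 * m q = L x' g + 400 * m q
      rw [hL x x' (fun k hk => h k (by omega))])
    hu0
  -- the blocks between `q` and `g`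
  have hS : ∀ x x' : PS P, (∀ i, i ∉ sg2 cl (q + 1) g → x i = x' i) →
      (L x g : ℝ) = L x' g := by
    intro x x' h
    refine hL x x' (fun k hk => h k ?_)
    simp only [sg2, Finset.mem_filter, Finset.mem_univ, true_and]
    omega
  have h2 := Proc.win hN (cl := cl) (fun x => (SQ (Y x) (L x) (q + 1) g : ℝ)) (a := q + 1)
    (b := g) (by omega) hg.le (fun h e u hu x => hp.fibQ (q + 1) g h hg.le e u hu x)
    (m g * Real.sqrt (n g)) hv (by rw [hVg]; exact hp2)
    (fun x => 80000 * ((L x g : ℝ) + 400 * m q + m g * Real.sqrt (n g)) /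
      Real.sqrt (VV m n 0 (q + 1))) (fun _ => 0)
    (fun x => (L x g : ℝ) + 400 * m q)
    (fun x => div_nonneg (mul_nonneg (by norm_num) (add_nonneg (by linarith [hu0 x]) hv))
      hs1.le)
    (fun x x' h => by
      show 80000 * ((L x g : ℝ) + 400 * m q + m g * Real.sqrt (n g)) /
        Real.sqrt (VV m n 0 (q + 1)) = 80000 * ((L x' g : ℝ) + 400 * m q +
        m g * Real.sqrt (n g)) / Real.sqrt (VV m n 0 (q + 1))
      rw [hS x x' h])
    (fun _ _ _ => rfl)
    (fun x x' h => by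
      show (L x g : ℝ) + 400 * m q = L x' g + 400 * m q
      rw [hS x x' h])
    hu0
  rw [show VV m n 0 (q + 1) + (0 : ℝ) ^ 2 = VV m n 0 (q + 1) by ring] at h1
  rw [hVg] at h2
  have h3 := hp.mom2 hN hq hg
  calc ∑ x : PS P, ind (q < g ∧ (SQ (Y x) (L x) (q + 1) g : ℝ) ≤ L x g + 400 * m q ∧
        |(SZ (Y x) (L x) (q + 1) g : ℝ) + QQ (Y x) (L x) (q + 1)| ≤ L x g + 400 * m q)
      ≤ ∑ x : PS P, ind ((SQ (Y x) (L x) (q + 1) g : ℝ) ≤ L x g + 400 * m q) *
        ind (|(QQ (Y x) (L x) (q + 1) : ℝ) - - (SZ (Y x) (L x) (q + 1) g : ℝ)| ≤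
          L x g + 400 * m q) := by
        refine Finset.sum_le_sum fun x _ => ?_
        by_cases hc : q < g ∧ (SQ (Y x) (L x) (q + 1) g : ℝ) ≤ L x g + 400 * m q ∧
          |(SZ (Y x) (L x) (q + 1) g : ℝ) + QQ (Y x) (L x) (q + 1)| ≤ L x g + 400 * m q
        · have hc2 : |(QQ (Y x) (L x) (q + 1) : ℝ) - - (SZ (Y x) (L x) (q + 1) g : ℝ)| ≤
              L x g + 400 * m q := by
            rw [sub_neg_eq_add, add_comm]
            exact hc.2.2
          rw [ind_true hc, ind_true hc.2.1, ind_true hc2, mul_one]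
        · rw [ind_false hc]
          exact mul_nonneg (ind_nonneg _) (ind_nonneg _)
    _ ≤ _ := h1
    _ ≤ ∑ x : PS P, (80000 * ((L x g : ℝ) + 400 * m q + m g * Real.sqrt (n g)) /
          Real.sqrt (VV m n 0 (q + 1))) *
          ind (|(SQ (Y x) (L x) (q + 1) g : ℝ) - 0| ≤ L x g + 400 * m q) := by
        refine Finset.sum_le_sum fun x _ => ?_
        rw [sub_zero, abs_of_nonneg (Nat.cast_nonneg _), mul_comm]
        refine mul_le_mul_of_nonneg_right ?_ (ind_nonneg _)
        refine div_le_div_of_nonneg_right ?_ hs1.le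
        linarith
    _ ≤ ∑ x : PS P, (80000 * ((L x g : ℝ) + 400 * m q + m g * Real.sqrt (n g)) /
          Real.sqrt (VV m n 0 (q + 1))) *
          (80000 * ((L x g : ℝ) + 400 * m q + m g * Real.sqrt (n g)) /
          Real.sqrt (VV m n (q + 1) (g + 1))) := h2
    _ = 6400000000 * (1 / (Real.sqrt (VV m n 0 (q + 1)) *
          Real.sqrt (VV m n (q + 1) (g + 1)))) *
          ∑ x : PS P, ((L x g : ℝ) + 400 * m q + m g * Real.sqrt (n g)) ^ 2 := by
        rw [Finset.mul_sum]
        refine Finset.sum_congr rfl fun x _ => ?_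
        field_simp
        ring
    _ ≤ 6400000000 * (1 / (Real.sqrt (VV m n 0 (q + 1)) *
          Real.sqrt (VV m n (q + 1) (g + 1)))) *
          (500000 * (m g ^ 2 * n g) * 4 ^ Fintype.card P) :=
        mul_le_mul_of_nonneg_left h3 (by positivity)
    _ ≤ _ := by
        have h5 : 0 ≤ m g ^ 2 * n g := mul_nonneg (sq_nonneg _) (hN.n_nonneg hg)
        have h6 : 0 ≤ (m g ^ 2 * n g) * (1 / (Real.sqrt (VV m n 0 (q + 1)) *
          Real.sqrt (VV m n (q + 1) (g + 1)))) * 4 ^ Fintype.card P := by positivity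
        linarith

/-- SU4: touch of type 1 of lighter blocks.  Given block `g` and the blocks `(q, g)`, `QQ (q+1)` lies in a window of length
`2u`: `C (u+1)/√V(0,q+1)`; given block `g`, `SQ (q+1) g ≤ u`: `min(1, C(u+1)/√V(q+1,g)) ≤ C u'/√V(q+1,g+1)`.
Then `∑_q n_q m_q/√V(0,q+1) * ∑_{g > q lighter} n_g m_g/√V(q+1,g+1)`, `Good.h2, h3`. -/
theorem su4 (C : ℝ) : ∃ C1 : ℝ, 0 < C1 ∧ ∀ (P : Type) [Fintype P] [DecidableEq P] (K : ℕ)
    (m n : ℕ → ℝ) (cl : P → ℕ) (Y L : PS P → ℕ → ℕ), Num C K m n → Proc K m n cl Y L →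
    ∑ q ∈ range K, n q * ∑ g ∈ (range K).filter (fun g => m g < m q), m q / m g *
      ∑ x : PS P, ind (q < g ∧ (SQ (Y x) (L x) (q + 1) g : ℝ) ≤ L x g + 400 * m q ∧
        |(SZ (Y x) (L x) (q + 1) g : ℝ) + QQ (Y x) (L x) (q + 1)| ≤ L x g + 400 * m q) ≤
      C1 * NN n K * 4 ^ Fintype.card P := by
  refine ⟨6400000000000000 * C ^ 2 + 1, by positivity, ?_⟩
  intro P _ _ K m n cl Y L hN hp
  have h4 : (0 : ℝ) < 4 ^ Fintype.card P := by positivity
  have hNN := hN.NN_nonneg (j := K) le_rfl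
  have hq1 : ∀ q ∈ range K, n q * ∑ g ∈ (range K).filter (fun g => m g < m q), m q / m g *
      ∑ x : PS P, ind (q < g ∧ (SQ (Y x) (L x) (q + 1) g : ℝ) ≤ L x g + 400 * m q ∧
        |(SZ (Y x) (L x) (q + 1) g : ℝ) + QQ (Y x) (L x) (q + 1)| ≤ L x g + 400 * m q) ≤
      (n q * m q / Real.sqrt (VV m n 0 (q + 1))) * (6400000000000000 *
        (C * Real.sqrt (NN n K)) * 4 ^ Fintype.card P) := by
    intro q hq
    rw [Finset.mem_range] at hq
    have hmq := hN.good.m_pos q hq
    have hp1 : 0 < VV m n 0 (q + 1) := hN.VV_pos (by omega) (by omega)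
    have hs1 : 0 < Real.sqrt (VV m n 0 (q + 1)) := Real.sqrt_pos.mpr hp1
    have h1 : ∑ g ∈ (range K).filter (fun g => m g < m q), m q / m g *
      ∑ x : PS P, ind (q < g ∧ (SQ (Y x) (L x) (q + 1) g : ℝ) ≤ L x g + 400 * m q ∧
        |(SZ (Y x) (L x) (q + 1) g : ℝ) + QQ (Y x) (L x) (q + 1)| ≤ L x g + 400 * m q) ≤
        (m q / Real.sqrt (VV m n 0 (q + 1))) * (6400000000000000 *
          (C * Real.sqrt (NN n K)) * 4 ^ Fintype.card P) := by
      calc ∑ g ∈ (range K).filter (fun g => m g < m q), m q / m g *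
          ∑ x : PS P, ind (q < g ∧ (SQ (Y x) (L x) (q + 1) g : ℝ) ≤ L x g + 400 * m q ∧
          |(SZ (Y x) (L x) (q + 1) g : ℝ) + QQ (Y x) (L x) (q + 1)| ≤ L x g + 400 * m q)
          = ∑ g ∈ (Ico (q + 1) K).filter (fun g => m g < m q), m q / m g *
          ∑ x : PS P, ind (q < g ∧ (SQ (Y x) (L x) (q + 1) g : ℝ) ≤ L x g + 400 * m q ∧
          |(SZ (Y x) (L x) (q + 1) g : ℝ) + QQ (Y x) (L x) (q + 1)| ≤ L x g + 400 * m q) := by
            symm
            refine Finset.sum_subset ?_ ?_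
            · intro g hg
              simp only [Finset.mem_filter, Finset.mem_Ico, Finset.mem_range] at hg ⊢
              exact ⟨hg.1.2, hg.2⟩
            · intro g hg hg'
              simp only [Finset.mem_filter, Finset.mem_Ico, Finset.mem_range] at hg hg'
              have hqg : ¬ q < g := fun h => hg' ⟨⟨h, hg.1⟩, hg.2⟩
              rw [Finset.sum_eq_zero fun x _ => ind_false fun h' => hqg h'.1, mul_zero]
        _ ≤ ∑ g ∈ (Ico (q + 1) K).filter (fun g => m g < m q),
            (n g * m g / Real.sqrt (VV m n (q + 1) (g + 1))) *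
            ((m q / Real.sqrt (VV m n 0 (q + 1))) * (6400000000000000 *
            4 ^ Fintype.card P)) := by
            refine Finset.sum_le_sum fun g hg => ?_
            rw [Finset.mem_filter, Finset.mem_Ico] at hg
            have hmg := hN.good.m_pos g hg.1.2
            have hp2 : 0 < VV m n (q + 1) (g + 1) := hN.VV_pos (by omega) (by omega)
            have hs2 : 0 < Real.sqrt (VV m n (q + 1) (g + 1)) := Real.sqrt_pos.mpr hp2
            calc m q / m g * _ ≤ m q / m g * (6400000000000000 * (m g ^ 2 * n g) *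
                (1 / (Real.sqrt (VV m n 0 (q + 1)) * Real.sqrt (VV m n (q + 1) (g + 1)))) *
                4 ^ Fintype.card P) :=
                  mul_le_mul_of_nonneg_left (su4_term hN hp (by omega) hg.1.2) (by positivity)
              _ = _ := by
                  field_simp
        _ = (∑ g ∈ (Ico (q + 1) K).filter (fun g => m g < m q),
            n g * m g / Real.sqrt (VV m n (q + 1) (g + 1))) *
            ((m q / Real.sqrt (VV m n 0 (q + 1))) * (6400000000000000 *
            4 ^ Fintype.card P)) := by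
            rw [← Finset.sum_mul]
        _ ≤ (C * Real.sqrt (NN n K)) *
            ((m q / Real.sqrt (VV m n 0 (q + 1))) * (6400000000000000 *
            4 ^ Fintype.card P)) :=
            mul_le_mul_of_nonneg_right (hN.good.h3 q hq) (by positivity)
        _ = _ := by ring
    calc _ ≤ n q * ((m q / Real.sqrt (VV m n 0 (q + 1))) * (6400000000000000 *
          (C * Real.sqrt (NN n K)) * 4 ^ Fintype.card P)) :=
          mul_le_mul_of_nonneg_left h1 (hN.n_nonneg hq)
      _ = _ := by ring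
  refine (Finset.sum_le_sum hq1).trans ?_
  rw [← Finset.sum_mul]
  have hC := hN.C_sqrt_nonneg
  calc (∑ q ∈ range K, n q * m q / Real.sqrt (VV m n 0 (q + 1))) * (6400000000000000 *
        (C * Real.sqrt (NN n K)) * 4 ^ Fintype.card P)
      ≤ (C * Real.sqrt (NN n K)) * (6400000000000000 *
        (C * Real.sqrt (NN n K)) * 4 ^ Fintype.card P) :=
        mul_le_mul_of_nonneg_right hN.good.h2 (by positivity)
    _ = 6400000000000000 * C ^ 2 * (Real.sqrt (NN n K) * Real.sqrt (NN n K)) *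
        4 ^ Fintype.card P := by ring
    _ = 6400000000000000 * C ^ 2 * NN n K * 4 ^ Fintype.card P := by
        rw [Real.mul_self_sqrt hNN]
    _ ≤ (6400000000000000 * C ^ 2 + 1) * NN n K * 4 ^ Fintype.card P := by
        refine mul_le_mul_of_nonneg_right ?_ h4.le
        linarith

end BLO
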