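import Pool.Agent.Lib.BLO.Proc

/-!
# Chunk SU5

`η = 20 m_q`.  Tools: `cond_sum` (weights not depending on the conditioned blocks), the fields of `Proc`,
`ratio` (`m_q ≤ √n_g m_g`), `SP_append`.  `1/(a b) ≤ (C/σ)(1/a + 1/b)` if `max(a, b) ≥ σ/C`.
-/

namespace BLO

open Finset BLP

theorem su5_card {P : Type*} [Fintype P] [DecidableEq P] :
    ((Fintype.card (PS P) : ℕ) : ℝ) = 4 ^ Fintype.card P := by
  have h : Fintype.card (PS P) = 4 ^ Fintype.card P := by
    show Fintype.card (P → Bool × Bool) = _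
    rw [Fintype.card_fun]
    simp
  rw [h]
  push_cast
  rfl

/-- the unmatched plus letters of a suffix survive -/
theorem su5_QQ (y l : ℕ → ℕ) {b g : ℕ} (hb : b ≤ g) : SQ y l b g ≤ QQ y l g := by
  have h := (SP_append y l (Nat.zero_le b) hb).2
  rw [SQ_zero] at h
  omega

/-- one block: displacement on the event that the local past has few unmatched plus letters -/
theorem su5_blk {P : Type*} [Fintype P] [DecidableEq P] {C : ℝ} {K : ℕ}
    {m n : ℕ → ℝ} {cl : P → ℕ} {Y L : PS P → ℕ → ℕ} (hN : Num C K m n) (hP : Proc K m n cl Y L)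
    {b g : ℕ} (hb : b ≤ g) (hg : g < K) :
    ∑ x : PS P, ind ((SQ (Y x) (L x) b g : ℝ) ≤ L x g) * (1 + L x g / m g) ≤
      2000000 * (n g * m g / Real.sqrt (VV m n b (g + 1))) * 4 ^ Fintype.card P := by
  have hm1 : 1 ≤ m g := hN.m1 g hg
  have hn1 : 1 ≤ n g := hN.n1 g hg
  have hm0 : 0 < m g := by linarith
  have hn0 : 0 < n g := by linarith
  have h4 : (0 : ℝ) < 4 ^ Fintype.card P := by positivity
  have hVs : VV m n b (g + 1) = VV m n b g + m g ^ 2 * n g := by
    unfold VV
    rw [Finset.sum_Ico_succ_top hb]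
  have hV0 : 0 ≤ VV m n b g := by
    unfold VV
    refine Finset.sum_nonneg fun j hj => ?_
    rw [Finset.mem_Ico] at hj
    have := hN.good.n_pos j (by omega)
    positivity
  have hV1 : 0 < VV m n b (g + 1) := by rw [hVs]; positivity
  have hmom := hP.mom g hg
  have hone : ∑ _x : PS P, (1 : ℝ) = 4 ^ Fintype.card P := by
    rw [Finset.sum_const, Finset.card_univ, nsmul_eq_mul, mul_one, su5_card]
  by_cases hc : m g ^ 2 * n g ≤ VV m n b g
  · -- the past dominates
    have hbg : b < g := by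
      rcases Nat.lt_or_ge b g with h | h
      · exact h
      · have : b = g := le_antisymm hb h
        rw [this] at hc
        unfold VV at hc
        rw [Finset.Ico_self, Finset.sum_empty] at hc
        have : 0 < m g ^ 2 * n g := by positivity
        linarith
    have hVb : 0 < VV m n b g := lt_of_lt_of_le (by positivity) hc
    have hs0 : 0 < Real.sqrt (VV m n b g) := Real.sqrt_pos.mpr hVb
    have hs1 : 0 < Real.sqrt (VV m n b (g + 1)) := Real.sqrt_pos.mpr hV1
    have hss : Real.sqrt (VV m n b (g + 1)) ≤ 2 * Real.sqrt (VV m n b g) := by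
      have h2 : 2 * Real.sqrt (VV m n b g) = Real.sqrt (4 * VV m n b g) := by
        rw [Real.sqrt_mul (by norm_num), show (4 : ℝ) = 2 ^ 2 by norm_num,
          Real.sqrt_sq (by norm_num)]
      rw [h2]
      exact Real.sqrt_le_sqrt (by rw [hVs]; linarith)
    have hq := cond_sum (sg2 cl b g) (fun x : PS P => (SQ (Y x) (L x) b g : ℝ) ≤ L x g)
      (fun x => 1 + (L x g : ℝ) / m g)
      (fun x => 20000 * ((L x g : ℝ) + 1) / Real.sqrt (VV m n b g))
      (fun x => by positivity)
      (fun x x' hx => by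
        have := (hP.loc g hg x x' fun k hk => hx k (by
          unfold sg2
          simp only [Finset.mem_filter, Finset.mem_univ, true_and]
          omega)).2
        simp only [this])
      (fun x => by
        have h5 := hP.fibQ b g hbg hg.le 0 (L x g) (Nat.cast_nonneg _) x
        have e4 : ((Fintype.card (Bool × Bool) : ℕ) : ℝ) = 4 := by simp
        rw [e4]
        refine le_trans ?_ h5
        unfold ccnt
        refine Finset.sum_le_sum fun z _ => ind_mono ?_
        rintro ⟨hz, hE⟩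
        refine ⟨hz, ?_⟩
        have := (hP.loc g hg z x fun k hk => hz k (by
          unfold sg2
          simp only [Finset.mem_filter, Finset.mem_univ, true_and]
          omega)).2
        rw [this] at hE
        beta_reduce
        rw [sub_zero, abs_of_nonneg (Nat.cast_nonneg _)]
        exact hE)
    have h6 : ∑ x : PS P, ind ((SQ (Y x) (L x) b g : ℝ) ≤ L x g) * (1 + L x g / m g) =
        ∑ x : PS P, (1 + (L x g : ℝ) / m g) * ind ((SQ (Y x) (L x) b g : ℝ) ≤ L x g) :=
      Finset.sum_congr rfl fun x _ => mul_comm _ _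
    rw [h6]
    refine hq.trans ?_
    have h7 : ∀ x : PS P, (1 + (L x g : ℝ) / m g) *
        (20000 * ((L x g : ℝ) + 1) / Real.sqrt (VV m n b g)) ≤
        20000 / Real.sqrt (VV m n b g) * (2 * m g * 1 + 2 / m g * (L x g : ℝ) ^ 2) := by
      intro x
      have e1 : (1 + (L x g : ℝ) / m g) * (20000 * ((L x g : ℝ) + 1) / Real.sqrt (VV m n b g)) =
          20000 / Real.sqrt (VV m n b g) * ((1 + (L x g : ℝ) / m g) * ((L x g : ℝ) + 1)) := by ring
      rw [e1]
      refine mul_le_mul_of_nonneg_left ?_ (by positivity)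
      have hL : (0 : ℝ) ≤ L x g := Nat.cast_nonneg _
      have e2 : (1 + (L x g : ℝ) / m g) * ((L x g : ℝ) + 1) ≤
          (1 + (L x g : ℝ) / m g) * ((L x g : ℝ) + m g) :=
        mul_le_mul_of_nonneg_left (by linarith) (by positivity)
      refine e2.trans ?_
      have e3 : (1 + (L x g : ℝ) / m g) * ((L x g : ℝ) + m g) =
          ((L x g : ℝ) + m g) ^ 2 / m g := by
        field_simp
        ring
      have e4 : 2 * m g * 1 + 2 / m g * (L x g : ℝ) ^ 2 =
          (2 * (m g) ^ 2 + 2 * (L x g : ℝ) ^ 2) / m g := by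
        field_simp
      rw [e3, e4]
      refine div_le_div_of_nonneg_right ?_ hm0.le
      nlinarith [sq_nonneg ((L x g : ℝ) - m g)]
    refine (Finset.sum_le_sum fun x _ => h7 x).trans ?_
    rw [← Finset.mul_sum, Finset.sum_add_distrib, ← Finset.mul_sum, ← Finset.mul_sum, hone]
    have h8 : 2 * m g * 4 ^ Fintype.card P + 2 / m g * ∑ x : PS P, (L x g : ℝ) ^ 2 ≤
        26 * (n g * m g) * 4 ^ Fintype.card P := by
      have e1 : 2 / m g * ∑ x : PS P, (L x g : ℝ) ^ 2 ≤
          2 / m g * (12 * m g ^ 2 * n g * 4 ^ Fintype.card P) :=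
        mul_le_mul_of_nonneg_left hmom (by positivity)
      have e2 : 2 / m g * (12 * m g ^ 2 * n g * 4 ^ Fintype.card P) =
          24 * (n g * m g) * 4 ^ Fintype.card P := by
        field_simp
        ring
      have e3 : 2 * m g * 4 ^ Fintype.card P ≤ 2 * (n g * m g) * 4 ^ Fintype.card P := by
        refine mul_le_mul_of_nonneg_right ?_ h4.le
        nlinarith
      linarith
    have h9 : 1 / Real.sqrt (VV m n b g) ≤ 2 / Real.sqrt (VV m n b (g + 1)) := by
      rw [div_le_div_iff₀ hs0 hs1]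
      linarith
    calc 20000 / Real.sqrt (VV m n b g) *
          (2 * m g * 4 ^ Fintype.card P + 2 / m g * ∑ x : PS P, (L x g : ℝ) ^ 2)
        ≤ 20000 / Real.sqrt (VV m n b g) * (26 * (n g * m g) * 4 ^ Fintype.card P) :=
          mul_le_mul_of_nonneg_left h8 (by positivity)
      _ = 520000 * (n g * m g) * 4 ^ Fintype.card P * (1 / Real.sqrt (VV m n b g)) := by ring
      _ ≤ 520000 * (n g * m g) * 4 ^ Fintype.card P * (2 / Real.sqrt (VV m n b (g + 1))) :=
          mul_le_mul_of_nonneg_left h9 (by positivity)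
      _ = 1040000 * (n g * m g / Real.sqrt (VV m n b (g + 1))) * 4 ^ Fintype.card P := by ring
      _ ≤ 2000000 * (n g * m g / Real.sqrt (VV m n b (g + 1))) * 4 ^ Fintype.card P := by
          refine mul_le_mul_of_nonneg_right ?_ h4.le
          exact mul_le_mul_of_nonneg_right (by norm_num) (by positivity)
  · -- the block dominates
    push Not at hc
    have hs1 : 0 < Real.sqrt (VV m n b (g + 1)) := Real.sqrt_pos.mpr hV1
    have hsn : 0 < Real.sqrt (n g) := Real.sqrt_pos.mpr hn0
    have hsn1 : 1 ≤ Real.sqrt (n g) := by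
      rw [show (1 : ℝ) = Real.sqrt 1 by simp]
      exact Real.sqrt_le_sqrt hn1
    have hsq : Real.sqrt (n g) ^ 2 = n g := Real.sq_sqrt hn0.le
    have hss : Real.sqrt (VV m n b (g + 1)) ≤ 2 * (m g * Real.sqrt (n g)) := by
      rw [Real.sqrt_le_left (by positivity)]
      rw [hVs, mul_pow, mul_pow, hsq]
      nlinarith [mul_pos (pow_pos hm0 2) hn0]
    have h10 : Real.sqrt (n g) / 2 ≤ n g * m g / Real.sqrt (VV m n b (g + 1)) := by
      rw [div_le_div_iff₀ (by norm_num) hs1]
      calc Real.sqrt (n g) * Real.sqrt (VV m n b (g + 1))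
          ≤ Real.sqrt (n g) * (2 * (m g * Real.sqrt (n g))) :=
            mul_le_mul_of_nonneg_left hss hsn.le
        _ = 2 * m g * Real.sqrt (n g) ^ 2 := by ring
        _ = n g * m g * 2 := by rw [hsq]; ring
    have h11 : ∀ x : PS P, ind ((SQ (Y x) (L x) b g : ℝ) ≤ L x g) * (1 + L x g / m g) ≤
        (1 + Real.sqrt (n g)) * 1 + 1 / (m g ^ 2 * Real.sqrt (n g)) * (L x g : ℝ) ^ 2 := by
      intro x
      have hL : (0 : ℝ) ≤ L x g := Nat.cast_nonneg _
      have e0 : ind ((SQ (Y x) (L x) b g : ℝ) ≤ L x g) * (1 + L x g / m g) ≤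
          1 * (1 + (L x g : ℝ) / m g) :=
        mul_le_mul_of_nonneg_right (ind_le_one _) (by positivity)
      refine e0.trans ?_
      have e1 : (L x g : ℝ) / m g ≤ Real.sqrt (n g) +
          1 / (m g ^ 2 * Real.sqrt (n g)) * (L x g : ℝ) ^ 2 := by
        have e2 : 1 / (m g ^ 2 * Real.sqrt (n g)) * (L x g : ℝ) ^ 2 =
            ((L x g : ℝ) / m g) ^ 2 / Real.sqrt (n g) := by
          field_simp
        rw [e2]
        set t := (L x g : ℝ) / m g with ht
        have ht0 : 0 ≤ t := by positivity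
        have e3 : Real.sqrt (n g) + t ^ 2 / Real.sqrt (n g) - t =
            (Real.sqrt (n g) ^ 2 + t ^ 2 - t * Real.sqrt (n g)) / Real.sqrt (n g) := by
          field_simp
        have e4 : 0 ≤ Real.sqrt (n g) + t ^ 2 / Real.sqrt (n g) - t := by
          rw [e3]
          refine div_nonneg ?_ hsn.le
          nlinarith [sq_nonneg (Real.sqrt (n g) - t), mul_nonneg ht0 hsn.le]
        linarith
      linarith
    refine (Finset.sum_le_sum fun x _ => h11 x).trans ?_
    rw [Finset.sum_add_distrib, ← Finset.mul_sum, ← Finset.mul_sum, hone]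
    have h12 : 1 / (m g ^ 2 * Real.sqrt (n g)) * ∑ x : PS P, (L x g : ℝ) ^ 2 ≤
        12 * Real.sqrt (n g) * 4 ^ Fintype.card P := by
      have e1 : 1 / (m g ^ 2 * Real.sqrt (n g)) * ∑ x : PS P, (L x g : ℝ) ^ 2 ≤
          1 / (m g ^ 2 * Real.sqrt (n g)) * (12 * m g ^ 2 * n g * 4 ^ Fintype.card P) :=
        mul_le_mul_of_nonneg_left hmom (by positivity)
      have e2 : 1 / (m g ^ 2 * Real.sqrt (n g)) * (12 * m g ^ 2 * n g * 4 ^ Fintype.card P) =
          12 * Real.sqrt (n g) * 4 ^ Fintype.card P := by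
        have : 1 / (m g ^ 2 * Real.sqrt (n g)) * (12 * m g ^ 2 * n g * 4 ^ Fintype.card P) =
          12 * (n g / Real.sqrt (n g)) * 4 ^ Fintype.card P := by
          field_simp
        rw [this, Real.div_sqrt]
      linarith
    have h13 : (1 + Real.sqrt (n g)) * 4 ^ Fintype.card P +
        12 * Real.sqrt (n g) * 4 ^ Fintype.card P ≤ 28 * (Real.sqrt (n g) / 2) *
          4 ^ Fintype.card P := by
      nlinarith
    have h14 : 28 * (Real.sqrt (n g) / 2) * 4 ^ Fintype.card P ≤
        2000000 * (n g * m g / Real.sqrt (VV m n b (g + 1))) * 4 ^ Fintype.card P := by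
      refine mul_le_mul_of_nonneg_right ?_ h4.le
      have : 0 ≤ n g * m g / Real.sqrt (VV m n b (g + 1)) := by positivity
      linarith
    linarith

/-- the local form of SU5, for SU7 -/
theorem su5_sum {P : Type*} [Fintype P] [DecidableEq P] {C : ℝ} {K : ℕ}
    {m n : ℕ → ℝ} {cl : P → ℕ} {Y L : PS P → ℕ → ℕ} (hN : Num C K m n) (hP : Proc K m n cl Y L)
    (b : ℕ → ℕ) (hb : ∀ g < K, b g ≤ g)
    (hs : ∑ g ∈ range K, n g * m g / Real.sqrt (VV m n (b g) (g + 1)) ≤
      C * Real.sqrt (NN n K)) :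
    ∑ g ∈ range K, ∑ x : PS P, ind ((SQ (Y x) (L x) (b g) g : ℝ) ≤ L x g) * (1 + L x g / m g) ≤
      2000000 * C * Real.sqrt (NN n K) * 4 ^ Fintype.card P := by
  calc ∑ g ∈ range K, ∑ x : PS P, ind ((SQ (Y x) (L x) (b g) g : ℝ) ≤ L x g) *
        (1 + L x g / m g)
      ≤ ∑ g ∈ range K, 2000000 * (n g * m g / Real.sqrt (VV m n (b g) (g + 1))) *
          4 ^ Fintype.card P := by
        refine Finset.sum_le_sum fun g hg => ?_
        rw [Finset.mem_range] at hg
        exact su5_blk hN hP (hb g hg) hg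
    _ = 2000000 * 4 ^ Fintype.card P *
          ∑ g ∈ range K, n g * m g / Real.sqrt (VV m n (b g) (g + 1)) := by
        rw [Finset.mul_sum]
        exact Finset.sum_congr rfl fun g _ => by ring
    _ ≤ 2000000 * 4 ^ Fintype.card P * (C * Real.sqrt (NN n K)) :=
        mul_le_mul_of_nonneg_left hs (by positivity)
    _ = _ := by ring

/-- SU5: displacement of the records from the left.  `QQ g ≤ L g` implies `SQ (b g) g ≤ L g`. -/
theorem su5 (C : ℝ) : ∃ C1 : ℝ, 0 < C1 ∧ ∀ (P : Type) [Fintype P] [DecidableEq P] (K : ℕ)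
    (m n : ℕ → ℝ) (cl : P → ℕ) (Y L : PS P → ℕ → ℕ), Num C K m n → Proc K m n cl Y L →
    ∑ x : PS P, ∑ g ∈ range K, ind ((QQ (Y x) (L x) g : ℝ) ≤ L x g) * (1 + L x g / m g) ≤
      C1 * Real.sqrt (NN n K) * 4 ^ Fintype.card P := by
  refine ⟨2000000 * |C| + 1, by positivity, ?_⟩
  intro P _ _ K m n cl Y L hN hP
  obtain ⟨b, f, f', h1, h2, h3⟩ := hN.good.h5
  have h4 := su5_sum hN hP b (fun g hg => (h1 g hg).1) h2
  rw [Finset.sum_comm]
  calc ∑ g ∈ range K, ∑ x : PS P, ind ((QQ (Y x) (L x) g : ℝ) ≤ L x g) * (1 + L x g / m g)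
      ≤ ∑ g ∈ range K, ∑ x : PS P, ind ((SQ (Y x) (L x) (b g) g : ℝ) ≤ L x g) *
        (1 + L x g / m g) := by
        refine Finset.sum_le_sum fun g hg => Finset.sum_le_sum fun x _ => ?_
        rw [Finset.mem_range] at hg
        have hm0 : 0 < m g := hN.good.m_pos g hg
        refine mul_le_mul_of_nonneg_right (ind_mono fun hx => le_trans ?_ hx) (by positivity)
        exact_mod_cast su5_QQ (Y x) (L x) (h1 g hg).1
    _ ≤ 2000000 * C * Real.sqrt (NN n K) * 4 ^ Fintype.card P := h4
    _ ≤ (2000000 * |C| + 1) * Real.sqrt (NN n K) * 4 ^ Fintype.card P := by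
        refine mul_le_mul_of_nonneg_right (mul_le_mul_of_nonneg_right ?_ (Real.sqrt_nonneg _))
          (by positivity)
        linarith [le_abs_self C]

end BLO
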