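import Pool.Agent.Lib.BLO.Proc

/-!
# Chunk SU6

`η = 20 m_q`.  Tools: `cond_sum` (weights not depending on the conditioned blocks), the fields of `Proc`,
`ratio` (`m_q ≤ √n_g m_g`), `SP_append`.  `1/(a b) ≤ (C/σ)(1/a + 1/b)` if `max(a, b) ≥ σ/C`.
-/

namespace BLO

open Finset BLP

/-- the value of the word is the value of the segment plus a function of the other blocks -/
theorem su6_split (y l : ℕ → ℕ) {a b K : ℕ} (hab : a ≤ b) (hb : b ≤ K) :
    SZ y l 0 K = SZ y l a b + (SZ y l 0 a + SZ y l b K) := by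
  unfold SZ
  rw [← Finset.sum_Ico_consecutive _ (Nat.zero_le a) (hab.trans hb),
    ← Finset.sum_Ico_consecutive _ hab hb]
  ring

theorem su6_congr {P : Type*} [Fintype P] [DecidableEq P] {K : ℕ}
    {m n : ℕ → ℝ} {cl : P → ℕ} {Y L : PS P → ℕ → ℕ} (hP : Proc K m n cl Y L)
    {S : Finset P} {c d : ℕ} (hd : d ≤ K) (hS : ∀ k ∈ S, ¬ (c ≤ cl k ∧ cl k < d)) (z x : PS P)
    (h : ∀ k, k ∉ S → z k = x k) : SZ (Y z) (L z) c d = SZ (Y x) (L x) c d := by
  unfold SZ
  refine Finset.sum_congr rfl fun g hg => ?_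
  rw [Finset.mem_Ico] at hg
  obtain ⟨h1, h2⟩ := hP.loc g (by omega) z x fun k hk => h k fun hkS => hS k hkS (by omega)
  rw [h1, h2]

/-- SU6: small balls for all thresholds, given everything outside a segment `[a, b)` (used with
the free segments of `Good.h5`): `∑_h n_h P(|SZ 0 K - θ| ≤ 60 m_h | outside) ≤ C √N`. -/
theorem su6 (C : ℝ) : ∃ C1 : ℝ, 0 < C1 ∧ ∀ (P : Type) [Fintype P] [DecidableEq P] (K : ℕ)
    (m n : ℕ → ℝ) (cl : P → ℕ) (Y L : PS P → ℕ → ℕ), Num C K m n → Proc K m n cl Y L →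
    ∀ a b : ℕ, a < b → b ≤ K →
    (∀ h < K, 0 < ∑ j ∈ (Ico a b).filter (fun j => m h ≤ m j), n j) →
    ∑ h ∈ range K, n h / Real.sqrt (∑ j ∈ (Ico a b).filter (fun j => m h ≤ m j), n j) ≤
        C * Real.sqrt (NN n K) →
    ∀ (θ : ℝ) (f : PS P → ℝ), (∀ x, 0 ≤ f x) →
    (∀ x x' : PS P, (∀ k, k ∉ sg2 cl a b → x k = x' k) → f x = f x') →
    ∑ x : PS P, f x * ∑ h ∈ range K, n h * ind (|(SZ (Y x) (L x) 0 K : ℝ) - θ| ≤ 60 * m h) ≤
      C1 * Real.sqrt (NN n K) * ∑ x, f x := by
  refine ⟨183 * |C| + 1, by positivity, ?_⟩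
  intro P _ _ K m n cl Y L hN hP a b hab hb hpos hsum θ f hf0 hf
  have hNpos := pi0_NN_pos hN.good.hK hN.good.n_pos
  have hsN : 0 < Real.sqrt (NN n K) := Real.sqrt_pos.mpr hNpos
  have hfs : 0 ≤ ∑ x, f x := Finset.sum_nonneg fun x _ => hf0 x
  have key : ∀ h < K, ∑ x : PS P, f x * ind (|(SZ (Y x) (L x) 0 K : ℝ) - θ| ≤ 60 * m h) ≤
      (183 / Real.sqrt (∑ j ∈ (Ico a b).filter (fun j => m h ≤ m j), n j) +
        1 / Real.sqrt (NN n K)) * ∑ x, f x := by
    intro h hh
    have hm0 : 0 < m h := hN.good.m_pos h hh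
    have hq := cond_sum (sg2 cl a b)
      (fun x : PS P => |(SZ (Y x) (L x) 0 K : ℝ) - θ| ≤ 60 * m h) f
      (fun _ => 183 / Real.sqrt (∑ j ∈ (Ico a b).filter (fun j => m h ≤ m j), n j) +
        1 / Real.sqrt (NN n K)) hf0 hf
      (fun x => by
        have h5 := hP.lox a b hb (m h) hm0 (hpos h hh)
          (θ - ((SZ (Y x) (L x) 0 a : ℝ) + (SZ (Y x) (L x) b K : ℝ))) (60 * m h)
          (by positivity) x
        have e4 : ((Fintype.card (Bool × Bool) : ℕ) : ℝ) = 4 := by simp
        have e5 : 60 * m h / m h = 60 := by field_simp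
        rw [e5, show 3 * ((60 : ℝ) + 1) = 183 by norm_num] at h5
        rw [e4]
        refine le_trans ?_ h5
        unfold ccnt
        refine Finset.sum_le_sum fun z _ => ind_mono ?_
        rintro ⟨hz, hE⟩
        refine ⟨hz, ?_⟩
        have c1 := su6_congr hP (S := sg2 cl a b) (c := 0) (d := a) (by omega) (by
          intro k hk
          unfold sg2 at hk
          rw [Finset.mem_filter] at hk
          omega) z x hz
        have c2 := su6_congr hP (S := sg2 cl a b) (c := b) (d := K) le_rfl (by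
          intro k hk
          unfold sg2 at hk
          rw [Finset.mem_filter] at hk
          omega) z x hz
        have c3 := su6_split (Y z) (L z) hab.le hb
        rw [c1, c2] at c3
        beta_reduce at hE ⊢
        rw [c3] at hE
        push_cast at hE
        have e6 : (SZ (Y z) (L z) a b : ℝ) - (θ - ((SZ (Y x) (L x) 0 a : ℝ) +
            (SZ (Y x) (L x) b K : ℝ))) = (SZ (Y z) (L z) a b : ℝ) +
            ((SZ (Y x) (L x) 0 a : ℝ) + (SZ (Y x) (L x) b K : ℝ)) - θ := by ring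
        rw [e6]
        exact hE)
    refine hq.trans (le_of_eq ?_)
    rw [Finset.mul_sum]
    exact Finset.sum_congr rfl fun x _ => mul_comm _ _
  calc ∑ x : PS P, f x * ∑ h ∈ range K, n h * ind (|(SZ (Y x) (L x) 0 K : ℝ) - θ| ≤ 60 * m h)
      = ∑ h ∈ range K, n h *
          ∑ x : PS P, f x * ind (|(SZ (Y x) (L x) 0 K : ℝ) - θ| ≤ 60 * m h) := by
        rw [Finset.sum_congr rfl fun x _ => Finset.mul_sum _ _ _, Finset.sum_comm]
        refine Finset.sum_congr rfl fun h _ => ?_
        rw [Finset.mul_sum]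
        exact Finset.sum_congr rfl fun x _ => by ring
    _ ≤ ∑ h ∈ range K, n h * ((183 / Real.sqrt (∑ j ∈ (Ico a b).filter (fun j => m h ≤ m j), n j) +
        1 / Real.sqrt (NN n K)) * ∑ x, f x) := by
        refine Finset.sum_le_sum fun h hh => ?_
        rw [Finset.mem_range] at hh
        exact mul_le_mul_of_nonneg_left (key h hh) (hN.good.n_pos h hh).le
    _ = (183 * ∑ h ∈ range K, n h / Real.sqrt (∑ j ∈ (Ico a b).filter (fun j => m h ≤ m j), n j) +
        NN n K / Real.sqrt (NN n K)) * ∑ x, f x := by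
        generalize ∑ x, f x = Fs
        have e : NN n K / Real.sqrt (NN n K) =
            ∑ h ∈ range K, n h * (1 / Real.sqrt (NN n K)) := by
          rw [← Finset.sum_mul]
          show NN n K / Real.sqrt (NN n K) = NN n K * (1 / Real.sqrt (NN n K))
          ring
        rw [e, Finset.mul_sum, ← Finset.sum_add_distrib, Finset.sum_mul]
        exact Finset.sum_congr rfl fun h _ => by ring
    _ ≤ ((183 * |C| + 1) * Real.sqrt (NN n K)) * ∑ x, f x := by
        refine mul_le_mul_of_nonneg_right ?_ hfs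
        rw [Real.div_sqrt]
        have : C * Real.sqrt (NN n K) ≤ |C| * Real.sqrt (NN n K) :=
          mul_le_mul_of_nonneg_right (le_abs_self C) hsN.le
        linarith
    _ = _ := by ring

end BLO
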