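import Pool.Agent.Lib.BLO.SU5
import Pool.Agent.Lib.BLO.SU6

/-!
# Chunk SU7

`η = 20 m_q`.  Tools: `cond_sum` (weights not depending on the conditioned blocks), the fields of `Proc`,
`ratio` (`m_q ≤ √n_g m_g`), `SP_append`.  `1/(a b) ≤ (C/σ)(1/a + 1/b)` if `max(a, b) ≥ σ/C`.
-/

namespace BLO

open Finset BLP

theorem su7_congr (y l y' l' : ℕ → ℕ) {a b : ℕ} (hab : a ≤ b)
    (h : ∀ j, a ≤ j → j < b → y j = y' j ∧ l j = l' j) :
    SP y l a b = SP y' l' a b ∧ SQ y l a b = SQ y' l' a b := by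
  obtain ⟨d, rfl⟩ := Nat.exists_eq_add_of_le hab
  clear hab
  induction d with
  | zero =>
    rw [Nat.add_zero, (AR1_self y l a).1, (AR1_self y l a).2, (AR1_self y' l' a).1,
      (AR1_self y' l' a).2]
    exact ⟨rfl, rfl⟩
  | succ d ih =>
    obtain ⟨i1, i2⟩ := ih fun j h1 h2 => h j h1 (by omega)
    obtain ⟨a1, a2⟩ := AR1_succ y l (show a ≤ a + d by omega)
    obtain ⟨b1, b2⟩ := AR1_succ y' l' (show a ≤ a + d by omega)
    obtain ⟨c1, c2⟩ := h (a + d) (by omega) (by omega)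
    rw [← Nat.add_assoc, a1, a2, b1, b2, i1, i2, c1, c2]
    exact ⟨rfl, rfl⟩

/-- SU7: displacement near a threshold (`su6` with the free segment of `Good.h5` for block `g` and
`f x = 1{SQ (b g) g ≤ L g} (1 + L g / m g)`, then as `su5`) -/
theorem su7 (C : ℝ) : ∃ C1 : ℝ, 0 < C1 ∧ ∀ (P : Type) [Fintype P] [DecidableEq P] (K : ℕ)
    (m n : ℕ → ℝ) (cl : P → ℕ) (Y L : PS P → ℕ → ℕ), Num C K m n → Proc K m n cl Y L →
    ∀ θ : ℝ, ∑ x : PS P, (∑ g ∈ range K, ind ((QQ (Y x) (L x) g : ℝ) ≤ L x g) *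
        (1 + L x g / m g)) * ∑ h ∈ range K, n h * ind (|(SZ (Y x) (L x) 0 K : ℝ) - θ| ≤ 60 * m h) ≤
      C1 * NN n K * 4 ^ Fintype.card P := by
  obtain ⟨C6, hC6, h6⟩ := su6 C
  refine ⟨C6 * (2000000 * |C| + 1), by positivity, ?_⟩
  intro P _ _ K m n cl Y L hN hP θ
  obtain ⟨b, f, f', h1, h2, h3⟩ := hN.good.h5
  have h4 := su5_sum hN hP b (fun g hg => (h1 g hg).1) h2
  have hNpos := pi0_NN_pos hN.good.hK hN.good.n_pos
  set W : PS P → ℝ := fun x =>
    ∑ h ∈ range K, n h * ind (|(SZ (Y x) (L x) 0 K : ℝ) - θ| ≤ 60 * m h) with hW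
  have hW0 : ∀ x, 0 ≤ W x := fun x => Finset.sum_nonneg fun h hh =>
    mul_nonneg (hN.good.n_pos h (Finset.mem_range.mp hh)).le (ind_nonneg _)
  have key : ∀ g ∈ range K, ∑ x : PS P,
      (ind ((SQ (Y x) (L x) (b g) g : ℝ) ≤ L x g) * (1 + L x g / m g)) * W x ≤
      C6 * Real.sqrt (NN n K) *
        ∑ x : PS P, ind ((SQ (Y x) (L x) (b g) g : ℝ) ≤ L x g) * (1 + L x g / m g) := by
    intro g hg
    rw [Finset.mem_range] at hg
    obtain ⟨hbg, hff, hfK, hor⟩ := h1 g hg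
    have hm0 : 0 < m g := hN.good.m_pos g hg
    refine h6 P K m n cl Y L hN hP (f g) (f' g) hff hfK (h3 g hg).1 (h3 g hg).2 θ
      (fun x => ind ((SQ (Y x) (L x) (b g) g : ℝ) ≤ L x g) * (1 + L x g / m g))
      (fun x => mul_nonneg (ind_nonneg _) (by positivity)) ?_
    intro x x' hx
    have hloc : ∀ j, j < K → ¬ (f g ≤ j ∧ j < f' g) → Y x j = Y x' j ∧ L x j = L x' j := by
      intro j hj hjf
      refine hP.loc j hj x x' fun k hk => hx k ?_
      unfold sg2
      simp only [Finset.mem_filter, Finset.mem_univ, true_and]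
      rw [hk]
      exact hjf
    have e1 := (su7_congr (Y x) (L x) (Y x') (L x') hbg
      fun j h1 h2 => hloc j (by omega) (by omega)).2
    have e2 := (hloc g hg (by omega)).2
    rw [e1, e2]
  calc ∑ x : PS P, (∑ g ∈ range K, ind ((QQ (Y x) (L x) g : ℝ) ≤ L x g) *
        (1 + L x g / m g)) * W x
      ≤ ∑ x : PS P, (∑ g ∈ range K, ind ((SQ (Y x) (L x) (b g) g : ℝ) ≤ L x g) *
        (1 + L x g / m g)) * W x := by
        refine Finset.sum_le_sum fun x _ => mul_le_mul_of_nonneg_right ?_ (hW0 x)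
        refine Finset.sum_le_sum fun g hg => ?_
        rw [Finset.mem_range] at hg
        have hm0 : 0 < m g := hN.good.m_pos g hg
        refine mul_le_mul_of_nonneg_right (ind_mono fun hx => le_trans ?_ hx) (by positivity)
        exact_mod_cast su5_QQ (Y x) (L x) (h1 g hg).1
    _ = ∑ g ∈ range K, ∑ x : PS P,
          (ind ((SQ (Y x) (L x) (b g) g : ℝ) ≤ L x g) * (1 + L x g / m g)) * W x := by
        rw [Finset.sum_comm]
        exact Finset.sum_congr rfl fun x _ => Finset.sum_mul _ _ _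
    _ ≤ ∑ g ∈ range K, C6 * Real.sqrt (NN n K) *
        ∑ x : PS P, ind ((SQ (Y x) (L x) (b g) g : ℝ) ≤ L x g) * (1 + L x g / m g) :=
        Finset.sum_le_sum key
    _ = C6 * Real.sqrt (NN n K) * ∑ g ∈ range K,
        ∑ x : PS P, ind ((SQ (Y x) (L x) (b g) g : ℝ) ≤ L x g) * (1 + L x g / m g) := by
        rw [Finset.mul_sum]
    _ ≤ C6 * Real.sqrt (NN n K) *
        (2000000 * C * Real.sqrt (NN n K) * 4 ^ Fintype.card P) :=
        mul_le_mul_of_nonneg_left h4 (by positivity)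
    _ = C6 * (2000000 * C) * (Real.sqrt (NN n K)) ^ 2 * 4 ^ Fintype.card P := by ring
    _ = C6 * (2000000 * C) * NN n K * 4 ^ Fintype.card P := by rw [Real.sq_sqrt hNpos.le]
    _ ≤ C6 * (2000000 * |C| + 1) * NN n K * 4 ^ Fintype.card P := by
        refine mul_le_mul_of_nonneg_right (mul_le_mul_of_nonneg_right ?_ hNpos.le)
          (by positivity)
        refine mul_le_mul_of_nonneg_left ?_ hC6.le
        linarith [le_abs_self C]

end BLO
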