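import Pool.Agent.Lib.BLO.SU1
import Pool.Agent.Lib.BLO.SU2
import Pool.Agent.Lib.BLO.SU3
import Pool.Agent.Lib.BLO.SU4
import Pool.Agent.Lib.BLO.SU5
import Pool.Agent.Lib.BLO.SU6
import Pool.Agent.Lib.BLO.SU7
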