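import Pool.Agent.Lib.BLO.FamWord

/-!
# The rate
-/

namespace BLO

open Finset BLP

variable {P : Type*} [Fintype P] [DecidableEq P]

namespace Fam

/-- rate -/
noncomputable def rt (F : Fam P) (ε : ℝ) (a b : ℕ) : ℝ := 1 / Real.sqrt (F.vr a b) + F.K * ε

end Fam

end BLO
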