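import Pool.Agent.Lib.BLO.W1Defs

/-!
# Chunk RO: roles of the coordinates of a window

Choose a set `S` of `b + d` coordinates with weight in `[1, 2]`; sort the others in decreasing order of
the weights, pairs = consecutive coordinates (positions `2 k`, `2 k + 1`): the sum of the differences telescopes
(`≤ R - 1/R`).  The coordinates of weight `≥ 1` outside `S` are an initial segment of the order, those
of weight in `[1, 2]` an interval: at most one resp. two incomplete pairs.
-/

namespace BLO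

open Finset BLP

/-- telescoping over the pairs -/
theorem RO_tele : ∀ (p : ℕ) (A B : Fin p → ℝ) (R : ℝ), 0 ≤ R → (∀ k, A k ≤ R) → (∀ k, 0 ≤ B k) →
    (∀ k k', k < k' → A k' ≤ B k) → ∑ k, (A k - B k) ≤ R := by
  intro p
  induction p with
  | zero => intro A B R hR _ _ _; simpa using hR
  | succ p ih =>
    intro A B R hR hA hB hAB
    rw [Fin.sum_univ_succ]
    have := ih (fun k => A k.succ) (fun k => B k.succ) (B 0) (hB 0)
      (fun k => hAB 0 k.succ (Fin.succ_pos k)) (fun k => hB _)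
      (fun k k' h => hAB k.succ k'.succ (Fin.succ_lt_succ_iff.2 h))
    have h0 := hA 0
    linarith

/-- the sorted bijection -/
theorem RO_sorted (N b d p : ℕ) (hN : N = b + d + 2 * p) (a : Fin N → ℝ)
    (hL : b + d ≤ (univ.filter fun i => 1 ≤ a i ∧ a i ≤ 2).card) :
    ∃ e : WC (Fin b) (Fin d) (Fin p) ≃ Fin N,
      (∀ i, 1 ≤ a (e (Sum.inl i)) ∧ a (e (Sum.inl i)) ≤ 2) ∧
      (∀ k, a (e (Sum.inr (k, true))) ≤ a (e (Sum.inr (k, false)))) ∧
      (∀ k k', k < k' → a (e (Sum.inr (k', false))) ≤ a (e (Sum.inr (k, true)))) := by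
  classical
  obtain ⟨S, hSL, hS⟩ := Finset.exists_subset_card_eq hL
  have hT : (Sᶜ).card = p * 2 := by
    rw [Finset.card_compl, hS, Fintype.card_fin, hN]; omega
  let eS : (Fin b ⊕ Fin d) ≃ {i // i ∈ S} :=
    finSumFinEquiv.trans (Finset.equivFinOfCardEq hS).symm
  let eT0 : Fin (p * 2) ≃ {i // i ∈ Sᶜ} := (Finset.equivFinOfCardEq hT).symm
  let h : Fin (p * 2) → ℝ := fun i => -a (eT0 i)
  have hmono := Tuple.monotone_sort h
  let eT : Fin (p * 2) ≃ {i // i ∈ Sᶜ} := (Tuple.sort h).trans eT0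
  have hanti : ∀ i j, i ≤ j → a (eT j) ≤ a (eT i) := by
    intro i j hij
    have := hmono hij
    simp only [h, Function.comp] at this
    simpa [eT] using this
  let eP : Fin p × Bool ≃ Fin (p * 2) :=
    ((Equiv.refl (Fin p)).prodCongr finTwoEquiv.symm).trans finProdFinEquiv
  have hePf : ∀ k, (eP (k, false)).val = 2 * k.val := by
    intro k; simp [eP, finProdFinEquiv, finTwoEquiv]
  have hePt : ∀ k, (eP (k, true)).val = 1 + 2 * k.val := by
    intro k; simp [eP, finProdFinEquiv, finTwoEquiv]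
  let eC : {i // i ∈ Sᶜ} ≃ {i // ¬ i ∈ S} := Equiv.subtypeEquivRight (fun i => Finset.mem_compl)
  let e : WC (Fin b) (Fin d) (Fin p) ≃ Fin N :=
    (Equiv.sumCongr eS ((eP.trans eT).trans eC)).trans (Equiv.sumCompl (fun i => i ∈ S))
  have he1 : ∀ i, e (Sum.inl i) = (eS i).val := fun i => rfl
  have he2 : ∀ q, e (Sum.inr q) = (eT (eP q)).val := fun q => rfl
  refine ⟨e, ?_, ?_, ?_⟩
  · intro i
    rw [he1]
    have := hSL (eS i).2
    simpa using this
  · intro k
    rw [he2, he2]
    apply hanti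
    rw [Fin.le_def, hePf, hePt]; omega
  · intro k k' hk
    rw [he2, he2]
    apply hanti
    rw [Fin.le_def, hePf, hePt]
    have : k.val < k'.val := hk
    omega

/-- counting -/
theorem RO_count (N b d p : ℕ) (a : Fin N → ℝ) (e : WC (Fin b) (Fin d) (Fin p) ≃ Fin N)
    (h1 : ∀ k, a (e (Sum.inr (k, true))) ≤ a (e (Sum.inr (k, false))))
    (h2 : ∀ k k', k < k' → a (e (Sum.inr (k', false))) ≤ a (e (Sum.inr (k, true))))
    (P : ℝ → Prop) [DecidablePred P]
    (hP : ∀ x y z, x ≤ y → y ≤ z → P x → P z → P y) :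
    (univ.filter fun i => P (a i)).card ≤
      2 * (univ.filter fun k : Fin p => ∀ s, P (a (e (Sum.inr (k, s))))).card + b + d + 2 := by
  classical
  have e1 : (univ.filter fun i => P (a i)).card =
      (∑ i : Fin b ⊕ Fin d, if P (a (e (Sum.inl i))) then 1 else 0) +
      ∑ k : Fin p, ((if P (a (e (Sum.inr (k, true)))) then 1 else 0) +
        (if P (a (e (Sum.inr (k, false)))) then 1 else 0)) := by
    rw [Finset.card_filter, ← e.sum_comp, Fintype.sum_sum_type, Fintype.sum_prod_type]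
    simp only [Fintype.sum_bool]
  have e2 : (∑ i : Fin b ⊕ Fin d, if P (a (e (Sum.inl i))) then 1 else 0) ≤ b + d := by
    calc (∑ i : Fin b ⊕ Fin d, if P (a (e (Sum.inl i))) then 1 else 0)
        ≤ ∑ i : Fin b ⊕ Fin d, 1 := by
          apply Finset.sum_le_sum; intro i _; split_ifs <;> omega
      _ = b + d := by simp
  have e3 : ∑ k : Fin p, ((if P (a (e (Sum.inr (k, true)))) then 1 else 0) +
        (if P (a (e (Sum.inr (k, false)))) then 1 else 0)) ≤
      2 * (univ.filter fun k : Fin p => ∀ s, P (a (e (Sum.inr (k, s))))).card +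
      (univ.filter fun k : Fin p => P (a (e (Sum.inr (k, true)))) ∧
        ¬ P (a (e (Sum.inr (k, false))))).card +
      (univ.filter fun k : Fin p => ¬ P (a (e (Sum.inr (k, true)))) ∧
        P (a (e (Sum.inr (k, false))))).card := by
    rw [Finset.card_filter, Finset.card_filter, Finset.card_filter, Finset.mul_sum,
      ← Finset.sum_add_distrib, ← Finset.sum_add_distrib]
    apply Finset.sum_le_sum
    intro k _
    by_cases ht : P (a (e (Sum.inr (k, true)))) <;> by_cases hf : P (a (e (Sum.inr (k, false)))) <;>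
      simp [ht, hf]
  have e4 : (univ.filter fun k : Fin p => P (a (e (Sum.inr (k, true)))) ∧
        ¬ P (a (e (Sum.inr (k, false))))).card ≤ 1 := by
    rw [Finset.card_le_one]
    intro k hk k' hk'
    simp only [Finset.mem_filter, Finset.mem_univ, true_and] at hk hk'
    rcases lt_trichotomy k k' with h | h | h
    · exact absurd (hP _ _ _ (h1 k') (h2 k k' h) hk'.1 hk.1) hk'.2
    · exact h
    · exact absurd (hP _ _ _ (h1 k) (h2 k' k h) hk.1 hk'.1) hk.2
  have e5 : (univ.filter fun k : Fin p => ¬ P (a (e (Sum.inr (k, true)))) ∧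
        P (a (e (Sum.inr (k, false))))).card ≤ 1 := by
    rw [Finset.card_le_one]
    intro k hk k' hk'
    simp only [Finset.mem_filter, Finset.mem_univ, true_and] at hk hk'
    rcases lt_trichotomy k k' with h | h | h
    · exact absurd (hP _ _ _ (h2 k k' h) (h1 k) hk'.2 hk.2) hk.1
    · exact h
    · exact absurd (hP _ _ _ (h2 k' k h) (h1 k') hk.2 hk'.2) hk'.1
  omega

theorem exists_roles (N b d p : ℕ) (hN : N = b + d + 2 * p) (a : Fin N → ℝ) (R : ℝ) (hR : 1 ≤ R)
    (ha : ∀ i, R⁻¹ ≤ a i ∧ a i ≤ R)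
    (hL : b + d ≤ (univ.filter fun i => 1 ≤ a i ∧ a i ≤ 2).card) :
    ∃ e : WC (Fin b) (Fin d) (Fin p) ≃ Fin N,
      (∀ i, 1 ≤ a (e (Sum.inl i)) ∧ a (e (Sum.inl i)) ≤ 2) ∧
      (∑ k : Fin p, |a (e (Sum.inr (k, false))) - a (e (Sum.inr (k, true)))| ≤ R) ∧
      (univ.filter fun i => 1 ≤ a i).card ≤
        2 * (univ.filter fun k : Fin p => ∀ s, 1 ≤ a (e (Sum.inr (k, s)))).card + b + d + 2 ∧
      (univ.filter fun i => 1 ≤ a i ∧ a i ≤ 2).card ≤
        2 * (univ.filter fun k : Fin p => ∀ s, 1 ≤ a (e (Sum.inr (k, s))) ∧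
          a (e (Sum.inr (k, s))) ≤ 2).card + b + d + 4 := by
  obtain ⟨e, h0, h1, h2⟩ := RO_sorted N b d p hN a hL
  refine ⟨e, h0, ?_, ?_, ?_⟩
  · have hR0 : (0 : ℝ) ≤ R⁻¹ := by positivity
    have := RO_tele p (fun k => a (e (Sum.inr (k, false)))) (fun k => a (e (Sum.inr (k, true)))) R
      (by linarith) (fun k => (ha _).2) (fun k => hR0.trans (ha _).1) h2
    refine le_trans (le_of_eq ?_) this
    apply Finset.sum_congr rfl
    intro k _
    exact abs_of_nonneg (sub_nonneg.2 (h1 k))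
  · exact RO_count N b d p a e h1 h2 (fun x => 1 ≤ x) (fun x y z hxy _ hx _ => hx.trans hxy)
  · have := RO_count N b d p a e h1 h2 (fun x => 1 ≤ x ∧ x ≤ 2)
      (fun x y z hxy hyz hx hz => ⟨hx.1.trans hxy, hyz.trans hz.2⟩)
    omega

end BLO
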