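import Pool.Agent.Lib.BLO.SUT

/-!
# Chunk SU1

`η = 20 m_q`.  Tools: `cond_sum` (weights not depending on the conditioned blocks), the fields of `Proc`,
`ratio` (`m_q ≤ √n_g m_g`), `SP_append`.  `1/(a b) ≤ (C/σ)(1/a + 1/b)` if `max(a, b) ≥ σ/C`.
-/

namespace BLO

open Finset BLP

theorem su_card_sum {α : Type*} (s : Finset α) (p : α → Prop) [DecidablePred p] :
    ((s.filter p).card : ℝ) = ∑ x ∈ s, ind (p x) := (sum_ind s p).symm

theorem su_card_PS (P : Type*) [Fintype P] [DecidableEq P] :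
    (Fintype.card (PS P) : ℝ) = 4 ^ Fintype.card P := by
  rw [Fintype.card_fun, Fintype.card_prod, Fintype.card_bool]
  push_cast
  norm_num

/-- one contact of type 2 -/
theorem su1_term {C : ℝ} {P : Type*} [Fintype P] [DecidableEq P] {K : ℕ}
    {m n : ℕ → ℝ} {cl : P → ℕ} {Y L : PS P → ℕ → ℕ} (hN : Num C K m n)
    (hp : Proc K m n cl Y L) {q g : ℕ} (hq : q < K) (hg : g < K) :
    ∑ x : PS P, ind (|((Y x g : ℝ)) - QQ (Y x) (L x) g| ≤ 400 * m q ∧
        |((QQ (Y x) (L x) K : ℝ)) - PP (Y x) (L x) g| ≤ 400 * m q) ≤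
      64000000 * m q * (|C| / Real.sqrt (VV m n 0 K)) * 4 ^ Fintype.card P := by
  have hm1 := hN.m1 q hq
  have h4 : (0 : ℝ) < 4 ^ Fintype.card P := by positivity
  rcases hN.h4' hg with ⟨hV, hr⟩ | ⟨hV, hr⟩
  · have h1 := Proc.touchL hp hN hg.le 0 le_rfl (by simpa using hV) (fun _ => 1)
      (fun x => (Y x g : ℝ)) (fun _ => 400 * m q) (fun _ => zero_le_one) (fun _ _ _ => rfl)
      (fun x x' h => by
        show (Y x g : ℝ) = Y x' g
        rw [(hp.loc g hg x x' (fun k hk => h k (by omega))).1])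
      (fun _ _ _ => rfl) (fun _ => by linarith)
    calc ∑ x : PS P, ind (|((Y x g : ℝ)) - QQ (Y x) (L x) g| ≤ 400 * m q ∧
        |((QQ (Y x) (L x) K : ℝ)) - PP (Y x) (L x) g| ≤ 400 * m q)
        ≤ ∑ x : PS P, (1 : ℝ) * ind (|(QQ (Y x) (L x) g : ℝ) - Y x g| ≤ 400 * m q) := by
          refine Finset.sum_le_sum fun x _ => ?_
          rw [one_mul]
          refine ind_mono fun h => ?_
          rw [abs_sub_comm]
          exact h.1
      _ ≤ _ := h1
      _ = 32000000 * m q * (1 / Real.sqrt (VV m n 0 g)) * 4 ^ Fintype.card P := by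
          rw [Finset.sum_const, Finset.card_univ, nsmul_eq_mul, su_card_PS]
          rw [show VV m n 0 g + (0 : ℝ) ^ 2 = VV m n 0 g by ring]
          ring
      _ ≤ 64000000 * m q * (|C| / Real.sqrt (VV m n 0 K)) * 4 ^ Fintype.card P := by
          refine mul_le_mul_of_nonneg_right ?_ h4.le
          have h5 : 0 ≤ |C| / Real.sqrt (VV m n 0 K) := div_nonneg (abs_nonneg _) (Real.sqrt_nonneg _)
          nlinarith [mul_le_mul_of_nonneg_left hr (by linarith : 0 ≤ m q),
            mul_nonneg (by linarith : 0 ≤ m q) h5]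
  · have h1 := Proc.touchR hp hN hg 0 le_rfl (by simpa using hV) (fun _ => 1)
      (fun _ => 400 * m q) (fun _ => zero_le_one) (fun _ _ _ => rfl)
      (fun _ _ _ => rfl) (fun _ => by linarith)
    calc ∑ x : PS P, ind (|((Y x g : ℝ)) - QQ (Y x) (L x) g| ≤ 400 * m q ∧
        |((QQ (Y x) (L x) K : ℝ)) - PP (Y x) (L x) g| ≤ 400 * m q)
        ≤ ∑ x : PS P, (1 : ℝ) *
          ind (|((QQ (Y x) (L x) K : ℝ)) - PP (Y x) (L x) g| ≤ 400 * m q) := by
          refine Finset.sum_le_sum fun x _ => ?_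
          rw [one_mul]
          exact ind_mono fun h => h.2
      _ ≤ _ := h1
      _ = 64000000 * m q * (1 / Real.sqrt (VV m n (g + 1) K)) * 4 ^ Fintype.card P := by
          rw [Finset.sum_const, Finset.card_univ, nsmul_eq_mul, su_card_PS]
          rw [show VV m n (g + 1) K + (0 : ℝ) ^ 2 = VV m n (g + 1) K by ring]
          ring
      _ ≤ 64000000 * m q * (|C| / Real.sqrt (VV m n 0 K)) * 4 ^ Fintype.card P := by
          refine mul_le_mul_of_nonneg_right ?_ h4.le
          exact mul_le_mul_of_nonneg_left hr (by linarith)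

/-- SU1: contacts of type 2.  `P ≤ C (m_q + 1)/√V(0,g)` by `fibQ` for `[0, g)` (`e = Y g` does not depend on it), and
`≤ C (m_q + 1)/√V(g+1,K)` since `Q_K = max (SQ (g+1) K) (QQ (g+1) + SZ (g+1) K)` (`fibQ`, `loz` for `[g+1, K)`); by
`Good.h4` one of them is `≤ C m_q / √V(0,K)`; finally `∑ n_q m_q ≤ √N √V` and `K √N ≤ N`. -/
theorem su1 (C : ℝ) : ∃ C1 : ℝ, 0 < C1 ∧ ∀ (P : Type) [Fintype P] [DecidableEq P] (K : ℕ)
    (m n : ℕ → ℝ) (cl : P → ℕ) (Y L : PS P → ℕ → ℕ), Num C K m n → Proc K m n cl Y L →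
    ∑ q ∈ range K, n q * ∑ x : PS P, (((range K).filter fun g =>
        |((Y x g : ℝ)) - QQ (Y x) (L x) g| ≤ 400 * m q ∧
        |((QQ (Y x) (L x) K : ℝ)) - PP (Y x) (L x) g| ≤ 400 * m q).card : ℝ) ≤
      C1 * NN n K * 4 ^ Fintype.card P := by
  refine ⟨64000000 * |C| + 1, by positivity, ?_⟩
  intro P _ _ K m n cl Y L hN hp
  have h4 : (0 : ℝ) < 4 ^ Fintype.card P := by positivity
  have hVK := hN.VV_pos (a := 0) (b := K) hN.good.hK le_rfl
  have hsV : 0 < Real.sqrt (VV m n 0 K) := Real.sqrt_pos.mpr hVK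
  have hq1 : ∀ q ∈ range K, n q * ∑ x : PS P, (((range K).filter fun g =>
        |((Y x g : ℝ)) - QQ (Y x) (L x) g| ≤ 400 * m q ∧
        |((QQ (Y x) (L x) K : ℝ)) - PP (Y x) (L x) g| ≤ 400 * m q).card : ℝ) ≤
      (n q * m q) * (64000000 * K * (|C| / Real.sqrt (VV m n 0 K)) * 4 ^ Fintype.card P) := by
    intro q hq
    rw [Finset.mem_range] at hq
    have h1 : ∑ x : PS P, (((range K).filter fun g =>
        |((Y x g : ℝ)) - QQ (Y x) (L x) g| ≤ 400 * m q ∧
        |((QQ (Y x) (L x) K : ℝ)) - PP (Y x) (L x) g| ≤ 400 * m q).card : ℝ) ≤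
        K * (64000000 * m q * (|C| / Real.sqrt (VV m n 0 K)) * 4 ^ Fintype.card P) := by
      calc ∑ x : PS P, (((range K).filter fun g =>
          |((Y x g : ℝ)) - QQ (Y x) (L x) g| ≤ 400 * m q ∧
          |((QQ (Y x) (L x) K : ℝ)) - PP (Y x) (L x) g| ≤ 400 * m q).card : ℝ)
          = ∑ x : PS P, ∑ g ∈ range K, ind (|((Y x g : ℝ)) - QQ (Y x) (L x) g| ≤ 400 * m q ∧
            |((QQ (Y x) (L x) K : ℝ)) - PP (Y x) (L x) g| ≤ 400 * m q) :=
            Finset.sum_congr rfl fun x _ => su_card_sum _ _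
        _ = ∑ g ∈ range K, ∑ x : PS P, ind (|((Y x g : ℝ)) - QQ (Y x) (L x) g| ≤ 400 * m q ∧
            |((QQ (Y x) (L x) K : ℝ)) - PP (Y x) (L x) g| ≤ 400 * m q) := Finset.sum_comm
        _ ≤ ∑ g ∈ range K, 64000000 * m q * (|C| / Real.sqrt (VV m n 0 K)) *
            4 ^ Fintype.card P := by
            refine Finset.sum_le_sum fun g hg => ?_
            rw [Finset.mem_range] at hg
            exact su1_term hN hp hq hg
        _ = _ := by
            rw [Finset.sum_const, Finset.card_range, nsmul_eq_mul]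
    calc _ ≤ n q * (K * (64000000 * m q * (|C| / Real.sqrt (VV m n 0 K)) *
        4 ^ Fintype.card P)) := mul_le_mul_of_nonneg_left h1 (hN.n_nonneg hq)
      _ = _ := by ring
  refine (Finset.sum_le_sum hq1).trans ?_
  rw [← Finset.sum_mul]
  have hcs := hN.cs (j := K) le_rfl
  have hK := hN.K_mul
  have hNN := hN.NN_nonneg (j := K) le_rfl
  have h5 : 0 ≤ 64000000 * (K : ℝ) * (|C| / Real.sqrt (VV m n 0 K)) * 4 ^ Fintype.card P := by
    have := div_nonneg (abs_nonneg C) hsV.le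
    positivity
  calc (∑ q ∈ range K, n q * m q) *
      (64000000 * K * (|C| / Real.sqrt (VV m n 0 K)) * 4 ^ Fintype.card P)
      ≤ (Real.sqrt (NN n K) * Real.sqrt (VV m n 0 K)) *
      (64000000 * K * (|C| / Real.sqrt (VV m n 0 K)) * 4 ^ Fintype.card P) :=
        mul_le_mul_of_nonneg_right hcs h5
    _ = 64000000 * |C| * (K * Real.sqrt (NN n K)) * 4 ^ Fintype.card P := by
        field_simp
    _ ≤ 64000000 * |C| * NN n K * 4 ^ Fintype.card P := by
        refine mul_le_mul_of_nonneg_right ?_ h4.le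
        exact mul_le_mul_of_nonneg_left hK (by positivity)
    _ ≤ (64000000 * |C| + 1) * NN n K * 4 ^ Fintype.card P := by
        refine mul_le_mul_of_nonneg_right ?_ h4.le
        linarith [abs_nonneg C]

end BLO
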