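import Pool.Agent.Lib.BLO.Proc

/-!
# Tools for the chunks SU1 - SU4
-/

namespace BLO

open Finset BLP

variable {P : Type*} [Fintype P] [DecidableEq P]

namespace Proc

variable {K : ℕ} {m n : ℕ → ℝ} {cl : P → ℕ} {Y L : PS P → ℕ → ℕ}

/-- the subwords only depend on their blocks -/
theorem sub_congr (hp : Proc K m n cl Y L) {a b : ℕ} (hb : b ≤ K) {x x' : PS P}
    (h : ∀ k, a ≤ cl k → cl k < b → x k = x' k) :
    SP (Y x) (L x) a b = SP (Y x') (L x') a b ∧ SQ (Y x) (L x) a b = SQ (Y x') (L x') a b ∧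
    SZ (Y x) (L x) a b = SZ (Y x') (L x') a b := by
  have h1 : ∀ g, a ≤ g → g < b → Y x g = Y x' g ∧ L x g = L x' g := by
    intro g hag hgb
    exact hp.loc g (by omega) x x' (fun k hk => h k (by omega) (by omega))
  refine ⟨?_, ?_, ?_⟩
  · unfold SP
    exact PP_congr (fun g hg => (h1 (a + g) (by omega) (by omega)).1)
      (fun g hg => (h1 (a + g) (by omega) (by omega)).2)
  · unfold SQ
    exact QQ_congr (fun g hg => (h1 (a + g) (by omega) (by omega)).1)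
      (fun g hg => (h1 (a + g) (by omega) (by omega)).2)
  · unfold SZ
    refine Finset.sum_congr rfl fun g hg => ?_
    rw [Finset.mem_Ico] at hg
    rw [(h1 g hg.1 hg.2).1, (h1 g hg.1 hg.2).2]

end Proc

/-- conditional window bound with centre and radius depending on the outside -/
theorem su_cond (S : Finset P) (W : PS P → ℝ) (B : ℝ → ℝ)
    (hW : ∀ e u : ℝ, 1 ≤ u → ∀ x, ccnt S (fun z => |W z - e| ≤ u) x ≤ B u * 4 ^ S.card)
    (f e u : PS P → ℝ) (hf0 : ∀ x, 0 ≤ f x)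
    (hf : ∀ x x' : PS P, (∀ i, i ∉ S → x i = x' i) → f x = f x')
    (he : ∀ x x' : PS P, (∀ i, i ∉ S → x i = x' i) → e x = e x')
    (hu : ∀ x x' : PS P, (∀ i, i ∉ S → x i = x' i) → u x = u x')
    (hu0 : ∀ x, 1 ≤ u x) :
    ∑ x, f x * ind (|W x - e x| ≤ u x) ≤ ∑ x, f x * B (u x) := by
  have hc : (Fintype.card (Bool × Bool) : ℝ) = 4 := by
    rw [Fintype.card_prod, Fintype.card_bool]
    norm_num
  refine cond_sum S (fun z => |W z - e z| ≤ u z) f (fun x => B (u x)) hf0 hf fun x => ?_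
  rw [hc]
  refine le_trans (le_of_eq ?_) (hW (e x) (u x) (hu0 x) x)
  unfold ccnt
  refine Finset.sum_congr rfl fun z _ => ?_
  by_cases h1 : ∀ i, i ∉ S → z i = x i
  · show ind ((∀ i, i ∉ S → z i = x i) ∧ |W z - e z| ≤ u z) =
      ind ((∀ i, i ∉ S → z i = x i) ∧ |W z - e x| ≤ u x)
    rw [he z x h1, hu z x h1]
  · rw [ind_false fun h => h1 h.1, ind_false fun h => h1 h.1]

theorem ccnt_le_one (S : Finset P) (E : PS P → Prop) (x : PS P) : ccnt S E x ≤ 4 ^ S.card := by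
  have hc : (Fintype.card (Bool × Bool) : ℝ) = 4 := by
    rw [Fintype.card_prod, Fintype.card_bool]
    norm_num
  rw [← hc, ← ccnt_true S x]
  unfold ccnt
  exact Finset.sum_le_sum fun z _ => ind_mono fun h => ⟨h.1, trivial⟩

theorem VV_nonneg {m n : ℕ → ℝ} {a b : ℕ} (h : ∀ g, a ≤ g → g < b → 0 ≤ n g) :
    0 ≤ VV m n a b := by
  unfold VV
  refine Finset.sum_nonneg fun g hg => ?_
  rw [Finset.mem_Ico] at hg
  exact mul_nonneg (sq_nonneg _) (h g hg.1 hg.2)

theorem VV_succ_right (m n : ℕ → ℝ) {a b : ℕ} (h : a ≤ b) :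
    VV m n a (b + 1) = VV m n a b + m b ^ 2 * n b := by
  unfold VV
  rw [Finset.sum_Ico_succ_top h]

theorem VV_succ_left (m n : ℕ → ℝ) {a b : ℕ} (h : a < b) :
    VV m n a b = VV m n (a + 1) b + m a ^ 2 * n a := by
  unfold VV
  rw [Finset.sum_eq_sum_Ico_succ_bot h]
  ring

/-- the basic rate, with an additional free block of standard deviation `v` -/
theorem su_rate {V v u r : ℝ} (hV : 0 ≤ V) (hv : 0 ≤ v) (hu : 1 ≤ u) (hVv : 0 < V + v ^ 2)
    (h1 : r ≤ 1) (h2 : 0 < V → r ≤ 20000 * (u + 1) / Real.sqrt V) :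
    r ≤ 80000 * (u + v) / Real.sqrt (V + v ^ 2) := by
  have hs : 0 < Real.sqrt (V + v ^ 2) := Real.sqrt_pos.mpr hVv
  by_cases h : v ^ 2 ≤ V
  · have hV0 : 0 < V := by
      by_contra hc
      have : V = 0 := le_antisymm (not_lt.mp hc) hV
      nlinarith [sq_nonneg v]
    have hs2 : Real.sqrt (V + v ^ 2) ≤ 2 * Real.sqrt V := by
      rw [show (2 : ℝ) * Real.sqrt V = Real.sqrt (4 * V) by
        rw [Real.sqrt_mul (by norm_num), show (4 : ℝ) = 2 ^ 2 by norm_num,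
          Real.sqrt_sq (by norm_num)]]
      exact Real.sqrt_le_sqrt (by linarith)
    have hsV : 0 < Real.sqrt V := Real.sqrt_pos.mpr hV0
    refine (h2 hV0).trans ?_
    rw [div_le_div_iff₀ hsV hs]
    nlinarith [mul_nonneg hv hsV.le, mul_le_mul_of_nonneg_left hs2 (by linarith : 0 ≤ u + 1),
      mul_nonneg (by linarith : (0:ℝ) ≤ u - 1) hsV.le]
  · push Not at h
    have hs2 : Real.sqrt (V + v ^ 2) ≤ 2 * v := by
      rw [show (2 : ℝ) * v = Real.sqrt ((2 * v) ^ 2) by rw [Real.sqrt_sq (by linarith)]]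
      exact Real.sqrt_le_sqrt (by nlinarith)
    refine h1.trans ?_
    rw [le_div_iff₀ hs]
    linarith

namespace Num

variable {C : ℝ} {K : ℕ} {m n : ℕ → ℝ}

theorem n_nonneg (hN : Num C K m n) {g : ℕ} (hg : g < K) : 0 ≤ n g := (hN.good.n_pos g hg).le
theorem m_nonneg (hN : Num C K m n) {g : ℕ} (hg : g < K) : 0 ≤ m g := (hN.good.m_pos g hg).le

theorem VV_nonneg (hN : Num C K m n) {a b : ℕ} (hb : b ≤ K) : 0 ≤ VV m n a b :=
  BLO.VV_nonneg fun g _ hg => hN.n_nonneg (lt_of_lt_of_le hg hb)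

theorem VV_pos (hN : Num C K m n) {a b : ℕ} (hab : a < b) (hb : b ≤ K) : 0 < VV m n a b := by
  unfold VV
  refine Finset.sum_pos (fun _ hg => ?_) ⟨a, Finset.mem_Ico.mpr ⟨le_rfl, hab⟩⟩
  rw [Finset.mem_Ico] at hg
  have h1 := hN.good.n_pos _ (lt_of_lt_of_le hg.2 hb)
  have h2 := hN.good.m_pos _ (lt_of_lt_of_le hg.2 hb)
  positivity

theorem NN_nonneg (hN : Num C K m n) {j : ℕ} (hj : j ≤ K) : 0 ≤ NN n j := by
  unfold NN
  refine Finset.sum_nonneg fun g hg => ?_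
  rw [Finset.mem_range] at hg
  exact hN.n_nonneg (by omega)

/-- `∑_{q < j} n_q m_q ≤ √N √V(0,j)` -/
theorem cs (hN : Num C K m n) {j : ℕ} (hj : j ≤ K) :
    ∑ q ∈ range j, n q * m q ≤ Real.sqrt (NN n K) * Real.sqrt (VV m n 0 j) := by
  have h := Real.sum_mul_le_sqrt_mul_sqrt (range j) (fun q => Real.sqrt (n q))
    (fun q => Real.sqrt (n q) * m q)
  have h1 : ∑ q ∈ range j, Real.sqrt (n q) * (Real.sqrt (n q) * m q) =
      ∑ q ∈ range j, n q * m q := by
    refine Finset.sum_congr rfl fun q hq => ?_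
    rw [Finset.mem_range] at hq
    rw [← mul_assoc, Real.mul_self_sqrt (hN.n_nonneg (by omega))]
  have h2 : ∑ q ∈ range j, Real.sqrt (n q) ^ 2 ≤ NN n K := by
    unfold NN
    calc ∑ q ∈ range j, Real.sqrt (n q) ^ 2 = ∑ q ∈ range j, n q := by
          refine Finset.sum_congr rfl fun q hq => ?_
          rw [Finset.mem_range] at hq
          rw [Real.sq_sqrt (hN.n_nonneg (by omega))]
      _ ≤ ∑ q ∈ range K, n q := by
          refine Finset.sum_le_sum_of_subset_of_nonneg (Finset.range_mono hj) fun q hq _ => ?_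
          rw [Finset.mem_range] at hq
          exact hN.n_nonneg hq
  have h3 : ∑ q ∈ range j, (Real.sqrt (n q) * m q) ^ 2 = VV m n 0 j := by
    unfold VV
    rw [Finset.range_eq_Ico]
    refine Finset.sum_congr rfl fun q hq => ?_
    rw [Finset.mem_Ico] at hq
    rw [mul_pow, Real.sq_sqrt (hN.n_nonneg (by omega))]
    ring
  rw [h1, h3] at h
  exact h.trans (mul_le_mul_of_nonneg_right (Real.sqrt_le_sqrt h2) (Real.sqrt_nonneg _))

theorem K_le (hN : Num C K m n) : (K : ℝ) ≤ Real.sqrt (NN n K) := by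
  have := Real.sqrt_le_sqrt hN.K2
  rwa [Real.sqrt_sq (Nat.cast_nonneg _)] at this

theorem K_mul (hN : Num C K m n) : (K : ℝ) * Real.sqrt (NN n K) ≤ NN n K := by
  have h1 := hN.K_le
  have h2 := Real.mul_self_sqrt (hN.NN_nonneg le_rfl)
  nlinarith [Real.sqrt_nonneg (NN n K)]

theorem C_sqrt_nonneg (hN : Num C K m n) : 0 ≤ C * Real.sqrt (NN n K) := by
  refine le_trans (Finset.sum_nonneg fun g hg => ?_) hN.good.h2
  rw [Finset.mem_range] at hg
  exact div_nonneg (mul_nonneg (hN.n_nonneg hg) (hN.m_nonneg hg)) (Real.sqrt_nonneg _)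

theorem sq_vv (hN : Num C K m n) {g : ℕ} (hg : g < K) :
    (m g * Real.sqrt (n g)) ^ 2 = m g ^ 2 * n g := by
  rw [mul_pow, Real.sq_sqrt (hN.n_nonneg hg)]

/-- one of the two sides of a block is large -/
theorem h4' (hN : Num C K m n) {g : ℕ} (hg : g < K) :
    (0 < VV m n 0 g ∧ 1 / Real.sqrt (VV m n 0 g) ≤ |C| / Real.sqrt (VV m n 0 K)) ∨
    (0 < VV m n (g + 1) K ∧ 1 / Real.sqrt (VV m n (g + 1) K) ≤ |C| / Real.sqrt (VV m n 0 K)) := by
  have hK := hN.VV_pos (a := 0) (b := K) (by omega) le_rfl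
  have h := hN.good.h4 g hg
  have key : ∀ V : ℝ, 0 ≤ V → VV m n 0 K ≤ C ^ 2 * V →
      0 < V ∧ 1 / Real.sqrt V ≤ |C| / Real.sqrt (VV m n 0 K) := by
    intro V hV0 hV
    have hVpos : 0 < V := by
      by_contra hc
      have : V = 0 := le_antisymm (not_lt.mp hc) hV0
      rw [this, mul_zero] at hV
      linarith
    refine ⟨hVpos, ?_⟩
    have hs : Real.sqrt (VV m n 0 K) ≤ |C| * Real.sqrt V := by
      have := Real.sqrt_le_sqrt hV
      rwa [Real.sqrt_mul (sq_nonneg _), Real.sqrt_sq_eq_abs] at this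
    rw [div_le_div_iff₀ (Real.sqrt_pos.mpr hVpos) (Real.sqrt_pos.mpr hK), one_mul]
    exact hs
  rcases le_total (VV m n 0 g) (VV m n (g + 1) K) with h1 | h1
  · rw [max_eq_right h1] at h
    exact Or.inr (key _ (hN.VV_nonneg le_rfl) h)
  · rw [max_eq_left h1] at h
    exact Or.inl (key _ (hN.VV_nonneg hg.le) h)

end Num

namespace Proc

variable {C : ℝ} {K : ℕ} {m n : ℕ → ℝ} {cl : P → ℕ} {Y L : PS P → ℕ → ℕ}

/-- conditional window bound for a statistic of a subword -/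
theorem win (hN : Num C K m n) (W : PS P → ℝ) {a b : ℕ} (hab : a ≤ b) (hb : b ≤ K)
    (hW : a < b → ∀ e u : ℝ, 0 ≤ u → ∀ x,
      ccnt (sg2 cl a b) (fun z => |W z - e| ≤ u) x ≤
      20000 * (u + 1) / Real.sqrt (VV m n a b) * 4 ^ (sg2 cl a b).card)
    (v : ℝ) (hv : 0 ≤ v) (hVv : 0 < VV m n a b + v ^ 2)
    (f e u : PS P → ℝ) (hf0 : ∀ x, 0 ≤ f x)
    (hf : ∀ x x' : PS P, (∀ i, i ∉ sg2 cl a b → x i = x' i) → f x = f x')
    (he : ∀ x x' : PS P, (∀ i, i ∉ sg2 cl a b → x i = x' i) → e x = e x')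
    (hu : ∀ x x' : PS P, (∀ i, i ∉ sg2 cl a b → x i = x' i) → u x = u x')
    (hu0 : ∀ x, 1 ≤ u x) :
    ∑ x, f x * ind (|W x - e x| ≤ u x) ≤
      ∑ x, f x * (80000 * (u x + v) / Real.sqrt (VV m n a b + v ^ 2)) := by
  refine su_cond (sg2 cl a b) W (fun u => 80000 * (u + v) / Real.sqrt (VV m n a b + v ^ 2))
    ?_ f e u hf0 hf he hu hu0
  intro e u hu1 x
  have h4 : (0 : ℝ) < 4 ^ (sg2 cl a b).card := by positivity
  have := su_rate (V := VV m n a b) (v := v) (u := u)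
    (r := ccnt (sg2 cl a b) (fun z => |W z - e| ≤ u) x / 4 ^ (sg2 cl a b).card)
    (hN.VV_nonneg hb) hv hu1 hVv ?_ ?_
  · rwa [div_le_iff₀ h4] at this
  · rw [div_le_one h4]
    exact ccnt_le_one _ _ _
  · intro hV
    rw [div_le_iff₀ h4]
    refine hW ?_ e u (by linarith) x
    rcases Nat.lt_or_ge a b with h | h
    · exact h
    · exfalso
      unfold VV at hV
      rw [Finset.Ico_eq_empty (by omega), Finset.sum_empty] at hV
      exact lt_irrefl _ hV

/-- `QQ K` in terms of the subword after block `g` -/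
theorem qqK (hp : Proc K m n cl Y L) {g : ℕ} (hg : g < K) (x : PS P) :
    (QQ (Y x) (L x) K : ℝ) = SQ (Y x) (L x) (g + 1) K ∨
    (QQ (Y x) (L x) K : ℝ) = SZ (Y x) (L x) (g + 1) K + QQ (Y x) (L x) (g + 1) := by
  have h1 := (SP_append (Y x) (L x) (a := 0) (b := g + 1) (c := K) (by omega) (by omega)).2
  have h2 := SQ_sub_SP (Y x) (L x) (hp.yl x) (a := g + 1) (b := K) (by omega)
  rw [SQ_zero, SQ_zero] at h1
  rcases le_total (QQ (Y x) (L x) (g + 1)) (SP (Y x) (L x) (g + 1) K) with h | h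
  · left
    rw [h1, Nat.sub_eq_zero_of_le h, Nat.add_zero]
  · right
    have h3 : (QQ (Y x) (L x) K : ℤ) =
        SZ (Y x) (L x) (g + 1) K + QQ (Y x) (L x) (g + 1) := by
      rw [h1, ← h2]
      push_cast [Nat.cast_sub h]
      ring
    exact_mod_cast h3

/-- the target `QQ K` is near `PP g`: the blocks after `g` are free -/
theorem touchR (hp : Proc K m n cl Y L) (hN : Num C K m n) {g : ℕ} (hg : g < K)
    (v : ℝ) (hv : 0 ≤ v) (hVv : 0 < VV m n (g + 1) K + v ^ 2)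
    (f u : PS P → ℝ) (hf0 : ∀ x, 0 ≤ f x)
    (hf : ∀ x x' : PS P, (∀ i, cl i ≤ g → x i = x' i) → f x = f x')
    (hu : ∀ x x' : PS P, (∀ i, cl i ≤ g → x i = x' i) → u x = u x')
    (hu0 : ∀ x, 1 ≤ u x) :
    ∑ x, f x * ind (|(QQ (Y x) (L x) K : ℝ) - PP (Y x) (L x) g| ≤ u x) ≤
      2 * ∑ x, f x * (80000 * (u x + v) / Real.sqrt (VV m n (g + 1) K + v ^ 2)) := by
  have hS : ∀ x x' : PS P, (∀ i, i ∉ sg2 cl (g + 1) K → x i = x' i) →
      ∀ i, cl i ≤ g → x i = x' i := by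
    intro x x' h i hi
    refine h i ?_
    simp only [sg2, Finset.mem_filter, Finset.mem_univ, true_and]
    omega
  have hPP : ∀ x x' : PS P, (∀ i, cl i ≤ g → x i = x' i) →
      (PP (Y x) (L x) g : ℝ) = PP (Y x') (L x') g := by
    intro x x' h
    have := (hp.sub_congr (a := 0) (b := g) hg.le (x := x) (x' := x')
      (fun k _ hk => h k (by omega))).1
    rw [SP_zero, SP_zero] at this
    rw [this]
  have hQQ : ∀ x x' : PS P, (∀ i, cl i ≤ g → x i = x' i) →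
      (QQ (Y x) (L x) (g + 1) : ℝ) = QQ (Y x') (L x') (g + 1) := by
    intro x x' h
    have := (hp.sub_congr (a := 0) (b := g + 1) hg (x := x) (x' := x')
      (fun k _ hk => h k (by omega))).2.1
    rw [SQ_zero, SQ_zero] at this
    rw [this]
  have h1 := win hN (cl := cl) (fun x => (SQ (Y x) (L x) (g + 1) K : ℝ)) (a := g + 1) (b := K)
    (by omega) le_rfl (fun h e u hu x => hp.fibQ (g + 1) K h le_rfl e u hu x) v hv hVv f
    (fun x => (PP (Y x) (L x) g : ℝ)) u hf0 (fun x x' h => hf x x' (hS x x' h))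
    (fun x x' h => hPP x x' (hS x x' h)) (fun x x' h => hu x x' (hS x x' h)) hu0
  have h2 := win hN (cl := cl) (fun x => (SZ (Y x) (L x) (g + 1) K : ℝ)) (a := g + 1) (b := K)
    (by omega) le_rfl (fun h e u hu x => hp.loz (g + 1) K h le_rfl e u hu x) v hv hVv f
    (fun x => (PP (Y x) (L x) g : ℝ) - QQ (Y x) (L x) (g + 1)) u hf0
    (fun x x' h => hf x x' (hS x x' h))
    (fun x x' h => by
      show (PP (Y x) (L x) g : ℝ) - QQ (Y x) (L x) (g + 1) =
        (PP (Y x') (L x') g : ℝ) - QQ (Y x') (L x') (g + 1)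
      rw [hPP x x' (hS x x' h), hQQ x x' (hS x x' h)])
    (fun x x' h => hu x x' (hS x x' h)) hu0
  have h3 : ∀ x : PS P, f x * ind (|(QQ (Y x) (L x) K : ℝ) - PP (Y x) (L x) g| ≤ u x) ≤
      f x * ind (|(SQ (Y x) (L x) (g + 1) K : ℝ) - PP (Y x) (L x) g| ≤ u x) +
      f x * ind (|(SZ (Y x) (L x) (g + 1) K : ℝ) - ((PP (Y x) (L x) g : ℝ) -
        QQ (Y x) (L x) (g + 1))| ≤ u x) := by
    intro x
    rw [← mul_add]
    refine mul_le_mul_of_nonneg_left ?_ (hf0 x)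
    refine le_trans (ind_mono fun h => ?_) (ind_or_le _ _)
    rcases hp.qqK hg x with h4 | h4
    · left
      rw [← h4]
      exact h
    · right
      rw [h4] at h
      rw [show (SZ (Y x) (L x) (g + 1) K : ℝ) - ((PP (Y x) (L x) g : ℝ) -
        QQ (Y x) (L x) (g + 1)) = SZ (Y x) (L x) (g + 1) K + QQ (Y x) (L x) (g + 1) -
        PP (Y x) (L x) g by ring]
      exact h
  calc ∑ x, f x * ind (|(QQ (Y x) (L x) K : ℝ) - PP (Y x) (L x) g| ≤ u x)
      ≤ ∑ x, (f x * ind (|(SQ (Y x) (L x) (g + 1) K : ℝ) - PP (Y x) (L x) g| ≤ u x) +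
        f x * ind (|(SZ (Y x) (L x) (g + 1) K : ℝ) - ((PP (Y x) (L x) g : ℝ) -
        QQ (Y x) (L x) (g + 1))| ≤ u x)) := Finset.sum_le_sum fun x _ => h3 x
    _ ≤ _ := by
        rw [Finset.sum_add_distrib]
        linarith

/-- the prefix before block `g` is free -/
theorem touchL (hp : Proc K m n cl Y L) (hN : Num C K m n) {b : ℕ} (hb : b ≤ K)
    (v : ℝ) (hv : 0 ≤ v) (hVv : 0 < VV m n 0 b + v ^ 2)
    (f e u : PS P → ℝ) (hf0 : ∀ x, 0 ≤ f x)
    (hf : ∀ x x' : PS P, (∀ i, b ≤ cl i → x i = x' i) → f x = f x')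
    (he : ∀ x x' : PS P, (∀ i, b ≤ cl i → x i = x' i) → e x = e x')
    (hu : ∀ x x' : PS P, (∀ i, b ≤ cl i → x i = x' i) → u x = u x')
    (hu0 : ∀ x, 1 ≤ u x) :
    ∑ x, f x * ind (|(QQ (Y x) (L x) b : ℝ) - e x| ≤ u x) ≤
      ∑ x, f x * (80000 * (u x + v) / Real.sqrt (VV m n 0 b + v ^ 2)) := by
  have hS : ∀ x x' : PS P, (∀ i, i ∉ sg2 cl 0 b → x i = x' i) →
      ∀ i, b ≤ cl i → x i = x' i := by
    intro x x' h i hi
    refine h i ?_
    simp only [sg2, Finset.mem_filter, Finset.mem_univ, true_and]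
    omega
  have h1 := win hN (cl := cl) (fun x => (SQ (Y x) (L x) 0 b : ℝ)) (a := 0) (b := b)
    (by omega) hb (fun h e u hu x => hp.fibQ 0 b h hb e u hu x) v hv hVv f e u hf0
    (fun x x' h => hf x x' (hS x x' h)) (fun x x' h => he x x' (hS x x' h))
    (fun x x' h => hu x x' (hS x x' h)) hu0
  refine le_trans (le_of_eq ?_) h1
  refine Finset.sum_congr rfl fun x _ => ?_
  rw [SQ_zero]

/-- moments of the radii -/
theorem mom2 (hp : Proc K m n cl Y L) (hN : Num C K m n) {q g : ℕ} (hq : q < K) (hg : g < K) :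
    ∑ x : PS P, ((L x g : ℝ) + 400 * m q + m g * Real.sqrt (n g)) ^ 2 ≤
      500000 * (m g ^ 2 * n g) * 4 ^ Fintype.card P := by
  have hc : (Fintype.card (PS P) : ℝ) = 4 ^ Fintype.card P := by
    rw [Fintype.card_fun, Fintype.card_prod, Fintype.card_bool]
    push_cast
    norm_num
  have hr := hN.ratio q hq g hg
  have hv := hN.sq_vv hg
  have h1 : ∀ x : PS P, ((L x g : ℝ) + 400 * m q + m g * Real.sqrt (n g)) ^ 2 ≤
      3 * (L x g : ℝ) ^ 2 + 480003 * (m g ^ 2 * n g) := by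
    intro x
    set v := m g * Real.sqrt (n g)
    have hr' : m q ^ 2 ≤ v ^ 2 := by rw [hv]; linarith
    rw [← hv]
    nlinarith [sq_nonneg ((L x g : ℝ) - 400 * m q), sq_nonneg ((L x g : ℝ) - v),
      sq_nonneg (400 * m q - v)]
  calc ∑ x : PS P, ((L x g : ℝ) + 400 * m q + m g * Real.sqrt (n g)) ^ 2
      ≤ ∑ x : PS P, (3 * (L x g : ℝ) ^ 2 + 480003 * (m g ^ 2 * n g)) :=
        Finset.sum_le_sum fun x _ => h1 x
    _ = 3 * ∑ x : PS P, (L x g : ℝ) ^ 2 + 480003 * (m g ^ 2 * n g) * 4 ^ Fintype.card P := by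
        rw [Finset.sum_add_distrib, ← Finset.mul_sum, Finset.sum_const, Finset.card_univ,
          nsmul_eq_mul, hc]
        ring
    _ ≤ 3 * (12 * m g ^ 2 * n g * 4 ^ Fintype.card P) +
        480003 * (m g ^ 2 * n g) * 4 ^ Fintype.card P := by
        have := hp.mom g hg
        linarith
    _ ≤ 500000 * (m g ^ 2 * n g) * 4 ^ Fintype.card P := by
        have h5 : 0 ≤ m g ^ 2 * n g * 4 ^ Fintype.card P :=
          mul_nonneg (mul_nonneg (sq_nonneg _) (hN.n_nonneg hg)) (by positivity)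
        nlinarith

end Proc

end BLO
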