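import Pool.Agent.Lib.BLP.Conc1
import Pool.Agent.Lib.BLO.NL

/-!
# Chunk S1A: product of small ball bounds (section 1 of `PROOF.md`)

Sets `V 0, …, V (r-1)` of coordinates, disjoint, `δ j ≤ |a i|` for `i ∈ V j`, and the total weight of the later sets
plus `v` is at most `δ j`.  Then `P(|S - c| ≤ v) ≤ ∏ 2/√|V j|`.

Proof: induction on `r` (for all `a`, `c`; first set split off with `Fin.prod_univ_succ`).  Let `U` be the union
of the sets `V q`, `q > 0`.  `|S - c| ≤ v` implies `E0`: `|S_{Uᶜ} - c| ≤ v + ∑_U |a| ≤ δ 0`, which does not depend on the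
coordinates in `U`.  For fixed coordinates off `U` the induction hypothesis for the weights `a 1_U` and the
centre `c - S_{Uᶜ}` applies (`S1A_cond`, `cond_sum`), and `P(E0) ≤ 2/√|V 0|` by `BLP.lin_window`.
-/

namespace BLO

open Finset BLP

/-- An event that depends on the coordinates in `S` only. -/
theorem S1A_ccnt_indep {ι : Type*} [Fintype ι] [DecidableEq ι] (S : Finset ι) (E : (ι → Bool) → Prop)
    (hE : ∀ z z' : ι → Bool, (∀ i ∈ S, z i = z' i) → (E z ↔ E z')) (x x' : ι → Bool) :
    ccnt S E x = ccnt S E x' := by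
  unfold ccnt
  have inv : ∀ z : ι → Bool, (fun i => if i ∈ S then (if i ∈ S then z i else (z i ^^ (x i ^^ x' i)))
      else ((if i ∈ S then z i else (z i ^^ (x i ^^ x' i))) ^^ (x i ^^ x' i))) = z := by
    intro z
    funext i
    by_cases hi : i ∈ S
    · simp [hi]
    · simp only [hi, if_false]
      cases z i <;> cases x i <;> cases x' i <;> rfl
  refine Finset.sum_nbij' (fun z i => if i ∈ S then z i else (z i ^^ (x i ^^ x' i)))
    (fun z i => if i ∈ S then z i else (z i ^^ (x i ^^ x' i))) (fun _ _ => Finset.mem_univ _)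
    (fun _ _ => Finset.mem_univ _) (fun z _ => inv z) (fun z _ => inv z) ?_
  intro z _
  refine ind_congr ?_
  have h1 : E z ↔ E (fun i => if i ∈ S then z i else (z i ^^ (x i ^^ x' i))) :=
    hE _ _ (fun i hi => by simp [hi])
  rw [← h1]
  refine and_congr_left (fun _ => ?_)
  constructor
  · intro h i hi
    simp only [if_neg hi]
    rw [h i hi]
    cases x i <;> cases x' i <;> rfl
  · intro h i hi
    have := h i hi
    simp only [if_neg hi] at this
    revert this
    cases z i <;> cases x i <;> cases x' i <;> simp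

/-- The conditional count of an event that depends on the coordinates in `S` only. -/
theorem S1A_ccnt_eq {ι : Type*} [Fintype ι] [DecidableEq ι] (S : Finset ι) (E : (ι → Bool) → Prop)
    (hE : ∀ z z' : ι → Bool, (∀ i ∈ S, z i = z' i) → (E z ↔ E z')) (x : ι → Bool) :
    ccnt S E x * 2 ^ Fintype.card ι = (∑ z, ind (E z)) * 2 ^ S.card := by
  have h1 := cpr_total S E
  have h2 : ∀ y, cpr S E y = ccnt S E x / 2 ^ S.card := fun y => by
    unfold cpr
    rw [S1A_ccnt_indep S E hE y x]
  simp only [h2, Finset.sum_const, Finset.card_univ, nsmul_eq_mul, nl_card] at h1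
  rw [← h1]
  field_simp

/-- Splitting a linear form. -/
theorem S1A_lin_split {ι : Type*} [Fintype ι] [DecidableEq ι] (S : Finset ι) (a : ι → ℝ) (x : ι → Bool) :
    lin a x = lin (fun i => if i ∈ S then a i else 0) x + lin (fun i => if i ∈ S then 0 else a i) x := by
  unfold lin
  rw [← Finset.sum_add_distrib]
  refine Finset.sum_congr rfl fun i _ => ?_
  by_cases hi : i ∈ S <;> simp [hi]

/-- Conditional small ball bound from the bound for the weights in `S` and all centres. -/
theorem S1A_cond {ι : Type*} [Fintype ι] [DecidableEq ι] (S : Finset ι) (a : ι → ℝ) (v q : ℝ)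
    (h : ∀ c : ℝ, ∑ z : ι → Bool, ind (|lin (fun i => if i ∈ S then a i else 0) z - c| ≤ v) ≤
      2 ^ Fintype.card ι * q) (c : ℝ) (x : ι → Bool) :
    ccnt S (fun z => |lin a z - c| ≤ v) x ≤ q * 2 ^ S.card := by
  set c' : ℝ := c - lin (fun i => if i ∈ S then 0 else a i) x with hc'
  have h1 : ccnt S (fun z => |lin a z - c| ≤ v) x =
      ccnt S (fun z => |lin (fun i => if i ∈ S then a i else 0) z - c'| ≤ v) x := by
    unfold ccnt
    refine Finset.sum_congr rfl fun z _ => ind_congr ?_
    refine and_congr_right fun hz => ?_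
    have h2 : lin (fun i => if i ∈ S then 0 else a i) z = lin (fun i => if i ∈ S then 0 else a i) x := by
      unfold lin
      refine Finset.sum_congr rfl fun i _ => ?_
      by_cases hi : i ∈ S
      · simp [hi]
      · rw [hz i hi]
    have h3 : lin a z - c = lin (fun i => if i ∈ S then a i else 0) z - c' := by
      rw [S1A_lin_split S a z, h2, hc']
      ring
    show |lin a z - c| ≤ v ↔ |lin (fun i => if i ∈ S then a i else 0) z - c'| ≤ v
    rw [h3]
  have h2 := S1A_ccnt_eq S (fun z => |lin (fun i => if i ∈ S then a i else 0) z - c'| ≤ v) (by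
    intro z z' hz
    have : lin (fun i => if i ∈ S then a i else 0) z = lin (fun i => if i ∈ S then a i else 0) z' := by
      unfold lin
      refine Finset.sum_congr rfl fun i _ => ?_
      by_cases hi : i ∈ S
      · rw [hz i hi]
      · simp [hi]
    simp only [this]) x
  have h3 := h c'
  rw [h1]
  have hp : (0 : ℝ) < 2 ^ Fintype.card ι := by positivity
  refine le_of_mul_le_mul_right ?_ hp
  rw [h2]
  have hs : (0 : ℝ) ≤ 2 ^ S.card := by positivity
  calc (∑ z, ind (|lin (fun i => if i ∈ S then a i else 0) z - c'| ≤ v)) * 2 ^ S.card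
      ≤ (2 ^ Fintype.card ι * q) * 2 ^ S.card := mul_le_mul_of_nonneg_right h3 hs
    _ = q * 2 ^ S.card * 2 ^ Fintype.card ι := by ring

theorem S1A_lin_abs {ι : Type*} [Fintype ι] [DecidableEq ι] (S : Finset ι) (a : ι → ℝ) (x : ι → Bool) :
    |lin (fun i => if i ∈ S then a i else 0) x| ≤ ∑ i ∈ S, |a i| := by
  unfold lin
  refine (Finset.abs_sum_le_sum_abs _ _).trans ?_
  rw [← Finset.sum_filter_add_sum_filter_not univ (fun i => i ∈ S)]
  have h1 : ∑ i ∈ univ.filter (fun i => ¬ i ∈ S), |(if i ∈ S then a i else 0) * sg (x i)| = 0 := by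
    refine Finset.sum_eq_zero fun i hi => ?_
    rw [Finset.mem_filter] at hi
    simp [hi.2]
  rw [h1, add_zero, Finset.filter_mem_eq_inter, Finset.univ_inter]
  refine Finset.sum_le_sum fun i hi => ?_
  simp only [if_pos hi]
  rw [abs_mul]
  have : |sg (x i)| = 1 := by
    unfold sg
    cases x i <;> simp
  rw [this, mul_one]

theorem prod_window {n : ℕ} : ∀ (r : ℕ) (a : Fin n → ℝ) (V : Fin r → Finset (Fin n)) (δ : Fin r → ℝ)
    (v : ℝ), 0 ≤ v → (∀ j, (V j).Nonempty) → (∀ j, 0 < δ j) →
    (∀ j q, j ≠ q → Disjoint (V j) (V q)) → (∀ j, ∀ i ∈ V j, δ j ≤ |a i|) →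
    (∀ j, ∑ q ∈ univ.filter (fun q => j < q), ∑ i ∈ V q, |a i| + v ≤ δ j) → ∀ c : ℝ,
    ∑ x : Fin n → Bool, ind (|lin a x - c| ≤ v) ≤ 2 ^ n * ∏ j, (2 / Real.sqrt (V j).card) := by
  classical
  intro r
  induction r with
  | zero =>
    intro a V δ v hv _ _ _ _ _ c
    simp only [Finset.univ_eq_empty, Finset.prod_empty, mul_one]
    calc ∑ x : Fin n → Bool, ind (|lin a x - c| ≤ v) ≤ ∑ x : Fin n → Bool, (1 : ℝ) :=
          Finset.sum_le_sum fun x _ => ind_le_one _
      _ = 2 ^ n := by simp
  | succ r ih =>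
    intro a V δ v hv hne hδ hdis hδa hsum c
    set U : Finset (Fin n) := univ.biUnion (fun q : Fin r => V q.succ) with hU
    set b : Fin n → ℝ := fun i => if i ∈ U then a i else 0 with hb
    have hVU : ∀ q : Fin r, V q.succ ⊆ U := fun q => Finset.subset_biUnion_of_mem (fun q : Fin r => V q.succ)
      (Finset.mem_univ q)
    have hfil : ∀ (j : Fin r) (g : Fin (r + 1) → ℝ), ∑ q ∈ univ.filter (fun q => j.succ < q), g q =
        ∑ q ∈ univ.filter (fun q => j < q), g q.succ := by
      intro j g
      rw [Finset.sum_filter, Finset.sum_filter, Fin.sum_univ_succ]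
      simp [Fin.succ_lt_succ_iff]
    have hfil0 : ∀ (g : Fin (r + 1) → ℝ), ∑ q ∈ univ.filter (fun q => (0 : Fin (r + 1)) < q), g q =
        ∑ q : Fin r, g q.succ := by
      intro g
      rw [Finset.sum_filter, Fin.sum_univ_succ]
      simp
    have ih1 : ∀ c' : ℝ, ∑ x : Fin n → Bool, ind (|lin b x - c'| ≤ v) ≤
        2 ^ n * ∏ j : Fin r, (2 / Real.sqrt (V j.succ).card) := by
      refine ih b (fun j => V j.succ) (fun j => δ j.succ) v hv (fun j => hne _) (fun j => hδ _)
        (fun j q hjq => hdis _ _ (fun h => hjq (Fin.succ_injective _ h))) ?_ ?_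
      · intro j i hi
        simp only [hb]
        rw [if_pos (hVU j hi)]
        exact hδa _ i hi
      · intro j
        have h1 := hsum j.succ
        rw [hfil j (fun q => ∑ i ∈ V q, |a i|)] at h1
        refine le_trans (le_of_eq ?_) h1
        congr 1
        refine Finset.sum_congr rfl fun q _ => Finset.sum_congr rfl fun i hi => ?_
        simp only [hb]
        rw [if_pos (hVU q hi)]
    have hUsum : ∑ i ∈ U, |a i| ≤ ∑ q : Fin r, ∑ i ∈ V q.succ, |a i| := by
      rw [hU, Finset.sum_biUnion]
      intro q _ q' _ hqq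
      exact hdis _ _ (fun h => hqq (Fin.succ_injective _ h))
    have h0 : ∑ i ∈ U, |a i| + v ≤ δ 0 := by
      have h1 := hsum 0
      rw [hfil0 (fun q => ∑ i ∈ V q, |a i|)] at h1
      linarith
    have hcond : ∀ x, ccnt U (fun z => |lin a z - c| ≤ v) x ≤
        (∏ j : Fin r, (2 / Real.sqrt (V j.succ).card)) * (Fintype.card Bool : ℝ) ^ U.card := by
      intro x
      rw [nl_card_bool]
      refine S1A_cond U a v _ (fun c' => ?_) c x
      rw [Fintype.card_fin]
      exact ih1 c'
    have hcs := cond_sum U (fun z => |lin a z - c| ≤ v)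
      (fun x => ind (|lin (fun i => if i ∈ U then 0 else a i) x - c| ≤ δ 0))
      (fun _ => ∏ j : Fin r, (2 / Real.sqrt (V j.succ).card)) (fun _ => ind_nonneg _)
      (by
        intro x x' hx
        have : lin (fun i => if i ∈ U then 0 else a i) x = lin (fun i => if i ∈ U then 0 else a i) x' := by
          unfold lin
          refine Finset.sum_congr rfl fun i _ => ?_
          by_cases hi : i ∈ U
          · simp [hi]
          · rw [hx i hi]
        simp only [this]) hcond
    have hmono : ∑ x : Fin n → Bool, ind (|lin a x - c| ≤ v) ≤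
        ∑ x, ind (|lin (fun i => if i ∈ U then 0 else a i) x - c| ≤ δ 0) * ind (|lin a x - c| ≤ v) := by
      refine Finset.sum_le_sum fun x _ => ?_
      by_cases hE : |lin a x - c| ≤ v
      · have h1 : |lin (fun i => if i ∈ U then 0 else a i) x - c| ≤ δ 0 := by
          have h2 := S1A_lin_split U a x
          have h3 := S1A_lin_abs U a x
          have h4 : lin (fun i => if i ∈ U then 0 else a i) x - c =
              (lin a x - c) - lin (fun i => if i ∈ U then a i else 0) x := by rw [h2]; ring
          rw [h4]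
          refine (abs_sub _ _).trans ?_
          linarith
        rw [ind_true hE, ind_true h1, one_mul]
      · rw [ind_false hE, mul_zero]
    have hwin : ∑ x : Fin n → Bool, ind (|lin (fun i => if i ∈ U then 0 else a i) x - c| ≤ δ 0) ≤
        2 ^ n * (2 / Real.sqrt (V 0).card) := by
      have h1 := lin_window (fun i => if i ∈ U then 0 else a i) (V 0) (hδ 0) (by
        intro i hi
        have : i ∉ U := by
          intro hiU
          rw [hU, Finset.mem_biUnion] at hiU
          obtain ⟨q, _, hq⟩ := hiU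
          exact Finset.disjoint_left.1 (hdis 0 q.succ (Fin.succ_ne_zero q).symm) hi hq
        simp only [this, if_false]
        exact hδa 0 i hi) (hne 0) c (δ 0) (hδ 0).le
      rw [Fintype.card_fin, div_self (hδ 0).ne', one_add_one_eq_two] at h1
      exact h1
    rw [Fin.prod_univ_succ]
    set P : ℝ := ∏ j : Fin r, (2 / Real.sqrt (V j.succ).card) with hP
    have hP0 : 0 ≤ P := Finset.prod_nonneg fun j _ => by positivity
    calc ∑ x : Fin n → Bool, ind (|lin a x - c| ≤ v)
        ≤ ∑ x, ind (|lin (fun i => if i ∈ U then 0 else a i) x - c| ≤ δ 0) * P := hmono.trans hcs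
      _ = (∑ x, ind (|lin (fun i => if i ∈ U then 0 else a i) x - c| ≤ δ 0)) * P := by
          rw [Finset.sum_mul]
      _ ≤ (2 ^ n * (2 / Real.sqrt (V 0).card)) * P := mul_le_mul_of_nonneg_right hwin hP0
      _ = 2 ^ n * (2 / Real.sqrt (V 0).card * P) := by ring

end BLO
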