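import Pool.Agent.Lib.BLO.NL
import Pool.Agent.Lib.BLP.Conc1
import Pool.Agent.Lib.BLO.Sec1A

/-!
# Chunk S1B: the small ball estimate for the smallest weight

If `a0 = 0` the left side is `0`.  Otherwise `nl` with the groups `grp i = some i`, `T0 = univ`, `q = 2`: given the
coordinates outside `V` the probability of `|lin a| ≤ a0` is at most `2/√|V|` (`BLP.lin_window` for the weights
`a 1_V`, `δ = v = a0`, any centre; `S1A_cond`).
-/

namespace BLO

open Finset BLP

theorem hN_min {n : ℕ} (hn : 0 < n) (a : Fin n → ℝ) (a0 : ℝ) (ha0 : 0 ≤ a0) (ha : ∀ i, a0 ≤ |a i|)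
    (h0 : a0 = 0 → ∀ x, lin a x ≠ 0) (h : (Fin n → Bool) → ℝ) (hh : Lip 1 h) (hm : ∑ x, h x = 0) :
    ∑ x, |h x| * ind (|lin a x| ≤ a0) ≤ 400 * 2 ^ n := by
  classical
  rcases eq_or_lt_of_le ha0 with h00 | hpos
  · have h1 : ∀ x, |h x| * ind (|lin a x| ≤ a0) = 0 := by
      intro x
      have h2 : ¬ (|lin a x| ≤ a0) := by
        intro h3
        rw [← h00] at h3
        exact h0 h00.symm x (abs_nonpos_iff.1 h3)
      rw [ind_false h2, mul_zero]
    rw [Finset.sum_congr rfl fun x _ => h1 x]
    simp
  · have hnn : (univ : Finset (Fin n)).Nonempty := ⟨⟨0, hn⟩, Finset.mem_univ _⟩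
    have hcoo : ∀ V : Finset (Fin n), coo (fun i : Fin n => some i) V = V := by
      intro V
      ext i
      simp [coo]
    have hg : ∀ t : Fin n, (univ.filter fun i : Fin n => (some i : Option (Fin n)) = some t).card ≤ 2 := by
      intro t
      have h1 : (univ.filter fun i : Fin n => (some i : Option (Fin n)) = some t) = {t} := by
        ext i
        simp
      rw [h1, Finset.card_singleton]
      norm_num
    have key := nl (fun i : Fin n => some i) hg univ hnn 2 (by norm_num) (fun x => |lin a x| ≤ a0) (by
      intro V _ hV x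
      rw [hcoo]
      have h1 := S1A_cond V a a0 (2 / Real.sqrt V.card) (by
        intro c
        have h2 := lin_window (fun i => if i ∈ V then a i else 0) V hpos (by
          intro i hi
          simp only [hi, if_true]
          exact ha i) hV c a0 ha0
        rw [div_self hpos.ne', one_add_one_eq_two] at h2
        exact h2) 0 x
      simpa only [sub_zero] using h1) h hh hm
    rw [Fintype.card_fin, Finset.card_univ, Fintype.card_fin] at key
    have hn0 : (n : ℝ) ≠ 0 := by exact_mod_cast hn.ne'
    rw [div_self hn0, Real.sqrt_one] at key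
    refine key.trans (le_of_eq ?_)
    ring

end BLO
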