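import Pool.Agent.Lib.BLO.Ops2

/-!
# Chunk S1C: a window of weights, from `WindowStmt` by scaling

`N = card ι` weights with `2^(t l) ≤ |b i| < 2^((t+1) l)`, `2^(256 l) ≤ N`.  Let `N_j` be the number of weights of dyadic
level `j` (`2^j ≤ |b i| < 2^(j+1)`), `t l ≤ j < (t+1) l`.  Let `J` be the smallest `j` with `2 l N_j ≥ N`; the levels
below `J` contain less than `l * N/(2l) = N/2` weights.  Apply the hypothesis to `|b i| / 2^J`, `R = 2^l`
(`R⁻¹ ≤ · ≤ R`), numbering `ι` by `Fin N` (`Comp2.equiv`, `Comp2.scale`, `Comp2.sign`).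
`N_J ≥ N / (2 l) ≥ N^(31/32)` as `(2 l)^32 ≤ 2^(256 l) ≤ N`.
-/

namespace BLO

open Finset BLP

theorem S1C_rpow {N : ℝ} {l : ℕ} (hl : 0 < l) (hN : (2 : ℝ) ^ (256 * l) ≤ N) :
    N ^ (31 / 32 : ℝ) ≤ N / (2 * l) := by
  have hN0 : 0 < N := lt_of_lt_of_le (by positivity) hN
  have hl0 : (0 : ℝ) < l := by exact_mod_cast hl
  rw [le_div_iff₀ (by positivity)]
  have h1 : (2 * l : ℝ) ≤ N ^ (1 / 32 : ℝ) := by
    have h2 : ((2 : ℝ) ^ (8 * l)) ≤ N ^ (1 / 32 : ℝ) := by
      have h3 : ((2 : ℝ) ^ (256 * l)) ^ (1 / 32 : ℝ) ≤ N ^ (1 / 32 : ℝ) :=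
        Real.rpow_le_rpow (by positivity) hN (by norm_num)
      have h4 : ((2 : ℝ) ^ (256 * l)) ^ (1 / 32 : ℝ) = (2 : ℝ) ^ (8 * l) := by
        rw [← Real.rpow_natCast, ← Real.rpow_natCast, ← Real.rpow_mul (by norm_num)]
        congr 1
        push_cast
        ring
      rwa [h4] at h3
    have h5 : 2 * l ≤ 2 ^ (8 * l) := by
      have h6 : l < 2 ^ l := Nat.lt_two_pow_self
      have h7 : 2 ^ (l + 1) ≤ 2 ^ (8 * l) := Nat.pow_le_pow_right (by norm_num) (by omega)
      rw [pow_succ] at h7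
      omega
    have h8 : (2 * l : ℝ) ≤ 2 ^ (8 * l) := by exact_mod_cast h5
    linarith
  calc N ^ (31 / 32 : ℝ) * (2 * l) ≤ N ^ (31 / 32 : ℝ) * N ^ (1 / 32 : ℝ) := by gcongr
    _ = N := by
      rw [← Real.rpow_add hN0]
      norm_num

theorem window_comp (C : ℝ) (N0 : ℕ)
    (hW : ∀ (N : ℕ) (a : Fin N → ℝ) (R : ℝ), N0 ≤ N → 1 ≤ R →
      R ^ 256 ≤ N → (∀ i, R⁻¹ ≤ a i ∧ a i ≤ R) →
      (N : ℝ) / 2 ≤ ((univ.filter fun i => 1 ≤ a i).card : ℝ) →
      (N : ℝ) ^ (31 / 32 : ℝ) ≤ ((univ.filter fun i => 1 ≤ a i ∧ a i ≤ 2).card : ℝ) →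
      Comp2 a (C * N) C (C * Real.sqrt N) (C * Real.sqrt N) (C * N))
    {ι : Type*} [Fintype ι] [DecidableEq ι] (b : ι → ℝ) (l : ℕ) (hl : 0 < l) (t : ℤ)
    (hb : ∀ i, (2 : ℝ) ^ (t * l) ≤ |b i| ∧ |b i| < (2 : ℝ) ^ ((t + 1) * l))
    (hN0 : N0 ≤ Fintype.card ι) (hN : 2 ^ (256 * l) ≤ Fintype.card ι) :
    Comp2 b (C * Fintype.card ι) C (C * Real.sqrt (Fintype.card ι))
      (C * Real.sqrt (Fintype.card ι)) (C * Fintype.card ι) := by
  classical
  set N := Fintype.card ι with hNdef
  have hNpos : 0 < N := lt_of_lt_of_le (by positivity) hN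
  have hNr : (0 : ℝ) < N := by exact_mod_cast hNpos
  have hlr : (0 : ℝ) < l := by exact_mod_cast hl
  -- the number of weights of level `t l + k`
  set M : ℕ → ℕ := fun k => (univ.filter fun i : ι => (2 : ℝ) ^ (t * l + k) ≤ |b i| ∧
    |b i| < (2 : ℝ) ^ (t * l + k + 1)).card with hM
  -- number of weights below level `t l + k`
  have hbelow : ∀ k : ℕ, (univ.filter fun i : ι => |b i| < (2 : ℝ) ^ (t * l + k)).card ≤ ∑ j ∈ range k, M j := by
    intro k
    induction k with
    | zero =>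
      have : (univ.filter fun i : ι => |b i| < (2 : ℝ) ^ (t * l + ((0 : ℕ) : ℤ))) = ∅ := by
        apply Finset.filter_eq_empty_iff.2
        intro i _
        have := (hb i).1
        simp only [Nat.cast_zero, add_zero]
        linarith
      rw [this]
      simp
    | succ k ih =>
      rw [Finset.sum_range_succ]
      have hsub : (univ.filter fun i : ι => |b i| < (2 : ℝ) ^ (t * l + ((k + 1 : ℕ) : ℤ))) ⊆
          (univ.filter fun i : ι => |b i| < (2 : ℝ) ^ (t * l + k)) ∪
          (univ.filter fun i : ι => (2 : ℝ) ^ (t * l + k) ≤ |b i| ∧ |b i| < (2 : ℝ) ^ (t * l + k + 1)) := by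
        intro i hi
        simp only [Finset.mem_filter, Finset.mem_univ, true_and, Finset.mem_union] at hi ⊢
        by_cases h : |b i| < (2 : ℝ) ^ (t * l + k)
        · exact Or.inl h
        · right
          refine ⟨not_lt.1 h, ?_⟩
          have e : t * l + ((k + 1 : ℕ) : ℤ) = t * l + k + 1 := by push_cast; ring
          rwa [e] at hi
      refine (Finset.card_le_card hsub).trans ((Finset.card_union_le _ _).trans ?_)
      exact Nat.add_le_add_right ih _
  have hall : (univ.filter fun i : ι => |b i| < (2 : ℝ) ^ (t * l + ((l : ℕ) : ℤ))) = univ := by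
    apply Finset.filter_true_of_mem
    intro i _
    have h1 := (hb i).2
    have e : (t + 1) * (l : ℤ) = t * l + l := by ring
    rwa [e] at h1
  have hex : ∃ k, k < l ∧ N ≤ 2 * l * M k := by
    by_contra hcon
    push Not at hcon
    have h1 := hbelow l
    rw [hall, Finset.card_univ, ← hNdef] at h1
    have h2 : ∑ j ∈ range l, 2 * l * M j < ∑ _j ∈ range l, N :=
      Finset.sum_lt_sum_of_nonempty (by simpa using hl.ne') (fun j hj => hcon j (Finset.mem_range.1 hj))
    rw [← Finset.mul_sum, Finset.sum_const, Finset.card_range, smul_eq_mul] at h2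
    have h3 : 2 * l * N ≤ 2 * l * ∑ j ∈ range l, M j := Nat.mul_le_mul_left _ h1
    have h4 : l * N ≤ 2 * l * N := by nlinarith
    omega
  set k := Nat.find hex with hk
  obtain ⟨hkl, hkN⟩ := Nat.find_spec hex
  have hmin : ∀ j, j < k → 2 * l * M j < N := by
    intro j hj
    have h1 := Nat.find_min hex hj
    push Not at h1
    exact h1 (lt_trans hj hkl)
  set J : ℤ := t * l + k with hJ
  have hpJ : (0 : ℝ) < (2 : ℝ) ^ J := by positivity
  -- few weights below
  have hlow : (2 : ℝ) * ((univ.filter fun i : ι => |b i| < (2 : ℝ) ^ J).card : ℝ) ≤ N := by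
    have h1 := hbelow k
    have h2 : 2 * l * ∑ j ∈ range k, M j ≤ k * N := by
      rw [Finset.mul_sum]
      calc ∑ j ∈ range k, 2 * l * M j ≤ ∑ _j ∈ range k, N :=
            Finset.sum_le_sum fun j hj => (hmin j (Finset.mem_range.1 hj)).le
        _ = k * N := by simp
    have h3 : 2 * l * (univ.filter fun i : ι => |b i| < (2 : ℝ) ^ J).card ≤ l * N := by
      calc 2 * l * (univ.filter fun i : ι => |b i| < (2 : ℝ) ^ J).card ≤ 2 * l * ∑ j ∈ range k, M j :=
            Nat.mul_le_mul_left _ h1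
        _ ≤ k * N := h2
        _ ≤ l * N := Nat.mul_le_mul_right _ hkl.le
    have h4 : l * (2 * (univ.filter fun i : ι => |b i| < (2 : ℝ) ^ J).card) ≤ l * N := by
      calc l * (2 * (univ.filter fun i : ι => |b i| < (2 : ℝ) ^ J).card) =
          2 * l * (univ.filter fun i : ι => |b i| < (2 : ℝ) ^ J).card := by ring
        _ ≤ _ := h3
    have h5 := Nat.le_of_mul_le_mul_left h4 hl
    exact_mod_cast h5
  -- the weights as a function on `Fin N`
  have e : ι ≃ Fin N := Fintype.equivFin ι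
  set a : Fin N → ℝ := fun j => |b (e.symm j)| / (2 : ℝ) ^ J with ha
  have hcount : ∀ (P : ι → Prop) (Q : Fin N → Prop) [DecidablePred P] [DecidablePred Q],
      (∀ i, P i ↔ Q (e i)) → (univ.filter P).card = (univ.filter Q).card := by
    intro P Q _ _ hPQ
    refine Finset.card_bij (fun i _ => e i) ?_ (fun i _ j _ h => e.injective h) ?_
    · intro i hi
      simp only [Finset.mem_filter, Finset.mem_univ, true_and] at hi ⊢
      exact (hPQ i).1 hi
    · intro j hj
      simp only [Finset.mem_filter, Finset.mem_univ, true_and] at hj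
      refine ⟨e.symm j, ?_, e.apply_symm_apply j⟩
      simp only [Finset.mem_filter, Finset.mem_univ, true_and]
      rw [hPQ, e.apply_symm_apply]
      exact hj
  have key : Comp2 a (C * N) C (C * Real.sqrt N) (C * Real.sqrt N) (C * N) := by
    refine hW N a ((2 : ℝ) ^ l) hN0 (one_le_pow₀ (by norm_num)) ?_ ?_ ?_ ?_
    · rw [← pow_mul, mul_comm l 256]
      exact_mod_cast hN
    · intro j
      obtain ⟨h1, h2⟩ := hb (e.symm j)
      simp only [ha]
      constructor
      · rw [le_div_iff₀ hpJ]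
        refine le_trans ?_ h1
        rw [← zpow_natCast, ← zpow_neg, ← zpow_add₀ (by norm_num : (2 : ℝ) ≠ 0)]
        apply zpow_le_zpow_right₀ (by norm_num)
        rw [hJ]
        have : (k : ℤ) ≤ l := by exact_mod_cast hkl.le
        linarith
      · rw [div_le_iff₀ hpJ]
        refine h2.le.trans ?_
        rw [← zpow_natCast, ← zpow_add₀ (by norm_num : (2 : ℝ) ≠ 0)]
        apply zpow_le_zpow_right₀ (by norm_num)
        rw [hJ]
        have : (0 : ℤ) ≤ k := by positivity
        linarith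
    · have h1 := hcount (fun i => (2 : ℝ) ^ J ≤ |b i|) (fun j => 1 ≤ a j) (fun i => by
        simp only [ha, Equiv.symm_apply_apply]
        rw [le_div_iff₀ hpJ, one_mul])
      rw [← h1]
      have h2 := Finset.card_filter_add_card_filter_not (s := (univ : Finset ι)) (fun i => |b i| < (2 : ℝ) ^ J)
      simp only [not_lt] at h2
      rw [Finset.card_univ, ← hNdef] at h2
      have h3 : ((univ.filter fun i : ι => |b i| < (2 : ℝ) ^ J).card : ℝ) +
          ((univ.filter fun i : ι => (2 : ℝ) ^ J ≤ |b i|).card : ℝ) = N := by exact_mod_cast h2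
      linarith
    · have h1 : M k ≤ (univ.filter fun i : ι => (2 : ℝ) ^ J ≤ |b i| ∧ |b i| ≤ 2 * (2 : ℝ) ^ J).card := by
        apply Finset.card_le_card
        intro i hi
        simp only [Finset.mem_filter, Finset.mem_univ, true_and] at hi ⊢
        refine ⟨hi.1, ?_⟩
        have e1 : (2 : ℝ) ^ (t * (l : ℤ) + k + 1) = 2 * (2 : ℝ) ^ J := by
          rw [zpow_add_one₀ (by norm_num : (2 : ℝ) ≠ 0), hJ]
          ring
        rw [← e1]
        exact hi.2.le
      have h2 := hcount (fun i => (2 : ℝ) ^ J ≤ |b i| ∧ |b i| ≤ 2 * (2 : ℝ) ^ J)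
        (fun j => 1 ≤ a j ∧ a j ≤ 2) (fun i => by
        simp only [ha, Equiv.symm_apply_apply]
        rw [le_div_iff₀ hpJ, one_mul, div_le_iff₀ hpJ])
      rw [← h2]
      have hNr' : (2 : ℝ) ^ (256 * l) ≤ N := by exact_mod_cast hN
      refine (S1C_rpow hl hNr').trans ?_
      rw [div_le_iff₀ (by positivity)]
      have h3 : (N : ℝ) ≤ 2 * l * M k := by exact_mod_cast hkN
      have h4 : (M k : ℝ) ≤ ((univ.filter fun i : ι => (2 : ℝ) ^ J ≤ |b i| ∧ |b i| ≤ 2 * (2 : ℝ) ^ J).card : ℝ) := by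
        exact_mod_cast h1
      nlinarith
  have h1 := Comp2.equiv e key
  have h2 := Comp2.scale h1 hpJ
  refine Comp2.sign h2 (fun i => ?_)
  simp only [ha, Equiv.symm_apply_apply]
  rw [mul_div_cancel₀ _ hpJ.ne', abs_abs]

end BLO
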