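import Pool.Agent.Lib.BLO.Sec1A
import Pool.Agent.Lib.BLP.Levels2

/-!
# Chunk S1D: reduction to few windows

`l = Nat.log 2 n / 1024`; the window of `a i ≠ 0` is `Int.log 2 |a i| / l` (floor).  `m = 5000`, `k = Nat.clog 2 (n+1)`.
Let `L` = set of the windows of the nonzero weights, `Lb` = those with at least `n^(1/4)` weights (big windows),
`g`, `gb` their decreasing enumerations (`BLP.L23_enum`).  `e` = the maximum of `gb (9m-1)` (if `|Lb| > 9m`) and
`g (mk-1)` (if `|L| > mk`); keep the windows `≥ e` (`a' = a` there, `0` elsewhere); if there is no condition take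
`a' = a`, `v = a0` (the last event is then empty).  Otherwise `v = (n+1) 2^(l e)`.
* `e = gb (9m-1)`: `prod_window` with `V j` = window `gb (j m)`, `j < 9`: `gb (j m) ≥ e + m - 1`, and
  `2^(l (m-1)) ≥ 4 (n + 1)`; `(2 / n^(1/8))^9 ≤ 1/(n+1)` for large `n`.
* `e = g (mk-1)`: `BLP.lacunary` with one weight of each of the windows `g (j m)`, `j < k`: `2^-k ≤ 1/(n+1)`.
Classes: `f i = 0` if `a' i = 0`, `f i = 1` if the window is not big (at most `m k` windows with less than `n^(1/4)`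
weights each: at most `√n` weights for large `n`), `f i = 2 + j` if the window is `gb j`, `j < 9m = 45000`.
-/

namespace BLO

open Finset BLP

theorem S1D_window_le {l : ℕ} (hl : 0 < l) {r : ℝ} (hr : r ≠ 0) :
    (2 : ℝ) ^ ((lev r / (l : ℤ)) * l) ≤ |r| := by
  refine (zpow_le_zpow_right₀ (by norm_num) ?_).trans (L23_lev_le hr)
  exact Int.ediv_mul_le _ (by omega)

theorem S1D_window_lt {l : ℕ} (hl : 0 < l) (r : ℝ) :
    |r| < (2 : ℝ) ^ ((lev r / (l : ℤ) + 1) * l) := by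
  refine (L23_lt_lev r).trans_le (zpow_le_zpow_right₀ (by norm_num) ?_)
  have := Int.lt_ediv_add_one_mul_self (lev r) (b := (l : ℤ)) (by omega)
  omega

/-- the weights with window at least `e` -/
noncomputable def S1Dcut {n : ℕ} (l : ℕ) (a : Fin n → ℝ) (e : ℤ) : Fin n → ℝ := by
  classical
  exact fun i => if a i ≠ 0 ∧ e ≤ lev (a i) / (l : ℤ) then a i else 0

theorem S1Dcut_pos {n : ℕ} {l : ℕ} {a : Fin n → ℝ} {e : ℤ} {i : Fin n} (h : a i ≠ 0)
    (h' : e ≤ lev (a i) / (l : ℤ)) : S1Dcut l a e i = a i := by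
  unfold S1Dcut
  rw [if_pos ⟨h, h'⟩]

theorem S1Dcut_ne {n : ℕ} {l : ℕ} {a : Fin n → ℝ} {e : ℤ} {i : Fin n} (h : S1Dcut l a e i ≠ 0) :
    a i ≠ 0 ∧ e ≤ lev (a i) / (l : ℤ) ∧ S1Dcut l a e i = a i := by
  unfold S1Dcut at h ⊢
  split at h
  · rename_i h1
    rw [if_pos h1]
    exact ⟨h1.1, h1.2, rfl⟩
  · exact absurd rfl h

/-- the weights of window `t` -/
noncomputable def S1Dwin {n : ℕ} (l : ℕ) (a : Fin n → ℝ) (t : ℤ) : Finset (Fin n) := by
  classical
  exact univ.filter fun i => a i ≠ 0 ∧ lev (a i) / (l : ℤ) = t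

theorem S1Dwin_mem {n : ℕ} {l : ℕ} {a : Fin n → ℝ} {t : ℤ} {i : Fin n} :
    i ∈ S1Dwin l a t ↔ a i ≠ 0 ∧ lev (a i) / (l : ℤ) = t := by
  classical
  unfold S1Dwin
  simp

theorem S1D_classes {n l : ℕ} (hl : 0 < l) (a : Fin n → ℝ) (e : ℤ) (M : ℕ)
    (hM : (M : ℝ) ≤ (n : ℝ) ^ (1 / 4 : ℝ)) (L Lb : Finset ℤ)
    (hL : ∀ i, a i ≠ 0 → e ≤ lev (a i) / (l : ℤ) → lev (a i) / (l : ℤ) ∈ L)
    (hLc : L.card ≤ M)
    (hLb : ∀ t, t ∈ Lb ↔ t ∈ L ∧ e ≤ t ∧ (n : ℝ) ^ (1 / 4 : ℝ) ≤ ((S1Dwin l a t).card : ℝ))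
    (hLbc : Lb.card ≤ 45000) :
    ∃ f : Fin n → Fin 45002, (∀ i, f i = 0 → S1Dcut l a e i = 0) ∧
      (((univ.filter fun i => f i = 1).card : ℝ) ≤ Real.sqrt n) ∧
      ∀ k : Fin 45002, 2 ≤ (k : ℕ) → (∃ i, f i = k) → ∃ t : ℤ,
        (n : ℝ) ^ (1 / 4 : ℝ) ≤ ((univ.filter fun i => f i = k).card : ℝ) ∧
        ∀ i, f i = k → (2 : ℝ) ^ (t * l) ≤ |S1Dcut l a e i| ∧
          |S1Dcut l a e i| < (2 : ℝ) ^ ((t + 1) * l) := by
  classical
  obtain ⟨φ, hφ⟩ : ∃ φ : ℤ → ℕ, (∀ t ∈ Lb, φ t < 45000) ∧ ∀ t ∈ Lb, ∀ t' ∈ Lb, φ t = φ t' → t = t' := by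
    refine ⟨fun t => if h : t ∈ Lb then (Lb.equivFin ⟨t, h⟩).1 else 0, ?_, ?_⟩
    · intro t ht
      dsimp only
      rw [dif_pos ht]
      exact lt_of_lt_of_le (Lb.equivFin ⟨t, ht⟩).2 hLbc
    · intro t ht t' ht' h
      dsimp only at h
      rw [dif_pos ht, dif_pos ht'] at h
      have h1 := Lb.equivFin.injective (Fin.ext h)
      exact congrArg Subtype.val h1
  obtain ⟨hφ1, hφ2⟩ := hφ
  set w : Fin n → ℤ := fun i => lev (a i) / (l : ℤ) with hw
  have hlt : ∀ i, w i ∈ Lb → 2 + φ (w i) < 45002 := fun i hi => by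
    have := hφ1 _ hi
    omega
  let f : Fin n → Fin 45002 := fun i =>
    if S1Dcut l a e i = 0 then 0 else if hb : w i ∈ Lb then ⟨2 + φ (w i), hlt i hb⟩ else 1
  have hf0 : ∀ i, S1Dcut l a e i = 0 → f i = 0 := fun i hi => by
    simp only [f, hi, if_true]
  have hf1 : ∀ i, S1Dcut l a e i ≠ 0 → w i ∉ Lb → f i = 1 := fun i hi hb => by
    simp only [f, hi, if_false, hb, dif_neg, not_false_eq_true]
  have hf2 : ∀ i, S1Dcut l a e i ≠ 0 → w i ∈ Lb → (f i : ℕ) = 2 + φ (w i) := fun i hi hb => by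
    simp only [f, hi, if_false, hb, dif_pos]
  have h01 : (0 : Fin 45002) ≠ 1 := by decide
  have v0 : ((0 : Fin 45002) : ℕ) = 0 := rfl
  have v1 : ((1 : Fin 45002) : ℕ) = 1 := rfl
  have hq0 : (0 : ℝ) ≤ (n : ℝ) ^ (1 / 4 : ℝ) := by positivity
  refine ⟨f, ?_, ?_, ?_⟩
  · intro i hi
    by_contra hne
    by_cases hb : w i ∈ Lb
    · have h1 := hf2 i hne hb
      rw [hi, v0] at h1
      omega
    · rw [hf1 i hne hb] at hi
      exact h01 hi.symm
  · -- the small windows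
    set S := univ.filter fun i => f i = 1 with hS
    have hSm : ∀ i ∈ S, S1Dcut l a e i ≠ 0 ∧ w i ∉ Lb := by
      intro i hi
      rw [hS, Finset.mem_filter] at hi
      have hne : S1Dcut l a e i ≠ 0 := by
        intro h0
        rw [hf0 i h0] at hi
        exact h01 hi.2
      refine ⟨hne, fun hb => ?_⟩
      have h1 := hf2 i hne hb
      rw [hi.2, v1] at h1
      omega
    have hmaps : ∀ i ∈ S, w i ∈ L := by
      intro i hi
      obtain ⟨h1, h2, -⟩ := S1Dcut_ne (hSm i hi).1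
      exact hL i h1 h2
    have hcard := Finset.card_eq_sum_card_fiberwise (f := w) (s := S) (t := L)
      (fun i hi => Finset.mem_coe.2 (hmaps i (Finset.mem_coe.1 hi)))
    have hfib : ∀ t ∈ L, ((S.filter fun i => w i = t).card : ℝ) ≤ (n : ℝ) ^ (1 / 4 : ℝ) := by
      intro t ht
      by_cases hne : (S.filter fun i => w i = t).Nonempty
      · obtain ⟨i, hi⟩ := hne
        rw [Finset.mem_filter] at hi
        obtain ⟨h1, h2, -⟩ := S1Dcut_ne (hSm i hi.1).1
        have h3 : t ∉ Lb := by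
          rw [← hi.2]
          exact (hSm i hi.1).2
        rw [hLb] at h3
        have h4 : ((S1Dwin l a t).card : ℝ) < (n : ℝ) ^ (1 / 4 : ℝ) := by
          by_contra h5
          push Not at h5
          refine h3 ⟨ht, ?_, h5⟩
          rw [← hi.2]
          exact h2
        refine le_trans ?_ h4.le
        have h6 : (S.filter fun i => w i = t) ⊆ S1Dwin l a t := by
          intro j hj
          rw [Finset.mem_filter] at hj
          obtain ⟨h7, -, -⟩ := S1Dcut_ne (hSm j hj.1).1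
          exact S1Dwin_mem.2 ⟨h7, hj.2⟩
        exact_mod_cast Finset.card_le_card h6
      · rw [Finset.not_nonempty_iff_eq_empty] at hne
        rw [hne]
        simpa using hq0
    have h1 : (S.card : ℝ) ≤ L.card * (n : ℝ) ^ (1 / 4 : ℝ) := by
      rw [hcard]
      push_cast
      refine (Finset.sum_le_sum hfib).trans ?_
      rw [Finset.sum_const, nsmul_eq_mul]
    have h2 : (L.card : ℝ) ≤ (n : ℝ) ^ (1 / 4 : ℝ) := by
      refine le_trans ?_ hM
      exact_mod_cast hLc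
    have h3 : (n : ℝ) ^ (1 / 4 : ℝ) * (n : ℝ) ^ (1 / 4 : ℝ) = Real.sqrt n := by
      rcases Nat.eq_zero_or_pos n with h0 | h0
      · rw [h0]
        simp
      · rw [← Real.rpow_add (by exact_mod_cast h0), Real.sqrt_eq_rpow]
        norm_num
    rw [← h3]
    exact h1.trans (mul_le_mul_of_nonneg_right h2 hq0)
  · intro k hk hex
    obtain ⟨i0, hi0⟩ := hex
    have hkne : ∀ i, f i = k → S1Dcut l a e i ≠ 0 ∧ w i ∈ Lb ∧ 2 + φ (w i) = k := by
      intro i hi
      have hne : S1Dcut l a e i ≠ 0 := by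
        intro h0
        rw [hf0 i h0] at hi
        rw [← hi, v0] at hk
        omega
      have hb : w i ∈ Lb := by
        by_contra hb
        rw [hf1 i hne hb] at hi
        rw [← hi, v1] at hk
        omega
      refine ⟨hne, hb, ?_⟩
      rw [← hf2 i hne hb, hi]
    obtain ⟨hne0, hb0, hk0⟩ := hkne i0 hi0
    refine ⟨w i0, ?_, ?_⟩
    · have h1 := ((hLb _).1 hb0).2.2
      refine h1.trans ?_
      have h2 : S1Dwin l a (w i0) ⊆ univ.filter fun i => f i = k := by
        intro j hj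
        rw [S1Dwin_mem] at hj
        rw [Finset.mem_filter]
        refine ⟨mem_univ _, ?_⟩
        have h3 : w j = w i0 := hj.2
        obtain ⟨-, h5, -⟩ := S1Dcut_ne hne0
        have h4 : S1Dcut l a e j = a j := S1Dcut_pos hj.1 (by rw [hj.2]; exact h5)
        have h6 : S1Dcut l a e j ≠ 0 := by rw [h4]; exact hj.1
        apply Fin.ext
        rw [hf2 j h6 (by rw [h3]; exact hb0), h3, hk0]
      exact_mod_cast Finset.card_le_card h2
    · intro i hi
      obtain ⟨hne, hb, hk1⟩ := hkne i hi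
      have h1 : w i = w i0 := hφ2 _ hb _ hb0 (by omega)
      obtain ⟨h2, h3, h4⟩ := S1Dcut_ne hne
      rw [h4, ← h1]
      exact ⟨S1D_window_le hl h2, S1D_window_lt hl _⟩

/-- the `N`-th largest element bounds the number of kept ones -/
theorem S1D_count (L : Finset ℤ) (g : ℕ → ℤ)
    (hg2 : ∀ e ∈ L, ∃ i < L.card, g i = e) (hg3 : ∀ i j, i < j → j < L.card → g j < g i)
    (N : ℕ) (hN : 0 < N) (e : ℤ) (h : N < L.card → g (N - 1) ≤ e) :
    (L.filter fun t => e ≤ t).card ≤ N := by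
  classical
  by_cases hc : N < L.card
  · have h1 : (L.filter fun t => e ≤ t) ⊆ (Finset.range N).image g := by
      intro t ht
      rw [Finset.mem_filter] at ht
      obtain ⟨i, hi, rfl⟩ := hg2 t ht.1
      refine Finset.mem_image.2 ⟨i, Finset.mem_range.2 ?_, rfl⟩
      by_contra hcon
      have h2 := hg3 (N - 1) i (by omega) hi
      have h3 := h hc
      omega
    exact (Finset.card_le_card h1).trans (Finset.card_image_le.trans (by simp))
  · exact (Finset.card_filter_le _ _).trans (not_lt.1 hc)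

/-- goodness, case of the big windows -/
theorem S1D_goodA {n l : ℕ} (hl : 0 < l) (hn : ((n : ℝ) + 1) ≤ 2 ^ (2048 * l))
    (hn8 : (2 / Real.sqrt ((n : ℝ) ^ (1 / 4 : ℝ))) ^ 9 ≤ 1 / ((n : ℝ) + 1)) (hn0 : 0 < n)
    (a : Fin n → ℝ) (e : ℤ) (t : Fin 9 → ℤ) (ht : ∀ j, e + 4999 ≤ t j)
    (htt : ∀ j q, j < q → t q + 5000 ≤ t j)
    (hbig : ∀ j, (n : ℝ) ^ (1 / 4 : ℝ) ≤ ((S1Dwin l a (t j)).card : ℝ)) :
    ∑ x, ind (|lin (S1Dcut l a e) x| ≤ (n + 1) * 2 ^ (e * l)) ≤ 2 ^ n * (1 / ((n : ℝ) + 1)) := by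
  have hn' : (0 : ℝ) < n := by exact_mod_cast hn0
  have hq : (0 : ℝ) < (n : ℝ) ^ (1 / 4 : ℝ) := by positivity
  have hcut : ∀ j, ∀ i ∈ S1Dwin l a (t j), S1Dcut l a e i = a i := by
    intro j i hi
    rw [S1Dwin_mem] at hi
    exact S1Dcut_pos hi.1 (by rw [hi.2]; have := ht j; omega)
  have h2l : ∀ z : ℤ, (0 : ℝ) < (2 : ℝ) ^ (z * l) := fun z => by positivity
  have hne : ∀ j, (S1Dwin l a (t j)).Nonempty := by
    intro j
    rw [← Finset.card_pos]
    have := hq.trans_le (hbig j)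
    exact_mod_cast this
  have key := prod_window 9 (S1Dcut l a e) (fun j => S1Dwin l a (t j)) (fun j => (2 : ℝ) ^ (t j * l))
    ((n + 1) * 2 ^ (e * l)) (by positivity) hne (fun j => h2l _) (by
      intro j q hjq
      rw [Finset.disjoint_left]
      intro i hi hi'
      rw [S1Dwin_mem] at hi hi'
      have h1 : t j = t q := hi.2.symm.trans hi'.2
      rcases lt_or_gt_of_ne hjq with h | h
      · have := htt j q h
        omega
      · have := htt q j h
        omega) (by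
      intro j i hi
      rw [hcut j i hi]
      rw [S1Dwin_mem] at hi
      have := S1D_window_le hl hi.1
      rw [hi.2] at this
      exact this) (by
      intro j
      set B : ℝ := (2 : ℝ) ^ ((t j - 4999) * l) with hB
      have hB0 : 0 < B := h2l _
      have h1 : ∀ q ∈ univ.filter (fun q => j < q), ∑ i ∈ S1Dwin l a (t q), |S1Dcut l a e i| ≤
          n * B := by
        intro q hq'
        rw [Finset.mem_filter] at hq'
        calc ∑ i ∈ S1Dwin l a (t q), |S1Dcut l a e i| ≤ ∑ i ∈ S1Dwin l a (t q), B := by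
              refine Finset.sum_le_sum fun i hi => ?_
              rw [hcut q i hi]
              rw [S1Dwin_mem] at hi
              refine (S1D_window_lt hl (a i)).le.trans ?_
              rw [hi.2, hB]
              refine zpow_le_zpow_right₀ (by norm_num) ?_
              have := htt j q hq'.2
              exact mul_le_mul_of_nonneg_right (by omega) (by omega)
          _ = (S1Dwin l a (t q)).card * B := by rw [Finset.sum_const, nsmul_eq_mul]
          _ ≤ n * B := by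
              refine mul_le_mul_of_nonneg_right ?_ hB0.le
              have := Finset.card_le_univ (S1Dwin l a (t q))
              rw [Fintype.card_fin] at this
              exact_mod_cast this
      have h2 : ∑ q ∈ univ.filter (fun q => j < q), ∑ i ∈ S1Dwin l a (t q), |S1Dcut l a e i| ≤
          9 * (n * B) := by
        refine (Finset.sum_le_sum h1).trans ?_
        rw [Finset.sum_const, nsmul_eq_mul]
        refine mul_le_mul_of_nonneg_right ?_ (by positivity)
        have := Finset.card_filter_le (univ : Finset (Fin 9)) (fun q => j < q)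
        rw [Finset.card_univ, Fintype.card_fin] at this
        exact_mod_cast this
      have h3 : ((n : ℝ) + 1) * 2 ^ (e * l) ≤ (n + 1) * B := by
        refine mul_le_mul_of_nonneg_left ?_ (by positivity)
        rw [hB]
        refine zpow_le_zpow_right₀ (by norm_num) ?_
        have := ht j
        exact mul_le_mul_of_nonneg_right (by omega) (by omega)
      have h4 : 9 * (n * B) + (n + 1) * B ≤ 2 ^ (2052 * l) * B := by
        have h5 : (2 : ℝ) ^ (2052 * l) = 2 ^ (4 * l) * 2 ^ (2048 * l) := by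
          rw [← pow_add]
          congr 1
          ring
        have h6 : (16 : ℝ) ≤ 2 ^ (4 * l) := by
          calc (16 : ℝ) = 2 ^ 4 := by norm_num
            _ ≤ 2 ^ (4 * l) := pow_le_pow_right₀ (by norm_num) (by omega)
        have h7 : 9 * (n : ℝ) + (n + 1) ≤ 16 * (n + 1) := by linarith
        have h8 : 9 * (n : ℝ) + (n + 1) ≤ 2 ^ (2052 * l) := by
          rw [h5]
          refine h7.trans ?_
          exact mul_le_mul h6 hn (by positivity) (by positivity)
        calc 9 * (n * B) + (n + 1) * B = (9 * (n : ℝ) + (n + 1)) * B := by ring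
          _ ≤ _ := mul_le_mul_of_nonneg_right h8 hB0.le
      refine (add_le_add h2 h3).trans (h4.trans ?_)
      rw [hB, ← zpow_natCast, ← zpow_add₀ (by norm_num)]
      refine zpow_le_zpow_right₀ (by norm_num) ?_
      push_cast
      have : (0 : ℤ) ≤ l := by omega
      nlinarith) 0
  simp only [sub_zero] at key
  refine key.trans ?_
  refine mul_le_mul_of_nonneg_left ?_ (by positivity)
  refine le_trans ?_ hn8
  calc ∏ j : Fin 9, (2 / Real.sqrt ((S1Dwin l a (t j)).card : ℝ))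
      ≤ ∏ j : Fin 9, (2 / Real.sqrt ((n : ℝ) ^ (1 / 4 : ℝ))) := by
        refine Finset.prod_le_prod (fun j _ => by positivity) fun j _ => ?_
        have h1 : 0 < Real.sqrt ((n : ℝ) ^ (1 / 4 : ℝ)) := Real.sqrt_pos.2 hq
        refine div_le_div_of_nonneg_left (by norm_num) h1 ?_
        exact Real.sqrt_le_sqrt (hbig j)
    _ = _ := by rw [Finset.prod_const, Finset.card_univ, Fintype.card_fin]

/-- goodness, case of many windows -/
theorem S1D_goodB {n l : ℕ} (hl : 0 < l) (hn : ((n : ℝ) + 1) ≤ 2 ^ (2048 * l))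
    (a : Fin n → ℝ) (e : ℤ) (k : ℕ) (hk : ((n : ℝ) + 1) ≤ 2 ^ k)
    (t : Fin k → ℤ) (ht : ∀ j, e + 4999 ≤ t j)
    (htt : ∀ j q, j < q → t q + 5000 ≤ t j)
    (hex : ∀ j, ∃ i, a i ≠ 0 ∧ lev (a i) / (l : ℤ) = t j) :
    ∑ x, ind (|lin (S1Dcut l a e) x| ≤ (n + 1) * 2 ^ (e * l)) ≤ 2 ^ n * (1 / ((n : ℝ) + 1)) := by
  have hl' : (1 : ℤ) ≤ l := by omega
  choose j hj1 hj2 using hex
  have hcut : ∀ p, S1Dcut l a e (j p) = a (j p) := fun p =>
    S1Dcut_pos (hj1 p) (by rw [hj2 p]; have := ht p; omega)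
  have hlow : ∀ p, (2 : ℝ) ^ (t p * l) ≤ |a (j p)| := fun p => by
    have := S1D_window_le hl (hj1 p)
    rw [hj2] at this
    exact this
  have hup : ∀ p, |a (j p)| ≤ (2 : ℝ) ^ ((t p + 1) * l) := fun p => by
    have := S1D_window_lt hl (a (j p))
    rw [hj2] at this
    exact this.le
  have key := lacunary (S1Dcut l a e) k j (by
    intro p q hpq
    rw [hcut, hcut]
    refine le_trans ?_ (hlow p)
    refine (mul_le_mul_of_nonneg_left (hup q) (by norm_num)).trans ?_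
    have h4 : (4 : ℝ) * 2 ^ ((t q + 1) * l) = 2 ^ ((t q + 1) * l + 2) := by
      rw [zpow_add₀ (by norm_num : (2 : ℝ) ≠ 0) _ 2]
      norm_num
      ring
    rw [h4]
    refine zpow_le_zpow_right₀ (by norm_num) ?_
    have := htt p q hpq
    nlinarith) ((n + 1) * 2 ^ (e * l)) (by
    intro p
    rw [hcut]
    refine le_trans ?_ (hlow p)
    have h1 : 2 * (((n : ℝ) + 1) * 2 ^ (e * l)) ≤ 2 ^ 1 * (2 ^ (2048 * l) * 2 ^ (e * l)) := by
      rw [pow_one]
      gcongr
    refine h1.trans ?_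
    rw [← zpow_natCast (2 : ℝ) 1, ← zpow_natCast (2 : ℝ) (2048 * l), ← zpow_add₀ (by norm_num),
      ← zpow_add₀ (by norm_num)]
    refine zpow_le_zpow_right₀ (by norm_num) ?_
    push_cast
    have := ht p
    nlinarith) (by positivity) 0
  simp only [sub_zero] at key
  refine key.trans ?_
  rw [div_eq_mul_inv, one_div]
  refine mul_le_mul_of_nonneg_left ?_ (by positivity)
  exact inv_anti₀ (by positivity) hk

/-- the difference of the linear forms -/
theorem S1D_diff {n l : ℕ} (hl : 0 < l) (a : Fin n → ℝ) (e : ℤ) (x : Fin n → Bool) :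
    |lin a x - lin (S1Dcut l a e) x| ≤ n * 2 ^ (e * l) := by
  have he0 : (0 : ℝ) < 2 ^ (e * l) := by positivity
  have hdiff : ∀ i, |a i - S1Dcut l a e i| ≤ 2 ^ (e * l) := by
    intro i
    by_cases h : a i ≠ 0 ∧ e ≤ lev (a i) / (l : ℤ)
    · rw [S1Dcut_pos h.1 h.2, sub_self, abs_zero]
      exact he0.le
    · have h1 : S1Dcut l a e i = 0 := by
        by_contra h2
        obtain ⟨h3, h4, -⟩ := S1Dcut_ne h2
        exact h ⟨h3, h4⟩
      rw [h1, sub_zero]
      by_cases h2 : a i = 0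
      · rw [h2, abs_zero]; exact he0.le
      · have h3 : lev (a i) / (l : ℤ) < e := by
          by_contra h3
          exact h ⟨h2, not_lt.1 h3⟩
        refine (S1D_window_lt hl (a i)).le.trans ?_
        refine zpow_le_zpow_right₀ (by norm_num) ?_
        exact mul_le_mul_of_nonneg_right (by omega) (by omega)
  unfold lin
  rw [← Finset.sum_sub_distrib]
  refine (Finset.abs_sum_le_sum_abs _ _).trans ?_
  calc ∑ i, |a i * sg (x i) - S1Dcut l a e i * sg (x i)| ≤ ∑ _i : Fin n, (2 : ℝ) ^ (e * l) := by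
        refine Finset.sum_le_sum fun i _ => ?_
        rw [← sub_mul, abs_mul]
        have : |sg (x i)| = 1 := by cases x i <;> simp [sg]
        rw [this, mul_one]
        exact hdiff i
    _ = n * 2 ^ (e * l) := by simp

theorem S1D_two_pow (q : ℕ) (hq : 128 ≤ q) : 8 * q + 9 ≤ 2 ^ q := by
  induction q, hq using Nat.le_induction with
  | base => norm_num
  | succ q hq ih =>
    rw [pow_succ]
    omega

/-- the numerical facts -/
theorem S1D_num (n : ℕ) (hn0 : n ≠ 0) (hK1' : 1024 ≤ Nat.log 2 n) :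
    0 < Nat.log 2 n / 1024 ∧ 2 ^ (1024 * (Nat.log 2 n / 1024)) ≤ n ∧
    ((n : ℝ) + 1) ≤ 2 ^ (2048 * (Nat.log 2 n / 1024)) ∧
    ((5000 * Nat.clog 2 (n + 1) : ℕ) : ℝ) ≤ (n : ℝ) ^ (1 / 4 : ℝ) ∧
    (2 / Real.sqrt ((n : ℝ) ^ (1 / 4 : ℝ))) ^ 9 ≤ 1 / ((n : ℝ) + 1) := by
  set K := Nat.log 2 n with hK
  have hK1 : 1024 ≤ K := hK1'
  have hpow : 2 ^ K ≤ n := Nat.pow_log_le_self 2 hn0
  have hlt : n < 2 ^ (K + 1) := Nat.lt_pow_succ_log_self (by norm_num) n
  have hnr : (0 : ℝ) < n := by exact_mod_cast Nat.pos_of_ne_zero hn0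
  refine ⟨by omega, ?_, ?_, ?_, ?_⟩
  · exact (Nat.pow_le_pow_right (by norm_num) (by omega)).trans hpow
  · have h1 : n + 1 ≤ 2 ^ (2048 * (K / 1024)) := by
      refine le_trans (Nat.succ_le_of_lt hlt) (Nat.pow_le_pow_right (by norm_num) (by omega))
    exact_mod_cast h1
  · set q := K / 8 with hq
    have hclog : Nat.clog 2 (n + 1) ≤ K + 1 := by
      rw [Nat.clog_le_iff_le_pow (by norm_num)]
      exact hlt
    have h1 := S1D_two_pow q (by omega)
    have h2 : 5000 ≤ 2 ^ q := by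
      calc 5000 ≤ 2 ^ 13 := by norm_num
        _ ≤ 2 ^ q := Nat.pow_le_pow_right (by norm_num) (by omega)
    have h3 : 5000 * Nat.clog 2 (n + 1) ≤ 2 ^ (2 * q) := by
      calc 5000 * Nat.clog 2 (n + 1) ≤ 2 ^ q * 2 ^ q :=
            Nat.mul_le_mul h2 (hclog.trans (by omega))
        _ = 2 ^ (2 * q) := by rw [← pow_add]; congr 1; ring
    have h4 : ((2 ^ (2 * q) : ℕ) : ℝ) ≤ (n : ℝ) ^ (1 / 4 : ℝ) := by
      have h5 : (((2 ^ (2 * q) : ℕ) : ℝ)) = ((((2 ^ (2 * q) : ℕ) : ℝ)) ^ (4 : ℕ)) ^ (1 / 4 : ℝ) := by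
        rw [← Real.rpow_natCast, ← Real.rpow_mul (by positivity)]
        norm_num
      rw [h5]
      refine Real.rpow_le_rpow (by positivity) ?_ (by norm_num)
      have h6 : (2 ^ (2 * q)) ^ 4 ≤ n := by
        rw [← pow_mul]
        exact (Nat.pow_le_pow_right (by norm_num) (by omega)).trans hpow
      exact_mod_cast h6
    refine le_trans ?_ h4
    exact_mod_cast h3
  · have h1 : Real.sqrt ((n : ℝ) ^ (1 / 4 : ℝ)) = (n : ℝ) ^ (1 / 8 : ℝ) := by
      rw [Real.sqrt_eq_rpow, ← Real.rpow_mul hnr.le]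
      norm_num
    rw [h1, div_pow]
    have h2 : ((n : ℝ) ^ (1 / 8 : ℝ)) ^ 9 = n * (n : ℝ) ^ (1 / 8 : ℝ) := by
      rw [pow_succ, ← Real.rpow_natCast, ← Real.rpow_mul hnr.le]
      norm_num
    rw [h2]
    have h3 : (1024 : ℝ) ≤ (n : ℝ) ^ (1 / 8 : ℝ) := by
      have h5 : (1024 : ℝ) = ((1024 : ℝ) ^ (8 : ℕ)) ^ (1 / 8 : ℝ) := by
        rw [← Real.rpow_natCast, ← Real.rpow_mul (by positivity)]
        norm_num
      rw [h5]
      refine Real.rpow_le_rpow (by positivity) ?_ (by norm_num)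
      have h6 : 1024 ^ 8 ≤ n := by
        calc 1024 ^ 8 = 2 ^ 80 := by norm_num
          _ ≤ 2 ^ K := Nat.pow_le_pow_right (by norm_num) (by omega)
          _ ≤ n := hpow
      exact_mod_cast h6
    have hn1 : (1 : ℝ) ≤ n := by exact_mod_cast Nat.pos_of_ne_zero hn0
    rw [div_le_div_iff₀ (by positivity) (by positivity)]
    nlinarith

theorem cut_weights : ∃ n1 : ℕ, ∀ n ≥ n1, ∀ (a : Fin n → ℝ) (a0 : ℝ), 0 ≤ a0 → (∀ i, a0 ≤ |a i|) →
    ∃ (l : ℕ) (a' : Fin n → ℝ) (v : ℝ) (f : Fin n → Fin 45002),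
      0 < l ∧ 2 ^ (1024 * l) ≤ n ∧
      (∀ x, |lin a x - lin a' x| + a0 ≤ v) ∧
      (∑ x, ind (lin a x ≠ lin a' x ∧ |lin a' x| ≤ v) ≤ 2 ^ n * (1 / ((n : ℝ) + 1))) ∧
      (∀ i, f i = 0 → a' i = 0) ∧
      (((univ.filter fun i => f i = 1).card : ℝ) ≤ Real.sqrt n) ∧
      ∀ k : Fin 45002, 2 ≤ (k : ℕ) → (∃ i, f i = k) → ∃ t : ℤ,
        (n : ℝ) ^ (1 / 4 : ℝ) ≤ ((univ.filter fun i => f i = k).card : ℝ) ∧
        ∀ i, f i = k → (2 : ℝ) ^ (t * l) ≤ |a' i| ∧ |a' i| < (2 : ℝ) ^ ((t + 1) * l) := by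
  classical
  obtain ⟨n1, hn1pos, hn1log⟩ : ∃ n1 : ℕ, 0 < n1 ∧ ∀ n ≥ n1, 1024 ≤ Nat.log 2 n := by
    refine ⟨2 ^ 1024, Nat.pow_pos (by norm_num), fun n hn => ?_⟩
    exact Nat.le_log_of_pow_le (by norm_num) hn
  refine ⟨n1, fun n hn a a0 ha0 ha => ?_⟩
  have hn0 : 0 < n := lt_of_lt_of_le hn1pos hn
  obtain ⟨hl, h2l, hn1, hM, hn8⟩ := S1D_num n hn0.ne' (hn1log n hn)
  set l := Nat.log 2 n / 1024 with hldef
  set k := Nat.clog 2 (n + 1) with hk
  have hk1 : ((n : ℝ) + 1) ≤ 2 ^ k := by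
    have := Nat.le_pow_clog (b := 2) (by norm_num) (n + 1)
    exact_mod_cast this
  have hk0 : 0 < k := by
    rw [hk]
    exact Nat.clog_pos (by norm_num) (by omega)
  set L : Finset ℤ := (univ.filter fun i => a i ≠ 0).image (fun i => lev (a i) / (l : ℤ)) with hL
  have hLmem : ∀ t, t ∈ L ↔ ∃ i, a i ≠ 0 ∧ lev (a i) / (l : ℤ) = t := by
    intro t
    rw [hL, Finset.mem_image]
    simp only [Finset.mem_filter, Finset.mem_univ, true_and]
  set Lb : Finset ℤ := L.filter fun t => (n : ℝ) ^ (1 / 4 : ℝ) ≤ ((S1Dwin l a t).card : ℝ) with hLb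
  obtain ⟨g, hg1, hg2, hg3⟩ := L23_enum L
  obtain ⟨gb, hb1, hb2, hb3⟩ := L23_enum Lb
  have hgap := L23_gap hg3
  have hbgap := L23_gap hb3
  -- final assembly from the value of `e`
  have fin : ∀ (e : ℤ) (v : ℝ), (5000 * k < L.card → g (5000 * k - 1) ≤ e) →
      (45000 < Lb.card → gb (45000 - 1) ≤ e) →
      (∀ x, |lin a x - lin (S1Dcut l a e) x| + a0 ≤ v) →
      (∑ x, ind (lin a x ≠ lin (S1Dcut l a e) x ∧ |lin (S1Dcut l a e) x| ≤ v) ≤
        2 ^ n * (1 / ((n : ℝ) + 1))) →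
      ∃ (l : ℕ) (a' : Fin n → ℝ) (v : ℝ) (f : Fin n → Fin 45002),
      0 < l ∧ 2 ^ (1024 * l) ≤ n ∧
      (∀ x, |lin a x - lin a' x| + a0 ≤ v) ∧
      (∑ x, ind (lin a x ≠ lin a' x ∧ |lin a' x| ≤ v) ≤ 2 ^ n * (1 / ((n : ℝ) + 1))) ∧
      (∀ i, f i = 0 → a' i = 0) ∧
      (((univ.filter fun i => f i = 1).card : ℝ) ≤ Real.sqrt n) ∧
      ∀ k : Fin 45002, 2 ≤ (k : ℕ) → (∃ i, f i = k) → ∃ t : ℤ,
        (n : ℝ) ^ (1 / 4 : ℝ) ≤ ((univ.filter fun i => f i = k).card : ℝ) ∧
        ∀ i, f i = k → (2 : ℝ) ^ (t * l) ≤ |a' i| ∧ |a' i| < (2 : ℝ) ^ ((t + 1) * l) := by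
    intro e v h1 h2 h3 h4
    obtain ⟨f, hf1, hf2, hf3⟩ := S1D_classes hl a e (5000 * k) hM (L.filter fun t => e ≤ t)
      (Lb.filter fun t => e ≤ t) (by
        intro i hi hi'
        exact Finset.mem_filter.2 ⟨(hLmem _).2 ⟨i, hi, rfl⟩, hi'⟩)
      (S1D_count L g hg2 hg3 _ (by omega) e h1) (by
        intro t
        rw [Finset.mem_filter, hLb, Finset.mem_filter, Finset.mem_filter]
        tauto)
      (S1D_count Lb gb hb2 hb3 _ (by norm_num) e h2)
    exact ⟨l, S1Dcut l a e, v, f, hl, h2l, h3, h4, hf1, hf2, hf3⟩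
  have hstep : ∀ (e : ℤ), (∃ t ∈ L, t < e) →
      ∀ x, |lin a x - lin (S1Dcut l a e) x| + a0 ≤ (n + 1) * 2 ^ (e * l) := by
    intro e het x
    obtain ⟨t, ht, hte⟩ := het
    obtain ⟨i, hi, hit⟩ := (hLmem t).1 ht
    have h1 := S1D_window_lt hl (a i)
    rw [hit] at h1
    have h2 : a0 ≤ 2 ^ (e * l) := by
      refine (ha i).trans (h1.le.trans ?_)
      refine zpow_le_zpow_right₀ (by norm_num) ?_
      exact mul_le_mul_of_nonneg_right (by omega) (by omega)
    have h3 := S1D_diff hl a e x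
    linarith
  have hA : 45000 < Lb.card → ∑ x, ind (|lin (S1Dcut l a (gb (45000 - 1))) x| ≤
      (n + 1) * 2 ^ (gb (45000 - 1) * l)) ≤ 2 ^ n * (1 / ((n : ℝ) + 1)) := by
    intro hc
    refine S1D_goodA hl hn1 hn8 hn0 a _ (fun j : Fin 9 => gb (5000 * j.1)) ?_ ?_ ?_
    · intro j
      have hj := j.2
      have := hbgap (45000 - 1 - 5000 * j.1) (5000 * j.1) (by omega)
      have h2 : 5000 * j.1 + (45000 - 1 - 5000 * j.1) = 45000 - 1 := by omega
      rw [h2] at this
      omega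
    · intro j q hjq
      have hj := q.2
      have hjq' : j.1 < q.1 := hjq
      have := hbgap (5000 * q.1 - 5000 * j.1) (5000 * j.1) (by omega)
      have h2 : 5000 * j.1 + (5000 * q.1 - 5000 * j.1) = 5000 * q.1 := by omega
      rw [h2] at this
      omega
    · intro j
      have hj := j.2
      have := hb1 (5000 * j.1) (by omega)
      rw [hLb, Finset.mem_filter] at this
      exact this.2
  have hB : 5000 * k < L.card → ∑ x, ind (|lin (S1Dcut l a (g (5000 * k - 1))) x| ≤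
      (n + 1) * 2 ^ (g (5000 * k - 1) * l)) ≤ 2 ^ n * (1 / ((n : ℝ) + 1)) := by
    intro hc
    refine S1D_goodB hl hn1 a _ k hk1 (fun j : Fin k => g (5000 * j.1)) ?_ ?_ ?_
    · intro j
      have hj := j.2
      have := hgap (5000 * k - 1 - 5000 * j.1) (5000 * j.1) (by omega)
      have h2 : 5000 * j.1 + (5000 * k - 1 - 5000 * j.1) = 5000 * k - 1 := by omega
      rw [h2] at this
      omega
    · intro j q hjq
      have hj := q.2
      have hjq' : j.1 < q.1 := hjq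
      have := hgap (5000 * q.1 - 5000 * j.1) (5000 * j.1) (by omega)
      have h2 : 5000 * j.1 + (5000 * q.1 - 5000 * j.1) = 5000 * q.1 := by omega
      rw [h2] at this
      omega
    · intro j
      have hj := j.2
      exact (hLmem _).1 (hg1 (5000 * j.1) (by omega))
  have hweak : ∀ e : ℤ, ∑ x, ind (|lin (S1Dcut l a e) x| ≤ (n + 1) * 2 ^ (e * l)) ≤
      2 ^ n * (1 / ((n : ℝ) + 1)) →
      ∑ x, ind (lin a x ≠ lin (S1Dcut l a e) x ∧ |lin (S1Dcut l a e) x| ≤ (n + 1) * 2 ^ (e * l)) ≤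
      2 ^ n * (1 / ((n : ℝ) + 1)) := by
    intro e h
    refine le_trans (Finset.sum_le_sum fun x _ => ind_mono fun hx => hx.2) h
  have hLbL : ∀ t ∈ Lb, t ∈ L := fun t ht => by
    rw [hLb, Finset.mem_filter] at ht
    exact ht.1
  by_cases c1 : 45000 < Lb.card
  · have hbelow1 : ∃ t ∈ L, t < gb (45000 - 1) :=
      ⟨gb 45000, hLbL _ (hb1 _ c1), hb3 (45000 - 1) 45000 (by norm_num) c1⟩
    by_cases c2 : 5000 * k < L.card
    · have hbelow2 : ∃ t ∈ L, t < g (5000 * k - 1) :=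
        ⟨g (5000 * k), hg1 _ c2, hg3 (5000 * k - 1) (5000 * k) (by omega) c2⟩
      rcases le_total (gb (45000 - 1)) (g (5000 * k - 1)) with h | h
      · exact fin (g (5000 * k - 1)) _ (fun _ => le_rfl) (fun _ => h) (hstep _ hbelow2)
          (hweak _ (hB c2))
      · exact fin (gb (45000 - 1)) _ (fun _ => h) (fun _ => le_rfl) (hstep _ hbelow1)
          (hweak _ (hA c1))
    · exact fin (gb (45000 - 1)) _ (fun h => absurd h c2) (fun _ => le_rfl) (hstep _ hbelow1)
        (hweak _ (hA c1))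
  · by_cases c2 : 5000 * k < L.card
    · have hbelow2 : ∃ t ∈ L, t < g (5000 * k - 1) :=
        ⟨g (5000 * k), hg1 _ c2, hg3 (5000 * k - 1) (5000 * k) (by omega) c2⟩
      exact fin (g (5000 * k - 1)) _ (fun _ => le_rfl) (fun h => absurd h c1) (hstep _ hbelow2)
        (hweak _ (hB c2))
    · -- nothing is cut
      obtain ⟨e, he⟩ : ∃ e : ℤ, ∀ t ∈ L, e ≤ t := L.bddBelow
      have hcut : S1Dcut l a e = a := by
        funext i
        by_cases hi : a i = 0
        · by_contra hne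
          have h1 : S1Dcut l a e i ≠ 0 := by rw [hi] at hne; exact hne
          exact (S1Dcut_ne h1).1 hi
        · exact S1Dcut_pos hi (he _ ((hLmem _).2 ⟨i, hi, rfl⟩))
      refine fin e a0 (fun h => absurd h c2) (fun h => absurd h c1) ?_ ?_
      · intro x
        rw [hcut]
        simp
      · rw [hcut]
        have h1 : ∀ x : Fin n → Bool, ind (lin a x ≠ lin a x ∧ |lin a x| ≤ a0) = 0 := by
          intro x
          apply ind_false
          simp
        simp only [h1, Finset.sum_const_zero]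
        positivity

end BLO
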