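import Pool.Agent.Lib.BLO.Sec1B
import Pool.Agent.Lib.BLO.Sec1C
import Pool.Agent.Lib.BLO.Sec1D
import Pool.Agent.Lib.BLO.Final2
import Pool.Agent.Lib.BLP.LinCard

/-!
# Chunk S1E: assembly of section 1

For `n ≥ n2`: `cut_weights`, `Comp2.fibers` over `Fin 45002` (class `0`: `Comp2.zero`, class `1`: `Comp2.blind`,
the others `window_comp` or empty), `final_of_comp2` with `CN = 400` (`hN_min`), `κ = 1/(n+1)`.
For `n < n2`: `final_of_comp2` with `Comp2.blind a`, `a' = a`.
-/

namespace BLO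

open Finset BLP

/-- one class -/
theorem s1e_class (C : ℝ) (N0 : ℕ) (hC : 0 < C)
    (hW : ∀ (N : ℕ) (a : Fin N → ℝ) (R : ℝ), N0 ≤ N → 1 ≤ R →
      R ^ 256 ≤ N → (∀ i, R⁻¹ ≤ a i ∧ a i ≤ R) →
      (N : ℝ) / 2 ≤ ((univ.filter fun i => 1 ≤ a i).card : ℝ) →
      (N : ℝ) ^ (31 / 32 : ℝ) ≤ ((univ.filter fun i => 1 ≤ a i ∧ a i ≤ 2).card : ℝ) →
      Comp2 a (C * N) C (C * Real.sqrt N) (C * Real.sqrt N) (C * N))
    {n : ℕ} (hn0 : N0 ^ 4 ≤ n) (hn : 1 ≤ n) (a' : Fin n → ℝ) (l : ℕ) (hl : 0 < l) (hln : 2 ^ (1024 * l) ≤ n)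
    {m : ℕ} (f : Fin n → Fin m)
    (hf0 : ∀ i, (f i : ℕ) = 0 → a' i = 0)
    (hf1 : ((univ.filter fun i => (f i : ℕ) = 1).card : ℝ) ≤ Real.sqrt n)
    (hf2 : ∀ k : Fin m, 2 ≤ (k : ℕ) → (∃ i, f i = k) → ∃ t : ℤ,
        (n : ℝ) ^ (1 / 4 : ℝ) ≤ ((univ.filter fun i => f i = k).card : ℝ) ∧
        ∀ i, f i = k → (2 : ℝ) ^ (t * l) ≤ |a' i| ∧ |a' i| < (2 : ℝ) ^ ((t + 1) * l)) (k : Fin m) :
    Comp2 (fun i : {i // f i = k} => a' i) ((C + 1) * n) (C + 1) ((C + 1) * Real.sqrt n)
      ((C + 1) * Real.sqrt n) ((C + 1) * n) := by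
  have hcard : Fintype.card {i // f i = k} = (univ.filter fun i => f i = k).card := by
    rw [Fintype.card_subtype]
  have hn' : (1 : ℝ) ≤ n := by exact_mod_cast hn
  have hsn : (1 : ℝ) ≤ Real.sqrt n := by
    rw [← Real.sqrt_one]; exact Real.sqrt_le_sqrt hn'
  have hle : (Fintype.card {i // f i = k} : ℝ) ≤ n := by
    have := Fintype.card_subtype_le (fun i => f i = k)
    rw [Fintype.card_fin] at this
    exact_mod_cast this
  have hCn : 0 ≤ C * n := by positivity
  have hCs : 0 ≤ C * Real.sqrt n := by positivity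
  rcases Nat.lt_or_ge (k : ℕ) 1 with h | h
  · -- class 0
    have hk : (k : ℕ) = 0 := by omega
    have e : (fun i : {i // f i = k} => a' i) = fun _ => (0 : ℝ) := by
      funext i
      apply hf0
      rw [i.2, hk]
    rw [e]
    refine Comp2.zero.mono ?_ (by linarith) (by linarith) (by linarith) (by linarith)
    linarith
  · rcases Nat.lt_or_ge (k : ℕ) 2 with h2 | h2
    · -- class 1
      have hk : (k : ℕ) = 1 := by omega
      have hc : (Fintype.card {i // f i = k} : ℝ) ≤ Real.sqrt n := by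
        rw [hcard]
        refine le_trans ?_ hf1
        have : (univ.filter fun i => f i = k) ⊆ univ.filter fun i => (f i : ℕ) = 1 := by
          intro i hi
          rw [mem_filter] at hi ⊢
          exact ⟨hi.1, by rw [hi.2, hk]⟩
        exact_mod_cast Finset.card_le_card this
      have hsq : (Fintype.card {i // f i = k} : ℝ) ^ 2 ≤ n := by
        have h3 := pow_le_pow_left₀ (Nat.cast_nonneg _) hc 2
        rwa [Real.sq_sqrt (by linarith)] at h3
      refine (Comp2.blind _).mono ?_ (by linarith) (by linarith) (by linarith) (by linarith)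
      linarith
    · by_cases hne : ∃ i, f i = k
      · obtain ⟨t, ht1, ht2⟩ := hf2 k h2 hne
        rw [← hcard] at ht1
        have hpow : ∀ x : ℕ, x ^ 4 ≤ n → (x : ℝ) ≤ (n : ℝ) ^ (1 / 4 : ℝ) := by
          intro x hx
          have h3 : (x : ℝ) = ((x : ℝ) ^ (4 : ℕ)) ^ (1 / 4 : ℝ) := by
            rw [← Real.rpow_natCast, ← Real.rpow_mul (Nat.cast_nonneg _)]
            norm_num
          rw [h3]
          apply Real.rpow_le_rpow (by positivity) _ (by norm_num)
          exact_mod_cast hx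
        have h4 : N0 ≤ Fintype.card {i // f i = k} := by
          exact_mod_cast (hpow N0 hn0).trans ht1
        have h5 : 2 ^ (256 * l) ≤ Fintype.card {i // f i = k} := by
          have h6 : (2 ^ (256 * l)) ^ 4 ≤ n := by
            rw [← pow_mul]
            have : 256 * l * 4 = 1024 * l := by ring
            rw [this]
            exact hln
          exact_mod_cast (hpow _ h6).trans ht1
        have hc := window_comp C N0 hW (fun i : {i // f i = k} => a' i) l hl t
          (fun i => ht2 i i.2) h4 h5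
        have hs : Real.sqrt (Fintype.card {i // f i = k}) ≤ Real.sqrt n := Real.sqrt_le_sqrt hle
        refine hc.mono ?_ (by linarith) ?_ ?_ ?_
        · nlinarith
        · nlinarith [Real.sqrt_nonneg (Fintype.card {i // f i = k} : ℝ)]
        · nlinarith [Real.sqrt_nonneg (Fintype.card {i // f i = k} : ℝ)]
        · nlinarith
      · have hc0 : (Fintype.card {i // f i = k} : ℝ) = 0 := by
          rw [hcard]
          have : (univ.filter fun i => f i = k) = ∅ := by
            ext i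
            simp only [mem_filter, mem_univ, true_and, notMem_empty, iff_false]
            exact fun h => hne ⟨i, h⟩
          rw [this]
          simp
        refine (Comp2.blind _).mono ?_ (by linarith) ?_ ?_ ?_
        · rw [hc0]; linarith
        · rw [hc0]; linarith
        · rw [hc0]; linarith
        · rw [hc0]
          have : (0 : ℝ) ^ 2 = 0 := by norm_num
          rw [this]
          linarith

theorem main_sorted2 (hW : WindowStmt) : ∃ C0 : ℝ, 0 < C0 ∧ ∀ (n : ℕ) (a : Fin n → ℝ) (a0 : ℝ),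
    0 < n → 0 ≤ a0 → (∀ i, a0 ≤ |a i|) → ∀ H : Finset (Fin (n + 1) → Bool),
    (∀ z, z ∈ H ↔ 0 ≤ lin a (fun i => z i.castSucc) + a0 * sg (z (Fin.last n))) →
    H.card = 2 ^ n →
    ∃ f : (Fin n → Bool) → (Fin (n + 1) → Bool), Function.Injective f ∧
      (∀ z, z ∈ Set.range f ↔ z ∈ H) ∧
      ∑ x, ∑ i, (hammingDist (f x) (f (flp x i)) : ℝ) ≤ 2 ^ n * n * C0 := by
  obtain ⟨C, N0, hC, hW⟩ := hW
  obtain ⟨n1, hcut⟩ := cut_weights
  obtain ⟨n2, hn2⟩ : ∃ n2 : ℕ, n2 = max n1 (N0 ^ 4) := ⟨_, rfl⟩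
  obtain ⟨M, hM⟩ : ∃ M : ℕ, M = 45002 := ⟨_, rfl⟩
  refine ⟨2000 + 2 * n2 + 10 * (M + 1) * (C + 1) + 10 * (M * (C + 1)) ^ 2, by positivity, ?_⟩
  intro n a a0 hn ha0 ha H hH hcard
  have hn1 : (1 : ℝ) ≤ n := by exact_mod_cast hn
  have h0 : a0 = 0 → ∀ x, lin a x ≠ 0 := by
    intro h
    subst h
    exact lin_ne_zero_of_card a H hH hcard
  have hN : ∀ h : (Fin n → Bool) → ℝ, Lip 1 h → ∑ x, h x = 0 →
      ∑ x, |h x| * ind (|lin a x| ≤ a0) ≤ 400 * 2 ^ n := fun h hh hm =>
    hN_min hn a a0 ha0 ha h0 h hh hm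
  have hMC : (0 : ℝ) ≤ 10 * (M + 1) * (C + 1) + 10 * (M * (C + 1)) ^ 2 := by positivity
  rcases Nat.lt_or_ge n n2 with hlt | hge
  · -- small n
    have hlt' : (n : ℝ) ≤ n2 := by exact_mod_cast hlt.le
    obtain ⟨f, hinj, hrange, hsum⟩ := final_of_comp2 hn a a a0 0 0 400 ha0 (fun x => by simp)
      (by
        rw [mul_zero]
        apply le_of_eq
        apply Finset.sum_eq_zero
        intro x _
        apply ind_false
        simp) hN (Comp2.blind a) H hH hcard
    refine ⟨f, hinj, hrange, hsum.trans ?_⟩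
    rw [Fintype.card_fin, mul_assoc ((2 : ℝ) ^ n) (n : ℝ) _]
    refine mul_le_mul_of_nonneg_left ?_ (by positivity)
    have e : (n : ℝ) + n + 2 * n + 2 * (n : ℝ) ^ 2 + 2 * n * (2 * 0 + 2 * 400 + 2 * (n + 1) * 0 + 4) =
        n * (1612 + 2 * n) := by ring
    rw [e]
    refine mul_le_mul_of_nonneg_left ?_ (by linarith)
    linarith
  · -- large n
    have hn1' : n1 ≤ n := (le_max_left _ _).trans (hn2 ▸ hge)
    have hN0 : N0 ^ 4 ≤ n := (le_max_right _ _).trans (hn2 ▸ hge)
    obtain ⟨l, a', v, f0, hl, hln, hv, hκ, hf0, hf1, hf2⟩ := hcut n hn1' a a0 ha0 ha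
    have hcl := fun k => s1e_class C N0 hC hW hN0 hn a' l hl hln f0
      (fun i hi => hf0 i (Fin.ext (by rw [hi]; rfl)))
      (by
        refine le_trans ?_ hf1
        have : (univ.filter fun i => (f0 i : ℕ) = 1) ⊆ univ.filter fun i => f0 i = 1 := by
          intro i hi
          rw [mem_filter] at hi ⊢
          exact ⟨hi.1, Fin.ext (by rw [hi.2]; rfl)⟩
        exact_mod_cast Finset.card_le_card this) hf2 k
    have hcomp := Comp2.fibers f0 a' _ _ _ _ _
      (fun _ => by positivity) (fun _ => by positivity) hcl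
    simp only [Finset.sum_const, Finset.card_univ, Fintype.card_fin, nsmul_eq_mul] at hcomp
    rw [show ((45002 : ℕ) : ℝ) = M by rw [hM]] at hcomp
    obtain ⟨f, hinj, hrange, hsum⟩ := final_of_comp2 hn a a' a0 v (1 / ((n : ℝ) + 1)) 400 ha0
      (fun x => by have := hv x; linarith) hκ hN hcomp H hH hcard
    refine ⟨f, hinj, hrange, hsum.trans ?_⟩
    rw [mul_assoc ((2 : ℝ) ^ n) (n : ℝ) _]
    refine mul_le_mul_of_nonneg_left ?_ (by positivity)
    have hnn : (n : ℝ) + 1 ≠ 0 := by positivity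
    have hsq : Real.sqrt n * Real.sqrt n = n := Real.mul_self_sqrt (by linarith)
    have hsle : Real.sqrt n ≤ n := by
      have h1 : 1 ≤ Real.sqrt n := by
        rw [← Real.sqrt_one]; exact Real.sqrt_le_sqrt hn1
      nlinarith
    have e1 : 2 * ((n : ℝ) + 1) * (1 / (n + 1)) = 2 := by field_simp
    have e2 : (M : ℝ) * ((C + 1) * Real.sqrt n) * (M * ((C + 1) * Real.sqrt n)) =
        (M * (C + 1)) ^ 2 * n := by
      calc (M : ℝ) * ((C + 1) * Real.sqrt n) * (M * ((C + 1) * Real.sqrt n))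
          = (M * (C + 1)) ^ 2 * (Real.sqrt n * Real.sqrt n) := by ring
        _ = _ := by rw [hsq]
    rw [e1, e2]
    have hM0 : (0 : ℝ) ≤ M * (C + 1) := by positivity
    have h3 : (M : ℝ) * ((C + 1) * Real.sqrt n) ≤ M * (C + 1) * n := by
      rw [← mul_assoc]
      exact mul_le_mul_of_nonneg_left hsle hM0
    have h4 : (M : ℝ) * (C + 1) ≤ M * (C + 1) * n := by nlinarith
    have h5 : 0 ≤ (n2 : ℝ) * n := by positivity
    have h6 : 0 ≤ (M * (C + 1)) ^ 2 * (n : ℝ) := by positivity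
    have h7 : 0 ≤ (C + 1) * (n : ℝ) := by positivity
    nlinarith

end BLO
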