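import Pool.Agent.Lib.BLO.W1Defs

/-!
# Chunk WA: the functions `FS s pp` and `FC s G` have letter form and are close to `lin W.a`

Letter form (`LForm`): `T0` = pairs with both weights `≥ 1`, `T1` = pairs with both weights in `[1,2]`.
For the pair `k ∈ T0` of `FS`: `a x + a' x' = 2 v_k val + (0 if equal, ± (a - a') if not)`: the second term is a
function of the type and of the value of a `PM` letter.  `α x k = 2 v_k ∈ [2, ..]`, `≤ 4` on `T1`; for `FC`
`α x k = 2 w_k(u) ∈ [2 - 2 μ, ...]`, `≤ 4 + 2 μ ≤ 5` on `T1`.  The noise is neutral by `WOK.neu`.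

Closeness: `FS s pp - lin W.a` is a linear form in `x`: minus the coordinates of `sᶜ`, plus for `k ∈ pp`
`(v_k - a) x + (v_k - a') x'`, `|v_k - a| = d_k / 2`: deterministically at most `R` in total.
`FC s G - lin W.a`: minus the coordinates of `δ`, `sᶜ` (Hoeffding), `(1 - lam) ∑_s a x`
(deterministic: `(1 - lam) ∑_β a ≤ (1 - lam^2) ∑_β a^2 = tim K ≤ K (4R)^2 / 3 `), `Δ` (linear form of `x` with
coefficients `w_k(u) - v_k` for fixed `u`, each at most `μ`: Hoeffding for every `u`), pair averages (`R`), the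
noise (at most `4 R K`).
-/

set_option linter.unusedSectionVars false
set_option linter.unusedVariables false

namespace BLO

open Finset BLP

variable {β δ P : Type*} [Fintype β] [DecidableEq β] [Fintype δ] [DecidableEq δ]
  [Fintype P] [DecidableEq P]

/-! ### Hoeffding with a general variance -/

theorem wa_tail {ι : Type*} [Fintype ι] [DecidableEq ι] (a : ι → ℝ) {V : ℝ} (hV : ∑ i, a i ^ 2 ≤ V)
    (hV0 : 0 < V) (s : ℝ) (hs : 0 ≤ s) :
    ∑ x : ι → Bool, ind (s ≤ |lin a x|) ≤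
      2 * Real.exp (-(s ^ 2 / (2 * V))) * 2 ^ Fintype.card ι := by
  classical
  set e := (Fintype.equivFin ι).symm with he
  have h1 : ∑ i, a (e i) ^ 2 ≤ V := by
    rw [Equiv.sum_comp e (fun i => a i ^ 2)]
    exact hV
  have h2 := Pool.Agent.Lib.BL.card_large (fun i => a (e i)) h1 hV0 hs
  have h3 : ∑ x : ι → Bool, ind (s ≤ |lin a x|) =
      ((univ.filter fun x : Fin (Fintype.card ι) → Bool =>
        s ≤ |∑ i, a (e i) * Pool.Agent.H99.Bracket.sg (x i)|).card : ℝ) := by
    rw [c1_sum_equiv e, ← sum_ind]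
    refine Finset.sum_congr rfl fun y _ => ?_
    rw [c1_lin_equiv e]
    simp only [Equiv.symm_apply_apply, c1_sg]
  rw [h3]
  refine h2.trans (le_of_eq ?_)
  ring

/-! ### Pairs -/

theorem wa_val (x : WX β δ P) (k : P) :
    2 * (val (st x k) : ℝ) = sg (x (Sum.inr (k, false))) + sg (x (Sum.inr (k, true))) := by
  unfold val st sg
  cases x (Sum.inr (k, false)) <;> cases x (Sum.inr (k, true)) <;> norm_num

theorem wa_pair (a b : ℝ) (x : WX β δ P) (k : P) :
    a * sg (x (Sum.inr (k, false))) + b * sg (x (Sum.inr (k, true))) =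
      2 * ((a + b) / 2) * (val (st x k) : ℝ) +
        (a - b) / 2 * (sg (x (Sum.inr (k, false))) - sg (x (Sum.inr (k, true)))) := by
  have h := wa_val x k
  have h2 : 2 * ((a + b) / 2) * (val (st x k) : ℝ) =
      (a + b) / 2 * (2 * (val (st x k) : ℝ)) := by ring
  rw [h2, h]
  ring

theorem wa_diff {x x' : WX β δ P} {k : P} (h1 : (st x k).1 = (st x' k).1)
    (h2 : (st x k).1 = false → st x k = st x' k) :
    sg (x (Sum.inr (k, false))) - sg (x (Sum.inr (k, true))) =
      sg (x' (Sum.inr (k, false))) - sg (x' (Sum.inr (k, true))) := by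
  unfold st at h1 h2
  unfold sg
  revert h1 h2
  cases x (Sum.inr (k, false)) <;> cases x (Sum.inr (k, true)) <;>
    cases x' (Sum.inr (k, false)) <;> cases x' (Sum.inr (k, true)) <;> simp

theorem wa_diff_le (x : WX β δ P) (k : P) :
    |sg (x (Sum.inr (k, false))) - sg (x (Sum.inr (k, true)))| ≤ 2 := by
  unfold sg
  cases x (Sum.inr (k, false)) <;> cases x (Sum.inr (k, true)) <;> norm_num

/-- the term of a pair in `FS` -/
theorem wa_term (W : WData β δ P) (x : WX β δ P) (k : P) :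
    W.a (Sum.inr (k, false)) * sg (x (Sum.inr (k, false))) +
        W.a (Sum.inr (k, true)) * sg (x (Sum.inr (k, true))) =
      2 * W.v k * (val (st x k) : ℝ) + (W.a (Sum.inr (k, false)) - W.a (Sum.inr (k, true))) / 2 *
        (sg (x (Sum.inr (k, false))) - sg (x (Sum.inr (k, true)))) := by
  rw [wa_pair]
  rfl

theorem lform_FS (W : WData β δ P) (R : ℝ) (J : ℕ) (ε1 : ℝ) (hW : WOK W R J ε1) (T0 T1 : Finset P)
    (h01 : T1 ⊆ T0) (h0 : ∀ k ∈ T0, ∀ s, 1 ≤ W.a (Sum.inr (k, s)))
    (h1 : ∀ k ∈ T1, ∀ s, W.a (Sum.inr (k, s)) ≤ 2) (s : Finset (β ⊕ δ)) (pp : Finset P) :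
    LForm T0 T1 (W.FS s pp) := by
  classical
  refine ⟨fun _ k => 2 * W.v k, fun x => W.FS s pp x - ∑ k ∈ T0, 2 * W.v k * (val (st x k) : ℝ),
    fun _ _ _ => rfl, ?_, fun x => by ring, ?_, ?_⟩
  · intro x x' hag ht hst
    show W.FS s pp x - ∑ k ∈ T0, 2 * W.v k * (val (st x k) : ℝ) =
      W.FS s pp x' - ∑ k ∈ T0, 2 * W.v k * (val (st x' k) : ℝ)
    unfold WData.FS
    have e1 : ∑ i ∈ s, W.a (Sum.inl i) * sg (x (Sum.inl i)) =
        ∑ i ∈ s, W.a (Sum.inl i) * sg (x' (Sum.inl i)) :=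
      Finset.sum_congr rfl fun i _ => by rw [hag.1 i]
    have e2 : ∀ y : WX β δ P, ∑ k ∈ T0, 2 * W.v k * (val (st y k) : ℝ) =
        ∑ k : P, if k ∈ T0 then 2 * W.v k * (val (st y k) : ℝ) else 0 := by
      intro y
      rw [Finset.sum_ite_mem, Finset.univ_inter]
    rw [e1, e2 x, e2 x', add_sub_assoc, add_sub_assoc, ← Finset.sum_sub_distrib,
      ← Finset.sum_sub_distrib]
    congr 1
    refine Finset.sum_congr rfl fun k _ => ?_
    by_cases hk : k ∈ T0
    · rw [if_pos hk, if_pos hk]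
      by_cases hp : k ∈ pp
      · rw [if_pos hp, if_pos hp]
        ring
      · rw [if_neg hp, if_neg hp, wa_term, wa_term, wa_diff (ht k) (hst k)]
        ring
    · rw [if_neg hk, if_neg hk]
      have a1 := hag.2 k hk false
      have a2 := hag.2 k hk true
      have a3 : st x k = st x' k := by
        unfold st
        rw [a1, a2]
      rw [a1, a2, a3]
  · intro x k hk
    have b1 := h0 k hk false
    have b2 := h0 k hk true
    show 1 ≤ 2 * W.v k
    unfold WData.v
    linarith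
  · intro x k hk
    have b1 := h1 k hk false
    have b2 := h1 k hk true
    show 2 * W.v k ≤ 5
    unfold WData.v
    linarith

theorem lform_FC (W : WData β δ P) (R : ℝ) (J : ℕ) (ε1 : ℝ) (hW : WOK W R J ε1) (T0 T1 : Finset P)
    (h01 : T1 ⊆ T0) (h0 : ∀ k ∈ T0, ∀ s, 1 ≤ W.a (Sum.inr (k, s)))
    (h1 : ∀ k ∈ T1, ∀ s, W.a (Sum.inr (k, s)) ≤ 2) (s : Finset β) (G : ℕ) :
    LForm T0 T1 (W.FC s G) := by
  classical
  have hdit : ∀ x x' : WX β δ P, AgreeOff T0 x x' → dit x = dit x' := by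
    intro x x' hag
    funext j
    exact hag.1 (Sum.inr j)
  refine ⟨fun x k => 2 * W.w (dit x) k,
    fun x => W.FC s G x - ∑ k ∈ T0, 2 * W.w (dit x) k * (val (st x k) : ℝ),
    ?_, ?_, fun x => by ring, ?_, ?_⟩
  · intro x x' hag
    funext k
    show 2 * W.w (dit x) k = 2 * W.w (dit x') k
    rw [hdit x x' hag]
  · intro x x' hag ht hst
    have hd := hdit x x' hag
    have e2 : ∀ y : WX β δ P, ∑ k ∈ T0, 2 * W.w (dit y) k * (val (st y k) : ℝ) =
        ∑ k : P, if k ∈ T0 then 2 * W.w (dit y) k * (val (st y k) : ℝ) else 0 := by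
      intro y
      rw [Finset.sum_ite_mem, Finset.univ_inter]
    have e1 : ∑ i ∈ s, W.a (Sum.inl (Sum.inl i)) * sg (x (Sum.inl (Sum.inl i))) =
        ∑ i ∈ s, W.a (Sum.inl (Sum.inl i)) * sg (x' (Sum.inl (Sum.inl i))) :=
      Finset.sum_congr rfl fun i _ => by rw [hag.1 (Sum.inl i)]
    have e3 : W.noise G x = W.noise G x' := by
      unfold WData.noise
      refine Finset.sum_congr rfl fun g hg => ?_
      have hgK := (Finset.mem_Ico.mp hg).2
      obtain ⟨n1, n2⟩ := hW.neu g hgK x x' hd ht hst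
      rw [ind_congr n1, n2, hd]
    have e4 : ∀ y : WX β δ P, (∑ k : P, 2 * W.w (dit y) k * (val (st y k) : ℝ)) -
        ∑ k ∈ T0, 2 * W.w (dit y) k * (val (st y k) : ℝ) =
        ∑ k : P, if k ∈ T0 then 0 else 2 * W.w (dit y) k * (val (st y k) : ℝ) := by
      intro y
      rw [e2, ← Finset.sum_sub_distrib]
      refine Finset.sum_congr rfl fun k _ => ?_
      by_cases hk : k ∈ T0
      · rw [if_pos hk, if_pos hk, sub_self]
      · rw [if_neg hk, if_neg hk, sub_zero]
    have e5 : ∀ y : WX β δ P, W.FC s G y - ∑ k ∈ T0, 2 * W.w (dit y) k * (val (st y k) : ℝ) =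
        W.lam (dit y) * ∑ j ∈ s, W.a (Sum.inl (Sum.inl j)) * sg (y (Sum.inl (Sum.inl j))) +
        (∑ k : P, if k ∈ T0 then 0 else 2 * W.w (dit y) k * (val (st y k) : ℝ)) +
          W.noise G y := by
      intro y
      rw [← e4]
      unfold WData.FC
      ring
    show W.FC s G x - ∑ k ∈ T0, 2 * W.w (dit x) k * (val (st x k) : ℝ) =
      W.FC s G x' - ∑ k ∈ T0, 2 * W.w (dit x') k * (val (st x' k) : ℝ)
    rw [e5, e5, e1, e3, hd]
    congr 2
    refine Finset.sum_congr rfl fun k _ => ?_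
    by_cases hk : k ∈ T0
    · rw [if_pos hk, if_pos hk]
    · rw [if_neg hk, if_neg hk]
      have a1 := hag.2 k hk false
      have a2 := hag.2 k hk true
      have a3 : st x k = st x' k := by
        unfold st
        rw [a1, a2]
      rw [a3]
  · intro x k hk
    have b1 := h0 k hk false
    have b2 := h0 k hk true
    have b3 := abs_le.mp (hW.hw (dit x) k)
    have b4 := hW.hμ
    show 1 ≤ 2 * W.w (dit x) k
    unfold WData.v at b3
    linarith [b3.1, b4.2]
  · intro x k hk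
    have b1 := h1 k hk false
    have b2 := h1 k hk true
    have b3 := abs_le.mp (hW.hw (dit x) k)
    have b4 := hW.hμ
    show 2 * W.w (dit x) k ≤ 5
    unfold WData.v at b3
    linarith [b3.2, b4.2]

theorem lin_eq_FS (W : WData β δ P) (x : WX β δ P) : lin W.a x = W.FS univ ∅ x := by
  unfold lin WData.FS
  rw [Fintype.sum_sum_type, Fintype.sum_prod_type]
  congr 1
  refine Finset.sum_congr rfl fun k _ => ?_
  rw [if_neg (Finset.notMem_empty k), Fintype.sum_bool]
  ring

/-- `Δ` as a linear form in the pairs -/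
theorem wa_delta_lin (W : WData β δ P) (y : β ⊕ δ → Bool) (z : P × Bool → Bool) :
    W.Δ (Sum.elim y z) =
      lin (fun p : P × Bool => W.w (fun j => y (Sum.inr j)) p.1 - W.v p.1) z := by
  unfold WData.Δ lin
  rw [Fintype.sum_prod_type]
  refine Finset.sum_congr rfl fun k _ => ?_
  have h := wa_val (Sum.elim y z) k
  rw [Fintype.sum_bool]
  have e : 2 * (W.w (dit (Sum.elim y z)) k - W.v k) * (val (st (Sum.elim y z) k) : ℝ) =
      (W.w (dit (Sum.elim y z)) k - W.v k) * (2 * (val (st (Sum.elim y z) k) : ℝ)) := by ring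
  rw [e, h]
  simp only [Sum.elim_inr]
  have e2 : (dit (Sum.elim y z) : δ → Bool) = fun j => y (Sum.inr j) := by
    funext j
    simp [dit]
  rw [e2]
  ring

/-- the rounding error is small -/
theorem delta_tail (W : WData β δ P) (R : ℝ) (J : ℕ) (ε1 : ℝ) (hW : WOK W R J ε1) (s : ℝ) (hs : 0 ≤ s) :
    ∑ x, ind (s < |W.Δ x|) ≤
      2 * Real.exp (-(s ^ 2 / (16 * W.μ ^ 2 * (Fintype.card P + 1)))) *
        2 ^ Fintype.card (WC β δ P) := by
  have hμ := hW.hμ.1
  rw [ops_sum_elim]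
  have key : ∀ y : β ⊕ δ → Bool, ∑ z : P × Bool → Bool, ind (s < |W.Δ (Sum.elim y z)|) ≤
      2 * Real.exp (-(s ^ 2 / (16 * W.μ ^ 2 * (Fintype.card P + 1)))) *
        2 ^ Fintype.card (P × Bool) := by
    intro y
    have hV : ∑ p : P × Bool, (W.w (fun j => y (Sum.inr j)) p.1 - W.v p.1) ^ 2 ≤
        8 * W.μ ^ 2 * (Fintype.card P + 1) := by
      calc ∑ p : P × Bool, (W.w (fun j => y (Sum.inr j)) p.1 - W.v p.1) ^ 2
          ≤ ∑ p : P × Bool, W.μ ^ 2 := by
            refine Finset.sum_le_sum fun p _ => ?_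
            have h1 := hW.hw (fun j => y (Sum.inr j)) p.1
            rw [← sq_abs]
            exact pow_le_pow_left₀ (abs_nonneg _) h1 2
        _ = 2 * Fintype.card P * W.μ ^ 2 := by
            rw [Finset.sum_const, Finset.card_univ, nsmul_eq_mul, Fintype.card_prod,
              Fintype.card_bool]
            push_cast
            ring
        _ ≤ 8 * W.μ ^ 2 * (Fintype.card P + 1) := by
            have h2 : (0 : ℝ) ≤ W.μ ^ 2 := by positivity
            have h3 : (0 : ℝ) ≤ Fintype.card P := by positivity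
            nlinarith [mul_nonneg h2 h3]
    have h1 := wa_tail (fun p : P × Bool => W.w (fun j => y (Sum.inr j)) p.1 - W.v p.1) hV
      (by positivity) s hs
    refine le_trans (Finset.sum_le_sum fun z _ => ?_) (h1.trans (le_of_eq ?_))
    · rw [wa_delta_lin]
      exact ind_mono fun h => h.le
    · rw [show 2 * (8 * W.μ ^ 2 * ((Fintype.card P : ℝ) + 1)) =
        16 * W.μ ^ 2 * (Fintype.card P + 1) by ring]
  refine (Finset.sum_le_sum fun y _ => key y).trans (le_of_eq ?_)
  rw [Finset.sum_const, Finset.card_univ, nsmul_eq_mul, Fintype.card_fun, Fintype.card_bool]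
  have hc : Fintype.card (WC β δ P) = Fintype.card (β ⊕ δ) + Fintype.card (P × Bool) :=
    Fintype.card_sum
  rw [hc, pow_add]
  push_cast
  ring

/-- the linear form of the coordinates in `t` -/
noncomputable def waLin (W : WData β δ P) (t : Finset (β ⊕ δ)) : WC β δ P → ℝ
  | Sum.inl i => if i ∈ t then W.a (Sum.inl i) else 0
  | Sum.inr _ => 0

theorem waLin_lin (W : WData β δ P) (t : Finset (β ⊕ δ)) (x : WX β δ P) :
    lin (waLin W t) x = ∑ i ∈ t, W.a (Sum.inl i) * sg (x (Sum.inl i)) := by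
  unfold lin
  rw [Fintype.sum_sum_type]
  have h1 : ∑ p : P × Bool, waLin W t (Sum.inr p) * sg (x (Sum.inr p)) = 0 := by
    refine Finset.sum_eq_zero fun p _ => ?_
    simp [waLin]
  rw [h1, add_zero]
  simp only [waLin, ite_mul, zero_mul]
  rw [Finset.sum_ite_mem, Finset.univ_inter]

theorem waLin_tail (W : WData β δ P) (R : ℝ) (J : ℕ) (ε1 : ℝ) (hW : WOK W R J ε1)
    (t : Finset (β ⊕ δ)) (y : ℝ) (hy : 0 ≤ y) :
    ∑ x : WX β δ P, ind (y ≤ |∑ i ∈ t, W.a (Sum.inl i) * sg (x (Sum.inl i))|) ≤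
      2 * Real.exp (-(y ^ 2 / (8 * (Fintype.card β + Fintype.card δ + 1)))) *
        2 ^ Fintype.card (WC β δ P) := by
  have hV : ∑ i : WC β δ P, waLin W t i ^ 2 ≤ 4 * (Fintype.card β + Fintype.card δ + 1) := by
    rw [Fintype.sum_sum_type]
    have h1 : ∑ p : P × Bool, waLin W t (Sum.inr p) ^ 2 = 0 := by
      refine Finset.sum_eq_zero fun p _ => ?_
      simp [waLin]
    rw [h1, add_zero]
    calc ∑ i : β ⊕ δ, waLin W t (Sum.inl i) ^ 2 ≤ ∑ i : β ⊕ δ, (4 : ℝ) := by
          refine Finset.sum_le_sum fun i _ => ?_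
          have h2 := hW.hB i
          simp only [waLin]
          split_ifs
          · nlinarith [h2.1, h2.2]
          · norm_num
      _ = 4 * (Fintype.card β + Fintype.card δ) := by
          rw [Finset.sum_const, Finset.card_univ, nsmul_eq_mul, Fintype.card_sum]
          push_cast
          ring
      _ ≤ _ := by linarith
  have h2 := wa_tail (waLin W t) hV (by positivity) y hy
  refine le_trans (le_of_eq ?_) (h2.trans (le_of_eq ?_))
  · refine Finset.sum_congr rfl fun x _ => ?_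
    rw [waLin_lin]
  · rw [show 2 * (4 * ((Fintype.card β : ℝ) + Fintype.card δ + 1)) =
      8 * (Fintype.card β + Fintype.card δ + 1) by ring]

/-- the difference between the pairs and their averages -/
theorem wa_pairs_le (W : WData β δ P) (R : ℝ) (J : ℕ) (ε1 : ℝ) (hW : WOK W R J ε1) (pp : Finset P)
    (x : WX β δ P) :
    |∑ k ∈ pp, (W.a (Sum.inr (k, false)) - W.a (Sum.inr (k, true))) / 2 *
        (sg (x (Sum.inr (k, false))) - sg (x (Sum.inr (k, true))))| ≤ R := by
  calc |∑ k ∈ pp, (W.a (Sum.inr (k, false)) - W.a (Sum.inr (k, true))) / 2 *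
        (sg (x (Sum.inr (k, false))) - sg (x (Sum.inr (k, true))))|
      ≤ ∑ k ∈ pp, |(W.a (Sum.inr (k, false)) - W.a (Sum.inr (k, true))) / 2 *
        (sg (x (Sum.inr (k, false))) - sg (x (Sum.inr (k, true))))| :=
        Finset.abs_sum_le_sum_abs _ _
    _ ≤ ∑ k ∈ pp, W.d k := by
        refine Finset.sum_le_sum fun k _ => ?_
        rw [abs_mul, abs_div, abs_of_pos (show (0 : ℝ) < 2 by norm_num)]
        have h1 := wa_diff_le x k
        have h2 := abs_nonneg (W.a (Sum.inr (k, false)) - W.a (Sum.inr (k, true)))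
        unfold WData.d
        nlinarith
    _ ≤ ∑ k, W.d k := Finset.sum_le_sum_of_subset_of_nonneg (Finset.subset_univ _)
        (fun k _ _ => abs_nonneg _)
    _ ≤ R := hW.hd

theorem close_FS (W : WData β δ P) (R : ℝ) (J : ℕ) (ε1 : ℝ) (hW : WOK W R J ε1)
    (s : Finset (β ⊕ δ)) (pp : Finset P) (y : ℝ) (hy : 0 ≤ y) :
    ∑ x, ind (y + R < |W.FS s pp x - lin W.a x|) ≤
      2 * Real.exp (-(y ^ 2 / (8 * (Fintype.card β + Fintype.card δ + 1)))) *
        2 ^ Fintype.card (WC β δ P) := by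
  classical
  refine le_trans (Finset.sum_le_sum fun x _ => ind_mono ?_) (waLin_tail W R J ε1 hW sᶜ y hy)
  intro h
  have h1 := wa_pairs_le W R J ε1 hW pp x
  have e1 : W.FS s pp x - lin W.a x =
      - (∑ i ∈ sᶜ, W.a (Sum.inl i) * sg (x (Sum.inl i))) -
      ∑ k ∈ pp, (W.a (Sum.inr (k, false)) - W.a (Sum.inr (k, true))) / 2 *
        (sg (x (Sum.inr (k, false))) - sg (x (Sum.inr (k, true)))) := by
    rw [lin_eq_FS]
    unfold WData.FS
    rw [← Finset.sum_add_sum_compl s (fun i => W.a (Sum.inl i) * sg (x (Sum.inl i)))]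
    have e2 : (∑ k : P, if k ∈ pp then 2 * W.v k * (val (st x k) : ℝ) else
        W.a (Sum.inr (k, false)) * sg (x (Sum.inr (k, false))) +
          W.a (Sum.inr (k, true)) * sg (x (Sum.inr (k, true)))) =
        (∑ k : P, if k ∈ (∅ : Finset P) then 2 * W.v k * (val (st x k) : ℝ) else
        W.a (Sum.inr (k, false)) * sg (x (Sum.inr (k, false))) +
          W.a (Sum.inr (k, true)) * sg (x (Sum.inr (k, true)))) -
        ∑ k ∈ pp, (W.a (Sum.inr (k, false)) - W.a (Sum.inr (k, true))) / 2 *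
          (sg (x (Sum.inr (k, false))) - sg (x (Sum.inr (k, true)))) := by
      have e3 : ∑ k ∈ pp, (W.a (Sum.inr (k, false)) - W.a (Sum.inr (k, true))) / 2 *
          (sg (x (Sum.inr (k, false))) - sg (x (Sum.inr (k, true)))) =
          ∑ k : P, if k ∈ pp then (W.a (Sum.inr (k, false)) - W.a (Sum.inr (k, true))) / 2 *
          (sg (x (Sum.inr (k, false))) - sg (x (Sum.inr (k, true)))) else 0 := by
        rw [Finset.sum_ite_mem, Finset.univ_inter]
      rw [e3, ← Finset.sum_sub_distrib]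
      refine Finset.sum_congr rfl fun k _ => ?_
      rw [if_neg (Finset.notMem_empty k)]
      by_cases hk : k ∈ pp
      · rw [if_pos hk, if_pos hk, wa_term]
        ring
      · rw [if_neg hk, if_neg hk]
        ring
    rw [e2]
    ring
  rw [e1] at h
  have h2 := abs_sub (- (∑ i ∈ sᶜ, W.a (Sum.inl i) * sg (x (Sum.inl i))))
    (∑ k ∈ pp, (W.a (Sum.inr (k, false)) - W.a (Sum.inr (k, true))) / 2 *
        (sg (x (Sum.inr (k, false))) - sg (x (Sum.inr (k, true)))))
  rw [abs_neg] at h2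
  linarith

/-- the noise is bounded -/
theorem wa_noise_le (W : WData β δ P) (R : ℝ) (J : ℕ) (ε1 : ℝ) (hW : WOK W R J ε1) (G : ℕ)
    (x : WX β δ P) : |W.noise G x| ≤ 4 * R * W.K := by
  have hμ := hW.hμ.1
  have hR := hW.R1
  unfold WData.noise
  calc |∑ g ∈ Ico G W.K, ind (W.good g x) * (W.μ * ((W.m g (dit x) : ℝ) - 1 - 2 * (W.nu g x : ℝ)))|
      ≤ ∑ g ∈ Ico G W.K, |ind (W.good g x) *
        (W.μ * ((W.m g (dit x) : ℝ) - 1 - 2 * (W.nu g x : ℝ)))| := Finset.abs_sum_le_sum_abs _ _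
    _ ≤ ∑ g ∈ Ico G W.K, 4 * R := by
        refine Finset.sum_le_sum fun g hg => ?_
        have hgK := (Finset.mem_Ico.mp hg).2
        by_cases hgood : W.good g x
        · rw [ind_true hgood, one_mul, abs_mul, abs_of_pos hμ]
          have h1 := hW.nu_lt g hgK x hgood
          have h2 := hW.hm g hgK (dit x)
          have h3 : (W.nu g x : ℝ) + 1 ≤ W.m g (dit x) := by exact_mod_cast h1
          have h4 : (0 : ℝ) ≤ W.nu g x := by positivity
          have h5 : |(W.m g (dit x) : ℝ) - 1 - 2 * (W.nu g x : ℝ)| ≤ W.m g (dit x) := by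
            rw [abs_le]
            constructor <;> linarith
          exact (mul_le_mul_of_nonneg_left h5 hμ.le).trans h2.2
        · rw [ind_false hgood, zero_mul, abs_zero]
          linarith
    _ = (W.K - G : ℕ) * (4 * R) := by
        rw [Finset.sum_const, Nat.card_Ico, nsmul_eq_mul]
    _ ≤ W.K * (4 * R) := by
        apply mul_le_mul_of_nonneg_right _ (by linarith)
        exact_mod_cast Nat.sub_le _ _
    _ = 4 * R * W.K := by ring

/-- the factor `lam` changes the blind part by a bounded amount -/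
theorem wa_lam_le (W : WData β δ P) (R : ℝ) (J : ℕ) (ε1 : ℝ) (hW : WOK W R J ε1) (s : Finset β)
    (x : WX β δ P) :
    |(W.lam (dit x) - 1) * ∑ j ∈ s, W.a (Sum.inl (Sum.inl j)) * sg (x (Sum.inl (Sum.inl j)))| ≤
      16 / 3 * R ^ 2 * W.K := by
  have hμ := hW.hμ.1
  have hR := hW.R1
  obtain ⟨l1, l2⟩ := hW.hlam (dit x)
  have hvar := hW.hvar (dit x)
  have hsum : |∑ j ∈ s, W.a (Sum.inl (Sum.inl j)) * sg (x (Sum.inl (Sum.inl j)))| ≤ W.vB := by
    calc |∑ j ∈ s, W.a (Sum.inl (Sum.inl j)) * sg (x (Sum.inl (Sum.inl j)))|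
        ≤ ∑ j ∈ s, |W.a (Sum.inl (Sum.inl j)) * sg (x (Sum.inl (Sum.inl j)))| :=
          Finset.abs_sum_le_sum_abs _ _
      _ ≤ ∑ j ∈ s, W.a (Sum.inl (Sum.inl j)) ^ 2 := by
          refine Finset.sum_le_sum fun j _ => ?_
          have h1 := hW.hB (Sum.inl j)
          have h2 : |sg (x (Sum.inl (Sum.inl j)))| = 1 := by
            unfold sg
            split_ifs <;> norm_num
          rw [abs_mul, h2, mul_one, abs_of_nonneg (by linarith [h1.1])]
          nlinarith [h1.1]
      _ ≤ ∑ j, W.a (Sum.inl (Sum.inl j)) ^ 2 :=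
          Finset.sum_le_sum_of_subset_of_nonneg (Finset.subset_univ _) (fun j _ _ => sq_nonneg _)
      _ = W.vB := rfl
  have htim : W.tim W.K (dit x) ≤ 16 / 3 * R ^ 2 * W.K := by
    unfold WData.tim
    calc ∑ g ∈ range W.K, W.μ ^ 2 * ((W.m g (dit x) : ℝ) ^ 2 - 1) / 3
        ≤ ∑ g ∈ range W.K, 16 / 3 * R ^ 2 := by
          refine Finset.sum_le_sum fun g hg => ?_
          have h2 := hW.hm g (Finset.mem_range.mp hg) (dit x)
          have h3 : (W.μ * (W.m g (dit x) : ℝ)) ^ 2 ≤ (4 * R) ^ 2 :=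
            pow_le_pow_left₀ (by positivity) h2.2 2
          have h4 : 0 ≤ W.μ ^ 2 := by positivity
          have h5 : (W.μ * (W.m g (dit x) : ℝ)) ^ 2 = W.μ ^ 2 * (W.m g (dit x) : ℝ) ^ 2 := by ring
          rw [h5] at h3
          have h6 : W.μ ^ 2 * ((W.m g (dit x) : ℝ) ^ 2 - 1) / 3 =
              (W.μ ^ 2 * (W.m g (dit x) : ℝ) ^ 2 - W.μ ^ 2) / 3 := by ring
          rw [h6]
          linarith
      _ = 16 / 3 * R ^ 2 * W.K := by
          rw [Finset.sum_const, Finset.card_range, nsmul_eq_mul]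
          ring
  have hvB : 0 ≤ W.vB := Finset.sum_nonneg fun j _ => sq_nonneg _
  rw [abs_mul, abs_of_nonpos (by linarith)]
  have h1 : -(W.lam (dit x) - 1) ≤ 1 - W.lam (dit x) ^ 2 := by nlinarith
  calc -(W.lam (dit x) - 1) *
        |∑ j ∈ s, W.a (Sum.inl (Sum.inl j)) * sg (x (Sum.inl (Sum.inl j)))|
      ≤ (1 - W.lam (dit x) ^ 2) * W.vB :=
        mul_le_mul h1 hsum (abs_nonneg _) (by nlinarith)
    _ = W.tim W.K (dit x) := by linarith
    _ ≤ _ := htim

theorem close_FC (W : WData β δ P) (R : ℝ) (J : ℕ) (ε1 : ℝ) (hW : WOK W R J ε1)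
    (s : Finset β) (G : ℕ) (y s1 : ℝ) (hy : 0 ≤ y) (hs1 : 0 ≤ s1) :
    ∑ x, ind (y + s1 + R + 10 * R ^ 2 * W.K < |W.FC s G x - lin W.a x|) ≤
      (2 * Real.exp (-(y ^ 2 / (8 * (Fintype.card β + Fintype.card δ + 1)))) +
        2 * Real.exp (-(s1 ^ 2 / (16 * W.μ ^ 2 * (Fintype.card P + 1))))) *
        2 ^ Fintype.card (WC β δ P) := by
  classical
  have hR := hW.R1
  set t : Finset (β ⊕ δ) := (s.image Sum.inl)ᶜ with ht
  have h1 := waLin_tail W R J ε1 hW t y hy
  have h2 := delta_tail W R J ε1 hW s1 hs1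
  have h3 : ∑ x, ind (y + s1 + R + 10 * R ^ 2 * W.K < |W.FC s G x - lin W.a x|) ≤
      ∑ x, (ind (y ≤ |∑ i ∈ t, W.a (Sum.inl i) * sg (x (Sum.inl i))|) + ind (s1 < |W.Δ x|)) := by
    refine Finset.sum_le_sum fun x _ => le_trans (ind_mono ?_) (ind_or_le _ _)
    intro h
    by_contra hcon
    rw [not_or, not_le, not_lt] at hcon
    obtain ⟨c1, c2⟩ := hcon
    have c3 := wa_pairs_le W R J ε1 hW univ x
    have c4 := wa_noise_le W R J ε1 hW G x
    have c5 := wa_lam_le W R J ε1 hW s x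
    have e1 : W.FC s G x - lin W.a x =
        (W.lam (dit x) - 1) * (∑ j ∈ s, W.a (Sum.inl (Sum.inl j)) * sg (x (Sum.inl (Sum.inl j)))) -
        (∑ i ∈ t, W.a (Sum.inl i) * sg (x (Sum.inl i))) + W.Δ x -
        (∑ k, (W.a (Sum.inr (k, false)) - W.a (Sum.inr (k, true))) / 2 *
          (sg (x (Sum.inr (k, false))) - sg (x (Sum.inr (k, true))))) + W.noise G x := by
      rw [lin_eq_FS]
      unfold WData.FS WData.FC WData.Δ
      have e2 : ∑ i, W.a (Sum.inl i) * sg (x (Sum.inl i)) =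
          ∑ j ∈ s, W.a (Sum.inl (Sum.inl j)) * sg (x (Sum.inl (Sum.inl j))) +
          ∑ i ∈ t, W.a (Sum.inl i) * sg (x (Sum.inl i)) := by
        rw [← Finset.sum_add_sum_compl (s.image Sum.inl)
          (fun i => W.a (Sum.inl i) * sg (x (Sum.inl i))), Finset.sum_image]
        intro i _ j _ hij
        exact Sum.inl_injective hij
      have e3 : ∑ k : P, 2 * W.w (dit x) k * (val (st x k) : ℝ) =
          (∑ k : P, if k ∈ (∅ : Finset P) then 2 * W.v k * (val (st x k) : ℝ) else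
          W.a (Sum.inr (k, false)) * sg (x (Sum.inr (k, false))) +
            W.a (Sum.inr (k, true)) * sg (x (Sum.inr (k, true)))) +
          (∑ k : P, 2 * (W.w (dit x) k - W.v k) * (val (st x k) : ℝ)) -
          ∑ k, (W.a (Sum.inr (k, false)) - W.a (Sum.inr (k, true))) / 2 *
            (sg (x (Sum.inr (k, false))) - sg (x (Sum.inr (k, true)))) := by
        rw [← Finset.sum_add_distrib, ← Finset.sum_sub_distrib]
        refine Finset.sum_congr rfl fun k _ => ?_
        rw [if_neg (Finset.notMem_empty k), wa_term]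
        ring
      rw [e2, e3]
      ring
    have e2 : 4 * R * W.K + 16 / 3 * R ^ 2 * W.K ≤ 10 * R ^ 2 * W.K := by
      have hK : (0 : ℝ) ≤ W.K := by positivity
      have hRR : R ≤ R ^ 2 := by nlinarith
      nlinarith [mul_le_mul_of_nonneg_right hRR hK]
    rw [e1] at h
    have d1 := abs_le.mp c1.le
    have d2 := abs_le.mp c2
    have d3 := abs_le.mp c3
    have d4 := abs_le.mp c4
    have d5 := abs_le.mp c5
    have d6 : |(W.lam (dit x) - 1) *
        (∑ j ∈ s, W.a (Sum.inl (Sum.inl j)) * sg (x (Sum.inl (Sum.inl j)))) -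
        (∑ i ∈ t, W.a (Sum.inl i) * sg (x (Sum.inl i))) + W.Δ x -
        (∑ k, (W.a (Sum.inr (k, false)) - W.a (Sum.inr (k, true))) / 2 *
          (sg (x (Sum.inr (k, false))) - sg (x (Sum.inr (k, true))))) + W.noise G x| ≤
        y + s1 + R + 10 * R ^ 2 * W.K := by
      rw [abs_le]
      constructor <;> linarith [d1.1, d1.2, d2.1, d2.2, d3.1, d3.2, d4.1, d4.2, d5.1, d5.2]
    linarith
  rw [Finset.sum_add_distrib] at h3
  rw [add_mul]
  linarith

end BLO
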