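import Pool.Agent.Lib.BLO.LOF
import Pool.Agent.Lib.BLP.Swap4

/-!
# W1, definitions: the data of a window (section 4 of `PROOF.md`)

Coordinates of a window: blind coordinates `β`, dither coordinates `δ`, pairs `P`.  The pair `k` has the
coordinates `(k, false)`, `(k, true)`; its state is `(equal?, first coordinate)`.  `u = dit x` are the dither
coordinates.  The compared functions are

* `lin W.a` (the linear form of the window),
* `W.FC univ 0 x = lam(u) ∑_β a x + ∑_k 2 w_k(u) val(z_k) + ∑_{g < K} μ (m_g(u) - 1 - 2 nu_g(x))` (sum over the blocks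
  that are not frozen).

`W.FS s pp`: the linear form with only the coordinates in `s ⊆ β + δ` and with the pairs in `pp`
replaced by their averages.  `W.FC s G`: only the blind coordinates in `s` and the noise of the
blocks `g ≥ G`.
-/

namespace BLO

open Finset BLP

/-- coordinates of a window -/
abbrev WC (β δ P : Type*) := (β ⊕ δ) ⊕ (P × Bool)

/-- points of the cube of a window -/
abbrev WX (β δ P : Type*) := WC β δ P → Bool

/-- the data of a window -/
structure WData (β δ P : Type*) where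
  /-- weights -/
  a : WC β δ P → ℝ
  /-- rounded weights of the pairs -/
  w : (δ → Bool) → P → ℝ
  /-- the factor of the blind coordinates -/
  lam : (δ → Bool) → ℝ
  /-- the unit -/
  μ : ℝ
  /-- number of blocks (those that do not occur for `u` have `m = 1`) -/
  K : ℕ
  /-- range of the noise of block `g` -/
  m : ℕ → (δ → Bool) → ℕ
  /-- block `g` is not frozen -/
  good : ℕ → WX β δ P → Prop
  /-- noise of block `g` -/
  nu : ℕ → WX β δ P → ℕ
  /-- resampling the noise of block `g` -/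
  set : ℕ → WX β δ P → ℕ → WX β δ P

section
variable {β δ P : Type*}

/-- states of the pairs -/
def st (x : WX β δ P) : PS P :=
  fun k => (x (Sum.inr (k, false)) == x (Sum.inr (k, true)), x (Sum.inr (k, false)))

/-- dither coordinates -/
def dit (x : WX β δ P) : δ → Bool := fun j => x (Sum.inl (Sum.inr j))

variable [Fintype β] [DecidableEq β] [Fintype δ] [DecidableEq δ] [Fintype P] [DecidableEq P]

/-- mean weight of a pair -/
noncomputable def WData.v (W : WData β δ P) (k : P) : ℝ :=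
  (W.a (Sum.inr (k, false)) + W.a (Sum.inr (k, true))) / 2

/-- difference of the weights of a pair -/
noncomputable def WData.d (W : WData β δ P) (k : P) : ℝ :=
  |W.a (Sum.inr (k, false)) - W.a (Sum.inr (k, true))|

/-- noise of the blocks `g ≥ G` -/
noncomputable def WData.noise (W : WData β δ P) (G : ℕ) (x : WX β δ P) : ℝ :=
  ∑ g ∈ Ico G W.K, ind (W.good g x) * (W.μ * ((W.m g (dit x) : ℝ) - 1 - 2 * (W.nu g x : ℝ)))

/-- variance of the noise of the blocks `g < G` -/
noncomputable def WData.tim (W : WData β δ P) (G : ℕ) (u : δ → Bool) : ℝ :=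
  ∑ g ∈ range G, W.μ ^ 2 * ((W.m g u : ℝ) ^ 2 - 1) / 3

/-- sum over the blind coordinates of the squares of the weights -/
noncomputable def WData.vB (W : WData β δ P) : ℝ := ∑ j : β, W.a (Sum.inl (Sum.inl j)) ^ 2

/-- the linear side: coordinates in `s`, averaged pairs `pp` -/
noncomputable def WData.FS (W : WData β δ P) (s : Finset (β ⊕ δ)) (pp : Finset P) (x : WX β δ P) : ℝ :=
  ∑ i ∈ s, W.a (Sum.inl i) * sg (x (Sum.inl i)) +
    ∑ k : P, if k ∈ pp then 2 * W.v k * (val (st x k) : ℝ) else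
      W.a (Sum.inr (k, false)) * sg (x (Sum.inr (k, false))) +
        W.a (Sum.inr (k, true)) * sg (x (Sum.inr (k, true)))

/-- the rounded side: blind coordinates in `s`, noise of the blocks `g ≥ G` -/
noncomputable def WData.FC (W : WData β δ P) (s : Finset β) (G : ℕ) (x : WX β δ P) : ℝ :=
  W.lam (dit x) * ∑ j ∈ s, W.a (Sum.inl (Sum.inl j)) * sg (x (Sum.inl (Sum.inl j))) +
    ∑ k : P, 2 * W.w (dit x) k * (val (st x k) : ℝ) + W.noise G x

/-- the rounding error -/
noncomputable def WData.Δ (W : WData β δ P) (x : WX β δ P) : ℝ :=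
  ∑ k : P, 2 * (W.w (dit x) k - W.v k) * (val (st x k) : ℝ)

/-- no block is frozen -/
def WData.ok (W : WData β δ P) (x : WX β δ P) : Prop := ∀ g < W.K, W.good g x

/-- the properties of the data; `R ≥ 1` bounds the weights, `J` the number of flips needed for a
resampling of the noise of a block, `ε1` the bias of the rounding -/
structure WOK (W : WData β δ P) (R : ℝ) (J : ℕ) (ε1 : ℝ) : Prop where
  R1 : 1 ≤ R
  hB : ∀ i : β ⊕ δ, 1 ≤ W.a (Sum.inl i) ∧ W.a (Sum.inl i) ≤ 2
  hP : ∀ p : P × Bool, 0 ≤ W.a (Sum.inr p) ∧ W.a (Sum.inr p) ≤ R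
  hd : ∑ k, W.d k ≤ R
  hμ : 0 < W.μ ∧ W.μ ≤ 1 / 2
  hw : ∀ u k, |W.w u k - W.v k| ≤ W.μ
  hmean : ∀ k, |∑ u : δ → Bool, (W.w u k - W.v k)| ≤ ε1 * 2 ^ Fintype.card δ
  hlam : ∀ u, 1 / 2 ≤ W.lam u ∧ W.lam u ≤ 1
  hvar : ∀ u, W.lam u ^ 2 * W.vB + W.tim W.K u = W.vB
  hm : ∀ g < W.K, ∀ u, 0 < W.m g u ∧ W.μ * W.m g u ≤ 4 * R
  nu_lt : ∀ g < W.K, ∀ x, W.good g x → W.nu g x < W.m g (dit x)
  set_good : ∀ g < W.K, ∀ x, W.good g x → ∀ t < W.m g (dit x), W.good g (W.set g x t) ∧
    W.nu g (W.set g x t) = t ∧ ∀ t' < W.m g (dit x), W.set g (W.set g x t) t' = W.set g x t'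
  set_self : ∀ g < W.K, ∀ x, W.good g x → W.set g x (W.nu g x) = x
  set_other : ∀ g < W.K, ∀ x, W.good g x → ∀ t < W.m g (dit x), ∀ g' < W.K, g' ≠ g →
    (W.good g' (W.set g x t) ↔ W.good g' x) ∧ W.nu g' (W.set g x t) = W.nu g' x
  set_inl : ∀ g < W.K, ∀ x, W.good g x → ∀ t < W.m g (dit x), ∀ i,
    W.set g x t (Sum.inl i) = x (Sum.inl i)
  set_st : ∀ g < W.K, ∀ x, W.good g x → ∀ t < W.m g (dit x), ∀ k,
    (st (W.set g x t) k).1 = (st x k).1 ∧ ((st x k).1 = true → st (W.set g x t) k = st x k)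
  set_dist : ∀ g < W.K, ∀ x, W.good g x → ∀ t < W.m g (dit x),
    hammingDist x (W.set g x t) ≤ J
  neu : ∀ g < W.K, ∀ x x', dit x = dit x' → (∀ k, (st x k).1 = (st x' k).1) →
    (∀ k, (st x k).1 = false → st x k = st x' k) → (W.good g x ↔ W.good g x') ∧ W.nu g x = W.nu g x'

/-- `x` and `x'` agree outside the pairs in `T` -/
def AgreeOff (T : Finset P) (x x' : WX β δ P) : Prop :=
  (∀ j, x (Sum.inl j) = x' (Sum.inl j)) ∧ ∀ k, k ∉ T → ∀ s, x (Sum.inr (k, s)) = x' (Sum.inr (k, s))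

/-- `F` depends on the pairs in `T` only through their types and the values of the `PM` letters -/
def Neu (T : Finset P) (F : WX β δ P → ℝ) : Prop :=
  ∀ x x', AgreeOff T x x' → (∀ k, (st x k).1 = (st x' k).1) →
    (∀ k, (st x k).1 = false → st x k = st x' k) → F x = F x'

/-- letter form of a function: free letters of weight `≥ 1` in `T0`, of weight `≤ 5` in `T1 ⊆ T0` -/
def LForm (T0 T1 : Finset P) (Z : WX β δ P → ℝ) : Prop :=
  ∃ (α : WX β δ P → P → ℝ) (F : WX β δ P → ℝ),
    (∀ x x', AgreeOff T0 x x' → α x = α x') ∧ Neu T0 F ∧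
    (∀ x, Z x = ∑ k ∈ T0, α x k * (val (st x k) : ℝ) + F x) ∧
    (∀ x, ∀ k ∈ T0, 1 ≤ α x k) ∧ ∀ x, ∀ k ∈ T1, α x k ≤ 5

end

end BLO
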