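import Pool.Agent.Lib.BLP.Heat

/-!
# Chunk WH: more estimates for the smoothed indicator `phi t v` (see `BLP/Heat.lean`)

`phi (r^2 t) (r v) = phi t v`.  Everything follows from the estimates of `BLP/Heat` by scaling:
* `phi_shift2`: scale to `t = 16` (`r = 4 / √t`), then `|a| ≤ 4`: `BLP.phi_shift`.
* `phi_noise2`: `r = 4 / b`, then `μ m ≤ 4`, `t ≥ 16`: `BLP.phi_noise`.
* `phi_sym2`, `phi_taylor2`: scale to `t = 16`; `H_k1` is the `v`-derivative of `phi`, `H_k2` the derivative of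
  `H_k1` (`H_d1`), `|H_k2 t v| ≤ 1/t exp (-v^2/4t)` (`H_b2`), `H_near`/`H_k2_near` for nearby places, `H_mvi` twice.
* `phi_time2`: `∂_t phi = H_k2 / 2` (`H_phi_curve`), `H_k2_near`.
-/

namespace BLO

open Finset BLP

theorem phi_scale (t v r : ℝ) (ht : 0 < t) (hr : 0 < r) : phi (r ^ 2 * t) (r * v) = phi t v := by
  have _ := ht
  unfold phi
  rw [Real.sqrt_mul (sq_nonneg r), Real.sqrt_sq hr.le, mul_div_mul_left _ _ hr.ne']

private theorem wh_k1_scale (t v r : ℝ) (ht : 0 < t) (hr : 0 < r) :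
    r * H_k1 (r ^ 2 * t) (r * v) = H_k1 t v := by
  have hq : 0 < Real.sqrt t := Real.sqrt_pos.2 ht
  unfold H_k1
  rw [Real.sqrt_mul (sq_nonneg r), Real.sqrt_sq hr.le]
  have e : (r * v) ^ 2 / (2 * (r ^ 2 * t)) = v ^ 2 / (2 * t) := by field_simp
  rw [e]
  field_simp

private theorem wh_sqrt16 : Real.sqrt 16 = 4 := by
  rw [show (16 : ℝ) = 4 ^ 2 by norm_num, Real.sqrt_sq (by norm_num)]

theorem phi_shift2 (t v a : ℝ) (ht : 0 < t) (ha : a ^ 2 ≤ t) :
    |phi t (v + a) - phi t v| ≤ 100 * |a| / Real.sqrt t * Real.exp (-(v ^ 2 / (8 * t))) := by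
  have hq : 0 < Real.sqrt t := Real.sqrt_pos.2 ht
  have hq2 : Real.sqrt t ^ 2 = t := Real.sq_sqrt ht.le
  have haq : |a| ≤ Real.sqrt t := Real.abs_le_sqrt ha
  set q := Real.sqrt t with hqd
  have hr : 0 < 4 / q := by positivity
  have h16 : (4 / q) ^ 2 * t = 16 := by
    rw [← hq2]; field_simp; norm_num
  have h := phi_shift ((4 / q) ^ 2 * t) (4 / q * v) (4 / q * a) (by rw [h16]) (by
    rw [abs_mul, abs_of_pos hr, div_mul_eq_mul_div, div_le_iff₀ hq]; linarith)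
  rw [← mul_add, phi_scale _ _ _ ht hr, phi_scale _ _ _ ht hr] at h
  have e1 : (4 / q * v) ^ 2 / (8 * ((4 / q) ^ 2 * t)) = v ^ 2 / (8 * t) := by field_simp
  rw [e1, h16, abs_mul, abs_of_pos hr, wh_sqrt16] at h
  have e2 : 100 * (4 / q * |a|) / 4 = 100 * |a| / q := by field_simp
  rwa [e2] at h

/-- second order Taylor formula, sharp constant -/
private theorem wh_taylor (t v a : ℝ) (ht : 0 < t) (ha : a ^ 2 ≤ t) :
    |phi t (v + a) - phi t v - a * H_k1 t v| ≤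
      6 * a ^ 2 / t * Real.exp (-(v ^ 2 / (8 * t))) := by
  have hq : 0 < Real.sqrt t := Real.sqrt_pos.2 ht
  have hq2 : Real.sqrt t ^ 2 = t := Real.sq_sqrt ht.le
  have haq : |a| ≤ Real.sqrt t := Real.abs_le_sqrt ha
  set q := Real.sqrt t with hqd
  have hr : 0 < 4 / q := by positivity
  have h16 : (4 / q) ^ 2 * t = 16 := by
    rw [← hq2]; field_simp; norm_num
  set V : ℝ := 4 / q * v with hV
  set b : ℝ := 4 / q * a with hb
  have hb4 : |b| ≤ 4 := by
    rw [hb, abs_mul, abs_of_pos hr, div_mul_eq_mul_div, div_le_iff₀ hq]; linarith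
  set E := Real.exp (-(V ^ 2 / (8 * 16))) with hE
  have hE0 : 0 < E := Real.exp_pos _
  have e16 : (0 : ℝ) < 16 := by norm_num
  -- the derivative
  have h1 : ∀ s : ℝ, |s| ≤ 4 → |H_k1 16 (V + s) - H_k1 16 V| ≤ 3 / 8 * E * |s| := by
    intro s hs
    have h := H_mvi (f := fun s => H_k1 16 (V + s)) (f' := fun s => H_k2 16 (V + s)) (p := 0)
      (q := s) (C := 3 / 8 * E)
      (fun y _ => H_dadd _ _ V y (H_d1 16 (V + y) e16))
      (fun y hy => by
        have h2 := H_k2_near 16 16 V y le_rfl (by norm_num) (by norm_num) (H_uicc hs hy)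
        rw [wh_sqrt16] at h2
        refine h2.trans (le_of_eq ?_)
        rw [hE]
        norm_num)
    simpa using h
  have h2 := H_mvi (f := fun s => phi 16 (V + s) - s * H_k1 16 V)
    (f' := fun s => H_k1 16 (V + s) - H_k1 16 V) (p := 0) (q := b) (C := 3 / 8 * E * |b|)
    (fun s _ => by
      have g1 := H_phi_curve (hasDerivAt_const s (16 : ℝ)) (H_dadd _ _ V s (hasDerivAt_id _)) e16
      have g2 := g1.sub ((hasDerivAt_id s).mul_const (H_k1 16 V))
      refine g2.congr_deriv ?_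
      simp)
    (fun s hs => by
      have hs4 : |s| ≤ |b| := H_uicc le_rfl hs
      refine (h1 s (hs4.trans hb4)).trans ?_
      exact mul_le_mul_of_nonneg_left hs4 (by positivity))
  simp only [add_zero, zero_mul, sub_zero] at h2
  have e1 : phi 16 (V + b) = phi t (v + a) := by
    rw [hV, hb, ← mul_add, ← h16, phi_scale _ _ _ ht hr]
  have e2 : phi 16 V = phi t v := by
    rw [hV, ← h16, phi_scale _ _ _ ht hr]
  have e3 : b * H_k1 16 V = a * H_k1 t v := by
    rw [hV, hb, ← h16, ← wh_k1_scale t v (4 / q) ht hr]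
    ring
  have e4 : V ^ 2 / (8 * 16) = v ^ 2 / (8 * t) := by
    rw [hV, ← h16]
    field_simp
  rw [e1, e2, e3, hE, e4] at h2
  have e5 : |b| * |b| = 16 * a ^ 2 / t := by
    rw [abs_mul_abs_self, hb, ← hq2]
    field_simp
    ring
  have e6 : phi t (v + a) - phi t v - a * H_k1 t v =
    phi t (v + a) - a * H_k1 t v - phi t v := by ring
  rw [e6]
  refine h2.trans (le_of_eq ?_)
  calc 3 / 8 * Real.exp (-(v ^ 2 / (8 * t))) * |b| * |b| =
      3 / 8 * (|b| * |b|) * Real.exp (-(v ^ 2 / (8 * t))) := by ring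
    _ = _ := by rw [e5]; ring

theorem phi_sym2 (t v a : ℝ) (ht : 0 < t) (ha : a ^ 2 ≤ t) :
    |phi t (v + a) + phi t (v - a) - 2 * phi t v| ≤
      100 * a ^ 2 / t * Real.exp (-(v ^ 2 / (8 * t))) := by
  have h1 := wh_taylor t v a ht ha
  have h2 := wh_taylor t v (-a) ht (by rwa [neg_sq])
  rw [neg_sq, ← sub_eq_add_neg] at h2
  have e : phi t (v + a) + phi t (v - a) - 2 * phi t v =
      (phi t (v + a) - phi t v - a * H_k1 t v) + (phi t (v - a) - phi t v - -a * H_k1 t v) := by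
    ring
  rw [e]
  refine (abs_add_le _ _).trans ((add_le_add h1 h2).trans ?_)
  have h3 : 0 ≤ a ^ 2 / t * Real.exp (-(v ^ 2 / (8 * t))) := by positivity
  have e1 : ∀ k : ℝ, k * a ^ 2 / t * Real.exp (-(v ^ 2 / (8 * t))) =
    k * (a ^ 2 / t * Real.exp (-(v ^ 2 / (8 * t)))) := fun k => by ring
  rw [e1, e1]
  linarith

theorem phi_taylor2 (t v a : ℝ) (ht : 0 < t) (ha : a ^ 2 ≤ t) :
    |phi t (v + a) - phi t v - a * H_k1 t v| ≤
      100 * a ^ 2 / t * Real.exp (-(v ^ 2 / (8 * t))) := by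
  refine (wh_taylor t v a ht ha).trans ?_
  have h3 : 0 ≤ a ^ 2 / t * Real.exp (-(v ^ 2 / (8 * t))) := by positivity
  have e1 : ∀ k : ℝ, k * a ^ 2 / t * Real.exp (-(v ^ 2 / (8 * t))) =
    k * (a ^ 2 / t * Real.exp (-(v ^ 2 / (8 * t)))) := fun k => by ring
  rw [e1, e1]
  linarith

private theorem wh_exp_le (t s v : ℝ) (hs : 0 < s) (hst : s ≤ 2 * t) :
    Real.exp (-(v ^ 2 / (4 * s))) ≤ Real.exp (-(v ^ 2 / (8 * t))) := by
  apply Real.exp_le_exp.2
  have : v ^ 2 / (8 * t) ≤ v ^ 2 / (4 * s) :=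
    div_le_div_of_nonneg_left (sq_nonneg _) (by positivity) (by linarith)
  linarith

theorem H_k1_bound (t v : ℝ) (ht : 0 < t) :
    |H_k1 t v| ≤ 1 / Real.sqrt t * Real.exp (-(v ^ 2 / (8 * t))) :=
  (H_b1 t v ht).trans (mul_le_mul_of_nonneg_left (wh_exp_le t t v ht (by linarith))
    (by positivity))

theorem phi_time2 (t t' v : ℝ) (ht : 0 < t) (htt : t ≤ t') (htt' : t' ≤ 4 / 3 * t) :
    |phi t' v - phi t v| ≤ 100 * (t' - t) / t * Real.exp (-(v ^ 2 / (8 * t))) := by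
  set E := Real.exp (-(v ^ 2 / (8 * t))) with hE
  have hE0 : 0 < E := Real.exp_pos _
  have h := H_mvi (f := fun s => phi s v) (f' := fun s => H_k2 s v / 2) (p := t) (q := t')
    (C := 1 / t * E)
    (fun s hs => by
      rw [Set.uIcc_of_le htt] at hs
      have hs0 : 0 < s := lt_of_lt_of_le ht hs.1
      have h1 := H_phi_curve (hasDerivAt_id s) (hasDerivAt_const s v) hs0
      refine h1.congr_deriv ?_
      simp)
    (fun s hs => by
      rw [Set.uIcc_of_le htt] at hs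
      have hs0 : 0 < s := lt_of_lt_of_le ht hs.1
      have h1 := H_b2 s v hs0
      have h2 := wh_exp_le t s v hs0 (by linarith [hs.2])
      have h3 : 1 / s ≤ 1 / t := one_div_le_one_div_of_le ht hs.1
      have h4 : 1 / s * Real.exp (-(v ^ 2 / (4 * s))) ≤ 1 / t * E :=
        mul_le_mul h3 h2 (Real.exp_pos _).le (by positivity)
      rw [abs_div, abs_two]
      have h5 := abs_nonneg (H_k2 s v)
      linarith)
  rw [abs_of_nonneg (sub_nonneg.2 htt)] at h
  refine h.trans ?_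
  have h3 : 0 ≤ (t' - t) / t * E := mul_nonneg (div_nonneg (sub_nonneg.2 htt) ht.le) hE0.le
  have e1 : 1 / t * E * (t' - t) = (t' - t) / t * E := by ring
  have e2 : 100 * (t' - t) / t * E = 100 * ((t' - t) / t * E) := by ring
  rw [e1, e2]
  linarith

theorem phi_noise2 (t v μ b : ℝ) (m : ℕ) (hm : 0 < m) (hμ : 0 ≤ μ) (hμm : μ * m ≤ b) (hb : 0 < b)
    (hbt : b ^ 2 ≤ t) :
    |(∑ u ∈ range m, phi t (v + μ * (m - 1 - 2 * u))) / m -
        phi (t + μ ^ 2 * (m ^ 2 - 1) / 3) v| ≤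
      10 * b ^ 4 / t ^ 2 * Real.exp (-(v ^ 2 / (8 * t))) := by
  have ht : 0 < t := lt_of_lt_of_le (by positivity) hbt
  have hr : 0 < 4 / b := by positivity
  have hm1 : (1 : ℝ) ≤ m := by exact_mod_cast hm
  have h16 : 16 ≤ (4 / b) ^ 2 * t := by
    have e : (4 / b) ^ 2 * t = 16 * (t / b ^ 2) := by ring
    have h1 : 1 ≤ t / b ^ 2 := by rw [one_le_div (by positivity)]; exact hbt
    rw [e]
    linarith
  have h := phi_noise ((4 / b) ^ 2 * t) (4 / b * v) (4 / b * μ) m hm h16 (by positivity) (by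
    rw [mul_assoc, div_mul_eq_mul_div, div_le_iff₀ hb]
    linarith)
  have e1 : ∀ u : ℕ, phi ((4 / b) ^ 2 * t) (4 / b * v + 4 / b * μ * (m - 1 - 2 * u)) =
      phi t (v + μ * (m - 1 - 2 * u)) := by
    intro u
    rw [← phi_scale t _ (4 / b) ht hr]
    congr 1
    ring
  have hσ : 0 < t + μ ^ 2 * ((m : ℝ) ^ 2 - 1) / 3 := by
    have : 0 ≤ (m : ℝ) ^ 2 - 1 := by nlinarith
    positivity
  have e2 : phi ((4 / b) ^ 2 * t + (4 / b * μ) ^ 2 * ((m : ℝ) ^ 2 - 1) / 3) (4 / b * v) =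
      phi (t + μ ^ 2 * ((m : ℝ) ^ 2 - 1) / 3) v := by
    rw [← phi_scale (t + μ ^ 2 * ((m : ℝ) ^ 2 - 1) / 3) v (4 / b) hσ hr]
    congr 1
    ring
  have e3 : (4 / b * v) ^ 2 / (8 * ((4 / b) ^ 2 * t)) = v ^ 2 / (8 * t) := by field_simp
  rw [e2, e3, Finset.sum_congr rfl fun u _ => e1 u] at h
  refine h.trans (mul_le_mul_of_nonneg_right ?_ (Real.exp_pos _).le)
  have e4 : 1000 / ((4 / b) ^ 2 * t) ^ 2 = 1000 / 256 * (b ^ 4 / t ^ 2) := by
    field_simp
    ring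
  have h5 : 0 ≤ b ^ 4 / t ^ 2 := by positivity
  rw [e4, mul_div_assoc]
  nlinarith

end BLO
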