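import Pool.Agent.Lib.BLO.W1Defs
import Pool.Agent.Lib.BLO.NL
import Pool.Agent.Lib.BLO.MT
import Pool.Agent.Lib.BLP.Conc1

/-!
# Chunk WK: unit windows of functions in letter form

`kap_one`: `loe` with `α0 = 1`, `u = 1` (for fixed coordinates outside `T0`; the coefficients `α x` are constant
then; convert `WX` to `(β ⊕ δ → Bool) × PS P`, or use `kap_cond` with `V = T0` and `ccnt_univ`/`cond_sum`).
`kap_cond`: the conditional form needed for `nl` (groups `grp (inr (k, _)) = some k`): only the pairs in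
`V ⊆ T0` are free, the letters in `T0 \ V` are constants; `(1 + 1) * 2 / √|V|`.
`kap_h`: `nl` with `q = 4`.
`kap_mt`: fix the coordinates outside `T1`, the types of the pairs in `T1` and the values of the `PM` letters;
`τ` = the set of `N` letters in `T1`, both functions increase by `2 α ∈ [2, 10]` when a letter goes from `-` to `+`:
`mt` (if `|τ| ≥ |T1| / 4`, so `16 (D+20) (Λ+D+20) ≤ |τ|`).  The bad cases: `|τ| < |T1| / 4`, probability
`≤ 2 exp (-|T1|/64)` and `|2 #{+} - |τ|| > 2 Λ`, probability `≤ 2 exp (-Λ^2/(2(|T1|+1)))` (both by `BLP.lin_tail`).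
-/

namespace BLO

open Finset BLP

variable {β δ P : Type*} [Fintype β] [DecidableEq β] [Fintype δ] [DecidableEq δ]
  [Fintype P] [DecidableEq P]

set_option linter.unusedSectionVars false

/-- the groups of the window: the pairs -/
def pgrp : WC β δ P → Option P
  | Sum.inl _ => none
  | Sum.inr p => some p.1

/-- the point with the coordinates `x` outside of the pairs and the pair states `s` -/
def wkEnc (x : WX β δ P) (s : PS P) : WX β δ P
  | Sum.inl i => x (Sum.inl i)
  | Sum.inr (k, false) => (s k).2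
  | Sum.inr (k, true) => if (s k).1 = true then (s k).2 else !(s k).2

omit [Fintype β] [DecidableEq β] [Fintype δ] [DecidableEq δ] [Fintype P] [DecidableEq P] in
theorem wkEnc_inl (x : WX β δ P) (s : PS P) (i : β ⊕ δ) : wkEnc x s (Sum.inl i) = x (Sum.inl i) := rfl

omit [Fintype β] [DecidableEq β] [Fintype δ] [DecidableEq δ] [Fintype P] [DecidableEq P] in
theorem st_wkEnc (x : WX β δ P) (s : PS P) : st (wkEnc x s) = s := by
  funext k
  change ((s k).2 == (if (s k).1 = true then (s k).2 else !(s k).2), (s k).2) = s k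
  rcases s k with ⟨a, b⟩
  cases a <;> cases b <;> rfl

omit [Fintype β] [DecidableEq β] [Fintype δ] [DecidableEq δ] [Fintype P] [DecidableEq P] in
theorem wkEnc_st (x z : WX β δ P) (h : ∀ i, z (Sum.inl i) = x (Sum.inl i)) : wkEnc x (st z) = z := by
  funext i
  rcases i with i | ⟨k, s⟩
  · rw [wkEnc_inl, h i]
  · unfold st wkEnc
    cases s
    · rfl
    · simp only
      cases z (Sum.inr (k, false)) <;> cases z (Sum.inr (k, true)) <;> rfl

omit [Fintype β] [DecidableEq β] [Fintype δ] [DecidableEq δ] [Fintype P] [DecidableEq P] in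
theorem wk_eq_of_st {x z : WX β δ P} {k : P} (h : st x k = st z k) (s : Bool) :
    x (Sum.inr (k, s)) = z (Sum.inr (k, s)) := by
  unfold st at h
  rw [Prod.mk.injEq] at h
  obtain ⟨h1, h2⟩ := h
  cases s
  · exact h2
  · rw [h2] at h1
    revert h1
    cases z (Sum.inr (k, false)) <;> cases z (Sum.inr (k, true)) <;>
      cases x (Sum.inr (k, true)) <;> simp

omit [Fintype β] [DecidableEq β] [Fintype δ] [DecidableEq δ] [Fintype P] [DecidableEq P] in
theorem wk_st_of_eq {x z : WX β δ P} {k : P} (h : ∀ s, x (Sum.inr (k, s)) = z (Sum.inr (k, s))) :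
    st x k = st z k := by
  unfold st
  rw [h false, h true]

theorem mem_coo_pgrp (V : Finset P) (p : P × Bool) :
    (Sum.inr p : WC β δ P) ∈ coo (pgrp : WC β δ P → Option P) V ↔ p.1 ∈ V := by
  unfold coo
  rw [Finset.mem_filter]
  constructor
  · rintro ⟨_, t, ht, h⟩
    unfold pgrp at h
    simp only [Option.some.injEq] at h
    rw [h]; exact ht
  · intro h
    exact ⟨Finset.mem_univ _, p.1, h, rfl⟩

theorem not_mem_coo_pgrp (V : Finset P) (i : β ⊕ δ) :
    (Sum.inl i : WC β δ P) ∉ coo (pgrp : WC β δ P → Option P) V := by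
  unfold coo
  rw [Finset.mem_filter]
  rintro ⟨_, t, ht, h⟩
  unfold pgrp at h
  simp at h

theorem card_coo_pgrp (V : Finset P) :
    (coo (pgrp : WC β δ P → Option P) V).card = 2 * V.card := by
  have h : coo (pgrp : WC β δ P → Option P) V =
      (V ×ˢ (univ : Finset Bool)).map Function.Embedding.inr := by
    ext i
    rcases i with i | p
    · constructor
      · intro h; exact absurd h (not_mem_coo_pgrp V i)
      · intro h
        rw [Finset.mem_map] at h
        obtain ⟨q, _, hq⟩ := h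
        exact absurd hq (by simp)
    · rw [mem_coo_pgrp, Finset.mem_map]
      constructor
      · intro h
        exact ⟨p, by rw [Finset.mem_product]; exact ⟨h, Finset.mem_univ _⟩, rfl⟩
      · rintro ⟨q, hq, hqp⟩
        have : q = p := by simpa using hqp
        subst this
        exact (Finset.mem_product.1 hq).1
  rw [h, Finset.card_map, Finset.card_product]
  simp [mul_comm]

/-- conditional counts of the window and of the states of the pairs -/
theorem wk_ccnt (V : Finset P) (E : WX β δ P → Prop) (x : WX β δ P) :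
    ccnt (coo pgrp V) E x = ccnt V (fun s => E (wkEnc x s)) (st x) := by
  classical
  unfold ccnt
  rw [sum_ind, sum_ind]
  norm_cast
  refine Finset.card_bij' (fun z _ => st z) (fun s _ => wkEnc x s) ?_ ?_ ?_ ?_
  · intro z hz
    rw [Finset.mem_filter] at hz ⊢
    obtain ⟨_, hz1, hz2⟩ := hz
    refine ⟨Finset.mem_univ _, ?_, ?_⟩
    · intro k hk
      refine wk_st_of_eq fun s => hz1 _ ?_
      rw [mem_coo_pgrp]
      exact hk
    · change E (wkEnc x (st z))
      rw [wkEnc_st x z fun i => hz1 _ (not_mem_coo_pgrp V i)]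
      exact hz2
  · intro s hs
    rw [Finset.mem_filter] at hs ⊢
    obtain ⟨_, hs1, hs2⟩ := hs
    refine ⟨Finset.mem_univ _, ?_, hs2⟩
    intro i hi
    rcases i with i | ⟨k, s'⟩
    · rfl
    · rw [mem_coo_pgrp] at hi
      refine wk_eq_of_st ?_ s'
      rw [st_wkEnc]
      exact hs1 k hi
  · intro z hz
    rw [Finset.mem_filter] at hz
    exact wkEnc_st x z fun i => hz.2.1 _ (not_mem_coo_pgrp V i)
  · intro s _
    exact st_wkEnc x s

theorem kap_cond (T0 T1 : Finset P) (Z : WX β δ P → ℝ) (hZ : LForm T0 T1 Z) (c : ℝ)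
    (V : Finset P) (hV : V ⊆ T0) (hV0 : V.Nonempty) (x : WX β δ P) :
    ccnt (coo pgrp V) (fun z => |Z z - c| ≤ 1) x ≤
      4 / Real.sqrt V.card * 2 ^ (coo (pgrp : WC β δ P → Option P) V).card := by
  obtain ⟨α, F, hα, hF, hZe, h1, -⟩ := hZ
  rw [wk_ccnt]
  set G : PS P → ℝ := fun s =>
    ∑ k ∈ T0 \ V, α x k * (val (st x k) : ℝ) + F (wkEnc x s) - c with hG
  have hN : Neutral V G := by
    intro z z' e1 e2 e3
    have : F (wkEnc x z) = F (wkEnc x z') := by
      refine hF _ _ ⟨fun j => rfl, ?_⟩ ?_ ?_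
      · intro k hk s
        refine wk_eq_of_st ?_ s
        rw [st_wkEnc, st_wkEnc]
        exact e1 k fun h => hk (hV h)
      · intro k
        rw [st_wkEnc, st_wkEnc]
        exact e2 k
      · intro k hk
        rw [st_wkEnc] at hk
        rw [st_wkEnc, st_wkEnc]
        exact e3 k hk
    simp only [hG, this]
  have h := loe V hV0 (α x) 1 one_pos
    (fun k hk => (h1 x k (hV hk)).trans (le_abs_self _)) G hN 1 zero_le_one (st x)
  have e : ccnt V (fun s => |Z (wkEnc x s) - c| ≤ 1) (st x) =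
      ccnt V (fun z => |∑ k ∈ V, α x k * (val (z k) : ℝ) + G z| ≤ 1) (st x) := by
    unfold ccnt
    refine Finset.sum_congr rfl fun s _ => ind_congr ?_
    refine and_congr_right fun hs => ?_
    have e1 : α (wkEnc x s) = α x := by
      refine hα _ _ ⟨fun j => rfl, ?_⟩
      intro k hk s'
      refine wk_eq_of_st ?_ s'
      rw [st_wkEnc]
      exact hs k fun h => hk (hV h)
    have e2 : Z (wkEnc x s) - c = ∑ k ∈ V, α x k * (val (s k) : ℝ) + G s := by
      rw [hZe, e1, st_wkEnc, ← Finset.sum_sdiff hV]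
      have e3 : ∑ k ∈ T0 \ V, α x k * (val (s k) : ℝ) =
          ∑ k ∈ T0 \ V, α x k * (val (st x k) : ℝ) := by
        refine Finset.sum_congr rfl fun k hk => ?_
        rw [hs k (Finset.mem_sdiff.1 hk).2]
      rw [e3, hG]
      ring
    change |Z (wkEnc x s) - c| ≤ 1 ↔ |∑ k ∈ V, α x k * (val (s k) : ℝ) + G s| ≤ 1
    rw [e2]
  rw [e, card_coo_pgrp, pow_mul]
  refine h.trans (le_of_eq ?_)
  norm_num
  ring

theorem card_pgrp (t : P) :
    (univ.filter fun i : WC β δ P => pgrp i = some t).card ≤ 2 := by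
  have h : (univ.filter fun i : WC β δ P => pgrp i = some t) =
      coo (pgrp : WC β δ P → Option P) {t} := by
    unfold coo
    refine Finset.filter_congr fun i _ => ?_
    simp
  rw [h, card_coo_pgrp]
  simp

theorem kap_one (T0 T1 : Finset P) (hT0 : T0.Nonempty) (Z : WX β δ P → ℝ) (hZ : LForm T0 T1 Z)
    (c : ℝ) :
    ∑ x, ind (|Z x - c| ≤ 1) ≤ 4 / Real.sqrt T0.card * 2 ^ Fintype.card (WC β δ P) := by
  have h1 := ccnt_mono (Finset.subset_univ (coo (pgrp : WC β δ P → Option P) T0))
    (fun z => |Z z - c| ≤ 1) (4 / Real.sqrt T0.card)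
    (fun x => by
      rw [nl_card_bool]
      exact kap_cond T0 T1 Z hZ c T0 (Finset.Subset.refl _) hT0 x) (fun _ => true)
  rw [ccnt_univ, nl_card_bool, Finset.card_univ] at h1
  exact h1

theorem kap_h (T0 T1 : Finset P) (hT0 : T0.Nonempty) (Z : WX β δ P → ℝ) (hZ : LForm T0 T1 Z)
    (h : WX β δ P → ℝ) (hh : Lip 1 h) (h0 : ∑ x, h x = 0) (c : ℝ) :
    ∑ x, |h x| * ind (|Z x - c| ≤ 1) ≤
      400 * (Real.sqrt (Fintype.card (WC β δ P) / T0.card) + 1) * 2 ^ Fintype.card (WC β δ P) := by
  have h1 := nl (pgrp : WC β δ P → Option P) card_pgrp T0 hT0 4 (by norm_num)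
    (fun z => |Z z - c| ≤ 1) (fun V hV hV0 x => kap_cond T0 T1 Z hZ c V hV hV0 x) h hh h0
  refine h1.trans (le_of_eq ?_)
  norm_num

/-- the point with coordinates `x0`, types `t` and signs `y` -/
def wkMk (x0 : β ⊕ δ → Bool) (t y : P → Bool) : WX β δ P
  | Sum.inl i => x0 i
  | Sum.inr (k, false) => y k
  | Sum.inr (k, true) => if t k = true then y k else !(y k)

omit [Fintype β] [DecidableEq β] [Fintype δ] [DecidableEq δ] [Fintype P] [DecidableEq P] in
theorem st_wkMk (x0 : β ⊕ δ → Bool) (t y : P → Bool) (k : P) :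
    st (wkMk x0 t y) k = (t k, y k) := by
  change (y k == (if t k = true then y k else !(y k)), y k) = (t k, y k)
  cases t k <;> cases y k <;> rfl

/-- a sum over the window -/
theorem wk_sum (G : WX β δ P → ℝ) :
    ∑ x, G x = ∑ x0 : β ⊕ δ → Bool, ∑ t : P → Bool, ∑ y : P → Bool, G (wkMk x0 t y) := by
  have h : ∑ x0 : β ⊕ δ → Bool, ∑ t : P → Bool, ∑ y : P → Bool, G (wkMk x0 t y) =
      ∑ p : (β ⊕ δ → Bool) × (P → Bool) × (P → Bool), G (wkMk p.1 p.2.1 p.2.2) := by
    rw [Fintype.sum_prod_type]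
    refine Finset.sum_congr rfl fun x0 _ => ?_
    rw [Fintype.sum_prod_type]
  rw [h]
  refine Finset.sum_bij' (fun x _ => ((fun i => x (Sum.inl i)), (fun k => (st x k).1),
    (fun k => (st x k).2))) (fun p _ => wkMk p.1 p.2.1 p.2.2) (fun _ _ => Finset.mem_univ _)
    (fun _ _ => Finset.mem_univ _) ?_ ?_ ?_
  · intro x _
    funext i
    rcases i with i | ⟨k, s⟩
    · rfl
    · refine wk_eq_of_st ?_ s
      rw [st_wkMk]
  · intro p _
    refine Prod.ext rfl (Prod.ext ?_ ?_)
    · funext k
      simp only [st_wkMk]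
    · funext k
      simp only [st_wkMk]
  · intro x _
    congr 1
    funext i
    rcases i with i | ⟨k, s⟩
    · rfl
    · refine wk_eq_of_st ?_ s
      rw [st_wkMk]

/-- splitting a sum over signs -/
theorem wk_split (τ : Finset P) (g : (P → Bool) → ℝ) :
    ∑ y, g y = ∑ b : {k // k ∉ τ} → Bool, ∑ a : {k // k ∈ τ} → Bool,
      g (fun k => if h : k ∈ τ then a ⟨k, h⟩ else b ⟨k, h⟩) := by
  rw [← Equiv.sum_comp (Equiv.piEquivPiSubtypeProd (fun k => k ∈ τ) (fun _ => Bool)).symm,
    Fintype.sum_prod_type, Finset.sum_comm]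
  rfl

theorem wk_card (τ : Finset P) :
    (2 : ℝ) ^ Fintype.card {k // k ∉ τ} * 2 ^ τ.card = 2 ^ Fintype.card P := by
  rw [← pow_add]
  congr 1
  rw [Fintype.card_subtype_compl, Fintype.card_coe]
  have := Finset.card_le_univ τ
  omega

theorem wk_tail (τ : Type*) [Fintype τ] [DecidableEq τ] (s : ℝ) (hs : 0 ≤ s) :
    ∑ y : τ → Bool, ind (s ≤ |2 * ((univ.filter fun i => y i = true).card : ℝ) - Fintype.card τ|) ≤
      2 * Real.exp (-(s ^ 2 / (2 * (Fintype.card τ + 1)))) * 2 ^ Fintype.card τ := by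
  have h := lin_tail (fun _ : τ => (2 : ℝ)) (fun _ => by norm_num) (2 * s) (by linarith)
  have e : ∀ y : τ → Bool, lin (fun _ : τ => (2 : ℝ)) y =
      2 * (2 * ((univ.filter fun i => y i = true).card : ℝ) - Fintype.card τ) := by
    intro y
    unfold lin
    rw [← Finset.mul_sum]
    congr 1
    have e1 : ∀ i, sg (y i) = 2 * (if y i = true then (1 : ℝ) else 0) - 1 := by
      intro i
      unfold sg
      split_ifs <;> norm_num
    rw [Finset.sum_congr rfl fun i _ => e1 i, Finset.sum_sub_distrib, ← Finset.mul_sum,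
      Finset.sum_boole, Finset.sum_const, Finset.card_univ]
    simp
  have e2 : (2 * s) ^ 2 / (8 * ((Fintype.card τ : ℝ) + 1)) = s ^ 2 / (2 * (Fintype.card τ + 1)) := by
    field_simp
    ring
  rw [e2] at h
  refine le_trans (le_of_eq ?_) h
  refine Finset.sum_congr rfl fun y _ => ind_congr ?_
  rw [e y, abs_mul, abs_of_pos (by norm_num : (0 : ℝ) < 2)]
  constructor <;> intro h <;> linarith

theorem wk_arith1 (D Λ T t : ℕ) (hD : 64 * (D + 20) * (Λ + D + 20) ≤ T) (h : ¬ 4 * t < T) :
    16 * (D + 20) * (Λ + D + 20) ≤ t := by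
  have h4 : 64 * (D + 20) * (Λ + D + 20) = 4 * (16 * (D + 20) * (Λ + D + 20)) := by ring
  refine Nat.le_of_mul_le_mul_left ?_ (show 0 < 4 by norm_num)
  exact (le_of_eq h4.symm).trans (hD.trans (not_lt.1 h))

theorem wk_arith2 (D Λ T : ℕ) (hD : 64 * (D + 20) * (Λ + D + 20) ≤ T) : 1 ≤ T := by
  refine le_trans ?_ hD
  exact Nat.mul_pos (Nat.mul_pos (by norm_num) (Nat.succ_pos _)) (Nat.succ_pos _)

theorem kap_mt (T0 T1 : Finset P) (h01 : T1 ⊆ T0) (Z1 Z2 : WX β δ P → ℝ) (hZ1 : LForm T0 T1 Z1)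
    (hZ2 : LForm T0 T1 Z2) (D Λ : ℕ) (hD : 64 * (D + 20) * (Λ + D + 20) ≤ T1.card) (c c' : ℝ) :
    ∑ x, ind (|Z1 x - c| ≤ 1 ∧ |Z2 x - c'| ≤ D) ≤
      100 * ∑ x, ind (|Z2 x - c'| ≤ 16) +
        (2 * Real.exp (-((Λ : ℝ) ^ 2 / (2 * (T1.card + 1)))) + 2 * Real.exp (-(T1.card / 64 : ℝ))) *
          2 ^ Fintype.card (WC β δ P) := by
  classical
  set ε1 : ℝ := 2 * Real.exp (-((Λ : ℝ) ^ 2 / (2 * (T1.card + 1)))) with hε1
  set ε2 : ℝ := 2 * Real.exp (-(T1.card / 64 : ℝ)) with hε2
  have hε10 : 0 ≤ ε1 := by positivity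
  -- increments
  have hinc : ∀ Z : WX β δ P → ℝ, LForm T0 T1 Z → ∀ (x0 : β ⊕ δ → Bool) (t : P → Bool)
      (y : P → Bool) (k : P), k ∈ T1 → t k = true → y k = false →
      1 ≤ Z (wkMk x0 t (flp y k)) - Z (wkMk x0 t y) ∧
      Z (wkMk x0 t (flp y k)) - Z (wkMk x0 t y) ≤ 16 := by
    rintro Z ⟨α, F, hα, hF, hZe, h1, h5⟩ x0 t y k hk ht hy
    have hst : ∀ j, j ≠ k → st (wkMk x0 t (flp y k)) j = st (wkMk x0 t y) j := by
      intro j hj
      rw [st_wkMk, st_wkMk, flp_ne _ hj]
    have hag : AgreeOff T0 (wkMk x0 t (flp y k)) (wkMk x0 t y) := by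
      refine ⟨fun j => rfl, ?_⟩
      intro j hj s
      refine wk_eq_of_st (hst j ?_) s
      rintro rfl
      exact hj (h01 hk)
    have e1 := hα _ _ hag
    have e2 : F (wkMk x0 t (flp y k)) = F (wkMk x0 t y) := by
      refine hF _ _ hag ?_ ?_
      · intro j
        rw [st_wkMk, st_wkMk]
      · intro j hj
        refine hst j ?_
        rintro rfl
        rw [st_wkMk] at hj
        rw [ht] at hj
        exact absurd hj (by simp)
    have e3 : Z (wkMk x0 t (flp y k)) - Z (wkMk x0 t y) = 2 * α (wkMk x0 t y) k := by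
      rw [hZe, hZe, e1, e2]
      rw [← Finset.add_sum_erase _ _ (h01 hk), ← Finset.add_sum_erase T0 _ (h01 hk)]
      have e4 : ∑ j ∈ T0.erase k, α (wkMk x0 t y) j * (val (st (wkMk x0 t (flp y k)) j) : ℝ) =
          ∑ j ∈ T0.erase k, α (wkMk x0 t y) j * (val (st (wkMk x0 t y) j) : ℝ) := by
        refine Finset.sum_congr rfl fun j hj => ?_
        rw [hst j (Finset.ne_of_mem_erase hj)]
      rw [e4, st_wkMk, st_wkMk, flp_same, ht, hy]
      unfold val
      norm_num
      ring
    rw [e3]
    constructor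
    · linarith [h1 (wkMk x0 t y) k (h01 hk)]
    · linarith [h5 (wkMk x0 t y) k hk]
  -- fixed types
  have hfix : ∀ (x0 : β ⊕ δ → Bool) (t : P → Bool),
      ∑ y : P → Bool, ind (|Z1 (wkMk x0 t y) - c| ≤ 1 ∧ |Z2 (wkMk x0 t y) - c'| ≤ D) ≤
      100 * ∑ y : P → Bool, ind (|Z2 (wkMk x0 t y) - c'| ≤ 16) +
        (ε1 + ind (4 * (T1.filter fun k => t k = true).card < T1.card)) * 2 ^ Fintype.card P := by
    intro x0 t
    set τ := T1.filter fun k => t k = true with hτ
    by_cases hsm : 4 * τ.card < T1.card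
    · rw [ind_true hsm]
      have h1 : ∑ y : P → Bool, ind (|Z1 (wkMk x0 t y) - c| ≤ 1 ∧ |Z2 (wkMk x0 t y) - c'| ≤ D) ≤
          ∑ y : P → Bool, (1 : ℝ) := Finset.sum_le_sum fun y _ => ind_le_one _
      rw [Finset.sum_const, nsmul_eq_mul, mul_one, Finset.card_univ, nl_card] at h1
      have h2 : 0 ≤ ∑ y : P → Bool, ind (|Z2 (wkMk x0 t y) - c'| ≤ 16) :=
        Finset.sum_nonneg fun _ _ => ind_nonneg _
      have h3 : (0 : ℝ) < 2 ^ Fintype.card P := by positivity
      nlinarith [mul_nonneg hε10 h3.le]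
    · rw [ind_false hsm, add_zero]
      rw [wk_split τ, wk_split τ, ← wk_card τ, Finset.mul_sum]
      have hb : ∀ b : {k // k ∉ τ} → Bool,
          ∑ a : {k // k ∈ τ} → Bool, ind
            (|Z1 (wkMk x0 t fun k => if h : k ∈ τ then a ⟨k, h⟩ else b ⟨k, h⟩) - c| ≤ 1 ∧
              |Z2 (wkMk x0 t fun k => if h : k ∈ τ then a ⟨k, h⟩ else b ⟨k, h⟩) - c'| ≤ D) ≤
          100 * ∑ a : {k // k ∈ τ} → Bool, ind
            (|Z2 (wkMk x0 t fun k => if h : k ∈ τ then a ⟨k, h⟩ else b ⟨k, h⟩) - c'| ≤ 16) +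
            ε1 * 2 ^ τ.card := by
        intro b
        set cm : ({k // k ∈ τ} → Bool) → P → Bool :=
          fun a k => if h : k ∈ τ then a ⟨k, h⟩ else b ⟨k, h⟩ with hcm
        have hfl : ∀ (a : {k // k ∈ τ} → Bool) (i : {k // k ∈ τ}), cm (flp a i) = flp (cm a) i := by
          intro a i
          funext k
          by_cases hk : k = i.1
          · subst hk
            rw [flp_same]
            simp only [hcm, i.2, dite_true]
            rw [flp_same]
          · rw [flp_ne _ hk]
            simp only [hcm]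
            by_cases hkτ : k ∈ τ
            · simp only [hkτ, dite_true]
              rw [flp_ne]
              intro h
              exact hk (congrArg Subtype.val h)
            · simp only [hkτ, dite_false]
        have hcv : ∀ (a : {k // k ∈ τ} → Bool) (i : {k // k ∈ τ}), cm a i = a i := by
          intro a i
          simp only [hcm, i.2, dite_true]
        have hmt := mt (fun a => Z1 (wkMk x0 t (cm a))) (fun a => Z2 (wkMk x0 t (cm a)))
          (fun a i hi => by
            have hm := Finset.mem_filter.1 i.2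
            have := hinc Z1 hZ1 x0 t (cm a) i hm.1 hm.2 (by rw [hcv]; exact hi)
            simp only [hfl]
            exact this)
          (fun a i hi => by
            have hm := Finset.mem_filter.1 i.2
            have := hinc Z2 hZ2 x0 t (cm a) i hm.1 hm.2 (by rw [hcv]; exact hi)
            simp only [hfl]
            exact this) c c' D Λ
          (by
            rw [Fintype.card_coe]
            exact wk_arith1 D Λ T1.card τ.card hD hsm)
        have htail := wk_tail {k // k ∈ τ} (2 * Λ) (by positivity)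
        have hspl : ∑ a : {k // k ∈ τ} → Bool, ind
            (|Z1 (wkMk x0 t (cm a)) - c| ≤ 1 ∧ |Z2 (wkMk x0 t (cm a)) - c'| ≤ D) ≤
            ∑ a : {k // k ∈ τ} → Bool, (ind (|Z1 (wkMk x0 t (cm a)) - c| ≤ 1 ∧
              |Z2 (wkMk x0 t (cm a)) - c'| ≤ D ∧
              |2 * ((univ.filter fun i => a i = true).card : ℝ) -
                Fintype.card {k // k ∈ τ}| ≤ 2 * Λ) +
              ind (2 * Λ ≤ |2 * ((univ.filter fun i => a i = true).card : ℝ) -
                Fintype.card {k // k ∈ τ}|)) := by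
          refine Finset.sum_le_sum fun a _ => ?_
          refine le_trans (ind_mono ?_) (ind_or_le _ _)
          rintro ⟨h1, h2⟩
          rcases le_total |2 * ((univ.filter fun i => a i = true).card : ℝ) -
                Fintype.card {k // k ∈ τ}| (2 * Λ) with h3 | h3
          · exact Or.inl ⟨h1, h2, h3⟩
          · exact Or.inr h3
        rw [Finset.sum_add_distrib] at hspl
        have hlast : 2 * Real.exp (-((2 * (Λ : ℝ)) ^ 2 /
            (2 * ((Fintype.card {k // k ∈ τ} : ℝ) + 1)))) * 2 ^ Fintype.card {k // k ∈ τ} ≤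
            ε1 * 2 ^ τ.card := by
          rw [Fintype.card_coe, hε1]
          have h5 : (τ.card : ℝ) ≤ T1.card := by
            exact_mod_cast Finset.card_filter_le _ _
          have h6 : (Λ : ℝ) ^ 2 / (2 * ((T1.card : ℝ) + 1)) ≤
              (2 * (Λ : ℝ)) ^ 2 / (2 * ((τ.card : ℝ) + 1)) := by
            apply div_le_div₀ (by positivity) (by nlinarith [sq_nonneg (Λ : ℝ)]) (by positivity)
            linarith
          gcongr
        calc _ ≤ _ := hspl
          _ ≤ 100 * ∑ a : {k // k ∈ τ} → Bool, ind (|Z2 (wkMk x0 t (cm a)) - c'| ≤ 16) +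
              ε1 * 2 ^ τ.card := add_le_add hmt (htail.trans hlast)
      calc _ ≤ ∑ b : {k // k ∉ τ} → Bool, (100 * ∑ a : {k // k ∈ τ} → Bool, ind
            (|Z2 (wkMk x0 t fun k => if h : k ∈ τ then a ⟨k, h⟩ else b ⟨k, h⟩) - c'| ≤ 16) +
            ε1 * 2 ^ τ.card) := Finset.sum_le_sum fun b _ => hb b
        _ = _ := by
          rw [Finset.sum_add_distrib, Finset.sum_const, Finset.card_univ, nsmul_eq_mul]
          have : (Fintype.card ({k // k ∉ τ} → Bool) : ℝ) = 2 ^ Fintype.card {k // k ∉ τ} := by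
            simp
          rw [this]
          ring
  -- the number of `N` letters
  have htyp : ∑ t : P → Bool, ind (4 * (T1.filter fun k => t k = true).card < T1.card) ≤
      ε2 * 2 ^ Fintype.card P := by
    rw [wk_split T1, ← wk_card T1]
    have hb : ∀ b : {k // k ∉ T1} → Bool, ∑ a : {k // k ∈ T1} → Bool,
        ind (4 * (T1.filter fun k =>
          (if h : k ∈ T1 then a ⟨k, h⟩ else b ⟨k, h⟩) = true).card < T1.card) ≤
        ε2 * 2 ^ T1.card := by
      intro b
      have htail := wk_tail {k // k ∈ T1} (T1.card / 2) (by positivity)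
      have h1 : ∀ a : {k // k ∈ T1} → Bool, (T1.filter fun k =>
          (if h : k ∈ T1 then a ⟨k, h⟩ else b ⟨k, h⟩) = true).card =
          (univ.filter fun i => a i = true).card := by
        intro a
        symm
        refine Finset.card_bij (fun i _ => i.1) ?_ ?_ ?_
        · intro i hi
          rw [Finset.mem_filter] at hi ⊢
          refine ⟨i.2, ?_⟩
          simp only [i.2, dite_true]
          exact hi.2
        · intro i _ j _ hij
          exact Subtype.ext hij
        · intro k hk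
          rw [Finset.mem_filter] at hk
          refine ⟨⟨k, hk.1⟩, ?_, rfl⟩
          rw [Finset.mem_filter]
          refine ⟨Finset.mem_univ _, ?_⟩
          simpa [hk.1] using hk.2
      refine (Finset.sum_le_sum fun a _ => ind_mono (q := (T1.card / 2 : ℝ) ≤
        |2 * ((univ.filter fun i => a i = true).card : ℝ) -
          Fintype.card {k // k ∈ T1}|) ?_).trans (htail.trans ?_)
      · intro h2
        rw [h1 a] at h2
        rw [Fintype.card_coe]
        have h3 : 4 * ((univ.filter fun i => a i = true).card : ℝ) < T1.card := by exact_mod_cast h2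
        rw [le_abs]
        right
        linarith
      · rw [Fintype.card_coe, hε2]
        have h20 : (1 : ℝ) ≤ T1.card := by
          have : 1 ≤ T1.card := wk_arith2 D Λ T1.card hD
          exact_mod_cast this
        have h6 : (T1.card / 64 : ℝ) ≤ ((T1.card : ℝ) / 2) ^ 2 / (2 * ((T1.card : ℝ) + 1)) := by
          rw [le_div_iff₀ (by positivity)]
          nlinarith
        gcongr
    calc _ ≤ ∑ b : {k // k ∉ T1} → Bool, ε2 * 2 ^ T1.card := Finset.sum_le_sum fun b _ => hb b
      _ = _ := by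
        rw [Finset.sum_const, Finset.card_univ, nsmul_eq_mul]
        have : (Fintype.card ({k // k ∉ T1} → Bool) : ℝ) = 2 ^ Fintype.card {k // k ∉ T1} := by
          simp
        rw [this]
        ring
  -- conclusion
  have hcard : (2 : ℝ) ^ Fintype.card (WC β δ P) =
      2 ^ Fintype.card (β ⊕ δ) * (2 ^ Fintype.card P * 2 ^ Fintype.card P) := by
    rw [← pow_add, ← pow_add]
    congr 1
    simp only [Fintype.card_sum, Fintype.card_prod, Fintype.card_bool]
    ring
  rw [wk_sum, wk_sum (fun x => ind (|Z2 x - c'| ≤ 16)), hcard]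
  have hc1 : (Fintype.card (β ⊕ δ → Bool) : ℝ) = 2 ^ Fintype.card (β ⊕ δ) := nl_card
  have hc2 : (Fintype.card (P → Bool) : ℝ) = 2 ^ Fintype.card P := nl_card
  calc _ ≤ ∑ x0 : β ⊕ δ → Bool, ∑ t : P → Bool,
        (100 * ∑ y : P → Bool, ind (|Z2 (wkMk x0 t y) - c'| ≤ 16) +
        (ε1 + ind (4 * (T1.filter fun k => t k = true).card < T1.card)) * 2 ^ Fintype.card P) :=
        Finset.sum_le_sum fun x0 _ => Finset.sum_le_sum fun t _ => hfix x0 t
    _ = 100 * ∑ x0 : β ⊕ δ → Bool, ∑ t : P → Bool, ∑ y : P → Bool,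
          ind (|Z2 (wkMk x0 t y) - c'| ≤ 16) +
        2 ^ Fintype.card (β ⊕ δ) * ((ε1 * 2 ^ Fintype.card P +
          ∑ t : P → Bool, ind (4 * (T1.filter fun k => t k = true).card < T1.card)) *
            2 ^ Fintype.card P) := by
        simp only [Finset.sum_add_distrib, add_mul, ← Finset.mul_sum, Finset.sum_const,
          Finset.card_univ, nsmul_eq_mul, hc1, hc2, ← Finset.sum_mul]
        ring
    _ ≤ 100 * ∑ x0 : β ⊕ δ → Bool, ∑ t : P → Bool, ∑ y : P → Bool,
          ind (|Z2 (wkMk x0 t y) - c'| ≤ 16) +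
        2 ^ Fintype.card (β ⊕ δ) * ((ε1 * 2 ^ Fintype.card P + ε2 * 2 ^ Fintype.card P) *
            2 ^ Fintype.card P) := by
        gcongr
    _ = _ := by ring

end BLO
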