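import Pool.Agent.Lib.BLO.W1Defs
import Pool.Agent.Lib.BLO.W1Heat

/-!
# Chunk WN: the noise of the blocks against time

`noise_one2`: port of `BLP.noise_one` with `phi_shift2`, `phi_noise2` (noise of size `≤ b`, `b^2 ≤ t`).
`noise_path`: one block at a time (`G → G + 1`), for fixed dither `u` (the sums over the different `u` are
independent: `m g u`, the times are constant; `Ω = {x | dit x = u}` or good points with `dit x = u`); `A x` = value of
`FC ∅ (G+1) - c`, which does not change under `set G x t` (`set_other`, `set_st`, `set_inl`).  A frozen block `G`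
has no noise but the time is changed all the same: cost `Hm` per point (`0 ≤ phi ≤ 1`).  Times: `t u + tim (G) u`,
between `t u` and `T`; in the mass hypotheses use the constant time `T` (`≥` the times), in the factors the
lower bound `t0`.
-/

namespace BLO

open Finset BLP

theorem noise_one2 {Ω : Type*} [Fintype Ω] [DecidableEq Ω] (good : Ω → Prop) [DecidablePred good]
    (m : ℕ) (hm : 0 < m) (u : Ω → ℕ) (set : Ω → ℕ → Ω)
    (hu : ∀ x, good x → u x < m)
    (hs : ∀ x, good x → ∀ t < m, good (set x t) ∧ u (set x t) = t ∧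
      (∀ t' < m, set (set x t) t' = set x t'))
    (hsu : ∀ x, good x → set x (u x) = x)
    (h A : Ω → ℝ) (Λ : ℝ) (hΛ : ∀ x, good x → ∀ t < m, |h (set x t) - h x| ≤ Λ)
    (hA : ∀ x, good x → ∀ t < m, A (set x t) = A x) (μ t b : ℝ) (hμ : 0 ≤ μ) (hμm : μ * m ≤ b)
    (hb : 0 < b) (ht : b ^ 2 ≤ t) :
    |∑ x ∈ univ.filter good, h x * (phi t (A x + μ * (m - 1 - 2 * (u x : ℝ))) -
        phi (t + μ ^ 2 * (m ^ 2 - 1) / 3) (A x))| ≤
      ∑ x ∈ univ.filter good, (100 * Λ * b / Real.sqrt t + 10 * |h x| * b ^ 4 / t ^ 2) *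
        Real.exp (-((A x) ^ 2 / (8 * t))) := by
  have hm0 : (0 : ℝ) < m := by exact_mod_cast hm
  have hm1 : (1 : ℝ) ≤ m := by exact_mod_cast hm
  have ht0 : 0 < t := lt_of_lt_of_le (by positivity) ht
  have hst : 0 < Real.sqrt t := Real.sqrt_pos.2 ht0
  obtain ⟨F, hF⟩ : ∃ F : Ω → ℕ → ℝ, F = fun (x : Ω) (s : ℕ) => phi t (A x + μ * (m - 1 - 2 * (s : ℝ))) :=
    ⟨_, rfl⟩
  obtain ⟨Fb, hFb⟩ : ∃ Fb : Ω → ℝ, Fb = fun x => (∑ s ∈ range m, F x s) / m := ⟨_, rfl⟩
  obtain ⟨Hb, hHb⟩ : ∃ Hb : Ω → ℝ, Hb = fun x => (∑ s ∈ range m, h (set x s)) / m := ⟨_, rfl⟩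
  obtain ⟨T, hT⟩ : ∃ T : Ω → ℝ, T = fun x => phi (t + μ ^ 2 * (m ^ 2 - 1) / 3) (A x) := ⟨_, rfl⟩
  obtain ⟨E, hE⟩ : ∃ E : Ω → ℝ, E = fun x => Real.exp (-((A x) ^ 2 / (8 * t))) := ⟨_, rfl⟩
  have hE0 : ∀ x, 0 < E x := fun x => by rw [hE]; exact Real.exp_pos _
  have hFbT : ∀ x, |Fb x - T x| ≤ 10 * b ^ 4 / t ^ 2 * E x := by
    intro x
    rw [hFb, hT, hF, hE]
    exact phi_noise2 t (A x) μ b m hm hμ hμm hb ht
  have hshift : ∀ x, ∀ s < m, |F x s - phi t (A x)| ≤ 100 * b / Real.sqrt t * E x := by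
    intro x s hs'
    have hs1 : (s : ℝ) + 1 ≤ m := by exact_mod_cast hs'
    have hs0 : (0 : ℝ) ≤ s := Nat.cast_nonneg s
    have ha : |μ * (m - 1 - 2 * (s : ℝ))| ≤ b := by
      rw [abs_mul, abs_of_nonneg hμ]
      refine le_trans (mul_le_mul_of_nonneg_left ?_ hμ) hμm
      rw [abs_le]
      constructor <;> linarith
    have ha2 : (μ * (m - 1 - 2 * (s : ℝ))) ^ 2 ≤ t := by
      rw [← sq_abs]
      exact le_trans (pow_le_pow_left₀ (abs_nonneg _) ha 2) ht
    have h1 := phi_shift2 t (A x) _ ht0 ha2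
    rw [hF, hE]
    refine h1.trans ?_
    apply mul_le_mul_of_nonneg_right _ (Real.exp_pos _).le
    apply div_le_div_of_nonneg_right _ hst.le
    linarith
  have hHdev : ∀ x, good x → ∀ s < m, |h (set x s) - Hb x| ≤ Λ := by
    intro x hx s hs'
    have hL : ∀ s' < m, |h (set x s) - h (set x s')| ≤ Λ := by
      intro s' hs''
      obtain ⟨hg, -, h3⟩ := hs x hx s hs'
      have h4 := hΛ _ hg s' hs''
      rw [h3 s' hs'', abs_sub_comm] at h4
      exact h4
    have e : h (set x s) - Hb x = (∑ s' ∈ range m, (h (set x s) - h (set x s'))) / m := by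
      rw [hHb, sum_sub_distrib]
      simp only [sum_const, card_range, nsmul_eq_mul]
      field_simp
    rw [e, abs_div, abs_of_pos hm0, div_le_iff₀ hm0]
    refine (abs_sum_le_sum_abs _ _).trans ?_
    have h2 : ∑ s' ∈ range m, |h (set x s) - h (set x s')| ≤ ∑ _s ∈ range m, Λ := by
      apply sum_le_sum
      intro s' hs''
      exact hL s' (mem_range.1 hs'')
    refine h2.trans ?_
    rw [sum_const, card_range, nsmul_eq_mul, mul_comm]
  -- splitting
  have hsplit : ∑ x ∈ univ.filter good, h x * (phi t (A x + μ * (m - 1 - 2 * (u x : ℝ))) -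
        phi (t + μ ^ 2 * (m ^ 2 - 1) / 3) (A x)) =
      ∑ x ∈ univ.filter good, h x * (F x (u x) - Fb x) +
        ∑ x ∈ univ.filter good, h x * (Fb x - T x) := by
    rw [← sum_add_distrib]
    apply sum_congr rfl
    intro x _
    rw [hF, hT]
    ring
  have hFset : ∀ x, good x → ∀ s < m, F (set x s) = F x := by
    intro x hx s hs'
    rw [hF]
    funext s'
    simp only
    rw [hA x hx s hs']
  have hFbset : ∀ x, good x → ∀ s < m, Fb (set x s) = Fb x := by
    intro x hx s hs'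
    rw [hFb]
    simp only
    rw [hFset x hx s hs']
  -- the first part
  have hfirst : m * ∑ x ∈ univ.filter good, h x * (F x (u x) - Fb x) =
      ∑ x ∈ univ.filter good, ∑ s ∈ range m, (h (set x s) - Hb x) * (F x s - phi t (A x)) := by
    rw [← S4_avg good m u set hu hs hsu (fun x => h x * (F x (u x) - Fb x))]
    apply sum_congr rfl
    intro x hx
    have hx' : good x := (mem_filter.1 hx).2
    have h2 : ∑ s ∈ range m, (h (set x s) - Hb x) * (F x s - phi t (A x)) =
        ∑ s ∈ range m, h (set x s) * (F x s - Fb x) := by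
      have e1 : ∑ s ∈ range m, (h (set x s) - Hb x) * (F x s - phi t (A x)) =
          ∑ s ∈ range m, h (set x s) * F x s - phi t (A x) * ∑ s ∈ range m, h (set x s) -
            Hb x * ∑ s ∈ range m, F x s + m * (Hb x * phi t (A x)) := by
        rw [mul_sum, mul_sum, ← sum_sub_distrib, ← sum_sub_distrib]
        have e3 : (m : ℝ) * (Hb x * phi t (A x)) = ∑ _s ∈ range m, Hb x * phi t (A x) := by
          rw [sum_const, card_range, nsmul_eq_mul]
        rw [e3, ← sum_add_distrib]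
        apply sum_congr rfl
        intro s _
        ring
      have e2 : ∑ s ∈ range m, h (set x s) * (F x s - Fb x) =
          ∑ s ∈ range m, h (set x s) * F x s - Fb x * ∑ s ∈ range m, h (set x s) := by
        rw [mul_sum, ← sum_sub_distrib]
        apply sum_congr rfl
        intro s _
        ring
      rw [e1, e2, hHb, hFb]
      simp only
      field_simp
      ring
    rw [h2]
    apply sum_congr rfl
    intro s hs'
    have hs'' := mem_range.1 hs'
    rw [hFset x hx' s hs'', hFbset x hx' s hs'', (hs x hx' s hs'').2.1]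
  have hfirst' : |∑ x ∈ univ.filter good, h x * (F x (u x) - Fb x)| ≤
      ∑ x ∈ univ.filter good, 100 * Λ * b / Real.sqrt t * E x := by
    have h1 : m * |∑ x ∈ univ.filter good, h x * (F x (u x) - Fb x)| ≤
        m * ∑ x ∈ univ.filter good, 100 * Λ * b / Real.sqrt t * E x := by
      have e : (m : ℝ) * |∑ x ∈ univ.filter good, h x * (F x (u x) - Fb x)| =
          |m * ∑ x ∈ univ.filter good, h x * (F x (u x) - Fb x)| := by
        rw [abs_mul, abs_of_pos hm0]
      rw [e, hfirst, mul_sum]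
      refine (abs_sum_le_sum_abs _ _).trans ?_
      apply sum_le_sum
      intro x hx
      have hx' : good x := (mem_filter.1 hx).2
      refine (abs_sum_le_sum_abs _ _).trans ?_
      have h2 : ∑ s ∈ range m, |(h (set x s) - Hb x) * (F x s - phi t (A x))| ≤
          ∑ _s ∈ range m, 100 * Λ * b / Real.sqrt t * E x := by
        apply sum_le_sum
        intro s hs'
        have hs'' := mem_range.1 hs'
        rw [abs_mul]
        have h3 := hHdev x hx' s hs''
        have h4 := hshift x s hs''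
        calc |h (set x s) - Hb x| * |F x s - phi t (A x)| ≤ Λ * (100 * b / Real.sqrt t * E x) :=
              mul_le_mul h3 h4 (abs_nonneg _) ((abs_nonneg _).trans h3)
          _ = 100 * Λ * b / Real.sqrt t * E x := by ring
      refine h2.trans ?_
      rw [sum_const, card_range, nsmul_eq_mul]
    exact le_of_mul_le_mul_left h1 hm0
  have hsecond : |∑ x ∈ univ.filter good, h x * (Fb x - T x)| ≤
      ∑ x ∈ univ.filter good, 10 * |h x| * b ^ 4 / t ^ 2 * E x := by
    refine (abs_sum_le_sum_abs _ _).trans ?_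
    apply sum_le_sum
    intro x _
    rw [abs_mul]
    calc |h x| * |Fb x - T x| ≤ |h x| * (10 * b ^ 4 / t ^ 2 * E x) :=
          mul_le_mul_of_nonneg_left (hFbT x) (abs_nonneg _)
      _ = 10 * |h x| * b ^ 4 / t ^ 2 * E x := by ring
  rw [hsplit]
  refine (abs_add_le _ _).trans ?_
  have hfin : ∑ x ∈ univ.filter good, (100 * Λ * b / Real.sqrt t + 10 * |h x| * b ^ 4 / t ^ 2) *
        Real.exp (-((A x) ^ 2 / (8 * t))) =
      ∑ x ∈ univ.filter good, 100 * Λ * b / Real.sqrt t * E x +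
        ∑ x ∈ univ.filter good, 10 * |h x| * b ^ 4 / t ^ 2 * E x := by
    rw [← sum_add_distrib]
    apply sum_congr rfl
    intro x _
    rw [hE]
    ring
  rw [hfin]
  exact add_le_add hfirst' hsecond

variable {β δ P : Type*} [Fintype β] [DecidableEq β] [Fintype δ] [DecidableEq δ]
  [Fintype P] [DecidableEq P]

section
variable {ι : Type*} [Fintype ι] [DecidableEq ι]

theorem WN_lip (lam : ℝ) (h : (ι → Bool) → ℝ) (hh : Lip lam h) :
    ∀ (n : ℕ) (x y : ι → Bool), hammingDist x y = n → |h y - h x| ≤ lam * n := by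
  intro n
  induction n with
  | zero =>
    intro x y hxy
    rw [hammingDist_eq_zero] at hxy
    subst hxy
    simp
  | succ n ih =>
    intro x y hxy
    have hne : x ≠ y := by
      intro e
      rw [e, hammingDist_self] at hxy
      omega
    obtain ⟨i, hi⟩ := Function.ne_iff.1 hne
    have hd : hammingDist (flp x i) y = n := by
      unfold hammingDist at hxy ⊢
      have e : (univ.filter fun j => flp x i j ≠ y j) = (univ.filter fun j => x j ≠ y j).erase i := by
        ext j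
        by_cases hj : j = i
        · subst hj
          simp only [mem_filter, mem_univ, true_and, mem_erase, ne_eq, not_true_eq_false, false_and,
            iff_false, not_not, flp_same]
          revert hi
          cases x j <;> cases y j <;> simp
        · simp only [mem_filter, mem_univ, true_and, mem_erase, ne_eq, hj, not_false_eq_true,
            flp_ne x hj]
      rw [e, card_erase_of_mem (by simp [hi]), hxy]
      rfl
    have h1 := ih (flp x i) y hd
    have h2 := hh x i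
    have h3 : |h y - h x| ≤ |h y - h (flp x i)| + |h (flp x i) - h x| := abs_sub_le _ _ _
    push_cast
    linarith

theorem WN_lip_le (lam : ℝ) (hlam : 0 ≤ lam) (h : (ι → Bool) → ℝ) (hh : Lip lam h) (x y : ι → Bool)
    (J : ℕ) (hJ : hammingDist x y ≤ J) : |h y - h x| ≤ lam * J := by
  refine (WN_lip lam h hh _ x y rfl).trans ?_
  exact mul_le_mul_of_nonneg_left (by exact_mod_cast hJ) hlam

end

theorem WN_dit (W : WData β δ P) (R : ℝ) (J : ℕ) (ε1 : ℝ) (hW : WOK W R J ε1) (G : ℕ) (hG : G < W.K)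
    (x : WX β δ P) (hx : W.good G x) (s : ℕ) (hs : s < W.m G (dit x)) :
    dit (W.set G x s) = dit x := by
  funext j
  exact hW.set_inl G hG x hx s hs _

theorem WN_val (W : WData β δ P) (R : ℝ) (J : ℕ) (ε1 : ℝ) (hW : WOK W R J ε1) (G : ℕ) (hG : G < W.K)
    (x : WX β δ P) (hx : W.good G x) (s : ℕ) (hs : s < W.m G (dit x)) (k : P) :
    val (st (W.set G x s) k) = val (st x k) := by
  obtain ⟨h1, h2⟩ := hW.set_st G hG x hx s hs k
  by_cases h : (st x k).1 = true
  · rw [h2 h]
  · have h' : (st (W.set G x s) k).1 ≠ true := by rw [h1]; exact h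
    unfold val
    rw [if_neg h, if_neg h']

theorem WN_noise (W : WData β δ P) (G : ℕ) (hG : G < W.K) (x : WX β δ P) :
    W.noise G x = ind (W.good G x) * (W.μ * ((W.m G (dit x) : ℝ) - 1 - 2 * (W.nu G x : ℝ))) +
      W.noise (G + 1) x := by
  unfold WData.noise
  rw [sum_eq_sum_Ico_succ_bot hG]

theorem WN_A (W : WData β δ P) (R : ℝ) (J : ℕ) (ε1 : ℝ) (hW : WOK W R J ε1) (G : ℕ) (hG : G < W.K)
    (x : WX β δ P) (hx : W.good G x) (s : ℕ) (hs : s < W.m G (dit x)) :
    W.FC ∅ (G + 1) (W.set G x s) = W.FC ∅ (G + 1) x := by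
  unfold WData.FC
  rw [WN_dit W R J ε1 hW G hG x hx s hs]
  simp only [sum_empty, mul_zero, zero_add]
  refine congrArg₂ (· + ·) ?_ ?_
  · exact sum_congr rfl fun k _ => by rw [WN_val W R J ε1 hW G hG x hx s hs k]
  · unfold WData.noise
    refine sum_congr rfl fun g hg => ?_
    have hg' := mem_Ico.1 hg
    obtain ⟨h1, h2⟩ := hW.set_other G hG x hx s hs g hg'.2 (by omega)
    rw [WN_dit W R J ε1 hW G hG x hx s hs, h2, ind_congr h1]

theorem WN_tim (W : WData β δ P) (R : ℝ) (J : ℕ) (ε1 : ℝ) (hW : WOK W R J ε1) (u : δ → Bool) (g : ℕ)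
    (hg : g < W.K) : 0 ≤ W.μ ^ 2 * ((W.m g u : ℝ) ^ 2 - 1) / 3 := by
  have h1 : (1 : ℝ) ≤ W.m g u := by exact_mod_cast (hW.hm g hg u).1
  have h2 : 0 ≤ (W.m g u : ℝ) ^ 2 - 1 := by nlinarith
  positivity

theorem WN_step (W : WData β δ P) (R : ℝ) (J : ℕ) (ε1 : ℝ) (hW : WOK W R J ε1)
    (h : WX β δ P → ℝ) (lam Hm E1 Eh t0 T c εf : ℝ) (hlam : 0 ≤ lam) (hh : Lip lam h)
    (hHm : ∀ x, |h x| ≤ Hm) (t : (δ → Bool) → ℝ) (ht : ∀ u, t0 ≤ t u ∧ t u + W.tim W.K u ≤ T)
    (ht0 : 16 * R ^ 2 ≤ t0) (hTt : T ≤ 16 * t0)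
    (hf : ∑ x, ind (¬ W.ok x) ≤ εf * 2 ^ Fintype.card (WC β δ P)) (G : ℕ) (hG : G < W.K)
    (h1 : ∑ x, Real.exp (-((W.FC ∅ (G + 1) x - c) ^ 2 / (8 * T))) ≤
      E1 * Real.sqrt T * 2 ^ Fintype.card (WC β δ P))
    (h2 : ∑ x, |h x| * Real.exp (-((W.FC ∅ (G + 1) x - c) ^ 2 / (8 * T))) ≤
      Eh * Real.sqrt T * 2 ^ Fintype.card (WC β δ P)) :
    |∑ x, h x * phi (t (dit x) + W.tim G (dit x)) (W.FC ∅ G x - c) -
        ∑ x, h x * phi (t (dit x) + W.tim (G + 1) (dit x)) (W.FC ∅ (G + 1) x - c)| ≤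
      2 ^ Fintype.card (WC β δ P) * (1600 * (lam * J * R * E1) +
        10240 * (Eh * R ^ 4 / (t0 * Real.sqrt t0)) + Hm * εf) := by
  classical
  have hR1 := hW.R1
  have hR0 : 0 < R := by linarith
  have ht00 : 0 < t0 := by nlinarith
  have hN : (0 : ℝ) < 2 ^ Fintype.card (WC β δ P) := by positivity
  have hTsub : ∀ u, W.tim G u ≤ W.tim W.K u := by
    intro u
    unfold WData.tim
    exact sum_le_sum_of_subset_of_nonneg (fun g hg => mem_range.2 (lt_trans (mem_range.1 hg) hG))
      fun g hg _ => WN_tim W R J ε1 hW u g (mem_range.1 hg)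
  have htim0 : ∀ u, 0 ≤ W.tim G u := by
    intro u
    unfold WData.tim
    exact sum_nonneg fun g hg => WN_tim W R J ε1 hW u g (lt_trans (mem_range.1 hg) hG)
  have hτ : ∀ u, t0 ≤ t u + W.tim G u ∧ t u + W.tim G u ≤ T := fun u => by
    have := ht u
    have := hTsub u
    have := htim0 u
    constructor <;> linarith
  have hT0 : 0 < T := lt_of_lt_of_le ht00 ((hτ (fun _ => false)).1.trans (hτ _).2)
  have hq0 : 0 < Real.sqrt t0 := Real.sqrt_pos.2 ht00
  have hqT : 0 < Real.sqrt T := Real.sqrt_pos.2 hT0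
  have hqq : Real.sqrt T ≤ 4 * Real.sqrt t0 := by
    rw [Real.sqrt_le_left (by positivity), mul_pow, Real.sq_sqrt ht00.le]
    linarith
  have hE1 : 0 ≤ E1 := by
    have h3 : 0 ≤ E1 * Real.sqrt T * 2 ^ Fintype.card (WC β δ P) :=
      le_trans (sum_nonneg fun x _ => (Real.exp_pos _).le) h1
    by_contra hc
    push Not at hc
    have h4 : E1 * Real.sqrt T < 0 := mul_neg_of_neg_of_pos hc hqT
    have := mul_neg_of_neg_of_pos h4 hN
    linarith
  have hEh : 0 ≤ Eh := by
    have h3 : 0 ≤ Eh * Real.sqrt T * 2 ^ Fintype.card (WC β δ P) :=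
      le_trans (sum_nonneg fun x _ => mul_nonneg (abs_nonneg _) (Real.exp_pos _).le) h2
    by_contra hc
    push Not at hc
    have h4 : Eh * Real.sqrt T < 0 := mul_neg_of_neg_of_pos hc hqT
    have := mul_neg_of_neg_of_pos h4 hN
    linarith
  have hHm0 : 0 ≤ Hm := (abs_nonneg _).trans (hHm (fun _ => false))
  obtain ⟨A, hA⟩ : ∃ A : WX β δ P → ℝ, A = fun x => W.FC ∅ (G + 1) x - c := ⟨_, rfl⟩
  obtain ⟨D, hD⟩ : ∃ D : WX β δ P → ℝ, D = fun x => h x * (phi (t (dit x) + W.tim G (dit x))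
    (W.FC ∅ G x - c) - phi (t (dit x) + W.tim (G + 1) (dit x)) (A x)) := ⟨_, rfl⟩
  have hFC : ∀ x, W.FC ∅ G x - c = A x +
      ind (W.good G x) * (W.μ * ((W.m G (dit x) : ℝ) - 1 - 2 * (W.nu G x : ℝ))) := by
    intro x
    rw [hA]
    simp only
    unfold WData.FC
    rw [WN_noise W G hG x]
    ring
  have htime : ∀ u, W.tim (G + 1) u = W.tim G u + W.μ ^ 2 * ((W.m G u : ℝ) ^ 2 - 1) / 3 := by
    intro u
    unfold WData.tim
    rw [sum_range_succ]
  have e0 : ∑ x, h x * phi (t (dit x) + W.tim G (dit x)) (W.FC ∅ G x - c) -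
        ∑ x, h x * phi (t (dit x) + W.tim (G + 1) (dit x)) (W.FC ∅ (G + 1) x - c) = ∑ x, D x := by
    rw [← sum_sub_distrib]
    refine sum_congr rfl fun x _ => ?_
    rw [hD, hA]
    ring
  rw [e0, ← sum_filter_add_sum_filter_not univ (fun x => W.good G x) D]
  obtain ⟨B, hB⟩ : ∃ B : WX β δ P → ℝ, B = fun x =>
    (100 * (lam * J) * (4 * R) / Real.sqrt t0 + 10 * |h x| * (4 * R) ^ 4 / t0 ^ 2) *
      Real.exp (-((A x) ^ 2 / (8 * T))) := ⟨_, rfl⟩
  have hB0 : ∀ x, 0 ≤ B x := fun x => by rw [hB]; positivity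
  have hgood : |∑ x ∈ univ.filter (fun x => W.good G x), D x| ≤ ∑ x, B x := by
    rw [← sum_fiberwise (univ.filter (fun x => W.good G x)) (dit (β := β) (P := P)) D]
    refine (abs_sum_le_sum_abs _ _).trans ?_
    have h3 : ∀ u : δ → Bool, |∑ x ∈ (univ.filter (fun x => W.good G x)) with dit x = u, D x| ≤
        ∑ x ∈ (univ.filter (fun x : WX β δ P => W.good G x)) with dit x = u, B x := by
      intro u
      rw [filter_filter]
      have h4 := noise_one2 (fun x : WX β δ P => W.good G x ∧ dit x = u) (W.m G u) (hW.hm G hG u).1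
        (W.nu G) (W.set G)
        (by
          rintro x ⟨hx, hu⟩
          have := hW.nu_lt G hG x hx
          rwa [hu] at this)
        (by
          rintro x ⟨hx, hu⟩ s hs
          rw [← hu] at hs
          obtain ⟨h5, h6, h7⟩ := hW.set_good G hG x hx s hs
          refine ⟨⟨h5, ?_⟩, h6, ?_⟩
          · rw [WN_dit W R J ε1 hW G hG x hx s hs, hu]
          · intro t' ht'
            rw [← hu] at ht'
            exact h7 t' ht')
        (by
          rintro x ⟨hx, hu⟩
          exact hW.set_self G hG x hx)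
        h A (lam * J)
        (by
          rintro x ⟨hx, hu⟩ s hs
          rw [← hu] at hs
          exact WN_lip_le lam hlam h hh x _ J (hW.set_dist G hG x hx s hs))
        (by
          rintro x ⟨hx, hu⟩ s hs
          rw [← hu] at hs
          rw [hA]
          simp only
          rw [WN_A W R J ε1 hW G hG x hx s hs])
        W.μ (t u + W.tim G u) (4 * R) hW.hμ.1.le (hW.hm G hG u).2 (by positivity)
        (by
          have := (hτ u).1
          nlinarith)
      have h5 : ∑ x ∈ univ.filter (fun x : WX β δ P => W.good G x ∧ dit x = u), D x =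
          ∑ x ∈ univ.filter (fun x : WX β δ P => W.good G x ∧ dit x = u), h x *
            (phi (t u + W.tim G u) (A x + W.μ * (W.m G u - 1 - 2 * (W.nu G x : ℝ))) -
              phi (t u + W.tim G u + W.μ ^ 2 * (W.m G u ^ 2 - 1) / 3) (A x)) := by
        refine sum_congr rfl fun x hx => ?_
        obtain ⟨hx1, hx2⟩ := (mem_filter.1 hx).2
        rw [hD]
        simp only
        rw [hFC x, htime, ind_true hx1, one_mul, hx2, ← add_assoc]
      rw [h5]
      refine h4.trans ?_
      refine sum_le_sum fun x _ => ?_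
      rw [hB]
      obtain ⟨h6, h7⟩ := hτ u
      have h8 : 0 < t u + W.tim G u := lt_of_lt_of_le ht00 h6
      have h9 : 0 < Real.sqrt (t u + W.tim G u) := Real.sqrt_pos.2 h8
      have h10 : Real.sqrt t0 ≤ Real.sqrt (t u + W.tim G u) := Real.sqrt_le_sqrt h6
      apply mul_le_mul _ _ (Real.exp_pos _).le (by positivity)
      · apply add_le_add
        · exact div_le_div_of_nonneg_left (by positivity) hq0 h10
        · exact div_le_div_of_nonneg_left (by positivity) (by positivity)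
            (pow_le_pow_left₀ ht00.le h6 2)
      · apply Real.exp_le_exp.2
        apply neg_le_neg
        exact div_le_div_of_nonneg_left (sq_nonneg _) (by positivity) (by linarith)
    refine (sum_le_sum fun u _ => h3 u).trans ?_
    rw [sum_fiberwise (univ.filter (fun x => W.good G x)) (dit (β := β) (P := P)) B]
    exact sum_le_sum_of_subset_of_nonneg (filter_subset _ _) fun x _ _ => hB0 x
  have hBs : ∑ x, B x ≤ 2 ^ Fintype.card (WC β δ P) * (1600 * (lam * J * R * E1) +
        10240 * (Eh * R ^ 4 / (t0 * Real.sqrt t0))) := by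
    have e1 : ∑ x, B x = 100 * (lam * J) * (4 * R) / Real.sqrt t0 *
        (∑ x, Real.exp (-((W.FC ∅ (G + 1) x - c) ^ 2 / (8 * T)))) +
        10 * (4 * R) ^ 4 / t0 ^ 2 *
        (∑ x, |h x| * Real.exp (-((W.FC ∅ (G + 1) x - c) ^ 2 / (8 * T)))) := by
      rw [mul_sum, mul_sum, ← sum_add_distrib]
      refine sum_congr rfl fun x _ => ?_
      rw [hB, hA]
      ring
    rw [e1]
    have h3 := mul_le_mul_of_nonneg_left h1
      (show 0 ≤ 100 * (lam * J) * (4 * R) / Real.sqrt t0 by positivity)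
    have h4 := mul_le_mul_of_nonneg_left h2 (show 0 ≤ 10 * (4 * R) ^ 4 / t0 ^ 2 by positivity)
    have h5 : 100 * (lam * J) * (4 * R) / Real.sqrt t0 *
        (E1 * Real.sqrt T * 2 ^ Fintype.card (WC β δ P)) ≤
        2 ^ Fintype.card (WC β δ P) * (1600 * (lam * J * R * E1)) := by
      have h6 : 100 * (lam * J) * (4 * R) / Real.sqrt t0 *
        (E1 * Real.sqrt T * 2 ^ Fintype.card (WC β δ P)) =
        (100 * (lam * J) * (4 * R) * E1 * 2 ^ Fintype.card (WC β δ P) / Real.sqrt t0) *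
          Real.sqrt T := by ring
      rw [h6]
      refine (mul_le_mul_of_nonneg_left hqq (by positivity)).trans (le_of_eq ?_)
      field_simp
      ring
    have h7 : 10 * (4 * R) ^ 4 / t0 ^ 2 * (Eh * Real.sqrt T * 2 ^ Fintype.card (WC β δ P)) ≤
        2 ^ Fintype.card (WC β δ P) * (10240 * (Eh * R ^ 4 / (t0 * Real.sqrt t0))) := by
      have h6 : 10 * (4 * R) ^ 4 / t0 ^ 2 * (Eh * Real.sqrt T * 2 ^ Fintype.card (WC β δ P)) =
        (10 * (4 * R) ^ 4 * Eh * 2 ^ Fintype.card (WC β δ P) / t0 ^ 2) * Real.sqrt T := by ring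
      rw [h6]
      refine (mul_le_mul_of_nonneg_left hqq (by positivity)).trans (le_of_eq ?_)
      have hsq : Real.sqrt t0 ^ 2 = t0 := Real.sq_sqrt ht00.le
      set q := Real.sqrt t0 with hqd
      rw [← hsq]
      field_simp
      ring
    linarith
  have hbad : |∑ x ∈ univ.filter (fun x => ¬ W.good G x), D x| ≤
      2 ^ Fintype.card (WC β δ P) * (Hm * εf) := by
    refine (abs_sum_le_sum_abs _ _).trans ?_
    have h3 : ∑ x ∈ univ.filter (fun x => ¬ W.good G x), |D x| ≤
        ∑ x ∈ univ.filter (fun x => ¬ W.good G x), Hm * ind (¬ W.ok x) := by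
      refine sum_le_sum fun x hx => ?_
      have hx' := (mem_filter.1 hx).2
      have hok : ¬ W.ok x := fun ho => hx' (ho G hG)
      rw [ind_true hok, mul_one, hD]
      simp only
      rw [abs_mul]
      have h4 : |phi (t (dit x) + W.tim G (dit x)) (W.FC ∅ G x - c) -
          phi (t (dit x) + W.tim (G + 1) (dit x)) (A x)| ≤ 1 := by
        have h5 := phi_nonneg (t (dit x) + W.tim G (dit x)) (W.FC ∅ G x - c)
        have h6 := phi_le_one (t (dit x) + W.tim G (dit x)) (W.FC ∅ G x - c)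
        have h7 := phi_nonneg (t (dit x) + W.tim (G + 1) (dit x)) (A x)
        have h8 := phi_le_one (t (dit x) + W.tim (G + 1) (dit x)) (A x)
        rw [abs_le]
        constructor <;> linarith
      calc |h x| * _ ≤ Hm * 1 := mul_le_mul (hHm x) h4 (abs_nonneg _) hHm0
        _ = Hm := mul_one _
    refine h3.trans ?_
    have h4 : ∑ x ∈ univ.filter (fun x => ¬ W.good G x), Hm * ind (¬ W.ok x) ≤
        ∑ x, Hm * ind (¬ W.ok x) :=
      sum_le_sum_of_subset_of_nonneg (filter_subset _ _) fun x _ _ =>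
        mul_nonneg hHm0 (ind_nonneg _)
    refine h4.trans ?_
    rw [← mul_sum]
    refine (mul_le_mul_of_nonneg_left hf hHm0).trans (le_of_eq ?_)
    ring
  refine (abs_add_le _ _).trans ?_
  have h9 := hgood.trans hBs
  linarith

theorem noise_path (W : WData β δ P) (R : ℝ) (J : ℕ) (ε1 : ℝ) (hW : WOK W R J ε1)
    (h : WX β δ P → ℝ) (lam Hm E1 Eh t0 T c εf : ℝ) (hlam : 0 ≤ lam) (hh : Lip lam h)
    (hHm : ∀ x, |h x| ≤ Hm) (t : (δ → Bool) → ℝ) (ht : ∀ u, t0 ≤ t u ∧ t u + W.tim W.K u ≤ T)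
    (ht0 : 16 * R ^ 2 ≤ t0) (hTt : T ≤ 16 * t0)
    (hf : ∑ x, ind (¬ W.ok x) ≤ εf * 2 ^ Fintype.card (WC β δ P))
    (h1 : ∀ G ≤ W.K, ∑ x, Real.exp (-((W.FC ∅ G x - c) ^ 2 / (8 * T))) ≤
      E1 * Real.sqrt T * 2 ^ Fintype.card (WC β δ P))
    (h2 : ∀ G ≤ W.K, ∑ x, |h x| * Real.exp (-((W.FC ∅ G x - c) ^ 2 / (8 * T))) ≤
      Eh * Real.sqrt T * 2 ^ Fintype.card (WC β δ P)) :
    |∑ x, h x * phi (t (dit x)) (W.FC ∅ 0 x - c) -
        ∑ x, h x * phi (t (dit x) + W.tim W.K (dit x)) (W.FC ∅ W.K x - c)| ≤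
      10 ^ 5 * 2 ^ Fintype.card (WC β δ P) * (W.K * (lam * J * R * E1 +
        Eh * R ^ 4 / (t0 * Real.sqrt t0)) + W.K * Hm * εf) := by
  have hR1 := hW.R1
  have hR0 : 0 < R := by linarith
  have ht00 : 0 < t0 := by nlinarith
  have hN : (0 : ℝ) < 2 ^ Fintype.card (WC β δ P) := by positivity
  have htK : ∀ u, 0 ≤ W.tim W.K u := fun u => by
    unfold WData.tim
    exact sum_nonneg fun g hg => WN_tim W R J ε1 hW u g (mem_range.1 hg)
  have hT0 : 0 < T := by
    have h3 := ht (fun _ => false)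
    have h4 := htK (fun _ => false)
    linarith
  have hqT : 0 < Real.sqrt T := Real.sqrt_pos.2 hT0
  have hq0 : 0 < Real.sqrt t0 := Real.sqrt_pos.2 ht00
  have hE1 : 0 ≤ E1 := by
    have h3 : 0 ≤ E1 * Real.sqrt T * 2 ^ Fintype.card (WC β δ P) :=
      le_trans (sum_nonneg fun x _ => (Real.exp_pos _).le) (h1 0 (Nat.zero_le _))
    by_contra hc
    push Not at hc
    have h4 : E1 * Real.sqrt T < 0 := mul_neg_of_neg_of_pos hc hqT
    have := mul_neg_of_neg_of_pos h4 hN
    linarith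
  have hEh : 0 ≤ Eh := by
    have h3 : 0 ≤ Eh * Real.sqrt T * 2 ^ Fintype.card (WC β δ P) :=
      le_trans (sum_nonneg fun x _ => mul_nonneg (abs_nonneg _) (Real.exp_pos _).le)
        (h2 0 (Nat.zero_le _))
    by_contra hc
    push Not at hc
    have h4 : Eh * Real.sqrt T < 0 := mul_neg_of_neg_of_pos hc hqT
    have := mul_neg_of_neg_of_pos h4 hN
    linarith
  have hHm0 : 0 ≤ Hm := (abs_nonneg _).trans (hHm (fun _ => false))
  have hεf : 0 ≤ εf := by
    have h3 : 0 ≤ εf * 2 ^ Fintype.card (WC β δ P) := le_trans (sum_nonneg fun x _ => ind_nonneg _) hf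
    by_contra hc
    push Not at hc
    have := mul_neg_of_neg_of_pos hc hN
    linarith
  obtain ⟨M, hM⟩ : ∃ M : ℝ, M = 1600 * (lam * J * R * E1) +
        10240 * (Eh * R ^ 4 / (t0 * Real.sqrt t0)) + Hm * εf := ⟨_, rfl⟩
  have key : ∀ G : ℕ, G ≤ W.K →
      |∑ x, h x * phi (t (dit x) + W.tim 0 (dit x)) (W.FC ∅ 0 x - c) -
        ∑ x, h x * phi (t (dit x) + W.tim G (dit x)) (W.FC ∅ G x - c)| ≤
      2 ^ Fintype.card (WC β δ P) * (G * M) := by
    intro G
    induction G with
    | zero => intro _; simp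
    | succ G ih =>
      intro hG
      have h3 := ih (by omega)
      have h4 := WN_step W R J ε1 hW h lam Hm E1 Eh t0 T c εf hlam hh hHm t ht ht0 hTt hf G
        (by omega) (h1 (G + 1) hG) (h2 (G + 1) hG)
      rw [← hM] at h4
      refine (abs_sub_le _ _ _).trans ((add_le_add h3 h4).trans (le_of_eq ?_))
      push_cast
      ring
  have h5 := key W.K le_rfl
  have h6 : ∀ u : δ → Bool, W.tim 0 u = 0 := fun u => by
    unfold WData.tim
    simp
  simp only [h6, add_zero] at h5
  refine h5.trans ?_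
  have h7 : 0 ≤ lam * J * R * E1 := by positivity
  have h8 : 0 ≤ Eh * R ^ 4 / (t0 * Real.sqrt t0) := by positivity
  have h9 : 0 ≤ Hm * εf := mul_nonneg hHm0 hεf
  have h10 : (W.K : ℝ) * M ≤ 10 ^ 5 * (W.K * (lam * J * R * E1 +
        Eh * R ^ 4 / (t0 * Real.sqrt t0)) + W.K * Hm * εf) := by
    have h11 : M ≤ 10 ^ 5 * (lam * J * R * E1 +
        Eh * R ^ 4 / (t0 * Real.sqrt t0) + Hm * εf) := by
      rw [hM]
      linarith
    refine (mul_le_mul_of_nonneg_left h11 (Nat.cast_nonneg _)).trans (le_of_eq ?_)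
    ring
  refine (mul_le_mul_of_nonneg_left h10 hN.le).trans (le_of_eq ?_)
  ring

end BLO
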