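import Pool.Agent.Lib.BLO.W1Defs
import Pool.Agent.Lib.BLO.W1Heat
import Pool.Agent.Lib.BLP.Swap1

/-!
# Chunk WP: averaging the weights of the pairs

One pair: if its two coordinates are equal nothing changes; otherwise the contribution is
`± d`, `d = a(k,false) - a(k,true)`, resp. `0`.  Match `x` with the point `x'` in which both coordinates of the
pair are flipped (`|h x' - h x| ≤ 2 lam`): `h x (phi (R + d) - phi R) + h x' (phi (R - d) - phi R)`
`= h x (phi (R+d) + phi (R-d) - 2 phi R) + (h x' - h x) (phi (R-d) - phi R)`: `phi_sym2`, `phi_shift2`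
(`d^2 ≤ T`).  Here `R` is the value of `FS s (insert k pp)` at `x` and `x'`, minus `c`.
Path: one pair at a time.
-/

namespace BLO

open Finset BLP

variable {β δ P : Type*} [Fintype β] [DecidableEq β] [Fintype δ] [DecidableEq δ]
  [Fintype P] [DecidableEq P]

/-- flip both coordinates of the pair `k` -/
def WP_fl (k : P) (x : WX β δ P) : WX β δ P := flp (flp x (Sum.inr (k, false))) (Sum.inr (k, true))

theorem WP_sum_fl (k : P) (f : WX β δ P → ℝ) : ∑ x, f (WP_fl k x) = ∑ x, f x := by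
  unfold WP_fl
  rw [S1_sum_flp (Sum.inr (k, false)) (fun x => f (flp x (Sum.inr (k, true))))]
  exact S1_sum_flp (Sum.inr (k, true)) f

omit [Fintype β] [Fintype δ] [Fintype P] in
theorem WP_fl_inl (k : P) (x : WX β δ P) (i : β ⊕ δ) : WP_fl k x (Sum.inl i) = x (Sum.inl i) := by
  unfold WP_fl
  rw [flp_ne _ (by simp), flp_ne _ (by simp)]

omit [Fintype β] [Fintype δ] [Fintype P] in
theorem WP_fl_ne (k j : P) (b : Bool) (x : WX β δ P) (hj : j ≠ k) :
    WP_fl k x (Sum.inr (j, b)) = x (Sum.inr (j, b)) := by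
  unfold WP_fl
  rw [flp_ne _ (by simp [hj]), flp_ne _ (by simp [hj])]

omit [Fintype β] [Fintype δ] [Fintype P] in
theorem WP_fl_false (k : P) (x : WX β δ P) :
    WP_fl k x (Sum.inr (k, false)) = !(x (Sum.inr (k, false))) := by
  unfold WP_fl
  rw [flp_ne _ (by simp), flp_same]

omit [Fintype β] [Fintype δ] [Fintype P] in
theorem WP_fl_true (k : P) (x : WX β δ P) :
    WP_fl k x (Sum.inr (k, true)) = !(x (Sum.inr (k, true))) := by
  unfold WP_fl
  rw [flp_same, flp_ne _ (by simp)]

/-- the contribution of one pair, not averaged, resp. averaged -/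
noncomputable def WP_a (W : WData β δ P) (x : WX β δ P) (k : P) : ℝ :=
  W.a (Sum.inr (k, false)) * sg (x (Sum.inr (k, false))) +
    W.a (Sum.inr (k, true)) * sg (x (Sum.inr (k, true)))

noncomputable def WP_m (W : WData β δ P) (x : WX β δ P) (k : P) : ℝ := 2 * W.v k * (val (st x k) : ℝ)

/-- the two contributions differ by `D` -/
noncomputable def WP_D (W : WData β δ P) (x : WX β δ P) (k : P) : ℝ := WP_a W x k - WP_m W x k

omit [Fintype β] [DecidableEq β] [Fintype δ] [DecidableEq δ] [Fintype P] [DecidableEq P] in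
theorem WP_eq (W : WData β δ P) (x : WX β δ P) (k : P)
    (h : x (Sum.inr (k, false)) = x (Sum.inr (k, true))) : WP_D W x k = 0 := by
  unfold WP_D WP_a WP_m WData.v val st
  rw [← h]
  cases x (Sum.inr (k, false)) <;> simp [sg] <;> ring

omit [Fintype β] [DecidableEq β] [Fintype δ] [DecidableEq δ] [Fintype P] [DecidableEq P] in
theorem WP_ne (W : WData β δ P) (x : WX β δ P) (k : P)
    (h : x (Sum.inr (k, true)) = !(x (Sum.inr (k, false)))) :
    WP_D W x k = (W.a (Sum.inr (k, false)) - W.a (Sum.inr (k, true))) * sg (x (Sum.inr (k, false))) := by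
  unfold WP_D WP_a WP_m WData.v val st
  rw [h]
  cases x (Sum.inr (k, false)) <;> simp [sg] <;> ring

omit [Fintype β] [Fintype δ] in
theorem WP_FS_insert (W : WData β δ P) (s : Finset (β ⊕ δ)) (pp : Finset P) (k : P) (hk : k ∉ pp)
    (x : WX β δ P) : W.FS s pp x = W.FS s (insert k pp) x + WP_D W x k := by
  unfold WData.FS
  have h1 : ∀ j : P, (if j ∈ pp then 2 * W.v j * (val (st x j) : ℝ) else
      W.a (Sum.inr (j, false)) * sg (x (Sum.inr (j, false))) +
        W.a (Sum.inr (j, true)) * sg (x (Sum.inr (j, true)))) =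
      (if j ∈ insert k pp then 2 * W.v j * (val (st x j) : ℝ) else
      W.a (Sum.inr (j, false)) * sg (x (Sum.inr (j, false))) +
        W.a (Sum.inr (j, true)) * sg (x (Sum.inr (j, true)))) + if j = k then WP_D W x k else 0 := by
    intro j
    by_cases hj : j = k
    · subst hj
      rw [if_neg hk, if_pos (Finset.mem_insert_self _ _), if_pos rfl]
      unfold WP_D WP_a WP_m
      ring
    · by_cases hjp : j ∈ pp
      · rw [if_pos hjp, if_pos (Finset.mem_insert_of_mem hjp), if_neg hj, add_zero]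
      · rw [if_neg hjp, if_neg (by simp [hj, hjp]), if_neg hj, add_zero]
  rw [Finset.sum_congr rfl fun j _ => h1 j, Finset.sum_add_distrib]
  simp only [Finset.sum_ite_eq', Finset.mem_univ, if_true]
  ring

omit [Fintype β] [Fintype δ] in
theorem WP_FS_fl (W : WData β δ P) (s : Finset (β ⊕ δ)) (pp : Finset P) (k : P)
    (x : WX β δ P) (h : x (Sum.inr (k, true)) = !(x (Sum.inr (k, false)))) :
    W.FS s (insert k pp) (WP_fl k x) = W.FS s (insert k pp) x := by
  unfold WData.FS
  refine congrArg₂ (· + ·) ?_ ?_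
  · exact Finset.sum_congr rfl fun i _ => by rw [WP_fl_inl]
  · refine Finset.sum_congr rfl fun j _ => ?_
    by_cases hj : j = k
    · subst hj
      rw [if_pos (Finset.mem_insert_self _ _), if_pos (Finset.mem_insert_self _ _)]
      congr 2
      unfold val st
      rw [WP_fl_false, WP_fl_true, h]
      cases x (Sum.inr (j, false)) <;> simp
    · have e : st (WP_fl k x) j = st x j := by
        unfold st
        rw [WP_fl_ne k j false x hj, WP_fl_ne k j true x hj]
      rw [e, WP_fl_ne k j false x hj, WP_fl_ne k j true x hj]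

theorem WP_pt (lam T R e hx hx' d : ℝ) (hT : 0 < T) (hd : |e| = d) (hdT : d ^ 2 ≤ T)
    (hh : |hx' - hx| ≤ 2 * lam) :
    |hx * (phi T (R + e) - phi T R) + hx' * (phi T (R - e) - phi T R)| ≤
      (100 * d ^ 2 / T * |hx| + 200 * lam * d / Real.sqrt T) * Real.exp (-(R ^ 2 / (8 * T))) := by
  have hE : 0 < Real.exp (-(R ^ 2 / (8 * T))) := Real.exp_pos _
  have hq : 0 < Real.sqrt T := Real.sqrt_pos.2 hT
  have he : e ^ 2 = d ^ 2 := by rw [← hd, sq_abs]
  have h1 := phi_sym2 T R e hT (by rw [he]; exact hdT)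
  have h2 := phi_shift2 T R (-e) hT (by rw [neg_sq, he]; exact hdT)
  rw [← sub_eq_add_neg, abs_neg, hd] at h2
  rw [he] at h1
  have h3 : hx * (phi T (R + e) - phi T R) + hx' * (phi T (R - e) - phi T R) =
      hx * (phi T (R + e) + phi T (R - e) - 2 * phi T R) + (hx' - hx) * (phi T (R - e) - phi T R) := by
    ring
  rw [h3]
  have hd0 : 0 ≤ d := by rw [← hd]; exact abs_nonneg _
  have hlam : 0 ≤ 2 * lam := (abs_nonneg _).trans hh
  calc |hx * (phi T (R + e) + phi T (R - e) - 2 * phi T R) + (hx' - hx) * (phi T (R - e) - phi T R)|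
      ≤ |hx| * |phi T (R + e) + phi T (R - e) - 2 * phi T R| +
          |hx' - hx| * |phi T (R - e) - phi T R| := by
        refine (abs_add_le _ _).trans ?_
        rw [abs_mul, abs_mul]
    _ ≤ |hx| * (100 * d ^ 2 / T * Real.exp (-(R ^ 2 / (8 * T)))) +
          2 * lam * (100 * d / Real.sqrt T * Real.exp (-(R ^ 2 / (8 * T)))) :=
        add_le_add (mul_le_mul_of_nonneg_left h1 (abs_nonneg _))
          (mul_le_mul hh h2 (abs_nonneg _) hlam)
    _ = _ := by ring

theorem WP_step (W : WData β δ P) (s : Finset (β ⊕ δ)) (h : WX β δ P → ℝ) (lam E1 Eh T c : ℝ)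
    (hlam : 0 ≤ lam) (hh : Lip lam h) (hT : 1 ≤ T) (pp : Finset P) (k : P) (hk : k ∉ pp)
    (hd : W.d k ^ 2 ≤ T)
    (h1 : ∑ x, Real.exp (-((W.FS s (insert k pp) x - c) ^ 2 / (8 * T))) ≤
      E1 * Real.sqrt T * 2 ^ Fintype.card (WC β δ P))
    (h2 : ∑ x, |h x| * Real.exp (-((W.FS s (insert k pp) x - c) ^ 2 / (8 * T))) ≤
      Eh * Real.sqrt T * 2 ^ Fintype.card (WC β δ P)) :
    |∑ x, h x * phi T (W.FS s pp x - c) - ∑ x, h x * phi T (W.FS s (insert k pp) x - c)| ≤
      2 ^ Fintype.card (WC β δ P) * (100 * lam * E1 * W.d k + 50 * Eh * (W.d k ^ 2) / Real.sqrt T) := by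
  have hT0 : 0 < T := by linarith
  have hq : 0 < Real.sqrt T := Real.sqrt_pos.2 hT0
  have hd0 : 0 ≤ W.d k := abs_nonneg _
  set g : WX β δ P → ℝ := fun x => h x * (phi T (W.FS s (insert k pp) x - c + WP_D W x k) -
    phi T (W.FS s (insert k pp) x - c)) with hg
  have e1 : ∑ x, h x * phi T (W.FS s pp x - c) - ∑ x, h x * phi T (W.FS s (insert k pp) x - c) =
      ∑ x, g x := by
    rw [← Finset.sum_sub_distrib]
    refine Finset.sum_congr rfl fun x _ => ?_
    rw [hg]
    simp only
    rw [WP_FS_insert W s pp k hk x]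
    ring_nf
  have e2 : ∑ x, g x = 1 / 2 * ∑ x, (g x + g (WP_fl k x)) := by
    rw [Finset.sum_add_distrib, WP_sum_fl]
    ring
  have hpt : ∀ x, |g x + g (WP_fl k x)| ≤
      (100 * W.d k ^ 2 / T * |h x| + 200 * lam * W.d k / Real.sqrt T) *
        Real.exp (-((W.FS s (insert k pp) x - c) ^ 2 / (8 * T))) := by
    intro x
    by_cases hx : x (Sum.inr (k, false)) = x (Sum.inr (k, true))
    · have hx' : WP_fl k x (Sum.inr (k, false)) = WP_fl k x (Sum.inr (k, true)) := by
        rw [WP_fl_false, WP_fl_true, hx]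
      have e3 : g x = 0 := by
        rw [hg]; simp only
        rw [WP_eq W x k hx]; simp
      have e4 : g (WP_fl k x) = 0 := by
        rw [hg]; simp only
        rw [WP_eq W _ k hx']; simp
      rw [e3, e4, add_zero, abs_zero]
      positivity
    · have hx2 : x (Sum.inr (k, true)) = !(x (Sum.inr (k, false))) := by
        revert hx
        cases x (Sum.inr (k, false)) <;> cases x (Sum.inr (k, true)) <;> simp
      have hx3 : WP_fl k x (Sum.inr (k, true)) = !(WP_fl k x (Sum.inr (k, false))) := by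
        rw [WP_fl_false, WP_fl_true, hx2]
      have e5 : WP_D W (WP_fl k x) k = -WP_D W x k := by
        rw [WP_ne W _ k hx3, WP_ne W x k hx2, WP_fl_false]
        cases x (Sum.inr (k, false)) <;> simp [sg]
      have e6 : |WP_D W x k| = W.d k := by
        rw [WP_ne W x k hx2, abs_mul]
        unfold WData.d
        cases x (Sum.inr (k, false)) <;> simp [sg]
      have e7 : |h (WP_fl k x) - h x| ≤ 2 * lam := by
        have h3 := hh x (Sum.inr (k, false))
        have h4 := hh (flp x (Sum.inr (k, false))) (Sum.inr (k, true))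
        have h5 : h (WP_fl k x) - h x = (h (flp (flp x (Sum.inr (k, false))) (Sum.inr (k, true))) -
            h (flp x (Sum.inr (k, false)))) + (h (flp x (Sum.inr (k, false))) - h x) := by
          unfold WP_fl
          ring
        rw [h5]
        refine (abs_add_le _ _).trans ?_
        linarith
      have e8 : g x + g (WP_fl k x) = h x * (phi T (W.FS s (insert k pp) x - c + WP_D W x k) -
          phi T (W.FS s (insert k pp) x - c)) + h (WP_fl k x) *
          (phi T (W.FS s (insert k pp) x - c - WP_D W x k) - phi T (W.FS s (insert k pp) x - c)) := by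
        rw [hg]
        simp only
        rw [WP_FS_fl W s pp k x hx2, e5, ← sub_eq_add_neg]
      rw [e8]
      exact WP_pt lam T (W.FS s (insert k pp) x - c) (WP_D W x k) (h x) (h (WP_fl k x)) (W.d k) hT0
        e6 hd e7
  rw [e1, e2, abs_mul, abs_of_pos (by norm_num : (0 : ℝ) < 1 / 2)]
  have h3 : |∑ x, (g x + g (WP_fl k x))| ≤
      100 * W.d k ^ 2 / T * (Eh * Real.sqrt T * 2 ^ Fintype.card (WC β δ P)) +
        200 * lam * W.d k / Real.sqrt T * (E1 * Real.sqrt T * 2 ^ Fintype.card (WC β δ P)) := by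
    refine (Finset.abs_sum_le_sum_abs _ _).trans ((Finset.sum_le_sum fun x _ => hpt x).trans ?_)
    have e9 : ∑ x, (100 * W.d k ^ 2 / T * |h x| + 200 * lam * W.d k / Real.sqrt T) *
        Real.exp (-((W.FS s (insert k pp) x - c) ^ 2 / (8 * T))) =
        100 * W.d k ^ 2 / T * (∑ x, |h x| * Real.exp (-((W.FS s (insert k pp) x - c) ^ 2 / (8 * T)))) +
        200 * lam * W.d k / Real.sqrt T *
          (∑ x, Real.exp (-((W.FS s (insert k pp) x - c) ^ 2 / (8 * T)))) := by
      rw [Finset.mul_sum, Finset.mul_sum, ← Finset.sum_add_distrib]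
      refine Finset.sum_congr rfl fun x _ => ?_
      ring
    rw [e9]
    exact add_le_add (mul_le_mul_of_nonneg_left h2 (by positivity))
      (mul_le_mul_of_nonneg_left h1 (by positivity))
  have e10 : 100 * W.d k ^ 2 / T * (Eh * Real.sqrt T * 2 ^ Fintype.card (WC β δ P)) +
        200 * lam * W.d k / Real.sqrt T * (E1 * Real.sqrt T * 2 ^ Fintype.card (WC β δ P)) =
      2 * (2 ^ Fintype.card (WC β δ P) * (100 * lam * E1 * W.d k +
        50 * Eh * (W.d k ^ 2) / Real.sqrt T)) := by
    have hsq : Real.sqrt T ^ 2 = T := Real.sq_sqrt hT0.le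
    set q := Real.sqrt T with hqd
    rw [← hsq]
    field_simp
    ring
  rw [e10] at h3
  linarith

theorem pair_path (W : WData β δ P) (s : Finset (β ⊕ δ)) (h : WX β δ P → ℝ) (lam E1 Eh T c : ℝ)
    (hlam : 0 ≤ lam) (hh : Lip lam h) (hT : 1 ≤ T) (hd : ∀ k, W.d k ^ 2 ≤ T)
    (h1 : ∀ pp, ∑ x, Real.exp (-((W.FS s pp x - c) ^ 2 / (8 * T))) ≤
      E1 * Real.sqrt T * 2 ^ Fintype.card (WC β δ P))
    (h2 : ∀ pp, ∑ x, |h x| * Real.exp (-((W.FS s pp x - c) ^ 2 / (8 * T))) ≤
      Eh * Real.sqrt T * 2 ^ Fintype.card (WC β δ P)) :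
    |∑ x, h x * phi T (W.FS s ∅ x - c) - ∑ x, h x * phi T (W.FS s univ x - c)| ≤
      1000 * 2 ^ Fintype.card (WC β δ P) *
        (lam * E1 * ∑ k, W.d k + Eh * (∑ k, W.d k ^ 2) / Real.sqrt T) := by
  have hT0 : 0 < T := by linarith
  have hq : 0 < Real.sqrt T := Real.sqrt_pos.2 hT0
  have hN : (0 : ℝ) < 2 ^ Fintype.card (WC β δ P) := by positivity
  have hE1 : 0 ≤ E1 := by
    have h3 : 0 ≤ E1 * Real.sqrt T * 2 ^ Fintype.card (WC β δ P) :=
      le_trans (Finset.sum_nonneg fun x _ => (Real.exp_pos _).le) (h1 ∅)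
    by_contra hc
    push Not at hc
    have : E1 * Real.sqrt T * 2 ^ Fintype.card (WC β δ P) < 0 := by
      have h4 : E1 * Real.sqrt T < 0 := mul_neg_of_neg_of_pos hc hq
      exact mul_neg_of_neg_of_pos h4 hN
    linarith
  have hEh : 0 ≤ Eh := by
    have h3 : 0 ≤ Eh * Real.sqrt T * 2 ^ Fintype.card (WC β δ P) :=
      le_trans (Finset.sum_nonneg fun x _ => mul_nonneg (abs_nonneg _) (Real.exp_pos _).le) (h2 ∅)
    by_contra hc
    push Not at hc
    have : Eh * Real.sqrt T * 2 ^ Fintype.card (WC β δ P) < 0 := by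
      have h4 : Eh * Real.sqrt T < 0 := mul_neg_of_neg_of_pos hc hq
      exact mul_neg_of_neg_of_pos h4 hN
    linarith
  have key : ∀ pp : Finset P,
      |∑ x, h x * phi T (W.FS s ∅ x - c) - ∑ x, h x * phi T (W.FS s pp x - c)| ≤
      2 ^ Fintype.card (WC β δ P) * (100 * lam * E1 * ∑ k ∈ pp, W.d k +
        50 * Eh * (∑ k ∈ pp, W.d k ^ 2) / Real.sqrt T) := by
    intro pp
    induction pp using Finset.induction_on with
    | empty => simp
    | insert k pp hk ih =>
      have h3 := WP_step W s h lam E1 Eh T c hlam hh hT pp k hk (hd k) (h1 _) (h2 _)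
      refine (abs_sub_le _ _ _).trans ((add_le_add ih h3).trans (le_of_eq ?_))
      rw [Finset.sum_insert hk, Finset.sum_insert hk]
      ring
  refine (key univ).trans ?_
  have h5 : 0 ≤ lam * E1 * ∑ k, W.d k :=
    mul_nonneg (mul_nonneg hlam hE1) (Finset.sum_nonneg fun k _ => abs_nonneg _)
  have h6 : 0 ≤ Eh * (∑ k, W.d k ^ 2) / Real.sqrt T :=
    div_nonneg (mul_nonneg hEh (Finset.sum_nonneg fun k _ => sq_nonneg _)) hq.le
  have h7 : 100 * lam * E1 * ∑ k, W.d k + 50 * Eh * (∑ k, W.d k ^ 2) / Real.sqrt T ≤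
      1000 * (lam * E1 * ∑ k, W.d k + Eh * (∑ k, W.d k ^ 2) / Real.sqrt T) := by
    have e1 : 100 * lam * E1 * ∑ k, W.d k = 100 * (lam * E1 * ∑ k, W.d k) := by ring
    have e2 : 50 * Eh * (∑ k, W.d k ^ 2) / Real.sqrt T = 50 * (Eh * (∑ k, W.d k ^ 2) / Real.sqrt T) := by
      ring
    rw [e1, e2]
    linarith
  calc _ ≤ 2 ^ Fintype.card (WC β δ P) *
        (1000 * (lam * E1 * ∑ k, W.d k + Eh * (∑ k, W.d k ^ 2) / Real.sqrt T)) :=
        mul_le_mul_of_nonneg_left h7 hN.le
    _ = _ := by ring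

end BLO
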