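import Pool.Agent.Lib.BLO.W1Heat

/-!
# Chunk WD: rounding with a dither

`u` uniform on `U`, `y` uniform on `Y`.  `V` does not depend on `u`.
`phi (V + Δ) = phi V + H_k1 T V * Δ + O(Δ^2/T exp)` if `Δ^2 ≤ T` (`phi_taylor2`).
* points with `|Δ| > δ0`: cost `Hm` for `phi` (`0 ≤ phi ≤ 1`) and `Hm * Δm` for the linear term
  (`|H_k1| ≤ 1/√T ≤ 1`);
* linear term, all points: `h u y = h u0 y + O(Lh)`: the error is
  `Lh ∑ |H_k1 T V| |Δ| ≤ Lh (δ0 / √T * E1 √T + Δm τ)`; then `∑_u Δ u y = O(ε1)`: `Hm ε1`;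
* second order: `100 δ0^2 / T * Eh √T`.
-/

namespace BLO

open Finset BLP

theorem round_step {U Y : Type*} [Fintype U] [Fintype Y] [Nonempty U] (h : U → Y → ℝ)
    (V : Y → ℝ) (Δ : U → Y → ℝ) (Lh T δ0 Δm Hm ε1 τ E1 Eh : ℝ) (hT : 1 ≤ T) (hδ0 : 0 ≤ δ0)
    (hδT : δ0 ^ 2 ≤ T) (hL0 : 0 ≤ Lh) (hτ : 0 ≤ τ) (hε : 0 ≤ ε1) (hHm : ∀ u y, |h u y| ≤ Hm)
    (hL : ∀ u u' y, |h u y - h u' y| ≤ Lh) (hΔm : ∀ u y, |Δ u y| ≤ Δm)
    (hΔ : ∑ u, ∑ y, ind (δ0 < |Δ u y|) ≤ τ * (Fintype.card U * Fintype.card Y))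
    (hmean : ∀ y, |∑ u, Δ u y| ≤ ε1 * Fintype.card U)
    (h1 : ∑ y, Real.exp (-((V y) ^ 2 / (8 * T))) ≤ E1 * Real.sqrt T * Fintype.card Y)
    (h2 : ∑ u, ∑ y, |h u y| * Real.exp (-((V y) ^ 2 / (8 * T))) ≤
      Eh * Real.sqrt T * (Fintype.card U * Fintype.card Y)) :
    |∑ u, ∑ y, h u y * (phi T (V y + Δ u y) - phi T (V y))| ≤
      (Fintype.card U * Fintype.card Y) * (Lh * (δ0 * E1 + Δm * τ) + 100 * Eh * δ0 ^ 2 / Real.sqrt T +
        Hm * ε1 + Hm * (2 + Δm) * τ) := by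
  classical
  rcases isEmpty_or_nonempty Y with hY | hY
  · simp
  obtain ⟨u0⟩ := ‹Nonempty U›
  obtain ⟨y0⟩ := hY
  have hHm0 : 0 ≤ Hm := (abs_nonneg _).trans (hHm u0 y0)
  have hΔm0 : 0 ≤ Δm := (abs_nonneg _).trans (hΔm u0 y0)
  have hT0 : 0 < T := by linarith
  have hq : 0 < Real.sqrt T := Real.sqrt_pos.2 hT0
  have hq1 : 1 ≤ Real.sqrt T := by
    rw [← Real.sqrt_one]
    exact Real.sqrt_le_sqrt hT
  have hqq : Real.sqrt T ^ 2 = T := Real.sq_sqrt hT0.le
  set q := Real.sqrt T with hqd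
  set nU : ℝ := (Fintype.card U : ℝ) with hnU
  set nY : ℝ := (Fintype.card Y : ℝ) with hnY
  have hnU0 : 0 ≤ nU := Nat.cast_nonneg _
  have hnY0 : 0 ≤ nY := Nat.cast_nonneg _
  set E : Y → ℝ := fun y => Real.exp (-((V y) ^ 2 / (8 * T))) with hE
  have hE0 : ∀ y, 0 < E y := fun y => Real.exp_pos _
  have hE1 : ∀ y, E y ≤ 1 := by
    intro y
    simp only [hE]
    rw [Real.exp_le_one_iff]
    have : 0 ≤ (V y) ^ 2 / (8 * T) := by positivity
    linarith
  have hk : ∀ y, |H_k1 T (V y)| ≤ 1 / q * E y := fun y => H_k1_bound T (V y) hT0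
  have hk1 : ∀ y, |H_k1 T (V y)| ≤ 1 := by
    intro y
    refine (hk y).trans ?_
    have h1 : 1 / q ≤ 1 := by
      rw [div_le_one hq]
      exact hq1
    calc 1 / q * E y ≤ 1 * 1 := mul_le_mul h1 (hE1 y) (hE0 y).le zero_le_one
      _ = 1 := one_mul 1
  -- the remainder
  have hrem : ∀ u y, |h u y * (phi T (V y + Δ u y) - phi T (V y) - Δ u y * H_k1 T (V y))| ≤
      100 * δ0 ^ 2 / T * (|h u y| * E y) + Hm * (1 + Δm) * ind (δ0 < |Δ u y|) := by
    intro u y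
    rw [abs_mul]
    have hh0 := abs_nonneg (h u y)
    by_cases hd : δ0 < |Δ u y|
    · rw [ind_true hd, mul_one]
      have h3 : |phi T (V y + Δ u y) - phi T (V y) - Δ u y * H_k1 T (V y)| ≤ 1 + Δm := by
        have a1 := phi_nonneg T (V y + Δ u y)
        have a2 := phi_le_one T (V y + Δ u y)
        have a3 := phi_nonneg T (V y)
        have a4 := phi_le_one T (V y)
        have a5 : |Δ u y * H_k1 T (V y)| ≤ Δm := by
          rw [abs_mul]
          calc |Δ u y| * |H_k1 T (V y)| ≤ Δm * 1 :=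
                mul_le_mul (hΔm u y) (hk1 y) (abs_nonneg _) hΔm0
            _ = Δm := mul_one _
        have a6 := abs_le.mp a5
        rw [abs_le]
        constructor <;> linarith [a6.1, a6.2]
      have h4 : |h u y| * |phi T (V y + Δ u y) - phi T (V y) - Δ u y * H_k1 T (V y)| ≤
          Hm * (1 + Δm) := mul_le_mul (hHm u y) h3 (abs_nonneg _) hHm0
      have h5 : 0 ≤ 100 * δ0 ^ 2 / T * (|h u y| * E y) := by
        have := (hE0 y).le
        positivity
      linarith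
    · rw [ind_false hd, mul_zero, add_zero]
      rw [not_lt] at hd
      have h6 : Δ u y ^ 2 ≤ δ0 ^ 2 := by
        rw [← sq_abs (Δ u y)]
        exact pow_le_pow_left₀ (abs_nonneg _) hd 2
      have h3 := phi_taylor2 T (V y) (Δ u y) hT0 (h6.trans hδT)
      have h7 : 100 * Δ u y ^ 2 / T * Real.exp (-((V y) ^ 2 / (8 * T))) ≤
          100 * δ0 ^ 2 / T * E y := by
        apply mul_le_mul_of_nonneg_right _ (hE0 y).le
        apply div_le_div_of_nonneg_right _ hT0.le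
        linarith
      calc |h u y| * |phi T (V y + Δ u y) - phi T (V y) - Δ u y * H_k1 T (V y)|
          ≤ |h u y| * (100 * δ0 ^ 2 / T * E y) := mul_le_mul_of_nonneg_left (h3.trans h7) hh0
        _ = _ := by ring
  have hR : |∑ u, ∑ y, h u y * (phi T (V y + Δ u y) - phi T (V y) - Δ u y * H_k1 T (V y))| ≤
      100 * Eh * δ0 ^ 2 / q * (nU * nY) + Hm * (1 + Δm) * (τ * (nU * nY)) := by
    refine (Finset.abs_sum_le_sum_abs _ _).trans ?_
    refine (Finset.sum_le_sum fun u _ => (Finset.abs_sum_le_sum_abs _ _).trans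
      (Finset.sum_le_sum fun y _ => hrem u y)).trans ?_
    simp only [Finset.sum_add_distrib, ← Finset.mul_sum]
    have h3 : 100 * δ0 ^ 2 / T * ∑ u, ∑ y, |h u y| * E y ≤
        100 * δ0 ^ 2 / T * (Eh * q * (nU * nY)) :=
      mul_le_mul_of_nonneg_left h2 (by positivity)
    have h4 : Hm * (1 + Δm) * ∑ u, ∑ y, ind (δ0 < |Δ u y|) ≤
        Hm * (1 + Δm) * (τ * (nU * nY)) :=
      mul_le_mul_of_nonneg_left hΔ (by positivity)
    have e1 : 100 * δ0 ^ 2 / T * (Eh * q * (nU * nY)) = 100 * Eh * δ0 ^ 2 / q * (nU * nY) := by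
      rw [← hqq]
      field_simp
    rw [e1] at h3
    exact add_le_add h3 h4
  -- the linear term
  have hlin : ∀ y, |H_k1 T (V y) * ∑ u, h u y * Δ u y| ≤
      Hm * ε1 * nU + Lh * (δ0 * (1 / q * E y) * nU + Δm * ∑ u, ind (δ0 < |Δ u y|)) := by
    intro y
    have e1 : ∑ u, h u y * Δ u y = h u0 y * ∑ u, Δ u y + ∑ u, (h u y - h u0 y) * Δ u y := by
      rw [Finset.mul_sum, ← Finset.sum_add_distrib]
      refine Finset.sum_congr rfl fun u _ => ?_
      ring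
    have hk0 := abs_nonneg (H_k1 T (V y))
    have b1 : |H_k1 T (V y)| * |h u0 y * ∑ u, Δ u y| ≤ Hm * ε1 * nU := by
      rw [abs_mul (h u0 y)]
      have c1 : |h u0 y| * |∑ u, Δ u y| ≤ Hm * (ε1 * nU) :=
        mul_le_mul (hHm u0 y) (hmean y) (abs_nonneg _) hHm0
      calc |H_k1 T (V y)| * (|h u0 y| * |∑ u, Δ u y|) ≤ 1 * (Hm * (ε1 * nU)) :=
            mul_le_mul (hk1 y) c1 (by positivity) zero_le_one
        _ = _ := by ring
    have b2 : |H_k1 T (V y)| * |∑ u, (h u y - h u0 y) * Δ u y| ≤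
        Lh * (δ0 * (1 / q * E y) * nU + Δm * ∑ u, ind (δ0 < |Δ u y|)) := by
      have c1 : |∑ u, (h u y - h u0 y) * Δ u y| ≤ Lh * ∑ u, |Δ u y| := by
        rw [Finset.mul_sum]
        refine (Finset.abs_sum_le_sum_abs _ _).trans (Finset.sum_le_sum fun u _ => ?_)
        rw [abs_mul]
        exact mul_le_mul_of_nonneg_right (hL u u0 y) (abs_nonneg _)
      have c2 : ∀ u, |H_k1 T (V y)| * |Δ u y| ≤
          δ0 * (1 / q * E y) + Δm * ind (δ0 < |Δ u y|) := by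
        intro u
        have hq0 : 0 ≤ 1 / q * E y := mul_nonneg (by positivity) (hE0 y).le
        by_cases hd : δ0 < |Δ u y|
        · rw [ind_true hd]
          have d1 : |H_k1 T (V y)| * |Δ u y| ≤ 1 * Δm :=
            mul_le_mul (hk1 y) (hΔm u y) (abs_nonneg _) zero_le_one
          have d2 : 0 ≤ δ0 * (1 / q * E y) := mul_nonneg hδ0 hq0
          linarith
        · rw [ind_false hd]
          rw [not_lt] at hd
          have d1 : |H_k1 T (V y)| * |Δ u y| ≤ (1 / q * E y) * δ0 :=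
            mul_le_mul (hk y) hd (abs_nonneg _) hq0
          linarith
      calc |H_k1 T (V y)| * |∑ u, (h u y - h u0 y) * Δ u y|
          ≤ |H_k1 T (V y)| * (Lh * ∑ u, |Δ u y|) := mul_le_mul_of_nonneg_left c1 hk0
        _ = Lh * ∑ u, |H_k1 T (V y)| * |Δ u y| := by rw [← Finset.mul_sum]; ring
        _ ≤ Lh * ∑ u, (δ0 * (1 / q * E y) + Δm * ind (δ0 < |Δ u y|)) :=
            mul_le_mul_of_nonneg_left (Finset.sum_le_sum fun u _ => c2 u) hL0
        _ = _ := by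
            rw [Finset.sum_add_distrib, Finset.sum_const, Finset.card_univ, nsmul_eq_mul,
              Finset.mul_sum Finset.univ (fun u => ind (δ0 < |Δ u y|)) Δm, ← hnU]
            ring
    rw [abs_mul, e1]
    calc |H_k1 T (V y)| * |h u0 y * ∑ u, Δ u y + ∑ u, (h u y - h u0 y) * Δ u y|
        ≤ |H_k1 T (V y)| * (|h u0 y * ∑ u, Δ u y| + |∑ u, (h u y - h u0 y) * Δ u y|) :=
          mul_le_mul_of_nonneg_left (abs_add_le _ _) hk0
      _ = |H_k1 T (V y)| * |h u0 y * ∑ u, Δ u y| +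
          |H_k1 T (V y)| * |∑ u, (h u y - h u0 y) * Δ u y| := mul_add _ _ _
      _ ≤ _ := add_le_add b1 b2
  have hLn : |∑ y, H_k1 T (V y) * ∑ u, h u y * Δ u y| ≤
      Hm * ε1 * (nU * nY) + Lh * (δ0 * E1 * (nU * nY) + Δm * (τ * (nU * nY))) := by
    refine (Finset.abs_sum_le_sum_abs _ _).trans ?_
    refine (Finset.sum_le_sum fun y _ => hlin y).trans ?_
    rw [Finset.sum_add_distrib, Finset.sum_const, Finset.card_univ, nsmul_eq_mul,
      ← Finset.mul_sum, Finset.sum_add_distrib]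
    have e1 : ∑ y, δ0 * (1 / q * E y) * nU = δ0 * (1 / q) * nU * ∑ y, E y := by
      rw [Finset.mul_sum]
      refine Finset.sum_congr rfl fun y _ => ?_
      ring
    have e2 : ∑ y, Δm * ∑ u, ind (δ0 < |Δ u y|) = Δm * ∑ u, ∑ y, ind (δ0 < |Δ u y|) := by
      rw [← Finset.mul_sum, Finset.sum_comm]
    rw [e1, e2]
    have h3 : δ0 * (1 / q) * nU * ∑ y, E y ≤ δ0 * (1 / q) * nU * (E1 * q * nY) :=
      mul_le_mul_of_nonneg_left h1 (by positivity)
    have e3 : δ0 * (1 / q) * nU * (E1 * q * nY) = δ0 * E1 * (nU * nY) := by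
      field_simp
    rw [e3] at h3
    have h4 : Δm * ∑ u, ∑ y, ind (δ0 < |Δ u y|) ≤ Δm * (τ * (nU * nY)) :=
      mul_le_mul_of_nonneg_left hΔ hΔm0
    have h5 := mul_le_mul_of_nonneg_left (add_le_add h3 h4) hL0
    have e4 : (Fintype.card Y : ℝ) * (Hm * ε1 * nU) = Hm * ε1 * (nU * nY) := by
      rw [← hnY]
      ring
    rw [e4]
    linarith
  have hsplit : ∑ u, ∑ y, h u y * (phi T (V y + Δ u y) - phi T (V y)) =
      (∑ y, H_k1 T (V y) * ∑ u, h u y * Δ u y) +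
      ∑ u, ∑ y, h u y * (phi T (V y + Δ u y) - phi T (V y) - Δ u y * H_k1 T (V y)) := by
    have e1 : ∑ y, H_k1 T (V y) * ∑ u, h u y * Δ u y =
        ∑ u, ∑ y, H_k1 T (V y) * (h u y * Δ u y) := by
      rw [Finset.sum_comm]
      refine Finset.sum_congr rfl fun y _ => ?_
      rw [Finset.mul_sum]
    rw [e1, ← Finset.sum_add_distrib]
    refine Finset.sum_congr rfl fun u _ => ?_
    rw [← Finset.sum_add_distrib]
    refine Finset.sum_congr rfl fun y _ => ?_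
    ring
  rw [hsplit]
  refine (abs_add_le _ _).trans ((add_le_add hLn hR).trans ?_)
  have h8 : 0 ≤ Hm * τ * (nU * nY) := by positivity
  nlinarith

end BLO
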