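import Pool.Agent.Lib.BLO.W1Rem
import Pool.Agent.Lib.BLO.W1Pair
import Pool.Agent.Lib.BLO.W1Round
import Pool.Agent.Lib.BLO.W1Noise

/-!
# Chunk W1: the transport estimate, from Gaussian masses

`b = card β`, `T = 16 + W.vB` (so `16 + b ≤ T ≤ 16 + 4 b`), `T' = 16 + 4 (card β + card δ)`.  Steps:
0. `1{c < S} → phi 16 (FS univ ∅ - c)`: `phi_ind`, cost `∑ |h| exp (-(S-c)^2/32) ≤ 4 Eh` (`lin W.a = FS univ ∅`).
1. `→ phi (16 + vB + ∑_δ a^2) (FS ∅ ∅ - c)`: `remove_path2`, `s` = the coordinates `Sum.inl i`.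
2. `→ phi T (FS ∅ ∅ - c)`: `phi_time2`, `∑_δ a^2 ≤ 4 card δ ≤ T / 3`.
3. `→ phi T (FS ∅ univ - c)`: `pair_path`.
4. `→ phi T (FC ∅ W.K - c)`: `round_step`, `U = δ → Bool`, `FC ∅ W.K = FS ∅ univ + Δ` (`noise W.K = 0`); `Δm = 2 card P`,
   `Lh = lam * card δ`, the mean over `u` of `Δ` is at most `2 (card P) ε1`.
5. `→ phi (16 + lam(u)^2 vB) (FC ∅ 0 - c)`: `noise_path` backwards, `t0 = 16 + b / 4`, `16 R^2 ≤ t0`, `T ≤ 16 t0`.
6. `→ phi 16 (FC univ 0 - c)`: `remove_path2` backwards, weights `lam(u) a_j ∈ [1/2, 2]`.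
7. `→ 1{c < FC univ 0}`: `phi_ind`.  8. `→ 1{c < Sc}`: only frozen points, `Hm εf`.
-/

namespace BLO

open Finset BLP

variable {β δ P : Type*} [Fintype β] [DecidableEq β] [Fintype δ] [DecidableEq δ]
  [Fintype P] [DecidableEq P]

omit [Fintype β] [DecidableEq β] [Fintype δ] [DecidableEq δ] [Fintype P] [DecidableEq P] in
theorem w1m_sub {A B : Type*} [Fintype A] [DecidableEq B] (f : A → B)
    (hf : Function.Injective f) (s : Finset B) (hs : s ⊆ univ.image f) (g : B → ℝ) :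
    ∑ i ∈ s, g i = ∑ j ∈ univ.filter (fun j => f j ∈ s), g (f j) := by
  have h : s = (univ.filter (fun j => f j ∈ s)).image f := by
    ext i
    simp only [mem_image, mem_filter, mem_univ, true_and]
    constructor
    · intro hi
      obtain ⟨j, _, hj⟩ := mem_image.1 (hs hi)
      exact ⟨j, by rw [hj]; exact hi, hj⟩
    · rintro ⟨j, hj, rfl⟩
      exact hj
  conv_lhs => rw [h]
  rw [sum_image (fun a _ b _ hab => hf hab)]

theorem w1m_lip_aux {ι : Type*} [Fintype ι] [DecidableEq ι] (h : (ι → Bool) → ℝ) (lam : ℝ)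
    (hh : Lip lam h) (S : Finset ι) : ∀ x x' : ι → Bool, (∀ i, i ∉ S → x i = x' i) →
    |h x - h x'| ≤ lam * S.card := by
  induction S using Finset.induction_on with
  | empty =>
    intro x x' hx
    have : x = x' := funext fun i => hx i (by simp)
    rw [this]
    simp
  | insert i S hi ih =>
    intro x x' hx
    have hlam : 0 ≤ lam := (abs_nonneg _).trans (hh x i)
    rw [card_insert_of_notMem hi]
    push_cast
    by_cases hxi : x i = x' i
    · have h1 := ih x x' (by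
        intro j hj
        by_cases hji : j = i
        · rw [hji]; exact hxi
        · exact hx j (by simp [hji, hj]))
      linarith
    · have h1 := ih (flp x i) x' (by
        intro j hj
        by_cases hji : j = i
        · rw [hji, flp_same]
          cases hx1 : x i <;> cases hx2 : x' i <;> simp_all
        · rw [flp_ne _ hji]
          exact hx j (by simp [hji, hj]))
      have h2 := hh x i
      have h3 : h x - h x' = -(h (flp x i) - h x) + (h (flp x i) - h x') := by ring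
      rw [h3]
      refine (abs_add_le _ _).trans ?_
      rw [abs_neg]
      linarith

omit [Fintype β] [DecidableEq β] [Fintype δ] [DecidableEq δ] [Fintype P] [DecidableEq P] in
theorem w1m_ind {Ω : Type*} [Fintype Ω] (h F : Ω → ℝ) (c M : ℝ)
    (hm : ∑ x, |h x| * Real.exp (-((F x - c) ^ 2 / (8 * 16))) ≤ M) :
    |∑ x, h x * ind (c < F x) - ∑ x, h x * phi 16 (F x - c)| ≤ M := by
  rw [← sum_sub_distrib]
  refine (abs_sum_le_sum_abs _ _).trans (le_trans (sum_le_sum fun x _ => ?_) hm)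
  rw [← mul_sub, abs_mul]
  refine mul_le_mul_of_nonneg_left ?_ (abs_nonneg _)
  have h1 := phi_ind 16 (F x - c) (by norm_num)
  have h2 : ind (c < F x) = ind (0 < F x - c) := ind_congr (by rw [sub_pos])
  rw [h2]
  refine h1.trans (Real.exp_le_exp.2 ?_)
  have h3 : (F x - c) ^ 2 / (8 * 16) ≤ (F x - c) ^ 2 / (2 * 16) :=
    div_le_div_of_nonneg_left (sq_nonneg _) (by norm_num) (by norm_num)
  linarith

/-- change of the time for a constant time -/
theorem w1m_time {Ω : Type*} [Fintype Ω] (h F : Ω → ℝ) (c T T' M : ℝ) (hT : 0 < T)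
    (h1 : T ≤ T') (h2 : T' ≤ 4 / 3 * T)
    (hm : ∑ x, |h x| * Real.exp (-((F x - c) ^ 2 / (8 * T))) ≤ M) :
    |∑ x, h x * phi T' (F x - c) - ∑ x, h x * phi T (F x - c)| ≤ 100 * (T' - T) / T * M := by
  rw [← sum_sub_distrib]
  have h3 : 0 ≤ 100 * (T' - T) / T := by
    apply div_nonneg _ hT.le
    linarith
  have h4 := mul_le_mul_of_nonneg_left hm h3
  rw [mul_sum] at h4
  refine (abs_sum_le_sum_abs _ _).trans (le_trans (sum_le_sum fun x _ => ?_) h4)
  rw [← mul_sub, abs_mul]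
  calc |h x| * |phi T' (F x - c) - phi T (F x - c)| ≤
      |h x| * (100 * (T' - T) / T * Real.exp (-((F x - c) ^ 2 / (8 * T)))) :=
        mul_le_mul_of_nonneg_left (phi_time2 T T' _ hT h1 h2) (abs_nonneg _)
    _ = _ := by ring

/-- step 1 -/
theorem w1m_step1 (W : WData β δ P) (R : ℝ) (J : ℕ) (ε1 : ℝ) (hW : WOK W R J ε1)
    (h : WX β δ P → ℝ) (lam E1 Eh c : ℝ) (hlam : 0 ≤ lam) (hh : Lip lam h)
    (hE1 : 0 ≤ E1) (hEh : 0 ≤ Eh)
    (mS1 : ∀ s pp, ∀ t : ℝ, 16 ≤ t → t ≤ 16 + 4 * ((Fintype.card β : ℝ) + Fintype.card δ) →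
      ∑ x, Real.exp (-((W.FS s pp x - c) ^ 2 / (8 * t))) ≤
        E1 * Real.sqrt t * 2 ^ Fintype.card (WC β δ P))
    (mSh : ∀ s pp, ∀ t : ℝ, 16 ≤ t → t ≤ 16 + 4 * ((Fintype.card β : ℝ) + Fintype.card δ) →
      ∑ x, |h x| * Real.exp (-((W.FS s pp x - c) ^ 2 / (8 * t))) ≤
        Eh * Real.sqrt t * 2 ^ Fintype.card (WC β δ P)) :
    |∑ x, h x * phi 16 (W.FS univ ∅ x - c) -
        ∑ x, h x * phi (16 + W.vB + ∑ j : δ, W.a (Sum.inl (Sum.inr j)) ^ 2) (W.FS ∅ ∅ x - c)| ≤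
      10 ^ 5 * 2 ^ Fintype.card (WC β δ P) *
        (lam * E1 * ((Fintype.card β : ℝ) + Fintype.card δ) + Eh) := by
  classical
  set s : Finset (WC β δ P) := univ.image Sum.inl with hs
  have hinj : Function.Injective (Sum.inl : β ⊕ δ → WC β δ P) := Sum.inl_injective
  have hscard : s.card = Fintype.card β + Fintype.card δ := by
    rw [hs, card_image_of_injective _ hinj, card_univ, Fintype.card_sum]
  have hsum : ∀ (s' : Finset (WC β δ P)), s' ⊆ s → ∀ x : WX β δ P,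
      W.FS ∅ ∅ x + ∑ i ∈ s', W.a i * sg (x i) =
        W.FS (univ.filter fun j => Sum.inl j ∈ s') ∅ x := by
    intro s' hs' x
    rw [w1m_sub Sum.inl hinj s' hs' (fun i => W.a i * sg (x i))]
    unfold WData.FS
    rw [sum_empty]
    ring
  have hsub : (univ.filter fun j : β ⊕ δ => (Sum.inl j : WC β δ P) ∈ s) = univ := by
    apply filter_true_of_mem
    intro j _
    exact mem_image_of_mem _ (mem_univ j)
  have hsq : ∑ i ∈ s, W.a i ^ 2 = W.vB + ∑ j : δ, W.a (Sum.inl (Sum.inr j)) ^ 2 := by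
    rw [w1m_sub Sum.inl hinj s (subset_refl _) (fun i => W.a i ^ 2), hsub, Fintype.sum_sum_type]
    rfl
  have hmain := remove_path2 h lam E1 Eh (16 + 4 * ((Fintype.card β : ℝ) + Fintype.card δ)) hlam
    hE1 hEh hh s (fun _ => W.a)
    (by
      intro x i hi
      obtain ⟨j, _, rfl⟩ := mem_image.1 hi
      have := hW.hB j
      constructor <;> linarith [this.1, this.2])
    (by intro x j _; rfl)
    (W.FS ∅ ∅)
    (by
      intro x i hi
      obtain ⟨j, _, rfl⟩ := mem_image.1 hi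
      have h1 : ∀ p : P × Bool, flp x (Sum.inl j) (Sum.inr p) = x (Sum.inr p) :=
        fun p => flp_ne _ (by simp)
      unfold WData.FS st
      simp only [h1, sum_empty])
    c
    (by rw [hscard]; push_cast; exact le_refl _)
    (by
      intro s' hs' t ht1 ht2
      simp only [hsum s' hs']
      exact mS1 _ _ t ht1 ht2)
    (by
      intro s' hs' t ht1 ht2
      simp only [hsum s' hs']
      exact mSh _ _ t ht1 ht2)
  simp only [hsum s (subset_refl _), hsub] at hmain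
  rw [hscard, hsq, ← add_assoc] at hmain
  push_cast at hmain
  exact hmain

/-- step 6 -/
theorem w1m_step6 (W : WData β δ P) (R : ℝ) (J : ℕ) (ε1 : ℝ) (hW : WOK W R J ε1)
    (h : WX β δ P → ℝ) (lam E1 Eh c : ℝ) (hlam : 0 ≤ lam) (hh : Lip lam h)
    (hE1 : 0 ≤ E1) (hEh : 0 ≤ Eh)
    (mC1 : ∀ s, ∀ G ≤ W.K, ∀ t : ℝ, 16 ≤ t → t ≤ 16 + 4 * ((Fintype.card β : ℝ) + Fintype.card δ) →
      ∑ x, Real.exp (-((W.FC s G x - c) ^ 2 / (8 * t))) ≤
        E1 * Real.sqrt t * 2 ^ Fintype.card (WC β δ P))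
    (mCh : ∀ s, ∀ G ≤ W.K, ∀ t : ℝ, 16 ≤ t → t ≤ 16 + 4 * ((Fintype.card β : ℝ) + Fintype.card δ) →
      ∑ x, |h x| * Real.exp (-((W.FC s G x - c) ^ 2 / (8 * t))) ≤
        Eh * Real.sqrt t * 2 ^ Fintype.card (WC β δ P)) :
    |∑ x, h x * phi 16 (W.FC univ 0 x - c) -
        ∑ x, h x * phi (16 + W.lam (dit x) ^ 2 * W.vB) (W.FC ∅ 0 x - c)| ≤
      10 ^ 5 * 2 ^ Fintype.card (WC β δ P) * (lam * E1 * (Fintype.card β : ℝ) + Eh) := by
  classical
  set s : Finset (WC β δ P) := univ.image (fun j : β => Sum.inl (Sum.inl j)) with hs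
  have hinj : Function.Injective (fun j : β => (Sum.inl (Sum.inl j) : WC β δ P)) := by
    intro a b hab
    simpa using hab
  have hscard : s.card = Fintype.card β := by
    rw [hs, card_image_of_injective _ hinj, card_univ]
  let A : WX β δ P → WC β δ P → ℝ := fun x i => W.lam (dit x) * W.a i
  have hsum : ∀ (s' : Finset (WC β δ P)), s' ⊆ s → ∀ x : WX β δ P,
      W.FC ∅ 0 x + ∑ i ∈ s', A x i * sg (x i) =
        W.FC (univ.filter fun j => (Sum.inl (Sum.inl j) : WC β δ P) ∈ s') 0 x := by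
    intro s' hs' x
    rw [w1m_sub (fun j : β => (Sum.inl (Sum.inl j) : WC β δ P)) hinj s' hs'
      (fun i => A x i * sg (x i))]
    unfold WData.FC
    rw [sum_empty, mul_zero, mul_sum]
    simp only [A, mul_assoc]
    ring
  have hsub : (univ.filter fun j : β => (Sum.inl (Sum.inl j) : WC β δ P) ∈ s) = univ := by
    apply filter_true_of_mem
    intro j _
    exact mem_image_of_mem _ (mem_univ j)
  have hsq : ∀ x, ∑ i ∈ s, A x i ^ 2 = W.lam (dit x) ^ 2 * W.vB := by
    intro x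
    rw [w1m_sub (fun j : β => (Sum.inl (Sum.inl j) : WC β δ P)) hinj s (subset_refl _)
      (fun i => A x i ^ 2), hsub]
    unfold WData.vB
    rw [mul_sum]
    refine sum_congr rfl fun j _ => ?_
    show (W.lam (dit x) * W.a _) ^ 2 = _
    rw [mul_pow]
  have hdit : ∀ (x : WX β δ P) (j : β), dit (flp x (Sum.inl (Sum.inl j))) = dit x := by
    intro x j
    funext i
    exact flp_ne _ (by simp)
  have hst : ∀ (x : WX β δ P) (j : β), st (flp x (Sum.inl (Sum.inl j))) = st x := by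
    intro x j
    funext k
    unfold st
    rw [flp_ne _ (by simp), flp_ne _ (by simp)]
  have hmain := remove_path2 h lam E1 Eh (16 + 4 * ((Fintype.card β : ℝ) + Fintype.card δ)) hlam
    hE1 hEh hh s A
    (by
      intro x i hi
      obtain ⟨j, _, rfl⟩ := mem_image.1 hi
      have h1 := hW.hB (Sum.inl j)
      have h2 := hW.hlam (dit x)
      show 1 / 2 ≤ W.lam (dit x) * W.a _ ∧ W.lam (dit x) * W.a _ ≤ 2
      constructor <;> nlinarith only [h1.1, h1.2, h2.1, h2.2])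
    (by
      intro x i hi
      obtain ⟨j, _, rfl⟩ := mem_image.1 hi
      funext i'
      show W.lam (dit (flp x (Sum.inl (Sum.inl j)))) * _ = W.lam (dit x) * _
      rw [hdit])
    (W.FC ∅ 0)
    (by
      intro x i hi
      obtain ⟨j, _, rfl⟩ := mem_image.1 hi
      have h1 : W.noise 0 (flp x (Sum.inl (Sum.inl j))) = W.noise 0 x := by
        unfold WData.noise
        refine sum_congr rfl fun g hg => ?_
        have hg' : g < W.K := (mem_Ico.1 hg).2
        have h2 := hW.neu g hg' (flp x (Sum.inl (Sum.inl j))) x (hdit x j)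
          (fun k => by rw [hst]) (fun k _ => by rw [hst])
        rw [ind_congr h2.1, h2.2, hdit]
      unfold WData.FC
      rw [h1, hdit, hst]
      simp only [sum_empty, mul_zero])
    c
    (by
      rw [hscard]
      have : (0 : ℝ) ≤ Fintype.card δ := Nat.cast_nonneg _
      linarith)
    (by
      intro s' hs' t ht1 ht2
      simp only [hsum s' hs']
      exact mC1 _ 0 (Nat.zero_le _) t ht1 ht2)
    (by
      intro s' hs' t ht1 ht2
      simp only [hsum s' hs']
      exact mCh _ 0 (Nat.zero_le _) t ht1 ht2)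
  simp only [hsum s (subset_refl _), hsub, hsq] at hmain
  rw [hscard] at hmain
  exact hmain

/-- the points of the cube from the dither coordinates and the rest -/
def w1mE (β δ P : Type*) : ((δ → Bool) × ((β → Bool) × (P × Bool → Bool))) ≃ WX β δ P where
  toFun p := Sum.elim (Sum.elim p.2.1 p.1) p.2.2
  invFun x := (fun j => x (Sum.inl (Sum.inr j)),
    (fun j => x (Sum.inl (Sum.inl j)), fun p => x (Sum.inr p)))
  left_inv := by
    rintro ⟨u, y, z⟩
    rfl
  right_inv := by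
    intro x
    funext i
    rcases i with (i | i) | i <;> rfl

theorem w1m_sum (F : WX β δ P → ℝ) :
    ∑ x, F x = ∑ u : δ → Bool, ∑ y : (β → Bool) × (P × Bool → Bool), F (w1mE β δ P (u, y)) := by
  rw [← (w1mE β δ P).sum_comp, Fintype.sum_prod_type]

theorem w1m_card : (Fintype.card (δ → Bool) : ℝ) *
    Fintype.card ((β → Bool) × (P × Bool → Bool)) = 2 ^ Fintype.card (WC β δ P) := by
  have h1 := Fintype.card_congr (w1mE β δ P)
  rw [Fintype.card_prod] at h1
  have h2 : Fintype.card (WX β δ P) = 2 ^ Fintype.card (WC β δ P) := by simp [WX]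
  rw [h2] at h1
  exact_mod_cast h1

theorem w1m_val (p : Bool × Bool) : |((val p : ℤ) : ℝ)| ≤ 1 := by
  rcases p with ⟨a, c⟩
  cases a <;> cases c <;> simp [val]

/-- step 4 -/
theorem w1m_step4 (W : WData β δ P) (R : ℝ) (J : ℕ) (ε1 : ℝ) (hW : WOK W R J ε1) (hε1 : 0 ≤ ε1)
    (h : WX β δ P → ℝ) (lam Hm E1 Eh c τ δ0 T : ℝ) (hlam : 0 ≤ lam) (hh : Lip lam h)
    (hHm : ∀ x, |h x| ≤ Hm) (hτ : 0 ≤ τ) (hT : 1 ≤ T)
    (hδ0 : 0 ≤ δ0) (hδ1 : δ0 ^ 2 ≤ T)
    (hΔ : ∑ x, ind (δ0 < |W.Δ x|) ≤ τ * 2 ^ Fintype.card (WC β δ P))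
    (mS1 : ∑ x, Real.exp (-((W.FS ∅ univ x - c) ^ 2 / (8 * T))) ≤
        E1 * Real.sqrt T * 2 ^ Fintype.card (WC β δ P))
    (mSh : ∑ x, |h x| * Real.exp (-((W.FS ∅ univ x - c) ^ 2 / (8 * T))) ≤
        Eh * Real.sqrt T * 2 ^ Fintype.card (WC β δ P)) :
    |∑ x, h x * phi T (W.FC ∅ W.K x - c) - ∑ x, h x * phi T (W.FS ∅ univ x - c)| ≤
      2 ^ Fintype.card (WC β δ P) * (lam * Fintype.card δ * (δ0 * E1 + 2 * Fintype.card P * τ) +
        100 * Eh * δ0 ^ 2 / Real.sqrt T + Hm * (2 * Fintype.card P * ε1) +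
        Hm * (2 + 2 * Fintype.card P) * τ) := by
  classical
  let mk : (δ → Bool) → ((β → Bool) × (P × Bool → Bool)) → WX β δ P :=
    fun u y => w1mE β δ P (u, y)
  let z : ((β → Bool) × (P × Bool → Bool)) → PS P := fun y k =>
    (y.2 (k, false) == y.2 (k, true), y.2 (k, false))
  have hstz : ∀ u y, st (mk u y) = z y := fun u y => rfl
  have hditu : ∀ u y, dit (mk u y) = u := fun u y => rfl
  let V : ((β → Bool) × (P × Bool → Bool)) → ℝ := fun y =>
    ∑ k : P, 2 * W.v k * (val (z y k) : ℝ) - c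
  have hV : ∀ u y, W.FS ∅ univ (mk u y) - c = V y := by
    intro u y
    unfold WData.FS
    rw [sum_empty, zero_add]
    simp only [mem_univ, if_true]
    rfl
  have hFC : ∀ u y, W.FC ∅ W.K (mk u y) - c = V y + W.Δ (mk u y) := by
    intro u y
    unfold WData.FC WData.noise WData.Δ
    rw [Ico_self, sum_empty, sum_empty, mul_zero, zero_add, add_zero]
    show _ = ∑ k : P, 2 * W.v k * (val (z y k) : ℝ) - c + _
    rw [sub_add_eq_add_sub, ← sum_add_distrib]
    congr 1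
    refine sum_congr rfl fun k _ => ?_
    rw [hstz]
    ring
  have hcard := w1m_card (β := β) (δ := δ) (P := P)
  have hU : (0 : ℝ) < Fintype.card (δ → Bool) := by exact_mod_cast Fintype.card_pos
  have hμ := hW.hμ
  have hΔm : ∀ x, |W.Δ x| ≤ 2 * Fintype.card P := by
    intro x
    unfold WData.Δ
    refine (abs_sum_le_sum_abs _ _).trans ?_
    calc ∑ k : P, |2 * (W.w (dit x) k - W.v k) * (val (st x k) : ℝ)| ≤ ∑ _k : P, (2 : ℝ) := by
          refine sum_le_sum fun k _ => ?_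
          rw [abs_mul, abs_mul, abs_two]
          have h1 := hW.hw (dit x) k
          have h2 := w1m_val (st x k)
          have h3 : 0 ≤ |W.w (dit x) k - W.v k| := abs_nonneg _
          have h4 : 0 ≤ |((val (st x k) : ℤ) : ℝ)| := abs_nonneg _
          have h5 : |W.w (dit x) k - W.v k| * |((val (st x k) : ℤ) : ℝ)| ≤ 1 * 1 := by
            apply mul_le_mul _ h2 h4 (by norm_num)
            linarith [hμ.2]
          linarith
      _ = 2 * Fintype.card P := by simp [mul_comm]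
  have hres := round_step (fun u y => h (mk u y)) V (fun u y => W.Δ (mk u y))
    (lam * Fintype.card δ) T δ0 (2 * Fintype.card P) Hm (2 * Fintype.card P * ε1) τ E1 Eh
    hT hδ0 hδ1 (by positivity) hτ (by positivity) (fun u y => hHm _)
    (by
      intro u u' y
      have h1 := w1m_lip_aux h lam hh (univ.image fun j : δ => (Sum.inl (Sum.inr j) : WC β δ P))
        (mk u y) (mk u' y) (by
          intro i hi
          rcases i with (i | i) | i
          · rfl
          · exact absurd (mem_image_of_mem _ (mem_univ i)) hi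
          · rfl)
      refine h1.trans (mul_le_mul_of_nonneg_left ?_ hlam)
      have h2 : (univ.image fun j : δ => (Sum.inl (Sum.inr j) : WC β δ P)).card ≤
        Fintype.card δ := card_image_le
      exact_mod_cast h2)
    (fun u y => hΔm _)
    (by
      rw [hcard]
      rw [w1m_sum] at hΔ
      exact hΔ)
    (by
      intro y
      have h1 : ∑ u, W.Δ (mk u y) = ∑ k : P, 2 * (val (z y k) : ℝ) * ∑ u, (W.w u k - W.v k) := by
        unfold WData.Δ
        rw [sum_comm]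
        refine sum_congr rfl fun k _ => ?_
        rw [mul_sum]
        refine sum_congr rfl fun u _ => ?_
        rw [hstz, hditu]
        ring
      rw [h1]
      refine (abs_sum_le_sum_abs _ _).trans ?_
      have hcU : (Fintype.card (δ → Bool) : ℝ) = 2 ^ Fintype.card δ := by simp
      calc ∑ k : P, |2 * (val (z y k) : ℝ) * ∑ u, (W.w u k - W.v k)| ≤
            ∑ _k : P, 2 * (ε1 * 2 ^ Fintype.card δ) := by
            refine sum_le_sum fun k _ => ?_
            rw [abs_mul, abs_mul, abs_two]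
            have h2 := w1m_val (z y k)
            have h3 := hW.hmean k
            have h4 : 0 ≤ |((val (z y k) : ℤ) : ℝ)| := abs_nonneg _
            have h5 : 0 ≤ |∑ u : δ → Bool, (W.w u k - W.v k)| := abs_nonneg _
            have h6 : |((val (z y k) : ℤ) : ℝ)| * |∑ u : δ → Bool, (W.w u k - W.v k)| ≤
              1 * (ε1 * 2 ^ Fintype.card δ) := mul_le_mul h2 h3 h5 (by norm_num)
            linarith
        _ = 2 * Fintype.card P * ε1 * Fintype.card (δ → Bool) := by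
            rw [hcU]
            simp
            ring)
    (by
      rw [w1m_sum] at mS1
      have h1 : ∀ u : δ → Bool, ∑ y, Real.exp (-((W.FS ∅ univ (w1mE β δ P (u, y)) - c) ^ 2 /
          (8 * T))) = ∑ y, Real.exp (-((V y) ^ 2 / (8 * T))) := by
        intro u
        refine sum_congr rfl fun y _ => ?_
        rw [show W.FS ∅ univ (w1mE β δ P (u, y)) - c = V y from hV u y]
      rw [sum_congr rfl fun u _ => h1 u, sum_const, card_univ, nsmul_eq_mul, ← hcard] at mS1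
      have h2 : (Fintype.card (δ → Bool) : ℝ) * ∑ y, Real.exp (-((V y) ^ 2 / (8 * T))) ≤
        (Fintype.card (δ → Bool) : ℝ) * (E1 * Real.sqrt T *
          Fintype.card ((β → Bool) × (P × Bool → Bool))) := by
        refine mS1.trans (le_of_eq ?_)
        ring
      exact le_of_mul_le_mul_left h2 hU)
    (by
      rw [w1m_sum] at mSh
      rw [hcard]
      refine le_trans (le_of_eq ?_) mSh
      refine sum_congr rfl fun u _ => sum_congr rfl fun y _ => ?_
      rw [show W.FS ∅ univ (w1mE β δ P (u, y)) - c = V y from hV u y])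
  rw [hcard] at hres
  rw [← sum_sub_distrib, w1m_sum]
  have hL : ∀ u y, h (w1mE β δ P (u, y)) * phi T (W.FC ∅ W.K (w1mE β δ P (u, y)) - c) -
      h (w1mE β δ P (u, y)) * phi T (W.FS ∅ univ (w1mE β δ P (u, y)) - c) =
      h (mk u y) * (phi T (V y + W.Δ (mk u y)) - phi T (V y)) := by
    intro u y
    rw [show W.FS ∅ univ (w1mE β δ P (u, y)) - c = V y from hV u y,
      show W.FC ∅ W.K (w1mE β δ P (u, y)) - c = V y + W.Δ (mk u y) from hFC u y, ← mul_sub]
  rw [sum_congr rfl fun u _ => sum_congr rfl fun y _ => hL u y]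
  exact hres

theorem w1_main (W : WData β δ P) (R : ℝ) (J : ℕ) (ε1 : ℝ) (hW : WOK W R J ε1) (hε1 : 0 ≤ ε1)
    (h : WX β δ P → ℝ) (lam Hm E1 Eh c εf τ δ0 : ℝ) (hlam : 0 ≤ lam) (hh : Lip lam h)
    (hHm : ∀ x, |h x| ≤ Hm) (hE1 : 0 ≤ E1) (hEh : 0 ≤ Eh)
    (hβ : 64 * R ^ 2 ≤ Fintype.card β) (hβδ : 12 * Fintype.card δ ≤ Fintype.card β)
    (hδ0 : 0 ≤ δ0) (hδ1 : δ0 ^ 2 ≤ Fintype.card β)
    (Sc : WX β δ P → ℝ) (hSc : ∀ x, W.ok x → Sc x = W.FC univ 0 x)
    (hf : ∑ x, ind (¬ W.ok x) ≤ εf * 2 ^ Fintype.card (WC β δ P))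
    (hΔ : ∑ x, ind (δ0 < |W.Δ x|) ≤ τ * 2 ^ Fintype.card (WC β δ P))
    (mS1 : ∀ s pp, ∀ t : ℝ, 16 ≤ t → t ≤ 16 + 4 * ((Fintype.card β : ℝ) + Fintype.card δ) →
      ∑ x, Real.exp (-((W.FS s pp x - c) ^ 2 / (8 * t))) ≤
        E1 * Real.sqrt t * 2 ^ Fintype.card (WC β δ P))
    (mSh : ∀ s pp, ∀ t : ℝ, 16 ≤ t → t ≤ 16 + 4 * ((Fintype.card β : ℝ) + Fintype.card δ) →
      ∑ x, |h x| * Real.exp (-((W.FS s pp x - c) ^ 2 / (8 * t))) ≤
        Eh * Real.sqrt t * 2 ^ Fintype.card (WC β δ P))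
    (mC1 : ∀ s, ∀ G ≤ W.K, ∀ t : ℝ, 16 ≤ t → t ≤ 16 + 4 * ((Fintype.card β : ℝ) + Fintype.card δ) →
      ∑ x, Real.exp (-((W.FC s G x - c) ^ 2 / (8 * t))) ≤
        E1 * Real.sqrt t * 2 ^ Fintype.card (WC β δ P))
    (mCh : ∀ s, ∀ G ≤ W.K, ∀ t : ℝ, 16 ≤ t → t ≤ 16 + 4 * ((Fintype.card β : ℝ) + Fintype.card δ) →
      ∑ x, |h x| * Real.exp (-((W.FC s G x - c) ^ 2 / (8 * t))) ≤
        Eh * Real.sqrt t * 2 ^ Fintype.card (WC β δ P)) :
    |∑ x, h x * (ind (c < lin W.a x) - ind (c < Sc x))| ≤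
      10 ^ 8 * 2 ^ Fintype.card (WC β δ P) *
        (lam * E1 * ((Fintype.card β : ℝ) + R + Fintype.card δ * δ0 + W.K * J * R) +
          Eh * (1 + (Fintype.card δ + R ^ 2 + δ0 ^ 2) / Real.sqrt (Fintype.card β) +
            W.K * R ^ 4 / (Fintype.card β * Real.sqrt (Fintype.card β))) +
          lam * Fintype.card δ * Fintype.card P * τ +
          Hm * (Fintype.card P * ε1 + (1 + Fintype.card P) * τ + (1 + W.K) * εf)) := by
  classical
  have hb0 : (0 : ℝ) ≤ Fintype.card β := Nat.cast_nonneg _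
  have hd0 : (0 : ℝ) ≤ Fintype.card δ := Nat.cast_nonneg _
  have hp0 : (0 : ℝ) ≤ Fintype.card P := Nat.cast_nonneg _
  set b : ℝ := (Fintype.card β : ℝ) with hbdef
  set d : ℝ := (Fintype.card δ : ℝ) with hddef
  set p : ℝ := (Fintype.card P : ℝ) with hpdef
  set N2 : ℝ := 2 ^ Fintype.card (WC β δ P) with hN2
  have hN2pos : 0 < N2 := by rw [hN2]; positivity
  have hβδr : 12 * d ≤ b := by rw [hddef, hbdef]; exact_mod_cast hβδ
  have hR1 := hW.R1
  have hR0 : 0 < R := by linarith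
  have hb64 : 64 ≤ b := by nlinarith only [hR1, hβ]
  have hbpos : 0 < b := by linarith
  have hHm0 : 0 ≤ Hm := (abs_nonneg _).trans (hHm fun _ => true)
  have hτ : 0 ≤ τ := by
    have h1 : 0 ≤ τ * N2 := le_trans (sum_nonneg fun x _ => ind_nonneg _) hΔ
    by_contra hc
    have : τ * N2 < 0 := mul_neg_of_neg_of_pos (not_le.1 hc) hN2pos
    linarith
  have hεf : 0 ≤ εf := by
    have h1 : 0 ≤ εf * N2 := le_trans (sum_nonneg fun x _ => ind_nonneg _) hf
    by_contra hc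
    have : εf * N2 < 0 := mul_neg_of_neg_of_pos (not_le.1 hc) hN2pos
    linarith
  have hvB1 : b ≤ W.vB := by
    unfold WData.vB
    calc b = ∑ _j : β, (1 : ℝ) := by simp [hbdef]
      _ ≤ _ := by
        refine sum_le_sum fun j _ => ?_
        have := hW.hB (Sum.inl j)
        nlinarith only [this.1, this.2]
  have hvB2 : W.vB ≤ 4 * b := by
    unfold WData.vB
    calc _ ≤ ∑ _j : β, (4 : ℝ) := by
          refine sum_le_sum fun j _ => ?_
          have := hW.hB (Sum.inl j)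
          nlinarith only [this.1, this.2]
      _ = 4 * b := by simp [hbdef, mul_comm]
  have hsδ1 : ∑ j : δ, W.a (Sum.inl (Sum.inr j)) ^ 2 ≤ 4 * d := by
    calc _ ≤ ∑ _j : δ, (4 : ℝ) := by
          refine sum_le_sum fun j _ => ?_
          have := hW.hB (Sum.inr j)
          nlinarith only [this.1, this.2]
      _ = 4 * d := by simp [hddef, mul_comm]
  have hsδ0 : 0 ≤ ∑ j : δ, W.a (Sum.inl (Sum.inr j)) ^ 2 := sum_nonneg fun _ _ => sq_nonneg _
  set T : ℝ := 16 + W.vB with hTdef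
  set q : ℝ := Real.sqrt b with hq
  have hqpos : 0 < q := Real.sqrt_pos.2 hbpos
  have hq2 : q ^ 2 = b := Real.sq_sqrt hb0
  have hT16 : 16 ≤ T := by linarith
  have hTb : b ≤ T := by linarith
  have hTT : T ≤ 16 + 4 * (b + d) := by linarith
  have hTpos : 0 < T := by linarith
  have hsT : q ≤ Real.sqrt T := Real.sqrt_le_sqrt hTb
  have hsTpos : 0 < Real.sqrt T := Real.sqrt_pos.2 hTpos
  have hsTT : Real.sqrt T * Real.sqrt T = T := Real.mul_self_sqrt hTpos.le
  have h16 : Real.sqrt 16 = 4 := by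
    rw [show (16 : ℝ) = 4 ^ 2 by norm_num, Real.sqrt_sq (by norm_num)]
  have hdiv : ∀ y : ℝ, 0 ≤ y → y / Real.sqrt T ≤ y / q := fun y hy =>
    div_le_div_of_nonneg_left hy hqpos hsT
  have h1616 : (16 : ℝ) ≤ 16 + 4 * (b + d) := by linarith
  -- step 0
  have hlinFS : ∀ x, lin W.a x = W.FS univ ∅ x := by
    intro x
    unfold lin WData.FS
    rw [Fintype.sum_sum_type, Fintype.sum_prod_type]
    congr 1
    refine sum_congr rfl fun k _ => ?_
    rw [if_neg (by simp), Fintype.sum_bool, add_comm]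
  have s0 : |∑ x, h x * ind (c < lin W.a x) - ∑ x, h x * phi 16 (W.FS univ ∅ x - c)| ≤
      4 * Eh * N2 := by
    simp only [hlinFS]
    have h1 := mSh univ ∅ 16 le_rfl h1616
    rw [h16] at h1
    exact w1m_ind h _ c _ (h1.trans (le_of_eq (by ring)))
  -- step 1
  have s1 := w1m_step1 W R J ε1 hW h lam E1 Eh c hlam hh hE1 hEh mS1 mSh
  rw [← hTdef] at s1
  -- step 2
  have s2 : |∑ x, h x * phi (T + ∑ j : δ, W.a (Sum.inl (Sum.inr j)) ^ 2) (W.FS ∅ ∅ x - c) -
      ∑ x, h x * phi T (W.FS ∅ ∅ x - c)| ≤ 400 * N2 * (Eh * d / q) := by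
    have h1 := w1m_time h (W.FS ∅ ∅) c T (T + ∑ j : δ, W.a (Sum.inl (Sum.inr j)) ^ 2)
      (Eh * Real.sqrt T * N2) hTpos (by linarith) (by linarith) (mSh ∅ ∅ T hT16 hTT)
    refine h1.trans ?_
    have e1 : 100 * (T + ∑ j : δ, W.a (Sum.inl (Sum.inr j)) ^ 2 - T) / T *
        (Eh * Real.sqrt T * N2) =
        100 * N2 * ((Eh * ∑ j : δ, W.a (Sum.inl (Sum.inr j)) ^ 2) / Real.sqrt T) := by
      rw [add_sub_cancel_left]
      rw [div_mul_eq_mul_div, mul_div_assoc']
      rw [div_eq_div_iff hTpos.ne' hsTpos.ne']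
      calc _ = 100 * (∑ j : δ, W.a (Sum.inl (Sum.inr j)) ^ 2) * Eh * N2 *
            (Real.sqrt T * Real.sqrt T) := by ring
        _ = _ := by rw [hsTT]; ring
    rw [e1]
    have e2 : Eh * ∑ j : δ, W.a (Sum.inl (Sum.inr j)) ^ 2 ≤ 4 * (Eh * d) := by
      have := mul_le_mul_of_nonneg_left hsδ1 hEh
      linarith
    have e3 := (hdiv _ (mul_nonneg hEh hsδ0)).trans (div_le_div_of_nonneg_right e2 hqpos.le)
    have e4 := mul_le_mul_of_nonneg_left e3 (show 0 ≤ 100 * N2 by positivity)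
    refine e4.trans (le_of_eq ?_)
    ring
  -- step 3
  have hdk0 : ∀ k, 0 ≤ W.d k := fun k => abs_nonneg _
  have hdkR : ∀ k, W.d k ≤ R := fun k =>
    (single_le_sum (fun k _ => hdk0 k) (mem_univ k)).trans hW.hd
  have hRT : R ^ 2 ≤ T := by linarith
  have s3 : |∑ x, h x * phi T (W.FS ∅ ∅ x - c) - ∑ x, h x * phi T (W.FS ∅ univ x - c)| ≤
      1000 * N2 * (lam * E1 * R + Eh * R ^ 2 / q) := by
    have h1 := pair_path W ∅ h lam E1 Eh T c hlam hh (by linarith)
      (fun k => (pow_le_pow_left₀ (hdk0 k) (hdkR k) 2).trans hRT)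
      (fun pp => mS1 ∅ pp T hT16 hTT) (fun pp => mSh ∅ pp T hT16 hTT)
    refine h1.trans (mul_le_mul_of_nonneg_left ?_ (by positivity))
    have h2 : ∑ k, W.d k ^ 2 ≤ R ^ 2 := by
      calc ∑ k, W.d k ^ 2 ≤ ∑ k, R * W.d k := by
            refine sum_le_sum fun k _ => ?_
            have := mul_le_mul_of_nonneg_right (hdkR k) (hdk0 k)
            nlinarith only [this]
        _ = R * ∑ k, W.d k := by rw [mul_sum]
        _ ≤ R * R := mul_le_mul_of_nonneg_left hW.hd hR0.le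
        _ = R ^ 2 := by ring
    have h3 : 0 ≤ ∑ k, W.d k ^ 2 := sum_nonneg fun _ _ => sq_nonneg _
    have h4 : lam * E1 * ∑ k, W.d k ≤ lam * E1 * R :=
      mul_le_mul_of_nonneg_left hW.hd (by positivity)
    have h5 := (hdiv _ (mul_nonneg hEh h3)).trans
      (div_le_div_of_nonneg_right (mul_le_mul_of_nonneg_left h2 hEh) hqpos.le)
    exact add_le_add h4 h5
  -- step 4
  have s4 := w1m_step4 W R J ε1 hW hε1 h lam Hm E1 Eh c τ δ0 T hlam hh hHm hτ (by linarith) hδ0
    (hδ1.trans hTb) hΔ (mS1 ∅ univ T hT16 hTT) (mSh ∅ univ T hT16 hTT)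
  -- step 5
  have s5 := noise_path W R J ε1 hW h lam Hm E1 Eh (16 + b / 4) T c εf hlam hh hHm
    (fun u => 16 + W.lam u ^ 2 * W.vB)
    (by
      intro u
      have h1 := hW.hlam u
      have h2 := hW.hvar u
      have h3 : 1 / 4 ≤ W.lam u ^ 2 := by nlinarith only [h1.1, h1.2]
      have h4 : 1 / 4 * b ≤ W.lam u ^ 2 * W.vB := mul_le_mul h3 hvB1 hb0 (sq_nonneg _)
      constructor
      · show 16 + b / 4 ≤ 16 + W.lam u ^ 2 * W.vB
        linarith
      · show 16 + W.lam u ^ 2 * W.vB + W.tim W.K u ≤ T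
        linarith)
    (by linarith) (by linarith) hf
    (fun G hG => mC1 ∅ G hG T hT16 hTT) (fun G hG => mCh ∅ G hG T hT16 hTT)
  have e5 : ∑ x, h x * phi (16 + W.lam (dit x) ^ 2 * W.vB + W.tim W.K (dit x))
      (W.FC ∅ W.K x - c) = ∑ x, h x * phi T (W.FC ∅ W.K x - c) := by
    refine sum_congr rfl fun x _ => ?_
    rw [add_assoc, hW.hvar (dit x)]
  have s5' : |∑ x, h x * phi (16 + W.lam (dit x) ^ 2 * W.vB) (W.FC ∅ 0 x - c) -
      ∑ x, h x * phi T (W.FC ∅ W.K x - c)| ≤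
      10 ^ 5 * N2 * (W.K * (lam * J * R * E1 + 8 * (Eh * R ^ 4 / (b * q))) + W.K * Hm * εf) := by
    rw [← e5]
    refine s5.trans (mul_le_mul_of_nonneg_left ?_ (by positivity))
    have h1 : b / 4 ≤ 16 + b / 4 := by linarith
    have h2 : q / 2 ≤ Real.sqrt (16 + b / 4) := by
      have : q / 2 = Real.sqrt (b / 4) := by
        rw [hq, show b / 4 = b / 2 ^ 2 by norm_num, Real.sqrt_div hb0,
          Real.sqrt_sq (by norm_num)]
      rw [this]
      exact Real.sqrt_le_sqrt h1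
    have h3 : b * q / 8 ≤ (16 + b / 4) * Real.sqrt (16 + b / 4) := by
      have := mul_le_mul h1 h2 (by positivity) (by linarith)
      linarith
    have h4 : Eh * R ^ 4 / ((16 + b / 4) * Real.sqrt (16 + b / 4)) ≤ 8 * (Eh * R ^ 4 / (b * q)) := by
      have h5 : 0 ≤ Eh * R ^ 4 := by positivity
      have h6 := div_le_div_of_nonneg_left h5 (show 0 < b * q / 8 by positivity) h3
      refine h6.trans (le_of_eq ?_)
      field_simp
    have hK0 : (0 : ℝ) ≤ W.K := Nat.cast_nonneg _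
    have h7 := mul_le_mul_of_nonneg_left (add_le_add_right h4 (lam * J * R * E1)) hK0
    linarith
  -- step 6
  have s6 := w1m_step6 W R J ε1 hW h lam E1 Eh c hlam hh hE1 hEh mC1 mCh
  -- step 7
  have s7 : |∑ x, h x * ind (c < W.FC univ 0 x) - ∑ x, h x * phi 16 (W.FC univ 0 x - c)| ≤
      4 * Eh * N2 := by
    have h1 := mCh univ 0 (Nat.zero_le _) 16 le_rfl h1616
    rw [h16] at h1
    exact w1m_ind h _ c _ (h1.trans (le_of_eq (by ring)))
  -- step 8
  have s8 : |∑ x, h x * ind (c < Sc x) - ∑ x, h x * ind (c < W.FC univ 0 x)| ≤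
      Hm * (εf * N2) := by
    rw [← sum_sub_distrib]
    have h1 := mul_le_mul_of_nonneg_left hf hHm0
    rw [mul_sum] at h1
    refine (abs_sum_le_sum_abs _ _).trans (le_trans (sum_le_sum fun x _ => ?_) h1)
    by_cases hx : W.ok x
    · rw [hSc x hx, sub_self, abs_zero]
      exact mul_nonneg hHm0 (ind_nonneg _)
    · rw [ind_true hx, mul_one, ← mul_sub, abs_mul]
      have h2 : |ind (c < Sc x) - ind (c < W.FC univ 0 x)| ≤ 1 := by
        rw [abs_le]
        constructor <;> linarith [ind_nonneg (c < Sc x), ind_le_one (c < Sc x),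
          ind_nonneg (c < W.FC univ 0 x), ind_le_one (c < W.FC univ 0 x)]
      calc |h x| * |ind (c < Sc x) - ind (c < W.FC univ 0 x)| ≤ Hm * 1 :=
            mul_le_mul (hHm x) h2 (abs_nonneg _) hHm0
        _ = Hm := mul_one _
  -- atoms
  have hK0 : (0 : ℝ) ≤ W.K := Nat.cast_nonneg _
  have hJ0 : (0 : ℝ) ≤ J := Nat.cast_nonneg _
  have s4' : |∑ x, h x * phi T (W.FC ∅ W.K x - c) - ∑ x, h x * phi T (W.FS ∅ univ x - c)| ≤
      N2 * (lam * E1 * (d * δ0) + 2 * (lam * d * p * τ) + 100 * (Eh * δ0 ^ 2 / q) +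
        2 * (Hm * (p * ε1)) + 2 * (Hm * τ) + 2 * (Hm * (p * τ))) := by
    refine s4.trans (mul_le_mul_of_nonneg_left ?_ hN2pos.le)
    have h1 := hdiv (Eh * δ0 ^ 2) (by positivity)
    have h2 : 100 * Eh * δ0 ^ 2 / Real.sqrt T = 100 * (Eh * δ0 ^ 2 / Real.sqrt T) := by ring
    rw [h2]
    linarith
  have x1 : 0 ≤ lam * E1 * b := by positivity
  have x1' : lam * E1 * d ≤ lam * E1 * b :=
    mul_le_mul_of_nonneg_left (by linarith) (by positivity)
  have x2 : 0 ≤ lam * E1 * R := by positivity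
  have x3 : 0 ≤ lam * E1 * (d * δ0) := by positivity
  have x4 : 0 ≤ lam * E1 * (W.K * J * R) := by positivity
  have y2 : 0 ≤ Eh * d / q := by positivity
  have y3 : 0 ≤ Eh * R ^ 2 / q := by positivity
  have y4 : 0 ≤ Eh * δ0 ^ 2 / q := by positivity
  have y5 : 0 ≤ Eh * (W.K * R ^ 4 / (b * q)) := by positivity
  have z1 : 0 ≤ lam * d * p * τ := by positivity
  have z2 : 0 ≤ Hm * (p * ε1) := by positivity
  have z3 : 0 ≤ Hm * τ := by positivity
  have z3' : 0 ≤ Hm * (p * τ) := by positivity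
  have z4 : 0 ≤ Hm * εf := by positivity
  have z5 : 0 ≤ Hm * (W.K * εf) := by positivity
  have hsplit : ∑ x, h x * (ind (c < lin W.a x) - ind (c < Sc x)) =
      ∑ x, h x * ind (c < lin W.a x) - ∑ x, h x * ind (c < Sc x) := by
    rw [← sum_sub_distrib]
    exact sum_congr rfl fun x _ => mul_sub _ _ _
  rw [hsplit]
  have f1 : 10 ^ 5 * N2 * (lam * E1 * (b + d) + Eh) =
      10 ^ 5 * (N2 * (lam * E1 * b + lam * E1 * d + Eh)) := by ring
  have f5 : 10 ^ 5 * N2 * (W.K * (lam * J * R * E1 + 8 * (Eh * R ^ 4 / (b * q))) +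
      W.K * Hm * εf) = 10 ^ 5 * (N2 * (lam * E1 * (W.K * J * R) +
        8 * (Eh * (W.K * R ^ 4 / (b * q))) + Hm * (W.K * εf))) := by ring
  have tgt : lam * E1 * (b + R + d * δ0 + W.K * J * R) +
      Eh * (1 + (d + R ^ 2 + δ0 ^ 2) / q + W.K * R ^ 4 / (b * q)) + lam * d * p * τ +
      Hm * (p * ε1 + (1 + p) * τ + (1 + W.K) * εf) =
      lam * E1 * b + lam * E1 * R + lam * E1 * (d * δ0) + lam * E1 * (W.K * J * R) +
      Eh + Eh * d / q + Eh * R ^ 2 / q + Eh * δ0 ^ 2 / q + Eh * (W.K * R ^ 4 / (b * q)) +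
      lam * d * p * τ + Hm * (p * ε1) + Hm * τ + Hm * (p * τ) + Hm * εf +
      Hm * (W.K * εf) := by ring
  have inner : 4 * Eh + 10 ^ 5 * (lam * E1 * b + lam * E1 * d + Eh) + 400 * (Eh * d / q) +
      1000 * (lam * E1 * R + Eh * R ^ 2 / q) +
      (lam * E1 * (d * δ0) + 2 * (lam * d * p * τ) + 100 * (Eh * δ0 ^ 2 / q) +
        2 * (Hm * (p * ε1)) + 2 * (Hm * τ) + 2 * (Hm * (p * τ))) +
      10 ^ 5 * (lam * E1 * (W.K * J * R) + 8 * (Eh * (W.K * R ^ 4 / (b * q))) +
        Hm * (W.K * εf)) + 10 ^ 5 * (lam * E1 * b + Eh) + 4 * Eh + Hm * εf ≤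
      10 ^ 8 * (lam * E1 * (b + R + d * δ0 + W.K * J * R) +
      Eh * (1 + (d + R ^ 2 + δ0 ^ 2) / q + W.K * R ^ 4 / (b * q)) + lam * d * p * τ +
      Hm * (p * ε1 + (1 + p) * τ + (1 + W.K) * εf)) := by
    rw [tgt]
    generalize lam * E1 * b = X1 at *
    generalize lam * E1 * d = X1' at *
    generalize lam * E1 * R = X2 at *
    generalize lam * E1 * (d * δ0) = X3 at *
    generalize lam * E1 * (W.K * J * R) = X4 at *
    generalize Eh * d / q = Y2 at *
    generalize Eh * R ^ 2 / q = Y3 at *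
    generalize Eh * δ0 ^ 2 / q = Y4 at *
    generalize Eh * (W.K * R ^ 4 / (b * q)) = Y5 at *
    generalize lam * d * p * τ = Z1 at *
    generalize Hm * (p * ε1) = Z2 at *
    generalize Hm * τ = Z3 at *
    generalize Hm * (p * τ) = Z3' at *
    generalize Hm * εf = Z4 at *
    generalize Hm * (W.K * εf) = Z5 at *
    linarith
  have outer := mul_le_mul_of_nonneg_left inner hN2pos.le
  rw [show 10 ^ 8 * N2 * (lam * E1 * (b + R + d * δ0 + W.K * J * R) +
      Eh * (1 + (d + R ^ 2 + δ0 ^ 2) / q + W.K * R ^ 4 / (b * q)) + lam * d * p * τ +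
      Hm * (p * ε1 + (1 + p) * τ + (1 + W.K) * εf)) =
      N2 * (10 ^ 8 * (lam * E1 * (b + R + d * δ0 + W.K * J * R) +
      Eh * (1 + (d + R ^ 2 + δ0 ^ 2) / q + W.K * R ^ 4 / (b * q)) + lam * d * p * τ +
      Hm * (p * ε1 + (1 + p) * τ + (1 + W.K) * εf))) by ring]
  refine le_trans ?_ outer
  rw [f1] at s1
  rw [f5] at s5'
  clear inner outer tgt f1 f5 hsplit s4 s5 e5 mS1 mSh mC1 mCh hf hΔ
  generalize ∑ x, h x * ind (c < lin W.a x) = A0 at *
  generalize ∑ x, h x * phi 16 (W.FS univ ∅ x - c) = A1 at *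
  generalize ∑ x, h x * phi (T + ∑ j : δ, W.a (Sum.inl (Sum.inr j)) ^ 2) (W.FS ∅ ∅ x - c) = A2
    at *
  generalize ∑ x, h x * phi T (W.FS ∅ ∅ x - c) = A3 at *
  generalize ∑ x, h x * phi T (W.FS ∅ univ x - c) = A4 at *
  generalize ∑ x, h x * phi T (W.FC ∅ W.K x - c) = A5 at *
  generalize ∑ x, h x * phi (16 + W.lam (dit x) ^ 2 * W.vB) (W.FC ∅ 0 x - c) = A6 at *
  generalize ∑ x, h x * phi 16 (W.FC univ 0 x - c) = A7 at *
  generalize ∑ x, h x * ind (c < W.FC univ 0 x) = A8 at *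
  generalize ∑ x, h x * ind (c < Sc x) = A9 at *
  have hdec : A0 - A9 = (A0 - A1) + (A1 - A2) + (A2 - A3) + (A3 - A4) - (A5 - A4) - (A6 - A5) -
      (A7 - A6) - (A8 - A7) - (A9 - A8) := by ring
  rw [hdec]
  rw [abs_le] at s0 s1 s2 s3 s4' s5' s6 s7 s8 ⊢
  have r1 := s0.1
  have r2 := s1.1
  have r3 := s2.1
  have r4 := s3.1
  have r5 := s4'.1
  have r6 := s5'.1
  have r7 := s6.1
  have r8 := s7.1
  have r9 := s8.1
  have t1 := s0.2
  have t2 := s1.2
  have t3 := s2.2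
  have t4 := s3.2
  have t5 := s4'.2
  have t6 := s5'.2
  have t7 := s6.2
  have t8 := s7.2
  have t9 := s8.2
  constructor
  · nlinarith only [r1, r2, r3, r4, t5, t6, t7, t8, t9]
  · nlinarith only [t1, t2, t3, t4, r5, r6, r7, r8, r9]

end BLO
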