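import Pool.Agent.Lib.BLP.Conc2

/-!
# Chunk WM: Gaussian masses from unit windows near `c`

Like `BLP.exp_of_window` (C5), with weights `f ≥ 0`, but the bound `κ` is only known for windows
with centre `c'`, `|c' - c| ≤ Λ`; the points with `|R x - c| > Λ` contribute at most
`(∑ f) exp (-Λ^2/(8t))`.  Proof: cover `[c - Λ, c + Λ]` by the windows `|R - c'| ≤ 1`, `c' = c + 2 j`, `|2 j| ≤ Λ`
(and `c' = c ± Λ`).
-/

namespace BLO

open Finset BLP

theorem mass_of_window {Ω : Type*} [Fintype Ω] (f R : Ω → ℝ) (hf : ∀ x, 0 ≤ f x) (κ M Λ c : ℝ)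
    (hΛ : 0 ≤ Λ) (hκ : ∀ c', |c' - c| ≤ Λ → ∑ x, f x * ind (|R x - c'| ≤ 1) ≤ κ)
    (hM : ∑ x, f x ≤ M) (t : ℝ) (ht : 1 ≤ t) :
    ∑ x, f x * Real.exp (-((R x - c) ^ 2 / (8 * t))) ≤
      100 * Real.sqrt t * κ + M * Real.exp (-(Λ ^ 2 / (8 * t))) := by
  classical
  have hκ0 : 0 ≤ κ := (Finset.sum_nonneg fun x _ => mul_nonneg (hf x) (ind_nonneg _)).trans
    (hκ c (by rw [sub_self, abs_zero]; exact hΛ))
  set J := ⌈Real.sqrt t⌉₊ with hJ
  have hst : 1 ≤ Real.sqrt t := by
    rw [← Real.sqrt_one]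
    exact Real.sqrt_le_sqrt ht
  have hJ1 : Real.sqrt t ≤ J := Nat.le_ceil _
  have hJ2 : (J : ℝ) < Real.sqrt t + 1 := Nat.ceil_lt_add_one (by linarith)
  have hJ3 : 1 ≤ J := by
    have : (1 : ℝ) ≤ J := by linarith
    exact_mod_cast this
  have ht0 : 0 < t := by linarith
  -- the centres
  set e : ℕ → ℝ := fun j => min (2 * (j : ℝ)) Λ with he
  have he0 : ∀ j, 0 ≤ e j := fun j => le_min (by positivity) hΛ
  have heΛ : ∀ j, e j ≤ Λ := fun j => min_le_right _ _
  -- a uniform bound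
  obtain ⟨L, hL⟩ : ∃ L : ℕ, ∀ x, ⌊(|R x - c| + 1) / 2⌋₊ < J + 1 + L := by
    refine ⟨∑ x, ⌊(|R x - c| + 1) / 2⌋₊, fun x => ?_⟩
    have := Finset.single_le_sum (f := fun x => ⌊(|R x - c| + 1) / 2⌋₊)
      (fun i _ => Nat.zero_le _) (Finset.mem_univ x)
    omega
  have hW : ∀ x, 0 ≤ ∑ j ∈ range (J + 1 + L), c2w t J j *
        (ind (|R x - (c + e j)| ≤ 1) + ind (|R x - (c - e j)| ≤ 1)) := fun x =>
    Finset.sum_nonneg fun j _ => mul_nonneg (c2w_nonneg ht0.le J j hJ3)
      (add_nonneg (ind_nonneg _) (ind_nonneg _))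
  have hpt : ∀ x, Real.exp (-((R x - c) ^ 2 / (8 * t))) ≤
      (∑ j ∈ range (J + 1 + L), c2w t J j *
        (ind (|R x - (c + e j)| ≤ 1) + ind (|R x - (c - e j)| ≤ 1))) +
        Real.exp (-(Λ ^ 2 / (8 * t))) := by
    intro x
    by_cases hx : |R x - c| ≤ Λ
    swap
    · rw [not_le] at hx
      have h1 : Real.exp (-((R x - c) ^ 2 / (8 * t))) ≤ Real.exp (-(Λ ^ 2 / (8 * t))) := by
        apply Real.exp_le_exp.2
        have h2 : Λ ^ 2 ≤ (R x - c) ^ 2 := by
          rw [← sq_abs (R x - c)]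
          exact pow_le_pow_left₀ hΛ hx.le 2
        have h3 : Λ ^ 2 / (8 * t) ≤ (R x - c) ^ 2 / (8 * t) :=
          div_le_div_of_nonneg_right h2 (by positivity)
        linarith
      linarith [hW x]
    set j := ⌊(|R x - c| + 1) / 2⌋₊ with hj
    have h0 : 0 ≤ (|R x - c| + 1) / 2 := by positivity
    have h1 := Nat.floor_le h0
    have h2 := Nat.lt_floor_add_one ((|R x - c| + 1) / 2)
    rw [← hj] at h1 h2
    have hej1 : |R x - c| - 1 ≤ e j := le_min (by linarith) (by linarith)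
    have hej2 : e j ≤ |R x - c| + 1 := (min_le_left _ _).trans (by linarith)
    have h3 : 1 ≤ ind (|R x - (c + e j)| ≤ 1) + ind (|R x - (c - e j)| ≤ 1) := by
      rcases le_total 0 (R x - c) with h | h
      · rw [abs_of_nonneg h] at hej1 hej2
        rw [ind_true (p := |R x - (c + e j)| ≤ 1) (by rw [abs_le]; constructor <;> linarith)]
        linarith [ind_nonneg (|R x - (c - e j)| ≤ 1)]
      · rw [abs_of_nonpos h] at hej1 hej2
        rw [ind_true (p := |R x - (c - e j)| ≤ 1) (by rw [abs_le]; constructor <;> linarith)]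
        linarith [ind_nonneg (|R x - (c + e j)| ≤ 1)]
    have h4 : Real.exp (-((R x - c) ^ 2 / (8 * t))) ≤ c2w t J j := by
      unfold c2w
      split_ifs with hjJ
      · rw [Real.exp_le_one_iff]
        have : 0 ≤ (R x - c) ^ 2 / (8 * t) := by positivity
        linarith
      · have h5 : (2 : ℝ) ≤ j := by
          have : 2 ≤ j := by omega
          exact_mod_cast this
        have h6 : 2 * (j : ℝ) - 1 ≤ |R x - c| := by linarith
        have h7 : 4 * ((j : ℝ) * (j - 1)) ≤ (R x - c) ^ 2 := by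
          rw [← sq_abs (R x - c)]
          nlinarith
        have h8 : 0 < (j : ℝ) * (j - 1) := by
          apply mul_pos <;> linarith
        have h9 : (j : ℝ) * (j - 1) / (2 * t) ≤ (R x - c) ^ 2 / (8 * t) := by
          rw [div_le_div_iff₀ (by positivity) (by positivity)]
          nlinarith
        have h10 : (j : ℝ) * (j - 1) / (2 * t) ≤ Real.exp ((R x - c) ^ 2 / (8 * t)) := by
          have := Real.add_one_le_exp ((R x - c) ^ 2 / (8 * t))
          linarith
        rw [Real.exp_neg, inv_le_comm₀ (Real.exp_pos _) (by positivity), inv_div]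
        exact h10
    have h5 : c2w t J j * (ind (|R x - (c + e j)| ≤ 1) + ind (|R x - (c - e j)| ≤ 1)) ≤
        ∑ j ∈ range (J + 1 + L), c2w t J j *
        (ind (|R x - (c + e j)| ≤ 1) + ind (|R x - (c - e j)| ≤ 1)) :=
      Finset.single_le_sum (f := fun j : ℕ => c2w t J j *
        (ind (|R x - (c + e j)| ≤ 1) + ind (|R x - (c - e j)| ≤ 1)))
        (fun i _ => mul_nonneg (c2w_nonneg ht0.le J i hJ3)
          (add_nonneg (ind_nonneg _) (ind_nonneg _))) (Finset.mem_range.mpr (hL x))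
    have h6 := c2w_nonneg ht0.le J j hJ3
    have h7 := Real.exp_pos (-(Λ ^ 2 / (8 * t)))
    nlinarith
  have hk1 : ∀ j, ∑ x, f x * ind (|R x - (c + e j)| ≤ 1) ≤ κ := fun j => hκ _ (by
    rw [add_sub_cancel_left, abs_of_nonneg (he0 j)]; exact heΛ j)
  have hk2 : ∀ j, ∑ x, f x * ind (|R x - (c - e j)| ≤ 1) ≤ κ := fun j => hκ _ (by
    rw [sub_sub_cancel_left, abs_neg, abs_of_nonneg (he0 j)]; exact heΛ j)
  have hmain : ∑ x, f x * (∑ j ∈ range (J + 1 + L), c2w t J j *
        (ind (|R x - (c + e j)| ≤ 1) + ind (|R x - (c - e j)| ≤ 1))) ≤ 20 * Real.sqrt t * κ := by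
    calc ∑ x, f x * (∑ j ∈ range (J + 1 + L), c2w t J j *
        (ind (|R x - (c + e j)| ≤ 1) + ind (|R x - (c - e j)| ≤ 1)))
        = ∑ j ∈ range (J + 1 + L), c2w t J j *
        (∑ x, f x * ind (|R x - (c + e j)| ≤ 1) + ∑ x, f x * ind (|R x - (c - e j)| ≤ 1)) := by
          simp only [Finset.mul_sum]
          rw [Finset.sum_comm]
          refine Finset.sum_congr rfl fun j _ => ?_
          rw [← Finset.sum_add_distrib, Finset.mul_sum]
          refine Finset.sum_congr rfl fun x _ => ?_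
          ring
      _ ≤ ∑ j ∈ range (J + 1 + L), c2w t J j * (κ + κ) := by
          refine Finset.sum_le_sum fun j _ => ?_
          exact mul_le_mul_of_nonneg_left (add_le_add (hk1 j) (hk2 j))
            (c2w_nonneg ht0.le J j hJ3)
      _ = (J + 1 + 2 * t / J - 2 * t / (J + L)) * (2 * κ) := by
          rw [← Finset.sum_mul, c2_tele t J hJ3 L]
          ring
      _ ≤ (10 * Real.sqrt t) * (2 * κ) := by
          apply mul_le_mul_of_nonneg_right _ (by positivity)
          have h1 : 0 ≤ 2 * t / ((J : ℝ) + L) := by positivity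
          have h2 : 2 * t / (J : ℝ) ≤ 2 * Real.sqrt t := by
            rw [div_le_iff₀ (by linarith)]
            have := Real.mul_self_sqrt ht0.le
            nlinarith
          linarith
      _ = _ := by ring
  have hE := Real.exp_pos (-(Λ ^ 2 / (8 * t)))
  have h2 : ∑ x, f x * Real.exp (-((R x - c) ^ 2 / (8 * t))) ≤
      ∑ x, (f x * (∑ j ∈ range (J + 1 + L), c2w t J j *
        (ind (|R x - (c + e j)| ≤ 1) + ind (|R x - (c - e j)| ≤ 1))) +
        f x * Real.exp (-(Λ ^ 2 / (8 * t)))) := by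
    refine Finset.sum_le_sum fun x _ => ?_
    rw [← mul_add]
    exact mul_le_mul_of_nonneg_left (hpt x) (hf x)
  rw [Finset.sum_add_distrib, ← Finset.sum_mul] at h2
  have h3 := mul_le_mul_of_nonneg_right hM hE.le
  have h4 : 0 ≤ Real.sqrt t * κ := by positivity
  linarith

end BLO
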