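import Pool.Agent.Lib.BLP.Swap2

/-!
# Chunk WR: removing coordinates of a linear form against time, weights depending on other coordinates

`swap_one2` (port of `BLP.swap_one`, `w = 0`; the proof is pointwise for the pair `x, flp x i`, so the weight
and the time may depend on the other coordinates).

`remove_path2`: remove the coordinates in `s` one at a time.  If `s'` remains, the time is
`t0 + ∑_{i ∈ s \ s'} A x i ^ 2 ∈ [t0 + |s \ s'| / 4, t0 + 4 |s \ s'|]`: use the mass hypotheses with the upper bound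
of the time in the exponential and the lower bound in the factors `lam / √t + |h| / t^2`; the upper
bound `t'` is at most `16` times the lower bound `t''`, so the cost of a step is
`≤ C (lam E1 + Eh / (t'' √t''))` and `∑_k (16 + k/4)^{-3/2} ≤ C` (compare `BLP.S2_g`).
-/

namespace BLO

open Finset BLP

variable {ι : Type*} [Fintype ι] [DecidableEq ι]

theorem swap_one2 (h : (ι → Bool) → ℝ) (lam : ℝ) (hh : Lip lam h) (i : ι) (R t a : (ι → Bool) → ℝ)
    (hR : ∀ x, R (flp x i) = R x) (htf : ∀ x, t (flp x i) = t x) (haf : ∀ x, a (flp x i) = a x)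
    (ht : ∀ x, 16 ≤ t x) (ha : ∀ x, 0 ≤ a x) (ha2 : ∀ x, a x ≤ 2) :
    |∑ x, h x * phi (t x) (R x + a x * sg (x i)) - ∑ x, h x * phi (t x + a x ^ 2) (R x)| ≤
      200 * ∑ x, (lam / Real.sqrt (t x) + |h x| / t x ^ 2) *
        Real.exp (-((R x) ^ 2 / (8 * t x))) := by
  set f : (ι → Bool) → ℝ := fun x => h x * phi (t x) (R x + a x * sg (x i)) -
    h x * phi (t x + a x ^ 2) (R x) with hf
  have h1 : ∑ x, h x * phi (t x) (R x + a x * sg (x i)) - ∑ x, h x * phi (t x + a x ^ 2) (R x) =
      ∑ x, f x := by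
    rw [hf, Finset.sum_sub_distrib]
  have h2 : 2 * ∑ x, f x = ∑ x, (f x + f (flp x i)) := by
    rw [Finset.sum_add_distrib, S1_sum_flp]; ring
  have h3 : ∀ x, |f x + f (flp x i)| ≤ 2 * (200 * ((lam / Real.sqrt (t x) + |h x| / t x ^ 2) *
        Real.exp (-((R x) ^ 2 / (8 * t x))))) := by
    intro x
    have htx := ht x
    have hax := ha x
    have hax2 := ha2 x
    set T := t x with hT
    set b := a x with hb
    have ht0 : 0 < T := by linarith
    have hst : 0 < Real.sqrt T := Real.sqrt_pos.2 ht0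
    have he := phi_swap_even T b 0 (R x) htx hax hax2 le_rfl (by norm_num)
    have ho := phi_swap_odd T b 0 (R x) htx hax hax2 le_rfl (by norm_num)
    simp only [ne_eq, OfNat.ofNat_ne_zero, not_false_eq_true, zero_pow, sub_zero, add_zero]
      at he ho
    have hE := Real.exp_pos (-((R x) ^ 2 / (8 * T)))
    set E := Real.exp (-((R x) ^ 2 / (8 * T))) with hEd
    have hl := hh x i
    have ht2 : 1 / T ^ 2 ≤ 1 / Real.sqrt T := by
      apply one_div_le_one_div_of_le hst
      have h5 : Real.sqrt T * Real.sqrt T = T := Real.mul_self_sqrt ht0.le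
      have h6 : (4 : ℝ) ≤ Real.sqrt T := Real.le_sqrt_of_sq_le (by linarith)
      nlinarith
    set P := phi T (R x + b) - phi (T + b ^ 2) (R x) with hP
    set Q := phi T (R x - b) - phi (T + b ^ 2) (R x) with hQ
    have hbb : |b| ≤ 2 := by rw [abs_of_nonneg hax]; exact hax2
    have he' : |P + Q| ≤ 200 * (1 / T ^ 2 * E) := by
      have h7 : |P + Q| ≤ 100 * |b| * (1 / T ^ 2 * E) := by
        rw [hP, hQ]
        refine le_trans (le_of_eq ?_) (he.trans (le_of_eq (by ring)))
        congr 1; ring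
      refine h7.trans (mul_le_mul_of_nonneg_right (by linarith) (by positivity))
    have ho' : |P - Q| ≤ 200 * (1 / Real.sqrt T * E) := by
      have h7 : |P - Q| ≤ 100 * |b| * (1 / Real.sqrt T * E) := by
        rw [hP, hQ]
        refine le_trans (le_of_eq ?_) (ho.trans (le_of_eq (by ring)))
        congr 1; ring
      refine h7.trans (mul_le_mul_of_nonneg_right (by linarith) (by positivity))
    have he2 : |P + Q| ≤ 200 * (1 / Real.sqrt T * E) :=
      he'.trans (mul_le_mul_of_nonneg_left (mul_le_mul_of_nonneg_right ht2 hE.le) (by norm_num))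
    have hPb : |P| ≤ 200 * (1 / Real.sqrt T * E) := by
      rw [abs_le] at *
      constructor <;> linarith [ho'.1, ho'.2, he2.1, he2.2]
    have hQb : |Q| ≤ 200 * (1 / Real.sqrt T * E) := by
      rw [abs_le] at *
      constructor <;> linarith [ho'.1, ho'.2, he2.1, he2.2]
    have key : ∀ Y : ℝ, |Y| ≤ 200 * (1 / Real.sqrt T * E) →
        |h x * (P + Q) + (h (flp x i) - h x) * Y| ≤
        2 * (200 * ((lam / Real.sqrt T + |h x| / T ^ 2) * E)) := by
      intro Y hY
      have h4 := abs_add_le (h x * (P + Q)) ((h (flp x i) - h x) * Y)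
      rw [abs_mul, abs_mul] at h4
      have hlam : 0 ≤ lam := (abs_nonneg _).trans hl
      have h5 : |h x| * |P + Q| ≤ |h x| * (200 * (1 / T ^ 2 * E)) :=
        mul_le_mul_of_nonneg_left he' (abs_nonneg _)
      have h6 : |h (flp x i) - h x| * |Y| ≤ lam * (200 * (1 / Real.sqrt T * E)) :=
        mul_le_mul hl hY (abs_nonneg _) hlam
      have h7 : 0 ≤ 200 * ((lam / Real.sqrt T + |h x| / T ^ 2) * E) := by positivity
      have h8 : |h x| * (200 * (1 / T ^ 2 * E)) +
          lam * (200 * (1 / Real.sqrt T * E)) =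
          200 * ((lam / Real.sqrt T + |h x| / T ^ 2) * E) := by ring
      linarith
    cases hx : x i
    · have e1 : f x + f (flp x i) = h x * (P + Q) + (h (flp x i) - h x) * P := by
        simp only [hf, hR, htf, haf, flp_same, hx, sg, hP, hQ, ← hT, ← hb]
        simp only [Bool.not_false, if_true, Bool.false_eq_true, if_false, mul_one, mul_neg,
          ← sub_eq_add_neg]
        ring
      rw [e1]
      exact key P hPb
    · have e1 : f x + f (flp x i) = h x * (P + Q) + (h (flp x i) - h x) * Q := by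
        simp only [hf, hR, htf, haf, flp_same, hx, sg, hP, hQ, ← hT, ← hb]
        simp only [Bool.not_true, if_true, Bool.false_eq_true, if_false, mul_one, mul_neg,
          ← sub_eq_add_neg]
        ring
      rw [e1]
      exact key Q hQb
  rw [h1]
  have h4 : |2 * ∑ x, f x| ≤ ∑ x, 2 * (200 * ((lam / Real.sqrt (t x) + |h x| / t x ^ 2) *
        Real.exp (-((R x) ^ 2 / (8 * t x))))) := by
    rw [h2]
    exact (Finset.abs_sum_le_sum_abs _ _).trans (Finset.sum_le_sum fun x _ => h3 x)
  rw [abs_mul, abs_two, ← Finset.mul_sum, ← Finset.mul_sum] at h4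
  linarith

private theorem wr_g (t : ℝ) (ht : 16 ≤ t) :
    1 / (t * Real.sqrt t) + 9 / Real.sqrt (t + 1 / 4) ≤ 9 / Real.sqrt t := by
  have ht0 : 0 < t := by linarith
  have hst : 0 < Real.sqrt t := Real.sqrt_pos.2 ht0
  have hst1 : 0 < Real.sqrt (t + 1 / 4) := Real.sqrt_pos.2 (by linarith)
  have hsq : Real.sqrt t ^ 2 = t := Real.sq_sqrt ht0.le
  have hsq1 : Real.sqrt (t + 1 / 4) ^ 2 = t + 1 / 4 := Real.sq_sqrt (by linarith)
  have h6 : Real.sqrt t ≤ Real.sqrt (t + 1 / 4) := Real.sqrt_le_sqrt (by linarith)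
  set q := Real.sqrt t with hq
  set r := Real.sqrt (t + 1 / 4) with hr
  have h5 : 9 / q - 9 / r = 9 / 4 / (q * r * (q + r)) := by
    field_simp
    nlinarith
  have h7 : 1 / (t * q) ≤ 9 / 4 / (q * r * (q + r)) := by
    rw [div_le_div_iff₀ (by positivity) (by positivity)]
    have h8 : r * (q + r) ≤ 9 / 4 * t := by nlinarith
    nlinarith
  linarith

theorem remove_path2 (h : (ι → Bool) → ℝ) (lam E1 Eh T : ℝ) (hlam : 0 ≤ lam) (hE1 : 0 ≤ E1)
    (hEh : 0 ≤ Eh) (hh : Lip lam h) (s : Finset ι) (A : (ι → Bool) → ι → ℝ)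
    (hA : ∀ x, ∀ i ∈ s, 1 / 2 ≤ A x i ∧ A x i ≤ 2) (hAf : ∀ x, ∀ j ∈ s, A (flp x j) = A x)
    (R : (ι → Bool) → ℝ) (hR : ∀ x, ∀ i ∈ s, R (flp x i) = R x) (c : ℝ)
    (hT : 16 + 4 * (s.card : ℝ) ≤ T)
    (h1 : ∀ s' ⊆ s, ∀ t : ℝ, 16 ≤ t → t ≤ T →
      ∑ x, Real.exp (-((R x + ∑ i ∈ s', A x i * sg (x i) - c) ^ 2 / (8 * t))) ≤
        E1 * Real.sqrt t * 2 ^ Fintype.card ι)
    (h2 : ∀ s' ⊆ s, ∀ t : ℝ, 16 ≤ t → t ≤ T →
      ∑ x, |h x| * Real.exp (-((R x + ∑ i ∈ s', A x i * sg (x i) - c) ^ 2 / (8 * t))) ≤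
        Eh * Real.sqrt t * 2 ^ Fintype.card ι) :
    |∑ x, h x * phi 16 (R x + ∑ i ∈ s, A x i * sg (x i) - c) -
        ∑ x, h x * phi (16 + ∑ i ∈ s, A x i ^ 2) (R x - c)| ≤
      10 ^ 5 * 2 ^ Fintype.card ι * (lam * E1 * s.card + Eh) := by
  set N : ℝ := 2 ^ Fintype.card ι with hN
  have hN0 : 0 < N := by positivity
  have key : ∀ r : Finset ι, r ⊆ s →
      |∑ x, h x * phi 16 (R x + ∑ i ∈ s, A x i * sg (x i) - c) -
        ∑ x, h x * phi (16 + ∑ i ∈ r, A x i ^ 2) (R x + ∑ i ∈ s \ r, A x i * sg (x i) - c)| ≤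
      800 * N * (lam * E1 * r.card + Eh * (9 / Real.sqrt 16 -
        9 / Real.sqrt (16 + (r.card : ℝ) / 4))) := by
    intro r
    induction r using Finset.induction_on with
    | empty => intro _; simp
    | insert i r hi ih =>
      intro hrs
      have hr : r ⊆ s := (Finset.subset_insert _ _).trans hrs
      have his : i ∈ s := hrs (Finset.mem_insert_self _ _)
      have g1 := ih hr
      have hA0 : ∀ x, ∀ j ∈ s, 1 / 4 ≤ A x j ^ 2 ∧ A x j ^ 2 ≤ 4 := by
        intro x j hj
        obtain ⟨a1, a2⟩ := hA x j hj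
        constructor <;> nlinarith
      have hlo : ∀ x, 16 + (r.card : ℝ) / 4 ≤ 16 + ∑ j ∈ r, A x j ^ 2 := by
        intro x
        have : ∑ j ∈ r, (1 / 4 : ℝ) ≤ ∑ j ∈ r, A x j ^ 2 :=
          Finset.sum_le_sum fun j hj => (hA0 x j (hr hj)).1
        rw [Finset.sum_const, nsmul_eq_mul] at this
        linarith
      have hhi : ∀ x, 16 + ∑ j ∈ r, A x j ^ 2 ≤ 16 + 4 * (r.card : ℝ) := by
        intro x
        have : ∑ j ∈ r, A x j ^ 2 ≤ ∑ j ∈ r, (4 : ℝ) :=
          Finset.sum_le_sum fun j hj => (hA0 x j (hr hj)).2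
        rw [Finset.sum_const, nsmul_eq_mul] at this
        linarith
      have hk0 : (0 : ℝ) ≤ r.card := Nat.cast_nonneg _
      have g2 := swap_one2 h lam hh i
        (fun x => R x + ∑ j ∈ s \ insert i r, A x j * sg (x j) - c)
        (fun x => 16 + ∑ j ∈ r, A x j ^ 2) (fun x => A x i)
        (fun x => by
          beta_reduce
          rw [hR x i his, hAf x i his]
          congr 2
          refine Finset.sum_congr rfl fun j hj => ?_
          have hne : j ≠ i := fun e => (Finset.mem_sdiff.mp hj).2 (by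
            rw [e]; exact Finset.mem_insert_self _ _)
          rw [flp_ne x hne])
        (fun x => by beta_reduce; rw [hAf x i his]) (fun x => by beta_reduce; rw [hAf x i his])
        (fun x => by linarith [hlo x]) (fun x => by linarith [(hA x i his).1])
        (fun x => (hA x i his).2)
      have hsd : ∀ x, ∑ j ∈ s \ r, A x j * sg (x j) =
          A x i * sg (x i) + ∑ j ∈ s \ insert i r, A x j * sg (x j) := by
        intro x
        have e : s \ r = insert i (s \ insert i r) := by
          ext j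
          simp only [Finset.mem_sdiff, Finset.mem_insert]
          constructor
          · rintro ⟨a1, a2⟩
            by_cases hj : j = i
            · exact Or.inl hj
            · exact Or.inr ⟨a1, by simp [hj, a2]⟩
          · rintro (rfl | ⟨a1, a2⟩)
            · exact ⟨his, hi⟩
            · exact ⟨a1, fun h => a2 (Or.inr h)⟩
        rw [e, Finset.sum_insert]
        simp
      have e1 : ∀ x, R x + ∑ j ∈ s \ r, A x j * sg (x j) - c =
          R x + ∑ j ∈ s \ insert i r, A x j * sg (x j) - c + A x i * sg (x i) := by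
        intro x
        rw [hsd]
        ring
      have e2 : ∀ x, 16 + ∑ j ∈ insert i r, A x j ^ 2 = 16 + ∑ j ∈ r, A x j ^ 2 + A x i ^ 2 := by
        intro x
        rw [Finset.sum_insert hi]
        ring
      simp only [← e1, ← e2] at g2
      -- the cost of the step
      set k : ℝ := (r.card : ℝ) with hk
      have hcard : (r.card : ℝ) ≤ s.card := by exact_mod_cast Finset.card_le_card hr
      have hq0 : 0 < Real.sqrt (16 + k / 4) := Real.sqrt_pos.2 (by linarith)
      have hsq4 : Real.sqrt (16 + 4 * k) ≤ 4 * Real.sqrt (16 + k / 4) := by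
        have h8 : Real.sqrt (16 + 4 * k) ≤ Real.sqrt (4 ^ 2 * (16 + k / 4)) :=
          Real.sqrt_le_sqrt (by linarith)
        rwa [Real.sqrt_mul (by norm_num), Real.sqrt_sq (by norm_num)] at h8
      have m1 := h1 (s \ insert i r) Finset.sdiff_subset (16 + 4 * k) (by linarith) (by linarith)
      have m2 := h2 (s \ insert i r) Finset.sdiff_subset (16 + 4 * k) (by linarith) (by linarith)
      have hpt : ∀ x, (lam / Real.sqrt (16 + ∑ j ∈ r, A x j ^ 2) +
          |h x| / (16 + ∑ j ∈ r, A x j ^ 2) ^ 2) *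
          Real.exp (-((R x + ∑ j ∈ s \ insert i r, A x j * sg (x j) - c) ^ 2 /
            (8 * (16 + ∑ j ∈ r, A x j ^ 2)))) ≤
          lam / Real.sqrt (16 + k / 4) *
            Real.exp (-((R x + ∑ j ∈ s \ insert i r, A x j * sg (x j) - c) ^ 2 /
            (8 * (16 + 4 * k)))) +
          1 / (16 + k / 4) ^ 2 * (|h x| *
            Real.exp (-((R x + ∑ j ∈ s \ insert i r, A x j * sg (x j) - c) ^ 2 /
            (8 * (16 + 4 * k))))) := by
        intro x
        set V := R x + ∑ j ∈ s \ insert i r, A x j * sg (x j) - c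
        set t := 16 + ∑ j ∈ r, A x j ^ 2 with htd
        have l1 : 16 + k / 4 ≤ t := hlo x
        have l2 : t ≤ 16 + 4 * k := hhi x
        have ht0 : 0 < t := by linarith
        have a1 : lam / Real.sqrt t ≤ lam / Real.sqrt (16 + k / 4) :=
          div_le_div_of_nonneg_left hlam hq0 (Real.sqrt_le_sqrt l1)
        have a2 : |h x| / t ^ 2 ≤ |h x| / (16 + k / 4) ^ 2 :=
          div_le_div_of_nonneg_left (abs_nonneg _) (by positivity)
            (pow_le_pow_left₀ (by linarith) l1 2)
        have a3 : Real.exp (-(V ^ 2 / (8 * t))) ≤ Real.exp (-(V ^ 2 / (8 * (16 + 4 * k)))) := by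
          apply Real.exp_le_exp.2
          have : V ^ 2 / (8 * (16 + 4 * k)) ≤ V ^ 2 / (8 * t) :=
            div_le_div_of_nonneg_left (sq_nonneg _) (by positivity) (by linarith)
          linarith
        calc (lam / Real.sqrt t + |h x| / t ^ 2) * Real.exp (-(V ^ 2 / (8 * t)))
            ≤ (lam / Real.sqrt (16 + k / 4) + |h x| / (16 + k / 4) ^ 2) *
              Real.exp (-(V ^ 2 / (8 * (16 + 4 * k)))) :=
              mul_le_mul (add_le_add a1 a2) a3 (Real.exp_pos _).le (by positivity)
          _ = _ := by ring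
      have g3 : ∑ x, (lam / Real.sqrt (16 + ∑ j ∈ r, A x j ^ 2) +
          |h x| / (16 + ∑ j ∈ r, A x j ^ 2) ^ 2) *
          Real.exp (-((R x + ∑ j ∈ s \ insert i r, A x j * sg (x j) - c) ^ 2 /
            (8 * (16 + ∑ j ∈ r, A x j ^ 2)))) ≤
          4 * N * (lam * E1 + Eh * (1 / ((16 + k / 4) * Real.sqrt (16 + k / 4)))) := by
        refine (Finset.sum_le_sum fun x _ => hpt x).trans ?_
        rw [Finset.sum_add_distrib, ← Finset.mul_sum, ← Finset.mul_sum]
        set q := Real.sqrt (16 + k / 4) with hq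
        have hqq : q ^ 2 = 16 + k / 4 := Real.sq_sqrt (by linarith)
        have b1 : lam / q * ∑ x, Real.exp (-((R x +
            ∑ j ∈ s \ insert i r, A x j * sg (x j) - c) ^ 2 / (8 * (16 + 4 * k)))) ≤
            lam / q * (E1 * (4 * q) * N) := by
          apply mul_le_mul_of_nonneg_left _ (by positivity)
          refine m1.trans ?_
          apply mul_le_mul_of_nonneg_right _ hN0.le
          exact mul_le_mul_of_nonneg_left hsq4 hE1
        have b2 : 1 / (16 + k / 4) ^ 2 * ∑ x, |h x| * Real.exp (-((R x +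
            ∑ j ∈ s \ insert i r, A x j * sg (x j) - c) ^ 2 / (8 * (16 + 4 * k)))) ≤
            1 / (16 + k / 4) ^ 2 * (Eh * (4 * q) * N) := by
          apply mul_le_mul_of_nonneg_left _ (by positivity)
          refine m2.trans ?_
          apply mul_le_mul_of_nonneg_right _ hN0.le
          exact mul_le_mul_of_nonneg_left hsq4 hEh
        have c1 : lam / q * (E1 * (4 * q) * N) = 4 * N * (lam * E1) := by field_simp
        have c2 : 1 / (16 + k / 4) ^ 2 * (Eh * (4 * q) * N) =
            4 * N * (Eh * (1 / ((16 + k / 4) * q))) := by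
          rw [← hqq]
          field_simp
        rw [c1] at b1
        rw [c2] at b2
        calc _ ≤ 4 * N * (lam * E1) + 4 * N * (Eh * (1 / ((16 + k / 4) * q))) := add_le_add b1 b2
          _ = _ := by ring
      have g4 := wr_g (16 + k / 4) (by linarith)
      rw [Finset.card_insert_of_notMem hi]
      push_cast
      rw [← hk]
      have e3 : 16 + (k + 1) / 4 = 16 + k / 4 + 1 / 4 := by ring
      rw [e3]
      have g5 : Eh * (1 / ((16 + k / 4) * Real.sqrt (16 + k / 4)) +
          9 / Real.sqrt (16 + k / 4 + 1 / 4)) ≤ Eh * (9 / Real.sqrt (16 + k / 4)) :=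
        mul_le_mul_of_nonneg_left g4 hEh
      refine (abs_sub_le _ _ _).trans ((add_le_add g1 (g2.trans
        (mul_le_mul_of_nonneg_left g3 (by norm_num)))).trans ?_)
      have e4 : 800 * N * (lam * E1 * k + Eh * (9 / Real.sqrt 16 - 9 / Real.sqrt (16 + k / 4))) +
          200 * (4 * N * (lam * E1 + Eh * (1 / ((16 + k / 4) * Real.sqrt (16 + k / 4))))) =
          800 * N * (lam * E1 * (k + 1) + Eh * (9 / Real.sqrt 16) +
            (Eh * (1 / ((16 + k / 4) * Real.sqrt (16 + k / 4))) -
              Eh * (9 / Real.sqrt (16 + k / 4)))) := by ring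
      rw [e4]
      apply mul_le_mul_of_nonneg_left _ (by positivity)
      linarith
  have g := key s (Finset.Subset.refl _)
  simp only [Finset.sdiff_self, Finset.sum_empty, add_zero] at g
  refine g.trans ?_
  have h16 : Real.sqrt 16 = 4 := by
    rw [show (16 : ℝ) = 4 ^ 2 by norm_num, Real.sqrt_sq (by norm_num)]
  rw [h16]
  have h9 : 0 ≤ 9 / Real.sqrt (16 + (s.card : ℝ) / 4) := by positivity
  have h10 : Eh * (9 / 4 - 9 / Real.sqrt (16 + (s.card : ℝ) / 4)) ≤ Eh * (9 / 4) :=
    mul_le_mul_of_nonneg_left (by linarith) hEh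
  have h11 : 0 ≤ lam * E1 * (s.card : ℝ) := by positivity
  have h12 : 800 * N * (lam * E1 * (s.card : ℝ) + Eh * (9 / 4 -
      9 / Real.sqrt (16 + (s.card : ℝ) / 4))) ≤
      800 * N * (lam * E1 * (s.card : ℝ) + Eh * (9 / 4)) :=
    mul_le_mul_of_nonneg_left (by linarith) (by positivity)
  refine h12.trans ?_
  have h13 : 0 ≤ N * (lam * E1 * (s.card : ℝ)) := by positivity
  have h14 : 0 ≤ N * Eh := by positivity
  nlinarith

end BLO
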