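import Pool.Agent.Lib.BLO.WWD
import Pool.Agent.Lib.BLO.CombA

/-!
# Chunk WWA: average distortion of a window

Flip of a coordinate of `β` or of a blind pair: distance `≤ 1` resp. `≤ 2`.  Flip of a dither coordinate:
`d(rho x, rho x') ≤ d(x, rho x) + 1 + d(x', rho x')` and `ww_D`.  Flip of the coordinate `(k, s)` of a pair of the word:
`st` changes by `flst s` (`st_flp_inr`), `d ≤ 2 pd (rev z) (rev z')` (`wx_dist`), `combA` with `f = flst s`.
-/

namespace BLO

open Finset BLP

section

variable {β δ P : Type*} [Fintype β] [DecidableEq β] [Fintype δ] [DecidableEq δ]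
  [Fintype P] [DecidableEq P]

theorem wwa_rst_congr (W : WW β δ P) {x x' : WX β δ P} (h1 : dit x' = dit x) (h2 : st x' = st x) :
    W.rst x' = W.rst x := by
  unfold WW.rst
  rw [h1, h2]

theorem wwa_sum_flp {ι : Type*} [Fintype ι] [DecidableEq ι] (F : (ι → Bool) → ℝ) (i : ι) :
    ∑ x, F (flp x i) = ∑ x, F x :=
  Equiv.sum_comp (Function.Involutive.toPerm (fun x : ι → Bool => flp x i)
    (fun x => flp_flp x i)) F

theorem wwa_pd_self (z : PS P) : Fam.pd z z = 0 := by
  unfold Fam.pd
  simp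

/-- flip of a blind coordinate -/
theorem wwa_beta (W : WW β δ P) (x : WX β δ P) (j : β) :
    hammingDist (W.rho x) (W.rho (flp x (Sum.inl (Sum.inl j)))) ≤ 1 := by
  refine (wx_dist _ _).trans ?_
  rw [st_rho, st_rho, wwa_rst_congr W (dit_flp_beta x j) (st_flp_inl x (Sum.inl j)), wwa_pd_self,
    Nat.mul_zero, Nat.add_zero]
  have hsub : (univ.filter fun i : β ⊕ δ => W.rho x (Sum.inl i) ≠
      W.rho (flp x (Sum.inl (Sum.inl j))) (Sum.inl i)) ⊆ {Sum.inl j} := by
    intro i hi
    rw [Finset.mem_filter] at hi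
    rw [Finset.mem_singleton]
    by_contra hne
    apply hi.2
    have e : flp x (Sum.inl (Sum.inl j)) (Sum.inl i) = x (Sum.inl i) :=
      flp_ne x (fun h => hne (Sum.inl_injective h))
    rcases i with i | i
    · show (!(x (Sum.inl (Sum.inl i)))) = (!(flp x (Sum.inl (Sum.inl j)) (Sum.inl (Sum.inl i))))
      rw [e]
    · show x (Sum.inl (Sum.inr i)) = flp x (Sum.inl (Sum.inl j)) (Sum.inl (Sum.inr i))
      rw [e]
  exact (Finset.card_le_card hsub).trans (by simp)

/-- flip of a dither coordinate -/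
theorem wwa_delta (W : WW β δ P) (x : WX β δ P) (i : WC β δ P) :
    hammingDist (W.rho x) (W.rho (flp x i)) ≤
      hammingDist x (W.rho x) + 1 + hammingDist (flp x i) (W.rho (flp x i)) := by
  have h1 := hammingDist_triangle (W.rho x) x (W.rho (flp x i))
  have h2 := hammingDist_triangle x (flp x i) (W.rho (flp x i))
  rw [ops_hd_flp'] at h2
  rw [hammingDist_comm (W.rho x) x] at h1
  omega

/-- flip of a coordinate of a pair: reduction to the states -/
theorem wwa_pair0 (W : WW β δ P) (x : WX β δ P) (p : P × Bool) :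
    hammingDist (W.rho x) (W.rho (flp x (Sum.inr p))) ≤
      2 * Fam.pd (W.rst x) (W.rst (flp x (Sum.inr p))) := by
  refine (wx_dist _ _).trans ?_
  rw [st_rho, st_rho]
  have hsub : (univ.filter fun i : β ⊕ δ => W.rho x (Sum.inl i) ≠
      W.rho (flp x (Sum.inr p)) (Sum.inl i)) = ∅ := by
    apply Finset.filter_eq_empty_iff.mpr
    intro i _
    rw [not_not]
    have e : flp x (Sum.inr p) (Sum.inl i) = x (Sum.inl i) := flp_ne x (fun h => by cases h)
    rcases i with i | i
    · show (!(x (Sum.inl (Sum.inl i)))) = (!(flp x (Sum.inr p) (Sum.inl (Sum.inl i))))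
      rw [e]
    · show x (Sum.inl (Sum.inr i)) = flp x (Sum.inr p) (Sum.inl (Sum.inr i))
      rw [e]
  rw [hsub, Finset.card_empty, Nat.zero_add]

/-- flip of a coordinate of a blind pair -/
theorem wwa_blind {W : WW β δ P} {R : ℝ} {jj : ℕ} {ε ε1 : ℝ} (hW : W.OK R jj ε ε1)
    (x : WX β δ P) (k : P) (s : Bool) (hk : (W.F (dit x)).K ≤ (W.F (dit x)).cls k) :
    hammingDist (W.rho x) (W.rho (flp x (Sum.inr (k, s)))) ≤ 2 := by
  refine (wwa_pair0 W x (k, s)).trans ?_
  have hd : dit (flp x (Sum.inr (k, s))) = dit x := dit_flp_inr x (k, s)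
  have hs := st_flp_inr x k s
  have hcong := rev_congr (hW.hF (dit x)) (st x) (Function.update (st x) k (flst s (st x k)))
    (fun k' hk' => by
      rw [Function.update_of_ne]
      rintro rfl
      omega)
  have hsub : (univ.filter fun k' => W.rst x k' ≠ W.rst (flp x (Sum.inr (k, s))) k') ⊆ {k} := by
    intro k' hk'
    rw [Finset.mem_filter] at hk'
    rw [Finset.mem_singleton]
    by_contra hne
    apply hk'.2
    unfold WW.rst
    rw [hd, hs]
    split_ifs with h
    · rw [Function.update_of_ne hne]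
    · exact hcong.2 k' (by omega)
  have : Fam.pd (W.rst x) (W.rst (flp x (Sum.inr (k, s)))) ≤ 1 := by
    unfold Fam.pd
    exact (Finset.card_le_card hsub).trans (by simp)
  omega

/-- flip of a coordinate of a pair of the word -/
theorem wwa_word (W : WW β δ P) (x : WX β δ P) (k : P) (s : Bool)
    (hk : (W.F (dit x)).cls k < (W.F (dit x)).K) :
    hammingDist (W.rho x) (W.rho (flp x (Sum.inr (k, s)))) ≤
      2 * Fam.pd ((W.F (dit x)).rev (st x))
        ((W.F (dit x)).rev (Function.update (st x) k (flst s (st x k)))) := by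
  refine (wwa_pair0 W x (k, s)).trans ?_
  have hd : dit (flp x (Sum.inr (k, s))) = dit x := dit_flp_inr x (k, s)
  have hs := st_flp_inr x k s
  apply Nat.mul_le_mul_left
  unfold Fam.pd
  apply Finset.card_le_card
  intro k' hk'
  rw [Finset.mem_filter] at hk' ⊢
  refine ⟨Finset.mem_univ _, fun hcon => hk'.2 ?_⟩
  unfold WW.rst
  rw [hd, hs]
  split_ifs with h
  · have hne : k' ≠ k := by
      rintro rfl
      omega
    rw [Function.update_of_ne hne]
  · exact hcon

/-- sum over the coordinates of the pairs -/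
theorem wwa_pairs {W : WW β δ P} {R : ℝ} {jj : ℕ} {ε ε1 : ℝ} (hW : W.OK R jj ε ε1)
    (x : WX β δ P) :
    ∑ p : P × Bool, (hammingDist (W.rho x) (W.rho (flp x (Sum.inr p))) : ℝ) ≤
      4 * (W.bl (dit x)).card + 2 * ∑ s : Bool, ∑ k ∈ (W.F (dit x)).seg 0 (W.F (dit x)).K,
        (Fam.pd ((W.F (dit x)).rev (st x))
          ((W.F (dit x)).rev (Function.update (st x) k (flst s (st x k)))) : ℝ) := by
  have h1 : ∀ s : Bool, ∑ k : P, (hammingDist (W.rho x) (W.rho (flp x (Sum.inr (k, s)))) : ℝ) ≤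
      2 * (W.bl (dit x)).card + 2 * ∑ k ∈ (W.F (dit x)).seg 0 (W.F (dit x)).K,
        (Fam.pd ((W.F (dit x)).rev (st x))
          ((W.F (dit x)).rev (Function.update (st x) k (flst s (st x k)))) : ℝ) := by
    intro s
    rw [← Finset.sum_filter_add_sum_filter_not univ
      (fun k => (W.F (dit x)).K ≤ (W.F (dit x)).cls k)]
    apply add_le_add
    · calc ∑ k ∈ univ.filter (fun k => (W.F (dit x)).K ≤ (W.F (dit x)).cls k),
            (hammingDist (W.rho x) (W.rho (flp x (Sum.inr (k, s)))) : ℝ) ≤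
          ∑ k ∈ W.bl (dit x), (2 : ℝ) := by
            refine Finset.sum_le_sum fun k hk => ?_
            have := wwa_blind hW x k s (Finset.mem_filter.mp hk).2
            exact_mod_cast this
        _ = _ := by rw [Finset.sum_const, nsmul_eq_mul]; ring
    · have e : univ.filter (fun k => ¬ (W.F (dit x)).K ≤ (W.F (dit x)).cls k) =
          (W.F (dit x)).seg 0 (W.F (dit x)).K := by
        unfold Fam.seg
        ext k
        simp
      rw [e, Finset.mul_sum]
      refine Finset.sum_le_sum fun k hk => ?_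
      unfold Fam.seg at hk
      have := wwa_word W x k s (Finset.mem_filter.mp hk).2.2
      exact_mod_cast this
  rw [Fintype.sum_prod_type_right]
  refine (Finset.sum_le_sum fun s _ => h1 s).trans ?_
  rw [Finset.sum_add_distrib, Finset.sum_const, Finset.card_univ,
    Fintype.card_bool, nsmul_eq_mul, ← Finset.mul_sum]
  push_cast
  linarith

/-- a sum over the window of a function of the dither and the states -/
theorem wwa_sum (f : (δ → Bool) → PS P → ℝ) (B : ℝ) (hB : ∀ u, ∑ z, f u z ≤ B) :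
    ∑ x : WX β δ P, f (dit x) (st x) ≤ 2 ^ Fintype.card (β ⊕ δ) * B := by
  rw [wx_sum (fun x : WX β δ P => f (dit x) (st x))]
  calc ∑ y : β ⊕ δ → Bool, ∑ z : PS P, f (dit (mkx (Sum.elim y fun _ => false) z : WX β δ P))
        (st (mkx (Sum.elim y fun _ => false) z : WX β δ P)) ≤ ∑ y : β ⊕ δ → Bool, B := by
        refine Finset.sum_le_sum fun y _ => ?_
        refine le_trans (le_of_eq ?_) (hB fun j => y (Sum.inr j))
        refine Finset.sum_congr rfl fun z _ => ?_
        rw [dit_elim, st_mkx]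
    _ = 2 ^ Fintype.card (β ⊕ δ) * B := by
        rw [Finset.sum_const, Finset.card_univ, Fintype.card_fun, Fintype.card_bool, nsmul_eq_mul]
        push_cast
        ring

end

theorem ww_A (C : ℝ) : ∃ C1 : ℝ, 0 < C1 ∧ ∀ (β δ P : Type) [Fintype β] [DecidableEq β]
    [Fintype δ] [DecidableEq δ] [Fintype P] [DecidableEq P] (W : WW β δ P) (R : ℝ) (jj : ℕ)
    (ε ε1 Q : ℝ), W.OK R jj ε ε1 → W.Est C ε Q →
    ∑ x, ∑ i, (hammingDist (W.rho x) (W.rho (flp x i)) : ℝ) ≤
      C1 * ((jj + 1) * Fintype.card (WC β δ P) + Q +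
        Fintype.card δ * (1 + Q + (jj + 1) * Real.sqrt (Fintype.card (WC β δ P)))) *
        2 ^ Fintype.card (WC β δ P) := by
  obtain ⟨CA, hCA, hA⟩ := combA C
  obtain ⟨CD, hCD, hD⟩ := ww_D C
  refine ⟨3 + 4 * CA + 2 * CD, by positivity, ?_⟩
  intro β δ P _ _ _ _ _ _ W R jj ε ε1 Q hW hE
  have hDD := hD β δ P W R jj ε ε1 Q hW hE
  set N : ℝ := (Fintype.card (WC β δ P) : ℝ) with hN
  set T : ℝ := (2 : ℝ) ^ Fintype.card (WC β δ P) with hT
  have hT0 : 0 < T := by positivity
  have hjj : (0 : ℝ) ≤ jj := Nat.cast_nonneg _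
  have hN0 : 0 ≤ N := Nat.cast_nonneg _
  have hcX : (Fintype.card (WX β δ P) : ℝ) = T := by
    rw [hT]
    have : Fintype.card (WX β δ P) = 2 ^ Fintype.card (WC β δ P) := by
      have h := Fintype.card_fun (α := WC β δ P) (β := Bool)
      rw [Fintype.card_bool] at h
      exact h
    rw [this]
    push_cast
    ring
  have hβN : (Fintype.card β : ℝ) ≤ N := by
    rw [hN, WC_card]
    push_cast
    have h1 : (0 : ℝ) ≤ Fintype.card δ := Nat.cast_nonneg _
    have h2 : (0 : ℝ) ≤ Fintype.card P := Nat.cast_nonneg _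
    linarith
  -- blind coordinates
  have b1 : ∑ x : WX β δ P, ∑ j : β,
      (hammingDist (W.rho x) (W.rho (flp x (Sum.inl (Sum.inl j)))) : ℝ) ≤ N * T := by
    calc _ ≤ ∑ x : WX β δ P, ∑ j : β, (1 : ℝ) := by
          refine Finset.sum_le_sum fun x _ => Finset.sum_le_sum fun j _ => ?_
          exact_mod_cast wwa_beta W x j
      _ = T * Fintype.card β := by
          rw [Finset.sum_const, Finset.sum_const, Finset.card_univ, Finset.card_univ,
            nsmul_eq_mul, nsmul_eq_mul, hcX]
          ring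
      _ ≤ N * T := by nlinarith
  -- dither coordinates
  have b2 : ∑ x : WX β δ P, ∑ j : δ,
      (hammingDist (W.rho x) (W.rho (flp x (Sum.inl (Sum.inr j)))) : ℝ) ≤
      Fintype.card δ * (1 + 2 * (CD * (Q + (jj + 1) * Real.sqrt N))) * T := by
    rw [Finset.sum_comm]
    calc ∑ j : δ, ∑ x : WX β δ P,
        (hammingDist (W.rho x) (W.rho (flp x (Sum.inl (Sum.inr j)))) : ℝ) ≤
        ∑ j : δ, (∑ x : WX β δ P, (hammingDist x (W.rho x) : ℝ) + ∑ x : WX β δ P, (1 : ℝ) +
          ∑ x : WX β δ P, (hammingDist x (W.rho x) : ℝ)) := by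
          refine Finset.sum_le_sum fun j _ => ?_
          have e := wwa_sum_flp (fun x : WX β δ P => (hammingDist x (W.rho x) : ℝ))
            (Sum.inl (Sum.inr j))
          calc ∑ x : WX β δ P,
              (hammingDist (W.rho x) (W.rho (flp x (Sum.inl (Sum.inr j)))) : ℝ) ≤
              ∑ x : WX β δ P, ((hammingDist x (W.rho x) : ℝ) + 1 +
                (hammingDist (flp x (Sum.inl (Sum.inr j)))
                  (W.rho (flp x (Sum.inl (Sum.inr j)))) : ℝ)) := by
                refine Finset.sum_le_sum fun x _ => ?_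
                have := wwa_delta W x (Sum.inl (Sum.inr j))
                exact_mod_cast this
            _ = ∑ x : WX β δ P, (hammingDist x (W.rho x) : ℝ) + ∑ x : WX β δ P, (1 : ℝ) +
                ∑ x : WX β δ P, (hammingDist (flp x (Sum.inl (Sum.inr j)))
                  (W.rho (flp x (Sum.inl (Sum.inr j)))) : ℝ) := by
                rw [Finset.sum_add_distrib, Finset.sum_add_distrib]
            _ = _ := by rw [e]
      _ = Fintype.card δ * (T + 2 * ∑ x : WX β δ P, (hammingDist x (W.rho x) : ℝ)) := by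
          rw [Finset.sum_const, Finset.card_univ, nsmul_eq_mul, Finset.sum_const,
            Finset.card_univ, nsmul_eq_mul, hcX]
          ring
      _ ≤ Fintype.card δ * (T + 2 * (CD * (Q + (jj + 1) * Real.sqrt N) * T)) := by gcongr
      _ = _ := by ring
  -- pairs
  have b3 : ∑ x : WX β δ P, ∑ p : P × Bool,
      (hammingDist (W.rho x) (W.rho (flp x (Sum.inr p))) : ℝ) ≤
      (2 * Q + 4 * (CA * (jj + 1) * N)) * T := by
    have h1 : ∀ x : WX β δ P, ∑ p : P × Bool,
        (hammingDist (W.rho x) (W.rho (flp x (Sum.inr p))) : ℝ) ≤ 2 * Q +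
        2 * ∑ s : Bool, ∑ k ∈ (W.F (dit x)).seg 0 (W.F (dit x)).K,
        (Fam.pd ((W.F (dit x)).rev (st x))
          ((W.F (dit x)).rev (Function.update (st x) k (flst s (st x k)))) : ℝ) := by
      intro x
      refine (wwa_pairs hW x).trans ?_
      have h2 := hE.hQ (dit x)
      have h3 : (0 : ℝ) ≤ Fintype.card β := Nat.cast_nonneg _
      have h4 : (0 : ℝ) ≤ Fintype.card δ := Nat.cast_nonneg _
      linarith
    refine (Finset.sum_le_sum fun x _ => h1 x).trans ?_
    rw [Finset.sum_add_distrib, Finset.sum_const, Finset.card_univ, nsmul_eq_mul, hcX,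
      ← Finset.mul_sum]
    have h5 := wwa_sum (β := β) (fun (u : δ → Bool) (z : PS P) => ∑ s : Bool,
      ∑ k ∈ (W.F u).seg 0 (W.F u).K, (Fam.pd ((W.F u).rev z)
          ((W.F u).rev (Function.update z k (flst s (z k)))) : ℝ))
      (2 * (CA * (jj + 1) * N * 4 ^ Fintype.card P)) (by
        intro u
        rw [Finset.sum_comm]
        calc ∑ s : Bool, ∑ z : PS P, ∑ k ∈ (W.F u).seg 0 (W.F u).K, (Fam.pd ((W.F u).rev z)
            ((W.F u).rev (Function.update z k (flst s (z k)))) : ℝ) ≤
            ∑ s : Bool, CA * (jj + 1) * NN (W.F u).nr (W.F u).K * 4 ^ Fintype.card P :=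
            Finset.sum_le_sum fun s _ => hA P (W.F u) jj ε (hW.hF u) (hE.num u) (hE.eps u)
              (flst s) (flst_flst s)
          _ = 2 * (CA * (jj + 1) * NN (W.F u).nr (W.F u).K * 4 ^ Fintype.card P) := by
            rw [Finset.sum_const, Finset.card_univ, Fintype.card_bool, nsmul_eq_mul]
            push_cast
            ring
          _ ≤ _ := by
            have := ww_NN W u
            gcongr)
    have h6 : (2 : ℝ) ^ Fintype.card (β ⊕ δ) * (2 * (CA * (jj + 1) * N * 4 ^ Fintype.card P)) =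
        2 * (CA * (jj + 1) * N) * T := by
      rw [hT, wx_pow]
      ring
    rw [h6] at h5
    have h7 : ∑ x : WX β δ P, ∑ s : Bool, ∑ k ∈ (W.F (dit x)).seg 0 (W.F (dit x)).K,
        (Fam.pd ((W.F (dit x)).rev (st x))
          ((W.F (dit x)).rev (Function.update (st x) k (flst s (st x k)))) : ℝ) ≤
        2 * (CA * (jj + 1) * N) * T := h5
    linarith
  have hsplit : ∑ x, ∑ i, (hammingDist (W.rho x) (W.rho (flp x i)) : ℝ) =
      ∑ x : WX β δ P, ∑ j : β,
        (hammingDist (W.rho x) (W.rho (flp x (Sum.inl (Sum.inl j)))) : ℝ) +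
      ∑ x : WX β δ P, ∑ j : δ,
        (hammingDist (W.rho x) (W.rho (flp x (Sum.inl (Sum.inr j)))) : ℝ) +
      ∑ x : WX β δ P, ∑ p : P × Bool,
        (hammingDist (W.rho x) (W.rho (flp x (Sum.inr p))) : ℝ) := by
    rw [← Finset.sum_add_distrib, ← Finset.sum_add_distrib]
    refine Finset.sum_congr rfl fun x _ => ?_
    rw [Fintype.sum_sum_type, Fintype.sum_sum_type]
  rw [hsplit]
  have hQ0 : 0 ≤ Q := by
    have h2 := hE.hQ (fun _ => false)
    have h3 : (0 : ℝ) ≤ Fintype.card β := Nat.cast_nonneg _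
    have h4 : (0 : ℝ) ≤ Fintype.card δ := Nat.cast_nonneg _
    have h5 : (0 : ℝ) ≤ (W.bl (fun _ => false)).card := Nat.cast_nonneg _
    linarith
  have hδ : (0 : ℝ) ≤ Fintype.card δ := Nat.cast_nonneg _
  have hsq : 0 ≤ (jj + 1) * Real.sqrt N := by positivity
  have hN1 : N ≤ (jj + 1) * N := by nlinarith
  have key : N + Fintype.card δ * (1 + 2 * (CD * (Q + (jj + 1) * Real.sqrt N))) +
      (2 * Q + 4 * (CA * (jj + 1) * N)) ≤
      (3 + 4 * CA + 2 * CD) * ((jj + 1) * N + Q +
        Fintype.card δ * (1 + Q + (jj + 1) * Real.sqrt N)) := by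
    set J := (jj + 1) * N with hJ
    set s := (jj + 1) * Real.sqrt N with hs
    set d := (Fintype.card δ : ℝ) with hd
    have e1 : 4 * (CA * (jj + 1) * N) = 4 * CA * J := by rw [hJ]; ring
    rw [e1]
    have hJ0 : 0 ≤ J := by rw [hJ]; positivity
    have t1 : 0 ≤ d * (1 + Q + s) := by positivity
    have t2 : 0 ≤ CA * (Q + d * (1 + Q + s)) := by positivity
    have t3 : 0 ≤ CD * (J + Q + d) := by positivity
    have t4 : 0 ≤ d * (Q + s) := by positivity
    nlinarith
  calc _ ≤ N * T + Fintype.card δ * (1 + 2 * (CD * (Q + (jj + 1) * Real.sqrt N))) * T +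
        (2 * Q + 4 * (CA * (jj + 1) * N)) * T := by linarith
    _ = (N + Fintype.card δ * (1 + 2 * (CD * (Q + (jj + 1) * Real.sqrt N))) +
      (2 * Q + 4 * (CA * (jj + 1) * N))) * T := by ring
    _ ≤ _ := mul_le_mul_of_nonneg_right key hT0.le

end BLO
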