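import Pool.Agent.Lib.BLO.WXFacts

/-!
# Chunk WI: the involution of a window

`st (rho x) = rst x`, `dit (rho x) = dit x`; `rst` twice is the identity (`rev_off`, `rev_rev`, and `rev` only depends
on the pairs of the word: `arr_loc`, `BlkOK.loc`; `sdec`); `zz (rst x) = zz (rev (st x)) = - zz (st x)`;
`Sc = FC univ 0` on the points without frozen blocks: `zz_val`, `hq` (the blocks `g ≥ K u` contribute
`μ (1 - 1 - 0) = 0`), `∑_k 2 w_k val = ∑_(blind) + ∑_(blocks)`.
-/

namespace BLO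

open Finset BLP

variable {β δ P : Type*} [Fintype β] [DecidableEq β] [Fintype δ] [DecidableEq δ]
  [Fintype P] [DecidableEq P]

theorem st_rho (W : WW β δ P) (x : WX β δ P) : st (W.rho x) = W.rst x := by
  funext k
  show (mkx x (W.rst x) (Sum.inr (k, false)) == mkx x (W.rst x) (Sum.inr (k, true)),
    mkx x (W.rst x) (Sum.inr (k, false))) = W.rst x k
  simp only [mkx]
  rcases W.rst x k with ⟨a, b⟩
  cases a <;> cases b <;> rfl

theorem dit_rho (W : WW β δ P) (x : WX β δ P) : dit (W.rho x) = dit x := rfl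

/-- the reversal and the value of the word only depend on the pairs of the word -/
theorem rev_congr {F : Fam P} {jj : ℕ} {ε : ℝ} (hF : F.OK jj ε) (z z' : PS P)
    (h : ∀ k, F.cls k < F.K → z k = z' k) :
    F.zz z = F.zz z' ∧ ∀ k, F.cls k < F.K → F.rev z k = F.rev z' k := by
  have hl : ∀ g < F.K, F.ys z g = F.ys z' g ∧ F.ls z g = F.ls z' g := fun g hg =>
    Fam.arr_loc hF z z' g fun k hk => h k (hk ▸ hg)
  constructor
  · unfold Fam.zz SZ
    refine Finset.sum_congr rfl fun g hg => ?_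
    rw [Finset.mem_Ico] at hg
    rw [(hl g hg.2).1, (hl g hg.2).2]
  · intro k hk
    have e1 : F.rev z k = _ := F.sdec_in 0 F.K z _ (Nat.zero_le _) hk k rfl
    have e2 : F.rev z' k = _ := F.sdec_in 0 F.K z' _ (Nat.zero_le _) hk k rfl
    rw [e1, e2]
    obtain ⟨-, -, -, -, l5⟩ := (hF.blk (F.cls k) hk).loc z z' fun j hj => h j (hj ▸ hk)
    rw [l5 _ k rfl, QQ_congr (fun g hg => (hl g hg).1) (fun g hg => (hl g hg).2),
      dcd_congr (fun g hg => (hl g hg).1) (fun g hg => (hl g hg).2) _ _ hk]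

theorem rho_rho (W : WW β δ P) (R : ℝ) (jj : ℕ) (ε ε1 : ℝ) (hW : W.OK R jj ε ε1) (x : WX β δ P) :
    W.rho (W.rho x) = x := by
  apply wx_ext
  · rintro (j | j)
    · show (!(!(x (Sum.inl (Sum.inl j))))) = x (Sum.inl (Sum.inl j))
      rw [Bool.not_not]
    · rfl
  · rw [st_rho]
    funext k
    unfold WW.rst
    rw [dit_rho]
    by_cases hk : (W.F (dit x)).K ≤ (W.F (dit x)).cls k
    · rw [if_pos hk, st_rho]
      unfold WW.rst
      rw [if_pos hk]
      show ((st x k).1, !(!(st x k).2)) = st x k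
      rw [Bool.not_not]
    · rw [if_neg hk, st_rho]
      have h1 := (rev_congr (hW.hF (dit x)) (W.rst x) ((W.F (dit x)).rev (st x))
        (fun j hj => by
          unfold WW.rst
          rw [if_neg (by omega)])).2 k (by omega)
      rw [h1, Fam.rev_rev (hW.hF (dit x))]

theorem rho_ne [Nonempty β] (W : WW β δ P) (x : WX β δ P) : W.rho x ≠ x := by
  intro h
  obtain ⟨j⟩ := ‹Nonempty β›
  have h1 := congrFun h (Sum.inl (Sum.inl j))
  have h2 : (!(x (Sum.inl (Sum.inl j)))) = x (Sum.inl (Sum.inl j)) := h1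
  cases h3 : x (Sum.inl (Sum.inl j)) <;> rw [h3] at h2 <;> simp at h2

theorem Sc_rho (W : WW β δ P) (R : ℝ) (jj : ℕ) (ε ε1 : ℝ) (hW : W.OK R jj ε ε1) (x : WX β δ P) :
    W.Sc (W.rho x) = - W.Sc x := by
  unfold WW.Sc
  rw [dit_rho, st_rho]
  have h1 : (W.F (dit x)).zz (W.rst x) = - (W.F (dit x)).zz (st x) := by
    rw [(rev_congr (hW.hF (dit x)) (W.rst x) ((W.F (dit x)).rev (st x))
        (fun j hj => by
          unfold WW.rst
          rw [if_neg (by omega)])).1, Fam.zz_rev (hW.hF (dit x))]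
  have h2 : ∑ k ∈ W.bl (dit x), 2 * W.w (dit x) k * (val (W.rst x k) : ℝ) =
      - ∑ k ∈ W.bl (dit x), 2 * W.w (dit x) k * (val (st x k) : ℝ) := by
    rw [← Finset.sum_neg_distrib]
    refine Finset.sum_congr rfl fun k hk => ?_
    have hk' : (W.F (dit x)).K ≤ (W.F (dit x)).cls k := by
      simpa [WW.bl] using hk
    have h3 : val (W.rst x k) = - val (st x k) := by
      unfold WW.rst
      rw [if_pos hk']
      rcases st x k with ⟨a, b⟩
      cases a <;> cases b <;> rfl
    rw [h3]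
    push_cast
    ring
  have h4 : ∑ j : β, W.a (Sum.inl (Sum.inl j)) * sg (W.rho x (Sum.inl (Sum.inl j))) =
      - ∑ j : β, W.a (Sum.inl (Sum.inl j)) * sg (x (Sum.inl (Sum.inl j))) := by
    rw [← Finset.sum_neg_distrib]
    refine Finset.sum_congr rfl fun j _ => ?_
    show W.a (Sum.inl (Sum.inl j)) * sg (!(x (Sum.inl (Sum.inl j)))) = _
    cases x (Sum.inl (Sum.inl j)) <;> simp [sg]
  rw [h1, h2, h4]
  push_cast
  ring

theorem Sc_ok (W : WW β δ P) (R : ℝ) (jj : ℕ) (ε ε1 : ℝ) (hW : W.OK R jj ε ε1) (x : WX β δ P)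
    (hx : W.data.ok x) : W.Sc x = W.data.FC univ 0 x := by
  have hF := hW.hF (dit x)
  have hK := hW.hK (dit x)
  have hfr : ∀ g, 0 ≤ g → g < (W.F (dit x)).K → ¬ (W.F (dit x)).frz g (st x) := fun g _ hg =>
    hx g (lt_of_lt_of_le hg hK) hg
  have hz : (W.F (dit x)).zz (st x) = _ := Fam.zz_val hF 0 (W.F (dit x)).K (Nat.zero_le _) le_rfl (st x) hfr
  -- the noise
  have hn : W.data.noise 0 x = ∑ g ∈ Ico 0 (W.F (dit x)).K,
      W.μ * (((W.F (dit x)).m g : ℝ) - 1 - 2 * ((W.F (dit x)).nu g (st x) : ℝ)) := by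
    unfold WData.noise
    show ∑ g ∈ Ico 0 W.K, _ = _
    rw [← Finset.sum_subset (s₁ := Ico 0 (W.F (dit x)).K)]
    · refine Finset.sum_congr rfl fun g hg => ?_
      rw [Finset.mem_Ico] at hg
      have h1 : W.data.good g x := hx g (lt_of_lt_of_le hg.2 hK)
      have h2 : ind (W.data.good g x) = 1 := by simp [ind, h1]
      rw [h2]
      show 1 * (W.μ * (((if g < (W.F (dit x)).K then (W.F (dit x)).m g else 1 : ℕ) : ℝ) - 1 -
        2 * ((if g < (W.F (dit x)).K then (W.F (dit x)).nu g (st x) else 0 : ℕ) : ℝ))) = _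
      rw [if_pos hg.2, if_pos hg.2, one_mul]
    · intro g hg
      rw [Finset.mem_Ico] at hg ⊢
      exact ⟨hg.1, lt_of_lt_of_le hg.2 hK⟩
    · intro g hg hg'
      rw [Finset.mem_Ico] at hg hg'
      have h3 : ¬ g < (W.F (dit x)).K := fun h => hg' ⟨hg.1, h⟩
      show ind _ * (W.μ * (((if g < (W.F (dit x)).K then (W.F (dit x)).m g else 1 : ℕ) : ℝ) - 1 -
        2 * ((if g < (W.F (dit x)).K then (W.F (dit x)).nu g (st x) else 0 : ℕ) : ℝ))) = _
      rw [if_neg h3, if_neg h3]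
      push_cast
      ring
  -- the pairs
  have hp : ∑ k : P, 2 * W.w (dit x) k * (val (st x k) : ℝ) =
      ∑ k ∈ W.bl (dit x), 2 * W.w (dit x) k * (val (st x k) : ℝ) +
        ∑ g ∈ Ico 0 (W.F (dit x)).K,
          W.μ * ((W.F (dit x)).m g : ℝ) * ((W.F (dit x)).vs g (st x) : ℝ) := by
    rw [← Finset.sum_filter_add_sum_filter_not univ
      (fun k => (W.F (dit x)).K ≤ (W.F (dit x)).cls k)]
    congr 1
    rw [← Finset.sum_fiberwise_of_maps_to (t := Ico 0 (W.F (dit x)).K)
      (g := fun k => (W.F (dit x)).cls k)]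
    · refine Finset.sum_congr rfl fun g hg => ?_
      rw [Finset.mem_Ico] at hg
      unfold Fam.vs
      push_cast
      rw [Finset.mul_sum]
      refine Finset.sum_congr ?_ fun k hk => ?_
      · ext k
        simp only [Fam.blk, Finset.mem_filter, Finset.mem_univ, true_and]
        constructor
        · rintro ⟨-, h⟩
          exact h
        · intro h
          exact ⟨by omega, h⟩
      · simp only [Fam.blk, Finset.mem_filter, Finset.mem_univ, true_and] at hk
        have h5 := hW.hq (dit x) k (by omega)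
        rw [h5, hk]
    · intro k hk
      simp only [Finset.mem_filter, Finset.mem_univ, true_and] at hk
      rw [Finset.mem_Ico]
      exact ⟨Nat.zero_le _, by omega⟩
  unfold WW.Sc WData.FC
  show _ = W.lam (dit x) * _ + ∑ k : P, 2 * W.w (dit x) k * (val (st x k) : ℝ) + _
  rw [hn, hp, hz]
  push_cast
  show _ = W.lam (dit x) * ∑ j : β, W.a (Sum.inl (Sum.inl j)) * sg (x (Sum.inl (Sum.inl j))) + _ + _
  have h6 : W.μ * ∑ g ∈ Ico 0 (W.F (dit x)).K, (((W.F (dit x)).m g : ℝ) *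
      ((W.F (dit x)).vs g (st x) : ℝ) + (((W.F (dit x)).m g : ℝ) - 1 -
        2 * ((W.F (dit x)).nu g (st x) : ℝ))) =
      ∑ g ∈ Ico 0 (W.F (dit x)).K,
          W.μ * ((W.F (dit x)).m g : ℝ) * ((W.F (dit x)).vs g (st x) : ℝ) +
        ∑ g ∈ Ico 0 (W.F (dit x)).K,
      W.μ * (((W.F (dit x)).m g : ℝ) - 1 - 2 * ((W.F (dit x)).nu g (st x) : ℝ)) := by
    rw [Finset.mul_sum, ← Finset.sum_add_distrib]
    refine Finset.sum_congr rfl fun g _ => ?_
    ring
  rw [h6]
  ring

end BLO
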