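import Pool.Agent.Lib.BLO.WWEst
import Pool.Agent.Lib.BLO.WWInv
import Pool.Agent.Lib.BLO.CombD

/-!
# Chunk WWD: displacement of a window

`d(x, rho x) ≤ card β + 2 #bl + 2 pd (st x) (rev (st x))` (`wx_dist`, `st_rho`), `wx_sum`, `combD` for every `u`;
`NN (F u).nr (F u).K ≤ card P ≤ card WC`.
-/

namespace BLO

open Finset BLP

theorem ww_dist {β δ P : Type*} [Fintype β] [DecidableEq β] [Fintype δ] [DecidableEq δ]
    [Fintype P] [DecidableEq P] (W : WW β δ P) (x : WX β δ P) :
    hammingDist x (W.rho x) ≤ Fintype.card β + 2 * (W.bl (dit x)).card +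
      2 * Fam.pd (st x) ((W.F (dit x)).rev (st x)) := by
  have h1 := wx_dist x (W.rho x)
  rw [st_rho] at h1
  have h2 : (univ.filter fun i : β ⊕ δ => x (Sum.inl i) ≠ W.rho x (Sum.inl i)).card ≤
      Fintype.card β := by
    rw [← Finset.card_univ, ← Finset.card_map (⟨Sum.inl, Sum.inl_injective⟩ : β ↪ β ⊕ δ)]
    refine Finset.card_le_card fun i hi => ?_
    rw [Finset.mem_filter] at hi
    rw [Finset.mem_map]
    rcases i with j | j
    · exact ⟨j, Finset.mem_univ _, rfl⟩
    · exact absurd rfl hi.2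
  have h3 : Fam.pd (st x) (W.rst x) ≤ (W.bl (dit x)).card +
      Fam.pd (st x) ((W.F (dit x)).rev (st x)) := by
    unfold Fam.pd
    refine le_trans (Finset.card_le_card ?_) (Finset.card_union_le _ _)
    intro k hk
    rw [Finset.mem_filter] at hk
    rw [Finset.mem_union]
    by_cases h : (W.F (dit x)).K ≤ (W.F (dit x)).cls k
    · left
      unfold WW.bl
      rw [Finset.mem_filter]
      exact ⟨Finset.mem_univ _, h⟩
    · right
      rw [Finset.mem_filter]
      refine ⟨Finset.mem_univ _, ?_⟩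
      have h4 := hk.2
      unfold WW.rst at h4
      rwa [if_neg h] at h4
  omega

theorem ww_NN {β δ P : Type*} [Fintype β] [DecidableEq β] [Fintype δ] [DecidableEq δ]
    [Fintype P] [DecidableEq P] (W : WW β δ P) (u : δ → Bool) :
    NN (W.F u).nr (W.F u).K ≤ Fintype.card (WC β δ P) := by
  have h1 : ∑ g ∈ range (W.F u).K, (W.F u).siz g ≤ Fintype.card P := by
    unfold Fam.siz Fam.blk
    have h2 := Finset.card_eq_sum_card_fiberwise (f := (W.F u).cls)
      (s := univ.filter fun k => (W.F u).cls k < (W.F u).K) (t := range (W.F u).K)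
      (fun k hk => by
        have := (Finset.mem_filter.1 (Finset.mem_coe.1 hk)).2
        exact Finset.mem_coe.2 (Finset.mem_range.2 this))
    have h3 : ∑ g ∈ range (W.F u).K, (univ.filter fun k => (W.F u).cls k = g).card =
        ∑ g ∈ range (W.F u).K, ((univ.filter fun k => (W.F u).cls k < (W.F u).K).filter
          fun k => (W.F u).cls k = g).card := by
      refine Finset.sum_congr rfl fun g hg => ?_
      rw [Finset.mem_range] at hg
      congr 1
      ext k
      simp only [Finset.mem_filter, Finset.mem_univ, true_and]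
      constructor
      · intro h
        exact ⟨by omega, h⟩
      · exact fun h => h.2
    rw [h3, ← h2]
    exact Finset.card_le_univ _
  unfold NN Fam.nr
  have h2 : (∑ g ∈ range (W.F u).K, ((W.F u).siz g : ℝ)) =
      ((∑ g ∈ range (W.F u).K, (W.F u).siz g : ℕ) : ℝ) := by push_cast; rfl
  rw [h2]
  have h3 := WC_card (β := β) (δ := δ) (P := P)
  exact_mod_cast (show _ ≤ _ by omega)

theorem ww_D (C : ℝ) : ∃ C1 : ℝ, 0 < C1 ∧ ∀ (β δ P : Type) [Fintype β] [DecidableEq β]
    [Fintype δ] [DecidableEq δ] [Fintype P] [DecidableEq P] (W : WW β δ P) (R : ℝ) (jj : ℕ)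
    (ε ε1 Q : ℝ), W.OK R jj ε ε1 → W.Est C ε Q →
    ∑ x, (hammingDist x (W.rho x) : ℝ) ≤
      C1 * (Q + (jj + 1) * Real.sqrt (Fintype.card (WC β δ P))) * 2 ^ Fintype.card (WC β δ P) := by
  obtain ⟨C1, hC1, h⟩ := combD C
  refine ⟨1 + 2 * C1, by positivity, ?_⟩
  intro β δ P _ _ _ _ _ _ W R jj ε ε1 Q hW hE
  set n : ℝ := Real.sqrt (Fintype.card (WC β δ P)) with hn
  have hn0 : 0 ≤ n := Real.sqrt_nonneg _
  have hjj : (0 : ℝ) ≤ jj := Nat.cast_nonneg _
  have hQ0 : 0 ≤ Q := by
    have h1 := hE.hQ fun _ => false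
    have h2 : (0 : ℝ) ≤ (Fintype.card β : ℝ) + Fintype.card δ + 2 * (W.bl fun _ => false).card := by
      positivity
    linarith
  have hpt : ∀ x : WX β δ P, (hammingDist x (W.rho x) : ℝ) ≤
      Q + 2 * (Fam.pd (st x) ((W.F (dit x)).rev (st x)) : ℝ) := by
    intro x
    have h1 := ww_dist W x
    have h2 : (hammingDist x (W.rho x) : ℝ) ≤ Fintype.card β + 2 * (W.bl (dit x)).card +
      2 * Fam.pd (st x) ((W.F (dit x)).rev (st x)) := by exact_mod_cast h1
    have h3 := hE.hQ (dit x)
    have h4 : (0 : ℝ) ≤ Fintype.card δ := Nat.cast_nonneg _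
    linarith
  have hfix : ∀ y : β ⊕ δ → Bool, ∑ z : PS P,
      (Q + 2 * (Fam.pd (st (mkx (Sum.elim y fun _ => false) z))
        ((W.F (dit (mkx (Sum.elim y fun _ => false) z))).rev
          (st (mkx (Sum.elim y fun _ => false) z))) : ℝ)) ≤
      (Q + 2 * C1 * (jj + 1) * n) * 4 ^ Fintype.card P := by
    intro y
    have h1 := h P (W.F fun j => y (Sum.inr j)) jj ε (hW.hF _) (hE.num _) (hE.eps _)
    have h2 : Real.sqrt (NN (W.F fun j => y (Sum.inr j)).nr (W.F fun j => y (Sum.inr j)).K) ≤ n :=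
      Real.sqrt_le_sqrt (ww_NN W _)
    have h3 : ∑ z : PS P, (Q + 2 * (Fam.pd (st (mkx (Sum.elim y fun _ => false) z))
        ((W.F (dit (mkx (Sum.elim y fun _ => false) z))).rev
          (st (mkx (Sum.elim y fun _ => false) z))) : ℝ)) =
        Q * 4 ^ Fintype.card P + 2 * ∑ z : PS P,
          (Fam.pd z ((W.F fun j => y (Sum.inr j)).rev z) : ℝ) := by
      rw [Finset.sum_add_distrib, Finset.sum_const, Finset.card_univ, nsmul_eq_mul,
        ← Finset.mul_sum]
      congr 1
      · rw [Fintype.card_fun, Fintype.card_prod, Fintype.card_bool]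
        push_cast
        ring
      · congr 1
        refine Finset.sum_congr rfl fun z _ => ?_
        rw [dit_elim, st_mkx]
    rw [h3]
    have h4 : ∑ z : PS P, (Fam.pd z ((W.F fun j => y (Sum.inr j)).rev z) : ℝ) ≤
        C1 * (jj + 1) * n * 4 ^ Fintype.card P := by
      refine h1.trans ?_
      apply mul_le_mul_of_nonneg_right _ (by positivity)
      exact mul_le_mul_of_nonneg_left h2 (by positivity)
    linarith
  calc ∑ x, (hammingDist x (W.rho x) : ℝ)
      ≤ ∑ x : WX β δ P, (Q + 2 * (Fam.pd (st x) ((W.F (dit x)).rev (st x)) : ℝ)) :=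
        Finset.sum_le_sum fun x _ => hpt x
    _ ≤ ∑ y : β ⊕ δ → Bool, (Q + 2 * C1 * (jj + 1) * n) * 4 ^ Fintype.card P := by
        rw [wx_sum]
        exact Finset.sum_le_sum fun y _ => hfix y
    _ = (Q + 2 * C1 * (jj + 1) * n) * 2 ^ Fintype.card (WC β δ P) := by
        rw [Finset.sum_const, Finset.card_univ, nsmul_eq_mul, wx_pow, Fintype.card_fun,
          Fintype.card_bool]
        push_cast
        ring
    _ ≤ (1 + 2 * C1) * (Q + (jj + 1) * n) * 2 ^ Fintype.card (WC β δ P) := by
        apply mul_le_mul_of_nonneg_right _ (by positivity)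
        have h1 : 0 ≤ C1 * Q := by positivity
        have h2 : 0 ≤ (jj + 1) * n := by positivity
        nlinarith

end BLO
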