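import Pool.Agent.Lib.BLO.W1Defs
import Pool.Agent.Lib.BLO.Fam

/-!
# Windows with words: definitions

For every state `u` of the dither a family of blocks `F u` on the pairs.  `W.data` is the abstract window
data of `W1Defs.lean`; `W.Sc` the rounded function (odd under `W.rho`), `W.rho` the involution: blind
coordinates and blind pairs are negated, the dither is not changed, the word is reversed.
-/

namespace BLO

open Finset BLP

section
variable {β δ P : Type*}

/-- the point with the non-pair coordinates of `x` and the states `z` of the pairs -/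
def mkx (x : WX β δ P) (z : PS P) : WX β δ P := fun i =>
  match i with
  | Sum.inl i => x (Sum.inl i)
  | Sum.inr (k, s) => if s = true then ((z k).1 == (z k).2) else (z k).2

/-- window with words -/
structure WW (β δ P : Type*) where
  /-- weights -/
  a : WC β δ P → ℝ
  /-- rounded weights of the pairs -/
  w : (δ → Bool) → P → ℝ
  /-- factor of the blind coordinates -/
  lam : (δ → Bool) → ℝ
  /-- unit -/
  μ : ℝ
  /-- bound of the number of blocks -/
  K : ℕ
  /-- the blocks -/
  F : (δ → Bool) → Fam P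

variable [Fintype P] [DecidableEq P]

/-- the abstract data -/
def WW.data (W : WW β δ P) : WData β δ P where
  a := W.a
  w := W.w
  lam := W.lam
  μ := W.μ
  K := W.K
  m := fun g u => if g < (W.F u).K then (W.F u).m g else 1
  good := fun g x => g < (W.F (dit x)).K → ¬ (W.F (dit x)).frz g (st x)
  nu := fun g x => if g < (W.F (dit x)).K then (W.F (dit x)).nu g (st x) else 0
  set := fun g x t => if g < (W.F (dit x)).K then mkx x ((W.F (dit x)).setn g t (st x)) else x

/-- blind pairs -/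
def WW.bl (W : WW β δ P) (u : δ → Bool) : Finset P :=
  univ.filter fun k => (W.F u).K ≤ (W.F u).cls k

variable [Fintype β] [DecidableEq β] [Fintype δ] [DecidableEq δ]

/-- the rounded function -/
noncomputable def WW.Sc (W : WW β δ P) (x : WX β δ P) : ℝ :=
  W.lam (dit x) * ∑ j : β, W.a (Sum.inl (Sum.inl j)) * sg (x (Sum.inl (Sum.inl j))) +
    ∑ k ∈ W.bl (dit x), 2 * W.w (dit x) k * (val (st x k) : ℝ) +
    W.μ * ((W.F (dit x)).zz (st x) : ℝ)

/-- states of the pairs after the involution -/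
def WW.rst (W : WW β δ P) (x : WX β δ P) : PS P := fun k =>
  if (W.F (dit x)).K ≤ (W.F (dit x)).cls k then ((st x k).1, !(st x k).2)
  else (W.F (dit x)).rev (st x) k

/-- the involution -/
def WW.rho (W : WW β δ P) (x : WX β δ P) : WX β δ P := fun i =>
  match i with
  | Sum.inl (Sum.inl j) => !(x (Sum.inl (Sum.inl j)))
  | Sum.inl (Sum.inr j) => x (Sum.inl (Sum.inr j))
  | Sum.inr p => mkx x (W.rst x) (Sum.inr p)

/-- the properties of a window with words -/
structure WW.OK (W : WW β δ P) (R : ℝ) (jj : ℕ) (ε ε1 : ℝ) : Prop where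
  R1 : 1 ≤ R
  hB : ∀ i : β ⊕ δ, 1 ≤ W.a (Sum.inl i) ∧ W.a (Sum.inl i) ≤ 2
  hP : ∀ p : P × Bool, 0 ≤ W.a (Sum.inr p) ∧ W.a (Sum.inr p) ≤ R
  hd : ∑ k, W.data.d k ≤ R
  hμ : 0 < W.μ ∧ W.μ ≤ 1 / 2
  hw : ∀ u k, |W.w u k - W.data.v k| ≤ W.μ
  hmean : ∀ k, |∑ u : δ → Bool, (W.w u k - W.data.v k)| ≤ ε1 * 2 ^ Fintype.card δ
  hlam : ∀ u, 1 / 2 ≤ W.lam u ∧ W.lam u ≤ 1
  hvar : ∀ u, W.lam u ^ 2 * W.data.vB + W.data.tim W.K u = W.data.vB
  hF : ∀ u, (W.F u).OK jj ε
  hK : ∀ u, (W.F u).K ≤ W.K
  hq : ∀ u k, (W.F u).cls k < (W.F u).K → 2 * W.w u k = W.μ * (W.F u).m ((W.F u).cls k)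
  hm : ∀ u, ∀ g < (W.F u).K, W.μ * (W.F u).m g ≤ 4 * R

/-- number of pairs and all coordinates -/
theorem WC_card : Fintype.card (WC β δ P) = Fintype.card β + Fintype.card δ + 2 * Fintype.card P := by
  simp only [WC, Fintype.card_sum, Fintype.card_prod, Fintype.card_bool]
  ring

end

end BLO
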