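import Pool.Agent.Lib.BLO.WWDefs
import Pool.Agent.Lib.BLO.CombDefs

/-!
# Windows with words: hypotheses for the estimates of the components `A, I, D, T`
-/

namespace BLO

open Finset BLP

variable {β δ P : Type*} [Fintype β] [DecidableEq β] [Fintype δ] [DecidableEq δ]
  [Fintype P] [DecidableEq P]

/-- the hypotheses needed for the estimates of the components `A, I, D, T` -/
structure WW.Est (W : WW β δ P) (C ε Q : ℝ) : Prop where
  num : ∀ u, Num C (W.F u).K (W.F u).mr (W.F u).nr
  eps : ∀ u, Eps (W.F u) ε
  /-- few coordinates outside the word -/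
  hQ : ∀ u, (Fintype.card β : ℝ) + Fintype.card δ + 2 * (W.bl u).card ≤ Q

end BLO
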