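import Pool.Agent.Lib.BLO.WWEst
import Pool.Agent.Lib.BLO.WWInv
import Pool.Agent.Lib.BLO.WWD
import Pool.Agent.Lib.BLO.CombI
import Pool.Agent.Lib.BLO.CombT

/-!
# Chunk WWI: influence of a window (`ww_sep` is also needed for `WWT`)

`ww_sep`: if a threshold of `S'` separates `x` and `x' = flp x (inr (k, s))` and block `cls k` is not frozen
at `x`, `x'`, then `c'` lies between `Sc x` and `Sc x'`, `|Sc x - Sc x'| = μ |zz (st x) - zz (st x')| ≤ 60 μ m_k`
(`BlkOK.pert`; the other blocks do not change: `arr_loc`), so `|zz (st x) - θ'| ≤ 60 m_k` with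
`θ' = (c' - lam ∑_β a x - ∑_bl 2 w val) / μ`, which only depends on the coordinates outside the word.
`ww_I`: `β`, `δ`, blind pairs: at most `Q` coordinates; word: `combI` and `comb_theta` (`T` = pairs of the word), for fixed
non-pair coordinates (`wx_sum`); frozen states (before or after the flip): `4 card P * ε ≤ 4` (`froz`, `Eps.h3`).
-/

namespace BLO

open Finset BLP

/-- the threshold for the word -/
noncomputable def WW.thr {β δ P : Type*} [Fintype β] [DecidableEq β] [Fintype δ] [DecidableEq δ]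
    [Fintype P] [DecidableEq P] (W : WW β δ P) (c' : ℝ) (x : WX β δ P) : ℝ :=
  (c' - W.lam (dit x) * ∑ j : β, W.a (Sum.inl (Sum.inl j)) * sg (x (Sum.inl (Sum.inl j))) -
    ∑ k ∈ W.bl (dit x), 2 * W.w (dit x) k * (val (st x k) : ℝ)) / W.μ

/-- WWI: the value of the word changes by at most `60 m` -/
theorem wwi_zz {P : Type*} [Fintype P] [DecidableEq P] {F : Fam P} {jj : ℕ} {ε : ℝ}
    (hF : F.OK jj ε) (z z' : PS P) (k : P) (hk : F.cls k < F.K) (hz : ∀ j ≠ k, z' j = z j)
    (h1 : ¬ F.frz (F.cls k) z) (h2 : ¬ F.frz (F.cls k) z') :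
    |F.zz z' - F.zz z| ≤ 60 * F.m (F.cls k) := by
  have hp := (hF.blk (F.cls k) hk).pert z z' k rfl hz h1 h2
  have hg : F.cls k ∈ Ico 0 F.K := Finset.mem_Ico.mpr ⟨Nat.zero_le _, hk⟩
  have e : F.zz z' - F.zz z =
      ((F.ls z' (F.cls k) : ℤ) - 2 * F.ys z' (F.cls k)) - (F.ls z (F.cls k) - 2 * F.ys z (F.cls k)) := by
    unfold Fam.zz SZ
    rw [← Finset.sum_sub_distrib]
    refine Finset.sum_eq_single_of_mem (F.cls k) hg fun g _ hgk => ?_
    obtain ⟨a1, a2⟩ := Fam.arr_loc hF z z' g (fun j hj => (hz j (by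
      rintro rfl
      exact hgk hj.symm)).symm)
    rw [a1, a2]
    ring
  rw [e, Fam.ys_lt F z' hk, Fam.ls_lt F z' hk, Fam.ys_lt F z hk, Fam.ls_lt F z hk]
  obtain ⟨p1, p2⟩ := hp
  rw [abs_le] at p1 p2 ⊢
  constructor <;> omega

theorem ww_sep {β δ P : Type*} [Fintype β] [DecidableEq β] [Fintype δ] [DecidableEq δ]
    [Fintype P] [DecidableEq P] (W : WW β δ P) (R : ℝ) (jj : ℕ) (ε ε1 : ℝ) (hW : W.OK R jj ε ε1)
    (S' : WX β δ P → ℝ) (θ c' : ℝ)
    (hc : ∀ x y, θ < S' x → ¬ θ < S' y → W.Sc y ≤ c' ∧ c' ≤ W.Sc x) (x : WX β δ P) (k : P) (s : Bool)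
    (hk : (W.F (dit x)).cls k < (W.F (dit x)).K) :
    |ind (θ < S' x) - ind (θ < S' (flp x (Sum.inr (k, s))))| ≤
      ind (|((W.F (dit x)).zz (st x) : ℝ) - W.thr c' x| ≤ 60 * (W.F (dit x)).m ((W.F (dit x)).cls k)) +
      ind ((W.F (dit x)).frz ((W.F (dit x)).cls k) (st x)) +
      ind ((W.F (dit x)).frz ((W.F (dit x)).cls k) (st (flp x (Sum.inr (k, s))))) := by
  have n1 := ind_nonneg (|((W.F (dit x)).zz (st x) : ℝ) - W.thr c' x| ≤
    60 * (W.F (dit x)).m ((W.F (dit x)).cls k))
  have n2 := ind_nonneg ((W.F (dit x)).frz ((W.F (dit x)).cls k) (st x))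
  have n3 := ind_nonneg ((W.F (dit x)).frz ((W.F (dit x)).cls k) (st (flp x (Sum.inr (k, s)))))
  have hle : |ind (θ < S' x) - ind (θ < S' (flp x (Sum.inr (k, s))))| ≤ 1 := by
    have a1 := ind_nonneg (θ < S' x)
    have a2 := ind_le_one (θ < S' x)
    have a3 := ind_nonneg (θ < S' (flp x (Sum.inr (k, s))))
    have a4 := ind_le_one (θ < S' (flp x (Sum.inr (k, s))))
    rw [abs_le]
    constructor <;> linarith
  by_cases f1 : (W.F (dit x)).frz ((W.F (dit x)).cls k) (st x)
  · rw [ind_true f1]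
    linarith
  by_cases f2 : (W.F (dit x)).frz ((W.F (dit x)).cls k) (st (flp x (Sum.inr (k, s))))
  · rw [ind_true f2]
    linarith
  by_cases hs : (θ < S' x ↔ θ < S' (flp x (Sum.inr (k, s))))
  · rw [ind_congr hs, sub_self, abs_zero]
    linarith
  -- the word separates
  have hst := st_flp_inr x k s
  have hz : ∀ j ≠ k, st (flp x (Sum.inr (k, s))) j = st x j := by
    intro j hj
    rw [hst, Function.update_of_ne hj]
  have hdit := dit_flp_inr x (k, s)
  have hzz := wwi_zz (hW.hF (dit x)) (st x) (st (flp x (Sum.inr (k, s)))) k hk hz f1 f2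
  have hμ := hW.hμ.1
  -- the rest of `Sc`
  have hSc : ∀ y : WX β δ P, dit y = dit x → (∀ j, y (Sum.inl (Sum.inl j)) = x (Sum.inl (Sum.inl j))) →
      (∀ j ≠ k, st y j = st x j) →
      W.Sc y = c' + W.μ * (((W.F (dit x)).zz (st y) : ℝ) - W.thr c' x) := by
    intro y h1 h2 h3
    unfold WW.Sc WW.thr
    rw [h1]
    have e1 : ∑ j : β, W.a (Sum.inl (Sum.inl j)) * sg (y (Sum.inl (Sum.inl j))) =
        ∑ j : β, W.a (Sum.inl (Sum.inl j)) * sg (x (Sum.inl (Sum.inl j))) :=
      Finset.sum_congr rfl fun j _ => by rw [h2]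
    have e2 : ∑ j ∈ W.bl (dit x), 2 * W.w (dit x) j * (val (st y j) : ℝ) =
        ∑ j ∈ W.bl (dit x), 2 * W.w (dit x) j * (val (st x j) : ℝ) := by
      refine Finset.sum_congr rfl fun j hj => ?_
      have hjk : j ≠ k := by
        rintro rfl
        rw [WW.bl, Finset.mem_filter] at hj
        omega
      rw [h3 j hjk]
    rw [e1, e2]
    field_simp
    ring
  have hx := hSc x rfl (fun _ => rfl) (fun _ _ => rfl)
  have hx' := hSc (flp x (Sum.inr (k, s))) hdit (fun j => flp_ne _ (by simp)) hz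
  have hcast : |((W.F (dit x)).zz (st (flp x (Sum.inr (k, s)))) : ℝ) - (W.F (dit x)).zz (st x)| ≤
      60 * (W.F (dit x)).m ((W.F (dit x)).cls k) := by
    exact_mod_cast hzz
  have hgoal : |((W.F (dit x)).zz (st x) : ℝ) - W.thr c' x| ≤
      60 * (W.F (dit x)).m ((W.F (dit x)).cls k) := by
    rw [abs_le] at hcast
    by_cases h1 : θ < S' x
    · have h2 : ¬ θ < S' (flp x (Sum.inr (k, s))) := fun h2 => hs ⟨fun _ => h2, fun _ => h1⟩
      obtain ⟨c1, c2⟩ := hc _ _ h1 h2
      rw [hx'] at c1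
      rw [hx] at c2
      have d1 : ((W.F (dit x)).zz (st (flp x (Sum.inr (k, s)))) : ℝ) - W.thr c' x ≤ 0 := by
        by_contra hcon
        push Not at hcon
        have := mul_pos hμ hcon
        linarith
      have d2 : 0 ≤ ((W.F (dit x)).zz (st x) : ℝ) - W.thr c' x := by
        by_contra hcon
        push Not at hcon
        have := mul_neg_of_pos_of_neg hμ hcon
        linarith
      rw [abs_of_nonneg d2]
      linarith [hcast.1]
    · have h2 : θ < S' (flp x (Sum.inr (k, s))) := by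
        by_contra h2
        exact hs ⟨fun h => absurd h h1, fun h => absurd h h2⟩
      obtain ⟨c1, c2⟩ := hc _ _ h2 h1
      rw [hx] at c1
      rw [hx'] at c2
      have d1 : 0 ≤ ((W.F (dit x)).zz (st (flp x (Sum.inr (k, s)))) : ℝ) - W.thr c' x := by
        by_contra hcon
        push Not at hcon
        have := mul_neg_of_pos_of_neg hμ hcon
        linarith
      have d2 : ((W.F (dit x)).zz (st x) : ℝ) - W.thr c' x ≤ 0 := by
        by_contra hcon
        push Not at hcon
        have := mul_pos hμ hcon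
        linarith
      rw [abs_of_nonpos d2]
      linarith [hcast.2]
  rw [ind_true hgoal]
  linarith

/-- WWI: frozen states of one family -/
theorem wwi_froz {P : Type*} [Fintype P] [DecidableEq P] {F : Fam P} {jj : ℕ} {ε : ℝ}
    (hF : F.OK jj ε) (k : P) (hk : F.cls k < F.K) :
    ∑ z : PS P, ind (F.frz (F.cls k) z) ≤ ε * 4 ^ Fintype.card P := by
  have h := ccnt_mono (Finset.subset_univ (F.blk (F.cls k))) (F.frz (F.cls k)) ε (fun x => by
    have := (hF.blk (F.cls k) hk).froz x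
    have e : (Fintype.card (Bool × Bool) : ℝ) = 4 := by
      rw [Fintype.card_prod, Fintype.card_bool]
      norm_num
    rw [e]
    exact this) (fun _ => (true, true))
  rw [ccnt_univ] at h
  have e : (Fintype.card (Bool × Bool) : ℝ) = 4 := by
    rw [Fintype.card_prod, Fintype.card_bool]
    norm_num
  rw [e, Finset.card_univ] at h
  exact h

/-- WWI: the flip of a pair is a bijection -/
theorem wwi_flip {P : Type*} [Fintype P] [DecidableEq P] (k : P) (s : Bool) (f : PS P → ℝ) :
    ∑ z : PS P, f (Function.update z k (flst s (z k))) = ∑ z : PS P, f z := by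
  let e : Equiv.Perm (PS P) :=
    { toFun := fun z => Function.update z k (flst s (z k))
      invFun := fun z => Function.update z k (flst s (z k))
      left_inv := fun z => by
        funext j
        by_cases hj : j = k
        · subst hj
          simp [flst_flst]
        · simp [Function.update_of_ne hj]
      right_inv := fun z => by
        funext j
        by_cases hj : j = k
        · subst hj
          simp [flst_flst]
        · simp [Function.update_of_ne hj] }
  exact Equiv.sum_comp e f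

/-- frozen states -/
theorem ww_frz2 {β δ P : Type*} [Fintype β] [DecidableEq β] [Fintype δ] [DecidableEq δ]
    [Fintype P] [DecidableEq P] (W : WW β δ P) (R : ℝ) (jj : ℕ) (ε ε1 : ℝ) (hW : W.OK R jj ε ε1)
    (hε : (Fintype.card P : ℝ) * ε ≤ 1) :
    ∑ x : WX β δ P, ∑ k ∈ (W.F (dit x)).seg 0 (W.F (dit x)).K, ∑ s : Bool,
      (ind ((W.F (dit x)).frz ((W.F (dit x)).cls k) (st x)) +
      ind ((W.F (dit x)).frz ((W.F (dit x)).cls k) (st (flp x (Sum.inr (k, s)))))) ≤
      4 * 2 ^ Fintype.card (WC β δ P) := by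
  rw [wx_sum]
  have key : ∀ y : β ⊕ δ → Bool, ∑ z : PS P,
      ∑ k ∈ (W.F (dit (mkx (Sum.elim y fun _ => false) z : WX β δ P))).seg 0
        (W.F (dit (mkx (Sum.elim y fun _ => false) z : WX β δ P))).K, ∑ s : Bool,
      (ind ((W.F (dit (mkx (Sum.elim y fun _ => false) z : WX β δ P))).frz
        ((W.F (dit (mkx (Sum.elim y fun _ => false) z : WX β δ P))).cls k)
        (st (mkx (Sum.elim y fun _ => false) z : WX β δ P))) +
      ind ((W.F (dit (mkx (Sum.elim y fun _ => false) z : WX β δ P))).frz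
        ((W.F (dit (mkx (Sum.elim y fun _ => false) z : WX β δ P))).cls k)
        (st (flp (mkx (Sum.elim y fun _ => false) z : WX β δ P) (Sum.inr (k, s)))))) ≤
      4 * 4 ^ Fintype.card P := by
    intro y
    obtain ⟨u, hu⟩ : ∃ u : δ → Bool, u = fun j => y (Sum.inr j) := ⟨_, rfl⟩
    simp only [dit_elim, st_flp_inr, st_mkx]
    rw [← hu, Finset.sum_comm]
    have hF := hW.hF u
    have h1 : ∀ k ∈ (W.F u).seg 0 (W.F u).K, ∑ z : PS P, ∑ s : Bool,
        (ind ((W.F u).frz ((W.F u).cls k) z) +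
          ind ((W.F u).frz ((W.F u).cls k) (Function.update z k (flst s (z k))))) ≤
        4 * (ε * 4 ^ Fintype.card P) := by
      intro k hk
      rw [Fam.seg, Finset.mem_filter] at hk
      have h2 := wwi_froz hF k hk.2.2
      rw [Finset.sum_comm]
      have h3 : ∀ s : Bool, ∑ z : PS P, (ind ((W.F u).frz ((W.F u).cls k) z) +
          ind ((W.F u).frz ((W.F u).cls k) (Function.update z k (flst s (z k))))) ≤
          2 * (ε * 4 ^ Fintype.card P) := by
        intro s
        rw [Finset.sum_add_distrib, wwi_flip k s (fun z => ind ((W.F u).frz ((W.F u).cls k) z))]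
        linarith
      refine (Finset.sum_le_sum fun s _ => h3 s).trans ?_
      rw [Finset.sum_const, Finset.card_univ, Fintype.card_bool, nsmul_eq_mul]
      push_cast
      linarith
    refine (Finset.sum_le_sum h1).trans ?_
    rw [Finset.sum_const, nsmul_eq_mul]
    have hcard : (((W.F u).seg 0 (W.F u).K).card : ℝ) ≤ Fintype.card P := by
      exact_mod_cast Finset.card_le_univ _
    have h4 : (0 : ℝ) ≤ 4 ^ Fintype.card P := by positivity
    have hε0 : 0 ≤ ε := hF.hε
    have h5 : (((W.F u).seg 0 (W.F u).K).card : ℝ) * ε ≤ 1 :=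
      (mul_le_mul_of_nonneg_right hcard hε0).trans hε
    have h6 := mul_le_mul_of_nonneg_right h5 h4
    calc (((W.F u).seg 0 (W.F u).K).card : ℝ) * (4 * (ε * 4 ^ Fintype.card P))
        = 4 * ((((W.F u).seg 0 (W.F u).K).card : ℝ) * ε * 4 ^ Fintype.card P) := by ring
      _ ≤ 4 * (1 * 4 ^ Fintype.card P) := by linarith
      _ = 4 * 4 ^ Fintype.card P := by ring
  refine (Finset.sum_le_sum fun y _ => key y).trans ?_
  rw [Finset.sum_const, Finset.card_univ, Fintype.card_fun, Fintype.card_bool, nsmul_eq_mul, wx_pow]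
  push_cast
  apply le_of_eq
  ring

theorem ww_I (C : ℝ) : ∃ C1 : ℝ, 0 < C1 ∧ ∀ (β δ P : Type) [Fintype β] [DecidableEq β]
    [Fintype δ] [DecidableEq δ] [Fintype P] [DecidableEq P] (W : WW β δ P) (R : ℝ) (jj : ℕ)
    (ε ε1 Q : ℝ), W.OK R jj ε ε1 → W.Est C ε Q → ∀ (S' : WX β δ P → ℝ) (θ c' : ℝ),
    (∀ x y, θ < S' x → ¬ θ < S' y → W.Sc y ≤ c' ∧ c' ≤ W.Sc x) →
    ∑ x, ∑ i, |ind (θ < S' x) - ind (θ < S' (flp x i))| ≤
      C1 * (Q + Real.sqrt (Fintype.card (WC β δ P)) + 1) * 2 ^ Fintype.card (WC β δ P) := by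
  obtain ⟨C2, hC2, hI⟩ := combI C
  refine ⟨2 * C2 + 4, by linarith, ?_⟩
  intro β δ P _ _ _ _ _ _ W R jj ε ε1 Q hW hE S' θ c' hc
  have hle1 : ∀ x y : WX β δ P, |ind (θ < S' x) - ind (θ < S' y)| ≤ 1 := by
    intro x y
    have a1 := ind_nonneg (θ < S' x)
    have a2 := ind_le_one (θ < S' x)
    have a3 := ind_nonneg (θ < S' y)
    have a4 := ind_le_one (θ < S' y)
    rw [abs_le]
    constructor <;> linarith
  -- the word
  have hword : ∑ x : WX β δ P, ∑ k ∈ (W.F (dit x)).seg 0 (W.F (dit x)).K,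
      ind (|((W.F (dit x)).zz (st x) : ℝ) - W.thr c' x| ≤
        60 * (W.F (dit x)).m ((W.F (dit x)).cls k)) ≤
      C2 * Real.sqrt (Fintype.card (WC β δ P)) * 2 ^ Fintype.card (WC β δ P) := by
    rw [wx_sum]
    have key : ∀ y : β ⊕ δ → Bool, ∑ z : PS P,
        ∑ k ∈ (W.F (dit (mkx (Sum.elim y fun _ => false) z : WX β δ P))).seg 0
          (W.F (dit (mkx (Sum.elim y fun _ => false) z : WX β δ P))).K,
        ind (|((W.F (dit (mkx (Sum.elim y fun _ => false) z : WX β δ P))).zz
          (st (mkx (Sum.elim y fun _ => false) z : WX β δ P)) : ℝ) -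
          W.thr c' (mkx (Sum.elim y fun _ => false) z : WX β δ P)| ≤
          60 * (W.F (dit (mkx (Sum.elim y fun _ => false) z : WX β δ P))).m
            ((W.F (dit (mkx (Sum.elim y fun _ => false) z : WX β δ P))).cls k)) ≤
        C2 * Real.sqrt (Fintype.card (WC β δ P)) * 4 ^ Fintype.card P := by
      intro y
      obtain ⟨u, hu⟩ : ∃ u : δ → Bool, u = fun j => y (Sum.inr j) := ⟨_, rfl⟩
      simp only [dit_elim, st_mkx]
      rw [← hu]
      have hF := hW.hF u
      have h1 : ∑ z : PS P, ∑ k ∈ (W.F u).seg 0 (W.F u).K,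
          ind (|((W.F u).zz z : ℝ) - W.thr c' (mkx (Sum.elim y fun _ => false) z : WX β δ P)| ≤
            60 * (W.F u).m ((W.F u).cls k)) ≤
          C2 * Real.sqrt (NN (W.F u).nr (W.F u).K) * 4 ^ Fintype.card P := by
        refine comb_theta ((W.F u).seg 0 (W.F u).K)
          (fun z t => ∑ k ∈ (W.F u).seg 0 (W.F u).K,
            ind (|((W.F u).zz z : ℝ) - t| ≤ 60 * (W.F u).m ((W.F u).cls k))) ?_
          (fun z => W.thr c' (mkx (Sum.elim y fun _ => false) z : WX β δ P)) ?_ _ ?_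
        · intro z z' hzz' t
          obtain ⟨e, -⟩ := rev_congr hF z z' (fun k hk => hzz' k (by
            rw [Fam.seg, Finset.mem_filter]
            exact ⟨mem_univ _, Nat.zero_le _, hk⟩))
          simp only [e]
        · intro z z' hzz'
          unfold WW.thr
          simp only [dit_elim, st_mkx, mkx_inl]
          rw [← hu]
          congr 2
          refine Finset.sum_congr rfl fun k hk => ?_
          rw [hzz' k (by
            rw [WW.bl, Finset.mem_filter] at hk
            rw [Fam.seg, Finset.mem_filter]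
            rintro ⟨-, -, h3⟩
            omega)]
        · intro t
          exact hI P (W.F u) jj ε hF (hE.num u) (hE.eps u) t
      refine h1.trans ?_
      have h2 : Real.sqrt (NN (W.F u).nr (W.F u).K) ≤ Real.sqrt (Fintype.card (WC β δ P)) :=
        Real.sqrt_le_sqrt (ww_NN W u)
      have h3 : (0 : ℝ) ≤ 4 ^ Fintype.card P := by positivity
      exact mul_le_mul_of_nonneg_right (mul_le_mul_of_nonneg_left h2 hC2.le) h3
    refine (Finset.sum_le_sum fun y _ => key y).trans ?_
    rw [Finset.sum_const, Finset.card_univ, Fintype.card_fun, Fintype.card_bool, nsmul_eq_mul,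
      wx_pow]
    push_cast
    apply le_of_eq
    ring
  by_cases hne : Nonempty (δ → Bool)
  swap
  · exact absurd ⟨fun _ => true⟩ hne
  obtain ⟨u0⟩ := hne
  have hfr := ww_frz2 W R jj ε ε1 hW (hE.eps u0).h3
  -- pointwise bound
  have hpt : ∀ x : WX β δ P, ∑ i, |ind (θ < S' x) - ind (θ < S' (flp x i))| ≤
      Q + 2 * ∑ k ∈ (W.F (dit x)).seg 0 (W.F (dit x)).K,
        ind (|((W.F (dit x)).zz (st x) : ℝ) - W.thr c' x| ≤
          60 * (W.F (dit x)).m ((W.F (dit x)).cls k)) +
      ∑ k ∈ (W.F (dit x)).seg 0 (W.F (dit x)).K, ∑ s : Bool,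
        (ind ((W.F (dit x)).frz ((W.F (dit x)).cls k) (st x)) +
        ind ((W.F (dit x)).frz ((W.F (dit x)).cls k) (st (flp x (Sum.inr (k, s)))))) := by
    intro x
    rw [Fintype.sum_sum_type, Fintype.sum_prod_type]
    have e1 : ∑ i : β ⊕ δ, |ind (θ < S' x) - ind (θ < S' (flp x (Sum.inl i)))| ≤
        (Fintype.card β : ℝ) + Fintype.card δ := by
      refine (Finset.sum_le_sum fun i _ => hle1 x (flp x (Sum.inl i))).trans (le_of_eq ?_)
      rw [Finset.sum_const, Finset.card_univ, nsmul_eq_mul, mul_one, Fintype.card_sum]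
      push_cast
      rfl
    have e2 : ∑ k : P, ∑ s : Bool, |ind (θ < S' x) - ind (θ < S' (flp x (Sum.inr (k, s))))| =
        ∑ k ∈ W.bl (dit x), ∑ s : Bool,
          |ind (θ < S' x) - ind (θ < S' (flp x (Sum.inr (k, s))))| +
        ∑ k ∈ (W.F (dit x)).seg 0 (W.F (dit x)).K, ∑ s : Bool,
          |ind (θ < S' x) - ind (θ < S' (flp x (Sum.inr (k, s))))| := by
      rw [← Finset.sum_filter_add_sum_filter_not univ
        (fun k => (W.F (dit x)).K ≤ (W.F (dit x)).cls k)]
      congr 1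
      refine Finset.sum_congr ?_ fun _ _ => rfl
      ext k
      simp only [Fam.seg, Finset.mem_filter, Finset.mem_univ, true_and]
      omega
    have e3 : ∑ k ∈ W.bl (dit x), ∑ s : Bool,
        |ind (θ < S' x) - ind (θ < S' (flp x (Sum.inr (k, s))))| ≤ 2 * ((W.bl (dit x)).card : ℝ) := by
      refine (Finset.sum_le_sum fun k _ => Finset.sum_le_sum fun s _ =>
        hle1 x (flp x (Sum.inr (k, s)))).trans (le_of_eq ?_)
      simp only [Finset.sum_const, Finset.card_univ, Fintype.card_bool, nsmul_eq_mul]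
      push_cast
      ring
    have e4 : ∑ k ∈ (W.F (dit x)).seg 0 (W.F (dit x)).K, ∑ s : Bool,
          |ind (θ < S' x) - ind (θ < S' (flp x (Sum.inr (k, s))))| ≤
        2 * ∑ k ∈ (W.F (dit x)).seg 0 (W.F (dit x)).K,
          ind (|((W.F (dit x)).zz (st x) : ℝ) - W.thr c' x| ≤
            60 * (W.F (dit x)).m ((W.F (dit x)).cls k)) +
        ∑ k ∈ (W.F (dit x)).seg 0 (W.F (dit x)).K, ∑ s : Bool,
          (ind ((W.F (dit x)).frz ((W.F (dit x)).cls k) (st x)) +
          ind ((W.F (dit x)).frz ((W.F (dit x)).cls k) (st (flp x (Sum.inr (k, s)))))) := by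
      rw [Finset.mul_sum, ← Finset.sum_add_distrib]
      refine Finset.sum_le_sum fun k hk => ?_
      rw [Fam.seg, Finset.mem_filter] at hk
      refine (Finset.sum_le_sum fun s _ => ww_sep W R jj ε ε1 hW S' θ c' hc x k s hk.2.2).trans
        (le_of_eq ?_)
      rw [Fintype.sum_bool, Fintype.sum_bool]
      ring
    have e5 := hE.hQ (dit x)
    rw [e2]
    linarith
  refine (Finset.sum_le_sum fun x _ => hpt x).trans ?_
  rw [Finset.sum_add_distrib, Finset.sum_add_distrib, Finset.sum_const, Finset.card_univ,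
    ← Finset.mul_sum, nsmul_eq_mul]
  have hcardx : ((Fintype.card (WX β δ P) : ℕ) : ℝ) = 2 ^ Fintype.card (WC β δ P) := by
    rw [Fintype.card_fun, Fintype.card_bool]
    push_cast
    rfl
  rw [hcardx]
  have hQ0 : 0 ≤ Q := le_trans (by positivity) (hE.hQ u0)
  have hs0 : 0 ≤ Real.sqrt (Fintype.card (WC β δ P)) := Real.sqrt_nonneg _
  obtain ⟨p, hp⟩ : ∃ p : ℝ, p = 2 ^ Fintype.card (WC β δ P) := ⟨_, rfl⟩
  obtain ⟨t, ht⟩ : ∃ t : ℝ, t = Real.sqrt (Fintype.card (WC β δ P)) := ⟨_, rfl⟩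
  have hp0 : 0 ≤ p := by
    rw [hp]
    positivity
  rw [← hp] at hfr hword ⊢
  rw [← ht] at hword hs0 ⊢
  have m1 : 0 ≤ Q * p := mul_nonneg hQ0 hp0
  have m2 : 0 ≤ t * p := mul_nonneg hs0 hp0
  have m3 : 0 ≤ C2 * (Q * p) := mul_nonneg hC2.le m1
  have m4 : 0 ≤ C2 * p := mul_nonneg hC2.le hp0
  nlinarith [hfr, hword, m1, m2, m3, m4, hp0]

end BLO
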