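import Pool.Agent.Lib.BLO.WXFacts

/-!
# Chunk WO: the abstract window data of a window with words (`WOK`)

`set_good`, `set_other`: `BlkOK.setn_spec` and `BlkOK.loc` (`setn g` only changes the pairs of block `g`);
`neu`: `BlkOK.neutral`; `set_dist`: `pd ≤ jj`, `wx_dist`; blocks `g ≥ (F u).K`: `m = 1`, `nu = 0`.
`ww_frz`: `BlkOK.froz`, `ccnt`, union bound.
-/

namespace BLO

open Finset BLP

variable {β δ P : Type*} [Fintype β] [DecidableEq β] [Fintype δ] [DecidableEq δ]
  [Fintype P] [DecidableEq P]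

section
variable {β δ P : Type*}

theorem WO_m_lt (W : WW β δ P) (g : ℕ) (u : δ → Bool) (h : g < (W.F u).K) :
    W.data.m g u = (W.F u).m g := if_pos h

theorem WO_m_ge (W : WW β δ P) (g : ℕ) (u : δ → Bool) (h : ¬ g < (W.F u).K) :
    W.data.m g u = 1 := if_neg h

theorem WO_nu_lt (W : WW β δ P) (g : ℕ) (x : WX β δ P) (h : g < (W.F (dit x)).K) :
    W.data.nu g x = (W.F (dit x)).nu g (st x) := if_pos h

theorem WO_nu_ge (W : WW β δ P) (g : ℕ) (x : WX β δ P) (h : ¬ g < (W.F (dit x)).K) :
    W.data.nu g x = 0 := if_neg h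

theorem WO_set_lt (W : WW β δ P) (g : ℕ) (x : WX β δ P) (t : ℕ) (h : g < (W.F (dit x)).K) :
    W.data.set g x t = mkx x ((W.F (dit x)).setn g t (st x)) := if_pos h

theorem WO_set_ge (W : WW β δ P) (g : ℕ) (x : WX β δ P) (t : ℕ) (h : ¬ g < (W.F (dit x)).K) :
    W.data.set g x t = x := if_neg h

theorem WO_good_lt (W : WW β δ P) (g : ℕ) (x : WX β δ P) (h : g < (W.F (dit x)).K) :
    W.data.good g x ↔ ¬ (W.F (dit x)).frz g (st x) :=
  ⟨fun h' => h' h, fun h' _ => h'⟩

theorem WO_good_ge (W : WW β δ P) (g : ℕ) (x : WX β δ P) (h : ¬ g < (W.F (dit x)).K) :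
    W.data.good g x := fun h' => absurd h' h

end

omit [DecidableEq P] in
theorem WO_pd_comm (z z' : PS P) : Fam.pd z z' = Fam.pd z' z := by
  unfold Fam.pd
  congr 1
  ext k
  simp [ne_comm]

omit [Fintype β] [DecidableEq β] [Fintype δ] [DecidableEq δ] [Fintype P] [DecidableEq P] in
/-- the point after the resampling has the same dither and the states `setn` -/
theorem WO_dit_set (W : WW β δ P) (g : ℕ) (x : WX β δ P) (t : ℕ) :
    dit (W.data.set g x t) = dit x := by
  by_cases h : g < (W.F (dit x)).K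
  · rw [WO_set_lt W g x t h, dit_mkx]
  · rw [WO_set_ge W g x t h]

omit [Fintype β] [DecidableEq β] [Fintype δ] [DecidableEq δ] [Fintype P] [DecidableEq P] in
theorem WO_st_set (W : WW β δ P) (g : ℕ) (x : WX β δ P) (t : ℕ) (h : g < (W.F (dit x)).K) :
    st (W.data.set g x t) = (W.F (dit x)).setn g t (st x) := by
  rw [WO_set_lt W g x t h, st_mkx]

theorem ww_wok (W : WW β δ P) (R : ℝ) (jj : ℕ) (ε ε1 : ℝ) (hW : W.OK R jj ε ε1) :
    WOK W.data R (2 * jj) ε1 := by
  have hblk : ∀ (x : WX β δ P) (g : ℕ), g < (W.F (dit x)).K →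
      (W.F (dit x)).BlkOK jj ε g := fun x g hg => (hW.hF (dit x)).blk g hg
  have hspec : ∀ (g : ℕ) (x : WX β δ P), g < (W.F (dit x)).K → W.data.good g x →
      ∀ t < W.data.m g (dit x), _ := fun g x hg hx t ht =>
    (hblk x g hg).setn_spec t (by rwa [WO_m_lt W g (dit x) hg] at ht) (st x)
      ((WO_good_lt W g x hg).1 hx)
  refine
    { R1 := hW.R1
      hB := hW.hB
      hP := hW.hP
      hd := hW.hd
      hμ := hW.hμ
      hw := hW.hw
      hmean := hW.hmean
      hlam := hW.hlam
      hvar := hW.hvar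
      hm := ?_
      nu_lt := ?_
      set_good := ?_
      set_self := ?_
      set_other := ?_
      set_inl := ?_
      set_st := ?_
      set_dist := ?_
      neu := ?_ }
  · intro g _ u
    by_cases h : g < (W.F u).K
    · rw [WO_m_lt W g u h]
      exact ⟨((hW.hF u).blk g h).m_pos, hW.hm u g h⟩
    · rw [WO_m_ge W g u h]
      refine ⟨one_pos, ?_⟩
      have h1 := hW.hμ.2
      have h2 := hW.R1
      show W.μ * ((1 : ℕ) : ℝ) ≤ 4 * R
      push_cast
      linarith
  · intro g _ x hx
    by_cases h : g < (W.F (dit x)).K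
    · rw [WO_m_lt W g _ h, WO_nu_lt W g x h]
      exact (hblk x g h).nu_lt (st x) ((WO_good_lt W g x h).1 hx)
    · rw [WO_m_ge W g _ h, WO_nu_ge W g x h]
      exact one_pos
  · intro g _ x hx t ht
    by_cases h : g < (W.F (dit x)).K
    · obtain ⟨s1, s2, s3, s4, s5, s6, s7, s8⟩ := hspec g x h hx t ht
      have hd := WO_dit_set W g x t
      have h' : g < (W.F (dit (W.data.set g x t))).K := by rw [hd]; exact h
      refine ⟨?_, ?_, ?_⟩
      · rw [WO_good_lt W g _ h', hd, WO_st_set W g x t h]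
        exact s1
      · rw [WO_nu_lt W g _ h', hd, WO_st_set W g x t h]
        exact s2
      · intro t' ht'
        rw [WO_m_lt W g _ h] at ht'
        rw [WO_set_lt W g _ t' h', hd, WO_st_set W g x t h, WO_set_lt W g x t h, mkx_mkx,
          s7 t' ht', WO_set_lt W g x t' h]
    · rw [WO_m_ge W g _ h] at ht
      rw [WO_set_ge W g x t h]
      refine ⟨WO_good_ge W g x h, ?_, ?_⟩
      · rw [WO_nu_ge W g x h]
        omega
      · intro t' _
        rfl
  · intro g _ x hx
    by_cases h : g < (W.F (dit x)).K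
    · have h0 : W.data.nu g x < W.data.m g (dit x) := by
        rw [WO_m_lt W g _ h, WO_nu_lt W g x h]
        exact (hblk x g h).nu_lt (st x) ((WO_good_lt W g x h).1 hx)
      obtain ⟨s1, s2, s3, s4, s5, s6, s7, s8⟩ := hspec g x h hx _ h0
      rw [WO_set_lt W g x _ h, WO_nu_lt W g x h, s8, mkx_st]
    · rw [WO_set_ge W g x _ h]
  · intro g _ x hx t ht g' _ hne
    by_cases h : g < (W.F (dit x)).K
    · obtain ⟨s1, s2, s3, s4, s5, s6, s7, s8⟩ := hspec g x h hx t ht
      have hd := WO_dit_set W g x t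
      by_cases h2 : g' < (W.F (dit x)).K
      · have h2' : g' < (W.F (dit (W.data.set g x t))).K := by rw [hd]; exact h2
        obtain ⟨l1, l2, l3, l4, l5⟩ := (hblk x g' h2).loc ((W.F (dit x)).setn g t (st x)) (st x)
          (fun k hk => s3 k (by rw [hk]; exact hne))
        rw [WO_good_lt W g' _ h2', hd, WO_st_set W g x t h, WO_good_lt W g' x h2,
          WO_nu_lt W g' _ h2', hd, WO_st_set W g x t h, WO_nu_lt W g' x h2]
        exact ⟨not_congr l3, l4⟩
      · have h2' : ¬ g' < (W.F (dit (W.data.set g x t))).K := by rw [hd]; exact h2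
        rw [WO_nu_ge W g' _ h2', WO_nu_ge W g' x h2]
        exact ⟨⟨fun _ => WO_good_ge W g' x h2, fun _ => WO_good_ge W g' _ h2'⟩, rfl⟩
    · rw [WO_set_ge W g x t h]
      exact ⟨Iff.rfl, rfl⟩
  · intro g _ x hx t ht i
    by_cases h : g < (W.F (dit x)).K
    · rw [WO_set_lt W g x t h, mkx_inl]
    · rw [WO_set_ge W g x t h]
  · intro g _ x hx t ht k
    by_cases h : g < (W.F (dit x)).K
    · obtain ⟨s1, s2, s3, s4, s5, s6, s7, s8⟩ := hspec g x h hx t ht
      rw [WO_st_set W g x t h]
      exact ⟨s4 k, s5 k⟩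
    · rw [WO_set_ge W g x t h]
      exact ⟨rfl, fun _ => rfl⟩
  · intro g _ x hx t ht
    by_cases h : g < (W.F (dit x)).K
    · obtain ⟨s1, s2, s3, s4, s5, s6, s7, s8⟩ := hspec g x h hx t ht
      have h1 := wx_dist x (W.data.set g x t)
      rw [WO_st_set W g x t h] at h1
      have h2 : (univ.filter fun i : β ⊕ δ => x (Sum.inl i) ≠ W.data.set g x t (Sum.inl i)) = ∅ := by
        rw [Finset.filter_eq_empty_iff]
        intro i _ h3
        apply h3
        rw [WO_set_lt W g x t h, mkx_inl]
      rw [h2, Finset.card_empty] at h1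
      have h3 := WO_pd_comm (st x) ((W.F (dit x)).setn g t (st x))
      omega
    · rw [WO_set_ge W g x t h, hammingDist_self]
      exact Nat.zero_le _
  · intro g _ x x' hd h1 h2
    by_cases h : g < (W.F (dit x)).K
    · have h' : g < (W.F (dit x')).K := by rw [← hd]; exact h
      obtain ⟨n1, n2⟩ := (hblk x g h).neutral (st x) (st x') (fun k _ => h1 k) (fun k _ => h2 k)
      rw [WO_good_lt W g x h, WO_good_lt W g x' h', WO_nu_lt W g x h, WO_nu_lt W g x' h', ← hd]
      exact ⟨not_congr n1, n2⟩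
    · have h' : ¬ g < (W.F (dit x')).K := by rw [← hd]; exact h
      rw [WO_nu_ge W g x h, WO_nu_ge W g x' h']
      exact ⟨⟨fun _ => WO_good_ge W g x' h', fun _ => WO_good_ge W g x h⟩, rfl⟩

/-- frozen states of one block -/
theorem WO_frz_sum {F : Fam P} {jj : ℕ} {ε : ℝ} {g : ℕ} (hF : F.BlkOK jj ε g) :
    ∑ z : PS P, ind (F.frz g z) ≤ ε * 4 ^ Fintype.card P := by
  have h1 := ccnt_mono (S := F.blk g) (T := univ) (Finset.subset_univ _) (F.frz g) ε
    (fun x => by
      have := hF.froz x
      simpa [Fam.siz] using this) (fun _ => (false, false))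
  rw [ccnt_univ] at h1
  simpa using h1

theorem ww_frz (W : WW β δ P) (R : ℝ) (jj : ℕ) (ε ε1 : ℝ) (hW : W.OK R jj ε ε1) :
    ∑ x, ind (¬ W.data.ok x) ≤ W.K * ε * 2 ^ Fintype.card (WC β δ P) := by
  have hpt : ∀ x : WX β δ P, ind (¬ W.data.ok x) ≤
      ∑ g ∈ range W.K, (if g < (W.F (dit x)).K then ind ((W.F (dit x)).frz g (st x)) else 0) := by
    intro x
    have hnn : ∀ g ∈ range W.K,
        (0 : ℝ) ≤ (if g < (W.F (dit x)).K then ind ((W.F (dit x)).frz g (st x)) else 0) := by
      intro g _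
      split_ifs
      · exact ind_nonneg _
      · exact le_rfl
    by_cases h : W.data.ok x
    · rw [ind_false (not_not.2 h)]
      exact Finset.sum_nonneg hnn
    · rw [ind_true h]
      unfold WData.ok at h
      push Not at h
      obtain ⟨g, hg, hgood⟩ := h
      have hgK : g < (W.F (dit x)).K := by
        by_contra h1
        exact hgood (WO_good_ge W g x h1)
      have hfr : (W.F (dit x)).frz g (st x) := by
        by_contra h1
        exact hgood ((WO_good_lt W g x hgK).2 h1)
      have h1 := Finset.single_le_sum hnn (Finset.mem_range.2 hg)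
      rw [if_pos hgK, ind_true hfr] at h1
      exact h1
  refine (Finset.sum_le_sum fun x _ => hpt x).trans ?_
  rw [wx_sum]
  have hfix : ∀ y : β ⊕ δ → Bool, ∑ z : PS P, ∑ g ∈ range W.K,
      (if g < (W.F (dit (mkx (Sum.elim y fun _ => false) z))).K then
        ind ((W.F (dit (mkx (Sum.elim y fun _ => false) z))).frz g
          (st (mkx (Sum.elim y fun _ => false) z))) else 0) ≤
      W.K * ε * 4 ^ Fintype.card P := by
    intro y
    have hε : 0 ≤ ε := (hW.hF fun j => y (Sum.inr j)).hε
    rw [Finset.sum_comm]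
    calc ∑ g ∈ range W.K, ∑ z : PS P,
      (if g < (W.F (dit (mkx (Sum.elim y fun _ => false) z))).K then
        ind ((W.F (dit (mkx (Sum.elim y fun _ => false) z))).frz g
          (st (mkx (Sum.elim y fun _ => false) z))) else 0)
        ≤ ∑ g ∈ range W.K, ε * 4 ^ Fintype.card P := by
          refine Finset.sum_le_sum fun g _ => ?_
          by_cases hg : g < (W.F fun j => y (Sum.inr j)).K
          · refine le_trans (le_of_eq ?_) (WO_frz_sum ((hW.hF fun j => y (Sum.inr j)).blk g hg))
            refine Finset.sum_congr rfl fun z _ => ?_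
            rw [dit_elim, st_mkx, if_pos hg]
          · refine le_trans (le_of_eq ?_) (show (0 : ℝ) ≤ ε * 4 ^ Fintype.card P by positivity)
            refine Finset.sum_eq_zero fun z _ => ?_
            rw [dit_elim, if_neg hg]
      _ = W.K * ε * 4 ^ Fintype.card P := by
          rw [Finset.sum_const, Finset.card_range, nsmul_eq_mul]
          ring
  refine (Finset.sum_le_sum fun y _ => hfix y).trans ?_
  rw [Finset.sum_const, Finset.card_univ, nsmul_eq_mul, wx_pow]
  have e1 : (Fintype.card (β ⊕ δ → Bool) : ℝ) = 2 ^ Fintype.card (β ⊕ δ) := by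
    rw [Fintype.card_fun, Fintype.card_bool]
    push_cast
    rfl
  rw [e1]
  exact le_of_eq (by ring)

end BLO
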