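import Pool.Agent.Lib.BLO.WWI

/-!
# Chunk WWT: displacement near a threshold

Coordinates outside the word: at most `Q`, `ww_D`.  Word: `ww_sep`; `d(x, rho x) ≤ Q + 2 pd (st x) (rev (st x))` (`ww_dist`):
`combI` and `combT` with `comb_theta` (`T` = pairs of the word; `rev`, `zz` only depend on them: `rev_congr`; `pd` only
counts pairs of the word: `rev_off`); frozen states: `d ≤ card WC` and `ww_frz2`.
-/

namespace BLO

open Finset BLP

/-- the number of pairs moved by the reversal only depends on the pairs of the word -/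
theorem WWT_pd {P : Type*} [Fintype P] [DecidableEq P] {F : Fam P} {jj : ℕ} {ε : ℝ}
    (hF : F.OK jj ε) (z z' : PS P) (h : ∀ k, F.cls k < F.K → z k = z' k) :
    Fam.pd z (F.rev z) = Fam.pd z' (F.rev z') := by
  unfold Fam.pd
  congr 1
  refine Finset.filter_congr fun k _ => ?_
  by_cases hk : F.cls k < F.K
  · rw [h k hk, (rev_congr hF z z' h).2 k hk]
  · rw [Fam.rev_off z k (by omega), Fam.rev_off z' k (by omega)]
    simp

theorem WWT_seg {P : Type*} [Fintype P] [DecidableEq P] (F : Fam P) (k : P) :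
    k ∈ F.seg 0 F.K ↔ F.cls k < F.K := by
  unfold Fam.seg
  rw [mem_filter]
  constructor
  · intro h
    exact h.2.2
  · intro h
    exact ⟨mem_univ _, Nat.zero_le _, h⟩

/-- the threshold of the word only depends on the pairs outside the word -/
theorem WWT_thr {β δ P : Type*} [Fintype β] [DecidableEq β] [Fintype δ] [DecidableEq δ]
    [Fintype P] [DecidableEq P] (W : WW β δ P) (c' : ℝ) (x : WX β δ P) (z z' : PS P)
    (h : ∀ k, k ∉ (W.F (dit x)).seg 0 (W.F (dit x)).K → z k = z' k) :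
    W.thr c' (mkx x z) = W.thr c' (mkx x z') := by
  unfold WW.thr
  rw [dit_mkx, dit_mkx, st_mkx, st_mkx]
  have h1 : ∑ k ∈ W.bl (dit x), 2 * W.w (dit x) k * (val (z k) : ℝ) =
      ∑ k ∈ W.bl (dit x), 2 * W.w (dit x) k * (val (z' k) : ℝ) := by
    refine Finset.sum_congr rfl fun k hk => ?_
    unfold WW.bl at hk
    rw [mem_filter] at hk
    rw [h k (fun hc => by have := (WWT_seg _ k).mp hc; omega)]
  rw [h1]
  rfl

/-- the words: for fixed coordinates outside the pairs -/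
theorem WWT_word {β δ P : Type*} [Fintype β] [DecidableEq β] [Fintype δ] [DecidableEq δ]
    [Fintype P] [DecidableEq P] (W : WW β δ P) (jj : ℕ) (ε : ℝ) (hF : ∀ u, (W.F u).OK jj ε)
    (c' Q I T : ℝ) (hI : ∀ u t, ∑ x : PS P, ∑ k ∈ (W.F u).seg 0 (W.F u).K,
      ind (|((W.F u).zz x : ℝ) - t| ≤ 60 * (W.F u).m ((W.F u).cls k)) ≤ I * 4 ^ Fintype.card P)
    (hT : ∀ u t, ∑ x : PS P, ∑ k ∈ (W.F u).seg 0 (W.F u).K,
      ind (|((W.F u).zz x : ℝ) - t| ≤ 60 * (W.F u).m ((W.F u).cls k)) *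
        (Fam.pd x ((W.F u).rev x) : ℝ) ≤ T * 4 ^ Fintype.card P) (hQ : 0 ≤ Q) :
    ∑ x : WX β δ P, ∑ k ∈ (W.F (dit x)).seg 0 (W.F (dit x)).K,
      ind (|((W.F (dit x)).zz (st x) : ℝ) - W.thr c' x| ≤
        60 * (W.F (dit x)).m ((W.F (dit x)).cls k)) *
        (Q + 2 * (Fam.pd (st x) ((W.F (dit x)).rev (st x)) : ℝ)) ≤
      (Q * I + 2 * T) * 2 ^ Fintype.card (WC β δ P) := by
  rw [wx_sum, wx_pow]
  have key : ∀ y : β ⊕ δ → Bool, ∑ z : PS P,
      (∑ k ∈ (W.F (dit (mkx (Sum.elim y fun _ => false) z))).seg 0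
        (W.F (dit (mkx (Sum.elim y fun _ => false) z))).K,
      ind (|((W.F (dit (mkx (Sum.elim y fun _ => false) z))).zz
          (st (mkx (Sum.elim y fun _ => false) z)) : ℝ) -
          W.thr c' (mkx (Sum.elim y fun _ => false) z)| ≤
        60 * (W.F (dit (mkx (Sum.elim y fun _ => false) z))).m
          ((W.F (dit (mkx (Sum.elim y fun _ => false) z))).cls k)) *
        (Q + 2 * (Fam.pd (st (mkx (Sum.elim y fun _ => false) z))
          ((W.F (dit (mkx (Sum.elim y fun _ => false) z))).rev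
            (st (mkx (Sum.elim y fun _ => false) z))) : ℝ))) ≤
      (Q * I + 2 * T) * 4 ^ Fintype.card P := by
    intro y
    set x0 : WX β δ P := Sum.elim y fun _ => false with hx0
    set F := W.F (dit x0) with hFd
    have hok : F.OK jj ε := hF _
    have e1 : ∀ z : PS P, (∑ k ∈ (W.F (dit (mkx x0 z))).seg 0 (W.F (dit (mkx x0 z))).K,
        ind (|((W.F (dit (mkx x0 z))).zz (st (mkx x0 z)) : ℝ) - W.thr c' (mkx x0 z)| ≤
          60 * (W.F (dit (mkx x0 z))).m ((W.F (dit (mkx x0 z))).cls k)) *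
        (Q + 2 * (Fam.pd (st (mkx x0 z)) ((W.F (dit (mkx x0 z))).rev (st (mkx x0 z))) : ℝ))) =
        ∑ k ∈ F.seg 0 F.K, ind (|(F.zz z : ℝ) - W.thr c' (mkx x0 z)| ≤ 60 * F.m (F.cls k)) *
          (Q + 2 * (Fam.pd z (F.rev z) : ℝ)) := by
      intro z
      rw [st_mkx, dit_mkx]
    rw [Finset.sum_congr rfl fun z _ => e1 z]
    refine comb_theta (F.seg 0 F.K) (fun z t => ∑ k ∈ F.seg 0 F.K,
      ind (|(F.zz z : ℝ) - t| ≤ 60 * F.m (F.cls k)) * (Q + 2 * (Fam.pd z (F.rev z) : ℝ)))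
      ?_ (fun z => W.thr c' (mkx x0 z)) ?_ _ ?_
    · intro z z' hzz t
      have hz : ∀ k, F.cls k < F.K → z k = z' k := fun k hk => hzz k ((WWT_seg F k).mpr hk)
      show (∑ k ∈ F.seg 0 F.K, ind (|(F.zz z : ℝ) - t| ≤ 60 * F.m (F.cls k)) *
        (Q + 2 * (Fam.pd z (F.rev z) : ℝ))) = ∑ k ∈ F.seg 0 F.K,
        ind (|(F.zz z' : ℝ) - t| ≤ 60 * F.m (F.cls k)) * (Q + 2 * (Fam.pd z' (F.rev z') : ℝ))
      rw [(rev_congr hok z z' hz).1, WWT_pd hok z z' hz]
    · intro z z' hzz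
      exact WWT_thr W c' x0 z z' hzz
    · intro t
      have h1 := hI (dit x0) t
      have h2 := hT (dit x0) t
      have e2 : ∑ z : PS P, (∑ k ∈ F.seg 0 F.K, ind (|(F.zz z : ℝ) - t| ≤ 60 * F.m (F.cls k)) *
          (Q + 2 * (Fam.pd z (F.rev z) : ℝ))) =
          Q * (∑ z : PS P, ∑ k ∈ F.seg 0 F.K, ind (|(F.zz z : ℝ) - t| ≤ 60 * F.m (F.cls k))) +
          2 * (∑ z : PS P, ∑ k ∈ F.seg 0 F.K, ind (|(F.zz z : ℝ) - t| ≤ 60 * F.m (F.cls k)) *
            (Fam.pd z (F.rev z) : ℝ)) := by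
        rw [Finset.mul_sum, Finset.mul_sum, ← Finset.sum_add_distrib]
        refine Finset.sum_congr rfl fun z _ => ?_
        rw [Finset.mul_sum, Finset.mul_sum, ← Finset.sum_add_distrib]
        refine Finset.sum_congr rfl fun k _ => ?_
        ring
      show ∑ z : PS P, (∑ k ∈ F.seg 0 F.K, ind (|(F.zz z : ℝ) - t| ≤ 60 * F.m (F.cls k)) *
          (Q + 2 * (Fam.pd z (F.rev z) : ℝ))) ≤ _
      rw [e2]
      have h3 : Q * (∑ z : PS P, ∑ k ∈ F.seg 0 F.K,
          ind (|(F.zz z : ℝ) - t| ≤ 60 * F.m (F.cls k))) ≤ Q * (I * 4 ^ Fintype.card P) :=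
        mul_le_mul_of_nonneg_left h1 hQ
      calc _ ≤ Q * (I * 4 ^ Fintype.card P) + 2 * (T * 4 ^ Fintype.card P) := by
            refine add_le_add h3 ?_
            exact mul_le_mul_of_nonneg_left h2 (by norm_num)
        _ = _ := by ring
  refine (Finset.sum_le_sum fun y _ => key y).trans ?_
  rw [Finset.sum_const, card_univ, nsmul_eq_mul]
  have e : (Fintype.card (β ⊕ δ → Bool) : ℝ) = 2 ^ Fintype.card (β ⊕ δ) := by
    rw [Fintype.card_fun, Fintype.card_bool]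
    push_cast
    rfl
  rw [e]
  exact le_of_eq (by ring)

/-- pointwise: splitting of the sum over the coordinates -/
theorem WWT_split {β δ P : Type*} [Fintype β] [DecidableEq β] [Fintype δ] [DecidableEq δ]
    [Fintype P] [DecidableEq P] (W : WW β δ P) (R : ℝ) (jj : ℕ) (ε ε1 : ℝ) (hW : W.OK R jj ε ε1)
    (Q : ℝ) (hQ : ∀ u, (Fintype.card β : ℝ) + Fintype.card δ + 2 * (W.bl u).card ≤ Q)
    (S' : WX β δ P → ℝ) (θ c' : ℝ)
    (hc : ∀ x y, θ < S' x → ¬ θ < S' y → W.Sc y ≤ c' ∧ c' ≤ W.Sc x) (x : WX β δ P) :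
    ∑ i, |ind (θ < S' x) - ind (θ < S' (flp x i))| * (hammingDist x (W.rho x) : ℝ) ≤
      Q * (hammingDist x (W.rho x) : ℝ) +
      2 * (∑ k ∈ (W.F (dit x)).seg 0 (W.F (dit x)).K,
        ind (|((W.F (dit x)).zz (st x) : ℝ) - W.thr c' x| ≤
          60 * (W.F (dit x)).m ((W.F (dit x)).cls k)) *
          (Q + 2 * (Fam.pd (st x) ((W.F (dit x)).rev (st x)) : ℝ))) +
      Fintype.card (WC β δ P) * (∑ k ∈ (W.F (dit x)).seg 0 (W.F (dit x)).K, ∑ s : Bool,
        (ind ((W.F (dit x)).frz ((W.F (dit x)).cls k) (st x)) +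
        ind ((W.F (dit x)).frz ((W.F (dit x)).cls k) (st (flp x (Sum.inr (k, s))))))) := by
  set F := W.F (dit x) with hFd
  set D : ℝ := (hammingDist x (W.rho x) : ℝ) with hD
  have hD0 : 0 ≤ D := Nat.cast_nonneg _
  have hDN : D ≤ Fintype.card (WC β δ P) := by
    rw [hD]
    exact_mod_cast hammingDist_le_card_fintype
  have hDQ : D ≤ Q + 2 * (Fam.pd (st x) (F.rev (st x)) : ℝ) := by
    have h1 : D ≤ (Fintype.card β : ℝ) + 2 * ((W.bl (dit x)).card : ℝ) +
        2 * (Fam.pd (st x) (F.rev (st x)) : ℝ) := by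
      rw [hD]
      exact_mod_cast ww_dist W x
    have h2 := hQ (dit x)
    have h3 : (0 : ℝ) ≤ Fintype.card δ := Nat.cast_nonneg _
    linarith
  have hA1 : ∀ i, |ind (θ < S' x) - ind (θ < S' (flp x i))| ≤ 1 := by
    intro i
    have a1 := ind_nonneg (θ < S' x)
    have a2 := ind_le_one (θ < S' x)
    have a3 := ind_nonneg (θ < S' (flp x i))
    have a4 := ind_le_one (θ < S' (flp x i))
    rw [abs_le]
    constructor <;> linarith
  -- coordinates outside the pairs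
  have p1 : ∑ i : β ⊕ δ, |ind (θ < S' x) - ind (θ < S' (flp x (Sum.inl i)))| * D ≤
      ((Fintype.card β : ℝ) + Fintype.card δ) * D := by
    have : ∀ i : β ⊕ δ, |ind (θ < S' x) - ind (θ < S' (flp x (Sum.inl i)))| * D ≤ 1 * D :=
      fun i => mul_le_mul_of_nonneg_right (hA1 _) hD0
    refine (Finset.sum_le_sum fun i _ => this i).trans ?_
    rw [Finset.sum_const, card_univ, Fintype.card_sum, nsmul_eq_mul]
    push_cast
    exact le_of_eq (by ring)
  -- blind pairs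
  have p2 : ∑ k ∈ W.bl (dit x), ∑ s : Bool,
      |ind (θ < S' x) - ind (θ < S' (flp x (Sum.inr (k, s))))| * D ≤
      2 * ((W.bl (dit x)).card : ℝ) * D := by
    have : ∀ k ∈ W.bl (dit x), ∑ s : Bool,
        |ind (θ < S' x) - ind (θ < S' (flp x (Sum.inr (k, s))))| * D ≤ 2 * D := by
      intro k _
      refine (Finset.sum_le_sum fun s _ =>
        mul_le_mul_of_nonneg_right (hA1 (Sum.inr (k, s))) hD0).trans ?_
      rw [Finset.sum_const, card_univ, Fintype.card_bool, nsmul_eq_mul]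
      push_cast
      exact le_of_eq (by ring)
    refine (Finset.sum_le_sum this).trans ?_
    rw [Finset.sum_const, nsmul_eq_mul]
    exact le_of_eq (by ring)
  -- pairs of the word
  have p3 : ∑ k ∈ F.seg 0 F.K, ∑ s : Bool,
      |ind (θ < S' x) - ind (θ < S' (flp x (Sum.inr (k, s))))| * D ≤
      2 * (∑ k ∈ F.seg 0 F.K, ind (|(F.zz (st x) : ℝ) - W.thr c' x| ≤ 60 * F.m (F.cls k)) *
          (Q + 2 * (Fam.pd (st x) (F.rev (st x)) : ℝ))) +
      Fintype.card (WC β δ P) * (∑ k ∈ F.seg 0 F.K, ∑ s : Bool,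
        (ind (F.frz (F.cls k) (st x)) + ind (F.frz (F.cls k) (st (flp x (Sum.inr (k, s))))))) := by
    rw [Finset.mul_sum, Finset.mul_sum, ← Finset.sum_add_distrib]
    refine Finset.sum_le_sum fun k hk => ?_
    rw [WWT_seg] at hk
    have q1 : ∀ s : Bool, |ind (θ < S' x) - ind (θ < S' (flp x (Sum.inr (k, s))))| * D ≤
        ind (|(F.zz (st x) : ℝ) - W.thr c' x| ≤ 60 * F.m (F.cls k)) *
          (Q + 2 * (Fam.pd (st x) (F.rev (st x)) : ℝ)) +
        Fintype.card (WC β δ P) * (ind (F.frz (F.cls k) (st x)) +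
          ind (F.frz (F.cls k) (st (flp x (Sum.inr (k, s)))))) := by
      intro s
      have h1 := ww_sep W R jj ε ε1 hW S' θ c' hc x k s hk
      have h2 := mul_le_mul_of_nonneg_right h1 hD0
      have b1 := ind_nonneg (|(F.zz (st x) : ℝ) - W.thr c' x| ≤ 60 * F.m (F.cls k))
      have b2 := ind_nonneg (F.frz (F.cls k) (st x))
      have b3 := ind_nonneg (F.frz (F.cls k) (st (flp x (Sum.inr (k, s)))))
      have c1 := mul_le_mul_of_nonneg_left hDQ b1
      have c2 := mul_le_mul_of_nonneg_left hDN (add_nonneg b2 b3)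
      refine h2.trans ?_
      rw [← hFd]
      calc _ = ind (|(F.zz (st x) : ℝ) - W.thr c' x| ≤ 60 * F.m (F.cls k)) * D +
            (ind (F.frz (F.cls k) (st x)) +
              ind (F.frz (F.cls k) (st (flp x (Sum.inr (k, s)))))) * D := by ring
        _ ≤ _ := add_le_add c1 (by rw [mul_comm (Fintype.card (WC β δ P) : ℝ)]; exact c2)
    refine (Finset.sum_le_sum fun s _ => q1 s).trans ?_
    rw [Finset.sum_add_distrib, Finset.sum_const, card_univ, Fintype.card_bool, nsmul_eq_mul,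
      Finset.mul_sum]
    push_cast
    exact le_of_eq (by ring)
  have hsplit : ∀ f : P → ℝ, ∑ k, f k = ∑ k ∈ W.bl (dit x), f k + ∑ k ∈ F.seg 0 F.K, f k := by
    intro f
    have e : F.seg 0 F.K = univ.filter fun k => ¬ (F.K ≤ F.cls k) := by
      ext k
      rw [WWT_seg, mem_filter]
      simp
    rw [e]
    exact (Finset.sum_filter_add_sum_filter_not univ (fun k => F.K ≤ F.cls k) f).symm
  have hsum : ∑ i, |ind (θ < S' x) - ind (θ < S' (flp x i))| * D =
      ∑ i : β ⊕ δ, |ind (θ < S' x) - ind (θ < S' (flp x (Sum.inl i)))| * D +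
      (∑ k ∈ W.bl (dit x), ∑ s : Bool,
        |ind (θ < S' x) - ind (θ < S' (flp x (Sum.inr (k, s))))| * D +
      ∑ k ∈ F.seg 0 F.K, ∑ s : Bool,
        |ind (θ < S' x) - ind (θ < S' (flp x (Sum.inr (k, s))))| * D) := by
    rw [Fintype.sum_sum_type, Fintype.sum_prod_type]
    rw [hsplit (fun k => ∑ s : Bool,
        |ind (θ < S' x) - ind (θ < S' (flp x (Sum.inr (k, s))))| * D)]
  rw [hsum]
  have hq : ((Fintype.card β : ℝ) + Fintype.card δ) * D + 2 * ((W.bl (dit x)).card : ℝ) * D ≤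
      Q * D := by
    have := mul_le_mul_of_nonneg_right (hQ (dit x)) hD0
    calc _ = ((Fintype.card β : ℝ) + Fintype.card δ + 2 * (W.bl (dit x)).card) * D := by ring
      _ ≤ _ := this
  linarith

theorem ww_T (C : ℝ) : ∃ C1 : ℝ, 0 < C1 ∧ ∀ (β δ P : Type) [Fintype β] [DecidableEq β]
    [Fintype δ] [DecidableEq δ] [Fintype P] [DecidableEq P] (W : WW β δ P) (R : ℝ) (jj : ℕ)
    (ε ε1 Q : ℝ), W.OK R jj ε ε1 → W.Est C ε Q → ∀ (S' : WX β δ P → ℝ) (θ c' : ℝ),
    (∀ x y, θ < S' x → ¬ θ < S' y → W.Sc y ≤ c' ∧ c' ≤ W.Sc x) →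
    ∑ x, ∑ i, |ind (θ < S' x) - ind (θ < S' (flp x i))| * (hammingDist x (W.rho x) : ℝ) ≤
      C1 * ((jj + 1) * Fintype.card (WC β δ P) +
        Q * (Q + (jj + 1) * Real.sqrt (Fintype.card (WC β δ P)) + 1)) *
        2 ^ Fintype.card (WC β δ P) := by
  obtain ⟨CI, hCI0, hCI⟩ := combI C
  obtain ⟨CT, hCT0, hCT⟩ := combT C
  obtain ⟨CD, hCD0, hCD⟩ := ww_D C
  refine ⟨CD + 2 * CI + 4 * CT + 4, by linarith, ?_⟩
  intro β δ P _ _ _ _ _ _ W R jj ε ε1 Q hW hE S' θ c' hc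
  have hQ0 : 0 ≤ Q := by
    have h1 := hE.hQ (fun _ => false)
    have : (0 : ℝ) ≤ (Fintype.card β : ℝ) + Fintype.card δ +
        2 * (W.bl (fun _ => false)).card := by positivity
    linarith
  set N : ℝ := (Fintype.card (WC β δ P) : ℝ) with hN
  have hN0 : 0 ≤ N := Nat.cast_nonneg _
  have hj : (0 : ℝ) ≤ jj := Nat.cast_nonneg _
  have hNN : ∀ u, NN (W.F u).nr (W.F u).K ≤ N := fun u => ww_NN W u
  have h1 := Finset.sum_le_sum fun x (_ : x ∈ (univ : Finset (WX β δ P))) =>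
    WWT_split W R jj ε ε1 hW Q hE.hQ S' θ c' hc x
  rw [Finset.sum_add_distrib, Finset.sum_add_distrib, ← Finset.mul_sum, ← Finset.mul_sum,
    ← Finset.mul_sum] at h1
  have h2 := hCD β δ P W R jj ε ε1 Q hW hE
  have h3 := WWT_word W jj ε hW.hF c' Q (CI * Real.sqrt N) (CT * (jj + 1) * N) (by
      intro u t
      have := hCI P (W.F u) jj ε (hW.hF u) (hE.num u) (hE.eps u) t
      refine this.trans ?_
      have h4 : (0 : ℝ) < 4 ^ Fintype.card P := by positivity
      refine mul_le_mul_of_nonneg_right ?_ h4.le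
      exact mul_le_mul_of_nonneg_left (Real.sqrt_le_sqrt (hNN u)) hCI0.le) (by
      intro u t
      have := hCT P (W.F u) jj ε (hW.hF u) (hE.num u) (hE.eps u) t
      refine this.trans ?_
      have h4 : (0 : ℝ) < 4 ^ Fintype.card P := by positivity
      refine mul_le_mul_of_nonneg_right ?_ h4.le
      exact mul_le_mul_of_nonneg_left (hNN u) (by positivity)) hQ0
  have h4 := ww_frz2 W R jj ε ε1 hW (hE.eps (fun _ => false)).h3
  have e2 : (0 : ℝ) < 2 ^ Fintype.card (WC β δ P) := by positivity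
  have h5 := mul_le_mul_of_nonneg_left h2 hQ0
  have h6 := mul_le_mul_of_nonneg_left h4 hN0
  have h7 := mul_le_mul_of_nonneg_left h3 (show (0 : ℝ) ≤ 2 by norm_num)
  refine h1.trans ((add_le_add (add_le_add h5 h7) h6).trans ?_)
  have hs : 0 ≤ Real.sqrt N := Real.sqrt_nonneg _
  have e3 : Q * (CD * (Q + (jj + 1) * Real.sqrt N) * 2 ^ Fintype.card (WC β δ P)) +
      2 * ((Q * (CI * Real.sqrt N) + 2 * (CT * (jj + 1) * N)) * 2 ^ Fintype.card (WC β δ P)) +
      N * (4 * 2 ^ Fintype.card (WC β δ P)) =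
      (CD * (Q * (Q + (jj + 1) * Real.sqrt N)) + 2 * CI * (Q * Real.sqrt N) +
        4 * CT * ((jj + 1) * N) + 4 * N) * 2 ^ Fintype.card (WC β δ P) := by ring
  rw [e3]
  refine mul_le_mul_of_nonneg_right ?_ e2.le
  have a0 : 0 ≤ Q * Real.sqrt N := mul_nonneg hQ0 hs
  have a1 : 0 ≤ (jj : ℝ) * N := mul_nonneg hj hN0
  have a2 : 0 ≤ (jj : ℝ) * (Q * Real.sqrt N) := mul_nonneg hj a0
  have a3 : 0 ≤ Q * Q := mul_nonneg hQ0 hQ0
  set X : ℝ := (jj + 1) * N + Q * (Q + (jj + 1) * Real.sqrt N + 1) with hX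
  have x1 : Q * (Q + (jj + 1) * Real.sqrt N) ≤ X := by
    have : X = Q * (Q + (jj + 1) * Real.sqrt N) + ((jj : ℝ) * N + N + Q) := by
      rw [hX]; ring
    linarith
  have x2 : Q * Real.sqrt N ≤ X := by
    have : X = Q * Real.sqrt N + ((jj : ℝ) * N + N + Q + Q * Q + jj * (Q * Real.sqrt N)) := by
      rw [hX]; ring
    linarith
  have x3 : (jj + 1) * N ≤ X := by
    have : X = (jj + 1) * N + (Q * Real.sqrt N + Q + Q * Q + jj * (Q * Real.sqrt N)) := by
      rw [hX]; ring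
    linarith
  have x4 : N ≤ X := by
    have : (jj + 1) * N = N + jj * N := by ring
    linarith
  have y1 := mul_le_mul_of_nonneg_left x1 hCD0.le
  have y2 := mul_le_mul_of_nonneg_left x2 (show 0 ≤ 2 * CI by linarith)
  have y3 := mul_le_mul_of_nonneg_left x3 (show 0 ≤ 4 * CT by linarith)
  calc _ ≤ CD * X + 2 * CI * X + 4 * CT * X + 4 * X := by linarith
    _ = _ := by ring

end BLO
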