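import Pool.Agent.Lib.BLO.WWDefs
import Pool.Agent.Lib.BLO.FamWord

/-!
# Chunk WX: basic facts on the points of a window (`mkx`, `st`, `dit`, flips, sums)
-/

namespace BLO

open Finset BLP

variable {β δ P : Type*}

theorem st_mkx (x : WX β δ P) (z : PS P) : st (mkx x z) = z := by
  funext k
  have h1 : mkx x z (Sum.inr (k, false)) = (z k).2 := by simp [mkx]
  have h2 : mkx x z (Sum.inr (k, true)) = ((z k).1 == (z k).2) := by simp [mkx]
  unfold st
  rw [h1, h2]
  obtain ⟨a, b⟩ := z k
  cases a <;> cases b <;> rfl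

theorem dit_mkx (x : WX β δ P) (z : PS P) : dit (mkx x z) = dit x := by
  funext j
  rfl

theorem mkx_inl (x : WX β δ P) (z : PS P) (i : β ⊕ δ) : mkx x z (Sum.inl i) = x (Sum.inl i) := by
  rfl

/-- two points with the same non-pair coordinates and the same states are equal -/
theorem wx_ext (x y : WX β δ P) (h1 : ∀ i, x (Sum.inl i) = y (Sum.inl i)) (h2 : st x = st y) :
    x = y := by
  funext i
  rcases i with i | ⟨k, s⟩
  · exact h1 i
  · have h := congrFun h2 k
    unfold st at h
    rw [Prod.mk.injEq] at h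
    obtain ⟨ha, hb⟩ := h
    cases s
    · exact hb
    · revert ha hb
      generalize x (Sum.inr (k, false)) = a
      generalize x (Sum.inr (k, true)) = b
      generalize y (Sum.inr (k, false)) = c
      generalize y (Sum.inr (k, true)) = d
      cases a <;> cases b <;> cases c <;> cases d <;> simp

theorem mkx_st (x : WX β δ P) : mkx x (st x) = x :=
  wx_ext _ _ (fun i => mkx_inl x _ i) (st_mkx x _)

theorem mkx_mkx (x : WX β δ P) (z z' : PS P) : mkx (mkx x z) z' = mkx x z' :=
  wx_ext _ _ (fun i => by rw [mkx_inl, mkx_inl, mkx_inl]) (by rw [st_mkx, st_mkx])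

/-- change of the state by the flip of the coordinate `(k, s)` -/
def flst (s : Bool) (p : Bool × Bool) : Bool × Bool := (!p.1, if s = true then p.2 else !p.2)

theorem flst_flst (s : Bool) (p : Bool × Bool) : flst s (flst s p) = p := by
  obtain ⟨a, b⟩ := p
  cases s <;> cases a <;> cases b <;> rfl

variable [Fintype β] [DecidableEq β] [Fintype δ] [DecidableEq δ] [Fintype P] [DecidableEq P]

theorem st_flp_inl (x : WX β δ P) (i : β ⊕ δ) : st (flp x (Sum.inl i)) = st x := by
  funext k
  unfold st
  rw [flp_ne x (by simp), flp_ne x (by simp)]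

theorem dit_flp_inr (x : WX β δ P) (p : P × Bool) : dit (flp x (Sum.inr p)) = dit x := by
  funext j
  unfold dit
  rw [flp_ne x (by simp)]

theorem dit_flp_beta (x : WX β δ P) (j : β) : dit (flp x (Sum.inl (Sum.inl j))) = dit x := by
  funext j
  unfold dit
  rw [flp_ne x (by simp)]

theorem st_flp_inr (x : WX β δ P) (k : P) (s : Bool) :
    st (flp x (Sum.inr (k, s))) = Function.update (st x) k (flst s (st x k)) := by
  funext k'
  by_cases hk : k' = k
  · subst hk
    rw [Function.update_self]
    unfold st flst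
    cases s
    · rw [flp_same, flp_ne x (show (Sum.inr (k', true) : WC β δ P) ≠ Sum.inr (k', false) by simp)]
      generalize x (Sum.inr (k', false)) = a
      generalize x (Sum.inr (k', true)) = b
      cases a <;> cases b <;> rfl
    · rw [flp_same, flp_ne x (show (Sum.inr (k', false) : WC β δ P) ≠ Sum.inr (k', true) by simp)]
      generalize x (Sum.inr (k', false)) = a
      generalize x (Sum.inr (k', true)) = b
      cases a <;> cases b <;> rfl
  · rw [Function.update_of_ne hk]
    unfold st
    rw [flp_ne x (by simp [hk]), flp_ne x (by simp [hk])]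

/-- sums over the window: non-pair coordinates and states -/
theorem wx_sum (f : WX β δ P → ℝ) :
    ∑ x, f x = ∑ y : β ⊕ δ → Bool, ∑ z : PS P, f (mkx (Sum.elim y fun _ => false) z) := by
  rw [← Fintype.sum_prod_type' (fun (y : β ⊕ δ → Bool) (z : PS P) =>
    f (mkx (Sum.elim y fun _ => false) z))]
  refine Finset.sum_bij' (fun x _ => ((fun i => x (Sum.inl i)), st x))
    (fun p _ => mkx (Sum.elim p.1 fun _ => false) p.2) (fun _ _ => mem_univ _)
    (fun _ _ => mem_univ _) ?_ ?_ ?_
  · intro x _
    exact wx_ext _ _ (fun i => by rw [mkx_inl]; rfl) (st_mkx _ _)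
  · intro p _
    refine Prod.ext ?_ ?_
    · funext i
      rfl
    · exact st_mkx _ _
  · intro x _
    congr 1
    exact (wx_ext _ _ (fun i => by rw [mkx_inl]; rfl) (st_mkx _ _)).symm

theorem dit_elim (y : β ⊕ δ → Bool) (z : PS P) (c : P × Bool → Bool) :
    dit (mkx (Sum.elim y c) z) = fun j => y (Sum.inr j) := by
  funext j
  rfl

/-- Hamming distance: different non-pair coordinates and pairs with different states -/
theorem wx_dist (x y : WX β δ P) :
    hammingDist x y ≤ (univ.filter fun i : β ⊕ δ => x (Sum.inl i) ≠ y (Sum.inl i)).card +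
      2 * Fam.pd (st x) (st y) := by
  unfold hammingDist Fam.pd
  have h : (univ.filter fun i => x i ≠ y i) ⊆
      ((univ.filter fun i : β ⊕ δ => x (Sum.inl i) ≠ y (Sum.inl i)).image Sum.inl) ∪
      ((univ.filter fun k : P => st x k ≠ st y k) ×ˢ (univ : Finset Bool)).image Sum.inr := by
    intro i hi
    rw [mem_filter] at hi
    rcases i with i | ⟨k, s⟩
    · refine mem_union_left _ (mem_image.mpr ⟨i, mem_filter.mpr ⟨mem_univ _, hi.2⟩, rfl⟩)
    · refine mem_union_right _ (mem_image.mpr ⟨(k, s), mem_product.mpr ⟨mem_filter.mpr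
        ⟨mem_univ _, fun h => hi.2 ?_⟩, mem_univ _⟩, rfl⟩)
      unfold st at h
      rw [Prod.mk.injEq] at h
      obtain ⟨ha, hb⟩ := h
      cases s
      · exact hb
      · revert ha hb
        generalize x (Sum.inr (k, false)) = a
        generalize x (Sum.inr (k, true)) = b
        generalize y (Sum.inr (k, false)) = c
        generalize y (Sum.inr (k, true)) = d
        cases a <;> cases b <;> cases c <;> cases d <;> simp
  refine (card_le_card h).trans ((card_union_le _ _).trans ?_)
  refine Nat.add_le_add card_image_le (card_image_le.trans ?_)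
  rw [card_product, card_univ, Fintype.card_bool, mul_comm]

theorem wx_pow : (2 : ℝ) ^ Fintype.card (WC β δ P) =
    2 ^ Fintype.card (β ⊕ δ) * 4 ^ Fintype.card P := by
  rw [Fintype.card_sum, Fintype.card_prod, Fintype.card_bool, pow_add, mul_comm (Fintype.card P) 2,
    pow_mul]
  norm_num

/-- a parameter `θ` that depends only on the pairs outside `T`, a function `G` that depends only on
the pairs in `T`.  Proof: `4^P ∑_x G x (θ x) = ∑_x ∑_y G x (θ x)`; exchange the pairs outside `T` of `x` and `y`. -/
theorem comb_theta (T : Finset P) (G : PS P → ℝ → ℝ)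
    (hG : ∀ z z' : PS P, (∀ k ∈ T, z k = z' k) → ∀ θ, G z θ = G z' θ) (θ : PS P → ℝ)
    (hθ : ∀ z z' : PS P, (∀ k, k ∉ T → z k = z' k) → θ z = θ z') (B : ℝ)
    (hB : ∀ t, ∑ z, G z t ≤ B) : ∑ z, G z (θ z) ≤ B := by
  have hcard : (0 : ℝ) < Fintype.card (PS P) := by
    have : 0 < Fintype.card (PS P) := Fintype.card_pos
    exact_mod_cast this
  have h1 : ∑ z : PS P, ∑ _y : PS P, G z (θ z) = ∑ z : PS P, ∑ y : PS P, G z (θ y) := by
    rw [← Fintype.sum_prod_type' (fun (z : PS P) (_y : PS P) => G z (θ z)),
      ← Fintype.sum_prod_type' (fun (z : PS P) (y : PS P) => G z (θ y))]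
    refine Finset.sum_bij' (fun p _ => ((fun k => if k ∈ T then p.1 k else p.2 k),
      (fun k => if k ∈ T then p.2 k else p.1 k)))
      (fun p _ => ((fun k => if k ∈ T then p.1 k else p.2 k),
      (fun k => if k ∈ T then p.2 k else p.1 k))) (fun _ _ => mem_univ _)
      (fun _ _ => mem_univ _) ?_ ?_ ?_
    · rintro ⟨a, b⟩ _
      refine Prod.ext ?_ ?_
      · funext k
        by_cases hk : k ∈ T <;> simp [hk]
      · funext k
        by_cases hk : k ∈ T <;> simp [hk]
    · rintro ⟨a, b⟩ _
      refine Prod.ext ?_ ?_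
      · funext k
        by_cases hk : k ∈ T <;> simp [hk]
      · funext k
        by_cases hk : k ∈ T <;> simp [hk]
    · rintro ⟨a, b⟩ _
      have e1 : θ a = θ (fun k => if k ∈ T then b k else a k) :=
        hθ _ _ fun k hk => by simp [hk]
      show G a (θ a) = G (fun k => if k ∈ T then a k else b k) (θ fun k => if k ∈ T then b k else a k)
      rw [← e1]
      exact hG _ _ (fun k hk => by simp [hk]) _
  have h2 : ∑ z : PS P, ∑ _y : PS P, G z (θ z) = Fintype.card (PS P) * ∑ z, G z (θ z) := by
    rw [Finset.mul_sum]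
    refine Finset.sum_congr rfl fun z _ => ?_
    rw [Finset.sum_const, card_univ, nsmul_eq_mul]
  have h3 : ∑ z : PS P, ∑ y : PS P, G z (θ y) ≤ Fintype.card (PS P) * B := by
    rw [Finset.sum_comm]
    refine (Finset.sum_le_sum fun y _ => hB (θ y)).trans ?_
    rw [Finset.sum_const, card_univ, nsmul_eq_mul]
  rw [h1] at h2
  rw [h2] at h3
  exact le_of_mul_le_mul_left h3 hcard

end BLO
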