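import Pool.Agent.Lib.BLO.W1Defs
import Pool.Agent.Lib.BLP.Conc1

/-!
# Auxiliary facts for chunk WB
-/

namespace BLO

open Finset BLP

/-- a 1-Lipschitz function with mean zero is bounded by the dimension -/
theorem wb_bound {ι : Type*} [Fintype ι] [DecidableEq ι] (h : (ι → Bool) → ℝ) (hh : Lip 1 h)
    (h0 : ∑ x, h x = 0) (x : ι → Bool) : |h x| ≤ Fintype.card ι := by
  have hd : ∀ y, |h x - h y| ≤ Fintype.card ι := by
    intro y
    refine (c1_lip_dist h hh _ x y rfl).trans ?_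
    exact_mod_cast hammingDist_le_card_fintype
  have h1 : ∃ y, h y ≤ 0 := by
    by_contra hc
    push Not at hc
    have : 0 < ∑ y, h y := Finset.sum_pos (fun y _ => hc y) ⟨x, mem_univ x⟩
    linarith
  have h2 : ∃ y, 0 ≤ h y := by
    by_contra hc
    push Not at hc
    have : ∑ y, h y < 0 := Finset.sum_neg (fun y _ => hc y) ⟨x, mem_univ x⟩
    linarith
  obtain ⟨y1, hy1⟩ := h1
  obtain ⟨y2, hy2⟩ := h2
  rw [abs_le]
  constructor
  · have := (abs_le.1 (hd y2)).1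
    linarith
  · have := (abs_le.1 (hd y1)).2
    linarith

/-- replacing a function on a small set -/
theorem wb_replace {Ω : Type*} [Fintype Ω] (f : Ω → ℝ) (hf : ∀ x, 0 ≤ f x) (M : ℝ) (hM : ∀ x, f x ≤ M)
    (hM0 : 0 ≤ M) (ok : Ω → Prop) (Z Z' : Ω → ℝ) (hZ : ∀ x, ok x → Z x = Z' x) (c : ℝ) (e : ℝ)
    (he : ∑ x, ind (¬ ok x) ≤ e) :
    ∑ x, f x * ind (|Z x - c| ≤ 1) ≤ ∑ x, f x * ind (|Z' x - c| ≤ 1) + M * e := by
  have h1 : ∀ x, f x * ind (|Z x - c| ≤ 1) ≤ f x * ind (|Z' x - c| ≤ 1) + M * ind (¬ ok x) := by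
    intro x
    by_cases h : ok x
    · rw [hZ x h]
      have := mul_nonneg hM0 (ind_nonneg (¬ ok x))
      linarith
    · rw [ind_true h]
      have h2 := mul_nonneg (hf x) (ind_nonneg (|Z' x - c| ≤ 1))
      have h3 : f x * ind (|Z x - c| ≤ 1) ≤ f x * 1 :=
        mul_le_mul_of_nonneg_left (ind_le_one _) (hf x)
      have := hM x
      linarith
  calc ∑ x, f x * ind (|Z x - c| ≤ 1)
      ≤ ∑ x, (f x * ind (|Z' x - c| ≤ 1) + M * ind (¬ ok x)) := Finset.sum_le_sum fun x _ => h1 x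
    _ = ∑ x, f x * ind (|Z' x - c| ≤ 1) + M * ∑ x, ind (¬ ok x) := by
        rw [Finset.sum_add_distrib, Finset.mul_sum]
    _ ≤ _ := by
        have := mul_le_mul_of_nonneg_left he hM0
        linarith

/-- a window of radius 16 is covered by 17 unit windows -/
theorem wb_cover (v c : ℝ) (h : |v - c| ≤ 16) :
    ∃ j ∈ range 17, |v - (c + 2 * ((j : ℝ) - 8))| ≤ 1 := by
  obtain ⟨h1, h2⟩ := abs_le.1 h
  obtain ⟨j, hj⟩ : ∃ j : ℕ, j = ⌊(v - c + 17) / 2⌋₊ := ⟨_, rfl⟩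
  have h0 : 0 ≤ (v - c + 17) / 2 := by linarith
  have h3 := Nat.floor_le h0
  have h4 := Nat.lt_floor_add_one ((v - c + 17) / 2)
  rw [← hj] at h3 h4
  refine ⟨j, ?_, ?_⟩
  · rw [mem_range]
    have : (j : ℝ) < 17 := by linarith
    exact_mod_cast this
  · rw [abs_le]
    constructor <;> linarith

end BLO
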