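import Pool.Agent.Lib.BLO.W1Kap
import Pool.Agent.Lib.BLO.W1Adm
import Pool.Agent.Lib.BLO.W1Mass
import Pool.Agent.Lib.BLO.WinB0

/-!
# Small balls and masses for chunk WB
-/

namespace BLO

open Finset BLP

variable {β δ P : Type*} [Fintype β] [DecidableEq β] [Fintype δ] [DecidableEq δ]
  [Fintype P] [DecidableEq P]

theorem wb_kap (T0 T1 : Finset P) (h01 : T1 ⊆ T0) (Z S : WX β δ P → ℝ) (hZ : LForm T0 T1 Z)
    (hS : LForm T0 T1 S) (D0 Λ' : ℕ) (hD1 : 64 * (D0 + 20) * (Λ' + D0 + 20) ≤ T1.card)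
    (Cl Λ η η' c c' : ℝ)
    (hCl : ∑ x, ind (Cl < |Z x - S x|) ≤ η' * 2 ^ Fintype.card (WC β δ P))
    (t3 : 2 * Real.exp (-((Λ' : ℝ) ^ 2 / (2 * (T1.card + 1)))) + 2 * Real.exp (-(T1.card / 64 : ℝ)) ≤ η)
    (hc : |c' - c| ≤ Λ) (hD0 : 1 + Λ + Cl ≤ D0) :
    ∑ x, ind (|Z x - c'| ≤ 1) ≤ 100 * ∑ x, ind (|S x - c| ≤ 16) +
      (η + η') * 2 ^ Fintype.card (WC β δ P) := by
  have h1 := kap_mt T0 T1 h01 Z S hZ hS D0 Λ' hD1 c' c
  have h2 : ∀ x, ind (|Z x - c'| ≤ 1) ≤ ind (|Z x - c'| ≤ 1 ∧ |S x - c| ≤ D0) +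
      ind (Cl < |Z x - S x|) := by
    intro x
    refine le_trans (ind_mono ?_) (ind_or_le _ _)
    intro h
    by_cases h3 : Cl < |Z x - S x|
    · exact Or.inr h3
    · left
      refine ⟨h, ?_⟩
      rw [not_lt] at h3
      obtain ⟨a1, a2⟩ := abs_le.1 h
      obtain ⟨b1, b2⟩ := abs_le.1 h3
      obtain ⟨c1, c2⟩ := abs_le.1 hc
      rw [abs_le]
      constructor <;> linarith
  have h3 : (2 * Real.exp (-((Λ' : ℝ) ^ 2 / (2 * (T1.card + 1)))) +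
      2 * Real.exp (-(T1.card / 64 : ℝ))) * 2 ^ Fintype.card (WC β δ P) ≤
      η * 2 ^ Fintype.card (WC β δ P) := mul_le_mul_of_nonneg_right t3 (by positivity)
  calc ∑ x, ind (|Z x - c'| ≤ 1)
      ≤ ∑ x, (ind (|Z x - c'| ≤ 1 ∧ |S x - c| ≤ D0) + ind (Cl < |Z x - S x|)) :=
        Finset.sum_le_sum fun x _ => h2 x
    _ = ∑ x, ind (|Z x - c'| ≤ 1 ∧ |S x - c| ≤ D0) + ∑ x, ind (Cl < |Z x - S x|) :=
        Finset.sum_add_distrib
    _ ≤ _ := by linarith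

/-- masses from unit windows for all centres -/
theorem wb_E1 (T0 T1 : Finset P) (hT0 : T0.Nonempty) (Z : WX β δ P → ℝ) (hZ : LForm T0 T1 Z)
    (c t : ℝ) (ht : 16 ≤ t) :
    ∑ x, Real.exp (-((Z x - c) ^ 2 / (8 * t))) ≤
      80 / Real.sqrt T0.card * Real.sqrt t * 2 ^ Fintype.card (WC β δ P) := by
  refine (exp_of_window Z _ (fun c' => kap_one T0 T1 hT0 Z hZ c') c t (by linarith)).trans
    (le_of_eq ?_)
  ring

/-- masses with weight `|h|` -/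
theorem wb_Eh (T0 T1 : Finset P) (hT0 : T0.Nonempty)
    (hT : (Fintype.card (WC β δ P) : ℝ) ≤ 16 * T0.card) (Z : WX β δ P → ℝ)
    (hZ : LForm T0 T1 Z) (h : WX β δ P → ℝ) (hh : Lip 1 h) (h0 : ∑ x, h x = 0) (Λ η T c : ℝ)
    (hΛ : 0 ≤ Λ) (t4 : Real.exp (-(Λ ^ 2 / (8 * T))) ≤ η)
    (hη : Fintype.card (WC β δ P) * η ≤ 1) (t : ℝ) (ht : 16 ≤ t) (htT : t ≤ T) :
    (∑ x, |h x| * ind (|Z x - c| ≤ 1) ≤ 2000 * 2 ^ Fintype.card (WC β δ P)) ∧
    ∑ x, |h x| * Real.exp (-((Z x - c) ^ 2 / (8 * t))) ≤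
      300000 * Real.sqrt t * 2 ^ Fintype.card (WC β δ P) := by
  have hT0' : (0 : ℝ) < T0.card := by exact_mod_cast hT0.card_pos
  have hs : Real.sqrt (Fintype.card (WC β δ P) / T0.card) ≤ 4 := by
    rw [show (4 : ℝ) = Real.sqrt 16 by
      rw [show (16 : ℝ) = 4 ^ 2 by norm_num, Real.sqrt_sq (by norm_num)]]
    apply Real.sqrt_le_sqrt
    rw [div_le_iff₀ hT0']
    exact hT
  have hp : (0 : ℝ) < 2 ^ Fintype.card (WC β δ P) := by positivity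
  have hk : ∀ c', ∑ x, |h x| * ind (|Z x - c'| ≤ 1) ≤ 2000 * 2 ^ Fintype.card (WC β δ P) := by
    intro c'
    refine (kap_h T0 T1 hT0 Z hZ h hh h0 c').trans ?_
    apply mul_le_mul_of_nonneg_right _ hp.le
    linarith
  refine ⟨hk c, ?_⟩
  have hM : ∑ x, |h x| ≤ (Fintype.card (WC β δ P) : ℝ) * 2 ^ Fintype.card (WC β δ P) := by
    calc ∑ x, |h x| ≤ ∑ x : WX β δ P, (Fintype.card (WC β δ P) : ℝ) :=
          Finset.sum_le_sum fun x _ => wb_bound h hh h0 x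
      _ = _ := by
          rw [Finset.sum_const, nsmul_eq_mul, Finset.card_univ, Fintype.card_fun,
            Fintype.card_bool]
          push_cast
          ring
  have h1 := mass_of_window (fun x => |h x|) Z (fun x => abs_nonneg _)
    (2000 * 2 ^ Fintype.card (WC β δ P)) _ Λ c hΛ (fun c' _ => hk c') hM t (by linarith)
  refine h1.trans ?_
  have hst : 1 ≤ Real.sqrt t := by
    rw [← Real.sqrt_one]
    exact Real.sqrt_le_sqrt (by linarith)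
  have h2 : Real.exp (-(Λ ^ 2 / (8 * t))) ≤ η := by
    refine le_trans (Real.exp_le_exp.2 ?_) t4
    have : Λ ^ 2 / (8 * T) ≤ Λ ^ 2 / (8 * t) :=
      div_le_div_of_nonneg_left (sq_nonneg _) (by linarith) (by linarith)
    linarith
  have h3 : (Fintype.card (WC β δ P) : ℝ) * 2 ^ Fintype.card (WC β δ P) *
      Real.exp (-(Λ ^ 2 / (8 * t))) ≤ 1 * 2 ^ Fintype.card (WC β δ P) := by
    calc (Fintype.card (WC β δ P) : ℝ) * 2 ^ Fintype.card (WC β δ P) *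
          Real.exp (-(Λ ^ 2 / (8 * t)))
        ≤ (Fintype.card (WC β δ P) : ℝ) * 2 ^ Fintype.card (WC β δ P) * η :=
          mul_le_mul_of_nonneg_left h2 (by positivity)
      _ = (Fintype.card (WC β δ P) * η) * 2 ^ Fintype.card (WC β δ P) := by ring
      _ ≤ _ := mul_le_mul_of_nonneg_right hη hp.le
  have h4 : (1 : ℝ) * 2 ^ Fintype.card (WC β δ P) ≤
      Real.sqrt t * 2 ^ Fintype.card (WC β δ P) := mul_le_mul_of_nonneg_right hst hp.le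
  have h5 : 0 ≤ Real.sqrt t * 2 ^ Fintype.card (WC β δ P) := by positivity
  nlinarith

/-- masses with `h = 1` -/
theorem wb_Eq (T0 T1 : Finset P) (h01 : T1 ⊆ T0) (Z S : WX β δ P → ℝ) (hZ : LForm T0 T1 Z)
    (hS : LForm T0 T1 S) (D0 Λ' : ℕ) (hD1 : 64 * (D0 + 20) * (Λ' + D0 + 20) ≤ T1.card)
    (Cl Λ η η' c T : ℝ) (hη : 0 ≤ η) (hη' : 0 ≤ η')
    (hCl : ∑ x, ind (Cl < |Z x - S x|) ≤ η' * 2 ^ Fintype.card (WC β δ P))
    (t3 : 2 * Real.exp (-((Λ' : ℝ) ^ 2 / (2 * (T1.card + 1)))) + 2 * Real.exp (-(T1.card / 64 : ℝ)) ≤ η)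
    (hD0 : 1 + Λ + Cl ≤ D0) (hΛ : 0 ≤ Λ) (t4 : Real.exp (-(Λ ^ 2 / (8 * T))) ≤ η)
    (t : ℝ) (ht : 16 ≤ t) (htT : t ≤ T) :
    ∑ x, Real.exp (-((Z x - c) ^ 2 / (8 * t))) ≤
      (10000 * ((∑ x, ind (|S x - c| ≤ 16)) / 2 ^ Fintype.card (WC β δ P)) + 200 * (η + η')) *
        Real.sqrt t * 2 ^ Fintype.card (WC β δ P) := by
  have hp : (0 : ℝ) < 2 ^ Fintype.card (WC β δ P) := by positivity
  have hk : ∀ c', |c' - c| ≤ Λ → ∑ x, (1 : ℝ) * ind (|Z x - c'| ≤ 1) ≤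
      100 * ∑ x, ind (|S x - c| ≤ 16) + (η + η') * 2 ^ Fintype.card (WC β δ P) := by
    intro c' hc'
    simp only [one_mul]
    exact wb_kap T0 T1 h01 Z S hZ hS D0 Λ' hD1 Cl Λ η η' c c' hCl t3 hc' hD0
  have hM : ∑ x : WX β δ P, (1 : ℝ) ≤ 2 ^ Fintype.card (WC β δ P) := by
    rw [Finset.sum_const, nsmul_eq_mul, Finset.card_univ, Fintype.card_fun, Fintype.card_bool]
    push_cast
    rw [mul_one]
  have h1 := mass_of_window (fun _ => (1 : ℝ)) Z (fun x => zero_le_one) _ _ Λ c hΛ hk hM t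
    (by linarith)
  simp only [one_mul] at h1
  refine h1.trans ?_
  have hst : 1 ≤ Real.sqrt t := by
    rw [← Real.sqrt_one]
    exact Real.sqrt_le_sqrt (by linarith)
  have h2 : Real.exp (-(Λ ^ 2 / (8 * t))) ≤ η := by
    refine le_trans (Real.exp_le_exp.2 ?_) t4
    have : Λ ^ 2 / (8 * T) ≤ Λ ^ 2 / (8 * t) :=
      div_le_div_of_nonneg_left (sq_nonneg _) (by linarith) (by linarith)
    linarith
  set Q := ∑ x, ind (|S x - c| ≤ 16) with hQ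
  set p := (2 : ℝ) ^ Fintype.card (WC β δ P) with hpd
  have e1 : (10000 * (Q / p) + 200 * (η + η')) * Real.sqrt t * p =
      10000 * Real.sqrt t * Q + 200 * (η + η') * Real.sqrt t * p := by
    field_simp
  rw [e1]
  have h3 : p * Real.exp (-(Λ ^ 2 / (8 * t))) ≤ p * η := mul_le_mul_of_nonneg_left h2 hp.le
  have h4 : p * η ≤ Real.sqrt t * (p * η) := by
    have : 0 ≤ p * η := by positivity
    nlinarith
  have h5 : 0 ≤ Real.sqrt t * (p * η) := by positivity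
  have h6 : 0 ≤ Real.sqrt t * (p * η') := by positivity
  nlinarith

end BLO
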