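import Pool.Agent.Lib.BLO.W1Mass
import Pool.Agent.Lib.BLO.W1Main
import Pool.Agent.Lib.BLO.W1Adm
import Pool.Agent.Lib.BLO.W1Kap
import Pool.Agent.Lib.BLO.LawM
import Pool.Agent.Lib.BLO.WinB1

/-!
# Chunk WB: condition (B) of a window

`law_match` with `S = lin W.a`, `Z = Sc`, `B = 10^20 (J+1)`, `ε = 10^15 (J+1) n η`, `D = 33 (4 B^2 + 2 B + 3)`, `n = card WC`.
* `H4`: `kap_h` for `S = FS univ ∅`; for `Sc`: `Sc = FC univ 0` off the frozen points (`|h| ≤ n`), `kap_h` for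
  `FC univ 0` (`lform_FC`); `√(n / |T0|) ≤ 4`.
* `H1`: `w1_main` with `lam = 1`, `Hm = n`, `E1 = 20 * 16 / √n`-type bound from `kap_one` and `exp_of_window`,
  `Eh` from `kap_h` and `mass_of_window` (`M = n 2^n`, any `Λ`), `τ` from `delta_tail`.
* `H2`: `w1_main` with `h = 1`, `lam = 0`, `Hm = 1`, `Eh = (10^4 Q(c) + …)` from `mass_of_window` (`f = 1`, `M = 2^n`) and
  `kap_mt` with `Z1` = the function of the family, `Z2 = S`: `|Z1 - c'| ≤ 1`, `|c' - c| ≤ Λ` and closeness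
  (`close_FS`, `close_FC`) give `|S - c| ≤ D0`.  `E1` arbitrary (for instance from `kap_one`).
* `H2'`: the same for one window (`Z1 = FC univ 0`).
* `H3`: `Z1 = Z2 = S`, 17 unit windows cover a window of radius 16.
-/

namespace BLO

open Finset BLP

variable {β δ P : Type*} [Fintype β] [DecidableEq β] [Fintype δ] [DecidableEq δ]
  [Fintype P] [DecidableEq P]

/-- numerical facts: total cost of `w1_main` -/
theorem wb_num1 (n b d p K R δ0 J η ε1 εf : ℝ) (hb : 64 * R ^ 2 ≤ b) (hR : 1 ≤ R) (hd : 0 ≤ d)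
    (hp : 0 ≤ p) (hK : 0 ≤ K) (hJ : 0 ≤ J) (hn : 1 ≤ n) (hbn : b ≤ Real.sqrt n) (hdn : d ≤ n)
    (hpn : p ≤ n) (hδ0 : 0 ≤ δ0) (hδ2 : d + R ^ 2 + δ0 ^ 2 ≤ Real.sqrt b)
    (hδ3 : d * δ0 ≤ Real.sqrt n) (hK1 : K * R ≤ Real.sqrt n)
    (hK2 : K * R ^ 4 ≤ b * Real.sqrt b) (hη : 0 ≤ η) (hη1 : n ^ 3 * η ≤ 1) (hε1 : ε1 ≤ η)
    (hεf : εf ≤ η) (τ : ℝ) (hτ : τ ≤ η) (lam Hm Eh E1 : ℝ) (hlam0 : 0 ≤ lam) (hlam : lam ≤ 1)
    (hHm : 0 ≤ Hm) (hEh : 0 ≤ Eh) (hE1 : 0 ≤ E1) (hE1n : E1 * Real.sqrt n ≤ 320) :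
    lam * E1 * (b + R + d * δ0 + K * J * R) +
      Eh * (1 + (d + R ^ 2 + δ0 ^ 2) / Real.sqrt b + K * R ^ 4 / (b * Real.sqrt b)) +
      lam * d * p * τ + Hm * (p * ε1 + (1 + p) * τ + (1 + K) * εf) ≤
    lam * (1000 * (J + 1) + 1) + 3 * Eh + Hm * (5 * n * η) := by
  have hR2 : R ≤ R ^ 2 := by nlinarith only [hR]
  have hb1 : 64 ≤ b := by nlinarith only [hR, hb]
  have hb0 : 0 < b := by linarith
  have hRb : R ≤ b := by linarith only [hR2, hb, sq_nonneg R]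
  have hsb : 0 < Real.sqrt b := Real.sqrt_pos.2 hb0
  have hsn : 0 ≤ Real.sqrt n := Real.sqrt_nonneg _
  have hsn1 : Real.sqrt n ≤ n := by
    have h1 : 1 ≤ Real.sqrt n := by
      rw [← Real.sqrt_one]; exact Real.sqrt_le_sqrt hn
    have h2 := Real.sq_sqrt (show 0 ≤ n by linarith)
    nlinarith only [h1, h2]
  have hKn : K ≤ n := by nlinarith only [hK, hR, hK1, hsn1]
  -- first term
  have a1 : b + R + d * δ0 + K * J * R ≤ (3 + J) * Real.sqrt n := by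
    have : K * J * R = J * (K * R) := by ring
    rw [this]
    have := mul_le_mul_of_nonneg_left hK1 hJ
    linarith
  have a2 : lam * E1 * (b + R + d * δ0 + K * J * R) ≤ lam * (1000 * (J + 1)) := by
    calc lam * E1 * (b + R + d * δ0 + K * J * R) ≤ lam * E1 * ((3 + J) * Real.sqrt n) :=
          mul_le_mul_of_nonneg_left a1 (mul_nonneg hlam0 hE1)
      _ = lam * ((3 + J) * (E1 * Real.sqrt n)) := by ring
      _ ≤ lam * ((3 + J) * 320) := by
          apply mul_le_mul_of_nonneg_left _ hlam0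
          apply mul_le_mul_of_nonneg_left hE1n (by linarith)
      _ ≤ _ := by
          apply mul_le_mul_of_nonneg_left _ hlam0
          linarith
  -- second term
  have a3 : (d + R ^ 2 + δ0 ^ 2) / Real.sqrt b ≤ 1 := by
    rw [div_le_one hsb]
    exact hδ2
  have a4 : K * R ^ 4 / (b * Real.sqrt b) ≤ 1 := by
    rw [div_le_one (by positivity)]
    exact hK2
  have a5 : Eh * (1 + (d + R ^ 2 + δ0 ^ 2) / Real.sqrt b + K * R ^ 4 / (b * Real.sqrt b)) ≤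
      Eh * 3 := mul_le_mul_of_nonneg_left (by linarith) hEh
  -- third term
  have hn2 : n ^ 2 * η ≤ 1 := by
    have : n ^ 2 * η ≤ n ^ 3 * η := by
      apply mul_le_mul_of_nonneg_right _ hη
      nlinarith only [mul_nonneg (sq_nonneg n) (sub_nonneg.2 hn)]
    linarith
  have a6 : lam * d * p * τ ≤ lam * 1 := by
    have h1 : d * p * τ ≤ n * n * η := by
      calc d * p * τ ≤ d * p * η := mul_le_mul_of_nonneg_left hτ (by positivity)
        _ ≤ n * n * η := by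
            apply mul_le_mul_of_nonneg_right _ hη
            apply mul_le_mul hdn hpn hp (by linarith)
    calc lam * d * p * τ = lam * (d * p * τ) := by ring
      _ ≤ lam * 1 := by
          apply mul_le_mul_of_nonneg_left _ hlam0
          linarith only [h1, hn2]
  -- fourth term
  have a7 : p * ε1 + (1 + p) * τ + (1 + K) * εf ≤ 5 * n * η := by
    have h1 : p * ε1 ≤ n * η := by
      calc p * ε1 ≤ p * η := mul_le_mul_of_nonneg_left hε1 hp
        _ ≤ n * η := mul_le_mul_of_nonneg_right hpn hη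
    have h2 : (1 + p) * τ ≤ (2 * n) * η := by
      calc (1 + p) * τ ≤ (1 + p) * η := mul_le_mul_of_nonneg_left hτ (by linarith)
        _ ≤ _ := mul_le_mul_of_nonneg_right (by linarith) hη
    have h3 : (1 + K) * εf ≤ (2 * n) * η := by
      calc (1 + K) * εf ≤ (1 + K) * η := mul_le_mul_of_nonneg_left hεf (by linarith)
        _ ≤ _ := mul_le_mul_of_nonneg_right (by linarith) hη
    linarith
  have a8 := mul_le_mul_of_nonneg_left a7 hHm
  linarith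

theorem wb_T0 (T0 : Finset P) (n : ℝ) (hn : 1 ≤ n) (hT : n ≤ 16 * (T0.card : ℝ)) :
    T0.Nonempty ∧ 80 / Real.sqrt T0.card * Real.sqrt n ≤ 320 := by
  have h0 : (0 : ℝ) < T0.card := by linarith
  have h1 : 0 < Real.sqrt T0.card := Real.sqrt_pos.2 h0
  constructor
  · rw [← Finset.card_pos]
    exact_mod_cast h0
  · have h2 : Real.sqrt n ≤ 4 * Real.sqrt T0.card := by
      rw [show (4 : ℝ) = Real.sqrt 16 by
        rw [show (16 : ℝ) = 4 ^ 2 by norm_num, Real.sqrt_sq (by norm_num)],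
        ← Real.sqrt_mul (by norm_num)]
      exact Real.sqrt_le_sqrt hT
    rw [div_mul_eq_mul_div, div_le_iff₀ h1]
    linarith

theorem wb_card : (Fintype.card (WC β δ P) : ℝ) =
    Fintype.card β + Fintype.card δ + 2 * Fintype.card P := by
  simp only [WC, Fintype.card_sum, Fintype.card_prod, Fintype.card_bool]
  push_cast
  ring

theorem wb_lin_neg {ι : Type*} [Fintype ι] (a : ι → ℝ) (x : ι → Bool) :
    lin a (fun i => !(x i)) = - lin a x := by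
  unfold lin
  rw [← Finset.sum_neg_distrib]
  refine Finset.sum_congr rfl fun i _ => ?_
  show a i * sg (!(x i)) = -(a i * sg (x i))
  cases h : x i <;> simp [sg]

theorem wb_eps (n η J : ℝ) (hn : 1 ≤ n) (hη : 0 ≤ η) (hJ : 0 ≤ J) :
    51 * η ≤ 10 ^ 15 * (J + 1) * n * η ∧ 4 * η ≤ 10 ^ 15 * (J + 1) * n * η ∧
    10 ^ 8 * (1800 * η + 5 * n * η) ≤ 10 ^ 15 * (J + 1) * n * η := by
  have h8 : η ≤ n * η := by nlinarith only [hn, hη]
  have h9 : 0 ≤ n * η := by positivity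
  have h10 : 10 ^ 15 * (n * η) ≤ 10 ^ 15 * (J + 1) * n * η := by
    have h11 : 0 ≤ J * (n * η) := by positivity
    have e : 10 ^ 15 * (J + 1) * n * η = 10 ^ 15 * (J * (n * η)) + 10 ^ 15 * (n * η) := by ring
    rw [e]
    linarith
  refine ⟨?_, ?_, ?_⟩ <;> linarith

theorem wb_B (J : ℝ) (hJ : 0 ≤ J) : (10 : ℝ) ^ 20 ≤ 10 ^ 20 * (J + 1) ∧
    33 * (4 * (10 ^ 20 * (J + 1)) ^ 2 + 2 * (10 ^ 20 * (J + 1)) + 3) ≤ 10 ^ 50 * (J + 1) ^ 2 ∧
    1000 * (10 ^ 20 * (J + 1)) ^ 3 ≤ 10 ^ 70 * (J + 1) ^ 3 := by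
  have h1 : (1 : ℝ) ≤ J + 1 := by linarith
  have h2 : (J + 1) ≤ (J + 1) ^ 2 := by nlinarith only [hJ]
  have h3 : 0 ≤ (J + 1) ^ 3 := by positivity
  refine ⟨by linarith, ?_, ?_⟩
  · have e : (10 ^ 20 * (J + 1)) ^ 2 = 10 ^ 40 * (J + 1) ^ 2 := by ring
    rw [e]
    linarith
  · have e : (10 ^ 20 * (J + 1)) ^ 3 = 10 ^ 60 * (J + 1) ^ 3 := by ring
    rw [e]
    linarith

theorem win_B (W : WData β δ P) (R : ℝ) (J : ℕ) (ε1 : ℝ) (hW : WOK W R J ε1) (hε1 : 0 ≤ ε1)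
    (T0 T1 : Finset P) (h01 : T1 ⊆ T0) (h0 : ∀ k ∈ T0, ∀ s, 1 ≤ W.a (Sum.inr (k, s)))
    (h1 : ∀ k ∈ T1, ∀ s, W.a (Sum.inr (k, s)) ≤ 2)
    (Sc : WX β δ P → ℝ) (ρ : WX β δ P → WX β δ P) (hρ : ∀ x, ρ (ρ x) = x) (hρ' : ∀ x, ρ x ≠ x)
    (hodd : ∀ x, Sc (ρ x) = - Sc x) (hSc : ∀ x, W.ok x → Sc x = W.FC univ 0 x)
    (εf δ0 y Λ η : ℝ) (D0 Λ' : ℕ)
    (hf : ∑ x, ind (¬ W.ok x) ≤ εf * 2 ^ Fintype.card (WC β δ P))
    (hβ1 : (Fintype.card β : ℝ) ≤ Real.sqrt (Fintype.card (WC β δ P)))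
    (hβ : 64 * R ^ 2 ≤ Fintype.card β) (hβδ : 12 * Fintype.card δ ≤ Fintype.card β)
    (hδ0 : 0 ≤ δ0) (hδ1 : δ0 ^ 2 ≤ Fintype.card β)
    (hδ2 : (Fintype.card δ : ℝ) + R ^ 2 + δ0 ^ 2 ≤ Real.sqrt (Fintype.card β))
    (hδ3 : (Fintype.card δ : ℝ) * δ0 ≤ Real.sqrt (Fintype.card (WC β δ P)))
    (hK1 : (W.K : ℝ) * R ≤ Real.sqrt (Fintype.card (WC β δ P)))
    (hK2 : (W.K : ℝ) * R ^ 4 ≤ Fintype.card β * Real.sqrt (Fintype.card β))
    (hT0 : (Fintype.card (WC β δ P) : ℝ) ≤ 16 * T0.card)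
    (hy : 0 ≤ y) (hΛ0 : 0 ≤ Λ) (hη : 0 ≤ η)
    (hη1 : 10 ^ 40 * ((J : ℝ) + 1) * (Fintype.card (WC β δ P) : ℝ) ^ 3 * η ≤ 1)
    (t1 : 2 * Real.exp (-(δ0 ^ 2 / (16 * W.μ ^ 2 * (Fintype.card P + 1)))) ≤ η)
    (t2 : 2 * Real.exp (-(y ^ 2 / (8 * (Fintype.card β + Fintype.card δ + 1)))) ≤ η)
    (t3 : 2 * Real.exp (-((Λ' : ℝ) ^ 2 / (2 * (T1.card + 1)))) + 2 * Real.exp (-(T1.card / 64 : ℝ)) ≤ η)
    (t4 : Real.exp (-(Λ ^ 2 / (8 * (16 + 4 * ((Fintype.card β : ℝ) + Fintype.card δ))))) ≤ η)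
    (t5 : ε1 ≤ η) (t6 : εf ≤ η)
    (hD0 : Λ + 40 + y + δ0 + R + 10 * R ^ 2 * W.K + 10 ^ 50 * ((J : ℝ) + 1) ^ 2 ≤ D0)
    (hD1 : 64 * (D0 + 20) * (Λ' + D0 + 20) ≤ T1.card) :
    ∃ S' : WX β δ P → ℝ, (∀ x, S' (ρ x) = - S' x) ∧
      (∀ θ, ∃ c', ∀ x y, θ < S' x → ¬ θ < S' y → Sc y ≤ c' ∧ c' ≤ Sc x) ∧
      ∀ h : WX β δ P → ℝ, Lip 1 h → ∀ c,
        |∑ x, h x * (ind (c < lin W.a x) - ind (c < S' x))| ≤
          10 ^ 70 * ((J : ℝ) + 1) ^ 3 * 2 ^ Fintype.card (WC β δ P) := by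
  -- basic numbers
  obtain ⟨n, hn⟩ : ∃ n : ℝ, n = Fintype.card (WC β δ P) := ⟨_, rfl⟩
  obtain ⟨b, hb⟩ : ∃ b : ℝ, b = Fintype.card β := ⟨_, rfl⟩
  obtain ⟨d, hd⟩ : ∃ d : ℝ, d = Fintype.card δ := ⟨_, rfl⟩
  obtain ⟨p, hp⟩ : ∃ p : ℝ, p = Fintype.card P := ⟨_, rfl⟩
  have hcard : n = b + d + 2 * p := by
    rw [hn, hb, hd, hp]
    exact wb_card
  have hd0 : 0 ≤ d := by rw [hd]; positivity
  have hp0 : 0 ≤ p := by rw [hp]; positivity
  have hJ0 : (0 : ℝ) ≤ J := by positivity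
  have hK0 : (0 : ℝ) ≤ W.K := by positivity
  have hR := hW.R1
  have hb64 : 64 * R ^ 2 ≤ b := by rw [hb]; exact hβ
  have hb1 : 64 ≤ b := by nlinarith only [hR, hb64]
  have hn1 : 1 ≤ n := by linarith
  have hP2 : (0 : ℝ) < 2 ^ Fintype.card (WC β δ P) := by positivity
  have hsn : 0 ≤ Real.sqrt n := Real.sqrt_nonneg _
  have hbn : b ≤ Real.sqrt n := by rw [hb, hn]; exact hβ1
  have hη1' : 10 ^ 40 * ((J : ℝ) + 1) * n ^ 3 * η ≤ 1 := by rw [hn]; exact hη1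
  have hn3 : n ^ 3 * η ≤ 1 := by
    have h2 : 0 ≤ n ^ 3 * η := by positivity
    have h3 : (1 : ℝ) ≤ 10 ^ 40 * ((J : ℝ) + 1) := by linarith only [hJ0]
    nlinarith only [h2, h3, hη1']
  have hn2 : n ^ 2 * η ≤ 1 := by
    have : n ^ 2 * η ≤ n ^ 3 * η := by
      apply mul_le_mul_of_nonneg_right _ hη
      nlinarith only [mul_nonneg (sq_nonneg n) (sub_nonneg.2 hn1)]
    linarith
  have hnη : n * η ≤ 1 := by
    have : n * η ≤ n ^ 2 * η := by
      apply mul_le_mul_of_nonneg_right _ hη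
      nlinarith only [hn1]
    linarith
  obtain ⟨hT0ne, hE1n⟩ := wb_T0 T0 n hn1 (by rw [hn]; exact hT0)
  set E1 := 80 / Real.sqrt T0.card with hE1d
  have hE10 : 0 ≤ E1 := by positivity
  -- the families
  have lS : ∀ s pp, LForm T0 T1 (W.FS s pp) := fun s pp => lform_FS W R J ε1 hW T0 T1 h01 h0 h1 s pp
  have lC : ∀ s G, LForm T0 T1 (W.FC s G) := fun s G => lform_FC W R J ε1 hW T0 T1 h01 h0 h1 s G
  have hlin : ∀ x, lin W.a x = W.FS univ ∅ x := lin_eq_FS W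
  have lL : LForm T0 T1 (lin W.a) := by
    have : lin W.a = W.FS univ ∅ := funext hlin
    rw [this]
    exact lS _ _
  set T' := 16 + 4 * ((Fintype.card β : ℝ) + Fintype.card δ) with hT'
  have hτ : ∑ x, ind (δ0 < |W.Δ x|) ≤ η * 2 ^ Fintype.card (WC β δ P) :=
    (delta_tail W R J ε1 hW δ0 hδ0).trans (mul_le_mul_of_nonneg_right t1 hP2.le)
  have hfη : ∑ x, ind (¬ W.ok x) ≤ η * 2 ^ Fintype.card (WC β δ P) :=
    hf.trans (mul_le_mul_of_nonneg_right t6 hP2.le)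
  -- closeness
  set Cl := y + δ0 + R + 10 * R ^ 2 * W.K with hCl
  have cS : ∀ s pp, ∑ x, ind (Cl < |W.FS s pp x - lin W.a x|) ≤
      (2 * η) * 2 ^ Fintype.card (WC β δ P) := by
    intro s pp
    refine le_trans (Finset.sum_le_sum fun x _ => ind_mono fun h => lt_of_le_of_lt ?_ h)
      ((close_FS W R J ε1 hW s pp y hy).trans (mul_le_mul_of_nonneg_right (by linarith) hP2.le))
    have : 0 ≤ 10 * R ^ 2 * (W.K : ℝ) := by positivity
    linarith
  have cC : ∀ s G, ∑ x, ind (Cl < |W.FC s G x - lin W.a x|) ≤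
      (2 * η) * 2 ^ Fintype.card (WC β δ P) := by
    intro s G
    refine (close_FC W R J ε1 hW s G y δ0 hy hδ0).trans
      (mul_le_mul_of_nonneg_right (by linarith) hP2.le)
  have cL : ∑ x, ind (Cl < |lin W.a x - lin W.a x|) ≤ (2 * η) * 2 ^ Fintype.card (WC β δ P) := by
    have h2 : ∀ x, ind (Cl < |lin W.a x - lin W.a x|) = 0 := by
      intro x
      apply ind_false
      rw [sub_self, abs_zero, not_lt]
      positivity
    rw [Finset.sum_eq_zero fun x _ => h2 x]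
    positivity
  have hJ1 : (1 : ℝ) ≤ (J + 1) ^ 2 := by nlinarith only [hJ0]
  have hD0' : 1 + Λ + Cl ≤ D0 := by
    have : (0 : ℝ) ≤ 10 ^ 50 * ((J : ℝ) + 1) ^ 2 := by positivity
    rw [hCl]
    linarith
  -- masses
  have mL : ∀ Z, LForm T0 T1 Z → ∀ c t, 16 ≤ t →
      ∑ x, Real.exp (-((Z x - c) ^ 2 / (8 * t))) ≤
        E1 * Real.sqrt t * 2 ^ Fintype.card (WC β δ P) :=
    fun Z hZ c t ht => wb_E1 T0 T1 hT0ne Z hZ c t ht
  have mH : ∀ h : WX β δ P → ℝ, Lip 1 h → ∑ x, h x = 0 → ∀ Z, LForm T0 T1 Z → ∀ c t,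
      16 ≤ t → t ≤ T' →
      (∑ x, |h x| * ind (|Z x - c| ≤ 1) ≤ 2000 * 2 ^ Fintype.card (WC β δ P)) ∧
      ∑ x, |h x| * Real.exp (-((Z x - c) ^ 2 / (8 * t))) ≤
        300000 * Real.sqrt t * 2 ^ Fintype.card (WC β δ P) :=
    fun h hh h0' Z hZ c t ht htT => wb_Eh T0 T1 hT0ne hT0 Z hZ h hh h0' Λ η T' c hΛ0 t4
      (by rw [← hn]; exact hnη) t ht htT
  have hT'16 : 16 ≤ T' := by
    rw [hT', ← hb, ← hd]; linarith
  set B : ℝ := 10 ^ 20 * ((J : ℝ) + 1) with hB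
  set ε : ℝ := 10 ^ 15 * ((J : ℝ) + 1) * n * η with hε
  obtain ⟨hBa, hBb, hBc⟩ := wb_B J hJ0
  rw [← hB] at hBa hBb hBc
  have hB20 : (10 : ℝ) ^ 20 ≤ B := hBa
  have hB1 : 1 ≤ B := by linarith
  obtain ⟨hεa, hεb, hεc⟩ := wb_eps n η J hn1 hη hJ0
  rw [← hε] at hεa hεb hεc
  have hε0 : 0 ≤ ε := by rw [hε]; positivity
  have hne : Nonempty (WC β δ P) := by
    rw [← Fintype.card_pos_iff]
    have : (0 : ℝ) < Fintype.card (WC β δ P) := by rw [← hn]; linarith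
    exact_mod_cast this
  have key := law_match (lin W.a) Sc ρ hρ hρ' hodd (wb_lin_neg W.a) B ε
    (33 * (4 * B ^ 2 + 2 * B + 3)) hB1 hε0 ?_ le_rfl ?_ ?_ ?_ ?_ ?_
  · obtain ⟨S', k1, k2, k3⟩ := key
    refine ⟨S', k1, k2, fun h hh c => (k3 h hh c).trans ?_⟩
    exact mul_le_mul_of_nonneg_right hBc hP2.le
  · -- ε n ≤ 1
    rw [← hn, hε]
    have e1 : 10 ^ 15 * ((J : ℝ) + 1) * n * η * n = 10 ^ 15 * ((J : ℝ) + 1) * (n ^ 2 * η) := by ring
    rw [e1]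
    have h2 : ((J : ℝ) + 1) * (n ^ 2 * η) ≤ ((J : ℝ) + 1) * (n ^ 3 * η) := by
      apply mul_le_mul_of_nonneg_left _ (by positivity)
      apply mul_le_mul_of_nonneg_right _ hη
      nlinarith only [mul_nonneg (sq_nonneg n) (sub_nonneg.2 hn1)]
    have h3 : 0 ≤ ((J : ℝ) + 1) * (n ^ 3 * η) := by positivity
    have h4 : 10 ^ 40 * ((J : ℝ) + 1) * n ^ 3 * η = 10 ^ 40 * (((J : ℝ) + 1) * (n ^ 3 * η)) := by ring
    rw [h4] at hη1'
    linarith
  · -- H1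
    intro h hh h0' c
    have hHm : ∀ x, |h x| ≤ n := fun x => by rw [hn]; exact wb_bound h hh h0' x
    have hw := w1_main W R J ε1 hW hε1 h 1 n E1 300000 c εf η δ0 zero_le_one hh hHm hE10
      (by norm_num) hβ hβδ hδ0 hδ1 Sc hSc hf hτ
      (fun s pp t ht _ => mL _ (lS s pp) c t ht)
      (fun s pp t ht htT => (mH h hh h0' _ (lS s pp) c t ht htT).2)
      (fun s G _ t ht _ => mL _ (lC s G) c t ht)
      (fun s G _ t ht htT => (mH h hh h0' _ (lC s G) c t ht htT).2)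
    refine hw.trans ?_
    rw [← hb, ← hd, ← hp]
    have hnum := wb_num1 n b d p W.K R δ0 J η ε1 εf hb64 hR hd0 hp0 hK0 hJ0 hn1 hbn
      (by linarith) (by linarith) hδ0 (by rw [hb, hd]; exact hδ2) (by rw [hd, hn]; exact hδ3)
      (by rw [hn]; exact hK1) (by rw [hb]; exact hK2) hη hn3 t5 t6 η le_rfl 1 n 300000 E1
      zero_le_one le_rfl (by linarith) (by norm_num) hE10 hE1n
    have h5 : n * (5 * n * η) ≤ 5 := by linarith only [hn2]
    calc 10 ^ 8 * 2 ^ Fintype.card (WC β δ P) * (1 * E1 * (b + R + d * δ0 + W.K * J * R) +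
          300000 * (1 + (d + R ^ 2 + δ0 ^ 2) / Real.sqrt b + W.K * R ^ 4 / (b * Real.sqrt b)) +
          1 * d * p * η + n * (p * ε1 + (1 + p) * η + (1 + W.K) * εf))
        ≤ 10 ^ 8 * 2 ^ Fintype.card (WC β δ P) *
          (1 * (1000 * (J + 1) + 1) + 3 * 300000 + n * (5 * n * η)) :=
          mul_le_mul_of_nonneg_left hnum (by positivity)
      _ ≤ 10 ^ 8 * 2 ^ Fintype.card (WC β δ P) * (10 ^ 12 * ((J : ℝ) + 1)) := by
          apply mul_le_mul_of_nonneg_left _ (by positivity)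
          linarith
      _ = 10 ^ 20 * ((J : ℝ) + 1) * 2 ^ Fintype.card (WC β δ P) := by ring
  · -- H2
    intro c
    set Q := ∑ x, ind (|lin W.a x - c| ≤ 16) with hQ
    have hQ0 : 0 ≤ Q := Finset.sum_nonneg fun x _ => ind_nonneg _
    set Eh := 10000 * (Q / 2 ^ Fintype.card (WC β δ P)) + 200 * (η + 2 * η) with hEhd
    have hEh0 : 0 ≤ Eh := by positivity
    have mq : ∀ Z : WX β δ P → ℝ, LForm T0 T1 Z →
        ∑ x, ind (Cl < |Z x - lin W.a x|) ≤ (2 * η) * 2 ^ Fintype.card (WC β δ P) → ∀ t, 16 ≤ t → t ≤ T' →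
        ∑ x, |(fun _ : WX β δ P => (1 : ℝ)) x| * Real.exp (-((Z x - c) ^ 2 / (8 * t))) ≤
          Eh * Real.sqrt t * 2 ^ Fintype.card (WC β δ P) := by
      intro Z hZ hcl t ht htT
      simp only [abs_one, one_mul]
      exact wb_Eq T0 T1 h01 Z (lin W.a) hZ lL D0 Λ' hD1 Cl Λ η (2 * η) c T' hη (by linarith)
        hcl t3 hD0' hΛ0 t4 t ht htT
    have hw := w1_main W R J ε1 hW hε1 (fun _ => (1 : ℝ)) 0 1 E1 Eh c εf η δ0 le_rfl
      (fun x i => by simp) (fun x => by simp) hE10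
      hEh0 hβ hβδ hδ0 hδ1 Sc hSc hf hτ
      (fun s pp t ht _ => mL _ (lS s pp) c t ht)
      (fun s pp t ht htT => mq _ (lS s pp) (cS s pp) t ht htT)
      (fun s G _ t ht _ => mL _ (lC s G) c t ht)
      (fun s G _ t ht htT => mq _ (lC s G) (cC s G) t ht htT)
    simp only [one_mul] at hw
    refine hw.trans ?_
    rw [← hb, ← hd, ← hp]
    have hnum := wb_num1 n b d p W.K R δ0 J η ε1 εf hb64 hR hd0 hp0 hK0 hJ0 hn1 hbn
      (by linarith) (by linarith) hδ0 (by rw [hb, hd]; exact hδ2) (by rw [hd, hn]; exact hδ3)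
      (by rw [hn]; exact hK1) (by rw [hb]; exact hK2) hη hn3 t5 t6 η le_rfl 0 1 Eh E1
      le_rfl zero_le_one zero_le_one hEh0 hE10 hE1n
    simp only [one_mul] at hnum
    have hPne : (2 : ℝ) ^ Fintype.card (WC β δ P) ≠ 0 := hP2.ne'
    calc _ ≤ 10 ^ 8 * 2 ^ Fintype.card (WC β δ P) *
          (0 * (1000 * (J + 1) + 1) + 3 * Eh + (5 * n * η)) :=
          mul_le_mul_of_nonneg_left hnum (by positivity)
      _ = 3 * 10 ^ 12 * Q + (10 ^ 8 * (1800 * η + 5 * n * η)) *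
          2 ^ Fintype.card (WC β δ P) := by
          rw [hEhd]
          field_simp
          ring
      _ ≤ _ := by
          have h6 : 3 * 10 ^ 12 * Q ≤ B * Q :=
            mul_le_mul_of_nonneg_right (by linarith) hQ0
          have h7 : (10 ^ 8 * (1800 * η + 5 * n * η)) * 2 ^ Fintype.card (WC β δ P) ≤
              ε * 2 ^ Fintype.card (WC β δ P) := mul_le_mul_of_nonneg_right hεc hP2.le
          exact add_le_add h6 h7
  · -- H2'
    intro c
    have h2 := wb_replace (fun _ : WX β δ P => (1 : ℝ)) (fun _ => zero_le_one) 1 (fun _ => le_rfl)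
      zero_le_one W.ok Sc (W.FC univ 0) hSc c _ hfη
    simp only [one_mul] at h2
    have h3 := wb_kap T0 T1 h01 (W.FC univ 0) (lin W.a) (lC _ _) lL D0 Λ' hD1 Cl Λ η (2 * η) c c
      (cC _ _) t3 (by rw [sub_self, abs_zero]; exact hΛ0) hD0'
    have hQ0 : 0 ≤ ∑ x, ind (|lin W.a x - c| ≤ 16) := Finset.sum_nonneg fun x _ => ind_nonneg _
    have h4 : 100 * ∑ x, ind (|lin W.a x - c| ≤ 16) ≤ B * ∑ x, ind (|lin W.a x - c| ≤ 16) :=
      mul_le_mul_of_nonneg_right (by linarith) hQ0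
    have h6 := mul_le_mul_of_nonneg_right hεb hP2.le
    linarith
  · -- H3
    intro c e hce
    have h2 : ∀ j ∈ range 17, ∑ x, ind (|lin W.a x - (c + 2 * ((j : ℝ) - 8))| ≤ 1) ≤
        100 * ∑ x, ind (|lin W.a x - e| ≤ 16) + (η + 2 * η) * 2 ^ Fintype.card (WC β δ P) := by
      intro j hj
      rw [mem_range] at hj
      have hj' : (j : ℝ) ≤ 16 := by
        have : j ≤ 16 := by omega
        exact_mod_cast this
      have hj0 : (0 : ℝ) ≤ j := by positivity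
      refine wb_kap T0 T1 h01 (lin W.a) (lin W.a) lL lL D0 Λ' hD1 0
        (16 + 33 * (4 * B ^ 2 + 2 * B + 3)) η (2 * η) e _ ?_ t3 ?_ ?_
      · have h3 : ∀ x, ind ((0 : ℝ) < |lin W.a x - lin W.a x|) = 0 := by
          intro x
          apply ind_false
          rw [sub_self, abs_zero]
          exact lt_irrefl _
        rw [Finset.sum_eq_zero fun x _ => h3 x]
        positivity
      · have e1 : c + 2 * ((j : ℝ) - 8) - e = 2 * ((j : ℝ) - 8) + (c - e) := by ring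
        rw [e1]
        have h4 : |c - e| ≤ 33 * (4 * B ^ 2 + 2 * B + 3) := by rw [abs_sub_comm]; exact hce
        have h5 : |2 * ((j : ℝ) - 8)| ≤ 16 := by
          rw [abs_le]
          constructor <;> linarith
        exact (abs_add_le _ _).trans (add_le_add h5 h4)
      · have h7 : (0 : ℝ) ≤ 10 * R ^ 2 * W.K := by positivity
        linarith
    have h3 : ∀ x, ind (|lin W.a x - c| ≤ 16) ≤
        ∑ j ∈ range 17, ind (|lin W.a x - (c + 2 * ((j : ℝ) - 8))| ≤ 1) := by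
      intro x
      by_cases h : |lin W.a x - c| ≤ 16
      · obtain ⟨j, hj, hj2⟩ := wb_cover _ _ h
        rw [ind_true h]
        calc (1 : ℝ) = ind (|lin W.a x - (c + 2 * ((j : ℝ) - 8))| ≤ 1) := (ind_true hj2).symm
          _ ≤ _ := Finset.single_le_sum
            (f := fun j : ℕ => ind (|lin W.a x - (c + 2 * ((j : ℝ) - 8))| ≤ 1))
            (fun j _ => ind_nonneg _) hj
      · rw [ind_false h]
        exact Finset.sum_nonneg fun j _ => ind_nonneg _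
    have hQ0 : 0 ≤ ∑ x, ind (|lin W.a x - e| ≤ 16) := Finset.sum_nonneg fun x _ => ind_nonneg _
    calc ∑ x, ind (|lin W.a x - c| ≤ 16)
        ≤ ∑ x, ∑ j ∈ range 17, ind (|lin W.a x - (c + 2 * ((j : ℝ) - 8))| ≤ 1) :=
          Finset.sum_le_sum fun x _ => h3 x
      _ = ∑ j ∈ range 17, ∑ x, ind (|lin W.a x - (c + 2 * ((j : ℝ) - 8))| ≤ 1) :=
          Finset.sum_comm
      _ ≤ ∑ j ∈ range 17, (100 * ∑ x, ind (|lin W.a x - e| ≤ 16) +
          (η + 2 * η) * 2 ^ Fintype.card (WC β δ P)) := Finset.sum_le_sum h2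
      _ = 1700 * ∑ x, ind (|lin W.a x - e| ≤ 16) + (51 * η) * 2 ^ Fintype.card (WC β δ P) := by
          rw [Finset.sum_const, card_range, nsmul_eq_mul]
          push_cast
          ring
      _ ≤ _ := by
          have h4 : 1700 * ∑ x, ind (|lin W.a x - e| ≤ 16) ≤
              B * ∑ x, ind (|lin W.a x - e| ≤ 16) :=
            mul_le_mul_of_nonneg_right (by linarith) hQ0
          have h6 := mul_le_mul_of_nonneg_right hεa hP2.le
          linarith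
  · -- H4
    intro h hh h0' c
    have hB2 : 2001 ≤ B := by linarith
    constructor
    · refine ((mH h hh h0' _ lL c 16 le_rfl hT'16).1).trans ?_
      exact mul_le_mul_of_nonneg_right (by linarith) hP2.le
    · have h2 := wb_replace (fun x => |h x|) (fun x => abs_nonneg _) n
        (fun x => by rw [hn]; exact wb_bound h hh h0' x) (by linarith) W.ok Sc (W.FC univ 0) hSc c
        _ hfη
      have h3 := (mH h hh h0' _ (lC univ 0) c 16 le_rfl hT'16).1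
      have h4 : n * (η * 2 ^ Fintype.card (WC β δ P)) ≤ 1 * 2 ^ Fintype.card (WC β δ P) := by
        rw [← mul_assoc]
        exact mul_le_mul_of_nonneg_right hnη hP2.le
      have h5 := mul_le_mul_of_nonneg_right hB2 hP2.le
      linarith

end BLO
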