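import Mathlib

/-!
# Chunk NM1: the numerical parameters of a window

All inequalities are of the form `C N^α ≤ N^β` or `C log N ≤ N^α` for `N ≥ N0`, with `R ≤ N^(1/256)`.
Choices in the last part: `δ0 = N^(1/15)`, `y = Λ = N^(3/10)`, `η = 1/N^4`, `D0 = ⌈N^(9/20)⌉₊`, `Λ' = ⌈√T1 * N^(1/1000)⌉₊`.
-/

namespace BLO

open Finset

/-- the parameters -/
structure Par (N : ℕ) (R : ℝ) (b d p M nmin qmax s : ℕ) : Prop where
  hN : N = b + d + 2 * p
  hb : b = ⌊Real.sqrt N / 100⌋₊ ∨ b = ⌊Real.sqrt N / 100⌋₊ + 1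
  hd : d = 5 * Nat.clog 2 N
  hM : M = ⌈(N : ℝ) ^ (7 / 16 : ℝ)⌉₊
  hn : nmin = ⌈(N : ℝ) ^ (1 / 32 : ℝ)⌉₊
  hq : qmax = ⌈R * M⌉₊ + 2
  hs : s = Nat.log 2 N / 40

/-- all the powers of `N` in terms of `x = N^(1/256)` -/
structure NM1Bas (N : ℕ) (R x : ℝ) : Prop where
  hx : 10 ^ 10 ≤ x
  hN : (N : ℝ) = x ^ 256
  hR : R ≤ x
  hc : 5 * (Nat.clog 2 N : ℝ) ≤ x
  hl : Real.log N ≤ x
  hs : Real.sqrt N = x ^ 128
  hM : (N : ℝ) ^ (7 / 16 : ℝ) = x ^ 112
  hn : (N : ℝ) ^ (1 / 32 : ℝ) = x ^ 8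
  h31 : (N : ℝ) ^ (31 / 32 : ℝ) = x ^ 248

theorem nm1_exists_bas : ∃ N0 : ℕ, ∀ (N : ℕ) (R : ℝ), N0 ≤ N → 1 ≤ R → R ^ 256 ≤ N → ∃ x, NM1Bas N R x := by
  have h1 : ∀ᶠ t : ℝ in Filter.atTop, (10 : ℝ) ^ 10 ≤ t ^ (1 / 256 : ℝ) :=
    (tendsto_rpow_atTop (by norm_num)).eventually_ge_atTop _
  have h2 : ∀ᶠ t : ℝ in Filter.atTop, Real.log t ≤ 1 / 10 * t ^ (1 / 256 : ℝ) := by
    have := (isLittleO_log_rpow_atTop (r := (1 / 256 : ℝ)) (by norm_num)).def (c := 1 / 10)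
      (by norm_num)
    filter_upwards [this, Filter.eventually_ge_atTop (1 : ℝ)] with t ht h1t
    rw [Real.norm_of_nonneg (Real.log_nonneg h1t), Real.norm_of_nonneg (by positivity)] at ht
    exact ht
  have h3 := tendsto_natCast_atTop_atTop (R := ℝ) |>.eventually (h1.and h2)
  obtain ⟨N0, hN0⟩ := Filter.eventually_atTop.1 h3
  refine ⟨max N0 1, fun N R hN hR hRN => ?_⟩
  obtain ⟨ha, hb⟩ := hN0 N (le_trans (le_max_left _ _) hN)
  have hN1 : 1 ≤ N := le_trans (le_max_right _ _) hN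
  have hNp : (0 : ℝ) < N := by exact_mod_cast hN1
  set x : ℝ := (N : ℝ) ^ (1 / 256 : ℝ) with hxd
  have hx0 : 0 < x := by positivity
  have hpow : ∀ k : ℕ, x ^ k = (N : ℝ) ^ ((k : ℝ) / 256) := by
    intro k
    rw [hxd, ← Real.rpow_natCast, ← Real.rpow_mul hNp.le]
    congr 1
    ring
  refine ⟨x, ⟨ha, ?_, ?_, ?_, ?_, ?_, ?_, ?_, ?_⟩⟩
  · rw [hpow]
    norm_num
  · have : R ^ 256 ≤ x ^ 256 := by
      rw [hpow 256]
      norm_num
      exact hRN
    exact le_of_pow_le_pow_left₀ (by norm_num) hx0.le this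
  · -- clog
    rcases Nat.lt_or_ge 1 N with h1N | h1N
    · have hc : (Nat.clog 2 N : ℝ) ≤ Real.log N / Real.log 2 + 1 := by
        have hp : 2 ^ (Nat.clog 2 N).pred < N := Nat.pow_pred_clog_lt_self (by norm_num) h1N
        have hc1 : 0 < Nat.clog 2 N := Nat.clog_pos (by norm_num) (by omega)
        have h4 : ((2 : ℝ) ^ (Nat.clog 2 N).pred) < N := by exact_mod_cast hp
        have h5 := Real.log_lt_log (by positivity) h4
        rw [Real.log_pow] at h5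
        have h6 : (((Nat.clog 2 N).pred : ℕ) : ℝ) = (Nat.clog 2 N : ℝ) - 1 := by
          rw [Nat.pred_eq_sub_one, Nat.cast_sub (by omega)]
          norm_num
        rw [h6] at h5
        have hl2 : 0 < Real.log 2 := Real.log_pos (by norm_num)
        have : (Nat.clog 2 N : ℝ) - 1 ≤ Real.log N / Real.log 2 := by
          rw [le_div_iff₀ hl2]
          exact h5.le
        linarith
      have hl2 : 0.6931471803 < Real.log 2 := Real.log_two_gt_d9
      have hlN : 0 ≤ Real.log N := Real.log_nonneg (by exact_mod_cast hN1)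
      have : Real.log N / Real.log 2 ≤ 1.5 * Real.log N := by
        rw [div_le_iff₀ (by linarith)]
        nlinarith
      have h10 : (10 : ℝ) ^ 10 ≤ x := ha
      nlinarith
    · have : N = 1 := by omega
      rw [this]
      norm_num
      linarith [ha]
  · linarith
  · rw [hpow, Real.sqrt_eq_rpow]
    norm_num
  · rw [hpow]
    norm_num
  · rw [hpow]
    norm_num
  · rw [hpow]
    norm_num

theorem exists_par : ∃ N0 : ℕ, ∀ (N : ℕ) (R : ℝ), N0 ≤ N → 1 ≤ R → R ^ 256 ≤ N →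
    ∃ b d p M nmin qmax s : ℕ, Par N R b d p M nmin qmax s := by
  obtain ⟨N0, h0⟩ := nm1_exists_bas
  refine ⟨N0, fun N R hN hR hRN => ?_⟩
  obtain ⟨x, hx, hxN, hxR, hc, hl, hsq, hM, hn, h31⟩ := h0 N R hN hR hRN
  have hx1 : (1 : ℝ) ≤ x := by linarith [show (1 : ℝ) ≤ 10 ^ 10 by norm_num]
  set b0 := ⌊Real.sqrt N / 100⌋₊ with hb0
  set d := 5 * Nat.clog 2 N with hd
  have hbd : b0 + 1 + d ≤ N := by
    have h1 : (b0 : ℝ) ≤ x ^ 128 / 100 := by
      rw [← hsq]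
      exact Nat.floor_le (by positivity)
    have h2 : ((b0 + 1 + d : ℕ) : ℝ) ≤ N := by
      rw [hxN]
      push_cast
      have h3 : (d : ℝ) ≤ x := by
        rw [hd]
        push_cast
        exact hc
      have h4 : x ≤ x ^ 128 := le_self_pow₀ hx1 (by norm_num)
      have h5 : x ^ 256 = x ^ 128 * x ^ 128 := by ring
      have h6 : 10 ^ 10 ≤ x ^ 128 := le_trans hx h4
      rw [h5]
      nlinarith
    exact_mod_cast h2
  rcases Nat.even_or_odd (N - (b0 + d)) with he | ho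
  · obtain ⟨p, hp⟩ := he
    exact ⟨b0, d, p, _, _, _, _, ⟨by omega, Or.inl rfl, rfl, rfl, rfl, rfl, rfl⟩⟩
  · obtain ⟨p, hp⟩ := ho
    exact ⟨b0 + 1, d, p, _, _, _, _, ⟨by omega, Or.inr rfl, rfl, rfl, rfl, rfl, rfl⟩⟩

/-- bounds of all parameters in terms of `x` -/
structure NM1PB (N : ℕ) (R x : ℝ) (b d p M nmin qmax s : ℕ) : Prop where
  hb1 : x ^ 128 / 100 - 1 ≤ b
  hb2 : (b : ℝ) ≤ x ^ 128 / 100 + 1
  hd1 : (d : ℝ) ≤ x
  hd2 : (N : ℝ) ^ 5 ≤ 2 ^ d
  hp : (2 : ℝ) * p = x ^ 256 - b - d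
  hM1 : x ^ 112 ≤ M
  hM2 : (M : ℝ) ≤ x ^ 112 + 1
  hn1 : x ^ 8 ≤ nmin
  hn2 : (nmin : ℝ) ≤ x ^ 8 + 1
  hq1 : R * M + 2 ≤ qmax
  hq2 : (qmax : ℝ) ≤ R * M + 3
  hs1 : ((2 : ℝ) ^ s) ^ 40 ≤ x ^ 256
  hs2 : x ^ 256 ≤ ((2 : ℝ) ^ s) ^ 40 * 2 ^ 40

theorem Par.pb {N : ℕ} {R x : ℝ} {b d p M nmin qmax s : ℕ} (h : Par N R b d p M nmin qmax s)
    (hB : NM1Bas N R x) (hR : 1 ≤ R) : NM1PB N R x b d p M nmin qmax s := by
  obtain ⟨hN, hb, hd, hM, hn, hq, hs⟩ := h
  obtain ⟨hx, hxN, hxR, hc, hl, hsq, hM', hn', h31⟩ := hB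
  have hx1 : (1 : ℝ) ≤ x := by linarith [show (1 : ℝ) ≤ 10 ^ 10 by norm_num]
  have hx0 : (0 : ℝ) < x := by linarith
  have hNp : (0 : ℝ) < N := by rw [hxN]; positivity
  have hN0 : N ≠ 0 := by
    intro h
    rw [h] at hNp
    simp at hNp
  rw [hsq] at hb
  rw [hM'] at hM
  rw [hn'] at hn
  have hf1 : (⌊x ^ 128 / 100⌋₊ : ℝ) ≤ x ^ 128 / 100 := Nat.floor_le (by positivity)
  have hf2 : x ^ 128 / 100 < ⌊x ^ 128 / 100⌋₊ + 1 := Nat.lt_floor_add_one _
  refine ⟨?_, ?_, ?_, ?_, ?_, ?_, ?_, ?_, ?_, ?_, ?_, ?_, ?_⟩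
  · rcases hb with hb | hb
    · rw [hb]; linarith
    · rw [hb]; push_cast; linarith
  · rcases hb with hb | hb
    · rw [hb]; linarith
    · rw [hb]; push_cast; linarith
  · rw [hd]; push_cast; exact hc
  · rw [hd, mul_comm, pow_mul]
    have h1 : N ≤ 2 ^ Nat.clog 2 N := Nat.le_pow_clog (by norm_num) N
    have h2 : (N : ℝ) ≤ 2 ^ Nat.clog 2 N := by exact_mod_cast h1
    exact pow_le_pow_left₀ hNp.le h2 5
  · rw [← hxN]
    have : (N : ℝ) = b + d + 2 * p := by exact_mod_cast hN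
    linarith
  · rw [hM]; exact Nat.le_ceil _
  · rw [hM]; exact (Nat.ceil_lt_add_one (by positivity)).le
  · rw [hn]; exact Nat.le_ceil _
  · rw [hn]; exact (Nat.ceil_lt_add_one (by positivity)).le
  · rw [hq]; push_cast; linarith [Nat.le_ceil (R * M)]
  · rw [hq]; push_cast
    have : (⌈R * (M : ℝ)⌉₊ : ℝ) < R * M + 1 := Nat.ceil_lt_add_one (by positivity)
    linarith
  · have h1 : 2 ^ Nat.log 2 N ≤ N := Nat.pow_log_le_self 2 hN0
    have h2 : (2 ^ s) ^ 40 ≤ N := by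
      rw [← pow_mul]
      refine le_trans (Nat.pow_le_pow_right (by norm_num) ?_) h1
      rw [hs]
      omega
    rw [← hxN]
    exact_mod_cast h2
  · have h1 : N < 2 ^ (Nat.log 2 N + 1) := Nat.lt_pow_succ_log_self (by norm_num) N
    have h2 : N ≤ (2 ^ s) ^ 40 * 2 ^ 40 := by
      rw [← pow_mul, ← pow_add]
      refine le_trans h1.le (Nat.pow_le_pow_right (by norm_num) ?_)
      rw [hs]
      omega
    rw [← hxN]
    exact_mod_cast h2

theorem nm1_pw {x : ℝ} (hx : 10 ^ 10 ≤ x) (a b : ℕ) (h : a < b) : 10 ^ 10 * x ^ a ≤ x ^ b := by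
  have hx1 : (1 : ℝ) ≤ x := by linarith [show (1 : ℝ) ≤ 10 ^ 10 by norm_num]
  have h1 : x ^ (a + 1) ≤ x ^ b := pow_le_pow_right₀ hx1 h
  have h2 : x ^ (a + 1) = x * x ^ a := by ring
  have h3 : 0 ≤ x ^ a := by positivity
  nlinarith

theorem NM1PB.q2 {N : ℕ} {R x : ℝ} {b d p M nmin qmax s : ℕ} (h : NM1PB N R x b d p M nmin qmax s)
    (hB : NM1Bas N R x) : (qmax : ℝ) ≤ 2 * x ^ 113 := by
  have hx := hB.hx
  have h1 := h.hq2
  have h2 : R * M ≤ x * (x ^ 112 + 1) :=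
    mul_le_mul hB.hR h.hM2 (by positivity) (by linarith [hB.hR])
  have h3 : x * (x ^ 112 + 1) = x ^ 113 + x := by ring
  have h4 := nm1_pw hx 1 113 (by norm_num)
  have h5 := nm1_pw hx 0 1 (by norm_num)
  simp only [pow_zero, pow_one] at h4 h5
  linarith

theorem NM1PB.p1 {N : ℕ} {R x : ℝ} {b d p M nmin qmax s : ℕ} (h : NM1PB N R x b d p M nmin qmax s)
    (hB : NM1Bas N R x) : x ^ 256 / 4 ≤ (p : ℝ) := by
  have hx := hB.hx
  have h1 := h.hp
  have h2 := h.hb2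
  have h3 := h.hd1
  have h4 := nm1_pw hx 128 256 (by norm_num)
  have h5 := nm1_pw hx 0 1 (by norm_num)
  have h6 := nm1_pw hx 1 128 (by norm_num)
  simp only [pow_zero, pow_one] at h4 h5 h6
  linarith

theorem NM1PB.p2 {N : ℕ} {R x : ℝ} {b d p M nmin qmax s : ℕ} (h : NM1PB N R x b d p M nmin qmax s) :
    (p : ℝ) ≤ x ^ 256 / 2 := by
  have h1 := h.hp
  have h2 : (0 : ℝ) ≤ b := by positivity
  have h3 : (0 : ℝ) ≤ d := by positivity
  linarith

theorem NM1PB.n2 {N : ℕ} {R x : ℝ} {b d p M nmin qmax s : ℕ} (h : NM1PB N R x b d p M nmin qmax s)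
    (hB : NM1Bas N R x) : (nmin : ℝ) ≤ 2 * x ^ 8 := by
  have hx := hB.hx
  have h1 := h.hn2
  have h5 := nm1_pw hx 0 8 (by norm_num)
  simp only [pow_zero] at h5
  linarith

/-- the hypotheses of `exists_ww` -/
theorem par_ww : ∃ N0 : ℕ, ∀ (N : ℕ) (R : ℝ), N0 ≤ N → 1 ≤ R → R ^ 256 ≤ N →
    ∀ b d p M nmin qmax s : ℕ, Par N R b d p M nmin qmax s →
    0 < b ∧ 2 * R ≤ M ∧ 0 < nmin ∧ R * M + 2 ≤ qmax ∧ (4 * qmax) ^ 2 + qmax * (4 * nmin + 3) < p ∧
    8 * (300 * (2 ^ s - 1)) ≤ nmin ∧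
    Real.exp (-(nmin / 16 : ℝ)) + 2 * qmax / 2 ^ (s * 300) ≤ 1 / (N : ℝ) ^ 6 ∧
    4 * (qmax : ℝ) ^ 2 * R ^ 2 ≤ nmin * (M : ℝ) ^ 2 ∧
    4 * qmax * (1 / (N : ℝ) ^ 6) * Real.sqrt ((2 * qmax) ^ 2 * p) ≤ 1 ∧
    4 * qmax * (1 / (N : ℝ) ^ 6) * Real.sqrt p ≤ 1 ∧ p * (1 / (N : ℝ) ^ 6) ≤ 1 ∧
    24 * qmax * R ^ 2 ≤ 3 / 4 * b := by
  obtain ⟨N0, h0⟩ := nm1_exists_bas
  refine ⟨N0, fun N R hN hR hRN b d p M nmin qmax s hP => ?_⟩
  obtain ⟨x, hB⟩ := h0 N R hN hR hRN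
  have hPB := hP.pb hB hR
  have hx := hB.hx
  have hxN := hB.hN
  have hRx := hB.hR
  have hx1 : (1 : ℝ) ≤ x := by linarith [show (1 : ℝ) ≤ 10 ^ 10 by norm_num]
  have hx0 : (0 : ℝ) < x := by linarith
  have hq := hPB.q2 hB
  have hp1 := hPB.p1 hB
  have hp2 := hPB.p2
  have hn1 := hPB.hn1
  have hn2 := hPB.n2 hB
  have hb1 := hPB.hb1
  have hM1 := hPB.hM1
  have hq0 : (0 : ℝ) ≤ qmax := by positivity
  have hM0 : (0 : ℝ) ≤ M := by positivity
  have e0 := nm1_pw hx 0 1 (by norm_num)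
  simp only [pow_zero, pow_one] at e0
  refine ⟨?_, ?_, ?_, ?_, ?_, ?_, ?_, ?_, ?_, ?_, ?_, ?_⟩
  · have h1 := nm1_pw hx 1 128 (by norm_num)
    rw [pow_one] at h1
    have : (0 : ℝ) < b := by linarith
    exact_mod_cast this
  · have h1 := nm1_pw hx 1 112 (by norm_num)
    rw [pow_one] at h1
    linarith
  · have h1 := nm1_pw hx 1 8 (by norm_num)
    rw [pow_one] at h1
    have : (0 : ℝ) < nmin := by linarith
    exact_mod_cast this
  · exact hPB.hq1
  · have h1 : ((4 * qmax) ^ 2 + qmax * (4 * nmin + 3) : ℝ) < p := by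
      have h2 : (4 * qmax : ℝ) ^ 2 ≤ 64 * x ^ 226 := by
        have : (4 * qmax : ℝ) ^ 2 ≤ (4 * (2 * x ^ 113)) ^ 2 :=
          pow_le_pow_left₀ (by positivity) (by linarith) 2
        calc (4 * qmax : ℝ) ^ 2 ≤ (4 * (2 * x ^ 113)) ^ 2 := this
          _ = 64 * x ^ 226 := by ring
      have h3 : (qmax : ℝ) * (4 * nmin + 3) ≤ 16 * x ^ 121 + 6 * x ^ 113 := by
        calc (qmax : ℝ) * (4 * nmin + 3) ≤ (2 * x ^ 113) * (4 * (2 * x ^ 8) + 3) :=
              mul_le_mul hq (by linarith) (by positivity) (by positivity)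
          _ = 16 * x ^ 121 + 6 * x ^ 113 := by ring
      have h4 := nm1_pw hx 226 256 (by norm_num)
      have h5 := nm1_pw hx 121 226 (by norm_num)
      have h6 := nm1_pw hx 113 121 (by norm_num)
      have h7 : 0 < x ^ 113 := by positivity
      linarith
    exact_mod_cast h1
  · have h1 := hPB.hs1
    have h2 : (2400 * (2 : ℝ) ^ s) ≤ x ^ 8 := by
      refine le_of_pow_le_pow_left₀ (n := 40) (by norm_num) (by positivity) ?_
      calc (2400 * (2 : ℝ) ^ s) ^ 40 = 2400 ^ 40 * (2 ^ s) ^ 40 := by ring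
        _ ≤ 2400 ^ 40 * x ^ 256 := by
            exact mul_le_mul_of_nonneg_left h1 (by positivity)
        _ ≤ x ^ 64 * x ^ 256 := by
            refine mul_le_mul_of_nonneg_right ?_ (by positivity)
            calc (2400 : ℝ) ^ 40 ≤ (10 ^ 10) ^ 64 := by norm_num
              _ ≤ x ^ 64 := pow_le_pow_left₀ (by norm_num) hx 64
        _ = (x ^ 8) ^ 40 := by ring
    have h3 : ((2400 * 2 ^ s : ℕ) : ℝ) ≤ nmin := by
      push_cast
      linarith
    have h4 : 2400 * 2 ^ s ≤ nmin := by exact_mod_cast h3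
    omega
  · -- the exponential
    have hlog : 6 * Real.log N + Real.log 2 ≤ x ^ 8 / 16 := by
      have h1 := hB.hl
      have h2 : Real.log 2 ≤ 1 := by
        have := Real.log_two_lt_d9
        linarith
      have h3 := nm1_pw hx 1 8 (by norm_num)
      rw [pow_one] at h3
      linarith
    have hNp : (0 : ℝ) < N := by rw [hxN]; positivity
    have h1 : Real.exp (-(nmin / 16 : ℝ)) ≤ 1 / (2 * (N : ℝ) ^ 6) := by
      calc Real.exp (-(nmin / 16 : ℝ)) ≤ Real.exp (-(6 * Real.log N + Real.log 2)) := by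
            apply Real.exp_le_exp.2
            linarith
        _ = 1 / (2 * (N : ℝ) ^ 6) := by
            rw [Real.exp_neg, Real.exp_add, Real.exp_log (by norm_num : (0 : ℝ) < 2),
              show 6 * Real.log N = Real.log ((N : ℝ) ^ 6) by rw [Real.log_pow]; norm_num,
              Real.exp_log (by positivity)]
            rw [one_div, mul_comm]
    have h2 : 2 * (qmax : ℝ) / 2 ^ (s * 300) ≤ 1 / (2 * (N : ℝ) ^ 6) := by
      have h3 := hPB.hs2
      set z : ℝ := 2 ^ s with hz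
      have hz0 : 0 < z := by positivity
      have h4 : (2 : ℝ) ^ (s * 300) = z ^ 300 := by rw [pow_mul]
      have h5 : x ^ 128 ≤ z ^ 20 * 2 ^ 20 := by
        refine le_of_pow_le_pow_left₀ (n := 2) (by norm_num) (by positivity) ?_
        calc (x ^ 128) ^ 2 = x ^ 256 := by ring
          _ ≤ z ^ 40 * 2 ^ 40 := h3
          _ = (z ^ 20 * 2 ^ 20) ^ 2 := by ring
      have h6 : x ^ 1920 ≤ z ^ 300 * ((2 ^ 40) ^ 7 * 2 ^ 20) := by
        calc x ^ 1920 = (x ^ 256) ^ 7 * x ^ 128 := by ring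
          _ ≤ (z ^ 40 * 2 ^ 40) ^ 7 * (z ^ 20 * 2 ^ 20) := by
              refine mul_le_mul (pow_le_pow_left₀ (by positivity) h3 7) h5 (by positivity)
                (by positivity)
          _ = z ^ 300 * ((2 ^ 40) ^ 7 * 2 ^ 20) := by ring
      rw [h4, div_le_div_iff₀ (by positivity) (by positivity), hxN]
      calc 2 * (qmax : ℝ) * (2 * (x ^ 256) ^ 6) ≤ 2 * (2 * x ^ 113) * (2 * (x ^ 256) ^ 6) := by
            refine mul_le_mul_of_nonneg_right (by linarith) (by positivity)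
        _ = 8 * x ^ 1649 := by ring
        _ ≤ 1 * z ^ 300 := by
            have h7 : (8 * ((2 ^ 40) ^ 7 * 2 ^ 20) : ℝ) ≤ x ^ 271 := by
              calc (8 * ((2 ^ 40) ^ 7 * 2 ^ 20) : ℝ) ≤ (10 ^ 10) ^ 10 := by norm_num
                _ ≤ x ^ 10 := pow_le_pow_left₀ (by norm_num) hx 10
                _ ≤ x ^ 271 := pow_le_pow_right₀ hx1 (by norm_num)
            have h8 : 8 * ((2 ^ 40) ^ 7 * 2 ^ 20) * x ^ 1649 ≤ z ^ 300 * ((2 ^ 40) ^ 7 * 2 ^ 20) := by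
              calc 8 * ((2 ^ 40) ^ 7 * 2 ^ 20) * x ^ 1649 ≤ x ^ 271 * x ^ 1649 :=
                    mul_le_mul_of_nonneg_right h7 (by positivity)
                _ = x ^ 1920 := by ring
                _ ≤ _ := h6
            have h9 : (0 : ℝ) < (2 ^ 40) ^ 7 * 2 ^ 20 := by positivity
            refine le_of_mul_le_mul_right ?_ h9
            linarith
    have h3 : (1 : ℝ) / (2 * (N : ℝ) ^ 6) + 1 / (2 * (N : ℝ) ^ 6) = 1 / (N : ℝ) ^ 6 := by
      field_simp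
      norm_num
    linarith
  · have h1 : (qmax : ℝ) ≤ 2 * (R * M) := by
      have h2 := hPB.hq2
      have h3 : (3 : ℝ) ≤ M := by
        have := nm1_pw hx 0 112 (by norm_num)
        rw [pow_zero] at this
        linarith
      nlinarith
    have h2 : 16 * R ^ 4 ≤ x ^ 8 := by
      have h3 : R ^ 4 ≤ x ^ 4 := pow_le_pow_left₀ (by linarith) hRx 4
      have h4 := nm1_pw hx 4 8 (by norm_num)
      have h5 : 0 ≤ x ^ 4 := by positivity
      linarith
    calc 4 * (qmax : ℝ) ^ 2 * R ^ 2 ≤ 4 * (2 * (R * M)) ^ 2 * R ^ 2 := by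
          have : (qmax : ℝ) ^ 2 ≤ (2 * (R * M)) ^ 2 := pow_le_pow_left₀ hq0 h1 2
          exact mul_le_mul_of_nonneg_right (by linarith) (by positivity)
      _ = (16 * R ^ 4) * (M : ℝ) ^ 2 := by ring
      _ ≤ nmin * (M : ℝ) ^ 2 := mul_le_mul_of_nonneg_right (by linarith) (by positivity)
  · have h1 : Real.sqrt ((2 * qmax) ^ 2 * p) ≤ x ^ 242 := by
      rw [Real.sqrt_le_left (by positivity)]
      calc ((2 * qmax : ℝ)) ^ 2 * p ≤ (2 * (2 * x ^ 113)) ^ 2 * (x ^ 256 / 2) := by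
            refine mul_le_mul ?_ hp2 (by positivity) (by positivity)
            exact pow_le_pow_left₀ (by positivity) (by linarith) 2
        _ = 8 * x ^ 482 := by ring
        _ ≤ (x ^ 242) ^ 2 := by
            have h2 := nm1_pw hx 482 484 (by norm_num)
            have h3 : (x ^ 242) ^ 2 = x ^ 484 := by ring
            have h4 : 0 ≤ x ^ 482 := by positivity
            linarith
    rw [hxN]
    calc 4 * (qmax : ℝ) * (1 / (x ^ 256) ^ 6) * Real.sqrt ((2 * qmax) ^ 2 * p)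
        ≤ 4 * (2 * x ^ 113) * (1 / (x ^ 256) ^ 6) * x ^ 242 := by
          refine mul_le_mul ?_ h1 (by positivity) (by positivity)
          exact mul_le_mul_of_nonneg_right (by linarith) (by positivity)
      _ = 8 * x ^ 355 / x ^ 1536 := by ring
      _ ≤ 1 := by
          rw [div_le_one (by positivity)]
          have h2 := nm1_pw hx 355 1536 (by norm_num)
          have h4 : 0 ≤ x ^ 355 := by positivity
          linarith
  · have h1 : Real.sqrt p ≤ x ^ 128 := by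
      rw [Real.sqrt_le_left (by positivity)]
      calc (p : ℝ) ≤ x ^ 256 / 2 := hp2
        _ ≤ (x ^ 128) ^ 2 := by
            have h3 : (x ^ 128) ^ 2 = x ^ 256 := by ring
            have h4 : 0 ≤ x ^ 256 := by positivity
            linarith
    rw [hxN]
    calc 4 * (qmax : ℝ) * (1 / (x ^ 256) ^ 6) * Real.sqrt p
        ≤ 4 * (2 * x ^ 113) * (1 / (x ^ 256) ^ 6) * x ^ 128 := by
          refine mul_le_mul ?_ h1 (by positivity) (by positivity)
          exact mul_le_mul_of_nonneg_right (by linarith) (by positivity)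
      _ = 8 * x ^ 241 / x ^ 1536 := by ring
      _ ≤ 1 := by
          rw [div_le_one (by positivity)]
          have h2 := nm1_pw hx 241 1536 (by norm_num)
          have h4 : 0 ≤ x ^ 241 := by positivity
          linarith
  · rw [hxN, mul_one_div, div_le_one (by positivity)]
    have h2 := nm1_pw hx 256 1536 (by norm_num)
    have h3 : (x ^ 256) ^ 6 = x ^ 1536 := by ring
    have h4 : 0 ≤ x ^ 256 := by positivity
    linarith
  · have h1 : 24 * (qmax : ℝ) * R ^ 2 ≤ 48 * x ^ 115 := by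
      calc 24 * (qmax : ℝ) * R ^ 2 ≤ 24 * (2 * x ^ 113) * x ^ 2 := by
            refine mul_le_mul (by linarith) (pow_le_pow_left₀ (by linarith) hRx 2) (by positivity)
              (by positivity)
        _ = 48 * x ^ 115 := by ring
    have h2 := nm1_pw hx 115 128 (by norm_num)
    have h3 := nm1_pw hx 1 115 (by norm_num)
    rw [pow_one] at h3
    linarith

/-- few coordinates outside the word, few dither coordinates, roles exist -/
theorem par_q : ∃ N0 : ℕ, ∀ (N : ℕ) (R : ℝ), N0 ≤ N → 1 ≤ R → R ^ 256 ≤ N →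
    ∀ b d p M nmin qmax s : ℕ, Par N R b d p M nmin qmax s →
    (b : ℝ) + d + 2 * (qmax * (4 * nmin + 3)) ≤ Real.sqrt N ∧
    (d : ℝ) * (1 + Real.sqrt N + 601 * Real.sqrt N) ≤ N ∧
    (b : ℝ) + d ≤ (N : ℝ) ^ (31 / 32 : ℝ) := by
  obtain ⟨N0, h0⟩ := nm1_exists_bas
  refine ⟨N0, fun N R hN hR hRN b d p M nmin qmax s hP => ?_⟩
  obtain ⟨x, hB⟩ := h0 N R hN hR hRN
  have hPB := hP.pb hB hR
  have hx := hB.hx
  have hxN := hB.hN
  have hx1 : (1 : ℝ) ≤ x := by linarith [show (1 : ℝ) ≤ 10 ^ 10 by norm_num]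
  have hx0 : (0 : ℝ) < x := by linarith
  have hq := hPB.q2 hB
  have hn2 := hPB.n2 hB
  have hb2 := hPB.hb2
  have hd1 := hPB.hd1
  have e0 := nm1_pw hx 0 1 (by norm_num)
  have e1 := nm1_pw hx 1 128 (by norm_num)
  simp only [pow_zero, pow_one] at e0 e1
  refine ⟨?_, ?_, ?_⟩
  · rw [hB.hs]
    have h3 : (qmax : ℝ) * (4 * nmin + 3) ≤ 16 * x ^ 121 + 6 * x ^ 113 := by
      calc (qmax : ℝ) * (4 * nmin + 3) ≤ (2 * x ^ 113) * (4 * (2 * x ^ 8) + 3) :=
            mul_le_mul hq (by linarith) (by positivity) (by positivity)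
        _ = 16 * x ^ 121 + 6 * x ^ 113 := by ring
    have h5 := nm1_pw hx 121 128 (by norm_num)
    have h6 := nm1_pw hx 113 121 (by norm_num)
    have h7 : 0 < x ^ 113 := by positivity
    linarith
  · rw [hB.hs, hxN]
    have h1 : (d : ℝ) * (1 + x ^ 128 + 601 * x ^ 128) ≤ x * (603 * x ^ 128) := by
      refine mul_le_mul hd1 (by linarith) (by positivity) (by positivity)
    have h2 : x * (603 * x ^ 128) = 603 * x ^ 129 := by ring
    have h3 := nm1_pw hx 129 256 (by norm_num)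
    have h4 : 0 ≤ x ^ 129 := by positivity
    linarith
  · rw [hB.h31]
    have h3 := nm1_pw hx 128 248 (by norm_num)
    linarith

end BLO
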