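import Mathlib

/-!
# Numerical parameters of a window (win_num): all inequalities at once
-/

namespace BLO

open Filter Topology

/-- `1/μ` -/
noncomputable def nM (N : ℕ) : ℕ := ⌈(N : ℝ) ^ (7 / 16 : ℝ)⌉₊
/-- minimal size of a block -/
noncomputable def nmin (N : ℕ) : ℕ := ⌈(N : ℝ) ^ (1 / 32 : ℝ)⌉₊
/-- number of dither coordinates -/
def nd (N : ℕ) : ℕ := 5 * Nat.clog 2 N
/-- bits of a Hamming digit -/
def ns (N : ℕ) : ℕ := Nat.log 2 N / 40
/-- bound of the rounded weights -/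
noncomputable def nq (N : ℕ) (R : ℝ) : ℕ := ⌈R * nM N⌉₊ + 2
/-- closeness for `mt` -/
noncomputable def nD0 (N : ℕ) : ℕ := ⌈(N : ℝ) ^ (9 / 20 : ℝ)⌉₊
/-- width of the central range for `mt` -/
noncomputable def nL (N tt : ℕ) : ℕ := ⌈Real.sqrt tt * (N : ℝ) ^ (1 / 1000 : ℝ)⌉₊

/-- the numerical facts -/
structure WNum (N : ℕ) (R : ℝ) (b p tt K : ℕ) : Prop where
  hβ1 : (b : ℝ) ≤ Real.sqrt N
  hβ : 64 * R ^ 2 ≤ b
  hβδ : 12 * (nd N : ℝ) ≤ b
  hδ1 : ((N : ℝ) ^ (1 / 15 : ℝ)) ^ 2 ≤ b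
  hδ2 : (nd N : ℝ) + R ^ 2 + ((N : ℝ) ^ (1 / 15 : ℝ)) ^ 2 ≤ Real.sqrt b
  hδ3 : (nd N : ℝ) * (N : ℝ) ^ (1 / 15 : ℝ) ≤ Real.sqrt N
  hK1 : (K : ℝ) * R ≤ Real.sqrt N
  hK2 : (K : ℝ) * R ^ 4 ≤ b * Real.sqrt b
  hη1 : 10 ^ 40 * (((1200 : ℕ) : ℝ) + 1) * (N : ℝ) ^ 3 * (1 / (N : ℝ) ^ 4) ≤ 1
  t1 : 2 * Real.exp (-(((N : ℝ) ^ (1 / 15 : ℝ)) ^ 2 / (16 * (1 / (nM N : ℝ)) ^ 2 * (p + 1)))) ≤
    1 / (N : ℝ) ^ 4
  t2 : 2 * Real.exp (-(((N : ℝ) ^ (3 / 10 : ℝ)) ^ 2 / (8 * (b + nd N + 1)))) ≤ 1 / (N : ℝ) ^ 4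
  t3 : 2 * Real.exp (-((nL N tt : ℝ) ^ 2 / (2 * (tt + 1)))) + 2 * Real.exp (-((tt : ℝ) / 64)) ≤
    1 / (N : ℝ) ^ 4
  t4 : Real.exp (-(((N : ℝ) ^ (3 / 10 : ℝ)) ^ 2 / (8 * (16 + 4 * ((b : ℝ) + nd N))))) ≤
    1 / (N : ℝ) ^ 4
  t5 : 1 / (nM N : ℝ) / 2 ^ nd N ≤ 1 / (N : ℝ) ^ 4
  t6 : (K : ℝ) * (1 / (N : ℝ) ^ 6) ≤ 1 / (N : ℝ) ^ 4
  hD0 : (N : ℝ) ^ (3 / 10 : ℝ) + 40 + (N : ℝ) ^ (3 / 10 : ℝ) + (N : ℝ) ^ (1 / 15 : ℝ) + R +
    10 * R ^ 2 * K + 10 ^ 50 * (((1200 : ℕ) : ℝ) + 1) ^ 2 ≤ nD0 N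
  hD1 : 64 * (nD0 N + 20) * (nL N tt + nD0 N + 20) ≤ tt
  f2 : 8 * (300 * (2 ^ ns N - 1)) ≤ nmin N
  f3 : Real.exp (-((nmin N : ℝ) / 16)) + 2 * (nq N R : ℝ) / 2 ^ (ns N * 300) ≤ 1 / (N : ℝ) ^ 6
  f4a : (nq N R : ℝ) * (4 * nmin N + 3) * 2 ≤ Real.sqrt N
  f4b : (nq N R : ℝ) * (4 * nmin N + 3) * 2 ≤ p / 2
  f5 : (K : ℝ) * 6 * R ^ 2 ≤ 3 / 4 * b
  f6 : (K : ℝ) ^ 2 ≤ N / 6
  f7 : (2 * (nq N R : ℝ)) ^ 2 ≤ nmin N * ((nM N : ℝ) / R) ^ 2
  f8a : (K : ℝ) / (N : ℝ) ^ 6 * Real.sqrt ((2 * (nq N R : ℝ)) ^ 2 * N) ≤ 1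
  f8b : (K : ℝ) / (N : ℝ) ^ 6 * Real.sqrt N ≤ 1
  f8c : (N : ℝ) / (N : ℝ) ^ 6 ≤ 1
  f9a : (b : ℝ) + nd N + 2 * nq N R * (4 * nmin N + 3) ≤ Real.sqrt N
  f9b : (nd N : ℝ) * (1 + Real.sqrt N + 601 * Real.sqrt N) ≤ N

/-- comparison of powers -/
theorem num_pow (C α β : ℝ) (h : α < β) : ∀ᶠ x : ℝ in atTop, C * x ^ α ≤ x ^ β := by
  have h1 : Tendsto (fun x : ℝ => x ^ (β - α)) atTop atTop := tendsto_rpow_atTop (by linarith)
  filter_upwards [h1.eventually_ge_atTop C, eventually_gt_atTop (0 : ℝ)] with x hx hx0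
  have e : x ^ β = x ^ (β - α) * x ^ α := by
    rw [← Real.rpow_add hx0]; congr 1; ring
  rw [e]
  exact mul_le_mul_of_nonneg_right hx (Real.rpow_nonneg hx0.le _)

/-- comparison of exponentials -/
theorem num_exp (A α c : ℝ) (k : ℕ) (hα : 0 < α) (hc : 0 < c) :
    ∀ᶠ x : ℝ in atTop, A * Real.exp (-(c * x ^ α)) ≤ 1 / x ^ k := by
  have h1 : Tendsto (fun x : ℝ => x ^ α) atTop atTop := tendsto_rpow_atTop hα
  -- y^j exp(-c y) → 0 with y = x^α, j α ≥ k
  obtain ⟨j, hj⟩ : ∃ j : ℕ, (k : ℝ) ≤ j * α := by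
    obtain ⟨j, hj⟩ := exists_nat_ge ((k : ℝ) / α)
    exact ⟨j, by rwa [div_le_iff₀ hα] at hj⟩
  have h2 : Tendsto (fun y : ℝ => y ^ j * Real.exp (-(c * y))) atTop (𝓝 0) := by
    have h3 := (Real.tendsto_pow_mul_exp_neg_atTop_nhds_zero j).comp
      (tendsto_id.const_mul_atTop hc)
    have h4 := h3.const_mul ((c ^ j)⁻¹)
    rw [mul_zero] at h4
    refine h4.congr fun y => ?_
    simp only [Function.comp, id]
    rw [mul_pow]
    have : c ^ j ≠ 0 := by positivity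
    field_simp
  have h5 : ∀ᶠ y : ℝ in atTop, (|A| + 1) * (y ^ j * Real.exp (-(c * y))) ≤ 1 := by
    have h6 := h2.const_mul (|A| + 1)
    rw [mul_zero] at h6
    exact (h6.eventually (gt_mem_nhds (show (0 : ℝ) < 1 by norm_num))).mono fun y hy => le_of_lt hy
  filter_upwards [h1.eventually h5, eventually_ge_atTop (1 : ℝ)] with x hx hx1
  have hx0 : 0 < x := by linarith
  rw [le_div_iff₀ (by positivity)]
  have h7 : x ^ k ≤ (x ^ α) ^ j := by
    rw [← Real.rpow_natCast (x ^ α) j, ← Real.rpow_mul hx0.le, ← Real.rpow_natCast x k]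
    apply Real.rpow_le_rpow_of_exponent_le hx1
    linarith
  have h8 : 0 < Real.exp (-(c * x ^ α)) := Real.exp_pos _
  calc A * Real.exp (-(c * x ^ α)) * x ^ k
      ≤ (|A| + 1) * Real.exp (-(c * x ^ α)) * (x ^ α) ^ j := by
        have hA : A ≤ |A| + 1 := (le_abs_self A).trans (by linarith)
        have h9 : 0 ≤ x ^ k := by positivity
        have h10 : (0 : ℝ) ≤ |A| + 1 := by positivity
        calc A * Real.exp (-(c * x ^ α)) * x ^ k
            ≤ (|A| + 1) * Real.exp (-(c * x ^ α)) * x ^ k := by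
              apply mul_le_mul_of_nonneg_right _ h9
              exact mul_le_mul_of_nonneg_right hA h8.le
          _ ≤ _ := mul_le_mul_of_nonneg_left h7 (by positivity)
    _ = (|A| + 1) * ((x ^ α) ^ j * Real.exp (-(c * x ^ α))) := by ring
    _ ≤ 1 := hx

/-- the dither -/
theorem num_clog : ∀ᶠ N : ℕ in atTop, (nd N : ℝ) ≤ (N : ℝ) ^ (1 / 64 : ℝ) := by
  have h1 : ∀ᶠ x : ℝ in atTop, 20 * Real.log x ≤ x ^ (1 / 64 : ℝ) := by
    have h2 := (isLittleO_log_rpow_atTop (show (0 : ℝ) < 1 / 64 by norm_num)).def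
      (show (0 : ℝ) < 1 / 20 by norm_num)
    filter_upwards [h2, eventually_ge_atTop (1 : ℝ)] with x hx hx1
    rw [Real.norm_of_nonneg (Real.log_nonneg hx1),
      Real.norm_of_nonneg (Real.rpow_nonneg (by linarith) _)] at hx
    linarith
  filter_upwards [tendsto_natCast_atTop_atTop.eventually h1, eventually_ge_atTop 4] with N hN h4
  refine le_trans ?_ hN
  have h5 : 2 ^ (Nat.clog 2 N - 1) < N := Nat.pow_pred_clog_lt_self (by norm_num) (by omega)
  have h6 : 2 ≤ Nat.clog 2 N := by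
    have : Nat.clog 2 4 ≤ Nat.clog 2 N := Nat.clog_mono_right 2 h4
    have h7 : Nat.clog 2 4 = 2 := by
      have := Nat.clog_pow 2 2 (by norm_num)
      simpa using this
    omega
  have hN0 : (0 : ℝ) < N := by
    have : 0 < N := by omega
    exact_mod_cast this
  have h8 : ((Nat.clog 2 N - 1 : ℕ) : ℝ) * Real.log 2 ≤ Real.log N := by
    rw [← Real.log_pow]
    apply Real.log_le_log (by positivity)
    exact_mod_cast h5.le
  have h9 : (Nat.clog 2 N : ℝ) ≤ 2 * ((Nat.clog 2 N - 1 : ℕ) : ℝ) := by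
    have : Nat.clog 2 N ≤ 2 * (Nat.clog 2 N - 1) := by omega
    exact_mod_cast this
  have h10 : (1 : ℝ) / 2 < Real.log 2 := by
    have := Real.log_two_gt_d9
    linarith
  unfold nd
  push_cast
  have h11 : (0 : ℝ) ≤ ((Nat.clog 2 N - 1 : ℕ) : ℝ) := Nat.cast_nonneg _
  nlinarith

theorem num_ceil {x : ℝ} (hx : 1 ≤ x) : x ≤ (⌈x⌉₊ : ℝ) ∧ (⌈x⌉₊ : ℝ) ≤ 2 * x := by
  refine ⟨Nat.le_ceil x, ?_⟩
  have := Nat.ceil_lt_add_one (show 0 ≤ x by linarith)
  linarith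

theorem num_mul {x : ℝ} (hx : 1 ≤ x) (α β γ : ℝ) (h : α + β ≤ γ) : x ^ α * x ^ β ≤ x ^ γ := by
  rw [← Real.rpow_add (by linarith)]
  exact Real.rpow_le_rpow_of_exponent_le hx h

theorem win_num : ∃ N0 : ℕ, ∀ N ≥ N0, ∀ R : ℝ, 1 ≤ R → R ^ 256 ≤ N → ∀ b p tt K : ℕ,
    (b = ⌊Real.sqrt N / 100⌋₊ ∨ b = ⌊Real.sqrt N / 100⌋₊ + 1) → b + nd N + 2 * p = N →
    (N : ℝ) ^ (31 / 32 : ℝ) / 4 ≤ tt → K = 4 * nq N R → WNum N R b p tt K := by
  have key : ∀ᶠ N : ℕ in atTop, ∀ R : ℝ, 1 ≤ R → R ^ 256 ≤ N → ∀ b p tt K : ℕ,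
    (b = ⌊Real.sqrt N / 100⌋₊ ∨ b = ⌊Real.sqrt N / 100⌋₊ + 1) → b + nd N + 2 * p = N →
    (N : ℝ) ^ (31 / 32 : ℝ) / 4 ≤ tt → K = 4 * nq N R → WNum N R b p tt K := by
    have ev := fun (C α β : ℝ) (h : α < β) =>
      tendsto_natCast_atTop_atTop.eventually (num_pow C α β h)
    have ex := fun (A α c : ℝ) (k : ℕ) (hα : 0 < α) (hc : 0 < c) =>
      tendsto_natCast_atTop_atTop.eventually (num_exp A α c k hα hc)
    filter_upwards [num_clog, tendsto_natCast_atTop_atTop.eventually_ge_atTop ((10 : ℝ) ^ 60),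
      ev 12800 (1 / 128) (1 / 2) (by norm_num), ev 2400 (1 / 64) (1 / 2) (by norm_num),
      ev 200 (2 / 15) (1 / 2) (by norm_num), ev 45 (2 / 15) (1 / 4) (by norm_num),
      ev 20 (114 / 256) (1 / 2) (by norm_num), ev 60000 (117 / 256) (3 / 4) (by norm_num),
      ex 2 (1 / 120) (1 / 16) 4 (by norm_num) (by norm_num),
      ex 2 (1 / 10) 1 4 (by norm_num) (by norm_num),
      ex 4 (1 / 500) (1 / 4) 4 (by norm_num) (by norm_num),
      ex 4 (31 / 32) (1 / 256) 4 (by norm_num) (by norm_num),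
      ev 12 (3 / 10) (9 / 20) (by norm_num), ev 6 (1 / 15) (9 / 20) (by norm_num),
      ev 6 (1 / 256) (9 / 20) (by norm_num), ev 1200 (115 / 256) (9 / 20) (by norm_num),
      ev (6 * (40 + 10 ^ 50 * 1201 ^ 2)) 0 (9 / 20) (by norm_num),
      ev 1920 (451 / 1000) (31 / 64) (by norm_num), ev 2400 (1 / 40) (1 / 32) (by norm_num),
      ev (20 * 2 ^ 280) (113 / 256) 1 (by norm_num),
      ex 2 (1 / 32) (1 / 16) 6 (by norm_num) (by norm_num),
      ev 880 (121 / 256) (1 / 2) (by norm_num), ev 32000 (115 / 256) (1 / 2) (by norm_num),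
      ev 2400 (226 / 256) 1 (by norm_num), ev 16 (4 / 256) (1 / 32) (by norm_num),
      ev 603 (33 / 64) 1 (by norm_num), ev 10 (247 / 256) 1 (by norm_num),
      ev 20 (1 / 64) (1 / 2) (by norm_num)] with N hd hN g1 g2 g3 g4 g5 g6 x1 x2 x3 x4 g7 g8 g9
        g10 g11 g12 g13 g14 x5 g15 g16 g17 g18 g19 g20 g21
    intro R hR hRN b p tt K hb hp htt hK
    obtain ⟨x, hx⟩ : ∃ x : ℝ, x = (N : ℝ) := ⟨_, rfl⟩
    rw [← hx] at hd hN g1 g2 g3 g4 g5 g6 x1 x2 x3 x4 g7 g8 g9 g10 g11 g12 g13 g14 x5 g15 g16 g17 g18 g19 g20 g21 hRN htt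
    have hx1 : (1 : ℝ) ≤ x := by linarith only [hN]
    have hx0 : (0 : ℝ) < x := by linarith only [hN]
    have pp : ∀ α : ℝ, 0 < x ^ α := fun α => Real.rpow_pos_of_pos hx0 α
    have p1 : ∀ α : ℝ, 0 ≤ α → 1 ≤ x ^ α := fun α hα => Real.one_le_rpow hx1 hα
    have mul := fun α β γ : ℝ => num_mul hx1 α β γ
    have mon : ∀ α β : ℝ, α ≤ β → x ^ α ≤ x ^ β := fun α β h =>
      Real.rpow_le_rpow_of_exponent_le hx1 h
    have e1 : x ^ (1 : ℝ) = x := Real.rpow_one x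
    have hs : Real.sqrt x = x ^ (1 / 2 : ℝ) := Real.sqrt_eq_rpow x
    have hss : x ^ (1 / 2 : ℝ) * x ^ (1 / 2 : ℝ) = x := by
      rw [← Real.rpow_add hx0]; norm_num
    have hs30 : (10 : ℝ) ^ 30 ≤ x ^ (1 / 2 : ℝ) := by
      apply le_of_sq_le_sq _ (pp _).le
      rw [sq (x ^ (1 / 2 : ℝ)), hss, ← pow_mul]
      exact hN
    have pph := pp (1 / 2)
    -- R
    have hR0 : 0 < R := by linarith only [hR]
    have hR' : R ≤ x ^ (1 / 256 : ℝ) := by
      have h1 : R = (R ^ 256) ^ (1 / 256 : ℝ) := by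
        rw [← Real.rpow_natCast, ← Real.rpow_mul hR0.le]
        norm_num
      rw [h1]
      exact Real.rpow_le_rpow (by positivity) hRN (by norm_num)
    have hRk : ∀ k : ℕ, R ^ k ≤ x ^ ((k : ℝ) / 256) := by
      intro k
      have h1 := pow_le_pow_left₀ hR0.le hR' k
      have h2 : (x ^ (1 / 256 : ℝ)) ^ k = x ^ ((k : ℝ) / 256) := by
        rw [← Real.rpow_natCast, ← Real.rpow_mul hx0.le]
        congr 1; ring
      rwa [h2] at h1
    have hR2 : R ^ 2 ≤ x ^ (2 / 256 : ℝ) := by have := hRk 2; norm_num at this ⊢; exact this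
    have hR4 : R ^ 4 ≤ x ^ (4 / 256 : ℝ) := by have := hRk 4; norm_num at this ⊢; exact this
    -- M
    obtain ⟨M, hM⟩ : ∃ M : ℝ, M = (nM N : ℝ) := ⟨_, rfl⟩
    have hMb : x ^ (7 / 16 : ℝ) ≤ M ∧ M ≤ 2 * x ^ (7 / 16 : ℝ) := by
      rw [hM, nM, ← hx]
      exact num_ceil (p1 _ (by norm_num))
    have hM1 : 1 ≤ M := (p1 _ (by norm_num)).trans hMb.1
    have hM10 : 10 ≤ M := by
      have h1 : x ^ (1 / 4 : ℝ) ≤ x ^ (7 / 16 : ℝ) := mon _ _ (by norm_num)
      have h3 := p1 (2 / 15) (by norm_num)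
      linarith only [hMb.1, h1, h3, g4]
    have hM0 : 0 < M := by linarith only [hM10]
    -- q
    obtain ⟨q, hq⟩ : ∃ q : ℝ, q = (nq N R : ℝ) := ⟨_, rfl⟩
    have hRM : 0 ≤ R * M := by positivity
    have hqb : R * M ≤ q ∧ q ≤ R * M + 3 := by
      have h1 : q = (⌈R * M⌉₊ : ℝ) + 2 := by
        rw [hq, nq, hM]
        push_cast
        ring
      have h2 := Nat.le_ceil (R * M)
      have h3 := Nat.ceil_lt_add_one hRM
      constructor
      · linarith only [h1, h2]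
      · linarith only [h1, h3]
    have hq0 : 0 ≤ q := hRM.trans hqb.1
    have hq1 : q ≤ 5 * x ^ (113 / 256 : ℝ) := by
      have h1 : R * M ≤ x ^ (1 / 256 : ℝ) * (2 * x ^ (7 / 16 : ℝ)) :=
        mul_le_mul hR' hMb.2 hM0.le (pp _).le
      have h2 := mul (1 / 256) (7 / 16) (113 / 256) (by norm_num)
      have h3 := p1 (113 / 256) (by norm_num)
      linarith only [hqb.2, h1, h2, h3]
    have hq2 : q ≤ 2 * (R * M) := by
      have : 10 ≤ R * M := by nlinarith only [hR, hM10]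
      linarith only [hqb.2, this]
    -- K
    obtain ⟨Kr, hKr⟩ : ∃ Kr : ℝ, Kr = (K : ℝ) := ⟨_, rfl⟩
    have hKq : Kr = 4 * q := by
      rw [hKr, hK, hq]; push_cast; ring
    have hK0 : 0 ≤ Kr := by linarith only [hKq, hq0]
    have hK1 : Kr ≤ 20 * x ^ (113 / 256 : ℝ) := by linarith only [hKq, hq1]
    -- nmin
    obtain ⟨m, hm⟩ : ∃ m : ℝ, m = (nmin N : ℝ) := ⟨_, rfl⟩
    have hmb : x ^ (1 / 32 : ℝ) ≤ m ∧ m ≤ 2 * x ^ (1 / 32 : ℝ) := by
      rw [hm, nmin, ← hx]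
      exact num_ceil (p1 _ (by norm_num))
    have hm0 : 0 < m := lt_of_lt_of_le (pp _) hmb.1
    -- d
    obtain ⟨d, hdd⟩ : ∃ d : ℝ, d = (nd N : ℝ) := ⟨_, rfl⟩
    rw [← hdd] at hd
    have hd0 : 0 ≤ d := by rw [hdd]; exact Nat.cast_nonneg _
    have hd2 : d ≤ x ^ (1 / 2 : ℝ) / 2400 := by linarith only [hd, g2]
    -- b
    obtain ⟨br, hbr⟩ : ∃ br : ℝ, br = (b : ℝ) := ⟨_, rfl⟩
    have hbb : x ^ (1 / 2 : ℝ) / 200 ≤ br ∧ br ≤ x ^ (1 / 2 : ℝ) / 50 := by
      have h0 : 0 ≤ Real.sqrt (N : ℝ) / 100 := by positivity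
      have h1 := Nat.floor_le h0
      have h2 := Nat.lt_floor_add_one (Real.sqrt (N : ℝ) / 100)
      rw [← hx, hs] at h1 h2
      rw [← hx, hs] at hb
      rcases hb with h | h
      · have : br = (⌊x ^ (1 / 2 : ℝ) / 100⌋₊ : ℝ) := by rw [hbr, h]
        constructor
        · linarith only [this, h2, hs30]
        · linarith only [this, h1, hs30]
      · have : br = (⌊x ^ (1 / 2 : ℝ) / 100⌋₊ : ℝ) + 1 := by rw [hbr, h]; push_cast; ring
        constructor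
        · linarith only [this, h2, hs30]
        · linarith only [this, h1, hs30]
    have hbr0 : 0 < br := by linarith only [hbb.1, pph]
    have hsb : x ^ (1 / 4 : ℝ) / 15 ≤ Real.sqrt br := by
      apply Real.le_sqrt_of_sq_le
      have h1 : (x ^ (1 / 4 : ℝ) / 15) ^ 2 = x ^ (1 / 2 : ℝ) / 225 := by
        rw [div_pow, ← Real.rpow_natCast, ← Real.rpow_mul hx0.le]
        norm_num
      rw [h1]
      linarith only [hbb.1, pph]
    -- δ0
    have hδ : (x ^ (1 / 15 : ℝ)) ^ 2 = x ^ (2 / 15 : ℝ) := by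
      rw [← Real.rpow_natCast, ← Real.rpow_mul hx0.le]; norm_num
    have hΛ : (x ^ (3 / 10 : ℝ)) ^ 2 = x ^ (6 / 10 : ℝ) := by
      rw [← Real.rpow_natCast, ← Real.rpow_mul hx0.le]; norm_num
    -- p
    obtain ⟨pr, hpr⟩ : ∃ pr : ℝ, pr = (p : ℝ) := ⟨_, rfl⟩
    have hpx : br + d + 2 * pr = x := by
      rw [hbr, hdd, hpr, hx]
      exact_mod_cast hp
    have hp0 : 0 ≤ pr := by rw [hpr]; exact Nat.cast_nonneg _
    have hxs : 100 * x ^ (1 / 2 : ℝ) ≤ x := by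
      have h1 : 100 * x ^ (1 / 2 : ℝ) ≤ x ^ (1 / 2 : ℝ) * x ^ (1 / 2 : ℝ) :=
        mul_le_mul_of_nonneg_right (by linarith only [hs30]) pph.le
      linarith only [h1, hss]
    have hp4 : x / 4 ≤ pr := by linarith only [hbb.2, hpx, hxs, hd2, pph]
    have hp2 : pr + 1 ≤ x := by linarith only [hbb.1, hpx, hd0, hp4, hbr0, hN]
    -- t1
    obtain ⟨t, ht⟩ : ∃ t : ℝ, t = (tt : ℝ) := ⟨_, rfl⟩
    rw [← ht] at htt
    have ht1 : 1 ≤ t := by
      have h1 : x ^ (1 / 2 : ℝ) ≤ x ^ (31 / 32 : ℝ) := mon _ _ (by norm_num)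
      linarith only [h1, htt, hs30]
    have ht0 : 0 < t := by linarith only [ht1]
    have hst : x ^ (31 / 64 : ℝ) / 2 ≤ Real.sqrt t := by
      apply Real.le_sqrt_of_sq_le
      have h1 : (x ^ (31 / 64 : ℝ) / 2) ^ 2 = x ^ (31 / 32 : ℝ) / 4 := by
        rw [div_pow, ← Real.rpow_natCast, ← Real.rpow_mul hx0.le]
        norm_num
      rw [h1]
      exact htt
    have hst1 : 1 ≤ Real.sqrt t := by
      rw [← Real.sqrt_one]; exact Real.sqrt_le_sqrt ht1
    have hst2 : Real.sqrt t * Real.sqrt t = t := Real.mul_self_sqrt ht0.le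
    have nexp : ∀ a b : ℝ, a ≤ b → Real.exp (-b) ≤ Real.exp (-a) := fun a b h =>
      Real.exp_le_exp.2 (by linarith only [h])
    -- combos
    have hKR : Kr * R ≤ 20 * x ^ (114 / 256 : ℝ) := by
      have h1 : Kr * R ≤ 20 * x ^ (113 / 256 : ℝ) * x ^ (1 / 256 : ℝ) :=
        mul_le_mul hK1 hR' hR0.le (by positivity)
      have h2 := mul (113 / 256) (1 / 256) (114 / 256) (by norm_num)
      linarith only [h1, h2]
    have hKR2 : Kr * R ^ 2 ≤ 20 * x ^ (115 / 256 : ℝ) := by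
      have h1 : Kr * R ^ 2 ≤ 20 * x ^ (113 / 256 : ℝ) * x ^ (2 / 256 : ℝ) :=
        mul_le_mul hK1 hR2 (by positivity) (by positivity)
      have h2 := mul (113 / 256) (2 / 256) (115 / 256) (by norm_num)
      linarith only [h1, h2]
    have hKR4 : Kr * R ^ 4 ≤ 20 * x ^ (117 / 256 : ℝ) := by
      have h1 : Kr * R ^ 4 ≤ 20 * x ^ (113 / 256 : ℝ) * x ^ (4 / 256 : ℝ) :=
        mul_le_mul hK1 hR4 (by positivity) (by positivity)
      have h2 := mul (113 / 256) (4 / 256) (117 / 256) (by norm_num)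
      linarith only [h1, h2]
    have hqm : q * (4 * m + 3) * 2 ≤ 110 * x ^ (121 / 256 : ℝ) := by
      have h3 := p1 (1 / 32) (by norm_num)
      have h1 : q * (4 * m + 3) ≤ 5 * x ^ (113 / 256 : ℝ) * (11 * x ^ (1 / 32 : ℝ)) :=
        mul_le_mul hq1 (by linarith only [hmb.2, h3]) (by positivity) (by positivity)
      have h2 := mul (113 / 256) (1 / 32) (121 / 256) (by norm_num)
      linarith only [h1, h2]
    have hKx : Kr ≤ x := by
      have h1 : x ^ (113 / 256 : ℝ) ≤ x ^ (114 / 256 : ℝ) := mon _ _ (by norm_num)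
      linarith only [h1, hK1, g5, hxs, pph]
    have hqx : q ≤ x := by linarith only [hKx, hKq, hq0]
    have hsx : Real.sqrt x ≤ x := by rw [hs]; linarith only [hxs, pph]
    rw [e1] at g14 g17 g19 g20
    rw [Real.rpow_zero] at g11
    refine ⟨?_, ?_, ?_, ?_, ?_, ?_, ?_, ?_, ?_, ?_, ?_, ?_, ?_, ?_, ?_, ?_, ?_, ?_, ?_, ?_, ?_, ?_,
      ?_, ?_, ?_, ?_, ?_, ?_, ?_⟩
    all_goals (try rw [← hx]); (try rw [← hbr]); (try rw [← hdd]); (try rw [← hKr])
    · rw [hs]; linarith only [hbb.2, pph]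
    · have h1 : R ^ 2 ≤ x ^ (1 / 128 : ℝ) := by
        have : (2 : ℝ) / 256 = 1 / 128 := by norm_num
        rwa [this] at hR2
      linarith only [hbb.1, h1, g1]
    · linarith only [hbb.1, hd2]
    · rw [hδ]; linarith only [hbb.1, g3]
    · rw [hδ]
      have h1 : x ^ (2 / 256 : ℝ) ≤ x ^ (2 / 15 : ℝ) := mon _ _ (by norm_num)
      have h2 : x ^ (1 / 64 : ℝ) ≤ x ^ (2 / 15 : ℝ) := mon _ _ (by norm_num)
      linarith only [h1, h2, hd, hR2, g4, hsb]
    · rw [hs]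
      calc d * x ^ (1 / 15 : ℝ) ≤ x ^ (1 / 64 : ℝ) * x ^ (1 / 15 : ℝ) :=
            mul_le_mul_of_nonneg_right hd (pp _).le
        _ ≤ _ := mul _ _ _ (by norm_num)
    · rw [hs]; linarith only [hKR, g5]
    · have h1 : x ^ (3 / 4 : ℝ) / 3000 ≤ br * Real.sqrt br := by
        have h2 : x ^ (3 / 4 : ℝ) = x ^ (1 / 2 : ℝ) * x ^ (1 / 4 : ℝ) := by
          rw [← Real.rpow_add hx0]; norm_num
        rw [h2]
        calc x ^ (1 / 2 : ℝ) * x ^ (1 / 4 : ℝ) / 3000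
            = (x ^ (1 / 2 : ℝ) / 200) * (x ^ (1 / 4 : ℝ) / 15) := by ring
          _ ≤ _ := mul_le_mul hbb.1 hsb (by have := pp (1 / 4); positivity) hbr0.le
      linarith only [h1, hKR4, g6]
    · have h2 : 10 ^ 40 * (((1200 : ℕ) : ℝ) + 1) * x ^ 3 * (1 / x ^ 4) =
          10 ^ 40 * 1201 / x := by
        have : x ≠ 0 := hx0.ne'
        push_cast
        field_simp
        norm_num
      rw [h2, div_le_one hx0]
      linarith only [hN]
    · rw [← hpr, ← hM, hδ]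
      refine le_trans ?_ x1
      apply mul_le_mul_of_nonneg_left _ (by norm_num)
      apply nexp
      rw [le_div_iff₀ (by positivity)]
      have h1 : x * x ^ (1 / 120 : ℝ) ≤ x ^ (2 / 15 : ℝ) * M ^ 2 := by
        have h2 : (x ^ (7 / 16 : ℝ)) ^ 2 ≤ M ^ 2 := pow_le_pow_left₀ (pp _).le hMb.1 2
        have h3 : (x ^ (7 / 16 : ℝ)) ^ 2 = x ^ (7 / 8 : ℝ) := by
          rw [← Real.rpow_natCast, ← Real.rpow_mul hx0.le]; norm_num
        rw [h3] at h2
        calc x * x ^ (1 / 120 : ℝ) = x ^ (2 / 15 : ℝ) * x ^ (7 / 8 : ℝ) := by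
              rw [← Real.rpow_add hx0]
              nth_rewrite 1 [← e1]
              rw [← Real.rpow_add hx0]
              norm_num
          _ ≤ _ := mul_le_mul_of_nonneg_left h2 (pp _).le
      have h4 : 1 / 16 * x ^ (1 / 120 : ℝ) * (16 * (1 / M) ^ 2 * (pr + 1)) =
          (x ^ (1 / 120 : ℝ) * (pr + 1)) / M ^ 2 := by
        field_simp
      rw [h4, div_le_iff₀ (by positivity)]
      have h5 := mul_le_mul_of_nonneg_left hp2 (pp (1 / 120)).le
      linarith only [h5, h1]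
    · rw [hΛ]
      refine le_trans ?_ x2
      apply mul_le_mul_of_nonneg_left _ (by norm_num)
      apply nexp
      rw [le_div_iff₀ (by positivity), one_mul]
      have h1 : 8 * (br + d + 1) ≤ x ^ (1 / 2 : ℝ) := by linarith only [hbb.2, hd2, hs30]
      calc x ^ (1 / 10 : ℝ) * (8 * (br + d + 1)) ≤ x ^ (1 / 10 : ℝ) * x ^ (1 / 2 : ℝ) :=
            mul_le_mul_of_nonneg_left h1 (pp _).le
        _ ≤ _ := mul _ _ _ (by norm_num)
    · rw [← ht]
      have hL : Real.sqrt t * x ^ (1 / 1000 : ℝ) ≤ (nL N tt : ℝ) := by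
        rw [nL, ← ht, ← hx]; exact Nat.le_ceil _
      have h1 : 2 * Real.exp (-((nL N tt : ℝ) ^ 2 / (2 * (t + 1)))) ≤ 1 / x ^ 4 / 2 := by
        have h2 : 1 / 4 * x ^ (1 / 500 : ℝ) ≤ (nL N tt : ℝ) ^ 2 / (2 * (t + 1)) := by
          rw [le_div_iff₀ (by positivity)]
          have h3 : t * x ^ (1 / 500 : ℝ) ≤ (nL N tt : ℝ) ^ 2 := by
            have h4 := pow_le_pow_left₀ (by positivity) hL 2
            have h5 : (Real.sqrt t * x ^ (1 / 1000 : ℝ)) ^ 2 = t * x ^ (1 / 500 : ℝ) := by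
              rw [mul_pow, Real.sq_sqrt ht0.le, ← Real.rpow_natCast,
                ← Real.rpow_mul hx0.le]
              norm_num
            rwa [h5] at h4
          have h6 : (t + 1) * x ^ (1 / 500 : ℝ) ≤ 2 * t * x ^ (1 / 500 : ℝ) :=
            mul_le_mul_of_nonneg_right (by linarith only [ht1]) (pp _).le
          linarith only [h3, h6]
        have h7 := nexp _ _ h2
        linarith only [h7, x3]
      have h8 : 2 * Real.exp (-(t / 64)) ≤ 1 / x ^ 4 / 2 := by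
        have h9 : 1 / 256 * x ^ (31 / 32 : ℝ) ≤ t / 64 := by linarith only [htt]
        have h7 := nexp _ _ h9
        linarith only [h7, x4]
      linarith only [h1, h8]
    · rw [hΛ]
      refine le_trans ?_ x2
      have h2 : Real.exp (-(x ^ (6 / 10 : ℝ) / (8 * (16 + 4 * (br + d))))) ≤
          Real.exp (-(1 * x ^ (1 / 10 : ℝ))) := by
        apply nexp
        rw [le_div_iff₀ (by positivity), one_mul]
        have h1 : 8 * (16 + 4 * (br + d)) ≤ x ^ (1 / 2 : ℝ) := by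
          linarith only [hbb.2, hd2, hs30]
        calc x ^ (1 / 10 : ℝ) * (8 * (16 + 4 * (br + d))) ≤ x ^ (1 / 10 : ℝ) * x ^ (1 / 2 : ℝ) :=
              mul_le_mul_of_nonneg_left h1 (pp _).le
          _ ≤ _ := mul _ _ _ (by norm_num)
      linarith only [h2, Real.exp_pos (-(1 * x ^ (1 / 10 : ℝ)))]
    · -- t5
      rw [← hM]
      have h1 : x ^ 4 ≤ 2 ^ nd N := by
        have h2 : N ≤ 2 ^ Nat.clog 2 N := Nat.le_pow_clog (by norm_num) N
        have h3 : N ^ 5 ≤ 2 ^ nd N := by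
          rw [nd, mul_comm 5, pow_mul]
          exact Nat.pow_le_pow_left h2 5
        have h4 : x ^ 5 ≤ 2 ^ nd N := by rw [hx]; exact_mod_cast h3
        have h5 : x ^ 4 ≤ x ^ 5 := pow_le_pow_right₀ hx1 (by norm_num)
        linarith only [h4, h5]
      rw [div_div, div_le_div_iff₀ (by positivity) (by positivity), one_mul, one_mul]
      have h6 : (0 : ℝ) < 2 ^ nd N := by positivity
      nlinarith only [h1, h6, hM1]
    · rw [mul_one_div, div_le_div_iff₀ (by positivity) (by positivity), one_mul]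
      have h1 : Kr * x ^ 4 ≤ x * x ^ 4 := mul_le_mul_of_nonneg_right hKx (by positivity)
      have h2 : x * x ^ 4 = x ^ 5 := by ring
      have h3 : x ^ 5 ≤ x ^ 6 := pow_le_pow_right₀ hx1 (by norm_num)
      linarith only [h1, h2, h3]
    · -- hD0
      have h1 : x ^ (9 / 20 : ℝ) ≤ (nD0 N : ℝ) := by rw [nD0, ← hx]; exact Nat.le_ceil _
      have h2 : 10 * R ^ 2 * Kr ≤ 200 * x ^ (115 / 256 : ℝ) := by linarith only [hKR2]
      push_cast
      norm_num at g11 ⊢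
      linarith only [h1, h2, g11, g7, g8, g9, g10, hR']
    · -- hD1
      have h1 : (nD0 N : ℝ) + 20 ≤ 3 * x ^ (9 / 20 : ℝ) := by
        have h2 := (num_ceil (p1 (9 / 20) (by norm_num))).2
        rw [nD0, ← hx]
        norm_num at g11 h2 ⊢
        linarith only [h2, g11]
      have h4 : (nL N tt : ℝ) ≤ 2 * (Real.sqrt t * x ^ (1 / 1000 : ℝ)) := by
        rw [nL, ← ht, ← hx]
        refine (num_ceil ?_).2
        have := p1 (1 / 1000) (by norm_num)
        nlinarith only [this, hst1]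
      have h5 : x ^ (9 / 20 : ℝ) ≤ Real.sqrt t := by
        have h6 : x ^ (9 / 20 : ℝ) ≤ x ^ (451 / 1000 : ℝ) := mon _ _ (by norm_num)
        linarith only [pp (451 / 1000), h6, g12, hst]
      have h7 : (nL N tt : ℝ) + nD0 N + 20 ≤ 5 * (Real.sqrt t * x ^ (1 / 1000 : ℝ)) := by
        have h8 : Real.sqrt t ≤ Real.sqrt t * x ^ (1 / 1000 : ℝ) := by
          have := p1 (1 / 1000) (by norm_num)
          nlinarith only [this, hst1]
        linarith only [h8, h4, h1, h5]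
      have h9 : 64 * ((nD0 N : ℝ) + 20) * ((nL N tt : ℝ) + nD0 N + 20) ≤ t := by
        calc 64 * ((nD0 N : ℝ) + 20) * ((nL N tt : ℝ) + nD0 N + 20)
            ≤ 64 * (3 * x ^ (9 / 20 : ℝ)) * (5 * (Real.sqrt t * x ^ (1 / 1000 : ℝ))) := by
              apply mul_le_mul _ h7 (by positivity) (by have := pp (9 / 20); positivity)
              linarith only [h1]
          _ = 960 * (x ^ (9 / 20 : ℝ) * x ^ (1 / 1000 : ℝ)) * Real.sqrt t := by ring
          _ ≤ 960 * x ^ (451 / 1000 : ℝ) * Real.sqrt t := by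
              apply mul_le_mul_of_nonneg_right _ (Real.sqrt_nonneg _)
              apply mul_le_mul_of_nonneg_left (mul _ _ _ (by norm_num)) (by norm_num)
          _ ≤ Real.sqrt t * Real.sqrt t := by
              apply mul_le_mul_of_nonneg_right _ (Real.sqrt_nonneg _)
              linarith only [g12, hst]
          _ = t := hst2
      rw [ht] at h9
      exact_mod_cast h9
    · -- f2
      have h1 : (2 : ℝ) ^ ns N ≤ x ^ (1 / 40 : ℝ) := by
        have h2 : (2 ^ ns N) ^ 40 ≤ N := by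
          rw [← pow_mul]
          have h3 : ns N * 40 ≤ Nat.log 2 N := by unfold ns; omega
          have h4 : 2 ^ Nat.log 2 N ≤ N := by
            apply Nat.pow_log_le_self
            have : (0 : ℝ) < N := by rw [← hx]; exact hx0
            have : 0 < N := by exact_mod_cast this
            omega
          exact (Nat.pow_le_pow_right (by norm_num) h3).trans h4
        have h3 : ((2 : ℝ) ^ ns N) ^ 40 ≤ x := by rw [hx]; exact_mod_cast h2
        have h4 : (2 : ℝ) ^ ns N = (((2 : ℝ) ^ ns N) ^ 40) ^ (1 / 40 : ℝ) := by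
          rw [← Real.rpow_natCast ((2 : ℝ) ^ ns N) 40, ← Real.rpow_mul (by positivity)]
          norm_num
        rw [h4]
        exact Real.rpow_le_rpow (by positivity) h3 (by norm_num)
      have h5 : 2400 * (2 : ℝ) ^ ns N ≤ (nmin N : ℝ) := by
        rw [← hm]; linarith only [hmb.1, h1, g13]
      have h6 : 2400 * 2 ^ ns N ≤ nmin N := by exact_mod_cast h5
      omega
    · -- f3
      rw [← hm, ← hq]
      have h1 : Real.exp (-(m / 16)) ≤ 1 / x ^ 6 / 2 := by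
        have h2 : 1 / 16 * x ^ (1 / 32 : ℝ) ≤ m / 16 := by linarith only [hmb.1]
        have h3 := nexp _ _ h2
        linarith only [h3, x5]
      have h4 : x ^ 7 ≤ 2 ^ 280 * 2 ^ (ns N * 300) := by
        have h5 : N < 2 ^ (Nat.log 2 N + 1) := Nat.lt_pow_succ_log_self (by norm_num) N
        have h6 : Nat.log 2 N + 1 ≤ 40 * (ns N + 1) := by unfold ns; omega
        have h7 : N ≤ 2 ^ (40 * (ns N + 1)) :=
          h5.le.trans (Nat.pow_le_pow_right (by norm_num) h6)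
        have h8 : N ^ 7 ≤ 2 ^ 280 * 2 ^ (ns N * 300) := by
          calc N ^ 7 ≤ (2 ^ (40 * (ns N + 1))) ^ 7 := Nat.pow_le_pow_left h7 7
            _ = 2 ^ (40 * (ns N + 1) * 7) := by rw [← pow_mul]
            _ ≤ 2 ^ (280 + ns N * 300) := Nat.pow_le_pow_right (by norm_num) (by omega)
            _ = _ := by rw [pow_add]
        rw [hx]
        exact_mod_cast h8
      have h9 : 2 * q / 2 ^ (ns N * 300) ≤ 1 / x ^ 6 / 2 := by
        rw [div_div, div_le_div_iff₀ (by positivity) (by positivity)]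
        obtain ⟨c280, hc⟩ : ∃ c : ℝ, c = (2 : ℝ) ^ 280 := ⟨_, rfl⟩
        rw [← hc] at g14 h4
        have h14 : (0 : ℝ) < c280 := by rw [hc]; positivity
        have h10 : c280 * (20 * q) ≤ 5 * x := by
          have h11 := mul_le_mul_of_nonneg_left hq1 (show (0 : ℝ) ≤ 20 * c280 by positivity)
          linarith only [h11, g14]
        have h12 := mul_le_mul_of_nonneg_right h10 (show 0 ≤ x ^ 6 by positivity)
        have h13 : 5 * x * x ^ 6 = 5 * x ^ 7 := by ring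
        have h15 : c280 * (4 * q * x ^ 6) ≤ c280 * 2 ^ (ns N * 300) := by
          linarith only [h12, h13, h4]
        have h16 := le_of_mul_le_mul_left h15 h14
        linarith only [h16]
      linarith only [h1, h9]
    · rw [← hq, ← hm, hs]; linarith only [hqm, g15, pph]
    · rw [← hq, ← hm, ← hpr]
      linarith only [hqm, g15, hp4, hxs, pph]
    · linarith only [hbb.1, hKR2, g16]
    · have h1 : Kr ^ 2 ≤ 400 * x ^ (226 / 256 : ℝ) := by
        have h2 := pow_le_pow_left₀ hK0 hK1 2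
        have h3 : (20 * x ^ (113 / 256 : ℝ)) ^ 2 = 400 * x ^ (226 / 256 : ℝ) := by
          rw [mul_pow, ← Real.rpow_natCast (x ^ (113 / 256 : ℝ)), ← Real.rpow_mul hx0.le]
          norm_num
        rwa [h3] at h2
      linarith only [h1, g17]
    · -- f7
      rw [← hq, ← hm, ← hM]
      have h1 : (2 * q) ^ 2 ≤ 16 * (R * M) ^ 2 := by
        have h2 := pow_le_pow_left₀ (show 0 ≤ 2 * q by positivity)
          (mul_le_mul_of_nonneg_left hq2 (show (0 : ℝ) ≤ 2 by norm_num)) 2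
        linarith only [h2]
      have h3 : 16 * R ^ 4 ≤ m := by linarith only [hmb.1, hR4, g18]
      have h4 : m * (M / R) ^ 2 = (m * M ^ 2) / R ^ 2 := by
        rw [div_pow]; ring
      rw [h4, le_div_iff₀ (by positivity)]
      have h5 : 16 * R ^ 4 * M ^ 2 ≤ m * M ^ 2 := mul_le_mul_of_nonneg_right h3 (by positivity)
      have h6 := mul_le_mul_of_nonneg_right h1 (show 0 ≤ R ^ 2 by positivity)
      have h7 : 16 * (R * M) ^ 2 * R ^ 2 = 16 * R ^ 4 * M ^ 2 := by ring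
      linarith only [h5, h6, h7]
    · -- f8a
      rw [← hq, Real.sqrt_mul (by positivity), Real.sqrt_sq (by positivity)]
      have h2 : Kr * (2 * q * Real.sqrt x) ≤ x * (2 * x * x) := by
        apply mul_le_mul hKx _ (by positivity) hx0.le
        apply mul_le_mul (by linarith only [hqx]) hsx (Real.sqrt_nonneg _) (by positivity)
      rw [div_mul_eq_mul_div, div_le_one (by positivity)]
      have h3 : x * (2 * x * x) = 2 * x ^ 3 := by ring
      have h4 : 2 * x ^ 3 ≤ x * x ^ 3 :=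
        mul_le_mul_of_nonneg_right (by linarith only [hN]) (by positivity)
      have h5 : x * x ^ 3 = x ^ 4 := by ring
      have h6 : x ^ 4 ≤ x ^ 6 := pow_le_pow_right₀ hx1 (by norm_num)
      linarith only [h2, h3, h4, h5, h6]
    · rw [div_mul_eq_mul_div, div_le_one (by positivity)]
      have h2 : Kr * Real.sqrt x ≤ x * x := mul_le_mul hKx hsx (Real.sqrt_nonneg _) hx0.le
      have h3 : x * x = x ^ 2 := by ring
      have h6 : x ^ 2 ≤ x ^ 6 := pow_le_pow_right₀ hx1 (by norm_num)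
      linarith only [h2, h3, h6]
    · rw [div_le_one (by positivity)]
      calc x = x ^ 1 := (pow_one x).symm
        _ ≤ x ^ 6 := pow_le_pow_right₀ hx1 (by norm_num)
    · rw [← hq, ← hm, hs]
      have h1 : 2 * q * (4 * m + 3) = q * (4 * m + 3) * 2 := by ring
      rw [h1]
      linarith only [hbb.2, pph, hd2, hqm, g15]
    · rw [hs]
      have h1 : 1 + x ^ (1 / 2 : ℝ) + 601 * x ^ (1 / 2 : ℝ) ≤ 603 * x ^ (1 / 2 : ℝ) := by
        linarith only [hs30]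
      calc d * (1 + x ^ (1 / 2 : ℝ) + 601 * x ^ (1 / 2 : ℝ))
          ≤ x ^ (1 / 64 : ℝ) * (603 * x ^ (1 / 2 : ℝ)) :=
            mul_le_mul hd h1 (by positivity) (pp _).le
        _ = 603 * (x ^ (1 / 64 : ℝ) * x ^ (1 / 2 : ℝ)) := by ring
        _ ≤ 603 * x ^ (33 / 64 : ℝ) := by
            apply mul_le_mul_of_nonneg_left (mul _ _ _ (by norm_num)) (by norm_num)
        _ ≤ x := g19
  obtain ⟨N0, h⟩ := eventually_atTop.1 key
  exact ⟨N0, h⟩

end BLO
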