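import Pool.Agent.Lib.BLO.WinNum

/-!
# Chunk NM2: the numerical hypotheses of `win_B`
-/

namespace BLO

open Finset

/-- powers of a large number -/
theorem NM2_pow {X : ℝ} (hX : 10 ^ 60 ≤ X) {i j : ℕ} (h : i < j) : 10 ^ 60 * X ^ i ≤ X ^ j := by
  have h0 : 0 < X := lt_of_lt_of_le (by positivity) hX
  have h1 : (1 : ℝ) ≤ X := le_trans (by norm_num) hX
  calc 10 ^ 60 * X ^ i ≤ X * X ^ i := by gcongr
    _ = X ^ (i + 1) := by ring
    _ ≤ X ^ j := pow_le_pow_right₀ h1 h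

/-- the basic facts in terms of `X = N^(1/256)` -/
theorem NM2_basic : ∃ N0 : ℕ, ∀ (N : ℕ), N0 ≤ N → ∃ X : ℝ, 10 ^ 60 ≤ X ∧ X ^ 256 = N ∧
    Real.sqrt N = X ^ 128 ∧ (N : ℝ) ^ (7 / 16 : ℝ) = X ^ 112 ∧ (N : ℝ) ^ (31 / 32 : ℝ) = X ^ 248 ∧
    5 * (Nat.clog 2 N : ℝ) ≤ X ∧ 4 * Real.log N + 2 ≤ X ∧ (N : ℝ) ≤ 2 ^ Nat.clog 2 N ∧ 0 < N := by
  have h1 := isLittleO_log_rpow_atTop (r := 1 / 256) (by norm_num)
  have h2 := h1.bound (c := 1 / 20) (by norm_num)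
  have h3 := tendsto_rpow_atTop (y := 1 / 256) (by norm_num)
  have h4 := h3.eventually_ge_atTop (10 ^ 60)
  have h5 := (h2.and h4).and (Filter.eventually_ge_atTop (1 : ℝ))
  have h6 := tendsto_natCast_atTop_atTop (R := ℝ) |>.eventually h5
  obtain ⟨N0, hN0⟩ := Filter.eventually_atTop.1 h6
  refine ⟨N0, fun N hN => ?_⟩
  obtain ⟨⟨h7, h8⟩, h9⟩ := hN0 N hN
  have hNr : (0 : ℝ) < N := by linarith
  have hN' : 0 < N := by exact_mod_cast hNr
  have hlog0 : 0 ≤ Real.log N := Real.log_nonneg h9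
  set X : ℝ := (N : ℝ) ^ (1 / 256 : ℝ) with hX
  have hX0 : 0 < X := by positivity
  rw [Real.norm_of_nonneg hlog0, Real.norm_of_nonneg hX0.le] at h7
  have hpow : ∀ k : ℕ, X ^ k = (N : ℝ) ^ ((k : ℝ) / 256) := by
    intro k
    rw [hX, ← Real.rpow_natCast, ← Real.rpow_mul hNr.le]
    congr 1
    ring
  have hcl : (Nat.clog 2 N : ℝ) ≤ 2 * Real.log N + 1 := by
    have e1 : Nat.clog 2 N ≤ Nat.log 2 N + 1 := by
      rw [Nat.clog_le_iff_le_pow (by norm_num)]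
      exact (Nat.lt_pow_succ_log_self (by norm_num) N).le
    have e2 : (Nat.log 2 N : ℝ) ≤ 2 * Real.log N := by
      have e3 : ((2 : ℝ) ^ Nat.log 2 N) ≤ N := by
        exact_mod_cast Nat.pow_log_le_self 2 hN'.ne'
      have e4 := Real.log_le_log (by positivity) e3
      rw [Real.log_pow] at e4
      have e5 : (1 / 2 : ℝ) ≤ Real.log 2 := by
        have := Real.log_two_gt_d9
        linarith
      have e6 : (0 : ℝ) ≤ (Nat.log 2 N : ℝ) := by positivity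
      nlinarith
    have e7 : (Nat.clog 2 N : ℝ) ≤ (Nat.log 2 N : ℝ) + 1 := by exact_mod_cast e1
    linarith
  refine ⟨X, h8, ?_, ?_, ?_, ?_, ?_, ?_, ?_, hN'⟩
  · rw [hpow]
    norm_num
  · rw [hpow, Real.sqrt_eq_rpow]
    norm_num
  · rw [hpow]
    norm_num
  · rw [hpow]
    norm_num
  · have : (10 : ℝ) ≤ X := le_trans (by norm_num) h8
    linarith
  · have : (10 : ℝ) ≤ X := le_trans (by norm_num) h8
    linarith
  · exact_mod_cast Nat.le_pow_clog (b := 2) (by norm_num) N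

theorem NM2_exp {X z : ℝ} {N : ℕ} (hN : 0 < N) (h : 4 * Real.log N + 2 ≤ X) (hz : X ≤ z) :
    Real.exp (-z) ≤ 1 / (N : ℝ) ^ 4 / 4 := by
  have hNr : (0 : ℝ) < N := by exact_mod_cast hN
  have h1 : Real.exp (-z) ≤ Real.exp (-(4 * Real.log N + 2)) := Real.exp_le_exp.2 (by linarith)
  refine h1.trans ?_
  rw [neg_add, Real.exp_add]
  have h2 : Real.exp (-(4 * Real.log N)) = 1 / (N : ℝ) ^ 4 := by
    rw [Real.exp_neg, one_div]
    congr 1
    rw [show 4 * Real.log (N : ℝ) = ((4 : ℕ) : ℝ) * Real.log N by norm_num, ← Real.log_pow,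
      Real.exp_log (by positivity)]
  have h3 : Real.exp (-2) ≤ 1 / 4 := by
    rw [Real.exp_neg, one_div]
    apply inv_anti₀ (by norm_num)
    have h4 := Real.add_one_le_exp (1 : ℝ)
    have h5 : Real.exp 2 = Real.exp 1 * Real.exp 1 := by
      rw [← Real.exp_add]
      norm_num
    rw [h5]
    nlinarith
  rw [h2, div_eq_mul_one_div (1 / (N : ℝ) ^ 4) 4]
  exact mul_le_mul_of_nonneg_left h3 (by positivity)

/-- the numerical hypotheses of `win_B` with `J = 1200`, `μ = 1 / M`, `K = 4 qmax`, `ε1 = 1 / M / 2^d`,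
`εf = 4 qmax / N^6` -/
theorem par_B : ∃ N0 : ℕ, ∀ (N : ℕ) (R : ℝ), N0 ≤ N → 1 ≤ R → R ^ 256 ≤ N →
    ∀ b d p M nmin qmax s : ℕ, Par N R b d p M nmin qmax s →
    ∀ T0 T1 : ℕ, (N : ℝ) / 2 ≤ 2 * T0 + b + d + 2 → (N : ℝ) ^ (31 / 32 : ℝ) ≤ 2 * T1 + b + d + 4 →
    T1 ≤ N →
    ∃ (δ0 y Λ η : ℝ) (D0 Λ' : ℕ),
      (b : ℝ) ≤ Real.sqrt N ∧ 64 * R ^ 2 ≤ b ∧ 12 * (d : ℝ) ≤ b ∧ 0 ≤ δ0 ∧ δ0 ^ 2 ≤ b ∧
      (d : ℝ) + R ^ 2 + δ0 ^ 2 ≤ Real.sqrt b ∧ (d : ℝ) * δ0 ≤ Real.sqrt N ∧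
      ((4 * qmax : ℕ) : ℝ) * R ≤ Real.sqrt N ∧ ((4 * qmax : ℕ) : ℝ) * R ^ 4 ≤ b * Real.sqrt b ∧
      (N : ℝ) ≤ 16 * T0 ∧ 0 ≤ y ∧ 0 ≤ Λ ∧ 0 ≤ η ∧ 10 ^ 40 * ((1200 : ℝ) + 1) * (N : ℝ) ^ 3 * η ≤ 1 ∧
      2 * Real.exp (-(δ0 ^ 2 / (16 * (1 / (M : ℝ)) ^ 2 * (p + 1)))) ≤ η ∧
      2 * Real.exp (-(y ^ 2 / (8 * ((b : ℝ) + d + 1)))) ≤ η ∧
      2 * Real.exp (-((Λ' : ℝ) ^ 2 / (2 * (T1 + 1)))) + 2 * Real.exp (-(T1 / 64 : ℝ)) ≤ η ∧
      Real.exp (-(Λ ^ 2 / (8 * (16 + 4 * ((b : ℝ) + d))))) ≤ η ∧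
      1 / (M : ℝ) / 2 ^ d ≤ η ∧ ((4 * qmax : ℕ) : ℝ) * (1 / (N : ℝ) ^ 6) ≤ η ∧
      Λ + 40 + y + δ0 + R + 10 * R ^ 2 * ((4 * qmax : ℕ) : ℝ) + 10 ^ 50 * ((1200 : ℝ) + 1) ^ 2 ≤ D0 ∧
      64 * (D0 + 20) * (Λ' + D0 + 20) ≤ T1 := by
  obtain ⟨N0, hN0⟩ := NM2_basic
  refine ⟨N0, fun N R hN hR1 hRN b d p M nmin qmax s hP T0 T1 hT0 hT1 _ => ?_⟩
  obtain ⟨X, hX, hXN, hsq, h716, h3132, hcl, hlog, hc2, hNpos⟩ := hN0 N hN
  have hNr : (0 : ℝ) < N := by exact_mod_cast hNpos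
  have hX0 : 0 < X := lt_of_lt_of_le (by positivity) hX
  have hX1 : (1 : ℝ) ≤ X := le_trans (by norm_num) hX
  have hRX : R ≤ X := by
    by_contra hcon
    push Not at hcon
    have := pow_lt_pow_left₀ hcon hX0.le (n := 256) (by norm_num)
    rw [hXN] at this
    linarith
  have hR0 : 0 ≤ R := by linarith
  have P := @NM2_pow X hX
  have Q : ∀ {i j : ℕ}, i ≤ j → X ^ i ≤ X ^ j := fun h => pow_le_pow_right₀ hX1 h
  have hR2 : R ^ 2 ≤ X ^ 2 := pow_le_pow_left₀ hR0 hRX 2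
  have hR4 : R ^ 4 ≤ X ^ 4 := pow_le_pow_left₀ hR0 hRX 4
  have hd : (d : ℝ) ≤ X := by
    rw [hP.hd]
    push_cast
    exact hcl
  have hd0 : (0 : ℝ) ≤ d := by positivity
  -- b
  have hb1 : X ^ 128 / 200 ≤ b := by
    have h1 : X ^ 128 / 100 - 1 ≤ (⌊Real.sqrt N / 100⌋₊ : ℝ) := by
      rw [hsq]
      have := Nat.lt_floor_add_one (X ^ 128 / 100)
      linarith
    have h2 : (⌊Real.sqrt N / 100⌋₊ : ℝ) ≤ b := by
      rcases hP.hb with h | h
      · rw [h]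
      · rw [h]
        push_cast
        linarith
    have h3 := P (i := 0) (j := 128) (by norm_num)
    rw [pow_zero, mul_one] at h3
    have h4 : (200 : ℝ) ≤ X ^ 128 := le_trans (by norm_num) h3
    linarith
  have hb2 : (b : ℝ) ≤ X ^ 128 / 50 := by
    have h1 : (⌊Real.sqrt N / 100⌋₊ : ℝ) ≤ X ^ 128 / 100 := by
      rw [hsq]
      exact Nat.floor_le (by positivity)
    have h2 : (b : ℝ) ≤ ⌊Real.sqrt N / 100⌋₊ + 1 := by
      rcases hP.hb with h | h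
      · rw [h]
        linarith
      · rw [h]
        push_cast
        linarith
    have h3 := P (i := 0) (j := 128) (by norm_num)
    rw [pow_zero, mul_one] at h3
    have h4 : (200 : ℝ) ≤ X ^ 128 := le_trans (by norm_num) h3
    linarith
  have hb0 : (0 : ℝ) < b := lt_of_lt_of_le (by positivity) hb1
  -- square root of b
  have hsb : X ^ 64 / 15 ≤ Real.sqrt b := by
    apply Real.le_sqrt_of_sq_le
    refine le_trans ?_ hb1
    have : (X ^ 64 / 15) ^ 2 = X ^ 128 / 225 := by ring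
    rw [this]
    have : 0 < X ^ 128 := by positivity
    linarith
  have hsb0 : 0 ≤ Real.sqrt b := Real.sqrt_nonneg _
  -- M and q
  have hM1 : X ^ 112 ≤ M := by
    rw [hP.hM, ← h716]
    exact Nat.le_ceil _
  have hM2 : (M : ℝ) ≤ X ^ 112 + 1 := by
    rw [hP.hM, ← h716]
    exact (Nat.ceil_lt_add_one (by positivity)).le
  have hM0 : (0 : ℝ) < M := lt_of_lt_of_le (by positivity) hM1
  have hq : (qmax : ℝ) ≤ 2 * X ^ 113 := by
    have h1 : (⌈R * M⌉₊ : ℝ) ≤ R * M + 1 := (Nat.ceil_lt_add_one (by positivity)).le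
    have h2 : (qmax : ℝ) = ⌈R * M⌉₊ + 2 := by
      rw [hP.hq]
      push_cast
      ring
    have h3 : R * M ≤ X * (X ^ 112 + 1) := by gcongr
    have h4 : X * (X ^ 112 + 1) = X ^ 113 + X := by ring
    have h5 := P (i := 1) (j := 113) (by norm_num)
    rw [pow_one] at h5
    have h6 : X + 3 ≤ 10 ^ 60 * X := by
      have : (3 : ℝ) ≤ X := le_trans (by norm_num) hX
      linarith
    linarith
  have hq0 : (0 : ℝ) ≤ qmax := by positivity
  have hp : (p : ℝ) + 1 ≤ X ^ 256 := by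
    rw [hXN]
    have h1 : (N : ℝ) = b + d + 2 * p := by
      have := hP.hN
      exact_mod_cast this
    have h2 : (1 : ℝ) ≤ b := by
      have h3 := P (i := 0) (j := 128) (by norm_num)
      rw [pow_zero, mul_one] at h3
      have h4 : (200 : ℝ) ≤ X ^ 128 := le_trans (by norm_num) h3
      linarith
    have h3 : (0 : ℝ) ≤ p := by positivity
    linarith
  have hp0 : (0 : ℝ) < (p : ℝ) + 1 := by positivity
  have hXe : ∀ {z : ℝ}, X ≤ z → Real.exp (-z) ≤ 1 / (N : ℝ) ^ 4 / 4 := fun h => NM2_exp hNpos hlog h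
  have hη0 : (0 : ℝ) < 1 / (N : ℝ) ^ 4 := by positivity
  have hXe2 : ∀ {z : ℝ}, X ≤ z → 2 * Real.exp (-z) ≤ 1 / (N : ℝ) ^ 4 / 2 := fun h => by
    have := hXe h
    linarith
  -- T1
  have hT1' : X ^ 248 / 4 ≤ T1 := by
    rw [h3132] at hT1
    have h1 := P (i := 128) (j := 248) (by norm_num)
    have h2 := P (i := 1) (j := 248) (by norm_num)
    have h3 := P (i := 0) (j := 248) (by norm_num)
    rw [pow_one] at h2
    rw [pow_zero] at h3
    linarith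
  have hT1pos : (1 : ℝ) ≤ T1 := by
    have h3 := P (i := 0) (j := 248) (by norm_num)
    rw [pow_zero] at h3
    linarith
  have hsT : X ^ 124 / 2 ≤ Real.sqrt T1 := by
    apply Real.le_sqrt_of_sq_le
    refine le_trans ?_ hT1'
    have : (X ^ 124 / 2) ^ 2 = X ^ 248 / 4 := by ring
    rw [this]
  have hsT0 : 0 ≤ Real.sqrt T1 := Real.sqrt_nonneg _
  have hsTT : Real.sqrt T1 * Real.sqrt T1 = T1 := Real.mul_self_sqrt (by positivity)
  refine ⟨X ^ 24, X ^ 80, X ^ 80, 1 / (N : ℝ) ^ 4, ⌈X ^ 120⌉₊, ⌈Real.sqrt T1 * X ^ 2⌉₊, ?_, ?_, ?_,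
    by positivity, ?_, ?_, ?_, ?_, ?_, ?_, by positivity, by positivity, hη0.le, ?_, ?_, ?_, ?_, ?_,
    ?_, ?_, ?_, ?_⟩
  · rw [hsq]
    have : 0 < X ^ 128 := by positivity
    linarith
  · have h1 := P (i := 2) (j := 128) (by norm_num)
    have : 0 < X ^ 2 := by positivity
    linarith
  · have h1 := P (i := 1) (j := 128) (by norm_num)
    rw [pow_one] at h1
    linarith
  · have h1 := P (i := 48) (j := 128) (by norm_num)
    have h2 : (X ^ 24) ^ 2 = X ^ 48 := by ring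
    rw [h2]
    have : 0 < X ^ 48 := by positivity
    linarith
  · refine le_trans ?_ hsb
    have h1 := P (i := 48) (j := 64) (by norm_num)
    have h2 : (X ^ 24) ^ 2 = X ^ 48 := by ring
    have h3 := Q (i := 2) (j := 48) (by norm_num)
    have h4 := Q (i := 1) (j := 48) (by norm_num)
    rw [pow_one] at h4
    rw [h2]
    have : 0 < X ^ 48 := by positivity
    linarith
  · rw [hsq]
    calc (d : ℝ) * X ^ 24 ≤ X * X ^ 24 := by gcongr
      _ = X ^ 25 := by ring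
      _ ≤ X ^ 128 := Q (by norm_num)
  · rw [hsq]
    push_cast
    calc 4 * (qmax : ℝ) * R ≤ 4 * (2 * X ^ 113) * X := by gcongr
      _ = 8 * X ^ 114 := by ring
      _ ≤ 10 ^ 60 * X ^ 114 := by
        have : 0 < X ^ 114 := by positivity
        linarith
      _ ≤ X ^ 128 := P (by norm_num)
  · push_cast
    have h1 : X ^ 128 / 200 * (X ^ 64 / 15) ≤ b * Real.sqrt b := by gcongr
    refine le_trans ?_ h1
    have h2 : 4 * (qmax : ℝ) * R ^ 4 ≤ 4 * (2 * X ^ 113) * X ^ 4 := by gcongr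
    refine h2.trans ?_
    have h3 := P (i := 117) (j := 192) (by norm_num)
    have h4 : 4 * (2 * X ^ 113) * X ^ 4 = 8 * X ^ 117 := by ring
    have h5 : X ^ 128 / 200 * (X ^ 64 / 15) = X ^ 192 / 3000 := by ring
    rw [h4, h5]
    have : 0 < X ^ 117 := by positivity
    linarith
  · have h1 := P (i := 128) (j := 256) (by norm_num)
    have h2 := P (i := 1) (j := 256) (by norm_num)
    have h3 := P (i := 0) (j := 256) (by norm_num)
    rw [pow_one] at h2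
    rw [pow_zero] at h3
    rw [hXN] at h1 h2 h3
    linarith
  · have h1 := P (i := 0) (j := 256) (by norm_num)
    rw [pow_zero, mul_one, hXN] at h1
    have h2 : 10 ^ 40 * ((1200 : ℝ) + 1) * (N : ℝ) ^ 3 * (1 / (N : ℝ) ^ 4) =
        10 ^ 40 * ((1200 : ℝ) + 1) / N := by
      field_simp
    rw [h2, div_le_one hNr]
    refine le_trans ?_ h1
    norm_num
  · refine (hXe2 ?_).trans (by linarith)
    have h1 : (16 * (1 / (M : ℝ)) ^ 2 * (p + 1)) = 16 * (p + 1) / (M : ℝ) ^ 2 := by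
      field_simp
    rw [h1, le_div_iff₀ (by positivity), mul_div_assoc', div_le_iff₀ (by positivity)]
    calc X * (16 * ((p : ℝ) + 1)) ≤ X * (16 * X ^ 256) := by gcongr
      _ = 16 * X ^ 257 := by ring
      _ ≤ 10 ^ 60 * X ^ 257 := by
        have : 0 < X ^ 257 := by positivity
        linarith
      _ ≤ X ^ 272 := P (by norm_num)
      _ = (X ^ 24) ^ 2 * (X ^ 112) ^ 2 := by ring
      _ ≤ (X ^ 24) ^ 2 * (M : ℝ) ^ 2 := by gcongr
  · refine (hXe2 ?_).trans (by linarith)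
    rw [le_div_iff₀ (by positivity)]
    calc X * (8 * ((b : ℝ) + d + 1)) ≤ X * (8 * (X ^ 128 / 50 + X + 1)) := by gcongr
      _ ≤ X * (10 ^ 60 * X ^ 128) := by
        refine mul_le_mul_of_nonneg_left ?_ hX0.le
        have h1 := Q (i := 1) (j := 128) (by norm_num)
        have h0 := Q (i := 0) (j := 128) (by norm_num)
        rw [pow_one] at h1
        rw [pow_zero] at h0
        linarith
      _ ≤ X * X ^ 129 := by
        gcongr
        exact P (by norm_num)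
      _ = X ^ 130 := by ring
      _ ≤ X ^ 160 := Q (by norm_num)
      _ = (X ^ 80) ^ 2 := by ring
  · have h1 : X ≤ (⌈Real.sqrt T1 * X ^ 2⌉₊ : ℝ) ^ 2 / (2 * (T1 + 1)) := by
      rw [le_div_iff₀ (by positivity)]
      have h2 : Real.sqrt T1 * X ^ 2 ≤ (⌈Real.sqrt T1 * X ^ 2⌉₊ : ℝ) := Nat.le_ceil _
      calc X * (2 * ((T1 : ℝ) + 1)) ≤ X * (2 * ((T1 : ℝ) + T1)) := by gcongr
        _ = 4 * X ^ 1 * T1 := by ring
        _ ≤ X ^ 4 * T1 := by
          gcongr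
          have h3 := P (i := 1) (j := 4) (by norm_num)
          rw [pow_one] at h3 ⊢
          linarith
        _ = (Real.sqrt T1 * Real.sqrt T1) * X ^ 4 := by rw [hsTT]; ring
        _ = (Real.sqrt T1 * X ^ 2) ^ 2 := by ring
        _ ≤ _ := by gcongr
    have h2 : X ≤ (T1 / 64 : ℝ) := by
      have h3 := P (i := 1) (j := 248) (by norm_num)
      rw [pow_one] at h3
      linarith
    have h3 := hXe2 h1
    have h4 := hXe2 h2
    linarith
  · refine (hXe ?_).trans (by linarith)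
    rw [le_div_iff₀ (by positivity)]
    calc X * (8 * (16 + 4 * ((b : ℝ) + d))) ≤ X * (8 * (16 + 4 * (X ^ 128 / 50 + X))) := by gcongr
      _ ≤ X * (10 ^ 60 * X ^ 128) := by
        refine mul_le_mul_of_nonneg_left ?_ hX0.le
        have h1 := Q (i := 1) (j := 128) (by norm_num)
        have h0 := Q (i := 0) (j := 128) (by norm_num)
        rw [pow_one] at h1
        rw [pow_zero] at h0
        linarith
      _ ≤ X * X ^ 129 := by
        gcongr
        exact P (by norm_num)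
      _ = X ^ 130 := by ring
      _ ≤ X ^ 160 := Q (by norm_num)
      _ = (X ^ 80) ^ 2 := by ring
  · have hM1' : (1 : ℝ) ≤ M := by
      refine le_trans ?_ hM1
      exact one_le_pow₀ hX1
    have h1 : (N : ℝ) ^ 4 ≤ 2 ^ d := by
      rw [hP.hd, mul_comm, pow_mul]
      have h1N : (1 : ℝ) ≤ N := by exact_mod_cast hNpos
      calc (N : ℝ) ^ 4 ≤ (N : ℝ) ^ 5 := pow_le_pow_right₀ h1N (by norm_num)
        _ ≤ (2 ^ Nat.clog 2 N) ^ 5 := pow_le_pow_left₀ hNr.le hc2 5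
    rw [div_div]
    apply one_div_le_one_div_of_le (by positivity)
    calc (N : ℝ) ^ 4 ≤ 1 * 2 ^ d := by rw [one_mul]; exact h1
      _ ≤ M * 2 ^ d := by gcongr
  · push_cast
    rw [mul_one_div, div_le_div_iff₀ (by positivity) (by positivity)]
    have h1 : 4 * (qmax : ℝ) ≤ (N : ℝ) ^ 2 := by
      have h2 : 4 * (qmax : ℝ) ≤ 8 * X ^ 113 := by linarith
      refine h2.trans ?_
      rw [← hXN, ← pow_mul]
      have h3 := P (i := 113) (j := 256 * 2) (by norm_num)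
      have : 0 < X ^ 113 := by positivity
      linarith
    calc 4 * (qmax : ℝ) * (N : ℝ) ^ 4 ≤ (N : ℝ) ^ 2 * (N : ℝ) ^ 4 := by gcongr
      _ = 1 * (N : ℝ) ^ 6 := by ring
  · have h1 : X ^ 120 ≤ (⌈X ^ 120⌉₊ : ℝ) := Nat.le_ceil _
    refine le_trans ?_ h1
    push_cast
    have h2 : 10 * R ^ 2 * (4 * (qmax : ℝ)) ≤ 10 * X ^ 2 * (4 * (2 * X ^ 113)) := by gcongr
    have h3 : 10 * X ^ 2 * (4 * (2 * X ^ 113)) = 80 * X ^ 115 := by ring
    rw [h3] at h2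
    have h4 := P (i := 119) (j := 120) (by norm_num)
    have h5 := Q (i := 115) (j := 119) (by norm_num)
    have h6 := Q (i := 80) (j := 119) (by norm_num)
    have h7 := Q (i := 24) (j := 119) (by norm_num)
    have h8 := Q (i := 1) (j := 119) (by norm_num)
    rw [pow_one] at h8
    have h9 : 10 ^ 50 * ((1200 : ℝ) + 1) ^ 2 ≤ X := le_trans (by norm_num) hX
    have h10 : (40 : ℝ) ≤ X := le_trans (by norm_num) hX
    have h11 : (1 : ℝ) ≤ X ^ 119 := one_le_pow₀ hX1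
    linarith
  · set D : ℝ := (⌈X ^ 120⌉₊ : ℝ) with hD
    have h1 : D ≤ X ^ 120 + 1 := (Nat.ceil_lt_add_one (by positivity)).le
    have h2 : (⌈Real.sqrt T1 * X ^ 2⌉₊ : ℝ) ≤ Real.sqrt T1 * X ^ 2 + 1 :=
      (Nat.ceil_lt_add_one (by positivity)).le
    have hD0 : 0 ≤ D := by positivity
    have h3 := P (i := 0) (j := 120) (by norm_num)
    rw [pow_zero, mul_one] at h3
    have h4 : D + 20 ≤ 2 * X ^ 120 := by linarith
    have h5 : X ^ 126 / 2 ≤ Real.sqrt T1 * X ^ 2 := by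
      calc X ^ 126 / 2 = X ^ 124 / 2 * X ^ 2 := by ring
        _ ≤ _ := by gcongr
    have h6 := P (i := 120) (j := 126) (by norm_num)
    have h7 : (⌈Real.sqrt T1 * X ^ 2⌉₊ : ℝ) + D + 20 ≤ 2 * (Real.sqrt T1 * X ^ 2) := by linarith
    have h8 : 256 * X ^ 122 ≤ Real.sqrt T1 := by
      refine le_trans ?_ hsT
      have h9 := P (i := 122) (j := 124) (by norm_num)
      have : 0 < X ^ 122 := by positivity
      linarith
    have fin : 64 * (D + 20) * ((⌈Real.sqrt T1 * X ^ 2⌉₊ : ℝ) + D + 20) ≤ T1 := by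
      calc 64 * (D + 20) * ((⌈Real.sqrt T1 * X ^ 2⌉₊ : ℝ) + D + 20)
        ≤ 64 * (2 * X ^ 120) * (2 * (Real.sqrt T1 * X ^ 2)) := by gcongr
        _ = 256 * X ^ 122 * Real.sqrt T1 := by ring
        _ ≤ Real.sqrt T1 * Real.sqrt T1 := by gcongr
        _ = T1 := hsTT
    rw [hD] at fin
    exact_mod_cast fin

end BLO
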