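import Pool.Agent.Lib.BLO.WinB
import Pool.Agent.Lib.BLO.ExWW
import Pool.Agent.Lib.BLO.Roles
import Pool.Agent.Lib.BLO.WinNumB
import Pool.Agent.Lib.BLO.WWOk
import Pool.Agent.Lib.BLO.WWA
import Pool.Agent.Lib.BLO.WWT
import Pool.Agent.Lib.BLO.Ops2

/-!
# Chunk WS: assembly of `WindowStmt`
-/

namespace BLO

open Finset BLP

theorem window_stmt : WindowStmt := by
  classical
  obtain ⟨C, hC, hex⟩ := exists_ww
  obtain ⟨CA, hCA, hA⟩ := ww_A C
  obtain ⟨CD, hCD, hD⟩ := ww_D C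
  obtain ⟨CI, hCI, hI⟩ := ww_I C
  obtain ⟨CT, hCT, hT⟩ := ww_T C
  obtain ⟨N1, h1⟩ := exists_par
  obtain ⟨N2, h2⟩ := par_ww
  obtain ⟨N3, h3⟩ := par_q
  obtain ⟨N4, h4⟩ := par_B
  refine ⟨10 ^ 70 * ((1200 : ℝ) + 1) ^ 3 + 603 * CA + 602 * CD + 3 * CI + 1205 * CT,
    N1 + N2 + N3 + N4 + 1, by positivity, ?_⟩
  intro N a R hN hR hRN ha hhalf hlev
  have hN1 : 1 ≤ N := by omega
  have hN1r : (1 : ℝ) ≤ N := by exact_mod_cast hN1
  have hN0r : (0 : ℝ) < N := by linarith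
  obtain ⟨b, d, p, M, nmin, qmax, s, hp⟩ := h1 N R (by omega) hR hRN
  obtain ⟨w1, w2, w3, w4, w5, w6, w7, w8, w9, w10, w11, w12⟩ :=
    h2 N R (by omega) hR hRN b d p M nmin qmax s hp
  obtain ⟨q1, q2, q3⟩ := h3 N R (by omega) hR hRN b d p M nmin qmax s hp
  have hbd : b + d ≤ (univ.filter fun i => 1 ≤ a i ∧ a i ≤ 2).card := by
    have : ((b : ℝ) + d) ≤ ((univ.filter fun i => 1 ≤ a i ∧ a i ≤ 2).card : ℝ) := q3.trans hlev
    exact_mod_cast this
  obtain ⟨e, e1, e2, e3, e4⟩ := exists_roles N b d p hp.hN a R hR ha hbd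
  set A : WC (Fin b) (Fin d) (Fin p) → ℝ := fun i => a (e i) with hAdef
  have hε0 : (0 : ℝ) ≤ 1 / (N : ℝ) ^ 6 := by positivity
  obtain ⟨W, Wa, Wμ, WK, hW, hE⟩ := hex b d p A R M nmin qmax s 300 (1 / (N : ℝ) ^ 6) hR w1
    (fun i => e1 i) (fun i => ha _) e2 w2 w3 w4 w5 w6 hε0 w7 w8 w9 w10 w11 w12
  have hcard : Fintype.card (WC (Fin b) (Fin d) (Fin p)) = N := by
    rw [Fintype.card_congr e, Fintype.card_fin]
  have hcr : ((Fintype.card (WC (Fin b) (Fin d) (Fin p)) : ℕ) : ℝ) = N := by rw [hcard]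
  haveI : Nonempty (Fin b) := ⟨⟨0, w1⟩⟩
  -- condition (B)
  set T0 : Finset (Fin p) := univ.filter fun k => ∀ s, 1 ≤ a (e (Sum.inr (k, s))) with hT0
  set T1 : Finset (Fin p) := univ.filter fun k => ∀ s, 1 ≤ a (e (Sum.inr (k, s))) ∧
    a (e (Sum.inr (k, s))) ≤ 2 with hT1
  have h01 : T1 ⊆ T0 := by
    intro k hk
    rw [hT1, Finset.mem_filter] at hk
    rw [hT0, Finset.mem_filter]
    exact ⟨Finset.mem_univ _, fun s => (hk.2 s).1⟩
  have hT0c : (N : ℝ) / 2 ≤ 2 * (T0.card : ℝ) + b + d + 2 := by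
    refine hhalf.trans ?_
    exact_mod_cast e3
  have hT1c : (N : ℝ) ^ (31 / 32 : ℝ) ≤ 2 * (T1.card : ℝ) + b + d + 4 := by
    refine hlev.trans ?_
    exact_mod_cast e4
  have hT1N : T1.card ≤ N := by
    have : T1.card ≤ p := by
      simpa using T1.card_le_univ
    have := hp.hN
    omega
  obtain ⟨δ0, y, Λ, η, D0, Λ', b1, b2, b3, b4, b5, b6, b7, b8, b9, b10, b11, b12, b13, b14, b15,
    b16, b17, b18, b19, b20, b21, b22⟩ :=
    h4 N R (by omega) hR hRN b d p M nmin qmax s hp T0.card T1.card hT0c hT1c hT1N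
  have hM0 : (0 : ℝ) < M := by linarith
  have hfrz := ww_frz W R (2 * 300) (1 / (N : ℝ) ^ 6) (1 / M / 2 ^ d) hW
  have hwa : W.data.a = A := Wa
  have hB := win_B W.data R (2 * (2 * 300)) (1 / M / 2 ^ d)
    (ww_wok W R (2 * 300) (1 / (N : ℝ) ^ 6) (1 / M / 2 ^ d) hW) (by positivity) T0 T1 h01
    (by
      intro k hk s
      rw [hT0, Finset.mem_filter] at hk
      rw [hwa]
      exact hk.2 s)
    (by
      intro k hk s
      rw [hT1, Finset.mem_filter] at hk
      rw [hwa]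
      exact (hk.2 s).2)
    W.Sc W.rho (rho_rho W R (2 * 300) (1 / (N : ℝ) ^ 6) (1 / M / 2 ^ d) hW)
    (fun x => rho_ne W x)
    (Sc_rho W R (2 * 300) (1 / (N : ℝ) ^ 6) (1 / M / 2 ^ d) hW)
    (Sc_ok W R (2 * 300) (1 / (N : ℝ) ^ 6) (1 / M / 2 ^ d) hW)
    (((4 * qmax : ℕ) : ℝ) * (1 / (N : ℝ) ^ 6)) δ0 y Λ η D0 Λ'
    (by
      rw [WK] at hfrz
      exact hfrz)
    (by rw [hcr, Fintype.card_fin]; exact b1)
    (by rw [Fintype.card_fin]; exact b2)
    (by
      rw [Fintype.card_fin, Fintype.card_fin]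
      exact_mod_cast b3)
    b4 (by rw [Fintype.card_fin]; exact b5)
    (by rw [Fintype.card_fin, Fintype.card_fin]; exact b6)
    (by rw [hcr, Fintype.card_fin]; exact b7)
    (by
      rw [hcr]
      show ((W.K : ℕ) : ℝ) * R ≤ _
      rw [WK]
      exact b8)
    (by
      rw [Fintype.card_fin]
      show ((W.K : ℕ) : ℝ) * R ^ 4 ≤ _
      rw [WK]
      exact b9)
    (by rw [hcr]; exact b10)
    b11 b12 b13
    (by
      rw [hcr]
      push_cast
      norm_num at b14 ⊢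
      exact b14)
    (by
      show 2 * Real.exp (-(δ0 ^ 2 / (16 * W.μ ^ 2 * ((Fintype.card (Fin p) : ℝ) + 1)))) ≤ η
      rw [Wμ, Fintype.card_fin]
      exact b15)
    (by rw [Fintype.card_fin, Fintype.card_fin]; exact b16)
    b17
    (by rw [Fintype.card_fin, Fintype.card_fin]; exact b18)
    b19 b20
    (by
      show Λ + 40 + y + δ0 + R + 10 * R ^ 2 * ((W.K : ℕ) : ℝ) +
        10 ^ 50 * (((2 * (2 * 300) : ℕ) : ℝ) + 1) ^ 2 ≤ D0
      rw [WK]
      norm_num at b21 ⊢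
      exact b21)
    b22
  obtain ⟨S', hS1, hS2, hS3⟩ := hB
  -- sizes
  set Q : ℝ := (b : ℝ) + d + 2 * (qmax * (4 * nmin + 3)) with hQ
  have hQ0 : 0 ≤ Q := by positivity
  have hQs : Q ≤ Real.sqrt N := q1
  have hs1 : (1 : ℝ) ≤ Real.sqrt N := Real.one_le_sqrt.mpr hN1r
  have hss : Real.sqrt N * Real.sqrt N = N := Real.mul_self_sqrt hN0r.le
  have hsN : Real.sqrt N ≤ N := by nlinarith only [hs1, hss]
  have hjj : (((2 * 300 : ℕ) : ℝ) + 1) = 601 := by norm_num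
  have hComp : Comp2 W.a ((10 ^ 70 * ((1200 : ℝ) + 1) ^ 3 + 603 * CA + 602 * CD + 3 * CI +
      1205 * CT) * N)
      (10 ^ 70 * ((1200 : ℝ) + 1) ^ 3 + 603 * CA + 602 * CD + 3 * CI + 1205 * CT)
      ((10 ^ 70 * ((1200 : ℝ) + 1) ^ 3 + 603 * CA + 602 * CD + 3 * CI + 1205 * CT) *
        Real.sqrt N)
      ((10 ^ 70 * ((1200 : ℝ) + 1) ^ 3 + 603 * CA + 602 * CD + 3 * CI + 1205 * CT) *
        Real.sqrt N)
      ((10 ^ 70 * ((1200 : ℝ) + 1) ^ 3 + 603 * CA + 602 * CD + 3 * CI + 1205 * CT) * N) := by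
    have hpow : (0 : ℝ) ≤ 2 ^ Fintype.card (WC (Fin b) (Fin d) (Fin p)) := by positivity
    refine ⟨S', W.rho, rho_rho W R (2 * 300) (1 / (N : ℝ) ^ 6) (1 / M / 2 ^ d) hW, hS1, ?_, ?_,
      ?_, ?_, ?_⟩
    · refine (hA (Fin b) (Fin d) (Fin p) W R (2 * 300) _ _ Q hW hE).trans ?_
      refine mul_le_mul_of_nonneg_right ?_ hpow
      rw [hjj, hcr, Fintype.card_fin]
      have h5 : (d : ℝ) * (1 + Q + 601 * Real.sqrt N) ≤ N := by
        refine (mul_le_mul_of_nonneg_left ?_ (Nat.cast_nonneg d)).trans q2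
        linarith
      have h6 : CA * (601 * N + Q + d * (1 + Q + 601 * Real.sqrt N)) ≤ CA * (603 * N) := by
        apply mul_le_mul_of_nonneg_left _ hCA.le
        linarith
      have h7 : 0 ≤ (10 ^ 70 * ((1200 : ℝ) + 1) ^ 3 + 602 * CD + 3 * CI + 1205 * CT) * N := by
        positivity
      calc CA * (601 * N + Q + d * (1 + Q + 601 * Real.sqrt N)) ≤ CA * (603 * N) := h6
        _ ≤ CA * (603 * N) +
            (10 ^ 70 * ((1200 : ℝ) + 1) ^ 3 + 602 * CD + 3 * CI + 1205 * CT) * N := by linarith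
        _ = _ := by ring
    · intro h hh c
      have h5 := hS3 h hh c
      rw [hwa] at h5
      rw [Wa]
      refine h5.trans (mul_le_mul_of_nonneg_right ?_ hpow)
      push_cast
      have : 0 ≤ 603 * CA + 602 * CD + 3 * CI + 1205 * CT := by positivity
      norm_num
      linarith
    · intro θ
      obtain ⟨c', hc'⟩ := hS2 θ
      refine (hI (Fin b) (Fin d) (Fin p) W R (2 * 300) _ _ Q hW hE S' θ c' hc').trans ?_
      refine mul_le_mul_of_nonneg_right ?_ hpow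
      rw [hcr]
      have h6 : CI * (Q + Real.sqrt N + 1) ≤ CI * (3 * Real.sqrt N) := by
        apply mul_le_mul_of_nonneg_left _ hCI.le
        linarith
      have h7 : 0 ≤ (10 ^ 70 * ((1200 : ℝ) + 1) ^ 3 + 603 * CA + 602 * CD + 1205 * CT) *
          Real.sqrt N := by positivity
      calc CI * (Q + Real.sqrt N + 1) ≤ CI * (3 * Real.sqrt N) := h6
        _ ≤ CI * (3 * Real.sqrt N) +
            (10 ^ 70 * ((1200 : ℝ) + 1) ^ 3 + 603 * CA + 602 * CD + 1205 * CT) *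
              Real.sqrt N := by linarith
        _ = _ := by ring
    · refine (hD (Fin b) (Fin d) (Fin p) W R (2 * 300) _ _ Q hW hE).trans ?_
      refine mul_le_mul_of_nonneg_right ?_ hpow
      rw [hjj, hcr]
      have h6 : CD * (Q + 601 * Real.sqrt N) ≤ CD * (602 * Real.sqrt N) := by
        apply mul_le_mul_of_nonneg_left _ hCD.le
        linarith
      have h7 : 0 ≤ (10 ^ 70 * ((1200 : ℝ) + 1) ^ 3 + 603 * CA + 3 * CI + 1205 * CT) *
          Real.sqrt N := by positivity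
      calc CD * (Q + 601 * Real.sqrt N) ≤ CD * (602 * Real.sqrt N) := h6
        _ ≤ CD * (602 * Real.sqrt N) +
            (10 ^ 70 * ((1200 : ℝ) + 1) ^ 3 + 603 * CA + 3 * CI + 1205 * CT) *
              Real.sqrt N := by linarith
        _ = _ := by ring
    · intro θ
      obtain ⟨c', hc'⟩ := hS2 θ
      refine (hT (Fin b) (Fin d) (Fin p) W R (2 * 300) _ _ Q hW hE S' θ c' hc').trans ?_
      refine mul_le_mul_of_nonneg_right ?_ hpow
      rw [hjj, hcr]
      have h5 : Q * (Q + 601 * Real.sqrt N + 1) ≤ 603 * N := by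
        calc Q * (Q + 601 * Real.sqrt N + 1) ≤
            Real.sqrt N * (Real.sqrt N + 601 * Real.sqrt N + Real.sqrt N) := by
              apply mul_le_mul hQs _ (by positivity) (by positivity)
              linarith
          _ = 603 * (Real.sqrt N * Real.sqrt N) := by ring
          _ = 603 * N := by rw [hss]
      have h6 : CT * (601 * N + Q * (Q + 601 * Real.sqrt N + 1)) ≤ CT * (1204 * N) := by
        apply mul_le_mul_of_nonneg_left _ hCT.le
        linarith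
      have h7 : 0 ≤ (10 ^ 70 * ((1200 : ℝ) + 1) ^ 3 + 603 * CA + 602 * CD + 3 * CI + CT) * N := by
        positivity
      calc CT * (601 * N + Q * (Q + 601 * Real.sqrt N + 1)) ≤ CT * (1204 * N) := h6
        _ ≤ CT * (1204 * N) +
            (10 ^ 70 * ((1200 : ℝ) + 1) ^ 3 + 603 * CA + 602 * CD + 3 * CI + CT) * N := by
              linarith
        _ = _ := by ring
  have hfin := hComp.equiv e.symm
  have hae : (fun k => W.a (e.symm k)) = a := by
    funext k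
    rw [Wa]
    simp [hAdef]
  rw [hae] at hfin
  exact hfin

end BLO
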